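import Mathlib
import Pool.Agent.H438R2.RZ.Defs
set_option autoImplicit false

/-! # Bochner-Riesz means of block radial functions: basic facts (task B0) -/

namespace Pool.Agent.H438R2.RZ

open MeasureTheory Set Complex
open scoped ENNReal RealInnerProductSpace
open Pool.Agent.H789R2.FR (E sg)
open Pool.Agent.H438R2.BR (Phi)

namespace B0aux

theorem norm_e (x : ℝ) : ‖e x‖ = 1 := by
  unfold e
  rw [Complex.norm_exp_ofReal_mul_I]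

theorem cont_e : Continuous e := by
  unfold e
  fun_prop

theorem Q_meas : MeasurableSet Q := measurableSet_Ioi.prod measurableSet_Ioi

theorem Q_open : IsOpen Q := isOpen_Ioi.prod isOpen_Ioi

theorem asm_kernel (ν : Measure (ℝ × ℂ)) (t : ℝ) :
    AEStronglyMeasurable (fun q : ℝ × ℂ => q.2 * e (q.1 * t)) ν := by
  apply Continuous.aestronglyMeasurable
  have := cont_e
  fun_prop

theorem bump_bdd {ψ : ℝ → ℝ} (hψ : Bump ψ) : ∃ M : ℝ, 0 ≤ M ∧ ∀ v, |ψ v| ≤ M := by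
  have hc : ContinuousOn (fun v => |ψ v|) (Icc (1 / 2) 2) := hψ.1.continuous.abs.continuousOn
  obtain ⟨M, hM⟩ := (isCompact_Icc.image_of_continuousOn hc).bddAbove
  refine ⟨max M 0, le_max_right _ _, fun v => ?_⟩
  by_cases hv : ψ v = 0
  · rw [hv, abs_zero]; exact le_max_right _ _
  · exact le_trans (hM ⟨v, hψ.2 v hv, rfl⟩) (le_max_left _ _)

end B0aux

open B0aux

theorem adm_bdd {κ : ℝ → ℂ} (h : Adm κ) : ∃ B : ℝ, 0 ≤ B ∧ ∀ t : ℝ, 0 < t → ‖κ t‖ ≤ B := by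
  obtain ⟨ν, hν, h1, -, -, h2⟩ := h
  refine ⟨1 * ν.real univ, by positivity, fun t ht => ?_⟩
  rw [h2 t ht]
  refine norm_integral_le_of_norm_le_const ?_
  filter_upwards [h1] with q hq
  rw [norm_mul, norm_e, mul_one]; exact hq

theorem adm_cont {κ : ℝ → ℂ} (h : Adm κ) : ContinuousOn κ (Ioi 0) := by
  obtain ⟨ν, hν, h1, -, -, h2⟩ := h
  have hc : Continuous (fun t : ℝ => ∫ q, q.2 * e (q.1 * t) ∂ν) := by
    refine continuous_of_dominated (bound := fun _ => (1 : ℝ)) (fun t => asm_kernel ν t)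
      (fun t => ?_) (integrable_const _) ?_
    · filter_upwards [h1] with q hq
      rw [norm_mul, norm_e, mul_one]; exact hq
    · refine Filter.Eventually.of_forall (fun q => ?_)
      have := cont_e
      fun_prop
  exact hc.continuousOn.congr (fun t ht => h2 t ht)

theorem mR_bdd (ψ : ℝ → ℝ) (hψ : Bump ψ) : ∃ M : ℝ, ∀ L : ℝ, ∀ ξ, ‖mR ψ L ξ‖ ≤ M := by
  obtain ⟨M, -, hM⟩ := bump_bdd hψ
  refine ⟨M, fun L ξ => ?_⟩
  unfold mR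
  rw [Complex.norm_real]
  exact hM _

theorem mR_good (ψ : ℝ → ℝ) (hψ : Bump ψ) (L : ℝ) (hL : 1 ≤ L) : Good (mR ψ L) := by
  refine ⟨?_, ?_, 1, fun z hz => ?_⟩
  · apply Continuous.measurable
    have := hψ.1.continuous
    unfold mR
    fun_prop
  · obtain ⟨M, hM⟩ := mR_bdd ψ hψ
    exact ⟨M, hM L⟩
  · have h0 : ψ (L ^ 2 * (1 - (z.1 ^ 2 + z.2 ^ 2))) ≠ 0 := by
      intro h
      apply hz
      unfold mR
      rw [h]; simp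
    obtain ⟨h1, -⟩ := hψ.2 _ h0
    have hL2 : (1 : ℝ) ≤ L ^ 2 := one_le_pow₀ hL
    have hlt : z.1 ^ 2 + z.2 ^ 2 ≤ 1 := by
      by_contra hne
      push Not at hne
      nlinarith
    constructor
    · rw [← sq_le_one_iff_abs_le_one]; nlinarith [sq_nonneg z.2]
    · rw [← sq_le_one_iff_abs_le_one]; nlinarith [sq_nonneg z.1]

theorem good_add {g g' : ℝ × ℝ → ℂ} (h : Good g) (h' : Good g') : Good (fun z => g z + g' z) := by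
  obtain ⟨h1, ⟨M, hM⟩, B, hB⟩ := h
  obtain ⟨h1', ⟨M', hM'⟩, B', hB'⟩ := h'
  refine ⟨h1.add h1', ⟨M + M', fun z => (norm_add_le _ _).trans (add_le_add (hM z) (hM' z))⟩,
    max B B', fun z hz => ?_⟩
  by_cases h0 : g z = 0
  · have : g' z ≠ 0 := by
      intro h0'
      apply hz
      simp [h0, h0']
    exact ⟨(hB' z this).1.trans (le_max_right _ _), (hB' z this).2.trans (le_max_right _ _)⟩
  · exact ⟨(hB z h0).1.trans (le_max_left _ _), (hB z h0).2.trans (le_max_left _ _)⟩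

theorem good_mul {g : ℝ × ℝ → ℂ} (h : Good g) (c : ℝ × ℝ → ℂ) (hc : Measurable c) (B : ℝ)
    (hB : ∀ z, ‖c z‖ ≤ B) : Good (fun z => c z * g z) := by
  obtain ⟨h1, ⟨M, hM⟩, B', hB'⟩ := h
  refine ⟨hc.mul h1, ⟨B * M, fun z => ?_⟩, B', fun z hz => hB' z (fun h0 => hz ?_)⟩
  · rw [norm_mul]
    exact mul_le_mul (hB z) (hM z) (norm_nonneg _) ((norm_nonneg _).trans (hB z))
  · simp [h0]

theorem good_ind {g : ℝ × ℝ → ℂ} (h : Good g) (s : Set (ℝ × ℝ)) (hs : MeasurableSet s) :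
    Good (s.indicator g) := by
  obtain ⟨h1, ⟨M, hM⟩, B', hB'⟩ := h
  refine ⟨h1.indicator hs, ⟨M, fun z => (norm_indicator_le_norm_self _ _).trans (hM z)⟩, B',
    fun z hz => hB' z (fun h0 => hz ?_)⟩
  by_cases hzs : z ∈ s
  · rw [indicator_of_mem hzs, h0]
  · rw [indicator_of_notMem hzs]

theorem good_int {g : ℝ × ℝ → ℂ} (h : Good g) : Integrable g := by
  obtain ⟨h1, ⟨M, hM⟩, B, hB⟩ := h
  have hsub : ∀ z, z ∉ (Icc (-B) B ×ˢ Icc (-B) B : Set (ℝ × ℝ)) → g z = 0 := by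
    intro z hz
    by_contra h0
    apply hz
    obtain ⟨h2, h3⟩ := hB z h0
    exact ⟨abs_le.1 h2, abs_le.1 h3⟩
  have e1 : g = (Icc (-B) B ×ˢ Icc (-B) B : Set (ℝ × ℝ)).indicator g := by
    symm
    rw [indicator_eq_self]
    intro z hz
    by_contra h0
    exact hz (hsub z h0)
  rw [e1, integrable_indicator_iff (measurableSet_Icc.prod measurableSet_Icc)]
  refine Measure.integrableOn_of_bounded (M := M) ?_ h1.aestronglyMeasurable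
    (Filter.Eventually.of_forall hM)
  exact (isCompact_Icc.prod isCompact_Icc).measure_lt_top.ne

theorem good_wt (k m : ℕ) (hk : 1 ≤ k) (hm : 1 ≤ m) {g : ℝ × ℝ → ℂ} (h : Good g) :
    Good (fun y => ((wt k m y : ℝ) : ℂ) * g y) := by
  obtain ⟨h1, ⟨M, hM⟩, B, hB⟩ := h
  have hmw : Measurable (fun y : ℝ × ℝ => ((wt k m y : ℝ) : ℂ)) := by
    unfold wt
    fun_prop
  have ek : 0 ≤ ((k : ℝ) - 1) / 2 := by
    have : (1 : ℝ) ≤ k := by exact_mod_cast hk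
    linarith
  have em : 0 ≤ ((m : ℝ) - 1) / 2 := by
    have : (1 : ℝ) ≤ m := by exact_mod_cast hm
    linarith
  refine ⟨hmw.mul h1, ⟨(B ^ (((k : ℝ) - 1) / 2) * B ^ (((m : ℝ) - 1) / 2)) * M ⊔ 0, fun z => ?_⟩,
    B, fun z hz => hB z (fun h0 => hz (by simp [h0]))⟩
  show ‖((wt k m z : ℝ) : ℂ) * g z‖ ≤ _
  by_cases h0 : g z = 0
  · rw [h0, mul_zero, norm_zero]; exact le_max_right _ _
  · refine le_trans ?_ (le_max_left _ _)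
    obtain ⟨h2, h3⟩ := hB z h0
    have hB0 : 0 ≤ B := (abs_nonneg _).trans h2
    rw [norm_mul, Complex.norm_real]
    refine mul_le_mul ?_ (hM z) (norm_nonneg _) (by positivity)
    unfold wt
    rw [Real.norm_eq_abs, abs_mul]
    refine mul_le_mul ?_ ?_ (abs_nonneg _) (by positivity)
    · exact (Real.abs_rpow_le_abs_rpow _ _).trans (Real.rpow_le_rpow (abs_nonneg _) h2 ek)
    · exact (Real.abs_rpow_le_abs_rpow _ _).trans (Real.rpow_le_rpow (abs_nonneg _) h3 em)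

namespace B0aux

/-- the integrand of `V` is measurable -/
theorem asm_ker {κ₁ κ₂ : ℝ → ℂ} (h1 : Adm κ₁) (h2 : Adm κ₂) {h : ℝ × ℝ → ℂ}
    (hh : AEStronglyMeasurable h (volume.restrict Q)) {ξ : ℝ × ℝ} (hξ : ξ ∈ Q) :
    AEStronglyMeasurable (fun z : ℝ × ℝ => κ₁ (ξ.1 * z.1) * κ₂ (ξ.2 * z.2) * h z)
      (volume.restrict Q) := by
  have c1 : ContinuousOn (fun z : ℝ × ℝ => κ₁ (ξ.1 * z.1)) Q :=
    (adm_cont h1).comp (by fun_prop) (fun z hz => mem_Ioi.2 (mul_pos hξ.1 hz.1))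
  have c2 : ContinuousOn (fun z : ℝ × ℝ => κ₂ (ξ.2 * z.2)) Q :=
    (adm_cont h2).comp (by fun_prop) (fun z hz => mem_Ioi.2 (mul_pos hξ.2 hz.2))
  exact ((c1.mul c2).aestronglyMeasurable Q_meas).mul hh

theorem ker_bdd {κ₁ κ₂ : ℝ → ℂ} {B₁ B₂ : ℝ} (h01 : 0 ≤ B₁)
    (h1 : ∀ t : ℝ, 0 < t → ‖κ₁ t‖ ≤ B₁) (h2 : ∀ t : ℝ, 0 < t → ‖κ₂ t‖ ≤ B₂)
    (h : ℝ × ℝ → ℂ) {ξ z : ℝ × ℝ} (hξ : ξ ∈ Q) (hz : z ∈ Q) :
    ‖κ₁ (ξ.1 * z.1) * κ₂ (ξ.2 * z.2) * h z‖ ≤ (B₁ * B₂) * ‖h z‖ := by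
  rw [norm_mul, norm_mul]
  refine mul_le_mul_of_nonneg_right ?_ (norm_nonneg _)
  exact mul_le_mul (h1 _ (mul_pos hξ.1 hz.1)) (h2 _ (mul_pos hξ.2 hz.2)) (norm_nonneg _) h01

theorem ker_int {κ₁ κ₂ : ℝ → ℂ} (h1 : Adm κ₁) (h2 : Adm κ₂) {h : ℝ × ℝ → ℂ}
    (hh : IntegrableOn h Q) {ξ : ℝ × ℝ} (hξ : ξ ∈ Q) :
    IntegrableOn (fun z : ℝ × ℝ => κ₁ (ξ.1 * z.1) * κ₂ (ξ.2 * z.2) * h z) Q := by
  obtain ⟨B₁, h01, hB₁⟩ := adm_bdd h1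
  obtain ⟨B₂, h02, hB₂⟩ := adm_bdd h2
  refine Integrable.mono' (hh.norm.const_mul (B₁ * B₂)) (asm_ker h1 h2 hh.1 hξ) ?_
  filter_upwards [ae_restrict_mem Q_meas] with z hz
  exact ker_bdd h01 hB₁ hB₂ h hξ hz

/-- `V` and similar integrals are bounded -/
theorem gen_bdd {κ₁ κ₂ : ℝ → ℂ} {B₁ B₂ : ℝ} (h01 : 0 ≤ B₁) 
    (h1 : ∀ t : ℝ, 0 < t → ‖κ₁ t‖ ≤ B₁) (h2 : ∀ t : ℝ, 0 < t → ‖κ₂ t‖ ≤ B₂)
    {h : ℝ × ℝ → ℂ} (hh : IntegrableOn h Q) {ξ : ℝ × ℝ} (hξ : ξ ∈ Q) :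
    ‖∫ z in Q, κ₁ (ξ.1 * z.1) * κ₂ (ξ.2 * z.2) * h z‖ ≤ (B₁ * B₂) * ∫ z in Q, ‖h z‖ := by
  rw [← integral_const_mul]
  refine norm_integral_le_of_norm_le (hh.norm.const_mul (B₁ * B₂)) ?_
  filter_upwards [ae_restrict_mem Q_meas] with z hz
  exact ker_bdd h01 h1 h2 h hξ hz

/-- and continuous -/
theorem gen_cont {κ₁ κ₂ : ℝ → ℂ} (h1 : Adm κ₁) (h2 : Adm κ₂) {h : ℝ × ℝ → ℂ}
    (hh : IntegrableOn h Q) :
    ContinuousOn (fun ξ : ℝ × ℝ => ∫ z in Q, κ₁ (ξ.1 * z.1) * κ₂ (ξ.2 * z.2) * h z) Q := by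
  obtain ⟨B₁, h01, hB₁⟩ := adm_bdd h1
  obtain ⟨B₂, h02, hB₂⟩ := adm_bdd h2
  refine continuousOn_of_dominated (bound := fun z => (B₁ * B₂) * ‖h z‖)
    (fun ξ hξ => asm_ker h1 h2 hh.1 hξ) (fun ξ hξ => ?_) (hh.norm.const_mul _) ?_
  · filter_upwards [ae_restrict_mem Q_meas] with z hz
    exact ker_bdd h01 hB₁ hB₂ h hξ hz
  · filter_upwards [ae_restrict_mem Q_meas] with z hz
    have c1 : ContinuousOn (fun ξ : ℝ × ℝ => κ₁ (ξ.1 * z.1)) Q :=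
      (adm_cont h1).comp (by fun_prop) (fun ξ hξ => mem_Ioi.2 (mul_pos hξ.1 hz.1))
    have c2 : ContinuousOn (fun ξ : ℝ × ℝ => κ₂ (ξ.2 * z.2)) Q :=
      (adm_cont h2).comp (by fun_prop) (fun ξ hξ => mem_Ioi.2 (mul_pos hξ.2 hz.2))
    exact (c1.mul c2).mul continuousOn_const

end B0aux

theorem V_bdd (κ₁ κ₂ : ℝ → ℂ) (h1 : Adm κ₁) (h2 : Adm κ₂) : ∃ C : ℝ, 0 ≤ C ∧
    ∀ h : ℝ × ℝ → ℂ, Good h → ∀ ξ ∈ Q, ‖V κ₁ κ₂ h ξ‖ ≤ C * ∫ z in Q, ‖h z‖ := by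
  obtain ⟨B₁, h01, hB₁⟩ := adm_bdd h1
  obtain ⟨B₂, h02, hB₂⟩ := adm_bdd h2
  exact ⟨B₁ * B₂, mul_nonneg h01 h02, fun h hh ξ hξ =>
    gen_bdd h01 hB₁ hB₂ (good_int hh).integrableOn hξ⟩

theorem V_cont (κ₁ κ₂ : ℝ → ℂ) (h1 : Adm κ₁) (h2 : Adm κ₂) (h : ℝ × ℝ → ℂ) (hh : Good h) :
    ContinuousOn (V κ₁ κ₂ h) Q :=
  gen_cont h1 h2 (good_int hh).integrableOn

namespace B0aux

theorem mV_int {κ₁ κ₂ : ℝ → ℂ} (h1 : Adm κ₁) (h2 : Adm κ₂) {m h : ℝ × ℝ → ℂ} (hm : Good m)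
    (hh : Good h) : IntegrableOn (fun ξ => m ξ * V κ₁ κ₂ h ξ) Q := by
  obtain ⟨C, hC, hV⟩ := V_bdd κ₁ κ₂ h1 h2
  refine Integrable.mono' (g := fun ξ => ‖m ξ‖ * (C * ∫ z in Q, ‖h z‖))
    ((good_int hm).integrableOn.norm.mul_const _)
    (hm.1.aestronglyMeasurable.mul ((V_cont κ₁ κ₂ h1 h2 h hh).aestronglyMeasurable Q_meas)) ?_
  filter_upwards [ae_restrict_mem Q_meas] with ξ hξ
  rw [norm_mul]
  exact mul_le_mul_of_nonneg_left (hV h hh ξ hξ) (norm_nonneg _)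

theorem A_eq (κ₁ κ₂ : ℝ → ℂ) (m h : ℝ × ℝ → ℂ) :
    A κ₁ κ₂ m h = fun z => ∫ ξ in Q, κ₁ (z.1 * ξ.1) * κ₂ (z.2 * ξ.2) *
      (m ξ * V κ₁ κ₂ h ξ) := by
  funext z
  unfold A
  congr 1
  funext ξ
  ring

end B0aux

theorem A_bdd (κ₁ κ₂ : ℝ → ℂ) (h1 : Adm κ₁) (h2 : Adm κ₂) (m : ℝ × ℝ → ℂ) (hm : Good m) :
    ∃ C : ℝ, 0 ≤ C ∧ ∀ h : ℝ × ℝ → ℂ, Good h → ∀ z ∈ Q,
      ‖A κ₁ κ₂ m h z‖ ≤ C * ∫ z in Q, ‖h z‖ := by
  obtain ⟨B₁, h01, hB₁⟩ := adm_bdd h1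
  obtain ⟨B₂, h02, hB₂⟩ := adm_bdd h2
  obtain ⟨C, hC, hV⟩ := V_bdd κ₁ κ₂ h1 h2
  have hm0 : 0 ≤ ∫ z in Q, ‖m z‖ := integral_nonneg (fun _ => norm_nonneg _)
  refine ⟨B₁ * B₂ * ((∫ z in Q, ‖m z‖) * C), by positivity, fun h hh z hz => ?_⟩
  rw [A_eq]
  refine (gen_bdd h01 hB₁ hB₂ (mV_int h1 h2 hm hh) hz).trans ?_
  rw [mul_assoc (B₁ * B₂)]
  refine mul_le_mul_of_nonneg_left ?_ (mul_nonneg h01 h02)
  rw [mul_assoc, ← integral_mul_const]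
  refine setIntegral_mono_on (mV_int h1 h2 hm hh).norm
    ((good_int hm).integrableOn.norm.mul_const _) Q_meas (fun ξ hξ => ?_)
  rw [norm_mul]
  exact mul_le_mul_of_nonneg_left (hV h hh ξ hξ) (norm_nonneg _)

theorem A_cont (κ₁ κ₂ : ℝ → ℂ) (h1 : Adm κ₁) (h2 : Adm κ₂) (m h : ℝ × ℝ → ℂ) (hm : Good m)
    (hh : Good h) : ContinuousOn (A κ₁ κ₂ m h) Q := by
  rw [A_eq]
  exact gen_cont h1 h2 (mV_int h1 h2 hm hh)

theorem A_meas (κ₁ κ₂ : ℝ → ℂ) (h1 : Adm κ₁) (h2 : Adm κ₂) (m h : ℝ × ℝ → ℂ) (hm : Good m)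
    (hh : Good h) : Measurable (Q.indicator (A κ₁ κ₂ m h)) := by
  classical
  rw [← piecewise_eq_indicator]
  exact (A_cont κ₁ κ₂ h1 h2 m h hm hh).measurable_piecewise continuousOn_const Q_meas

theorem A_add (κ₁ κ₂ : ℝ → ℂ) (h1 : Adm κ₁) (h2 : Adm κ₂) (m h h' : ℝ × ℝ → ℂ) (hm : Good m)
    (hh : Good h) (hh' : Good h') : ∀ z ∈ Q,
      A κ₁ κ₂ m (fun y => h y + h' y) z = A κ₁ κ₂ m h z + A κ₁ κ₂ m h' z := by
  intro z hz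
  have hV : ∀ ξ ∈ Q, V κ₁ κ₂ (fun y => h y + h' y) ξ = V κ₁ κ₂ h ξ + V κ₁ κ₂ h' ξ := by
    intro ξ hξ
    unfold V
    rw [← integral_add (ker_int h1 h2 (good_int hh).integrableOn hξ)
      (ker_int h1 h2 (good_int hh').integrableOn hξ)]
    congr 1
    funext y
    ring
  rw [A_eq, A_eq, A_eq]
  beta_reduce
  rw [← integral_add (ker_int h1 h2 (mV_int h1 h2 hm hh) hz)
    (ker_int h1 h2 (mV_int h1 h2 hm hh') hz)]
  refine setIntegral_congr_fun Q_meas (fun ξ hξ => ?_)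
  beta_reduce
  rw [hV ξ hξ]
  ring

theorem A_congr (κ₁ κ₂ : ℝ → ℂ) (m h h' : ℝ × ℝ → ℂ) (hh : ∀ z ∈ Q, h z = h' z) :
    A κ₁ κ₂ m h = A κ₁ κ₂ m h' := by
  have hV : V κ₁ κ₂ h = V κ₁ κ₂ h' := by
    funext ξ
    unfold V
    refine setIntegral_congr_fun Q_meas (fun z hz => ?_)
    beta_reduce
    rw [hh z hz]
  funext z
  unfold A
  rw [hV]

namespace B0aux

theorem swap_int (f : ℝ × ℝ → ℂ) : ∫ z in Q, f z.swap = ∫ z in Q, f z := by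
  have hmp : MeasurePreserving (Prod.swap : ℝ × ℝ → ℝ × ℝ) volume volume :=
    Measure.measurePreserving_swap
  have he : MeasurableEmbedding (Prod.swap : ℝ × ℝ → ℝ × ℝ) :=
    (MeasurableEquiv.prodComm : ℝ × ℝ ≃ᵐ ℝ × ℝ).measurableEmbedding
  have := hmp.setIntegral_preimage_emb he f Q
  have hQ : (Prod.swap : ℝ × ℝ → ℝ × ℝ) ⁻¹' Q = Q := by
    ext z
    simp only [Q, mem_preimage, mem_prod, Prod.fst_swap, Prod.snd_swap]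
    exact and_comm
  rw [hQ] at this
  exact this

end B0aux

theorem A_swap (κ₁ κ₂ : ℝ → ℂ) (m h : ℝ × ℝ → ℂ) (z : ℝ × ℝ) :
    A κ₁ κ₂ m h z = A κ₂ κ₁ (fun ξ => m ξ.swap) (fun y => h y.swap) z.swap := by
  have hV : ∀ ξ, V κ₁ κ₂ h ξ.swap = V κ₂ κ₁ (fun y => h y.swap) ξ := by
    intro ξ
    unfold V
    rw [← swap_int]
    congr 1
    funext y
    simp only [Prod.fst_swap, Prod.snd_swap]
    ring
  unfold A
  rw [← swap_int]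
  congr 1
  funext ξ
  rw [hV]
  simp only [Prod.fst_swap, Prod.snd_swap]
  ring

theorem At_meas (k m : ℕ) (hk : 1 ≤ k) (hm : 1 ≤ m) (κ₂ : ℝ → ℂ) (h1 : Adm (kap k))
    (h2 : Adm κ₂) (M g : ℝ × ℝ → ℂ) (hM : Good M) (hg : Good g) :
    Measurable (Q.indicator (At k m κ₂ M g)) := by
  have h3 := A_meas (kap k) κ₂ h1 h2 M _ hM (good_wt k m hk hm hg)
  have hmw : Measurable (fun y : ℝ × ℝ => (((wt k m y)⁻¹ : ℝ) : ℂ)) := by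
    unfold wt
    fun_prop
  have e1 : Q.indicator (At k m κ₂ M g) = fun z => (((wt k m z)⁻¹ : ℝ) : ℂ) *
      Q.indicator (A (kap k) κ₂ M (fun y => ((wt k m y : ℝ) : ℂ) * g y)) z := by
    funext z
    by_cases hz : z ∈ Q
    · rw [indicator_of_mem hz, indicator_of_mem hz]; rfl
    · rw [indicator_of_notMem hz, indicator_of_notMem hz, mul_zero]
  rw [e1]
  exact hmw.mul h3

end Pool.Agent.H438R2.RZ
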