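import Mathlib
import Pool.Agent.H438R2.RZ.Defs
set_option autoImplicit false

/-! # RZ-K0: closure properties of admissible kernels, basic admissible kernels -/

namespace Pool.Agent.H438R2.RZ

open MeasureTheory Set Complex
open scoped ENNReal RealInnerProductSpace FourierTransform

namespace K0aux

lemma e_norm (x : ℝ) : ‖e x‖ = 1 := by
  unfold e; rw [Complex.norm_exp_ofReal_mul_I]

lemma e_cont : Continuous e := by
  unfold e; fun_prop

lemma e_meas : Measurable e := e_cont.measurable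

lemma adm_gen {α : Type} [MeasurableSpace α] (μ : Measure α) (v : α → ℝ) (hv : Measurable v)
    (w : α → ℂ) (hw : Integrable w μ) (hne : ∀ᵐ a ∂μ, w a ≠ 0 → v a ≠ 0)
    (hw2 : ∫⁻ a, ENNReal.ofReal (|v a| ^ (-(3 / 4 : ℝ))) * ‖w a‖ₑ ∂μ < ∞) (κ : ℝ → ℂ)
    (h : ∀ t : ℝ, 0 < t → κ t = ∫ a, w a * e (v a * t) ∂μ) : Adm κ := by
  set W : α → ℂ := hw.aestronglyMeasurable.mk w with hW
  have hWm : Measurable W := hw.aestronglyMeasurable.stronglyMeasurable_mk.measurable
  have hWw : w =ᵐ[μ] W := hw.aestronglyMeasurable.ae_eq_mk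
  have hWi : Integrable W μ := hw.congr hWw
  set d : α → ℝ≥0∞ := fun a => ‖W a‖ₑ with hd
  have hdm : Measurable d := hWm.enorm
  have hfin : ∫⁻ a, d a ∂μ ≠ ∞ := hWi.hasFiniteIntegral.ne
  set ν0 : Measure α := μ.withDensity d with hν0
  haveI : IsFiniteMeasure ν0 := isFiniteMeasure_withDensity hfin
  set φ : α → ℝ × ℂ := fun a => (v a, W a / (‖W a‖ : ℂ)) with hφ
  have hφm : Measurable φ := by
    refine hv.prodMk (hWm.div ?_)
    exact Complex.measurable_ofReal.comp hWm.norm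
  refine ⟨ν0.map φ, Measure.isFiniteMeasure_map _ _, ?_, ?_, ?_, ?_⟩
  · rw [ae_map_iff hφm.aemeasurable (measurableSet_le measurable_snd.norm measurable_const)]
    refine Filter.Eventually.of_forall fun a => ?_
    simp only [hφ]
    rw [norm_div, Complex.norm_real, norm_norm]
    exact div_self_le_one _
  · have hms : MeasurableSet {q : ℝ × ℂ | q.1 ≠ 0} :=
      (measurableSet_eq_fun measurable_fst measurable_const).compl
    rw [ae_map_iff hφm.aemeasurable hms]
    rw [hν0, ae_withDensity_iff hdm]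
    filter_upwards [hne, hWw] with a ha hwa h0
    simp only [hφ]
    apply ha
    rw [hwa]
    simpa [hd] using h0
  · rw [lintegral_map (by fun_prop) hφm, hν0,
      lintegral_withDensity_eq_lintegral_mul _ hdm (by fun_prop)]
    refine lt_of_eq_of_lt (lintegral_congr_ae ?_) hw2
    filter_upwards [hWw] with a hwa
    simp only [Pi.mul_apply, hφ, hd, hwa]
    rw [mul_comm]
  · intro t ht
    rw [h t ht, integral_map hφm.aemeasurable, hν0,
      integral_withDensity_eq_integral_toReal_smul hdm]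
    · refine integral_congr_ae ?_
      filter_upwards [hWw] with a hwa
      simp only [hφ, hd, hwa, toReal_enorm]
      by_cases h0 : W a = 0
      · simp [h0]
      · have : (‖W a‖ : ℂ) ≠ 0 := by
          exact_mod_cast (norm_ne_zero_iff.2 h0)
        rw [Complex.real_smul]
        field_simp
    · exact Filter.Eventually.of_forall fun a => enorm_lt_top
    · refine Measurable.aestronglyMeasurable ?_
      exact measurable_snd.mul (e_meas.comp (measurable_fst.mul_const t))

lemma lint_of_int (w : ℝ → ℂ)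
    (hw2 : Integrable fun v => ((|v| ^ (-(3 / 4 : ℝ)) : ℝ) : ℂ) * w v) :
    ∫⁻ v, ENNReal.ofReal (|v| ^ (-(3 / 4 : ℝ))) * ‖w v‖ₑ < ∞ := by
  refine lt_of_eq_of_lt (lintegral_congr fun v => ?_) hw2.hasFiniteIntegral
  rw [enorm_mul]
  congr 1
  rw [← ofReal_norm, Complex.norm_real, Real.norm_of_nonneg (by positivity)]

lemma int_neg34 : IntegrableOn (fun v : ℝ => |v| ^ (-(3 / 4 : ℝ))) (Icc (-1) 1) := by
  have h1 : IntervalIntegrable (fun v : ℝ => v ^ (-(3 / 4 : ℝ))) volume 0 1 :=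
    intervalIntegral.intervalIntegrable_rpow' (by norm_num)
  have h2 : IntervalIntegrable (fun v : ℝ => |v| ^ (-(3 / 4 : ℝ))) volume 0 1 := by
    refine h1.congr ?_
    intro x hx
    rw [uIoc_of_le zero_le_one] at hx
    simp only [abs_of_pos hx.1]
  have h3 : IntervalIntegrable (fun v : ℝ => |v| ^ (-(3 / 4 : ℝ))) volume (-1) 0 := by
    have := (IntervalIntegrable.iff_comp_neg (by simp)).1 h2
    simp only [abs_neg, neg_zero] at this
    exact this.symm
  have h4 := h3.trans h2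
  rw [intervalIntegrable_iff_integrableOn_Icc_of_le (by norm_num)] at h4
  exact h4

/-- bounded and integrable functions are integrable against `|v|^{-3/4}` -/
lemma int_bdd (w : ℝ → ℂ) (M : ℝ) (hM : ∀ v, ‖w v‖ ≤ M) (hw : Integrable w) :
    Integrable fun v => ((|v| ^ (-(3 / 4 : ℝ)) : ℝ) : ℂ) * w v := by
  have hM0 : 0 ≤ M := (norm_nonneg _).trans (hM 0)
  have h1 : Integrable (fun v : ℝ => M * (Icc (-1 : ℝ) 1).indicator
      (fun v : ℝ => |v| ^ (-(3 / 4 : ℝ))) v + ‖w v‖) :=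
    ((int_neg34.integrable_indicator measurableSet_Icc).const_mul M).add hw.norm
  refine h1.mono' ?_ (Filter.Eventually.of_forall fun v => ?_)
  · refine AEStronglyMeasurable.mul ?_ hw.aestronglyMeasurable
    refine Measurable.aestronglyMeasurable ?_
    fun_prop
  · rw [norm_mul, Complex.norm_real, Real.norm_of_nonneg (by positivity)]
    by_cases hv : v ∈ Icc (-1 : ℝ) 1
    · rw [indicator_of_mem hv]
      have : |v| ^ (-(3 / 4 : ℝ)) * ‖w v‖ ≤ |v| ^ (-(3 / 4 : ℝ)) * M :=
        mul_le_mul_of_nonneg_left (hM v) (by positivity)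
      have := norm_nonneg (w v)
      nlinarith
    · rw [indicator_of_notMem hv]
      have h2 : 1 ≤ |v| := by
        by_contra hc
        push Not at hc
        exact hv ⟨by linarith [neg_abs_le v], by linarith [le_abs_self v]⟩
      have h3 : |v| ^ (-(3 / 4 : ℝ)) ≤ 1 := Real.rpow_le_one_of_one_le_of_nonpos h2 (by norm_num)
      have := mul_le_mul_of_nonneg_right h3 (norm_nonneg (w v))
      linarith

end K0aux

open K0aux

theorem adm_add {κ₁ κ₂ : ℝ → ℂ} (h1 : Adm κ₁) (h2 : Adm κ₂) : Adm (fun t => κ₁ t + κ₂ t) := by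
  obtain ⟨ν1, hf1, hb1, hn1, hi1, hk1⟩ := h1
  obtain ⟨ν2, hf2, hb2, hn2, hi2, hk2⟩ := h2
  have key : ∀ (ν : Measure (ℝ × ℂ)) [IsFiniteMeasure ν], (∀ᵐ q ∂ν, ‖q.2‖ ≤ 1) → ∀ t : ℝ,
      Integrable (fun q : ℝ × ℂ => q.2 * e (q.1 * t)) ν := by
    intro ν _ hb t
    refine (integrable_const (1 : ℝ)).mono' ?_ ?_
    · refine Measurable.aestronglyMeasurable ?_
      exact measurable_snd.mul (e_meas.comp (measurable_fst.mul_const t))
    · filter_upwards [hb] with q hq
      rw [norm_mul, e_norm, mul_one]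
      exact hq
  refine ⟨ν1 + ν2, inferInstance, ?_, ?_, ?_, ?_⟩
  · rw [ae_add_measure_iff]; exact ⟨hb1, hb2⟩
  · rw [ae_add_measure_iff]; exact ⟨hn1, hn2⟩
  · rw [lintegral_add_measure]; exact ENNReal.add_lt_top.2 ⟨hi1, hi2⟩
  · intro t ht
    rw [integral_add_measure (key ν1 hb1 t) (key ν2 hb2 t)]
    simp only [hk1 t ht, hk2 t ht]

theorem adm_smul {κ : ℝ → ℂ} (c : ℂ) (h : Adm κ) : Adm (fun t => c * κ t) := by
  obtain ⟨ν, hf, hb, hn, hi, hk⟩ := h
  refine adm_gen ν (fun q => q.1) measurable_fst (fun q => c * q.2) ?_ ?_ ?_ _ ?_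
  · refine (integrable_const ‖c‖).mono' ?_ ?_
    · exact (measurable_snd.const_mul c).aestronglyMeasurable
    · filter_upwards [hb] with q hq
      rw [norm_mul]
      exact mul_le_of_le_one_right (norm_nonneg c) hq
  · filter_upwards [hn] with q hq _ using hq
  · have h1 : ∫⁻ q : ℝ × ℂ, ‖c‖ₑ * ENNReal.ofReal (|q.1| ^ (-(3 / 4 : ℝ))) ∂ν < ∞ := by
      rw [lintegral_const_mul _ (by fun_prop)]
      exact ENNReal.mul_lt_top enorm_lt_top hi
    refine lt_of_le_of_lt (lintegral_mono_ae ?_) h1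
    filter_upwards [hb] with q hq
    rw [enorm_mul, mul_comm]
    gcongr
    refine mul_le_of_le_one_right (by positivity) ?_
    rw [← ofReal_norm]
    exact ENNReal.ofReal_le_one.2 hq
  · intro t ht
    rw [hk t ht, ← integral_const_mul]
    refine integral_congr_ae (Filter.Eventually.of_forall fun q => ?_)
    simp only
    ring

theorem adm_congr {κ₁ κ₂ : ℝ → ℂ} (h : Adm κ₁) (heq : ∀ t : ℝ, 0 < t → κ₂ t = κ₁ t) : Adm κ₂ := by
  obtain ⟨ν, hf, hb, hn, hi, hk⟩ := h
  exact ⟨ν, hf, hb, hn, hi, fun t ht => by rw [heq t ht, hk t ht]⟩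

/-- density criterion: `κ(t) = ∫ w(v) e(vt) dv` for `t > 0` -/
theorem adm_density {κ : ℝ → ℂ} (w : ℝ → ℂ) (hw : Integrable w)
    (hw2 : Integrable fun v => ((|v| ^ (-(3 / 4 : ℝ)) : ℝ) : ℂ) * w v)
    (h : ∀ t : ℝ, 0 < t → κ t = ∫ v, w v * e (v * t)) : Adm κ := by
  refine adm_gen volume (fun v => v) measurable_id w hw ?_ (lint_of_int w hw2) κ h
  have : ∀ᵐ v : ℝ, v ≠ 0 := by
    rw [ae_iff]; simp
  filter_upwards [this] with v hv _ using hv

theorem adm_exp_pos : Adm (fun t => e t) := by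
  refine adm_gen (Measure.dirac (1 : ℝ)) (fun v => v) measurable_id (fun _ => 1)
    (integrable_const _) ?_ ?_ _ ?_
  · rw [ae_dirac_eq]; simp
  · simp
  · intro t ht
    simp

theorem adm_exp_neg : Adm (fun t => e (-t)) := by
  refine adm_gen (Measure.dirac (-1 : ℝ)) (fun v => v) measurable_id (fun _ => 1)
    (integrable_const _) ?_ ?_ _ ?_
  · rw [ae_dirac_eq]; simp
  · simp
  · intro t ht
    simp

namespace K0aux

lemma exp_dens (c : ℝ) (t : ℝ) :
    ∫ v, (Ioi c).indicator (fun v : ℝ => ((Real.exp (-(v - c)) : ℝ) : ℂ)) v * e (v * t) =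
      e (c * t) / (1 - 2 * Real.pi * t * I) := by
  have h1 : ∀ v, (Ioi c).indicator (fun v : ℝ => ((Real.exp (-(v - c)) : ℝ) : ℂ)) v * e (v * t) =
      (Ioi c).indicator (fun v : ℝ => Complex.exp (c : ℂ) *
        Complex.exp ((-1 + 2 * Real.pi * t * I) * (v : ℂ))) v := by
    intro v
    by_cases hv : v ∈ Ioi c
    · rw [indicator_of_mem hv, indicator_of_mem hv]
      unfold e
      rw [Complex.ofReal_exp, ← Complex.exp_add, ← Complex.exp_add]
      congr 1
      push_cast
      ring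
    · rw [indicator_of_notMem hv, indicator_of_notMem hv, zero_mul]
  simp_rw [h1]
  rw [integral_indicator measurableSet_Ioi, integral_const_mul,
    integral_exp_mul_complex_Ioi (by simp)]
  have h2 : (-1 + 2 * Real.pi * t * I : ℂ) ≠ 0 := by
    intro h
    have := congrArg Complex.re h
    simp at this
  have h3 : (1 - 2 * Real.pi * t * I : ℂ) ≠ 0 := by
    intro h
    have := congrArg Complex.re h
    simp at this
  have h4 : (1 - 2 * Real.pi * t * I : ℂ) = -(-1 + 2 * Real.pi * t * I) := by ring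
  rw [h4, div_neg, neg_div, mul_neg, mul_div_assoc', ← Complex.exp_add]
  unfold e
  congr 3
  push_cast
  ring

lemma adm_exp_dens (c : ℝ) : Adm (fun t => e (c * t) / (1 - 2 * Real.pi * t * I)) := by
  have hint : Integrable ((Ioi c).indicator
      (fun v : ℝ => ((Real.exp (-(v - c)) : ℝ) : ℂ))) := by
    rw [integrable_indicator_iff measurableSet_Ioi]
    have h1 : IntegrableOn (fun v : ℝ => Real.exp c * Real.exp (-v)) (Ioi c) :=
      (integrableOn_exp_neg_Ioi c).const_mul _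
    have h2 : IntegrableOn (fun v : ℝ => Real.exp (-(v - c))) (Ioi c) := by
      refine h1.congr_fun (fun v _ => ?_) measurableSet_Ioi
      simp only
      rw [← Real.exp_add]; ring_nf
    exact h2.ofReal
  refine adm_density _ hint (int_bdd _ 1 ?_ hint) fun t _ => (exp_dens c t).symm
  intro v
  by_cases hv : v ∈ Ioi c
  · rw [indicator_of_mem hv, Complex.norm_real, Real.norm_of_nonneg (Real.exp_pos _).le]
    have : c < v := hv
    exact Real.exp_le_one_iff.2 (by linarith)
  · rw [indicator_of_notMem hv]; simp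

end K0aux

/-- `e(t)/(1 - 2 pi i t) = ∫_1^∞ exp(-(v-1)) e(vt) dv` -/
theorem adm_exp_div_pos : Adm (fun t => e t / (1 - 2 * Real.pi * t * I)) := by
  have := adm_exp_dens 1
  simpa using this

theorem adm_exp_div_neg : Adm (fun t => e (-t) / (1 - 2 * Real.pi * t * I)) := by
  have := adm_exp_dens (-1)
  simpa using this

namespace K0aux

/-- `√t e^{-t}` -/
noncomputable def f0 (t : ℝ) : ℂ := ((Real.sqrt t * Real.exp (-t) : ℝ) : ℂ)

/-- `t √t e^{-t}` -/
noncomputable def g0 (t : ℝ) : ℂ := ((t * Real.sqrt t * Real.exp (-t) : ℝ) : ℂ)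

lemma f0_cont : Continuous f0 := by
  unfold f0
  exact Complex.continuous_ofReal.comp (Real.continuous_sqrt.mul (by fun_prop))

lemma g0_cont : Continuous g0 := by
  unfold g0
  exact Complex.continuous_ofReal.comp ((continuous_id.mul Real.continuous_sqrt).mul (by fun_prop))

lemma f0_int : Integrable f0 := by
  have h1 : IntegrableOn (fun t : ℝ => Real.exp (-t) * t ^ ((3 / 2 : ℝ) - 1)) (Ioi 0) :=
    Real.GammaIntegral_convergent (by norm_num)
  have h2 : Integrable ((Ioi (0 : ℝ)).indicator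
      (fun t : ℝ => Real.exp (-t) * t ^ ((3 / 2 : ℝ) - 1))) :=
    h1.integrable_indicator measurableSet_Ioi
  refine (h2.ofReal (𝕜 := ℂ)).congr (Filter.Eventually.of_forall fun t => ?_)
  unfold f0
  by_cases ht : t ∈ Ioi (0 : ℝ)
  · simp only [indicator_of_mem ht]
    rw [Real.sqrt_eq_rpow, mul_comm]
    norm_num
  · simp only [indicator_of_notMem ht]
    rw [Real.sqrt_eq_zero_of_nonpos (by simpa using ht)]
    simp

lemma g0_int : Integrable g0 := by
  have h1 : IntegrableOn (fun t : ℝ => Real.exp (-t) * t ^ ((5 / 2 : ℝ) - 1)) (Ioi 0) :=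
    Real.GammaIntegral_convergent (by norm_num)
  have h2 : Integrable ((Ioi (0 : ℝ)).indicator
      (fun t : ℝ => Real.exp (-t) * t ^ ((5 / 2 : ℝ) - 1))) :=
    h1.integrable_indicator measurableSet_Ioi
  refine (h2.ofReal (𝕜 := ℂ)).congr (Filter.Eventually.of_forall fun t => ?_)
  unfold g0
  by_cases ht : t ∈ Ioi (0 : ℝ)
  · have ht' : (0 : ℝ) < t := ht
    simp only [indicator_of_mem ht]
    have : t ^ ((5 / 2 : ℝ) - 1) = t * Real.sqrt t := by
      rw [Real.sqrt_eq_rpow, show (5 / 2 : ℝ) - 1 = 1 + 1 / 2 by norm_num,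
        Real.rpow_add ht', Real.rpow_one]
    rw [this, mul_comm]
    norm_num
  · simp only [indicator_of_notMem ht]
    rw [Real.sqrt_eq_zero_of_nonpos (by simpa using ht)]
    simp

lemma tsqrt_deriv (t : ℝ) : HasDerivAt (fun t : ℝ => t * Real.sqrt t) (3 / 2 * Real.sqrt t) t := by
  rcases lt_trichotomy t 0 with ht | ht | ht
  · have h1 : (fun t : ℝ => t * Real.sqrt t) =ᶠ[nhds t] fun _ => 0 := by
      filter_upwards [Iio_mem_nhds ht] with s hs
      have hs' : s < 0 := hs
      rw [Real.sqrt_eq_zero_of_nonpos hs'.le, mul_zero]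
    rw [Real.sqrt_eq_zero_of_nonpos ht.le, mul_zero]
    exact (hasDerivAt_const t (0 : ℝ)).congr_of_eventuallyEq h1
  · subst ht
    rw [Real.sqrt_zero, mul_zero, hasDerivAt_iff_tendsto_slope_zero]
    have h1 : Filter.Tendsto (fun t : ℝ => Real.sqrt t) (nhdsWithin 0 {0}ᶜ) (nhds 0) := by
      have := (Real.continuous_sqrt.tendsto 0).mono_left
        (nhdsWithin_le_nhds (s := {(0 : ℝ)}ᶜ))
      simpa using this
    refine h1.congr' ?_
    filter_upwards [self_mem_nhdsWithin] with s hs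
    have hs' : s ≠ 0 := hs
    rw [zero_add, Real.sqrt_zero, mul_zero, sub_zero, smul_eq_mul]
    field_simp
  · have h1 := (hasDerivAt_id t).mul (Real.hasDerivAt_sqrt ht.ne')
    refine HasDerivAt.congr_deriv h1 ?_
    have h2 : Real.sqrt t ≠ 0 := (Real.sqrt_pos.2 ht).ne'
    have h3 : Real.sqrt t * Real.sqrt t = t := Real.mul_self_sqrt ht.le
    change 1 * Real.sqrt t + t * (1 / (2 * Real.sqrt t)) = 3 / 2 * Real.sqrt t
    field_simp
    nlinarith

lemma g0_deriv (t : ℝ) : HasDerivAt g0 ((3 / 2 : ℂ) * f0 t - g0 t) t := by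
  have h1 : HasDerivAt (fun t : ℝ => t * Real.sqrt t * Real.exp (-t))
      (3 / 2 * Real.sqrt t * Real.exp (-t) + t * Real.sqrt t * (Real.exp (-t) * (-1))) t :=
    (tsqrt_deriv t).mul ((hasDerivAt_neg t).exp)
  have h2 := h1.ofReal_comp
  unfold g0 f0
  convert h2 using 1
  push_cast
  ring

lemma int_char (f : ℝ → ℂ) (hf : Integrable f) (v : ℝ) :
    Integrable (fun t : ℝ => Real.fourierChar (-(t * v)) • f t) := by
  refine hf.mono ?_ (Filter.Eventually.of_forall fun t => ?_)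
  · refine AEStronglyMeasurable.smul ?_ hf.aestronglyMeasurable
    have : Continuous (fun t : ℝ => ((Real.fourierChar (-(t * v)) : Circle) : ℂ)) := by
      simp only [Real.fourierChar_apply]; fun_prop
    exact this.aestronglyMeasurable
  · rw [Circle.norm_smul]

lemma ghat (v : ℝ) : (1 + 2 * Real.pi * I * v) * 𝓕 g0 v = (3 / 2 : ℂ) * 𝓕 f0 v := by
  have hd : deriv g0 = fun t => (3 / 2 : ℂ) * f0 t - g0 t := by
    ext t; exact (g0_deriv t).deriv
  have hi : Integrable (deriv g0) := by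
    rw [hd]; exact (f0_int.const_mul _).sub g0_int
  have h1 := congrFun (Real.fourier_deriv g0_int (fun t => (g0_deriv t).differentiableAt) hi) v
  have h2 : 𝓕 (deriv g0) v = (3 / 2 : ℂ) * 𝓕 f0 v - 𝓕 g0 v := by
    rw [hd, Real.fourier_real_eq, Real.fourier_real_eq, Real.fourier_real_eq,
      ← integral_const_mul, ← integral_sub]
    · refine integral_congr_ae (Filter.Eventually.of_forall fun t => ?_)
      simp only [Circle.smul_def, smul_eq_mul]
      ring
    · exact (int_char f0 f0_int v).const_mul _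
    · exact int_char g0 g0_int v
  rw [h2] at h1
  simp only [smul_eq_mul] at h1
  linear_combination -h1

lemma fhat_deriv (v : ℝ) :
    HasDerivAt (𝓕 f0) (-(2 * Real.pi * I) * 𝓕 g0 v) v := by
  have hg : ∀ t : ℝ, g0 t = (t : ℂ) * f0 t := by
    intro t; unfold g0 f0; push_cast; ring
  have h1 : Integrable (fun t : ℝ => t • f0 t) := by
    refine g0_int.congr (Filter.Eventually.of_forall fun t => ?_)
    simp only [Complex.real_smul]
    exact hg t
  have h2 := Real.hasDerivAt_fourier f0_int h1 v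
  refine h2.congr_deriv ?_
  rw [Real.fourier_real_eq, Real.fourier_real_eq, ← integral_const_mul]
  refine integral_congr_ae (Filter.Eventually.of_forall fun t => ?_)
  simp only [Circle.smul_def, smul_eq_mul, hg]
  ring

lemma one_ne (v : ℝ) : (1 + 2 * Real.pi * I * v : ℂ) ≠ 0 := by
  intro h
  have := congrArg Complex.re h
  simp at this

lemma fhat_sq (v : ℝ) :
    (𝓕 f0 v) ^ 2 * (1 + 2 * Real.pi * I * v) ^ 3 = (𝓕 f0 0) ^ 2 := by
  have hd : ∀ v : ℝ, HasDerivAt (fun v : ℝ => (𝓕 f0 v) ^ 2 * (1 + 2 * Real.pi * I * (v : ℂ)) ^ 3)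
      0 v := by
    intro v
    have h1 : HasDerivAt (fun v : ℝ => (1 + 2 * Real.pi * I * (v : ℂ))) (2 * Real.pi * I) v := by
      have := ((hasDerivAt_id v).ofReal_comp.const_mul (2 * Real.pi * I : ℂ)).const_add 1
      simpa using this
    have h2 := ((fhat_deriv v).pow 2).mul (h1.pow 3)
    have h3 := ghat v
    refine HasDerivAt.congr_deriv h2 ?_
    have e1 : ((fun v : ℝ => (1 + 2 * Real.pi * I * (v : ℂ))) ^ 3) v =
      (1 + 2 * Real.pi * I * (v : ℂ)) ^ 3 := rfl
    have e2 : (𝓕 f0 ^ 2) v = (𝓕 f0 v) ^ 2 := rfl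
    rw [e1, e2]
    push_cast
    linear_combination (-(2 * Real.pi * I) * 2 * 𝓕 f0 v * (1 + 2 * Real.pi * I * v) ^ 2) * h3
  have h := is_const_of_deriv_eq_zero (fun v => (hd v).differentiableAt)
    (fun v => (hd v).deriv) v 0
  simpa using h

lemma fhat_bound (v : ℝ) : ‖𝓕 f0 v‖ ≤ ‖𝓕 f0 0‖ * (1 + ‖v‖ ^ 2) ^ (-(3 / 2 : ℝ) / 2) := by
  have h1 := congrArg norm (fhat_sq v)
  rw [norm_mul, norm_pow, norm_pow, norm_pow] at h1
  have h2 : (1 + ‖v‖ ^ 2) ^ (1 / 2 : ℝ) ≤ ‖(1 + 2 * Real.pi * I * v : ℂ)‖ := by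
    rw [← Real.sqrt_eq_rpow, Complex.norm_def]
    apply Real.sqrt_le_sqrt
    rw [Complex.normSq_apply]
    have hre : (1 + 2 * Real.pi * I * v : ℂ).re = 1 := by simp
    have him : (1 + 2 * Real.pi * I * v : ℂ).im = 2 * Real.pi * v := by simp
    rw [hre, him, Real.norm_eq_abs, sq_abs]
    have h3 : (1 : ℝ) ≤ (2 * Real.pi) ^ 2 := by nlinarith [Real.pi_gt_three]
    nlinarith [sq_nonneg v, mul_nonneg (sub_nonneg.2 h3) (sq_nonneg v)]
  set A := ‖𝓕 f0 v‖
  set B := ‖𝓕 f0 0‖
  set D := ‖(1 + 2 * Real.pi * I * v : ℂ)‖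
  set s : ℝ := 1 + ‖v‖ ^ 2 with hs
  have hs0 : 0 < s := by positivity
  have h3 : s ^ (3 / 2 : ℝ) ≤ D ^ 3 := by
    have : s ^ (3 / 2 : ℝ) = (s ^ (1 / 2 : ℝ)) ^ 3 := by
      rw [← Real.rpow_natCast, ← Real.rpow_mul hs0.le]; norm_num
    rw [this]
    exact pow_le_pow_left₀ (by positivity) h2 3
  have h4 : A ^ 2 * s ^ (3 / 2 : ℝ) ≤ B ^ 2 := by
    rw [← h1]
    exact mul_le_mul_of_nonneg_left h3 (by positivity)
  have h5 : A ^ 2 ≤ (B * s ^ (-(3 / 2 : ℝ) / 2)) ^ 2 := by
    have : (B * s ^ (-(3 / 2 : ℝ) / 2)) ^ 2 = B ^ 2 * (s ^ (3 / 2 : ℝ))⁻¹ := by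
      rw [mul_pow, ← Real.rpow_natCast (s ^ (-(3 / 2 : ℝ) / 2)), ← Real.rpow_mul hs0.le,
        ← Real.rpow_neg hs0.le]
      norm_num
    rw [this, ← div_eq_mul_inv, le_div_iff₀ (by positivity)]
    exact h4
  exact le_of_sq_le_sq h5 (by positivity)

end K0aux

theorem adm_sqrt : Adm (fun t => ((Real.sqrt t * Real.exp (-t) : ℝ) : ℂ)) := by
  have hc : Continuous (𝓕 f0) :=
    continuous_iff_continuousAt.2 fun v => (fhat_deriv v).continuousAt
  have hi0 : Integrable (fun v : ℝ => ‖𝓕 f0 0‖ * (1 + ‖v‖ ^ 2) ^ (-(3 / 2 : ℝ) / 2)) :=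
    (integrable_rpow_neg_one_add_norm_sq (by norm_num)).const_mul _
  have hi : Integrable (𝓕 f0) :=
    hi0.mono' hc.aestronglyMeasurable (Filter.Eventually.of_forall fhat_bound)
  refine adm_density (𝓕 f0) hi (int_bdd _ ‖𝓕 f0 0‖ ?_ hi) ?_
  · intro v
    refine (fhat_bound v).trans ?_
    refine mul_le_of_le_one_right (norm_nonneg _) ?_
    exact Real.rpow_le_one_of_one_le_of_nonpos (by nlinarith [norm_nonneg v]) (by norm_num)
  · intro t ht
    have h1 := congrFun (f0_cont.fourierInv_fourier_eq f0_int hi) t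
    change f0 t = _
    rw [← h1, Real.fourierInv_eq']
    refine integral_congr_ae (Filter.Eventually.of_forall fun v => ?_)
    simp only [smul_eq_mul]
    unfold e
    rw [mul_comm]
    congr 4
    simp
    ring


end Pool.Agent.H438R2.RZ
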