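import Pool.Agent.H438R2.RZ.Defs
set_option autoImplicit false

namespace Pool.Agent.H438R2.RZ

open MeasureTheory Set Complex Filter Topology
open scoped ENNReal RealInnerProductSpace FourierTransform

namespace K1aux

theorem int_abs {F : Type*} [NormedAddCommGroup F] {f : ℝ → F} (h : IntegrableOn f (Ioi 0)) :
    Integrable (fun t => f |t|) := by
  have h1 : IntegrableOn (fun t => f |t|) (Ioi 0) :=
    h.congr_fun (fun t ht => by
      show f t = f |t|
      rw [abs_of_pos ht]) measurableSet_Ioi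
  have h2 : IntegrableOn (fun t => f |t|) (Iic 0) := by
    rw [← Measure.map_neg_eq_self (volume : Measure ℝ)]
    let m : MeasurableEmbedding fun x : ℝ => -x := (Homeomorph.neg ℝ).measurableEmbedding
    rw [m.integrableOn_map_iff]
    simp_rw [Function.comp_def, abs_neg, neg_preimage, neg_Iic, neg_zero]
    exact Iff.mpr integrableOn_Ici_iff_integrableOn_Ioi h1
  rw [← integrableOn_univ, ← Iic_union_Ioi (a := (0 : ℝ))]
  exact h2.union h1

theorem int_weight : Integrable (fun v : ℝ => |v| ^ (-(3 / 4 : ℝ)) * (1 + v ^ 2)⁻¹) := by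
  have h : IntegrableOn (fun v : ℝ => v ^ (-(3 / 4 : ℝ)) * (1 + v ^ 2)⁻¹) (Ioi 0) := by
    have e : (Ioi 0 : Set ℝ) = Ioc 0 1 ∪ Ioi 1 := (Ioc_union_Ioi_eq_Ioi zero_le_one).symm
    have hm : Measurable (fun v : ℝ => v ^ (-(3 / 4 : ℝ)) * (1 + v ^ 2)⁻¹) := by fun_prop
    rw [e]
    refine IntegrableOn.union ?_ ?_
    · have h1 : IntegrableOn (fun v : ℝ => v ^ (-(3 / 4 : ℝ))) (Ioc 0 1) := by
        have := intervalIntegral.intervalIntegrable_rpow' (a := 0) (b := 1)
          (r := -(3 / 4 : ℝ)) (by norm_num)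
        rwa [intervalIntegrable_iff_integrableOn_Ioc_of_le zero_le_one] at this
      refine Integrable.mono' h1 hm.aestronglyMeasurable ?_
      rw [ae_restrict_iff' measurableSet_Ioc]
      refine Eventually.of_forall fun v hv => ?_
      have h2 : 0 ≤ v ^ (-(3 / 4 : ℝ)) := Real.rpow_nonneg hv.1.le _
      rw [Real.norm_of_nonneg (by positivity)]
      have h3 : (1 + v ^ 2)⁻¹ ≤ 1 := inv_le_one_of_one_le₀ (by nlinarith)
      calc v ^ (-(3 / 4 : ℝ)) * (1 + v ^ 2)⁻¹ ≤ v ^ (-(3 / 4 : ℝ)) * 1 :=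
            mul_le_mul_of_nonneg_left h3 h2
        _ = _ := mul_one _
    · refine Integrable.mono' (integrable_inv_one_add_sq.integrableOn (s := Ioi 1))
        hm.aestronglyMeasurable ?_
      rw [ae_restrict_iff' measurableSet_Ioi]
      refine Eventually.of_forall fun v hv => ?_
      have hv' : (1 : ℝ) < v := hv
      have h2 : 0 ≤ v ^ (-(3 / 4 : ℝ)) := Real.rpow_nonneg (by linarith) _
      rw [Real.norm_of_nonneg (by positivity)]
      have h3 : v ^ (-(3 / 4 : ℝ)) ≤ 1 := Real.rpow_le_one_of_one_le_of_nonpos hv'.le (by norm_num)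
      calc v ^ (-(3 / 4 : ℝ)) * (1 + v ^ 2)⁻¹ ≤ 1 * (1 + v ^ 2)⁻¹ :=
            mul_le_mul_of_nonneg_right h3 (by positivity)
        _ = _ := one_mul _
  have := int_abs h
  simpa only [sq_abs] using this

/-- the cosine as a complex number -/
noncomputable def cs (v t : ℝ) : ℂ := ((Real.cos (2 * Real.pi * v * t) : ℝ) : ℂ)

noncomputable def sn (v t : ℝ) : ℂ := ((Real.sin (2 * Real.pi * v * t) : ℝ) : ℂ)

theorem cs_le (v t : ℝ) : ‖cs v t‖ ≤ 1 := by
  unfold cs
  rw [Complex.norm_real]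
  exact Real.abs_cos_le_one _

theorem sn_le (v t : ℝ) : ‖sn v t‖ ≤ 1 := by
  unfold sn
  rw [Complex.norm_real]
  exact Real.abs_sin_le_one _

theorem cs_deriv (v t : ℝ) : HasDerivAt (cs v) (-(2 * Real.pi * v : ℝ) * sn v t) t := by
  have h : HasDerivAt (fun t : ℝ => Real.cos (2 * Real.pi * v * t))
      (-Real.sin (2 * Real.pi * v * t) * (2 * Real.pi * v * 1)) t :=
    ((hasDerivAt_id t).const_mul (2 * Real.pi * v)).cos
  have := h.ofReal_comp
  unfold cs sn
  convert this using 1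
  push_cast
  ring

theorem sn_deriv (v t : ℝ) : HasDerivAt (sn v) ((2 * Real.pi * v : ℝ) * cs v t) t := by
  have h : HasDerivAt (fun t : ℝ => Real.sin (2 * Real.pi * v * t))
      (Real.cos (2 * Real.pi * v * t) * (2 * Real.pi * v * 1)) t :=
    ((hasDerivAt_id t).const_mul (2 * Real.pi * v)).sin
  have := h.ofReal_comp
  unfold cs sn
  convert this using 1
  push_cast
  ring

theorem cs_cont (v : ℝ) : Continuous (cs v) := by unfold cs; fun_prop

theorem sn_cont (v : ℝ) : Continuous (sn v) := by unfold sn; fun_prop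

theorem int_mul_cs {f : ℝ → ℂ} {s : Set ℝ} (h : IntegrableOn f s) (v : ℝ) :
    IntegrableOn (fun t => f t * cs v t) s :=
  Integrable.mul_bdd (c := 1) h (cs_cont v).aestronglyMeasurable
    (Eventually.of_forall fun t => cs_le v t)

theorem norm_int_cs {f : ℝ → ℂ} {s : Set ℝ} (h : IntegrableOn f s) (v : ℝ) :
    ‖∫ t in s, f t * cs v t‖ ≤ ∫ t in s, ‖f t‖ := by
  refine norm_integral_le_of_norm_le h.norm (Eventually.of_forall fun t => ?_)
  rw [norm_mul]
  calc ‖f t‖ * ‖cs v t‖ ≤ ‖f t‖ * 1 := mul_le_mul_of_nonneg_left (cs_le v t) (norm_nonneg _)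
    _ = _ := mul_one _

theorem by_parts (f f' f'' : ℝ → ℂ) (c0 c1 : ℂ) (h1 : ∀ t : ℝ, 0 < t → HasDerivAt f (f' t) t)
    (h2 : ∀ t : ℝ, 0 < t → HasDerivAt f' (f'' t) t)
    (h3 : Tendsto f (𝓝[>] 0) (𝓝 c0)) (h4 : Tendsto f' (𝓝[>] 0) (𝓝 c1))
    (h5 : IntegrableOn f (Ioi 0)) (h6 : IntegrableOn f'' (Ioi 0))
    (h7 : Tendsto f atTop (𝓝 0)) (h8 : Tendsto f' atTop (𝓝 0)) (v : ℝ) :
    ∫ t in Ioi (0 : ℝ), f'' t * cs v t =
      -c1 - (2 * Real.pi * v : ℝ) ^ 2 * ∫ t in Ioi (0 : ℝ), f t * cs v t := by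
  set a : ℂ := ((2 * Real.pi * v : ℝ) : ℂ) with ha
  set u : ℝ → ℂ := fun t => f' t * cs v t + a * (f t * sn v t) with hu
  set u' : ℝ → ℂ := fun t => f'' t * cs v t + a ^ 2 * (f t * cs v t) with hu'
  have hd : ∀ t ∈ Ioi (0 : ℝ), HasDerivAt u (u' t) t := by
    intro t ht
    have e1 := ((h2 t ht).mul (cs_deriv v t)).add
      (((h1 t ht).mul (sn_deriv v t)).const_mul a)
    refine e1.congr_deriv ?_
    show _ = f'' t * cs v t + a ^ 2 * (f t * cs v t)
    rw [ha]
    push_cast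
    ring
  have hint : IntegrableOn u' (Ioi 0) :=
    (int_mul_cs h6 v).add ((int_mul_cs h5 v).const_mul (a ^ 2))
  have hb : ∀ (l : Filter ℝ), Tendsto (fun t => f t) l (𝓝 0) →
      Tendsto (fun t => f t * sn v t) l (𝓝 0) := by
    intro l hl
    refine squeeze_zero_norm (a := fun t => ‖f t‖) (fun t => ?_) (by simpa using hl.norm)
    rw [norm_mul]
    calc ‖f t‖ * ‖sn v t‖ ≤ ‖f t‖ * 1 := mul_le_mul_of_nonneg_left (sn_le v t) (norm_nonneg _)
      _ = _ := mul_one _
  have hb' : Tendsto (fun t => f' t * cs v t) atTop (𝓝 0) := by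
    refine squeeze_zero_norm (a := fun t => ‖f' t‖) (fun t => ?_) (by simpa using h8.norm)
    rw [norm_mul]
    calc ‖f' t‖ * ‖cs v t‖ ≤ ‖f' t‖ * 1 := mul_le_mul_of_nonneg_left (cs_le v t) (norm_nonneg _)
      _ = _ := mul_one _
  have hinf : Tendsto u atTop (𝓝 0) := by
    have := hb'.add ((hb _ h7).const_mul a)
    simpa using this
  have hzero : Tendsto u (𝓝[>] 0) (𝓝 c1) := by
    have e1 : Tendsto (cs v) (𝓝[>] 0) (𝓝 1) := by
      have := ((cs_cont v).tendsto 0).mono_left (nhdsWithin_le_nhds (s := Ioi 0))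
      simpa [cs] using this
    have e2 : Tendsto (sn v) (𝓝[>] 0) (𝓝 0) := by
      have := ((sn_cont v).tendsto 0).mono_left (nhdsWithin_le_nhds (s := Ioi 0))
      simpa [sn] using this
    have := (h4.mul e1).add ((h3.mul e2).const_mul a)
    simpa using this
  have key := integral_Ioi_deriv_mul_eq_sub (u := u) (u' := u') (v := fun _ => (1 : ℂ))
    (v' := fun _ => (0 : ℂ)) (a := 0) (a' := c1) (b' := 0) hd
    (fun x _ => hasDerivAt_const x (1 : ℂ))
    (by
      have : (u' * fun _ => (1 : ℂ)) + u * (fun _ => (0 : ℂ)) = u' := by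
        ext t
        simp
      rw [this]
      exact hint)
    (by
      have : (u * fun _ => (1 : ℂ)) = u := by
        ext t
        simp
      rw [this]
      exact hzero)
    (by
      have : (u * fun _ => (1 : ℂ)) = u := by
        ext t
        simp
      rw [this]
      exact hinf)
  simp only [mul_one, mul_zero, add_zero, zero_sub, hu'] at key
  rw [integral_add (int_mul_cs h6 v) ((int_mul_cs h5 v).const_mul (a ^ 2)),
    integral_const_mul] at key
  linear_combination key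

theorem ft_eq {f : ℝ → ℂ} (h : IntegrableOn f (Ioi 0)) (v : ℝ) :
    𝓕 (fun t : ℝ => f |t|) v = 2 * ∫ t in Ioi (0 : ℝ), f t * cs v t := by
  rw [Real.fourier_real_eq_integral_exp_smul]
  set H : ℝ → ℂ := fun t => Complex.exp (((-2 * Real.pi * t * v : ℝ) : ℂ) * I) • f |t| with hH
  have hi : Integrable H := by
    refine Integrable.bdd_smul (φ := fun t : ℝ =>
      Complex.exp (((-2 * Real.pi * t * v : ℝ) : ℂ) * I)) (int_abs h) 1 ?_ ?_
    · exact Continuous.aestronglyMeasurable (by fun_prop)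
    · exact Eventually.of_forall fun t => (Complex.norm_exp_ofReal_mul_I _).le
  rw [← intervalIntegral.integral_Iic_add_Ioi (b := 0) hi.integrableOn hi.integrableOn]
  have e0 := integral_comp_neg_Ioi (0 : ℝ) H
  rw [neg_zero] at e0
  have hi' : IntegrableOn (fun t => H (-t)) (Ioi 0) := hi.comp_neg.integrableOn
  rw [← e0, ← integral_add hi' hi.integrableOn, ← integral_const_mul]
  refine setIntegral_congr_fun measurableSet_Ioi fun t ht => ?_
  have ht' : (0 : ℝ) < t := ht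
  simp only [hH, abs_neg, abs_of_pos ht', smul_eq_mul, cs]
  have e1 : Complex.exp (((-2 * Real.pi * -t * v : ℝ) : ℂ) * I) +
      Complex.exp (((-2 * Real.pi * t * v : ℝ) : ℂ) * I) =
      2 * ((Real.cos (2 * Real.pi * v * t) : ℝ) : ℂ) := by
    rw [Complex.ofReal_cos, Complex.two_cos]
    congr 1
    · congr 1
      push_cast
      ring
    · congr 1
      push_cast
      ring
  rw [← add_mul, e1]
  ring

theorem exists_density (f f' f'' : ℝ → ℂ) (c0 c1 : ℂ)
    (h1 : ∀ t : ℝ, 0 < t → HasDerivAt f (f' t) t)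
    (h2 : ∀ t : ℝ, 0 < t → HasDerivAt f' (f'' t) t)
    (h3 : Tendsto f (𝓝[>] 0) (𝓝 c0)) (h4 : Tendsto f' (𝓝[>] 0) (𝓝 c1))
    (h5 : IntegrableOn f (Ioi 0))
    (h6 : IntegrableOn (fun t => f'' t + (2 * Real.pi) ^ 2 * f t) (Ioi 0))
    (h7 : Tendsto f atTop (𝓝 0)) (h8 : Tendsto f' atTop (𝓝 0)) :
    ∃ w : ℝ → ℂ, Integrable w ∧
      (Integrable fun v => ((|v| ^ (-(3 / 4 : ℝ)) : ℝ) : ℂ) * w v) ∧
      ∀ t : ℝ, 0 < t → f t = ∫ v, w v * e (v * t) := by
  have h6' : IntegrableOn f'' (Ioi 0) := by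
    have := h6.sub (h5.const_mul ((2 * Real.pi) ^ 2 : ℂ))
    refine this.congr_fun (fun t _ => ?_) measurableSet_Ioi
    simp
  set g : ℝ → ℂ := fun t => f |t| with hg
  have hgi : Integrable g := int_abs h5
  have hcont : Continuous (𝓕 g) :=
    VectorFourier.fourierIntegral_continuous Real.continuous_fourierChar
      (by exact continuous_inner) hgi
  set M0 : ℝ := ∫ t in Ioi (0 : ℝ), ‖f t‖ with hM0
  set M2 : ℝ := ∫ t in Ioi (0 : ℝ), ‖f'' t‖ with hM2
  set C : ℝ := 2 * M0 + 2 * (‖c1‖ + M2) with hC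
  have hM0n : 0 ≤ M0 := integral_nonneg fun _ => norm_nonneg _
  have hM2n : 0 ≤ M2 := integral_nonneg fun _ => norm_nonneg _
  have hbound : ∀ v : ℝ, ‖𝓕 g v‖ ≤ C * (1 + v ^ 2)⁻¹ := by
    intro v
    have e1 : ‖𝓕 g v‖ = 2 * ‖∫ t in Ioi (0 : ℝ), f t * cs v t‖ := by
      rw [hg, ft_eq h5, norm_mul]
      simp
    set J : ℂ := ∫ t in Ioi (0 : ℝ), f t * cs v t with hJ
    have e2 : ‖J‖ ≤ M0 := norm_int_cs h5 v
    have e3 := by_parts f f' f'' c0 c1 h1 h2 h3 h4 h5 h6' h7 h8 v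
    have e4 : ‖∫ t in Ioi (0 : ℝ), f'' t * cs v t‖ ≤ M2 := norm_int_cs h6' v
    have e5 : (2 * Real.pi * v) ^ 2 * ‖J‖ ≤ ‖c1‖ + M2 := by
      have : (((2 * Real.pi * v : ℝ) : ℂ)) ^ 2 * J =
          -c1 - ∫ t in Ioi (0 : ℝ), f'' t * cs v t := by
        rw [e3]
        ring
      have h9 : ‖(((2 * Real.pi * v : ℝ) : ℂ)) ^ 2 * J‖ ≤ ‖c1‖ + M2 := by
        rw [this]
        refine (norm_sub_le _ _).trans ?_
        rw [norm_neg]
        linarith
      rw [norm_mul, norm_pow, Complex.norm_real, Real.norm_eq_abs, sq_abs] at h9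
      exact h9
    have e6 : v ^ 2 * ‖J‖ ≤ ‖c1‖ + M2 := by
      have hpi : 1 ≤ (2 * Real.pi) ^ 2 := by nlinarith [Real.pi_gt_three]
      have h9 : v ^ 2 * ‖J‖ ≤ (2 * Real.pi * v) ^ 2 * ‖J‖ := by
        rw [mul_pow, mul_assoc]
        exact le_mul_of_one_le_left (by positivity) hpi
      linarith
    rw [e1, ← div_eq_mul_inv, le_div_iff₀ (by positivity)]
    nlinarith [norm_nonneg J]
  have hw : Integrable (𝓕 g) :=
    Integrable.mono' (integrable_inv_one_add_sq.const_mul C) hcont.aestronglyMeasurable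
      (Eventually.of_forall hbound)
  refine ⟨𝓕 g, hw, ?_, ?_⟩
  · refine Integrable.mono' (int_weight.const_mul C) ?_ (Eventually.of_forall fun v => ?_)
    · have hm : Measurable (fun v : ℝ => ((|v| ^ (-(3 / 4 : ℝ)) : ℝ) : ℂ)) := by fun_prop
      exact hm.aestronglyMeasurable.mul hcont.aestronglyMeasurable
    · rw [norm_mul, Complex.norm_real, Real.norm_of_nonneg (Real.rpow_nonneg (abs_nonneg _) _)]
      calc |v| ^ (-(3 / 4 : ℝ)) * ‖𝓕 g v‖ ≤ |v| ^ (-(3 / 4 : ℝ)) * (C * (1 + v ^ 2)⁻¹) :=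
            mul_le_mul_of_nonneg_left (hbound v) (Real.rpow_nonneg (abs_nonneg _) _)
        _ = _ := by ring
  · intro t ht
    have hc : ContinuousAt g t := by
      have e1 : ContinuousAt f |t| := by
        rw [abs_of_pos ht]
        exact (h1 t ht).continuousAt
      exact ContinuousAt.comp (f := fun t : ℝ => |t|) e1 continuous_abs.continuousAt
    have h9 := hgi.fourierInv_fourier_eq hw hc
    have e0 : g t = f t := by
      simp only [hg, abs_of_pos ht]
    rw [← e0, ← h9, Real.fourierInv_eq']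
    refine integral_congr_ae (Eventually.of_forall fun v => ?_)
    simp only [smul_eq_mul, e, RCLike.inner_apply, conj_trivial]
    rw [mul_comm]
    congr 3
    ring_nf

end K1aux

/-- K1, from the density criterion `adm_density` of K0 (given as the hypothesis `hd`) -/
theorem adm_crit_of (hd : ∀ {κ : ℝ → ℂ} (w : ℝ → ℂ), Integrable w →
      (Integrable fun v => ((|v| ^ (-(3 / 4 : ℝ)) : ℝ) : ℂ) * w v) →
      (∀ t : ℝ, 0 < t → κ t = ∫ v, w v * e (v * t)) → Adm κ)
    (f f' f'' : ℝ → ℂ) (c0 c1 : ℂ) (h1 : ∀ t : ℝ, 0 < t → HasDerivAt f (f' t) t)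
    (h2 : ∀ t : ℝ, 0 < t → HasDerivAt f' (f'' t) t)
    (h3 : Tendsto f (𝓝[>] 0) (𝓝 c0)) (h4 : Tendsto f' (𝓝[>] 0) (𝓝 c1))
    (h5 : IntegrableOn f (Ioi 0))
    (h6 : IntegrableOn (fun t => f'' t + (2 * Real.pi) ^ 2 * f t) (Ioi 0))
    (h7 : Tendsto f atTop (𝓝 0)) (h8 : Tendsto f' atTop (𝓝 0)) : Adm f := by
  obtain ⟨w, hw1, hw2, hw3⟩ := K1aux.exists_density f f' f'' c0 c1 h1 h2 h3 h4 h5 h6 h7 h8
  exact hd w hw1 hw2 hw3

end Pool.Agent.H438R2.RZ
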