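import Mathlib
import Pool.Agent.H438R2.RZ.Defs
set_option autoImplicit false

/-! # K2: two term asymptotics of the Laplace transform of the symbol (helper485) -/

namespace Pool.Agent.H438R2.RZ

open MeasureTheory Set Complex Filter
open scoped ENNReal RealInnerProductSpace Topology
open Pool.Agent.H789R2.FR (E sg)
open Pool.Agent.H438R2.BR (Phi L sy)

namespace K2aux

/-- the smooth factor of the symbol -/
noncomputable def g (c : ℂ) (y : ℝ) : ℂ := ((y : ℂ) - 2 * I) ^ c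

theorem slit (y : ℝ) : (y : ℂ) - 2 * I ∈ slitPlane :=
  Complex.mem_slitPlane_iff.2 (Or.inr (by simp))

theorem hasDerivAt_g (c : ℂ) (y : ℝ) : HasDerivAt (g c) (c * g (c - 1) y) y := by
  have h1 : HasDerivAt (fun z : ℂ => (z - 2 * I) ^ c) (c * ((y : ℂ) - 2 * I) ^ (c - 1) * 1)
      (y : ℂ) := ((hasDerivAt_id _).sub_const _).cpow_const (slit y)
  have h2 := h1.comp_ofReal
  rw [mul_one] at h2
  exact h2

theorem norm_g_le {a : ℝ} {k : ℕ} (ha : a ≤ k) {y : ℝ} (hy : 0 ≤ y) :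
    ‖g (a : ℂ) y‖ ≤ (y + 2) ^ k := by
  unfold g
  rw [norm_cpow_real]
  have h1 : 1 ≤ ‖(y : ℂ) - 2 * I‖ := by
    have h := Complex.abs_im_le_norm ((y : ℂ) - 2 * I)
    have h2 : ((y : ℂ) - 2 * I).im = -2 := by simp
    rw [h2] at h
    have h3 : |(-2 : ℝ)| = 2 := by norm_num
    linarith
  have h2 : ‖(y : ℂ) - 2 * I‖ ≤ y + 2 := by
    refine (norm_sub_le _ _).trans ?_
    simp [abs_of_nonneg hy]
  calc ‖(y : ℂ) - 2 * I‖ ^ a ≤ ‖(y : ℂ) - 2 * I‖ ^ (k : ℝ) :=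
        Real.rpow_le_rpow_of_exponent_le h1 ha
    _ = ‖(y : ℂ) - 2 * I‖ ^ k := Real.rpow_natCast _ _
    _ ≤ (y + 2) ^ k := by gcongr

/-- second order Taylor formula -/
theorem taylor {a : ℝ} {k : ℕ} (ha : a ≤ k) {y : ℝ} (hy : 0 ≤ y) :
    ‖g (a : ℂ) y - g (a : ℂ) 0 - (a : ℂ) * g ((a : ℂ) - 1) 0 * (y : ℂ)‖ ≤
      |a * (a - 1)| * (y + 2) ^ k * y ^ 2 := by
  set M : ℝ := |a * (a - 1)| * (y + 2) ^ k with hM
  have hM0 : 0 ≤ M := by positivity
  have hd2 : ∀ t ∈ Icc (0 : ℝ) y,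
      ‖(a : ℂ) * (((a : ℂ) - 1) * g ((a : ℂ) - 1 - 1) t)‖ ≤ M := by
    intro t ht
    have h1 : ((a : ℂ) - 1 - 1) = ((a - 2 : ℝ) : ℂ) := by push_cast; ring
    have h2 : (a : ℂ) * (((a : ℂ) - 1) * g ((a : ℂ) - 1 - 1) t) =
        ((a * (a - 1) : ℝ) : ℂ) * g ((a - 2 : ℝ) : ℂ) t := by
      rw [h1]; push_cast; ring
    rw [h2, norm_mul, Complex.norm_real, Real.norm_eq_abs, hM]
    have h3 := norm_g_le (a := a - 2) (k := k) (by linarith) ht.1
    have h4 : (t + 2) ^ k ≤ (y + 2) ^ k := by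
      have := ht.1
      have := ht.2
      gcongr
    exact mul_le_mul_of_nonneg_left (h3.trans h4) (abs_nonneg _)
  have hA : ∀ t ∈ Icc (0 : ℝ) y,
      ‖(a : ℂ) * g ((a : ℂ) - 1) t - (a : ℂ) * g ((a : ℂ) - 1) 0‖ ≤ M * y := by
    intro t ht
    have h1 := (convex_Icc (0 : ℝ) y).norm_image_sub_le_of_norm_hasDerivWithin_le
      (f := fun t : ℝ => (a : ℂ) * g ((a : ℂ) - 1) t)
      (f' := fun t : ℝ => (a : ℂ) * (((a : ℂ) - 1) * g ((a : ℂ) - 1 - 1) t)) (C := M)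
      (fun t _ => ((hasDerivAt_g _ t).const_mul (a : ℂ)).hasDerivWithinAt) hd2
      (left_mem_Icc.2 hy) ht
    refine h1.trans ?_
    rw [sub_zero, Real.norm_eq_abs, abs_of_nonneg ht.1]
    exact mul_le_mul_of_nonneg_left ht.2 hM0
  have hB := (convex_Icc (0 : ℝ) y).norm_image_sub_le_of_norm_hasDerivWithin_le
      (f := fun t : ℝ => g (a : ℂ) t - (a : ℂ) * g ((a : ℂ) - 1) 0 * (t : ℂ))
      (f' := fun t : ℝ => (a : ℂ) * g ((a : ℂ) - 1) t - (a : ℂ) * g ((a : ℂ) - 1) 0) (C := M * y)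
      (fun t _ => by
        have h2 : HasDerivAt (fun t : ℝ => (a : ℂ) * g ((a : ℂ) - 1) 0 * (t : ℂ))
            ((a : ℂ) * g ((a : ℂ) - 1) 0 * 1) t :=
          ((hasDerivAt_id (t : ℂ)).comp_ofReal).const_mul _
        rw [mul_one] at h2
        exact ((hasDerivAt_g _ t).sub h2).hasDerivWithinAt) hA
      (left_mem_Icc.2 hy) (right_mem_Icc.2 hy)
  have h3 : g (a : ℂ) y - g (a : ℂ) 0 - (a : ℂ) * g ((a : ℂ) - 1) 0 * (y : ℂ) =
      (g (a : ℂ) y - (a : ℂ) * g ((a : ℂ) - 1) 0 * (y : ℂ)) -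
        (g (a : ℂ) 0 - (a : ℂ) * g ((a : ℂ) - 1) 0 * ((0 : ℝ) : ℂ)) := by
    simp only [ofReal_zero, mul_zero, sub_zero]
    ring
  rw [h3]
  refine hB.trans (le_of_eq ?_)
  rw [sub_zero, Real.norm_eq_abs, abs_of_nonneg hy]
  ring

theorem sy_eq (k : ℕ) {y : ℝ} (hy : 0 < y) :
    sy k y = ((y ^ (((k : ℝ) - 3) / 2) : ℝ) : ℂ) * g ((((k : ℝ) - 3) / 2 : ℝ) : ℂ) y := by
  have hw : (y : ℂ) - 2 * I ≠ 0 := slitPlane_ne_zero (slit y)
  have hy' : (y : ℂ) ≠ 0 := by exact_mod_cast hy.ne'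
  unfold sy g
  have h1 : (y : ℂ) ^ 2 - 2 * I * (y : ℂ) = (y : ℂ) * ((y : ℂ) - 2 * I) := by ring
  rw [h1, cpow_def_of_ne_zero (mul_ne_zero hy' hw), Complex.log_ofReal_mul hy hw, add_mul,
    Complex.exp_add, ofReal_cpow hy.le, cpow_def_of_ne_zero hy', cpow_def_of_ne_zero hw,
    Complex.ofReal_log hy.le]

/-- the Gamma density -/
noncomputable def ga (u s t : ℝ) : ℝ := t ^ (s - 1) * Real.exp (-(u * t))

theorem ga_integral {u s : ℝ} (hu : 0 < u) (hs : 0 < s) :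
    ∫ t in Ioi (0 : ℝ), ga u s t = (1 / u) ^ s * Real.Gamma s :=
  Real.integral_rpow_mul_exp_neg_mul_Ioi hs hu

theorem ga_int {u s : ℝ} (hu : 0 < u) (hs : 0 < s) : IntegrableOn (ga u s) (Ioi 0) := by
  by_contra h
  have h1 := integral_undef h
  rw [ga_integral hu hs] at h1
  have h2 : 0 < (1 / u) ^ s * Real.Gamma s :=
    mul_pos (Real.rpow_pos_of_pos (by positivity) _) (Real.Gamma_pos_of_pos hs)
  exact h2.ne' h1

theorem ga_nonneg (u s : ℝ) {t : ℝ} (ht : 0 < t) : 0 ≤ ga u s t := by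
  unfold ga
  positivity

theorem ga_add {u s t : ℝ} (ht : 0 < t) (j : ℕ) : ga u (s + j) t = ga u s t * t ^ j := by
  unfold ga
  have h1 : s + j - 1 = (s - 1) + (j : ℕ) := by ring
  rw [h1, Real.rpow_add_natCast ht.ne']
  ring

theorem continuous_g (c : ℂ) : Continuous (g c) :=
  continuous_iff_continuousAt.2 fun y => (hasDerivAt_g c y).continuousAt

theorem two_pow {y : ℝ} (hy : 0 < y) (k : ℕ) : (y + 2) ^ k ≤ 4 ^ k * (1 + y ^ k) := by
  rcases le_total y 2 with h | h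
  · have h1 : (y + 2) ^ k ≤ 4 ^ k := by gcongr; linarith
    have h2 : 0 ≤ (4 : ℝ) ^ k * y ^ k := by positivity
    linarith
  · have h1 : (y + 2) ^ k ≤ (4 * y) ^ k := by gcongr; linarith
    rw [mul_pow] at h1
    have h2 : 0 ≤ (4 : ℝ) ^ k := by positivity
    linarith

end K2aux

open K2aux in
/-- K2: two term asymptotics of the Laplace transform of the symbol -/
theorem L_asym (k : ℕ) (hk : 2 ≤ k) : ∃ (c0 c1 : ℂ) (C : ℝ), 0 < C ∧ ∀ u : ℝ, 1 ≤ u →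
    ‖((u ^ (((k : ℝ) - 1) / 2) : ℝ) : ℂ) * L k u - c0 - c1 / (u : ℂ)‖ ≤ C / u ^ 2 := by
  have hk' : (2 : ℝ) ≤ k := by exact_mod_cast hk
  set a : ℝ := ((k : ℝ) - 3) / 2 with ha
  have hak : a ≤ k := by rw [ha]; linarith
  have ha1 : 0 < a + 1 := by rw [ha]; linarith
  set s : ℝ := a + 1 with hs
  set M0 : ℝ := |a * (a - 1)| with hM0
  have hM00 : 0 ≤ M0 := abs_nonneg _
  have hG2 : 0 < Real.Gamma (s + (2 : ℕ)) := Real.Gamma_pos_of_pos (by positivity)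
  have hGk : 0 < Real.Gamma (s + (2 + k : ℕ)) := Real.Gamma_pos_of_pos (by positivity)
  refine ⟨g (a : ℂ) 0 * ((Real.Gamma s : ℝ) : ℂ),
    (a : ℂ) * g ((a : ℂ) - 1) 0 * ((Real.Gamma (s + (1 : ℕ)) : ℝ) : ℂ),
    M0 * 4 ^ k * (Real.Gamma (s + (2 : ℕ)) + Real.Gamma (s + (2 + k : ℕ))) + 1, by positivity,
    fun u hu => ?_⟩
  have hu0 : 0 < u := by linarith
  -- the remainder
  set R : ℝ → ℂ := fun y => ((ga u s y : ℝ) : ℂ) *
    (g (a : ℂ) y - g (a : ℂ) 0 - (a : ℂ) * g ((a : ℂ) - 1) 0 * (y : ℂ)) with hR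
  set b : ℝ → ℝ := fun y => M0 * 4 ^ k * (ga u (s + (2 : ℕ)) y + ga u (s + (2 + k : ℕ)) y) with hb
  have hRb : ∀ y ∈ Ioi (0 : ℝ), ‖R y‖ ≤ b y := by
    intro y hy
    have hy0 : 0 < y := hy
    rw [hR, hb]
    simp only
    rw [norm_mul, Complex.norm_real, Real.norm_of_nonneg (ga_nonneg u s hy0), ga_add hy0,
      ga_add hy0]
    have h1 := taylor hak hy0.le
    have h2 := two_pow hy0 k
    have h3 := ga_nonneg u s hy0
    calc ga u s y * ‖g (a : ℂ) y - g (a : ℂ) 0 - (a : ℂ) * g ((a : ℂ) - 1) 0 * (y : ℂ)‖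
        ≤ ga u s y * (M0 * (y + 2) ^ k * y ^ 2) := by gcongr
      _ ≤ ga u s y * (M0 * (4 ^ k * (1 + y ^ k)) * y ^ 2) := by gcongr
      _ = M0 * 4 ^ k * (ga u s y * y ^ 2 + ga u s y * y ^ (2 + k)) := by rw [pow_add]; ring
  have hbint : IntegrableOn b (Ioi 0) :=
    ((ga_int hu0 (by positivity)).add (ga_int hu0 (by positivity))).const_mul _
  have hga_meas : Measurable (ga u s) := by unfold ga; fun_prop
  have hRmeas : AEStronglyMeasurable R (volume.restrict (Ioi 0)) := by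
    refine AEStronglyMeasurable.mul ?_ ?_
    · exact (Complex.measurable_ofReal.comp hga_meas).aestronglyMeasurable
    · have : Continuous fun y : ℝ =>
          g (a : ℂ) y - g (a : ℂ) 0 - (a : ℂ) * g ((a : ℂ) - 1) 0 * (y : ℂ) :=
        ((continuous_g _).sub continuous_const).sub (continuous_const.mul continuous_ofReal)
      exact this.aestronglyMeasurable
  have hRint : IntegrableOn R (Ioi 0) :=
    Integrable.mono' hbint hRmeas (by
      filter_upwards [ae_restrict_mem measurableSet_Ioi] with y hy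
      exact hRb y hy)
  have hRle : ‖∫ y in Ioi (0 : ℝ), R y‖ ≤
      M0 * 4 ^ k * (Real.Gamma (s + (2 : ℕ)) + Real.Gamma (s + (2 + k : ℕ))) *
        (1 / u) ^ (s + (2 : ℕ)) := by
    refine (norm_integral_le_of_norm_le hbint (by
      filter_upwards [ae_restrict_mem measurableSet_Ioi] with y hy
      exact hRb y hy)).trans ?_
    rw [hb, integral_const_mul, integral_add (ga_int hu0 (by positivity))
      (ga_int hu0 (by positivity)), ga_integral hu0 (by positivity),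
      ga_integral hu0 (by positivity)]
    have h1 : (1 / u) ^ (s + (2 + k : ℕ)) ≤ (1 / u) ^ (s + (2 : ℕ)) := by
      apply Real.rpow_le_rpow_of_exponent_ge (by positivity)
      · rw [div_le_one hu0]; exact hu
      · push_cast; linarith
    have h2 : (1 / u) ^ (s + (2 + k : ℕ)) * Real.Gamma (s + (2 + k : ℕ)) ≤
        (1 / u) ^ (s + (2 : ℕ)) * Real.Gamma (s + (2 + k : ℕ)) := by gcongr
    have h3 : 0 ≤ M0 * 4 ^ k := by positivity
    calc M0 * 4 ^ k * ((1 / u) ^ (s + (2 : ℕ)) * Real.Gamma (s + (2 : ℕ)) +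
          (1 / u) ^ (s + (2 + k : ℕ)) * Real.Gamma (s + (2 + k : ℕ)))
        ≤ M0 * 4 ^ k * ((1 / u) ^ (s + (2 : ℕ)) * Real.Gamma (s + (2 : ℕ)) +
          (1 / u) ^ (s + (2 : ℕ)) * Real.Gamma (s + (2 + k : ℕ))) := by gcongr
      _ = _ := by ring
  -- the decomposition
  have hdec : L k u = g (a : ℂ) 0 * (((1 / u) ^ s * Real.Gamma s : ℝ) : ℂ) +
      (a : ℂ) * g ((a : ℂ) - 1) 0 *
        (((1 / u) ^ (s + (1 : ℕ)) * Real.Gamma (s + (1 : ℕ)) : ℝ) : ℂ) +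
      ∫ y in Ioi (0 : ℝ), R y := by
    have e0 : Integrable (fun y => g (a : ℂ) 0 * ((ga u s y : ℝ) : ℂ))
        (volume.restrict (Ioi 0)) := ((ga_int hu0 ha1).ofReal).const_mul _
    have e1 : Integrable (fun y => (a : ℂ) * g ((a : ℂ) - 1) 0 *
        ((ga u (s + (1 : ℕ)) y : ℝ) : ℂ)) (volume.restrict (Ioi 0)) :=
      ((ga_int hu0 (by positivity)).ofReal).const_mul _
    have e01 : Integrable (fun y => g (a : ℂ) 0 * ((ga u s y : ℝ) : ℂ) +
        (a : ℂ) * g ((a : ℂ) - 1) 0 * ((ga u (s + (1 : ℕ)) y : ℝ) : ℂ))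
        (volume.restrict (Ioi 0)) := e0.add e1
    rw [← ga_integral hu0 ha1, ← ga_integral hu0 (show 0 < s + (1 : ℕ) by positivity),
      ← integral_complex_ofReal, ← integral_complex_ofReal, ← integral_const_mul,
      ← integral_const_mul, ← integral_add e0 e1, ← integral_add e01 hRint]
    unfold L
    refine setIntegral_congr_fun measurableSet_Ioi fun y hy => ?_
    have hy0 : 0 < y := hy
    rw [sy_eq k hy0, ga_add hy0, hR]
    simp only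
    have h4 : ga u s y = y ^ (((k : ℝ) - 3) / 2) * Real.exp (-(u * y)) := by
      unfold ga
      rw [hs, ha, add_sub_cancel_right]
    rw [h4, ← ha]
    push_cast
    ring
  have hpow : ((k : ℝ) - 1) / 2 = s := by rw [hs, ha]; ring
  rw [hpow, hdec]
  have hu1 : u ^ s * (1 / u) ^ s = 1 := by
    rw [← Real.mul_rpow hu0.le (by positivity), mul_one_div_cancel hu0.ne', Real.one_rpow]
  have hu2 : u ^ s * (1 / u) ^ (s + (1 : ℕ)) = 1 / u := by
    rw [Real.rpow_add_natCast (by positivity), ← mul_assoc, hu1, one_mul, pow_one]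
  have hu3 : u ^ s * (1 / u) ^ (s + (2 : ℕ)) = 1 / u ^ 2 := by
    rw [Real.rpow_add_natCast (by positivity), ← mul_assoc, hu1, one_mul, div_pow, one_pow]
  have hfin : ((u ^ s : ℝ) : ℂ) * (g (a : ℂ) 0 * (((1 / u) ^ s * Real.Gamma s : ℝ) : ℂ) +
      (a : ℂ) * g ((a : ℂ) - 1) 0 *
        (((1 / u) ^ (s + (1 : ℕ)) * Real.Gamma (s + (1 : ℕ)) : ℝ) : ℂ) +
      ∫ y in Ioi (0 : ℝ), R y) - g (a : ℂ) 0 * ((Real.Gamma s : ℝ) : ℂ) -
      (a : ℂ) * g ((a : ℂ) - 1) 0 * ((Real.Gamma (s + (1 : ℕ)) : ℝ) : ℂ) / (u : ℂ) =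
      ((u ^ s : ℝ) : ℂ) * ∫ y in Ioi (0 : ℝ), R y := by
    have h1 : ((u ^ s : ℝ) : ℂ) * (((1 / u) ^ s : ℝ) : ℂ) = 1 := by
      rw [← ofReal_mul, hu1, ofReal_one]
    have h2 : ((u ^ s : ℝ) : ℂ) * (((1 / u) ^ (s + (1 : ℕ)) : ℝ) : ℂ) = 1 / (u : ℂ) := by
      rw [← ofReal_mul, hu2, ofReal_div, ofReal_one]
    rw [ofReal_mul, ofReal_mul]
    linear_combination (g (a : ℂ) 0 * ((Real.Gamma s : ℝ) : ℂ)) * h1 +
      ((a : ℂ) * g ((a : ℂ) - 1) 0 * ((Real.Gamma (s + (1 : ℕ)) : ℝ) : ℂ)) * h2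
  rw [hfin, norm_mul, Complex.norm_real, Real.norm_of_nonneg (Real.rpow_nonneg hu0.le _)]
  have hus : 0 ≤ u ^ s := Real.rpow_nonneg hu0.le _
  calc u ^ s * ‖∫ y in Ioi (0 : ℝ), R y‖
      ≤ u ^ s * (M0 * 4 ^ k * (Real.Gamma (s + (2 : ℕ)) + Real.Gamma (s + (2 + k : ℕ))) *
        (1 / u) ^ (s + (2 : ℕ))) := by gcongr
    _ = M0 * 4 ^ k * (Real.Gamma (s + (2 : ℕ)) + Real.Gamma (s + (2 + k : ℕ))) *
        (u ^ s * (1 / u) ^ (s + (2 : ℕ))) := by ring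
    _ = M0 * 4 ^ k * (Real.Gamma (s + (2 : ℕ)) + Real.Gamma (s + (2 + k : ℕ))) / u ^ 2 := by
        rw [hu3]; ring
    _ ≤ (M0 * 4 ^ k * (Real.Gamma (s + (2 : ℕ)) + Real.Gamma (s + (2 + k : ℕ))) + 1) /
        u ^ 2 := by
        gcongr
        linarith

end Pool.Agent.H438R2.RZ
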