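import Pool.Agent.H438R2.RZ.Defs
import Pool.Agent.H438R2.BR.Meas
set_option autoImplicit false

/-! # Derivative formulas of the Poisson integral -/

namespace Pool.Agent.H438R2.RZ

open MeasureTheory Set Complex
open Pool.Agent.H438R2.BR (Phi)

namespace K3aux

/-- the weight -/
noncomputable def wg (k : ℕ) (s : ℝ) : ℝ := (1 - s ^ 2) ^ (((k : ℝ) - 3) / 2)

theorem wg_meas (k : ℕ) : Measurable (wg k) := Measurable.pow_const (by fun_prop) _

theorem wg_int (k : ℕ) (hk : 2 ≤ k) : IntegrableOn (wg k) (Ioo (-1 : ℝ) 1) := by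
  refine Integrable.mono' Pool.Agent.H438R2.BR.arcsin_int.1 (wg_meas k).aestronglyMeasurable ?_
  filter_upwards [ae_restrict_mem measurableSet_Ioo] with s hs
  have h1 : 0 < 1 - s ^ 2 := by nlinarith [hs.1, hs.2]
  unfold wg
  rw [Real.norm_eq_abs, abs_of_nonneg (Real.rpow_nonneg h1.le _)]
  exact Pool.Agent.H438R2.BR.weight_le k hk s hs

theorem exp_hd (s u : ℝ) : HasDerivAt (fun u : ℝ => Complex.exp (((u * s : ℝ) : ℂ) * I))
    (Complex.exp (((u * s : ℝ) : ℂ) * I) * (I * s)) u := by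
  have h1 : HasDerivAt (fun u : ℝ => ((u * s : ℝ) : ℂ) * I) ((s : ℂ) * I) u := by
    have h2 : HasDerivAt (fun u : ℝ => u * s) s u := by
      simpa using (hasDerivAt_id u).mul_const s
    exact (h2.ofReal_comp).mul_const I
  have h3 := h1.cexp
  convert h3 using 1
  ring

/-- differentiation under the integral -/
theorem hd (g : ℝ → ℂ) (hg : IntegrableOn g (Ioo (-1 : ℝ) 1)) (u : ℝ) :
    HasDerivAt (fun u : ℝ => ∫ s in Ioo (-1 : ℝ) 1, Complex.exp (((u * s : ℝ) : ℂ) * I) * g s)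
      (∫ s in Ioo (-1 : ℝ) 1, Complex.exp (((u * s : ℝ) : ℂ) * I) * (I * s * g s)) u := by
  have hbd : ∀ v s : ℝ, ‖Complex.exp (((v * s : ℝ) : ℂ) * I)‖ = 1 := fun v s =>
    Complex.norm_exp_ofReal_mul_I _
  have hm : ∀ v : ℝ, AEStronglyMeasurable (fun s : ℝ => Complex.exp (((v * s : ℝ) : ℂ) * I))
      (volume.restrict (Ioo (-1 : ℝ) 1)) := fun v => by
    apply Continuous.aestronglyMeasurable
    fun_prop
  have key := hasDerivAt_integral_of_dominated_loc_of_deriv_le
    (μ := volume.restrict (Ioo (-1 : ℝ) 1))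
    (F := fun (u s : ℝ) => Complex.exp (((u * s : ℝ) : ℂ) * I) * g s)
    (F' := fun (u s : ℝ) => Complex.exp (((u * s : ℝ) : ℂ) * I) * (I * s * g s))
    (x₀ := u) (s := univ) (bound := fun s => ‖g s‖) Filter.univ_mem
    (Filter.Eventually.of_forall fun v => (hm v).mul hg.1) ?_ ?_ ?_ hg.norm ?_
  · exact key.2
  · refine hg.norm.mono' ((hm u).mul hg.1) (Filter.Eventually.of_forall fun s => ?_)
    rw [norm_mul, hbd, one_mul]
  · refine (hm u).mul (AEStronglyMeasurable.mul ?_ hg.1)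
    apply Continuous.aestronglyMeasurable
    fun_prop
  · filter_upwards [ae_restrict_mem measurableSet_Ioo] with s hs v _
    rw [norm_mul, hbd, one_mul, norm_mul, norm_mul, Complex.norm_I, one_mul, Complex.norm_real,
      Real.norm_eq_abs]
    have h1 : |s| ≤ 1 := abs_le.2 ⟨hs.1.le, hs.2.le⟩
    exact mul_le_of_le_one_left (norm_nonneg _) h1
  · refine Filter.Eventually.of_forall fun s v _ => ?_
    have h1 := (exp_hd s v).mul_const (g s)
    rw [mul_assoc] at h1
    exact h1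

/-- the first derivative -/
noncomputable def D1 (k : ℕ) (u : ℝ) : ℂ :=
  ∫ s in Ioo (-1 : ℝ) 1, Complex.exp (((u * s : ℝ) : ℂ) * I) * (I * s * (wg k s : ℂ))

theorem cast_two (k : ℕ) : (((k + 2 : ℕ) : ℝ) - 3) / 2 = ((k : ℝ) - 1) / 2 := by
  push_cast
  ring

theorem ibp (k : ℕ) (hk : 2 ≤ k) (u : ℝ) :
    D1 k u = -((u : ℂ) / ((k : ℂ) - 1)) * Phi (k + 2) u := by
  have hk' : (2 : ℝ) ≤ k := by exact_mod_cast hk
  set F : ℝ → ℂ := fun s => Complex.exp (((u * s : ℝ) : ℂ) * I) *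
    (((1 - s ^ 2) ^ (((k : ℝ) - 1) / 2) : ℝ) : ℂ) with hF
  set F' : ℝ → ℂ := fun s => (I * u) * (Complex.exp (((u * s : ℝ) : ℂ) * I) *
    ((wg (k + 2) s : ℝ) : ℂ)) + (I * ((k : ℂ) - 1)) *
      (Complex.exp (((u * s : ℝ) : ℂ) * I) * (I * s * (wg k s : ℂ))) with hF'
  have hcont : ContinuousOn F (Icc (-1) 1) := by
    rw [hF]
    refine ContinuousOn.mul (by fun_prop) ?_
    refine Complex.continuous_ofReal.comp_continuousOn ?_
    refine ContinuousOn.rpow_const (by fun_prop) fun s _ => Or.inr ?_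
    linarith
  have hder : ∀ s ∈ Ioo (-1 : ℝ) 1, HasDerivAt F (F' s) s := by
    intro s hs
    have h1 : 0 < 1 - s ^ 2 := by nlinarith [hs.1, hs.2]
    have h2 : HasDerivAt (fun s : ℝ => (1 - s ^ 2) ^ (((k : ℝ) - 1) / 2))
        ((-(2 * s)) * (((k : ℝ) - 1) / 2) * (1 - s ^ 2) ^ (((k : ℝ) - 1) / 2 - 1)) s := by
      have h3 : HasDerivAt (fun s : ℝ => 1 - s ^ 2) (-(2 * s)) s := by
        have := (hasDerivAt_pow 2 s).const_sub 1
        simpa using this
      exact h3.rpow_const (Or.inl h1.ne')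
    have h4 : HasDerivAt (fun s : ℝ => Complex.exp (((u * s : ℝ) : ℂ) * I))
        (Complex.exp (((u * s : ℝ) : ℂ) * I) * (I * u)) s := by
      have := exp_hd u s
      simp only [mul_comm s u] at this
      refine HasDerivAt.congr_of_eventuallyEq this (Filter.Eventually.of_forall fun v => ?_)
      simp only [mul_comm v u]
    have h5 := h4.mul h2.ofReal_comp
    have e1 : ((k : ℝ) - 1) / 2 - 1 = ((k : ℝ) - 3) / 2 := by ring
    have e2 : (1 - s ^ 2) ^ (((k : ℝ) - 1) / 2) = wg (k + 2) s := by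
      unfold wg
      rw [cast_two]
    have e3 : (1 - s ^ 2) ^ (((k : ℝ) - 1) / 2 - 1) = wg k s := by
      unfold wg
      rw [e1]
    have h6 : F' s = Complex.exp (((u * s : ℝ) : ℂ) * I) * (I * u) *
        (((1 - s ^ 2) ^ (((k : ℝ) - 1) / 2) : ℝ) : ℂ) + Complex.exp (((u * s : ℝ) : ℂ) * I) *
        ((((-(2 * s)) * (((k : ℝ) - 1) / 2) * (1 - s ^ 2) ^ (((k : ℝ) - 1) / 2 - 1)) : ℝ) : ℂ) := by
      simp only [hF', e2, e3]
      push_cast
      linear_combination (((k : ℂ) - 1) * s * (wg k s : ℂ) *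
        Complex.exp ((u : ℂ) * s * I)) * Complex.I_sq
    rw [h6]
    exact h5
  have hi1 : IntegrableOn (fun s : ℝ => Complex.exp (((u * s : ℝ) : ℂ) * I) *
      ((wg (k + 2) s : ℝ) : ℂ)) (Ioo (-1 : ℝ) 1) := by
    refine ((wg_int (k + 2) (by omega)).norm).mono' ?_ ?_
    · refine AEStronglyMeasurable.mul ?_ ?_
      · apply Continuous.aestronglyMeasurable
        fun_prop
      · exact (Complex.measurable_ofReal.comp (wg_meas _)).aestronglyMeasurable
    · refine Filter.Eventually.of_forall fun s => ?_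
      rw [norm_mul, Complex.norm_exp_ofReal_mul_I, one_mul, Complex.norm_real]
  have hi2 : IntegrableOn (fun s : ℝ => Complex.exp (((u * s : ℝ) : ℂ) * I) *
      (I * s * (wg k s : ℂ))) (Ioo (-1 : ℝ) 1) := by
    refine ((wg_int k hk).norm).mono' ?_ ?_
    · refine AEStronglyMeasurable.mul ?_ (AEStronglyMeasurable.mul ?_ ?_)
      · apply Continuous.aestronglyMeasurable
        fun_prop
      · apply Continuous.aestronglyMeasurable
        fun_prop
      · exact (Complex.measurable_ofReal.comp (wg_meas _)).aestronglyMeasurable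
    · filter_upwards [ae_restrict_mem measurableSet_Ioo] with s hs
      rw [norm_mul, Complex.norm_exp_ofReal_mul_I, one_mul, norm_mul, norm_mul, Complex.norm_I,
        one_mul, Complex.norm_real, Complex.norm_real, Real.norm_eq_abs s]
      exact mul_le_of_le_one_left (norm_nonneg _) (abs_le.2 ⟨hs.1.le, hs.2.le⟩)
  have hF'i : IntegrableOn F' (Ioo (-1 : ℝ) 1) := (hi1.const_mul _).add (hi2.const_mul _)
  have hI := intervalIntegral.integral_eq_sub_of_hasDerivAt_of_le (by norm_num : (-1 : ℝ) ≤ 1)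
    hcont hder (by
      rw [intervalIntegrable_iff_integrableOn_Ioo_of_le (by norm_num)]
      exact hF'i)
  have hz : F 1 - F (-1) = 0 := by
    have h0 : (0 : ℝ) ^ (((k : ℝ) - 1) / 2) = 0 := Real.zero_rpow (by
      have : 0 < ((k : ℝ) - 1) / 2 := by linarith
      exact this.ne')
    simp only [hF]
    norm_num
    rw [h0]
    simp
  rw [hz, intervalIntegral.integral_of_le (by norm_num), integral_Ioc_eq_integral_Ioo, hF',
    integral_add (hi1.const_mul _) (hi2.const_mul _), integral_const_mul, integral_const_mul] at hI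
  have e4 : ∫ s in Ioo (-1 : ℝ) 1, Complex.exp (((u * s : ℝ) : ℂ) * I) *
      ((wg (k + 2) s : ℝ) : ℂ) = Phi (k + 2) u := rfl
  have e5 : ∫ s in Ioo (-1 : ℝ) 1, Complex.exp (((u * s : ℝ) : ℂ) * I) *
      (I * s * (wg k s : ℂ)) = D1 k u := rfl
  rw [e4, e5] at hI
  have hk1 : ((k : ℂ) - 1) ≠ 0 := by
    intro h
    have h6 : ((k : ℝ) - 1 : ℝ) = 0 := by
      have : (((k : ℝ) - 1 : ℝ) : ℂ) = 0 := by push_cast; exact h
      exact_mod_cast this
    linarith
  have h7 : I * (((k : ℂ) - 1) * D1 k u) = I * (-(u * Phi (k + 2) u)) := by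
    linear_combination hI
  have h8 := mul_left_cancel₀ Complex.I_ne_zero h7
  field_simp
  linear_combination h8

end K3aux

open K3aux

theorem Phi_deriv (k : ℕ) (hk : 2 ≤ k) (u : ℝ) :
    HasDerivAt (Phi k) (-((u : ℂ) / ((k : ℂ) - 1)) * Phi (k + 2) u) u := by
  rw [← ibp k hk u]
  exact hd (fun s => (wg k s : ℂ)) (wg_int k hk).ofReal u

theorem Phi_deriv2 (k : ℕ) (hk : 2 ≤ k) (u : ℝ) :
    HasDerivAt (fun u : ℝ => -((u : ℂ) / ((k : ℂ) - 1)) * Phi (k + 2) u)
      (Phi (k + 2) u - Phi k u) u := by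
  have e : (fun u : ℝ => -((u : ℂ) / ((k : ℂ) - 1)) * Phi (k + 2) u) = D1 k := by
    funext v
    exact (ibp k hk v).symm
  rw [e]
  have hi : IntegrableOn (fun s : ℝ => I * s * (wg k s : ℂ)) (Ioo (-1 : ℝ) 1) := by
    refine ((wg_int k hk).norm).mono' ?_ ?_
    · refine (AEStronglyMeasurable.mul ?_ ?_)
      · apply Continuous.aestronglyMeasurable
        fun_prop
      · exact (Complex.measurable_ofReal.comp (wg_meas _)).aestronglyMeasurable
    · filter_upwards [ae_restrict_mem measurableSet_Ioo] with s hs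
      rw [norm_mul, norm_mul, Complex.norm_I,
        one_mul, Complex.norm_real, Complex.norm_real, Real.norm_eq_abs s]
      exact mul_le_of_le_one_left (norm_nonneg _) (abs_le.2 ⟨hs.1.le, hs.2.le⟩)
  have h1 := hd _ hi u
  have hP : ∀ j : ℕ, 2 ≤ j → IntegrableOn (fun s : ℝ => Complex.exp (((u * s : ℝ) : ℂ) * I) *
      ((wg j s : ℝ) : ℂ)) (Ioo (-1 : ℝ) 1) := by
    intro j hj
    refine ((wg_int j hj).norm).mono' ?_ ?_
    · refine AEStronglyMeasurable.mul ?_ ?_
      · apply Continuous.aestronglyMeasurable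
        fun_prop
      · exact (Complex.measurable_ofReal.comp (wg_meas _)).aestronglyMeasurable
    · refine Filter.Eventually.of_forall fun s => ?_
      rw [norm_mul, Complex.norm_exp_ofReal_mul_I, one_mul, Complex.norm_real]
  have e2 : ∫ s in Ioo (-1 : ℝ) 1, Complex.exp (((u * s : ℝ) : ℂ) * I) *
      (I * s * (I * s * (wg k s : ℂ))) = Phi (k + 2) u - Phi k u := by
    have e3 : Phi (k + 2) u - Phi k u = ∫ s in Ioo (-1 : ℝ) 1,
        (Complex.exp (((u * s : ℝ) : ℂ) * I) * ((wg (k + 2) s : ℝ) : ℂ) -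
          Complex.exp (((u * s : ℝ) : ℂ) * I) * ((wg k s : ℝ) : ℂ)) :=
      (integral_sub (hP (k + 2) (by omega)) (hP k hk)).symm
    rw [e3]
    refine setIntegral_congr_fun measurableSet_Ioo fun s hs => ?_
    have h2 : 0 < 1 - s ^ 2 := by nlinarith [hs.1, hs.2]
    have h3 : wg (k + 2) s = (1 - s ^ 2) * wg k s := by
      unfold wg
      rw [cast_two]
      have : ((k : ℝ) - 1) / 2 = 1 + ((k : ℝ) - 3) / 2 := by ring
      rw [this, Real.rpow_add h2, Real.rpow_one]
    simp only [h3]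
    push_cast
    linear_combination (Complex.exp ((u : ℂ) * s * I) * s ^ 2 * (wg k s : ℂ)) * Complex.I_sq
  rw [e2] at h1
  exact h1

end Pool.Agent.H438R2.RZ
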