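import Pool.Agent.H438R2.RZ.Defs
import Pool.Agent.H438R2.RZ.K0
import Pool.Agent.H438R2.RZ.K1
import Pool.Agent.H438R2.RZ.K2
import Pool.Agent.H438R2.RZ.K3
import Pool.Agent.H438R2.RZ.B0
set_option autoImplicit false

namespace Pool.Agent.H438R2.RZ

open MeasureTheory Set Complex Filter
open scoped ENNReal RealInnerProductSpace Topology

theorem adm_crit (f f' f'' : ℝ → ℂ) (c0 c1 : ℂ) (h1 : ∀ t : ℝ, 0 < t → HasDerivAt f (f' t) t)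
    (h2 : ∀ t : ℝ, 0 < t → HasDerivAt f' (f'' t) t)
    (h3 : Tendsto f (𝓝[>] 0) (𝓝 c0)) (h4 : Tendsto f' (𝓝[>] 0) (𝓝 c1))
    (h5 : IntegrableOn f (Ioi 0))
    (h6 : IntegrableOn (fun t => f'' t + (2 * Real.pi) ^ 2 * f t) (Ioi 0))
    (h7 : Tendsto f atTop (𝓝 0)) (h8 : Tendsto f' atTop (𝓝 0)) : Adm f :=
  adm_crit_of (fun w hw hw2 h => adm_density w hw hw2 h) f f' f'' c0 c1 h1 h2 h3 h4 h5 h6 h7 h8

end Pool.Agent.H438R2.RZ
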