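import Pool.Agent.H438R2.RZ.K4b
set_option autoImplicit false

/-! # Task K4: the block kernels are admissible -/

namespace Pool.Agent.H438R2.RZ.K4aux

open MeasureTheory Set Complex Filter
open scoped ENNReal Topology
open Pool.Agent.H438R2.BR (Phi L)

/-- the correction for `k = 2` -/
noncomputable def G0 (t : ℝ) : ℂ := ((Real.sqrt t * Real.exp (-t) : ℝ) : ℂ)
noncomputable def G1 (t : ℝ) : ℂ :=
  (((1 / (2 * Real.sqrt t) - Real.sqrt t) * Real.exp (-t) : ℝ) : ℂ)
noncomputable def G2 (t : ℝ) : ℂ :=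
  (((Real.sqrt t - 1 / Real.sqrt t - 1 / (4 * Real.sqrt t ^ 3)) * Real.exp (-t) : ℝ) : ℂ)

theorem exp_d (t : ℝ) : HasDerivAt (fun s : ℝ => Real.exp (-s)) (-Real.exp (-t)) t := by
  have := (hasDerivAt_neg t).exp
  rwa [mul_neg_one] at this

theorem G0_d (t : ℝ) (ht : 0 < t) : HasDerivAt G0 (G1 t) t := by
  have h1 := (Real.hasDerivAt_sqrt ht.ne').mul (exp_d t)
  refine hdc h1.ofReal_comp ?_
  unfold G1
  congr 1
  ring

theorem G1_d (t : ℝ) (ht : 0 < t) : HasDerivAt G1 (G2 t) t := by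
  have hs : 0 < Real.sqrt t := Real.sqrt_pos.2 ht
  have hd := Real.hasDerivAt_sqrt ht.ne'
  have h0 : HasDerivAt (fun s : ℝ => 1 / (2 * Real.sqrt s))
      ((0 * (2 * Real.sqrt t) - 1 * (2 * (1 / (2 * Real.sqrt t)))) / (2 * Real.sqrt t) ^ 2) t :=
    (hasDerivAt_const t (1 : ℝ)).div (hd.const_mul 2) (by positivity)
  have h1 := (h0.sub hd).mul (exp_d t)
  refine hdc h1.ofReal_comp ?_
  unfold G2
  congr 1
  simp only [Pi.sub_apply]
  field_simp
  ring

theorem G0_c : Continuous G0 :=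
  Complex.continuous_ofReal.comp (Real.continuous_sqrt.mul (Real.continuous_exp.comp continuous_neg))

theorem exp_le (t : ℝ) (ht : 1 ≤ t) : t * Real.exp (-t) ≤ 6 / t ^ 2 := by
  have ht0 : 0 < t := by linarith
  have h := Real.pow_div_factorial_le_exp t ht0.le 3
  have h2 : t ^ 3 / 6 ≤ Real.exp t := by simpa [Nat.factorial] using h
  rw [Real.exp_neg, ← div_eq_mul_inv, div_le_div_iff₀ (Real.exp_pos t) (by positivity)]
  calc t * t ^ 2 = t ^ 3 / 6 * 6 := by ring
    _ ≤ Real.exp t * 6 := mul_le_mul_of_nonneg_right h2 (by norm_num)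
    _ = 6 * Real.exp t := by ring

theorem sqrt_le' (t : ℝ) (ht : 1 ≤ t) : Real.sqrt t ≤ t := by
  rw [Real.sqrt_le_left (by linarith)]
  nlinarith

theorem G0_inf (t : ℝ) (ht : 1 ≤ t) : ‖G0 t‖ ≤ 6 / t ^ 2 := by
  unfold G0
  rw [Complex.norm_real, Real.norm_of_nonneg (by positivity)]
  exact (mul_le_mul_of_nonneg_right (sqrt_le' t ht) (Real.exp_pos _).le).trans (exp_le t ht)

theorem G0_b (t : ℝ) (ht : 0 < t) : ‖G0 t‖ ≤ 6 := by
  rcases le_total t 1 with h | h
  · unfold G0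
    rw [Complex.norm_real, Real.norm_of_nonneg (by positivity)]
    have h1 : Real.sqrt t ≤ 1 := Real.sqrt_le_one.2 h
    have h2 : Real.exp (-t) ≤ 1 := Real.exp_le_one_iff.2 (by linarith)
    have h3 := mul_le_mul h1 h2 (Real.exp_pos _).le zero_le_one
    linarith
  · refine (G0_inf t h).trans ?_
    exact div_le_self (by norm_num) (one_le_pow₀ h)

/-- the bracket -/
noncomputable def Hb (t : ℝ) : ℂ :=
  Phi 2 (2 * Real.pi * t) - Phi 2 0 * ((Real.exp (-t) : ℝ) : ℂ)

noncomputable def Hb1 (t : ℝ) : ℂ :=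
  (2 * Real.pi) * Phi1 2 (2 * Real.pi * t) - Phi 2 0 * (((-Real.exp (-t)) : ℝ) : ℂ)

theorem Hb_d (t : ℝ) : HasDerivAt Hb (Hb1 t) t :=
  (scale_d t (Phi_d 2 le_rfl _)).sub ((exp_d t).ofReal_comp.const_mul _)

theorem Hb1_c : Continuous Hb1 := by
  unfold Hb1
  exact (continuous_const.mul ((Phi1_c 2 le_rfl).comp (continuous_const.mul continuous_id))).sub
    (continuous_const.mul (Complex.continuous_ofReal.comp
      (Real.continuous_exp.comp continuous_neg).neg))

theorem Hb_zero : Hb 0 = 0 := by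
  unfold Hb
  simp

theorem Hb_le : ∃ C : ℝ, 0 < C ∧ ∀ t : ℝ, 0 ≤ t → t ≤ 1 → ‖Hb t‖ ≤ C * t := by
  obtain ⟨C, hC⟩ := (isCompact_Icc (a := (0 : ℝ)) (b := 1)).exists_bound_of_continuousOn
    Hb1_c.continuousOn
  refine ⟨|C| + 1, by positivity, fun t h0 h1 => ?_⟩
  have h := (convex_Icc (0 : ℝ) 1).norm_image_sub_le_of_norm_hasDerivWithin_le
    (f := Hb) (f' := Hb1) (C := C) (x := 0) (y := t)
    (fun x _ => (Hb_d x).hasDerivWithinAt) hC ⟨le_rfl, zero_le_one⟩ ⟨h0, h1⟩
  rw [Hb_zero, sub_zero, sub_zero, Real.norm_of_nonneg h0] at h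
  refine h.trans (mul_le_mul_of_nonneg_right ?_ h0)
  linarith [le_abs_self C]

/-- the constant -/
noncomputable def D2 : ℂ := ((Real.sqrt (2 * Real.pi) : ℝ) : ℂ) * Phi 2 0

theorem al2 : al 2 = 1 / 2 := by unfold al; norm_num

theorem r1 (t : ℝ) : (2 * Real.pi * t) ^ al 2 = Real.sqrt (2 * Real.pi) * Real.sqrt t := by
  have := Real.pi_pos
  rw [al2, ← Real.sqrt_eq_rpow, Real.sqrt_mul (by positivity)]

theorem r2 (t : ℝ) (ht : 0 < t) :
    (2 * Real.pi * t) ^ (al 2 - 1) = 1 / (Real.sqrt (2 * Real.pi) * Real.sqrt t) := by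
  have hp := Real.pi_pos
  have hu := tp_pos ht
  have h1 : 0 < Real.sqrt (2 * Real.pi) := Real.sqrt_pos.2 (by positivity)
  have h2 : 0 < Real.sqrt t := Real.sqrt_pos.2 ht
  rw [Real.rpow_sub_one hu.ne', r1, div_eq_div_iff hu.ne' (by positivity)]
  have e1 : Real.sqrt (2 * Real.pi) * Real.sqrt (2 * Real.pi) = 2 * Real.pi :=
    Real.mul_self_sqrt (by positivity)
  have e2 : Real.sqrt t * Real.sqrt t = t := Real.mul_self_sqrt ht.le
  calc Real.sqrt (2 * Real.pi) * Real.sqrt t * (Real.sqrt (2 * Real.pi) * Real.sqrt t) =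
      (Real.sqrt (2 * Real.pi) * Real.sqrt (2 * Real.pi)) * (Real.sqrt t * Real.sqrt t) := by ring
    _ = 1 * (2 * Real.pi * t) := by rw [e1, e2]; ring

theorem r3 (t : ℝ) (ht : 0 < t) :
    (2 * Real.pi * t) ^ (al 2 - 1 - 1) =
      1 / (Real.sqrt (2 * Real.pi) * Real.sqrt t * (2 * Real.pi * t)) := by
  have hu := tp_pos ht
  rw [Real.rpow_sub_one hu.ne', r2 t ht, div_div]

/-- `K1 - D2 G1` -/
theorem K1_form (t : ℝ) (ht : 0 < t) : K1 2 t - D2 * G1 t =
    ((Real.sqrt (2 * Real.pi) / 2 : ℝ) : ℂ) * (((1 / Real.sqrt t : ℝ) : ℂ) * Hb t) +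
      ((2 * Real.pi) * (((Real.sqrt (2 * Real.pi) * Real.sqrt t : ℝ) : ℂ) *
        Phi1 2 (2 * Real.pi * t)) + D2 * G0 t) := by
  have hp := Real.pi_pos
  have h1 : 0 < Real.sqrt (2 * Real.pi) := Real.sqrt_pos.2 (by positivity)
  have h2 : 0 < Real.sqrt t := Real.sqrt_pos.2 ht
  have e1 : Real.sqrt (2 * Real.pi) * Real.sqrt (2 * Real.pi) = 2 * Real.pi :=
    Real.mul_self_sqrt (by positivity)
  unfold K1 P1
  rw [r1, r2 t ht, al2]
  unfold G1 G0 D2 Hb
  have hA : (2 * Real.pi) * (1 / 2 * (1 / (Real.sqrt (2 * Real.pi) * Real.sqrt t))) =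
      Real.sqrt (2 * Real.pi) / 2 * (1 / Real.sqrt t) := by
    have e3 : (2 * Real.pi) * (1 / 2 * (1 / (Real.sqrt (2 * Real.pi) * Real.sqrt t))) =
        (2 * Real.pi) / Real.sqrt (2 * Real.pi) / (2 * Real.sqrt t) := by
      field_simp
    have e4 : (2 * Real.pi) / Real.sqrt (2 * Real.pi) = Real.sqrt (2 * Real.pi) := by
      rw [div_eq_iff h1.ne']; exact e1.symm
    rw [e3, e4]
    field_simp
  have hA' := congrArg (fun x : ℝ => (x : ℂ)) hA
  have hB : Real.sqrt (2 * Real.pi) * ((1 / (2 * Real.sqrt t) - Real.sqrt t) * Real.exp (-t)) =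
      Real.sqrt (2 * Real.pi) / 2 * (1 / Real.sqrt t) * Real.exp (-t) -
        Real.sqrt (2 * Real.pi) * (Real.sqrt t * Real.exp (-t)) := by
    field_simp
  have hB' := congrArg (fun x : ℝ => (x : ℂ)) hB
  simp only [Complex.ofReal_mul, Complex.ofReal_sub, Complex.ofReal_div, Complex.ofReal_ofNat,
    Complex.ofReal_one] at hA' hB' ⊢
  linear_combination (Phi 2 (2 * Real.pi * t)) * hA' - (Phi 2 0) * hB'

/-- `K2 - D2 G2 + 4 pi^2 (K0 - D2 G0)` -/
theorem K2_form (t : ℝ) (ht : 0 < t) :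
    (K2 2 t - D2 * G2 t) + (2 * Real.pi) ^ 2 * (K0 2 t - D2 * G0 t) =
      ((-(Real.sqrt (2 * Real.pi) / 4) : ℝ) : ℂ) * (((1 / (t * Real.sqrt t) : ℝ) : ℂ) * Hb t) +
      D2 * (((1 / Real.sqrt t - (1 + (2 * Real.pi) ^ 2) * Real.sqrt t) *
        Real.exp (-t) : ℝ) : ℂ) := by
  have hp := Real.pi_pos
  have h1 : 0 < Real.sqrt (2 * Real.pi) := Real.sqrt_pos.2 (by positivity)
  have h2 : 0 < Real.sqrt t := Real.sqrt_pos.2 ht
  have e1 : Real.sqrt (2 * Real.pi) * Real.sqrt (2 * Real.pi) = 2 * Real.pi :=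
    Real.mul_self_sqrt (by positivity)
  have e2 : Real.sqrt t ^ 2 = t := Real.sq_sqrt ht.le
  have h3 : (K2 2 t - D2 * G2 t) + (2 * Real.pi) ^ 2 * (K0 2 t - D2 * G0 t) =
      (2 * Real.pi) ^ 2 * X 2 (2 * Real.pi * t) - D2 * (G2 t + (2 * Real.pi) ^ 2 * G0 t) := by
    rw [← K2_eq]; ring
  rw [h3]
  unfold X
  rw [r3 t ht, al2]
  unfold G2 G0 D2 Hb
  have hA : (2 * Real.pi) ^ 2 * (1 / 2 * ((1 / 2 - 1) *
      (1 / (Real.sqrt (2 * Real.pi) * Real.sqrt t * (2 * Real.pi * t))))) =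
      -(Real.sqrt (2 * Real.pi) / 4) * (1 / (t * Real.sqrt t)) := by
    have e3 : (2 * Real.pi) ^ 2 * (1 / 2 * ((1 / 2 - 1) *
      (1 / (Real.sqrt (2 * Real.pi) * Real.sqrt t * (2 * Real.pi * t))))) =
      -((2 * Real.pi) / Real.sqrt (2 * Real.pi)) / (4 * (t * Real.sqrt t)) := by
      field_simp
      norm_num
    have e4 : (2 * Real.pi) / Real.sqrt (2 * Real.pi) = Real.sqrt (2 * Real.pi) := by
      rw [div_eq_iff h1.ne']; exact e1.symm
    rw [e3, e4]
    field_simp
  have hA' := congrArg (fun x : ℝ => (x : ℂ)) hA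
  have hB : (Real.sqrt t - 1 / Real.sqrt t - 1 / (4 * Real.sqrt t ^ 3)) * Real.exp (-t) +
      (2 * Real.pi) ^ 2 * (Real.sqrt t * Real.exp (-t)) =
      -(1 / 4) * (1 / (t * Real.sqrt t)) * Real.exp (-t) -
        (1 / Real.sqrt t - (1 + (2 * Real.pi) ^ 2) * Real.sqrt t) * Real.exp (-t) := by
    have e5 : Real.sqrt t ^ 3 = t * Real.sqrt t := by
      rw [pow_succ, e2]
    rw [e5]
    field_simp
    ring
  have hB' := congrArg (fun x : ℝ => (x : ℂ)) hB
  simp only [Complex.ofReal_mul, Complex.ofReal_sub, Complex.ofReal_div, Complex.ofReal_ofNat,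
    Complex.ofReal_one, Complex.ofReal_add, Complex.ofReal_neg, Complex.ofReal_pow] at hA' hB' ⊢
  linear_combination (Phi 2 (2 * Real.pi * t)) * hA' -
    ((Real.sqrt (2 * Real.pi) : ℝ) : ℂ) * (Phi 2 0) * hB'

theorem lim_bracket : Tendsto (fun t : ℝ => ((1 / Real.sqrt t : ℝ) : ℂ) * Hb t) (𝓝[>] 0) (𝓝 0) := by
  obtain ⟨C, hC, h⟩ := Hb_le
  rw [tendsto_zero_iff_norm_tendsto_zero]
  have hlim : Tendsto (fun t : ℝ => C * Real.sqrt t) (𝓝[>] 0) (𝓝 0) := by
    have h1 : Tendsto (fun t : ℝ => C * Real.sqrt t) (𝓝 0) (𝓝 (C * Real.sqrt 0)) :=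
      (continuous_const.mul Real.continuous_sqrt).tendsto 0
    rw [Real.sqrt_zero, mul_zero] at h1
    exact h1.mono_left nhdsWithin_le_nhds
  refine squeeze_zero' (Eventually.of_forall fun t => norm_nonneg _) ?_ hlim
  have hmem : Ioc (0 : ℝ) 1 ∈ 𝓝[>] (0 : ℝ) := Ioc_mem_nhdsGT one_pos
  filter_upwards [hmem] with t ht
  have hs : 0 < Real.sqrt t := Real.sqrt_pos.2 ht.1
  rw [norm_mul, Complex.norm_real, Real.norm_of_nonneg (by positivity), one_div,
    inv_mul_le_iff₀ hs]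
  calc ‖Hb t‖ ≤ C * t := h t ht.1.le ht.2
    _ = Real.sqrt t * (C * Real.sqrt t) := by
        nth_rewrite 1 [← Real.mul_self_sqrt ht.1.le]; ring

/-- the case `k = 2` -/
theorem adm2 : Adm (K0 2) := by
  have hp := Real.pi_pos
  obtain ⟨A, B, A', B', C, hC, ha⟩ := asym 2 le_rfl
  obtain ⟨C2, hC2, hb⟩ := K0_b 2 le_rfl
  obtain ⟨C3, hC3, hX⟩ := X_inf 2 le_rfl
  obtain ⟨C4, hC4, hH⟩ := Hb_le
  set E : ℝ := (1 + (2 * Real.pi) ^ 2) with hE
  have hE0 : 0 < E := by positivity
  have hkey : Adm (fun t => K0 2 t - D2 * G0 t) := by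
    refine crit2 (fun t => K0 2 t - D2 * G0 t) (fun t => K1 2 t - D2 * G1 t)
      (fun t => K2 2 t - D2 * G2 t) A B A' B' (K0 2 0 - D2 * G0 0)
      (((Real.sqrt (2 * Real.pi) / 2 : ℝ) : ℂ) * 0 +
        ((2 * Real.pi) * (((Real.sqrt (2 * Real.pi) * Real.sqrt 0 : ℝ) : ℂ) *
        Phi1 2 (2 * Real.pi * 0)) + D2 * G0 0)) (C + C2 + ‖D2‖ * 6)
      (fun t ht => (K0_d 2 le_rfl t ht).sub ((G0_d t ht).const_mul _))
      (fun t ht => (K1_d 2 le_rfl t ht).sub ((G1_d t ht).const_mul _)) ?_ ?_ ?_ ?_ ?_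
    · exact (((K0_c 2 le_rfl).sub (continuous_const.mul G0_c)).tendsto 0).mono_left
        nhdsWithin_le_nhds
    · have hc : Continuous (fun t : ℝ => (2 * (Real.pi : ℂ)) *
          (((Real.sqrt (2 * Real.pi) * Real.sqrt t : ℝ) : ℂ) * Phi1 2 (2 * Real.pi * t)) +
          D2 * G0 t) :=
        (continuous_const.mul ((Complex.continuous_ofReal.comp (continuous_const.mul
          Real.continuous_sqrt)).mul ((Phi1_c 2 le_rfl).comp
          (continuous_const.mul continuous_id)))).add (continuous_const.mul G0_c)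
      have h1 := (lim_bracket.const_mul ((Real.sqrt (2 * Real.pi) / 2 : ℝ) : ℂ)).add
        ((hc.tendsto 0).mono_left nhdsWithin_le_nhds)
      refine h1.congr' ?_
      filter_upwards [self_mem_nhdsWithin] with t ht
      exact (K1_form t ht).symm
    · intro t ht
      refine (norm_sub_le _ _).trans ?_
      rw [norm_mul]
      have h1 := hb t ht
      have h2 := mul_le_mul_of_nonneg_left (G0_b t ht) (norm_nonneg D2)
      linarith
    · intro t ht
      have h1 := ha t ht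
      have h2 := mul_le_mul_of_nonneg_left (G0_inf t ht) (norm_nonneg D2)
      have h3 : K0 2 t - D2 * G0 t - S0 A B A' B' t = (K0 2 t - S0 A B A' B' t) - D2 * G0 t := by
        ring
      rw [h3]
      refine (norm_sub_le _ _).trans ?_
      rw [norm_mul]
      have h4 : (C + C2 + ‖D2‖ * 6) / t ^ 2 = C / t ^ 2 + C2 / t ^ 2 + ‖D2‖ * (6 / t ^ 2) := by ring
      have h5 : 0 ≤ C2 / t ^ 2 := by positivity
      linarith
    · set s := Real.sqrt (2 * Real.pi) with hs
      have hs0 : 0 < s := Real.sqrt_pos.2 (by positivity)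
      refine intdom _ (s / 4 * C4 + ‖D2‖ * (1 + E) +
        (‖(2 * Real.pi : ℂ) ^ 2‖ * C3 + ‖D2‖ * ((1 + E) * 6) + ‖D2‖ * ((2 * Real.pi) ^ 2 * 6))) ?_ ?_ ?_
      · refine ContinuousOn.add ?_ (continuousOn_const.mul ?_)
        · intro t ht
          have ht' : (0 : ℝ) < t := ht
          have hst : Real.sqrt t ≠ 0 := (Real.sqrt_pos.2 ht').ne'
          have c1 : ContinuousAt (fun t => K2 2 t) t := by
            have e1 : (fun t => K2 2 t) = fun t => (2 * Real.pi : ℂ) ^ 2 * X 2 (2 * Real.pi * t) -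
                (2 * Real.pi) ^ 2 * K0 2 t := by
              funext t; rw [← K2_eq]; ring
            rw [e1]
            exact (continuousAt_const.mul ((X_cont 2 le_rfl).continuousAt (Ioi_mem_nhds ht'))).sub
              (continuous_const.mul (K0_c 2 le_rfl)).continuousAt
          have c2 : ContinuousAt G2 t := by
            unfold G2
            refine Complex.continuous_ofReal.continuousAt.comp (ContinuousAt.mul ?_
              (Real.continuous_exp.comp continuous_neg).continuousAt)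
            have cs := Real.continuous_sqrt.continuousAt (x := t)
            exact (cs.sub (continuousAt_const.div cs hst)).sub (continuousAt_const.div
              (continuousAt_const.mul (cs.pow 3)) (mul_ne_zero (by norm_num) (pow_ne_zero 3 hst)))
          exact (c1.sub (continuousAt_const.mul c2)).continuousWithinAt
        · exact ((K0_c 2 le_rfl).sub (continuous_const.mul G0_c)).continuousOn
      · intro t ht ht1
        have hst : 0 < Real.sqrt t := Real.sqrt_pos.2 ht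
        have hrt : t ^ (-(1 / 2) : ℝ) = 1 / Real.sqrt t := by
          rw [Real.rpow_neg ht.le, ← Real.sqrt_eq_rpow, one_div]
        rw [K2_form t ht, hrt]
        have n1 : ‖((-(s / 4) : ℝ) : ℂ) * (((1 / (t * Real.sqrt t) : ℝ) : ℂ) * Hb t)‖ ≤
            s / 4 * C4 * (1 / Real.sqrt t) := by
          rw [norm_mul, norm_mul, Complex.norm_real, Complex.norm_real, norm_neg,
            Real.norm_of_nonneg (by positivity), Real.norm_of_nonneg (by positivity)]
          have h1 := mul_le_mul_of_nonneg_left (hH t ht.le ht1)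
            (by positivity : 0 ≤ s / 4 * (1 / (t * Real.sqrt t)))
          calc s / 4 * (1 / (t * Real.sqrt t) * ‖Hb t‖) = s / 4 * (1 / (t * Real.sqrt t)) * ‖Hb t‖ := by
                ring
            _ ≤ s / 4 * (1 / (t * Real.sqrt t)) * (C4 * t) := h1
            _ = s / 4 * C4 * (1 / Real.sqrt t) := by field_simp
        have hs1 : Real.sqrt t ≤ 1 := Real.sqrt_le_one.2 ht1
        have hs2 : (1 : ℝ) ≤ 1 / Real.sqrt t := by rw [le_div_iff₀ hst]; linarith
        have n2 : ‖D2 * (((1 / Real.sqrt t - E * Real.sqrt t) * Real.exp (-t) : ℝ) : ℂ)‖ ≤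
            ‖D2‖ * (1 + E) * (1 / Real.sqrt t) := by
          rw [norm_mul, Complex.norm_real, mul_assoc]
          refine mul_le_mul_of_nonneg_left ?_ (norm_nonneg _)
          rw [norm_mul, Real.norm_of_nonneg (Real.exp_pos _).le]
          have h2 : Real.exp (-t) ≤ 1 := Real.exp_le_one_iff.2 (by linarith)
          refine (mul_le_of_le_one_right (norm_nonneg _) h2).trans ?_
          refine (norm_sub_le _ _).trans ?_
          rw [Real.norm_of_nonneg (by positivity), Real.norm_of_nonneg (by positivity)]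
          have h3 : E * Real.sqrt t ≤ E * (1 / Real.sqrt t) :=
            mul_le_mul_of_nonneg_left (hs1.trans hs2) hE0.le
          linarith
        refine (norm_add_le _ _).trans ((add_le_add n1 n2).trans ?_)
        rw [← add_mul]
        refine mul_le_mul_of_nonneg_right ?_ (by positivity)
        have : 0 ≤ ‖(2 * Real.pi : ℂ) ^ 2‖ * C3 + ‖D2‖ * ((1 + E) * 6) +
          ‖D2‖ * ((2 * Real.pi) ^ 2 * 6) := by positivity
        linarith
      · intro t ht
        have ht0 : 0 < t := by linarith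
        have hst : 1 ≤ Real.sqrt t := Real.one_le_sqrt.2 ht
        have hst2 := sqrt_le' t ht
        have hex := exp_le t ht
        have e3 : (K2 2 t - D2 * G2 t) + (2 * Real.pi) ^ 2 * (K0 2 t - D2 * G0 t) =
            (2 * Real.pi) ^ 2 * X 2 (2 * Real.pi * t) - D2 * G2 t - D2 * ((2 * Real.pi) ^ 2 * G0 t) := by
          rw [← K2_eq]; ring
        rw [e3]
        have n1 : ‖(2 * Real.pi : ℂ) ^ 2 * X 2 (2 * Real.pi * t)‖ ≤
            ‖(2 * Real.pi : ℂ) ^ 2‖ * C3 * (1 / t ^ 2) := by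
          rw [norm_mul, mul_assoc ‖(2 * Real.pi : ℂ) ^ 2‖ C3]
          refine mul_le_mul_of_nonneg_left ?_ (norm_nonneg _)
          refine (hX _ (tp_pos ht0)).trans ?_
          refine (div_le_div_of_nonneg_left hC3.le (by positivity)
            (pow_le_pow_left₀ ht0.le (t_le_u ht0.le) 2)).trans (le_of_eq (by ring))
        have n2 : ‖D2 * G2 t‖ ≤ ‖D2‖ * ((1 + E) * 6) * (1 / t ^ 2) := by
          rw [norm_mul, mul_assoc]
          refine mul_le_mul_of_nonneg_left ?_ (norm_nonneg _)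
          unfold G2
          rw [Complex.norm_real, norm_mul, Real.norm_of_nonneg (Real.exp_pos _).le]
          have h1 : ‖Real.sqrt t - 1 / Real.sqrt t - 1 / (4 * Real.sqrt t ^ 3)‖ ≤ (1 + E) * t := by
            have h2 : 1 / Real.sqrt t ≤ 1 := by
              rw [div_le_one (by linarith)]; exact hst
            have h3 : 1 / (4 * Real.sqrt t ^ 3) ≤ 1 := by
              rw [div_le_one (by positivity)]
              have := one_le_pow₀ hst (n := 3)
              linarith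
            have h4 : 0 < 1 / Real.sqrt t := by positivity
            have h5 : 0 < 1 / (4 * Real.sqrt t ^ 3) := by positivity
            have hE1 : 1 ≤ E := by
              rw [hE]
              have : 0 ≤ (2 * Real.pi) ^ 2 := by positivity
              linarith
            rw [Real.norm_eq_abs, abs_le]
            constructor
            · nlinarith
            · nlinarith
          calc ‖Real.sqrt t - 1 / Real.sqrt t - 1 / (4 * Real.sqrt t ^ 3)‖ * Real.exp (-t)
              ≤ (1 + E) * t * Real.exp (-t) := mul_le_mul_of_nonneg_right h1 (Real.exp_pos _).le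
            _ = (1 + E) * (t * Real.exp (-t)) := by ring
            _ ≤ (1 + E) * (6 / t ^ 2) := mul_le_mul_of_nonneg_left hex (by positivity)
            _ = _ := by ring
        have n3 : ‖D2 * ((2 * Real.pi) ^ 2 * G0 t)‖ ≤ ‖D2‖ * ((2 * Real.pi) ^ 2 * 6) * (1 / t ^ 2) := by
          have hn : ‖((2 * Real.pi : ℂ)) ^ 2‖ = (2 * Real.pi) ^ 2 := by
            rw [norm_pow, norm_mul, Complex.norm_real, Real.norm_of_nonneg hp.le]
            simp
          rw [norm_mul, norm_mul, hn]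
          have h1 := mul_le_mul_of_nonneg_left (G0_inf t ht)
            (by positivity : 0 ≤ ‖D2‖ * (2 * Real.pi) ^ 2)
          calc ‖D2‖ * ((2 * Real.pi) ^ 2 * ‖G0 t‖) = ‖D2‖ * (2 * Real.pi) ^ 2 * ‖G0 t‖ := by ring
            _ ≤ ‖D2‖ * (2 * Real.pi) ^ 2 * (6 / t ^ 2) := h1
            _ = _ := by ring
        refine (norm_sub_le _ _).trans ?_
        refine (add_le_add ((norm_sub_le _ _).trans (add_le_add n1 n2)) n3).trans ?_
        rw [← add_mul, ← add_mul, div_eq_mul_one_div (s / 4 * C4 + _ + _)]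
        refine mul_le_mul_of_nonneg_right ?_ (by positivity)
        have : 0 ≤ s / 4 * C4 + ‖D2‖ * (1 + E) := by positivity
        linarith
  have h2 := adm_add hkey (adm_smul D2 adm_sqrt)
  refine adm_congr h2 fun t _ => ?_
  unfold G0
  ring

theorem admK (k : ℕ) (hk : 2 ≤ k) : Adm (K0 k) := by
  rcases Nat.lt_or_ge k 3 with h | h
  · have : k = 2 := by omega
    subst this
    exact adm2
  · exact adm3 k h

end Pool.Agent.H438R2.RZ.K4aux

namespace Pool.Agent.H438R2.RZ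

open Pool.Agent.H789R2.FR (E sg)

/-- Task K4 -/
theorem adm_kap2 (k : ℕ) (hk : 2 ≤ k) : Adm (kap k) := by
  have hp : 0 < 2 * Real.pi := by have := Real.pi_pos; positivity
  have h := adm_smul (((((sg (k - 1)).real Set.univ) / (2 * Real.pi) ^ K4aux.al k : ℝ)) : ℂ)
    (K4aux.admK k hk)
  refine adm_congr h fun t ht => ?_
  have h1 : k ≠ 1 := by omega
  have h2 : (0 : ℝ) < (2 * Real.pi) ^ K4aux.al k := Real.rpow_pos_of_pos hp _
  unfold kap Th K4aux.K0 K4aux.P0
  rw [if_neg h1, Real.mul_rpow hp.le ht.le]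
  have h3 : (((2 * Real.pi) ^ K4aux.al k : ℝ) : ℂ) ≠ 0 := by exact_mod_cast h2.ne'
  unfold K4aux.al at *
  rw [Complex.ofReal_div, Complex.ofReal_mul]
  field_simp

end Pool.Agent.H438R2.RZ
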