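import Pool.Agent.H438R2.RZ.Defs
import Pool.Agent.H438R2.RZ.K3
import Pool.Agent.H438R2.ZD.Z1

set_option autoImplicit false

/-! # K5: Lommel bound for the block kernels -/

namespace Pool.Agent.H438R2.RZ.K5aux

open MeasureTheory Set Complex
open Pool.Agent.H789R2.FR (E sg)
open Pool.Agent.H438R2.BR (Phi)

/-- derivative of `Phi` -/
noncomputable def P1 (k : ℕ) (u : ℝ) : ℂ := -((u : ℂ) / ((k : ℂ) - 1)) * Phi (k + 2) u

/-- Lommel's function, `k = n + 2` -/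
noncomputable def W (n : ℕ) (x y s : ℝ) : ℂ :=
  (s : ℂ) ^ (n + 1) * ((x : ℂ) * P1 (n + 2) (x * s) * Phi (n + 2) (y * s) -
    (y : ℂ) * Phi (n + 2) (x * s) * P1 (n + 2) (y * s))

theorem W_deriv (n : ℕ) (x y s : ℝ) :
    HasDerivAt (W n x y) (((y : ℂ) ^ 2 - (x : ℂ) ^ 2) *
      ((s : ℂ) ^ (n + 1) * (Phi (n + 2) (x * s) * Phi (n + 2) (y * s)))) s := by
  have hs : HasDerivAt (fun s : ℝ => (s : ℂ)) 1 s := Complex.ofRealCLM.hasDerivAt
  have hp : HasDerivAt (fun s : ℝ => (s : ℂ) ^ (n + 1)) (((n + 1 : ℕ) : ℂ) * (s : ℂ) ^ n * 1) s := by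
    exact hs.fun_pow (n + 1)
  have hlin : ∀ a : ℝ, HasDerivAt (fun s : ℝ => a * s) a s := fun a => by
    simpa using (hasDerivAt_id s).const_mul a
  have hPhi : ∀ a : ℝ, HasDerivAt (fun s : ℝ => Phi (n + 2) (a * s))
      ((a : ℂ) * P1 (n + 2) (a * s)) s := by
    intro a
    have h := (Phi_deriv (n + 2) (by omega) (a * s)).scomp s (hlin a)
    have e : a • (-(((a * s : ℝ) : ℂ) / (((n + 2 : ℕ) : ℂ) - 1)) * Phi (n + 2 + 2) (a * s)) =
        (a : ℂ) * P1 (n + 2) (a * s) := by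
      rw [Complex.real_smul]
      rfl
    rw [e] at h
    exact h
  have hP1 : ∀ a : ℝ, HasDerivAt (fun s : ℝ => P1 (n + 2) (a * s))
      ((a : ℂ) * (Phi (n + 4) (a * s) - Phi (n + 2) (a * s))) s := by
    intro a
    have h := (Phi_deriv2 (n + 2) (by omega) (a * s)).scomp s (hlin a)
    rw [Complex.real_smul] at h
    exact h
  have h := hp.fun_mul ((((hP1 x).const_mul (x : ℂ)).fun_mul (hPhi y)).fun_sub
    (((hPhi x).const_mul (y : ℂ)).fun_mul (hP1 y)))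
  refine h.congr_deriv ?_
  have hk : (((n + 2 : ℕ) : ℂ) - 1) = (n : ℂ) + 1 := by
    push_cast
    ring
  have hk0 : (n : ℂ) + 1 ≠ 0 := by exact_mod_cast Nat.succ_ne_zero n
  simp only [P1, hk]
  have h4 : n + 2 + 2 = n + 4 := rfl
  rw [h4]
  push_cast
  field_simp
  ring

theorem Phi_cont (k : ℕ) (hk : 2 ≤ k) : Continuous (Phi k) :=
  continuous_iff_continuousAt.2 fun u => (Phi_deriv k hk u).continuousAt

theorem int_eq (n : ℕ) (x y S : ℝ) (hx : 0 < x) (hy : 0 < y) (hxy : x ≠ y) :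
    ∫ s in (0 : ℝ)..S, (s : ℂ) ^ (n + 1) * (Phi (n + 2) (x * s) * Phi (n + 2) (y * s)) =
      W n x y S / ((y : ℂ) ^ 2 - (x : ℂ) ^ 2) := by
  have hne : (y : ℂ) ^ 2 - (x : ℂ) ^ 2 ≠ 0 := by
    have h : y ^ 2 - x ^ 2 ≠ 0 := by
      have e : y ^ 2 - x ^ 2 = (y - x) * (y + x) := by ring
      rw [e]
      exact mul_ne_zero (sub_ne_zero.2 hxy.symm) (by linarith)
    exact_mod_cast h
  have hc : Continuous fun s : ℝ => ((y : ℂ) ^ 2 - (x : ℂ) ^ 2) *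
      ((s : ℂ) ^ (n + 1) * (Phi (n + 2) (x * s) * Phi (n + 2) (y * s))) := by
    have h1 := Phi_cont (n + 2) (by omega)
    have h2 : Continuous fun s : ℝ => Phi (n + 2) (x * s) := h1.comp (continuous_const.mul continuous_id)
    have h3 : Continuous fun s : ℝ => Phi (n + 2) (y * s) := h1.comp (continuous_const.mul continuous_id)
    exact continuous_const.mul ((Complex.continuous_ofReal.pow _).mul (h2.mul h3))
  have h := intervalIntegral.integral_eq_sub_of_hasDerivAt (a := 0) (b := S)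
    (fun s _ => W_deriv n x y s) (hc.intervalIntegrable _ _)
  rw [intervalIntegral.integral_const_mul] at h
  have h0 : W n x y 0 = 0 := by
    unfold W
    simp
  rw [h0, sub_zero] at h
  rw [eq_div_iff hne, mul_comm]
  exact h

/-- bounds for `Phi` and its derivative -/
theorem bounds (n : ℕ) : ∃ C : ℝ, 0 < C ∧ ∀ u : ℝ, 0 < u →
    ‖Phi (n + 2) u‖ ≤ C * u ^ (-(((n : ℝ) + 1) / 2)) ∧
    ‖P1 (n + 2) u‖ ≤ C * u ^ (-(((n : ℝ) + 1) / 2)) := by
  obtain ⟨C1, h1, hC1⟩ := Pool.Agent.H438R2.ZD.Phi_decay (n + 2) (by omega)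
  obtain ⟨C2, h2, hC2⟩ := Pool.Agent.H438R2.ZD.Phi_decay (n + 4) (by omega)
  refine ⟨C1 + C2, by positivity, fun u hu => ?_⟩
  have hp : 0 < u ^ (-(((n : ℝ) + 1) / 2)) := Real.rpow_pos_of_pos hu _
  constructor
  · have h := hC1 u hu
    have e : (((n + 2 : ℕ) : ℝ) - 1) / 2 = ((n : ℝ) + 1) / 2 := by push_cast; ring
    rw [e] at h
    have h3 := mul_le_mul_of_nonneg_left (min_le_right 1 (u ^ (-(((n : ℝ) + 1) / 2)))) h1.le
    nlinarith
  · have h := hC2 u hu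
    have e : (((n + 4 : ℕ) : ℝ) - 1) / 2 = ((n : ℝ) + 1) / 2 + 1 := by push_cast; ring
    rw [e] at h
    have h3 := mul_le_mul_of_nonneg_left
      (min_le_right 1 (u ^ (-(((n : ℝ) + 1) / 2 + 1)))) h2.le
    have e2 : u * u ^ (-(((n : ℝ) + 1) / 2 + 1)) = u ^ (-(((n : ℝ) + 1) / 2)) := by
      rw [show -(((n : ℝ) + 1) / 2) = 1 + -(((n : ℝ) + 1) / 2 + 1) by ring, Real.rpow_add hu,
        Real.rpow_one]
    have h5 : ‖P1 (n + 2) u‖ = u / ((n : ℝ) + 1) * ‖Phi (n + 4) u‖ := by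
      unfold P1
      rw [norm_mul, norm_neg, norm_div, Complex.norm_real, Real.norm_eq_abs, abs_of_pos hu]
      have : (((n + 2 : ℕ) : ℂ) - 1) = (((n : ℝ) + 1 : ℝ) : ℂ) := by
        push_cast
        ring
      rw [this, Complex.norm_real, Real.norm_eq_abs, abs_of_pos (by positivity)]
    rw [h5]
    have h6 : u / ((n : ℝ) + 1) ≤ u := div_le_self hu.le (by
      have : (0 : ℝ) ≤ n := Nat.cast_nonneg n
      linarith)
    calc u / ((n : ℝ) + 1) * ‖Phi (n + 4) u‖ ≤ u * (C2 * u ^ (-(((n : ℝ) + 1) / 2 + 1))) :=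
          mul_le_mul h6 (h.trans h3) (norm_nonneg _) hu.le
      _ = C2 * (u * u ^ (-(((n : ℝ) + 1) / 2 + 1))) := by ring
      _ = C2 * u ^ (-(((n : ℝ) + 1) / 2)) := by rw [e2]
      _ ≤ (C1 + C2) * u ^ (-(((n : ℝ) + 1) / 2)) := by
          refine mul_le_mul_of_nonneg_right ?_ hp.le
          linarith

theorem W_bound (n : ℕ) : ∃ C : ℝ, 0 < C ∧ ∀ x y S : ℝ, 0 < x → 0 < y → 0 < S →
    ‖W n x y S‖ ≤ C * (x + y) * (x * y) ^ (-(((n : ℝ) + 1) / 2)) := by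
  obtain ⟨C, hC, h⟩ := bounds n
  refine ⟨C ^ 2, by positivity, fun x y S hx hy hS => ?_⟩
  set a := ((n : ℝ) + 1) / 2 with ha
  have hxS : 0 < x * S := mul_pos hx hS
  have hyS : 0 < y * S := mul_pos hy hS
  have h1 := h (x * S) hxS
  have h2 := h (y * S) hyS
  have hprod : S ^ (n + 1) * ((x * S) ^ (-a) * (y * S) ^ (-a)) = (x * y) ^ (-a) := by
    rw [Real.mul_rpow hx.le hS.le, Real.mul_rpow hy.le hS.le, Real.mul_rpow hx.le hy.le]
    have e1 : S ^ (-a) * S ^ (-a) * S ^ (n + 1) = 1 := by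
      rw [← Real.rpow_add hS, ← Real.rpow_natCast, ← Real.rpow_add hS]
      have : -a + -a + ((n + 1 : ℕ) : ℝ) = 0 := by
        rw [ha]
        push_cast
        ring
      rw [this, Real.rpow_zero]
    calc S ^ (n + 1) * (x ^ (-a) * S ^ (-a) * (y ^ (-a) * S ^ (-a)))
        = x ^ (-a) * y ^ (-a) * (S ^ (-a) * S ^ (-a) * S ^ (n + 1)) := by ring
      _ = _ := by rw [e1, mul_one]
  have n1 : ‖(x : ℂ) * P1 (n + 2) (x * S) * Phi (n + 2) (y * S)‖ ≤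
      x * (C ^ 2 * ((x * S) ^ (-a) * (y * S) ^ (-a))) := by
    rw [norm_mul, norm_mul, Complex.norm_real, Real.norm_eq_abs, abs_of_pos hx, mul_assoc]
    refine mul_le_mul_of_nonneg_left ?_ hx.le
    calc ‖P1 (n + 2) (x * S)‖ * ‖Phi (n + 2) (y * S)‖
        ≤ (C * (x * S) ^ (-a)) * (C * (y * S) ^ (-a)) :=
          mul_le_mul h1.2 h2.1 (norm_nonneg _) (by positivity)
      _ = _ := by ring
  have n2 : ‖(y : ℂ) * Phi (n + 2) (x * S) * P1 (n + 2) (y * S)‖ ≤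
      y * (C ^ 2 * ((x * S) ^ (-a) * (y * S) ^ (-a))) := by
    rw [norm_mul, norm_mul, Complex.norm_real, Real.norm_eq_abs, abs_of_pos hy, mul_assoc]
    refine mul_le_mul_of_nonneg_left ?_ hy.le
    calc ‖Phi (n + 2) (x * S)‖ * ‖P1 (n + 2) (y * S)‖
        ≤ (C * (x * S) ^ (-a)) * (C * (y * S) ^ (-a)) :=
          mul_le_mul h1.1 h2.2 (norm_nonneg _) (by positivity)
      _ = _ := by ring
  unfold W
  rw [norm_mul, norm_pow, Complex.norm_real, Real.norm_eq_abs, abs_of_pos hS]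
  calc _ ≤ S ^ (n + 1) * (x * (C ^ 2 * ((x * S) ^ (-a) * (y * S) ^ (-a))) +
        y * (C ^ 2 * ((x * S) ^ (-a) * (y * S) ^ (-a)))) := by
        refine mul_le_mul_of_nonneg_left ?_ (by positivity)
        exact (norm_sub_le _ _).trans (add_le_add n1 n2)
    _ = C ^ 2 * (x + y) * (S ^ (n + 1) * ((x * S) ^ (-a) * (y * S) ^ (-a))) := by ring
    _ = _ := by rw [hprod]

theorem kap_mul (n : ℕ) (ρ r s : ℝ) (hρ : 0 < ρ) (hr : 0 < r) (hs : 0 < s) :
    kap (n + 2) (ρ * s) * kap (n + 2) (r * s) =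
      (((sg (n + 1)).real univ : ℂ) ^ 2 * (((ρ * r) ^ (((n : ℝ) + 1) / 2) : ℝ) : ℂ)) *
        ((s : ℂ) ^ (n + 1) * (Phi (n + 2) (2 * Real.pi * ρ * s) *
          Phi (n + 2) (2 * Real.pi * r * s))) := by
  have e0 : (((n + 2 : ℕ) : ℝ) - 1) / 2 = ((n : ℝ) + 1) / 2 := by push_cast; ring
  unfold kap Th
  rw [if_neg (by omega : ¬ n + 2 = 1), if_neg (by omega : ¬ n + 2 = 1), e0]
  set a := ((n : ℝ) + 1) / 2 with ha
  have e1 : n + 2 - 1 = n + 1 := rfl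
  rw [e1, Real.mul_rpow hρ.le hs.le, Real.mul_rpow hr.le hs.le, Real.mul_rpow hρ.le hr.le]
  have e2 : ((s ^ a : ℝ) : ℂ) * ((s ^ a : ℝ) : ℂ) = (s : ℂ) ^ (n + 1) := by
    rw [← Complex.ofReal_mul, ← Real.rpow_add hs]
    have : a + a = ((n + 1 : ℕ) : ℝ) := by
      rw [ha]
      push_cast
      ring
    rw [this, Real.rpow_natCast, Complex.ofReal_pow]
  rw [← e2, mul_assoc (2 * Real.pi) ρ s, mul_assoc (2 * Real.pi) r s]
  push_cast
  ring

end Pool.Agent.H438R2.RZ.K5aux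

namespace Pool.Agent.H438R2.RZ

open MeasureTheory Set Complex K5aux
open Pool.Agent.H789R2.FR (E sg)
open Pool.Agent.H438R2.BR (Phi)

theorem lom_kap2 (k : ℕ) (hk : 2 ≤ k) : Lom (kap k) := by
  obtain ⟨n, rfl⟩ : ∃ n, k = n + 2 := ⟨k - 2, by omega⟩
  obtain ⟨C, hC, hW⟩ := W_bound n
  set c0 : ℝ := (sg (n + 1)).real univ with hc0
  set a := ((n : ℝ) + 1) / 2 with ha
  refine ⟨c0 ^ 2 * C * (2 * Real.pi) ^ (-(2 * a)) / (2 * Real.pi), fun ρ r S hρ hr hS hne => ?_⟩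
  have hpi := Real.pi_pos
  have hx : 0 < 2 * Real.pi * ρ := by positivity
  have hy : 0 < 2 * Real.pi * r := by positivity
  have hxy : 2 * Real.pi * ρ ≠ 2 * Real.pi * r := by
    intro h
    exact hne (mul_left_cancel₀ (by positivity) h)
  have h1 : ∫ s in (0 : ℝ)..S, kap (n + 2) (ρ * s) * kap (n + 2) (r * s) =
      ∫ s in (0 : ℝ)..S, ((c0 : ℂ) ^ 2 * (((ρ * r) ^ a : ℝ) : ℂ)) *
        ((s : ℂ) ^ (n + 1) * (Phi (n + 2) (2 * Real.pi * ρ * s) *
          Phi (n + 2) (2 * Real.pi * r * s))) := by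
    rw [intervalIntegral.integral_of_le hS.le, intervalIntegral.integral_of_le hS.le]
    refine setIntegral_congr_fun measurableSet_Ioc fun s hs => ?_
    exact kap_mul n ρ r s hρ hr hs.1
  rw [h1, intervalIntegral.integral_const_mul, int_eq n _ _ S hx hy hxy, norm_mul, norm_div]
  have hw := hW _ _ S hx hy hS
  have hn1 : ‖(c0 : ℂ) ^ 2 * (((ρ * r) ^ a : ℝ) : ℂ)‖ = c0 ^ 2 * (ρ * r) ^ a := by
    rw [norm_mul, norm_pow, Complex.norm_real, Complex.norm_real, Real.norm_eq_abs,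
      Real.norm_eq_abs, sq_abs, abs_of_pos (Real.rpow_pos_of_pos (mul_pos hρ hr) _)]
  have hn2 : ‖((2 * Real.pi * r : ℝ) : ℂ) ^ 2 - ((2 * Real.pi * ρ : ℝ) : ℂ) ^ 2‖ =
      (2 * Real.pi) ^ 2 * (|ρ - r| * (ρ + r)) := by
    have e : ((2 * Real.pi * r : ℝ) : ℂ) ^ 2 - ((2 * Real.pi * ρ : ℝ) : ℂ) ^ 2 =
        (((2 * Real.pi) ^ 2 * ((r - ρ) * (ρ + r)) : ℝ) : ℂ) := by
      push_cast
      ring
    rw [e, Complex.norm_real, Real.norm_eq_abs, abs_mul, abs_mul, abs_of_pos (by positivity),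
      abs_sub_comm, abs_of_pos (add_pos hρ hr)]
  rw [hn1, hn2]
  have hd : 0 < |ρ - r| := abs_pos.2 (sub_ne_zero.2 hne)
  have hsum : 0 < ρ + r := add_pos hρ hr
  have hrp : 0 < (ρ * r) ^ a := Real.rpow_pos_of_pos (mul_pos hρ hr) _
  have e3 : (2 * Real.pi * ρ * (2 * Real.pi * r)) ^ (-a) =
      (2 * Real.pi) ^ (-(2 * a)) * ((ρ * r) ^ a)⁻¹ := by
    rw [show 2 * Real.pi * ρ * (2 * Real.pi * r) = (2 * Real.pi) ^ 2 * (ρ * r) by ring,
      Real.mul_rpow (by positivity) (by positivity), Real.rpow_neg (by positivity : 0 ≤ ρ * r),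
      ← Real.rpow_natCast (2 * Real.pi) 2, ← Real.rpow_mul (by positivity)]
    congr 2
    push_cast
    ring
  rw [e3] at hw
  set D := (2 * Real.pi) ^ (-(2 * a)) with hD
  have hD0 : 0 < D := Real.rpow_pos_of_pos (by positivity) _
  calc c0 ^ 2 * (ρ * r) ^ a * (‖W n (2 * Real.pi * ρ) (2 * Real.pi * r) S‖ /
        ((2 * Real.pi) ^ 2 * (|ρ - r| * (ρ + r))))
      ≤ c0 ^ 2 * (ρ * r) ^ a * ((C * (2 * Real.pi * ρ + 2 * Real.pi * r) *
          (D * ((ρ * r) ^ a)⁻¹)) / ((2 * Real.pi) ^ 2 * (|ρ - r| * (ρ + r)))) := by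
        refine mul_le_mul_of_nonneg_left ?_ (by positivity)
        exact div_le_div_of_nonneg_right hw (by positivity)
    _ = c0 ^ 2 * C * D / (2 * Real.pi) / |ρ - r| := by
        field_simp

end Pool.Agent.H438R2.RZ
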