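import Mathlib
import Pool.Agent.H438R2.RZ.Defs
set_option autoImplicit false

/-! # K6: the kernels of one-dimensional blocks -/

namespace Pool.Agent.H438R2.RZ

open MeasureTheory Set Complex Filter Topology
open scoped ENNReal RealInnerProductSpace
open Pool.Agent.H789R2.FR (E sg)
open Pool.Agent.H438R2.BR (Phi)

namespace K6aux

theorem adm_pair (b₁ b₂ : ℂ) (h1 : ‖b₁‖ ≤ 1) (h2 : ‖b₂‖ ≤ 1) (κ : ℝ → ℂ)
    (h : ∀ t : ℝ, 0 < t → κ t = b₁ * e t + b₂ * e (-t)) : Adm κ := by
  refine ⟨Measure.dirac ((1 : ℝ), b₁) + Measure.dirac ((-1 : ℝ), b₂), inferInstance, ?_, ?_, ?_, ?_⟩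
  · rw [ae_add_measure_iff]
    simp only [ae_dirac_eq]
    exact ⟨h1, h2⟩
  · rw [ae_add_measure_iff]
    simp only [ae_dirac_eq]
    refine ⟨?_, ?_⟩
    · show (1 : ℝ) ≠ 0
      norm_num
    · show (-1 : ℝ) ≠ 0
      norm_num
  · rw [lintegral_add_measure, lintegral_dirac, lintegral_dirac]
    exact ENNReal.add_lt_top.2 ⟨ENNReal.ofReal_lt_top, ENNReal.ofReal_lt_top⟩
  · intro t ht
    rw [h t ht, integral_add_measure, integral_dirac, integral_dirac]
    · simp only [one_mul, neg_mul]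
    · exact integrable_dirac enorm_lt_top
    · exact integrable_dirac enorm_lt_top

theorem osc (ρ r S ε : ℝ) (hρ : 0 < ρ) (hr : 0 < r) (hne : ρ ≠ r) (hε : |ε| ≤ 1) :
    |∫ s in (0 : ℝ)..S, (2 * Real.cos (2 * Real.pi * (ρ - r) * s) +
      ε * (2 * Real.cos (2 * Real.pi * (ρ + r) * s)))| ≤ 4 / |ρ - r| := by
  have hpi := Real.pi_gt_three
  set a := 2 * Real.pi * (ρ - r) with ha
  set b := 2 * Real.pi * (ρ + r) with hb
  have hd : ρ - r ≠ 0 := sub_ne_zero.2 hne
  have ha0 : a ≠ 0 := by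
    rw [ha]
    exact mul_ne_zero (by positivity) hd
  have hb0 : b ≠ 0 := by
    rw [hb]
    positivity
  have hF : ∀ s ∈ uIcc 0 S, HasDerivAt (fun s => 2 * (Real.sin (a * s) / a) +
      ε * (2 * (Real.sin (b * s) / b))) (2 * Real.cos (a * s) + ε * (2 * Real.cos (b * s))) s := by
    intro s _
    have h1 : HasDerivAt (fun s => Real.sin (a * s)) (Real.cos (a * s) * a) s := by
      have := (hasDerivAt_id s).const_mul a
      simpa using this.sin
    have h2 : HasDerivAt (fun s => Real.sin (b * s)) (Real.cos (b * s) * b) s := by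
      have := (hasDerivAt_id s).const_mul b
      simpa using this.sin
    have h3 := ((h1.div_const a).const_mul 2).add (((h2.div_const b).const_mul 2).const_mul ε)
    rw [mul_div_cancel_right₀ _ ha0, mul_div_cancel_right₀ _ hb0] at h3
    exact h3
  rw [intervalIntegral.integral_eq_sub_of_hasDerivAt hF
    (Continuous.intervalIntegrable (by fun_prop) _ _)]
  rw [mul_zero, mul_zero, Real.sin_zero, zero_div, zero_div, mul_zero, mul_zero, add_zero, sub_zero]
  have hdp : 0 < |ρ - r| := abs_pos.2 hd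
  have hsum : |ρ - r| ≤ ρ + r := by
    rw [abs_le]
    constructor <;> linarith
  have habs : |a| = 2 * Real.pi * |ρ - r| := by
    rw [ha, abs_mul, abs_of_pos (by positivity : (0:ℝ) < 2 * Real.pi)]
  have hbabs : |b| = 2 * Real.pi * (ρ + r) := by
    rw [hb, abs_of_pos (by positivity)]
  have h4 : |2 * (Real.sin (a * S) / a)| ≤ 2 / |ρ - r| := by
    rw [abs_mul, abs_div, habs, abs_two, mul_div_assoc']
    have h5 := Real.abs_sin_le_one (a * S)
    rw [div_le_div_iff₀ (by positivity) hdp]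
    nlinarith
  have h6 : |ε * (2 * (Real.sin (b * S) / b))| ≤ 2 / |ρ - r| := by
    rw [abs_mul, abs_mul, abs_div, hbabs, abs_two]
    have h5 := Real.abs_sin_le_one (b * S)
    have h7 : 2 * (|Real.sin (b * S)| / (2 * Real.pi * (ρ + r))) ≤ 2 / |ρ - r| := by
      rw [mul_div_assoc']
      rw [div_le_div_iff₀ (by positivity) hdp]
      have h8 : |Real.sin (b * S)| * |ρ - r| ≤ 1 * (ρ + r) :=
        mul_le_mul h5 hsum hdp.le zero_le_one
      nlinarith
    calc |ε| * (2 * (|Real.sin (b * S)| / (2 * Real.pi * (ρ + r))))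
        ≤ 1 * (2 * (|Real.sin (b * S)| / (2 * Real.pi * (ρ + r)))) :=
          mul_le_mul_of_nonneg_right hε (by positivity)
      _ ≤ 2 / |ρ - r| := by rw [one_mul]; exact h7
  calc |2 * (Real.sin (a * S) / a) + ε * (2 * (Real.sin (b * S) / b))|
      ≤ |2 * (Real.sin (a * S) / a)| + |ε * (2 * (Real.sin (b * S) / b))| := abs_add_le _ _
    _ ≤ 2 / |ρ - r| + 2 / |ρ - r| := add_le_add h4 h6
    _ = 4 / |ρ - r| := by ring

theorem kap_one (t : ℝ) : kap 1 t = ((2 * Real.cos (2 * Real.pi * t) : ℝ) : ℂ) := by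
  unfold kap Th
  simp

theorem kaps_eq (t : ℝ) : kaps t = ((2 * Real.sin (2 * Real.pi * t) : ℝ) : ℂ) := by
  unfold kaps
  push_cast
  ring

theorem e_eq (t : ℝ) : e t = ((Real.cos (2 * Real.pi * t) : ℝ) : ℂ) +
    ((Real.sin (2 * Real.pi * t) : ℝ) : ℂ) * I := by
  unfold e
  rw [Complex.exp_mul_I, ← Complex.ofReal_cos, ← Complex.ofReal_sin]

end K6aux

open K6aux

theorem adm_kap1 : Adm (kap 1) := by
  refine adm_pair 1 1 (by simp) (by simp) _ fun t _ => ?_
  rw [kap_one, e_eq, e_eq, mul_neg, Real.cos_neg, Real.sin_neg]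
  push_cast
  ring

theorem lom_kap1 : Lom (kap 1) := by
  refine ⟨4, fun ρ r S hρ hr hS hne => ?_⟩
  have h1 : ∀ s : ℝ, kap 1 (ρ * s) * kap 1 (r * s) =
      ((2 * Real.cos (2 * Real.pi * (ρ - r) * s) +
        1 * (2 * Real.cos (2 * Real.pi * (ρ + r) * s)) : ℝ) : ℂ) := by
    intro s
    rw [kap_one, kap_one, ← Complex.ofReal_mul]
    congr 1
    have e1 : 2 * Real.pi * (ρ - r) * s = 2 * Real.pi * (ρ * s) - 2 * Real.pi * (r * s) := by ring
    have e2 : 2 * Real.pi * (ρ + r) * s = 2 * Real.pi * (ρ * s) + 2 * Real.pi * (r * s) := by ring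
    rw [e1, e2, Real.cos_sub, Real.cos_add]
    ring
  simp only [h1]
  rw [intervalIntegral.integral_ofReal, Complex.norm_real, Real.norm_eq_abs]
  exact osc ρ r S 1 hρ hr hne (by simp)

theorem adm_kaps : Adm kaps := by
  refine adm_pair (-I) I (by simp) (by simp) _ fun t _ => ?_
  rw [kaps_eq, e_eq, e_eq, mul_neg, Real.cos_neg, Real.sin_neg]
  push_cast
  ring_nf
  rw [Complex.I_sq]
  ring

theorem lom_kaps : Lom kaps := by
  refine ⟨4, fun ρ r S hρ hr hS hne => ?_⟩
  have h1 : ∀ s : ℝ, kaps (ρ * s) * kaps (r * s) =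
      ((2 * Real.cos (2 * Real.pi * (ρ - r) * s) +
        (-1) * (2 * Real.cos (2 * Real.pi * (ρ + r) * s)) : ℝ) : ℂ) := by
    intro s
    rw [kaps_eq, kaps_eq, ← Complex.ofReal_mul]
    congr 1
    have e1 : 2 * Real.pi * (ρ - r) * s = 2 * Real.pi * (ρ * s) - 2 * Real.pi * (r * s) := by ring
    have e2 : 2 * Real.pi * (ρ + r) * s = 2 * Real.pi * (ρ * s) + 2 * Real.pi * (r * s) := by ring
    rw [e1, e2, Real.cos_sub, Real.cos_add]
    ring
  simp only [h1]
  rw [intervalIntegral.integral_ofReal, Complex.norm_real, Real.norm_eq_abs]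
  exact osc ρ r S (-1) hρ hr hne (by simp)

end Pool.Agent.H438R2.RZ
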