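import Mathlib
import Pool.Agent.H438R2.RZ.Defs
set_option autoImplicit false

/-! # M1: Marcinkiewicz interpolation between 2 and 4 -/

namespace Pool.Agent.H438R2.RZ.M1aux

open MeasureTheory Set
open scoped ENNReal

/-- the inner integral for the large part -/
theorem inner1 (q c a : ℝ) (hq : 0 < q) (hc : 0 < c) (ha : 0 ≤ a) :
    ∫⁻ s in Ioi (0 : ℝ), (if c * s < a then ENNReal.ofReal (s ^ (q - 1)) else 0) ≤
      ENNReal.ofReal ((a / c) ^ q / q) := by
  have hac : 0 ≤ a / c := div_nonneg ha hc.le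
  have h1 : ∫⁻ s in Ioi (0 : ℝ), (if c * s < a then ENNReal.ofReal (s ^ (q - 1)) else 0) ≤
      ∫⁻ s in Ioc (0 : ℝ) (a / c), ENNReal.ofReal (s ^ (q - 1)) := by
    rw [← lintegral_indicator measurableSet_Ioi, ← lintegral_indicator measurableSet_Ioc]
    refine lintegral_mono fun s => ?_
    by_cases hs : 0 < s
    · rw [indicator_of_mem (show s ∈ Ioi (0 : ℝ) from hs)]
      by_cases h : c * s < a
      · rw [if_pos h, indicator_of_mem]
        exact ⟨hs, (le_div_iff₀ hc).2 (by rw [mul_comm]; exact h.le)⟩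
      · rw [if_neg h]; exact zero_le
    · rw [indicator_of_notMem (show s ∉ Ioi (0 : ℝ) from hs)]; exact zero_le
  refine h1.trans ?_
  have hint : IntegrableOn (fun s : ℝ => s ^ (q - 1)) (Ioc 0 (a / c)) := by
    have := intervalIntegral.intervalIntegrable_rpow' (a := 0) (b := a / c) (r := q - 1)
      (by linarith)
    rwa [intervalIntegrable_iff_integrableOn_Ioc_of_le hac] at this
  rw [← ofReal_integral_eq_lintegral_ofReal hint]
  · rw [← intervalIntegral.integral_of_le hac, integral_rpow (Or.inl (by linarith))]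
    rw [show q - 1 + 1 = q by ring, Real.zero_rpow hq.ne', sub_zero]
  · rw [Filter.EventuallyLE, ae_restrict_iff' measurableSet_Ioc]
    exact Filter.Eventually.of_forall fun s hs => Real.rpow_nonneg hs.1.le _

/-- the inner integral for the small part -/
theorem inner2 (q c a : ℝ) (hq : 0 < q) (hc : 0 < c) (ha : 0 < a) :
    ∫⁻ s in Ioi (0 : ℝ), (if a ≤ c * s then ENNReal.ofReal (s ^ (-q - 1)) else 0) ≤
      ENNReal.ofReal ((a / c) ^ (-q) / q) := by
  have hac : 0 < a / c := div_pos ha hc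
  have h1 : ∫⁻ s in Ioi (0 : ℝ), (if a ≤ c * s then ENNReal.ofReal (s ^ (-q - 1)) else 0) ≤
      ∫⁻ s in Ici (a / c), ENNReal.ofReal (s ^ (-q - 1)) := by
    rw [← lintegral_indicator measurableSet_Ioi, ← lintegral_indicator measurableSet_Ici]
    refine lintegral_mono fun s => ?_
    by_cases hs : 0 < s
    · rw [indicator_of_mem (show s ∈ Ioi (0 : ℝ) from hs)]
      by_cases h : a ≤ c * s
      · rw [if_pos h, indicator_of_mem]
        exact (div_le_iff₀ hc).2 (by rw [mul_comm]; exact h)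
      · rw [if_neg h]; exact zero_le
    · rw [indicator_of_notMem (show s ∉ Ioi (0 : ℝ) from hs)]; exact zero_le
  refine h1.trans ?_
  rw [setLIntegral_congr Ioi_ae_eq_Ici.symm]
  have hint : IntegrableOn (fun s : ℝ => s ^ (-q - 1)) (Ioi (a / c)) :=
    integrableOn_Ioi_rpow_of_lt (by linarith) hac
  rw [← ofReal_integral_eq_lintegral_ofReal hint]
  · rw [integral_Ioi_rpow_of_lt (by linarith) hac]
    rw [show -q - 1 + 1 = -q by ring, neg_div_neg_eq]
  · rw [Filter.EventuallyLE, ae_restrict_iff' measurableSet_Ioi]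
    exact Filter.Eventually.of_forall fun s hs => Real.rpow_nonneg (hac.le.trans (le_of_lt hs)) _

/-- Chebyshev -/
theorem cheb {Y : Type} [MeasurableSpace Y] (ν : Measure Y) (u : Y → ℝ≥0∞) (hu : Measurable u)
    (n : ℕ) (s : ℝ) (hs : 0 < s) :
    ν {y | ENNReal.ofReal (s / 2) ≤ u y} ≤
      ENNReal.ofReal ((2 : ℝ) ^ n * s ^ (-(n : ℝ))) * ∫⁻ y, u y ^ n ∂ν := by
  have h1 : {y | ENNReal.ofReal (s / 2) ≤ u y} ⊆ {y | ENNReal.ofReal ((s / 2) ^ n) ≤ u y ^ n} := by
    intro y hy
    change ENNReal.ofReal (s / 2) ≤ u y at hy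
    change ENNReal.ofReal ((s / 2) ^ n) ≤ u y ^ n
    rw [ENNReal.ofReal_pow (by positivity)]
    exact pow_le_pow_left' hy n
  have h2 : (0 : ℝ) < (s / 2) ^ n := by positivity
  refine (measure_mono h1).trans ?_
  refine (meas_ge_le_lintegral_div (hu.pow_const n).aemeasurable
    (ENNReal.ofReal_pos.2 h2).ne' ENNReal.ofReal_ne_top).trans ?_
  rw [ENNReal.div_eq_inv_mul, ← ENNReal.ofReal_inv_of_pos h2]
  refine mul_le_mul_left ?_ _
  apply le_of_eq
  congr 1
  rw [Real.rpow_neg hs.le, Real.rpow_natCast, div_pow, inv_div, div_eq_mul_inv]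

theorem large (q c : ℝ) (hq : 0 < q) (hc : 0 < c) {X : Type} [MeasurableSpace X] (μ : Measure X)
    [SFinite μ] (f : X → ℝ) (hf : Measurable f) (hf0 : ∀ x, 0 ≤ f x) :
    ∫⁻ s in Ioi (0 : ℝ), ENNReal.ofReal (s ^ (q - 1)) *
        ∫⁻ x in {x | c * s < f x}, ENNReal.ofReal (f x) ^ 2 ∂μ ≤
      ENNReal.ofReal (c ^ (-q) / q) * ∫⁻ x, ENNReal.ofReal (f x) ^ (q + 2) ∂μ := by
  have hms : MeasurableSet {z : ℝ × X | c * z.1 < f z.2} :=
    measurableSet_lt (measurable_fst.const_mul c) (hf.comp measurable_snd)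
  have hm1 : Measurable fun z : ℝ × X =>
      (if c * z.1 < f z.2 then ENNReal.ofReal (z.1 ^ (q - 1)) else 0) * ENNReal.ofReal (f z.2) ^ 2 :=
    (Measurable.ite hms ((measurable_fst.pow_const (q - 1)).ennreal_ofReal) measurable_const).mul
      (((hf.comp measurable_snd).ennreal_ofReal).pow_const 2)
  calc ∫⁻ s in Ioi (0 : ℝ), ENNReal.ofReal (s ^ (q - 1)) *
        ∫⁻ x in {x | c * s < f x}, ENNReal.ofReal (f x) ^ 2 ∂μ
      = ∫⁻ s in Ioi (0 : ℝ), ∫⁻ x, (if c * s < f x then ENNReal.ofReal (s ^ (q - 1)) else 0) *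
          ENNReal.ofReal (f x) ^ 2 ∂μ := by
        refine lintegral_congr fun s => ?_
        have hs : MeasurableSet {x | c * s < f x} := measurableSet_lt measurable_const hf
        rw [← lintegral_indicator hs, ← lintegral_const_mul _
          (((hf.ennreal_ofReal).pow_const 2).indicator hs)]
        refine lintegral_congr fun x => ?_
        by_cases h : c * s < f x
        · rw [if_pos h, indicator_of_mem (show x ∈ {x | c * s < f x} from h)]
        · rw [if_neg h, indicator_of_notMem (show x ∉ {x | c * s < f x} from h)]; simp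
    _ = ∫⁻ x, (∫⁻ s in Ioi (0 : ℝ), (if c * s < f x then ENNReal.ofReal (s ^ (q - 1)) else 0) *
          ENNReal.ofReal (f x) ^ 2) ∂μ := lintegral_lintegral_swap hm1.aemeasurable
    _ ≤ ∫⁻ x, ENNReal.ofReal (c ^ (-q) / q) * ENNReal.ofReal (f x) ^ (q + 2) ∂μ := by
        refine lintegral_mono fun x => ?_
        have hmx : Measurable fun s : ℝ =>
            (if c * s < f x then ENNReal.ofReal (s ^ (q - 1)) else 0) :=
          Measurable.ite (measurableSet_lt (measurable_id.const_mul c) measurable_const)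
            ((measurable_id.pow_const (q - 1)).ennreal_ofReal) measurable_const
        rw [lintegral_mul_const _ hmx]
        refine (mul_le_mul_left (inner1 q c (f x) hq hc (hf0 x)) _).trans ?_
        apply le_of_eq
        rw [← ENNReal.ofReal_pow (hf0 x), ENNReal.ofReal_rpow_of_nonneg (hf0 x) (by linarith),
          ← ENNReal.ofReal_mul (by have := hf0 x; positivity), ← ENNReal.ofReal_mul (by positivity)]
        congr 1
        rw [Real.div_rpow (hf0 x) hc.le, Real.rpow_neg hc.le]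
        rw [Real.rpow_add' (hf0 x) (by linarith), Real.rpow_two]
        field_simp
    _ = _ := lintegral_const_mul _ ((hf.ennreal_ofReal).pow_const (q + 2))

theorem small (q c : ℝ) (hq : 0 < q) (hq4 : q < 4) (hc : 0 < c) {X : Type} [MeasurableSpace X]
    (μ : Measure X)
    [SFinite μ] (f : X → ℝ) (hf : Measurable f) (hf0 : ∀ x, 0 ≤ f x) :
    ∫⁻ s in Ioi (0 : ℝ), ENNReal.ofReal (s ^ (-q - 1)) *
        ∫⁻ x in {x | f x ≤ c * s}, ENNReal.ofReal (f x) ^ 4 ∂μ ≤
      ENNReal.ofReal (c ^ q / q) * ∫⁻ x, ENNReal.ofReal (f x) ^ (4 - q) ∂μ := by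
  have hms : MeasurableSet {z : ℝ × X | f z.2 ≤ c * z.1} :=
    measurableSet_le (hf.comp measurable_snd) (measurable_fst.const_mul c)
  have hm1 : Measurable fun z : ℝ × X =>
      (if f z.2 ≤ c * z.1 then ENNReal.ofReal (z.1 ^ (-q - 1)) else 0) *
        ENNReal.ofReal (f z.2) ^ 4 :=
    (Measurable.ite hms ((measurable_fst.pow_const (-q - 1)).ennreal_ofReal) measurable_const).mul
      (((hf.comp measurable_snd).ennreal_ofReal).pow_const 4)
  calc ∫⁻ s in Ioi (0 : ℝ), ENNReal.ofReal (s ^ (-q - 1)) *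
        ∫⁻ x in {x | f x ≤ c * s}, ENNReal.ofReal (f x) ^ 4 ∂μ
      = ∫⁻ s in Ioi (0 : ℝ), ∫⁻ x, (if f x ≤ c * s then ENNReal.ofReal (s ^ (-q - 1)) else 0) *
          ENNReal.ofReal (f x) ^ 4 ∂μ := by
        refine lintegral_congr fun s => ?_
        have hs : MeasurableSet {x | f x ≤ c * s} := measurableSet_le hf measurable_const
        rw [← lintegral_indicator hs, ← lintegral_const_mul _
          (((hf.ennreal_ofReal).pow_const 4).indicator hs)]
        refine lintegral_congr fun x => ?_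
        by_cases h : f x ≤ c * s
        · rw [if_pos h, indicator_of_mem (show x ∈ {x | f x ≤ c * s} from h)]
        · rw [if_neg h, indicator_of_notMem (show x ∉ {x | f x ≤ c * s} from h)]; simp
    _ = ∫⁻ x, (∫⁻ s in Ioi (0 : ℝ), (if f x ≤ c * s then ENNReal.ofReal (s ^ (-q - 1)) else 0) *
          ENNReal.ofReal (f x) ^ 4) ∂μ := lintegral_lintegral_swap hm1.aemeasurable
    _ ≤ ∫⁻ x, ENNReal.ofReal (c ^ q / q) * ENNReal.ofReal (f x) ^ (4 - q) ∂μ := by
        refine lintegral_mono fun x => ?_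
        have hmx : Measurable fun s : ℝ =>
            (if f x ≤ c * s then ENNReal.ofReal (s ^ (-q - 1)) else 0) :=
          Measurable.ite (measurableSet_le measurable_const (measurable_id.const_mul c))
            ((measurable_id.pow_const (-q - 1)).ennreal_ofReal) measurable_const
        rw [lintegral_mul_const _ hmx]
        rcases (hf0 x).eq_or_lt with h0 | h0
        · rw [← h0]; simp
        refine (mul_le_mul_left (inner2 q c (f x) hq hc h0) _).trans ?_
        apply le_of_eq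
        rw [← ENNReal.ofReal_pow (hf0 x), ENNReal.ofReal_rpow_of_nonneg (hf0 x) (by linarith),
          ← ENNReal.ofReal_mul (by positivity), ← ENNReal.ofReal_mul (by positivity)]
        congr 1
        rw [Real.div_rpow (hf0 x) hc.le, Real.rpow_neg hc.le]
        rw [Real.rpow_sub h0, Real.rpow_neg h0.le,
          show ((4 : ℝ)) = ((4 : ℕ) : ℝ) by norm_num, Real.rpow_natCast]
        field_simp
    _ = _ := lintegral_const_mul _ ((hf.ennreal_ofReal).pow_const (4 - q))

end Pool.Agent.H438R2.RZ.M1aux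

namespace Pool.Agent.H438R2.RZ

open MeasureTheory Set Complex Filter
open scoped ENNReal RealInnerProductSpace Topology
open Pool.Agent.H789R2.FR (E sg)
open Pool.Agent.H438R2.BR (Phi L)

theorem marc24 (p : ℝ) (hp : 2 < p) (hp4 : p < 4) : ∃ C : ℝ, 0 < C ∧
    ∀ {X Y : Type} [MeasurableSpace X] [MeasurableSpace Y] (μ : Measure X) (ν : Measure Y)
      [SFinite μ] (F : Y → ℝ) (f : X → ℝ), Measurable F → Measurable f → (∀ y, 0 ≤ F y) →
      (∀ x, 0 ≤ f x) → ∀ M2 M4 : ℝ, 0 < M2 → 0 < M4 →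
      (∀ t : ℝ, 0 < t → ∃ u v : Y → ℝ≥0∞, Measurable u ∧ Measurable v ∧
        (∀ᵐ y ∂ν, ENNReal.ofReal (F y) ≤ u y + v y) ∧
        ∫⁻ y, u y ^ 2 ∂ν ≤ ENNReal.ofReal M2 * ∫⁻ x in {x | t < f x}, ENNReal.ofReal (f x) ^ 2 ∂μ ∧
        ∫⁻ y, v y ^ 4 ∂ν ≤ ENNReal.ofReal M4 *
          ∫⁻ x in {x | f x ≤ t}, ENNReal.ofReal (f x) ^ 4 ∂μ) →
      ∫⁻ y, ENNReal.ofReal (F y) ^ p ∂ν ≤
        ENNReal.ofReal (C * M2 ^ ((4 - p) / 2) * M4 ^ ((p - 2) / 2)) *
          ∫⁻ x, ENNReal.ofReal (f x) ^ p ∂μ := by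
  have hp2 : 0 < p - 2 := by linarith
  have h4p : 0 < 4 - p := by linarith
  have hp0 : 0 < p := by linarith
  refine ⟨4 * p / (p - 2) + 16 * p / (4 - p), by positivity, ?_⟩
  intro X Y _ _ μ ν _ F f hF hf hF0 hf0 M2 M4 hM2 hM4 H
  set c : ℝ := (M2 / M4) ^ (1 / 2 : ℝ) with hc
  have hc0 : 0 < c := Real.rpow_pos_of_pos (div_pos hM2 hM4) _
  have h1 : ∫⁻ y, ENNReal.ofReal (F y) ^ p ∂ν = ENNReal.ofReal p *
      ∫⁻ s in Ioi (0 : ℝ), ν {y | s < F y} * ENNReal.ofReal (s ^ (p - 1)) := by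
    rw [← lintegral_rpow_eq_lintegral_meas_lt_mul ν (Eventually.of_forall hF0) hF.aemeasurable hp0]
    refine lintegral_congr fun y => ?_
    rw [ENNReal.ofReal_rpow_of_nonneg (hF0 y) hp0.le]
  have h2 : ∀ s : ℝ, 0 < s → ν {y | s < F y} * ENNReal.ofReal (s ^ (p - 1)) ≤
      ENNReal.ofReal (4 * M2) * (ENNReal.ofReal (s ^ ((p - 2) - 1)) *
        ∫⁻ x in {x | c * s < f x}, ENNReal.ofReal (f x) ^ 2 ∂μ) +
      ENNReal.ofReal (16 * M4) * (ENNReal.ofReal (s ^ (-(4 - p) - 1)) *
        ∫⁻ x in {x | f x ≤ c * s}, ENNReal.ofReal (f x) ^ 4 ∂μ) := by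
    intro s hs
    obtain ⟨u, v, hu, hv, huv, hu2, hv4⟩ := H (c * s) (mul_pos hc0 hs)
    have h3 : ν {y | s < F y} ≤ ν {y | ENNReal.ofReal (s / 2) ≤ u y} +
        ν {y | ENNReal.ofReal (s / 2) ≤ v y} := by
      refine (measure_mono_ae ?_).trans (measure_union_le _ _)
      filter_upwards [huv] with y hy hsy
      change s < F y at hsy
      by_contra hcon
      change ¬ (ENNReal.ofReal (s / 2) ≤ u y ∨ ENNReal.ofReal (s / 2) ≤ v y) at hcon
      rw [not_or] at hcon
      obtain ⟨h4, h5⟩ := hcon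
      rw [not_le] at h4 h5
      have h6 : ENNReal.ofReal (F y) < ENNReal.ofReal s := by
        refine hy.trans_lt ((ENNReal.add_lt_add h4 h5).trans_le ?_)
        rw [← ENNReal.ofReal_add (by positivity) (by positivity), add_halves]
      exact absurd (ENNReal.ofReal_le_ofReal hsy.le) (not_le.2 h6)
    have h4 := M1aux.cheb ν u hu 2 s hs
    have h5 := M1aux.cheb ν v hv 4 s hs
    have h6 : ν {y | s < F y} ≤
        ENNReal.ofReal ((2 : ℝ) ^ 2 * s ^ (-((2 : ℕ) : ℝ))) * (ENNReal.ofReal M2 *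
          ∫⁻ x in {x | c * s < f x}, ENNReal.ofReal (f x) ^ 2 ∂μ) +
        ENNReal.ofReal ((2 : ℝ) ^ 4 * s ^ (-((4 : ℕ) : ℝ))) * (ENNReal.ofReal M4 *
          ∫⁻ x in {x | f x ≤ c * s}, ENNReal.ofReal (f x) ^ 4 ∂μ) :=
      h3.trans (add_le_add (h4.trans (by gcongr)) (h5.trans (by gcongr)))
    refine (mul_le_mul_left h6 _).trans ?_
    rw [add_mul]
    apply le_of_eq
    congr 1
    · rw [← mul_assoc, ← mul_assoc, mul_right_comm]
      congr 1
      rw [← ENNReal.ofReal_mul (by positivity), ← ENNReal.ofReal_mul (by positivity),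
        ← ENNReal.ofReal_mul (by positivity)]
      congr 1
      rw [show (p - 2) - 1 = -((2 : ℕ) : ℝ) + (p - 1) by push_cast; ring, Real.rpow_add hs]
      ring
    · rw [← mul_assoc, ← mul_assoc, mul_right_comm]
      congr 1
      rw [← ENNReal.ofReal_mul (by positivity), ← ENNReal.ofReal_mul (by positivity),
        ← ENNReal.ofReal_mul (by positivity)]
      congr 1
      rw [show -(4 - p) - 1 = -((4 : ℕ) : ℝ) + (p - 1) by push_cast; ring, Real.rpow_add hs]
      ring
  have hl := M1aux.large (p - 2) c hp2 hc0 μ f hf hf0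
  have hsm := M1aux.small (4 - p) c h4p (by linarith) hc0 μ f hf hf0
  rw [show p - 2 + 2 = p by ring] at hl
  rw [show 4 - (4 - p) = p by ring] at hsm
  set J := ∫⁻ x, ENNReal.ofReal (f x) ^ p ∂μ with hJ
  have hms : MeasurableSet {z : ℝ × X | c * z.1 < f z.2} :=
    measurableSet_lt (measurable_fst.const_mul c) (hf.comp measurable_snd)
  have hm1 : Measurable fun s : ℝ => ENNReal.ofReal (4 * M2) *
      (ENNReal.ofReal (s ^ ((p - 2) - 1)) *
        ∫⁻ x in {x | c * s < f x}, ENNReal.ofReal (f x) ^ 2 ∂μ) := by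
    refine Measurable.const_mul ?_ _
    refine Measurable.mul ((measurable_id.pow_const _).ennreal_ofReal) ?_
    have h7 : (fun s : ℝ => ∫⁻ x in {x | c * s < f x}, ENNReal.ofReal (f x) ^ 2 ∂μ) =
        fun s : ℝ => ∫⁻ x, {z : ℝ × X | c * z.1 < f z.2}.indicator
          (fun z => ENNReal.ofReal (f z.2) ^ 2) (s, x) ∂μ := by
      funext s
      have hs : MeasurableSet {x | c * s < f x} := measurableSet_lt measurable_const hf
      rw [← lintegral_indicator hs]
      rfl
    rw [h7]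
    exact Measurable.lintegral_prod_right'
      ((((hf.comp measurable_snd).ennreal_ofReal).pow_const 2).indicator hms)
  rw [h1]
  calc ENNReal.ofReal p * ∫⁻ s in Ioi (0 : ℝ), ν {y | s < F y} * ENNReal.ofReal (s ^ (p - 1))
      ≤ ENNReal.ofReal p * ∫⁻ s in Ioi (0 : ℝ), (ENNReal.ofReal (4 * M2) *
        (ENNReal.ofReal (s ^ ((p - 2) - 1)) *
        ∫⁻ x in {x | c * s < f x}, ENNReal.ofReal (f x) ^ 2 ∂μ) +
      ENNReal.ofReal (16 * M4) * (ENNReal.ofReal (s ^ (-(4 - p) - 1)) *
        ∫⁻ x in {x | f x ≤ c * s}, ENNReal.ofReal (f x) ^ 4 ∂μ)) := by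
        refine mul_le_mul_right ?_ _
        exact setLIntegral_mono' measurableSet_Ioi fun s hs => h2 s hs
    _ ≤ ENNReal.ofReal p * (ENNReal.ofReal (4 * M2) * (ENNReal.ofReal (c ^ (-(p - 2)) / (p - 2)) * J)
        + ENNReal.ofReal (16 * M4) * (ENNReal.ofReal (c ^ (4 - p) / (4 - p)) * J)) := by
        refine mul_le_mul_right ?_ _
        rw [lintegral_add_left hm1, lintegral_const_mul' _ _ ENNReal.ofReal_ne_top,
          lintegral_const_mul' _ _ ENNReal.ofReal_ne_top]
        gcongr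
    _ = ENNReal.ofReal ((4 * p / (p - 2) + 16 * p / (4 - p)) * M2 ^ ((4 - p) / 2) *
          M4 ^ ((p - 2) / 2)) * J := by
        rw [← mul_assoc, ← mul_assoc, ← add_mul, ← mul_assoc,
          ← ENNReal.ofReal_mul (by positivity), ← ENNReal.ofReal_mul (by positivity),
          ← ENNReal.ofReal_add (by positivity) (by positivity), ← ENNReal.ofReal_mul hp0.le]
        congr 2
        have e1 : M2 * c ^ (-(p - 2)) = M2 ^ ((4 - p) / 2) * M4 ^ ((p - 2) / 2) := by
          rw [hc, ← Real.rpow_mul (by positivity), Real.div_rpow hM2.le hM4.le,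
            div_eq_mul_inv, ← Real.rpow_neg hM4.le, ← mul_assoc]
          congr 1
          · nth_rewrite 1 [← Real.rpow_one M2]
            rw [← Real.rpow_add hM2]
            congr 1; ring
          · congr 1; ring
        have e2 : M4 * c ^ (4 - p) = M2 ^ ((4 - p) / 2) * M4 ^ ((p - 2) / 2) := by
          rw [hc, ← Real.rpow_mul (by positivity), Real.div_rpow hM2.le hM4.le,
            div_eq_mul_inv, ← Real.rpow_neg hM4.le, mul_left_comm]
          congr 1
          · congr 1; ring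
          · nth_rewrite 1 [← Real.rpow_one M4]
            rw [← Real.rpow_add hM4]
            congr 1; ring
        calc p * (4 * M2 * (c ^ (-(p - 2)) / (p - 2)) + 16 * M4 * (c ^ (4 - p) / (4 - p)))
            = 4 * p / (p - 2) * (M2 * c ^ (-(p - 2))) + 16 * p / (4 - p) * (M4 * c ^ (4 - p)) := by
              ring
          _ = _ := by rw [e1, e2]; ring

end Pool.Agent.H438R2.RZ
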