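import Pool.Agent.H438R2.RZ.Defs
set_option autoImplicit false

/-! # Marcinkiewicz interpolation between `p0` and infinity (task RZ-M2, helper835) -/

namespace Pool.Agent.H438R2.RZ

open MeasureTheory Set
open scoped ENNReal

namespace M2aux

/-- the weak type bound at one level -/
theorem level {Y : Type} [MeasurableSpace Y] (ν : Measure Y) (F : Y → ℝ) (p0 M1 s : ℝ)
    (hp0 : 1 ≤ p0) (hM1 : 0 < M1) (hs : 0 < s) (B : ℝ≥0∞) (u v : Y → ℝ≥0∞) (hu : Measurable u)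
    (huv : ∀ᵐ y ∂ν, ENNReal.ofReal (F y) ≤ u y + v y)
    (hB : ∫⁻ y, u y ^ p0 ∂ν ≤ B)
    (hv : ∀ᵐ y ∂ν, v y ≤ ENNReal.ofReal (M1 * (s / (2 * M1)))) :
    ENNReal.ofReal ((s / 2) ^ p0) * ν {y | s < F y} ≤ B := by
  have hp0' : 0 < p0 := by linarith
  have h1 : ν {y | s < F y} ≤ ν {y | ENNReal.ofReal ((s / 2) ^ p0) ≤ u y ^ p0} := by
    apply measure_mono_ae
    filter_upwards [huv, hv] with y h2 h3 h4
    change ENNReal.ofReal ((s / 2) ^ p0) ≤ u y ^ p0
    rw [← ENNReal.ofReal_rpow_of_nonneg (by positivity) hp0'.le]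
    apply ENNReal.rpow_le_rpow _ hp0'.le
    have h5 : M1 * (s / (2 * M1)) = s / 2 := by field_simp
    rw [h5] at h3
    have h4' : s < F y := h4
    have h6 : ENNReal.ofReal s ≤ u y + ENNReal.ofReal (s / 2) :=
      (ENNReal.ofReal_le_ofReal h4'.le).trans (h2.trans (by gcongr))
    have h7 : ENNReal.ofReal s = ENNReal.ofReal (s / 2) + ENNReal.ofReal (s / 2) := by
      rw [← ENNReal.ofReal_add (by positivity) (by positivity)]
      congr 1; ring
    rw [h7] at h6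
    exact (ENNReal.add_le_add_iff_right ENNReal.ofReal_ne_top).1 h6
  calc ENNReal.ofReal ((s / 2) ^ p0) * ν {y | s < F y}
      ≤ ENNReal.ofReal ((s / 2) ^ p0) * ν {y | ENNReal.ofReal ((s / 2) ^ p0) ≤ u y ^ p0} := by
        gcongr
    _ ≤ ∫⁻ y, u y ^ p0 ∂ν := mul_meas_ge_le_lintegral (hu.pow_const p0) _
    _ ≤ B := hB

end M2aux

open M2aux

theorem marcInf (p0 p : ℝ) (hp0 : 1 ≤ p0) (hp : p0 < p) : ∃ C : ℝ, 0 < C ∧
    ∀ {X Y : Type} [MeasurableSpace X] [MeasurableSpace Y] (μ : Measure X) (ν : Measure Y)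
      [SFinite μ] (F : Y → ℝ) (f : X → ℝ), Measurable F → Measurable f → (∀ y, 0 ≤ F y) →
      (∀ x, 0 ≤ f x) → ∀ M0 M1 : ℝ, 0 < M0 → 0 < M1 →
      (∀ t : ℝ, 0 < t → ∃ u v : Y → ℝ≥0∞, Measurable u ∧ Measurable v ∧
        (∀ᵐ y ∂ν, ENNReal.ofReal (F y) ≤ u y + v y) ∧
        ∫⁻ y, u y ^ p0 ∂ν ≤ ENNReal.ofReal M0 *
          ∫⁻ x in {x | t < f x}, ENNReal.ofReal (f x) ^ p0 ∂μ ∧
        ∀ᵐ y ∂ν, v y ≤ ENNReal.ofReal (M1 * t)) →
      ∫⁻ y, ENNReal.ofReal (F y) ^ p ∂ν ≤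
        ENNReal.ofReal (C * M0 * M1 ^ (p - p0)) * ∫⁻ x, ENNReal.ofReal (f x) ^ p ∂μ := by
  have hpos : 0 < p := by linarith
  have hr : 0 < p - p0 := by linarith
  have hp0' : 0 < p0 := by linarith
  refine ⟨p * 2 ^ p / (p - p0), by positivity, ?_⟩
  intro X Y _ _ μ ν _ F f hF hf hF0 hf0 M0 M1 hM0 hM1 H
  -- the weighted measure
  set w : X → ℝ≥0∞ := fun x => ENNReal.ofReal (f x) ^ p0 with hw
  have hwm : Measurable w := (ENNReal.measurable_ofReal.comp hf).pow_const p0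
  set μ' : Measure X := μ.withDensity w with hμ'
  have hmeas : ∀ t : ℝ, MeasurableSet {x | t < f x} := fun t =>
    measurableSet_lt measurable_const hf
  have hmeas' : ∀ t : ℝ, MeasurableSet {x | t < 2 * M1 * f x} := fun t =>
    measurableSet_lt measurable_const (hf.const_mul _)
  -- the bound for the distribution function
  have key : ∀ s : ℝ, 0 < s → ν {y | s < F y} * ENNReal.ofReal (s ^ (p - 1)) ≤
      ENNReal.ofReal (2 ^ p0 * M0) *
        (μ' {x | s < 2 * M1 * f x} * ENNReal.ofReal (s ^ (p - p0 - 1))) := by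
    intro s hs
    obtain ⟨u, v, hu, -, huv, hB, hv⟩ := H (s / (2 * M1)) (by positivity)
    have h1 := level ν F p0 M1 s hp0 hM1 hs _ u v hu huv hB hv
    have h2 : ∫⁻ x in {x | s / (2 * M1) < f x}, ENNReal.ofReal (f x) ^ p0 ∂μ =
        μ' {x | s < 2 * M1 * f x} := by
      have h3 : {x | s / (2 * M1) < f x} = {x | s < 2 * M1 * f x} := by
        ext x
        simp only [mem_setOf_eq]
        rw [div_lt_iff₀ (by positivity), mul_comm]
      rw [hμ', withDensity_apply _ (hmeas' s), h3]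
    rw [h2] at h1
    have h4 : s ^ (p - 1) = (s / 2) ^ p0 * (2 ^ p0 * s ^ (p - p0 - 1)) := by
      rw [Real.div_rpow hs.le (by norm_num)]
      have h5 : s ^ (p - 1) = s ^ p0 * s ^ (p - p0 - 1) := by
        rw [← Real.rpow_add hs]; congr 1; ring
      have h6 : (2 : ℝ) ^ p0 ≠ 0 := by positivity
      rw [h5]
      field_simp
    rw [h4, ENNReal.ofReal_mul (by positivity)]
    calc ν {y | s < F y} * (ENNReal.ofReal ((s / 2) ^ p0) *
          ENNReal.ofReal (2 ^ p0 * s ^ (p - p0 - 1)))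
        = (ENNReal.ofReal ((s / 2) ^ p0) * ν {y | s < F y}) *
          ENNReal.ofReal (2 ^ p0 * s ^ (p - p0 - 1)) := by ring
      _ ≤ (ENNReal.ofReal M0 * μ' {x | s < 2 * M1 * f x}) *
          ENNReal.ofReal (2 ^ p0 * s ^ (p - p0 - 1)) := by gcongr
      _ = ENNReal.ofReal (2 ^ p0 * M0) *
        (μ' {x | s < 2 * M1 * f x} * ENNReal.ofReal (s ^ (p - p0 - 1))) := by
          rw [ENNReal.ofReal_mul (p := (2 : ℝ) ^ p0) (by positivity),
            ENNReal.ofReal_mul (p := (2 : ℝ) ^ p0) (by positivity)]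
          ring
  -- layer cake
  have e1 : ∫⁻ y, ENNReal.ofReal (F y) ^ p ∂ν = ∫⁻ y, ENNReal.ofReal (F y ^ p) ∂ν := by
    apply lintegral_congr
    intro y
    rw [ENNReal.ofReal_rpow_of_nonneg (hF0 y) hpos.le]
  rw [e1, lintegral_rpow_eq_lintegral_meas_lt_mul ν (ae_of_all _ hF0) hF.aemeasurable hpos]
  have e2 : ∫⁻ t in Ioi (0 : ℝ), ν {a : Y | t < F a} * ENNReal.ofReal (t ^ (p - 1)) ≤
      ENNReal.ofReal (2 ^ p0 * M0) * ∫⁻ t in Ioi (0 : ℝ),
        μ' {x | t < 2 * M1 * f x} * ENNReal.ofReal (t ^ (p - p0 - 1)) := by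
    rw [← lintegral_const_mul' _ _ ENNReal.ofReal_ne_top]
    apply setLIntegral_mono' measurableSet_Ioi
    intro s hs
    exact key s hs
  have e3 := lintegral_rpow_eq_lintegral_meas_lt_mul μ' (f := fun x => 2 * M1 * f x)
    (ae_of_all _ (fun x => by have := hf0 x; simp only [Pi.zero_apply]; positivity))
    (hf.const_mul _).aemeasurable hr
  have e4 : ∫⁻ x, ENNReal.ofReal ((2 * M1 * f x) ^ (p - p0)) ∂μ' =
      ENNReal.ofReal ((2 * M1) ^ (p - p0)) * ∫⁻ x, ENNReal.ofReal (f x) ^ p ∂μ := by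
    rw [hμ', lintegral_withDensity_eq_lintegral_mul μ hwm
      ((((hf.const_mul _).pow_const _)).ennreal_ofReal),
      ← lintegral_const_mul' _ _ ENNReal.ofReal_ne_top]
    apply lintegral_congr
    intro x
    simp only [Pi.mul_apply, hw]
    have h1 := hf0 x
    rw [Real.mul_rpow (by positivity) h1, ENNReal.ofReal_mul (by positivity),
      ← ENNReal.ofReal_rpow_of_nonneg h1 hr.le]
    rcases h1.eq_or_lt with h2 | h2
    · rw [← h2]
      simp only [ENNReal.ofReal_zero]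
      rw [ENNReal.zero_rpow_of_pos hp0', ENNReal.zero_rpow_of_pos hpos]
      simp
    · have h3 : ENNReal.ofReal (f x) ^ p =
          ENNReal.ofReal (f x) ^ p0 * ENNReal.ofReal (f x) ^ (p - p0) := by
        rw [← ENNReal.rpow_add _ _ (by simpa using h2) ENNReal.ofReal_ne_top]
        congr 1; ring
      rw [h3]
      ring
  rw [e4] at e3
  -- divide by `p - p0`
  have e5 : ∫⁻ t in Ioi (0 : ℝ), μ' {x | t < 2 * M1 * f x} * ENNReal.ofReal (t ^ (p - p0 - 1)) =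
      ENNReal.ofReal (1 / (p - p0)) * (ENNReal.ofReal ((2 * M1) ^ (p - p0)) *
        ∫⁻ x, ENNReal.ofReal (f x) ^ p ∂μ) := by
    rw [e3, ← mul_assoc, ← ENNReal.ofReal_mul (by positivity),
      one_div_mul_cancel hr.ne', ENNReal.ofReal_one, one_mul]
  calc ENNReal.ofReal p * ∫⁻ t in Ioi (0 : ℝ), ν {a : Y | t < F a} * ENNReal.ofReal (t ^ (p - 1))
      ≤ ENNReal.ofReal p * (ENNReal.ofReal (2 ^ p0 * M0) * ∫⁻ t in Ioi (0 : ℝ),
        μ' {x | t < 2 * M1 * f x} * ENNReal.ofReal (t ^ (p - p0 - 1))) := by gcongr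
    _ = ENNReal.ofReal (p * 2 ^ p / (p - p0) * M0 * M1 ^ (p - p0)) *
        ∫⁻ x, ENNReal.ofReal (f x) ^ p ∂μ := by
      rw [e5, ← mul_assoc, ← mul_assoc, ← mul_assoc, ← ENNReal.ofReal_mul hpos.le,
        ← ENNReal.ofReal_mul (by positivity), ← ENNReal.ofReal_mul (by positivity)]
      congr 2
      have h7 : (2 : ℝ) ^ p = 2 ^ p0 * 2 ^ (p - p0) := by
        rw [← Real.rpow_add (by norm_num)]; congr 1; ring
      rw [h7, Real.mul_rpow (by norm_num) hM1.le]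
      ring

end Pool.Agent.H438R2.RZ
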