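import Mathlib
import Pool.Agent.H438R2.RZ.Defs
set_option autoImplicit false

/-! # P1: the kernel of a cap -/

namespace Pool.Agent.H438R2.RZ.P1aux

open MeasureTheory Set Complex
open scoped ENNReal ContDiff

theorem norm_e (x : ℝ) : ‖e x‖ = 1 := by
  unfold e
  exact Complex.norm_exp_ofReal_mul_I _

theorem e_add (x y : ℝ) : e (x + y) = e x * e y := by
  unfold e
  rw [← Complex.exp_add]
  congr 1
  push_cast
  ring

theorem e_cont : Continuous e := by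
  unfold e
  fun_prop

/-- line derivative of the phase -/
theorem ph_line (X Y : ℝ) (x v : ℝ × ℝ) :
    HasLineDerivAt ℝ (fun x : ℝ × ℝ => e (X * x.1 + Y * x.2))
      (((2 * Real.pi * (X * v.1 + Y * v.2) : ℝ) : ℂ) * I * e (X * x.1 + Y * x.2)) x v := by
  unfold HasLineDerivAt
  have h1 : HasDerivAt (fun t : ℝ => 2 * Real.pi * (X * (x + t • v).1 + Y * (x + t • v).2))
      (2 * Real.pi * (X * v.1 + Y * v.2)) 0 := by
    have h2 : (fun t : ℝ => 2 * Real.pi * (X * (x + t • v).1 + Y * (x + t • v).2)) =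
        fun t : ℝ => 2 * Real.pi * (X * x.1 + Y * x.2) + t * (2 * Real.pi * (X * v.1 + Y * v.2)) := by
      funext t
      simp only [Prod.fst_add, Prod.snd_add, Prod.smul_fst, Prod.smul_snd, smul_eq_mul]
      ring
    rw [h2]
    have h3 := ((hasDerivAt_id (0 : ℝ)).mul_const (2 * Real.pi * (X * v.1 + Y * v.2))).const_add
      (2 * Real.pi * (X * x.1 + Y * x.2))
    rw [one_mul] at h3
    exact h3
  have h4 := (h1.ofReal_comp.mul_const I).cexp
  have h5 : (((2 * Real.pi * (X * v.1 + Y * v.2) : ℝ) : ℂ) * I * e (X * x.1 + Y * x.2)) =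
      Complex.exp (((2 * Real.pi * (X * (x + (0 : ℝ) • v).1 + Y * (x + (0 : ℝ) • v).2) : ℝ) : ℂ) * I) *
        (((2 * Real.pi * (X * v.1 + Y * v.2) : ℝ) : ℂ) * I) := by
    rw [zero_smul, add_zero]
    unfold e
    ring
  rw [h5]
  exact h4

/-- the box -/
def Box (R : ℝ) : Set (ℝ × ℝ) := Icc (-R) R ×ˢ Icc (-R) R

theorem Box_compact (R : ℝ) : IsCompact (Box R) := isCompact_Icc.prod isCompact_Icc

theorem Box_closed (R : ℝ) : IsClosed (Box R) := (Box_compact R).isClosed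

theorem cs_of_box {f : ℝ × ℝ → ℂ} {R : ℝ} (hs : ∀ x, f x ≠ 0 → x ∈ Box R) :
    HasCompactSupport f :=
  HasCompactSupport.intro (Box_compact R) fun x hx => by
    by_contra h
    exact hx (hs x h)

theorem box_fderiv {f : ℝ × ℝ → ℂ} {R : ℝ} (hs : ∀ x, f x ≠ 0 → x ∈ Box R) (v : ℝ × ℝ) :
    ∀ x, fderiv ℝ f x v ≠ 0 → x ∈ Box R := by
  intro x hx
  have h1 : x ∈ Function.support (fderiv ℝ f) := by
    rw [Function.mem_support]
    intro h
    apply hx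
    rw [h]
    rfl
  have h2 := support_fderiv_subset ℝ h1
  exact closure_minimal (fun y hy => hs y hy) (Box_closed R) h2

theorem ph_cont (X Y : ℝ) : Continuous (fun x : ℝ × ℝ => e (X * x.1 + Y * x.2)) :=
  e_cont.comp (by fun_prop)

theorem int_ph {f : ℝ × ℝ → ℂ} (hf : Continuous f) {R : ℝ} (hs : ∀ x, f x ≠ 0 → x ∈ Box R)
    (X Y : ℝ) : Integrable (fun x : ℝ × ℝ => f x * e (X * x.1 + Y * x.2)) := by
  refine (hf.mul (ph_cont X Y)).integrable_of_hasCompactSupport ?_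
  exact (cs_of_box hs).mul_right

/-- integration by parts -/
theorem ibp {f : ℝ × ℝ → ℂ} (hf : ContDiff ℝ (⊤ : ℕ∞) f) {R : ℝ}
    (hs : ∀ x, f x ≠ 0 → x ∈ Box R) (X Y : ℝ) (v : ℝ × ℝ) :
    ∫ x : ℝ × ℝ, fderiv ℝ f x v * e (X * x.1 + Y * x.2) =
      -(((2 * Real.pi * (X * v.1 + Y * v.2) : ℝ) : ℂ) * I *
        ∫ x : ℝ × ℝ, f x * e (X * x.1 + Y * x.2)) := by
  have hfd : Differentiable ℝ f := hf.differentiable (by simp)
  have hf' : Continuous (fun x => fderiv ℝ f x v) :=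
    (hf.continuous_fderiv (by simp)).clm_apply continuous_const
  have h1 := integral_bilinear_hasLineDerivAt_right_eq_neg_left_of_integrable
    (μ := (volume : Measure (ℝ × ℝ))) (f := f) (f' := fun x => fderiv ℝ f x v)
    (g := fun x : ℝ × ℝ => e (X * x.1 + Y * x.2))
    (g' := fun x : ℝ × ℝ => ((2 * Real.pi * (X * v.1 + Y * v.2) : ℝ) : ℂ) * I *
      e (X * x.1 + Y * x.2)) (v := v) (B := ContinuousLinearMap.mul ℝ ℂ) ?_ ?_ ?_
    (fun x _ => (hfd x).hasFDerivAt.hasLineDerivAt v) (fun x _ => ph_line X Y x v)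
  · simp only [ContinuousLinearMap.mul_apply'] at h1
    rw [eq_neg_iff_add_eq_zero, add_comm, ← eq_neg_iff_add_eq_zero]
    rw [← h1, ← integral_const_mul]
    refine integral_congr_ae (Filter.Eventually.of_forall fun x => ?_)
    simp only
    ring
  · simp only [ContinuousLinearMap.mul_apply']
    exact int_ph hf' (box_fderiv hs v) X Y
  · simp only [ContinuousLinearMap.mul_apply']
    have := (int_ph hf.continuous hs X Y).const_mul
      (((2 * Real.pi * (X * v.1 + Y * v.2) : ℝ) : ℂ) * I)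
    refine this.congr (Filter.Eventually.of_forall fun x => ?_)
    simp only
    ring
  · simp only [ContinuousLinearMap.mul_apply']
    exact int_ph hf.continuous hs X Y

section TT

variable {V : Type*} [NormedAddCommGroup V] [NormedSpace ℝ V]

/-- `1 - ∂_v^2` -/
noncomputable def TT (v : V) (F : V → ℂ) (x : V) : ℂ :=
  F x - fderiv ℝ (fun y => fderiv ℝ F y v) x v

theorem dv_smooth (v : V) {F : V → ℂ} (hF : ContDiff ℝ (⊤ : ℕ∞) F) :
    ContDiff ℝ (⊤ : ℕ∞) (fun y => fderiv ℝ F y v) :=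
  (hF.fderiv_right (by simp)).clm_apply contDiff_const

theorem TT_smooth (v : V) {F : V → ℂ} (hF : ContDiff ℝ (⊤ : ℕ∞) F) :
    ContDiff ℝ (⊤ : ℕ∞) (TT v F) :=
  hF.sub (dv_smooth v (dv_smooth v hF))

end TT

theorem box_TT {f : ℝ × ℝ → ℂ} {R : ℝ} (hs : ∀ x, f x ≠ 0 → x ∈ Box R) (v : ℝ × ℝ) :
    ∀ x, TT v f x ≠ 0 → x ∈ Box R := by
  intro x hx
  by_contra hn
  apply hx
  unfold TT
  have h1 : f x = 0 := by
    by_contra h
    exact hn (hs x h)
  have h2 : fderiv ℝ (fun y => fderiv ℝ f y v) x v = 0 := by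
    by_contra h
    exact hn (box_fderiv (box_fderiv hs v) v x h)
  rw [h1, h2, sub_zero]

theorem ibp_TT {f : ℝ × ℝ → ℂ} (hf : ContDiff ℝ (⊤ : ℕ∞) f) {R : ℝ}
    (hs : ∀ x, f x ≠ 0 → x ∈ Box R) (X Y : ℝ) (v : ℝ × ℝ) :
    ∫ x : ℝ × ℝ, TT v f x * e (X * x.1 + Y * x.2) =
      ((1 + (2 * Real.pi * (X * v.1 + Y * v.2)) ^ 2 : ℝ) : ℂ) *
        ∫ x : ℝ × ℝ, f x * e (X * x.1 + Y * x.2) := by
  have h1 := ibp (dv_smooth v hf) (box_fderiv hs v) X Y v
  rw [ibp hf hs X Y v] at h1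
  have h2 : ∫ x : ℝ × ℝ, TT v f x * e (X * x.1 + Y * x.2) =
      (∫ x : ℝ × ℝ, f x * e (X * x.1 + Y * x.2)) -
        ∫ x : ℝ × ℝ, fderiv ℝ (fun y => fderiv ℝ f y v) x v * e (X * x.1 + Y * x.2) := by
    rw [← integral_sub (int_ph hf.continuous hs X Y)
      (int_ph (dv_smooth v (dv_smooth v hf)).continuous (box_fderiv (box_fderiv hs v) v) X Y)]
    refine integral_congr_ae (Filter.Eventually.of_forall fun x => ?_)
    simp only [TT]
    ring
  rw [h2, h1]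
  have hI : I * I = -1 := Complex.I_mul_I
  push_cast
  linear_combination (-(2 * (Real.pi : ℂ) * ((X : ℂ) * v.1 + Y * v.2)) ^ 2 *
    ∫ x : ℝ × ℝ, f x * e (X * x.1 + Y * x.2)) * hI

section par

variable {E : Type*} [NormedAddCommGroup E] [NormedSpace ℝ E]

theorem slice (F : E × (ℝ × ℝ) → ℂ) (hF : ContDiff ℝ (⊤ : ℕ∞) F) (p : E) (x v : ℝ × ℝ) :
    fderiv ℝ (fun x => F (p, x)) x v = fderiv ℝ F (p, x) (0, v) := by
  have h1 : HasFDerivAt F (fderiv ℝ F (p, x)) (p, x) :=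
    (hF.differentiable (by simp) (p, x)).hasFDerivAt
  have h2 := h1.comp x (hasFDerivAt_prodMk_right p x)
  have h3 : HasFDerivAt (fun x => F (p, x)) ((fderiv ℝ F (p, x)).comp
    (ContinuousLinearMap.inr ℝ E (ℝ × ℝ))) x := h2
  rw [h3.fderiv]
  simp

theorem slice_TT (F : E × (ℝ × ℝ) → ℂ) (hF : ContDiff ℝ (⊤ : ℕ∞) F) (p : E) (x v : ℝ × ℝ) :
    TT v (fun x => F (p, x)) x = TT ((0, v) : E × (ℝ × ℝ)) F (p, x) := by
  unfold TT
  congr 1
  have h1 : (fun y => fderiv ℝ (fun x => F (p, x)) y v) =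
      fun y => (fun q : E × (ℝ × ℝ) => fderiv ℝ F q (0, v)) (p, y) := by
    funext y
    exact slice F hF p y v
  rw [h1]
  exact slice (fun q : E × (ℝ × ℝ) => fderiv ℝ F q (0, v)) (dv_smooth _ hF) p x v

/-- uniform decay of Fourier transforms of smooth families -/
theorem decay (F : E × (ℝ × ℝ) → ℂ) (hF : ContDiff ℝ (⊤ : ℕ∞) F) (P : Set E) (hP : IsCompact P)
    (R : ℝ) : ∃ C : ℝ, 0 < C ∧ ∀ p ∈ P, (∀ x, F (p, x) ≠ 0 → x ∈ Box R) → ∀ X Y : ℝ,
      ‖∫ x : ℝ × ℝ, F (p, x) * e (X * x.1 + Y * x.2)‖ ≤ C / ((1 + X ^ 2) * (1 + Y ^ 2)) := by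
  set G : E × (ℝ × ℝ) → ℂ := TT (0, (1, 0)) (TT (0, (0, 1)) F) with hG
  have hGc : Continuous G := (TT_smooth _ (TT_smooth _ hF)).continuous
  obtain ⟨C₀, hC₀⟩ := (hP.prod (Box_compact R)).exists_bound_of_continuousOn hGc.continuousOn
  refine ⟨|C₀| * (volume (Box R)).toReal + 1, by positivity, ?_⟩
  intro p hp hs X Y
  set f : ℝ × ℝ → ℂ := fun x => F (p, x) with hf
  have hfs : ContDiff ℝ (⊤ : ℕ∞) f := hF.comp (contDiff_const.prodMk contDiff_id)
  set f2 := TT ((0, 1) : ℝ × ℝ) f with hf2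
  set f12 := TT ((1, 0) : ℝ × ℝ) f2 with hf12
  have hf2s : ContDiff ℝ (⊤ : ℕ∞) f2 := TT_smooth _ hfs
  have hf12s : ContDiff ℝ (⊤ : ℕ∞) f12 := TT_smooth _ hf2s
  have hb2 := box_TT hs (0, 1)
  have hb12 := box_TT hb2 (1, 0)
  have hGf : ∀ x, G (p, x) = f12 x := by
    intro x
    rw [hG, hf12, ← slice_TT (TT (0, (0, 1)) F) (TT_smooth _ hF) p x (1, 0)]
    congr 1
    funext y
    rw [hf2]
    exact (slice_TT F hF p y (0, 1)).symm
  have e1 := ibp_TT hf2s hb2 X Y (1, 0)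
  have e2 := ibp_TT hfs hs X Y (0, 1)
  simp only [mul_one, mul_zero, add_zero, zero_add] at e1 e2
  have hbd : ‖∫ x : ℝ × ℝ, f12 x * e (X * x.1 + Y * x.2)‖ ≤ |C₀| * (volume (Box R)).toReal := by
    have h1 : ∫ x : ℝ × ℝ, f12 x * e (X * x.1 + Y * x.2) =
        ∫ x in Box R, f12 x * e (X * x.1 + Y * x.2) := by
      rw [setIntegral_eq_integral_of_forall_compl_eq_zero]
      intro x hx
      have : f12 x = 0 := by
        by_contra h
        exact hx (hb12 x h)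
      rw [this, zero_mul]
    rw [h1]
    refine norm_setIntegral_le_of_norm_le_const (Box_compact R).measure_lt_top ?_
    intro x hx
    rw [norm_mul, norm_e, mul_one, ← hGf]
    exact (hC₀ (p, x) ⟨hp, hx⟩).trans (le_abs_self _)
  rw [e1, e2, norm_mul, norm_mul, Complex.norm_real, Complex.norm_real,
    Real.norm_of_nonneg (by positivity), Real.norm_of_nonneg (by positivity)] at hbd
  rw [le_div_iff₀ (by positivity)]
  set N := ‖∫ x : ℝ × ℝ, f x * e (X * x.1 + Y * x.2)‖ with hN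
  have hN0 : 0 ≤ N := norm_nonneg _
  have hpi : (1 : ℝ) ≤ (2 * Real.pi) ^ 2 := by nlinarith [Real.pi_gt_three]
  have hX : 1 + X ^ 2 ≤ 1 + (2 * Real.pi * X) ^ 2 := by
    rw [mul_pow]
    nlinarith [sq_nonneg X]
  have hY : 1 + Y ^ 2 ≤ 1 + (2 * Real.pi * Y) ^ 2 := by
    rw [mul_pow]
    nlinarith [sq_nonneg Y]
  calc N * ((1 + X ^ 2) * (1 + Y ^ 2)) ≤ N * ((1 + (2 * Real.pi * X) ^ 2) *
        (1 + (2 * Real.pi * Y) ^ 2)) := by gcongr
    _ = (1 + (2 * Real.pi * X) ^ 2) * ((1 + (2 * Real.pi * Y) ^ 2) * N) := by ring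
    _ ≤ |C₀| * (volume (Box R)).toReal := hbd
    _ ≤ _ := by linarith

end par

/-! ### change of variables -/

theorem aff (h : ℝ → ℂ) (b c : ℝ) (hc : 0 < c) : ∫ y, h y = (c : ℂ) * ∫ y, h (b + c * y) := by
  have h1 := Measure.integral_comp_mul_left (fun y => h (b + y)) c
  rw [h1, integral_add_left_eq_self h b, abs_of_pos (inv_pos.mpr hc), Complex.real_smul, ← mul_assoc,
    ← Complex.ofReal_mul, mul_inv_cancel₀ hc.ne', Complex.ofReal_one, one_mul]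

theorem cov (f : ℝ × ℝ → ℂ) (hf : Integrable f) (s0 t0 g D : ℝ) (hD : 0 < D)
    (hf' : Integrable (fun x : ℝ × ℝ => f (s0 + D * x.1, t0 + g * D * x.1 + D ^ 2 * x.2))) :
    ∫ ξ, f ξ = ((D ^ 3 : ℝ) : ℂ) *
      ∫ x : ℝ × ℝ, f (s0 + D * x.1, t0 + g * D * x.1 + D ^ 2 * x.2) := by
  rw [Measure.volume_eq_prod, integral_prod f hf, integral_prod _ hf']
  rw [aff (fun ξ => ∫ y, f (ξ, y)) s0 D hD]
  have h1 : ∀ s : ℝ, ∫ y, f (s0 + D * s, y) =
      ((D ^ 2 : ℝ) : ℂ) * ∫ y, f (s0 + D * s, t0 + g * D * s + D ^ 2 * y) := fun s =>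
    aff (fun y => f (s0 + D * s, y)) (t0 + g * D * s) (D ^ 2) (by positivity)
  simp_rw [h1]
  rw [integral_const_mul, ← mul_assoc]
  congr 1
  push_cast
  ring

/-! ### the family -/

/-- the multiplier in the rescaled variables; parameters `(s0, t0, g, D)` -/
noncomputable def FF (ψ α β η : ℝ → ℝ) (q : (ℝ × ℝ × ℝ × ℝ) × (ℝ × ℝ)) : ℂ :=
  ((η q.2.1 * (α (q.1.1 + q.1.2.2.2 * q.2.1) *
    β (q.1.2.1 + q.1.2.2.1 * q.1.2.2.2 * q.2.1 + q.1.2.2.2 ^ 2 * q.2.2) *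
    ψ (-(q.2.1) ^ 2 - 2 * q.1.2.1 * q.2.2 - (q.1.2.2.1 * q.2.1 + q.1.2.2.2 * q.2.2) ^ 2)) : ℝ) : ℂ)

theorem FF_smooth (ψ α β η : ℝ → ℝ) (hψ : ContDiff ℝ (⊤ : ℕ∞) ψ) (hα : ContDiff ℝ (⊤ : ℕ∞) α)
    (hβ : ContDiff ℝ (⊤ : ℕ∞) β) (hη : ContDiff ℝ (⊤ : ℕ∞) η) :
    ContDiff ℝ (⊤ : ℕ∞) (FF ψ α β η) := by
  unfold FF
  refine Complex.ofRealCLM.contDiff.comp ?_
  refine ContDiff.mul (hη.comp (by fun_prop)) ?_
  refine ContDiff.mul (ContDiff.mul (hα.comp (by fun_prop)) (hβ.comp (by fun_prop))) ?_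
  exact hψ.comp (by fun_prop)

end Pool.Agent.H438R2.RZ.P1aux

namespace Pool.Agent.H438R2.RZ

open MeasureTheory Set Complex
open scoped ENNReal ContDiff

open P1aux in
/-- P1: kernel of a cap -/
theorem cap_kernel (ψ α β η : ℝ → ℝ) (hψ : Bump ψ) (hab : Arc α β) (hη : Win η) :
    ∃ C : ℝ, 0 < C ∧ ∀ L : ℝ, 10 ≤ L → ∀ a : ℤ, |(a : ℝ)| ≤ 9 / 10 * L → ∀ z : ℝ × ℝ,
      ‖∫ ξ : ℝ × ℝ, mC ψ α β η L a ξ * e (z.1 * ξ.1 + z.2 * ξ.2)‖ ≤ C * Bk L (sl L a) z := by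
  obtain ⟨hα, hβ, hsup⟩ := hab
  obtain ⟨C, hC, hdec⟩ := decay (FF ψ α β η) (FF_smooth ψ α β η hψ.1 hα hβ hη.1)
    (Metric.closedBall (0 : ℝ × ℝ × ℝ × ℝ) 10) (isCompact_closedBall _ _) 100
  refine ⟨C, hC, fun L hL a ha z => ?_⟩
  have hL0 : 0 < L := by linarith
  set D : ℝ := 1 / L with hD
  have hD0 : 0 < D := by positivity
  have hD1 : D ≤ 1 / 10 := by
    rw [hD, div_le_div_iff₀ hL0 (by norm_num)]
    linarith
  have hLD : L * D = 1 := by rw [hD]; field_simp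
  set s0 : ℝ := (a : ℝ) / L with hs0
  have hs0b : |s0| ≤ 9 / 10 := by
    rw [hs0, abs_div, abs_of_pos hL0, div_le_iff₀ hL0]
    exact ha
  have hs0sq : s0 ^ 2 ≤ 81 / 100 := by
    have := sq_le_sq' (abs_le.mp hs0b).1 (abs_le.mp hs0b).2
    nlinarith
  set t0 : ℝ := Real.sqrt (1 - s0 ^ 2) with ht0
  have ht0sq : t0 ^ 2 = 1 - s0 ^ 2 := Real.sq_sqrt (by linarith)
  have ht0p : 0 < t0 := Real.sqrt_pos.mpr (by linarith)
  have ht04 : 4 / 10 ≤ t0 := by nlinarith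
  have ht01 : t0 ≤ 1 := by nlinarith [sq_nonneg s0]
  have hsl : sl L a = -s0 / t0 := rfl
  set g : ℝ := sl L a with hg
  have hgt : g * t0 = -s0 := by
    rw [hsl]
    field_simp
  have hgsq : (1 + g ^ 2) * t0 ^ 2 = 1 := by
    have : (1 + g ^ 2) * t0 ^ 2 = t0 ^ 2 + (g * t0) ^ 2 := by ring
    rw [this, hgt, ht0sq]
    ring
  have hg2 : g ^ 2 ≤ 6 := by nlinarith
  have hgabs : |g| ≤ 3 := by
    rw [abs_le]
    constructor <;> nlinarith
  -- the parameter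
  set p : ℝ × ℝ × ℝ × ℝ := (s0, t0, g, D) with hp
  have hpP : p ∈ Metric.closedBall (0 : ℝ × ℝ × ℝ × ℝ) 10 := by
    rw [mem_closedBall_zero_iff, hp]
    simp only [Prod.norm_def, Real.norm_eq_abs]
    refine max_le (by linarith) (max_le ?_ (max_le (by linarith) ?_))
    · rw [abs_of_pos ht0p]; linarith
    · rw [abs_of_pos hD0]; linarith
  -- support
  have hbox : ∀ x : ℝ × ℝ, FF ψ α β η (p, x) ≠ 0 → x ∈ Box 100 := by
    intro x hx
    obtain ⟨s, t⟩ := x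
    unfold FF at hx
    rw [hp] at hx
    simp only at hx
    have hx' : η s * (α (s0 + D * s) * β (t0 + g * D * s + D ^ 2 * t) *
        ψ (-s ^ 2 - 2 * t0 * t - (g * s + D * t) ^ 2)) ≠ 0 := by
      intro h
      apply hx
      rw [h, Complex.ofReal_zero]
    have n1 : η s ≠ 0 := fun h => hx' (by rw [h, zero_mul])
    have n2 : α (s0 + D * s) ≠ 0 := fun h => hx' (by rw [h]; ring)
    have n3 : β (t0 + g * D * s + D ^ 2 * t) ≠ 0 := fun h => hx' (by rw [h]; ring)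
    have n4 : ψ (-s ^ 2 - 2 * t0 * t - (g * s + D * t) ^ 2) ≠ 0 := fun h => hx' (by rw [h]; ring)
    have hs1 := hη.2 s n1
    obtain ⟨q1, q2⟩ := hψ.2 _ n4
    set q : ℝ := -s ^ 2 - 2 * t0 * t - (g * s + D * t) ^ 2 with hq
    have hDq : D ^ 2 * q = 1 - ((s0 + D * s) ^ 2 + (t0 + g * D * s + D ^ 2 * t) ^ 2) := by
      rw [hq]
      have : s0 = -(g * t0) := by rw [hgt]; ring
      have h2 : t0 ^ 2 + (g * t0) ^ 2 = 1 := by rw [hgt, ht0sq]; ring
      rw [this]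
      linear_combination h2
    have hle : (s0 + D * s) ^ 2 + (t0 + g * D * s + D ^ 2 * t) ^ 2 ≤ 1 := by
      have : 0 ≤ D ^ 2 * q := by positivity
      linarith
    obtain ⟨-, hξ2⟩ := hsup _ _ n2 n3 hle
    -- the bound of `t`
    have hs2 : s ^ 2 ≤ 1 := by
      have := sq_le_sq' (abs_le.mp hs1).1 (abs_le.mp hs1).2
      linarith
    set τ : ℝ := t0 + g * D * s with hτ
    have hτ0 : 0 ≤ τ := by
      have h1 : |g * D * s| ≤ 3 * (1 / 10) * 1 := by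
        rw [abs_mul, abs_mul, abs_of_pos hD0]
        gcongr
      have := neg_abs_le (g * D * s)
      rw [hτ]
      linarith
    have hkey : q + s ^ 2 * (1 + g ^ 2) = -(t * (τ + (τ + D ^ 2 * t))) := by
      rw [hq, hτ]
      ring
    have hτξ : 1 / 10 ≤ τ + (τ + D ^ 2 * t) := by linarith
    have hrhs : 0 ≤ q + s ^ 2 * (1 + g ^ 2) ∧ q + s ^ 2 * (1 + g ^ 2) ≤ 9 := by
      constructor
      · positivity
      · nlinarith
    rw [Box, mem_prod]
    refine ⟨abs_le.mp (hs1.trans (by norm_num)), ?_⟩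
    have ht : t ≤ 0 := by
      by_contra hcon
      push Not at hcon
      have : 0 < t * (τ + (τ + D ^ 2 * t)) := by positivity
      linarith [hrhs.1]
    refine ⟨?_, by show t ≤ 100; linarith⟩
    show -100 ≤ t
    by_contra hcon
    push Not at hcon
    have : 9 < -(t * (τ + (τ + D ^ 2 * t))) := by nlinarith
    linarith [hrhs.2]
  -- the function
  set f : ℝ × ℝ → ℂ := fun ξ => mC ψ α β η L a ξ * e (z.1 * ξ.1 + z.2 * ξ.2) with hf
  have hmC : Continuous (mC ψ α β η L a) := by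
    unfold mC mA
    have c1 := hη.1.continuous
    have c2 := hα.continuous
    have c3 := hβ.continuous
    have c4 := hψ.1.continuous
    fun_prop
  have hfc : Continuous f := hmC.mul (ph_cont z.1 z.2)
  have hfs : ∀ ξ, f ξ ≠ 0 → ξ ∈ Box 1 := by
    intro ξ hξ
    have hψ' : ψ (L ^ 2 * (1 - (ξ.1 ^ 2 + ξ.2 ^ 2))) ≠ 0 := by
      intro h
      apply hξ
      simp only [hf, mC, mA, h, mul_zero, Complex.ofReal_zero, zero_mul]
    obtain ⟨q1, -⟩ := hψ.2 _ hψ'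
    have h2 : 0 < 1 - (ξ.1 ^ 2 + ξ.2 ^ 2) := by
      by_contra hcon
      push Not at hcon
      have : L ^ 2 * (1 - (ξ.1 ^ 2 + ξ.2 ^ 2)) ≤ 0 := mul_nonpos_of_nonneg_of_nonpos (by positivity) hcon
      linarith
    rw [Box, mem_prod]
    refine ⟨?_, ?_⟩
    · exact abs_le.mp (abs_le_one_iff_mul_self_le_one.mpr (by nlinarith [sq_nonneg ξ.2]))
    · exact abs_le.mp (abs_le_one_iff_mul_self_le_one.mpr (by nlinarith [sq_nonneg ξ.1]))
  have hfi : Integrable f := hfc.integrable_of_hasCompactSupport (cs_of_box hfs)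
  set X : ℝ := (z.1 + g * z.2) / L with hX
  set Y : ℝ := z.2 / L ^ 2 with hY
  have hcomp : ∀ x : ℝ × ℝ, f (s0 + D * x.1, t0 + g * D * x.1 + D ^ 2 * x.2) =
      e (z.1 * s0 + z.2 * t0) * (FF ψ α β η (p, x) * e (X * x.1 + Y * x.2)) := by
    intro x
    have h1 : mC ψ α β η L a (s0 + D * x.1, t0 + g * D * x.1 + D ^ 2 * x.2) =
        FF ψ α β η (p, x) := by
      have a1 : L * (s0 + D * x.1) - a = x.1 := by
        rw [hs0, hD]
        field_simp
        ring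
      have a2 : L ^ 2 * (1 - ((s0 + D * x.1) ^ 2 + (t0 + g * D * x.1 + D ^ 2 * x.2) ^ 2)) =
          -(x.1) ^ 2 - 2 * t0 * x.2 - (g * x.1 + D * x.2) ^ 2 := by
        have h3 : s0 = -(g * t0) := by rw [hgt]; ring
        have h4 : t0 ^ 2 + (g * t0) ^ 2 = 1 := by rw [hgt, ht0sq]; ring
        have h5 : 1 - ((s0 + D * x.1) ^ 2 + (t0 + g * D * x.1 + D ^ 2 * x.2) ^ 2) =
            D ^ 2 * (-(x.1) ^ 2 - 2 * t0 * x.2 - (g * x.1 + D * x.2) ^ 2) := by
          rw [h3]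
          linear_combination -h4
        rw [h5, ← mul_assoc, ← mul_pow, hLD, one_pow, one_mul]
      unfold mC mA FF
      rw [hp]
      simp only [a1, a2]
      push_cast
      ring
    rw [hf]
    simp only
    rw [h1]
    have h2 : z.1 * (s0 + D * x.1) + z.2 * (t0 + g * D * x.1 + D ^ 2 * x.2) =
        (z.1 * s0 + z.2 * t0) + (X * x.1 + Y * x.2) := by
      rw [hX, hY, hD]
      field_simp
      ring
    rw [h2, e_add]
    ring
  have hFFc : Continuous (fun x : ℝ × ℝ => FF ψ α β η (p, x)) :=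
    (FF_smooth ψ α β η hψ.1 hα hβ hη.1).continuous.comp (continuous_const.prodMk continuous_id)
  have hfi' : Integrable (fun x : ℝ × ℝ => f (s0 + D * x.1, t0 + g * D * x.1 + D ^ 2 * x.2)) := by
    simp_rw [hcomp]
    exact (int_ph hFFc hbox X Y).const_mul _
  have hcov := cov f hfi s0 t0 g D hD0 hfi'
  simp_rw [hcomp] at hcov
  rw [integral_const_mul] at hcov
  show ‖∫ ξ, f ξ‖ ≤ C * Bk L g z
  rw [hcov, norm_mul, norm_mul, norm_e, one_mul, Complex.norm_real, Real.norm_of_nonneg (by positivity)]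
  have h9 := hdec p hpP hbox X Y
  calc D ^ 3 * ‖∫ x : ℝ × ℝ, FF ψ α β η (p, x) * e (X * x.1 + Y * x.2)‖
      ≤ D ^ 3 * (C / ((1 + X ^ 2) * (1 + Y ^ 2))) := by gcongr
    _ = C * Bk L g z := by
        unfold Bk
        rw [← hX, ← hY, hD]
        field_simp

end Pool.Agent.H438R2.RZ
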