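import Pool.Agent.H438R2.RZ.Defs
import Pool.Agent.Helper390.CovarioA
set_option autoImplicit false

/-! # P10: the Riesz projection on `L⁴` (helper781)

With `P`, `N` the Fourier transforms of the positive and negative parts, `P² - N²` is the Fourier
transform of a function with orthogonal parts, so
`∫ |P|⁴ + |N|⁴ = ∫ |P² - N²|² = ∫ |P - N|² |P + N|²`. -/

namespace Pool.Agent.H438R2.RZ

open MeasureTheory Set Complex
open scoped ENNReal RealInnerProductSpace FourierTransform Convolution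

namespace P10aux

theorem four_le (x y : ℝ) : (x + y) ^ 4 ≤ 8 * (x ^ 4 + y ^ 4) := by
  nlinarith [sq_nonneg (x - y), sq_nonneg (x + y), sq_nonneg (x ^ 2 - y ^ 2),
    sq_nonneg ((x - y) ^ 2), sq_nonneg (x ^ 2 + y ^ 2 - 2 * x * y),
    mul_nonneg (sq_nonneg (x - y)) (sq_nonneg (x + y)),
    mul_nonneg (sq_nonneg (x - y)) (add_nonneg (sq_nonneg x) (sq_nonneg y))]

/-- pointwise inequality -/
theorem pt (p n : ℂ) : ‖p ^ 2 - n ^ 2‖ ^ 2 ≤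
    (1 / 2) * (‖p‖ ^ 4 + ‖n‖ ^ 4) + 4 * ‖p + n‖ ^ 4 := by
  have h1 : ‖p ^ 2 - n ^ 2‖ = ‖p - n‖ * ‖p + n‖ := by
    rw [← norm_mul]; congr 1; ring
  have h2 : ‖p - n‖ ≤ ‖p‖ + ‖n‖ := norm_sub_le _ _
  have h3 : ‖p - n‖ ^ 4 ≤ 8 * (‖p‖ ^ 4 + ‖n‖ ^ 4) := by
    have h4 : ‖p - n‖ ^ 4 ≤ (‖p‖ + ‖n‖) ^ 4 := pow_le_pow_left₀ (norm_nonneg _) h2 4
    exact h4.trans (four_le _ _)
  rw [h1, mul_pow]
  nlinarith [sq_nonneg (‖p - n‖ ^ 2 / 4 - 2 * ‖p + n‖ ^ 2)]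

theorem int_of {b : ℝ → ℂ} {M B : ℝ} (hb : Measurable b) (hM : ∀ s, ‖b s‖ ≤ M)
    (hB : ∀ s, b s ≠ 0 → |s| ≤ B) : Integrable b := by
  have h1 : Integrable ((Icc (-B) B).indicator (fun _ : ℝ => M)) := by
    rw [integrable_indicator_iff measurableSet_Icc]
    exact integrableOn_const (by simp)
  refine h1.mono' hb.aestronglyMeasurable (Filter.Eventually.of_forall fun s => ?_)
  by_cases h : b s = 0
  · rw [h, norm_zero]
    refine Set.indicator_nonneg (fun _ _ => ?_) s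
    exact (norm_nonneg _).trans (hM 0)
  · rw [Set.indicator_of_mem (show s ∈ Icc (-B) B from abs_le.1 (hB s h))]
    exact hM s

/-- the convolution square -/
noncomputable def cq (b : ℝ → ℂ) : ℝ → ℂ := b ⋆[ContinuousLinearMap.mul ℂ ℂ] b

theorem cq_apply (b : ℝ → ℂ) (x : ℝ) : cq b x = ∫ t, b t * b (x - t) := rfl

theorem cq_int {b : ℝ → ℂ} (hb : Integrable b) : Integrable (cq b) :=
  hb.integrable_convolution (ContinuousLinearMap.mul ℂ ℂ) hb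

theorem cq_bdd {b : ℝ → ℂ} {M : ℝ} (hb : Integrable b) (hM : ∀ s, ‖b s‖ ≤ M) (x : ℝ) :
    ‖cq b x‖ ≤ M * ∫ t, ‖b t‖ := by
  rw [cq_apply, ← integral_const_mul]
  refine norm_integral_le_of_norm_le (hb.norm.const_mul M) (Filter.Eventually.of_forall fun t => ?_)
  rw [norm_mul, mul_comm]
  exact mul_le_mul_of_nonneg_right (hM _) (norm_nonneg _)

theorem memLp_two {u : ℝ → ℂ} {K : ℝ} (hu : Integrable u) (hK : ∀ x, ‖u x‖ ≤ K) : MemLp u 2 := by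
  rw [memLp_two_iff_integrable_sq_norm hu.aestronglyMeasurable]
  refine (hu.norm.const_mul K).mono' (hu.aestronglyMeasurable.norm.pow 2)
    (Filter.Eventually.of_forall fun x => ?_)
  rw [Real.norm_eq_abs, abs_of_nonneg (by positivity), pow_two]
  exact mul_le_mul_of_nonneg_right (hK x) (norm_nonneg _)

theorem ft_sub {u v : ℝ → ℂ} (hu : Integrable u) (hv : Integrable v) (x : ℝ) :
    𝓕 (fun s => u s - v s) x = 𝓕 u x - 𝓕 v x := by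
  rw [Real.fourier_eq, Real.fourier_eq, Real.fourier_eq, ← integral_sub]
  · simp only [smul_sub]
  · exact (Real.fourierIntegral_convergent_iff x).2 hu
  · exact (Real.fourierIntegral_convergent_iff x).2 hv

theorem ft_add {u v : ℝ → ℂ} (hu : Integrable u) (hv : Integrable v) (x : ℝ) :
    𝓕 (fun s => u s + v s) x = 𝓕 u x + 𝓕 v x := by
  rw [Real.fourier_eq, Real.fourier_eq, Real.fourier_eq, ← integral_add]
  · simp only [smul_add]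
  · exact (Real.fourierIntegral_convergent_iff x).2 hu
  · exact (Real.fourierIntegral_convergent_iff x).2 hv

/-- the transform with the opposite sign -/
theorem ihat_eq (b : ℝ → ℂ) (x : ℝ) : ∫ s : ℝ, b s * e (x * s) = 𝓕 b (-x) := by
  rw [Real.fourier_real_eq]
  refine integral_congr_ae (Filter.Eventually.of_forall fun s => ?_)
  show b s * e (x * s) = Real.fourierChar (-(s * -x)) • b s
  rw [Circle.smul_def, Real.fourierChar_apply, smul_eq_mul, mul_comm]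
  unfold e
  congr 3
  push_cast
  ring

theorem ft_cq {b : ℝ → ℂ} (hb : Integrable b) (x : ℝ) : 𝓕 (cq b) x = (𝓕 b x) ^ 2 := by
  rw [pow_two]
  exact Real.fourier_mul_convolution_eq hb hb x

/-- the inequality for Fourier transforms -/
theorem main4 {a₁ a₂ : ℝ → ℂ} {M B : ℝ} (h1 : Measurable a₁) (h2 : Measurable a₂)
    (hM1 : ∀ s, ‖a₁ s‖ ≤ M) (hM2 : ∀ s, ‖a₂ s‖ ≤ M) (hB1 : ∀ s, a₁ s ≠ 0 → |s| ≤ B)
    (hB2 : ∀ s, a₂ s ≠ 0 → |s| ≤ B) (hs1 : ∀ s, a₁ s ≠ 0 → 0 < s) (hs2 : ∀ s, a₂ s ≠ 0 → s ≤ 0) :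
    ∫⁻ x : ℝ, ‖𝓕 a₁ x‖ₑ ^ 4 ≤ ENNReal.ofReal 8 * ∫⁻ x : ℝ, ‖𝓕 a₁ x + 𝓕 a₂ x‖ₑ ^ 4 := by
  have i1 := int_of h1 hM1 hB1
  have i2 := int_of h2 hM2 hB2
  have u1 := cq_int i1
  have u2 := cq_int i2
  have m1 := memLp_two u1 (cq_bdd i1 hM1)
  have m2 := memLp_two u2 (cq_bdd i2 hM2)
  obtain ⟨f1, p1⟩ := Pool.Agent.Helper390.Covario.plancherel u1 m1
  obtain ⟨f2, p2⟩ := Pool.Agent.Helper390.Covario.plancherel u2 m2
  obtain ⟨f3, p3⟩ := Pool.Agent.Helper390.Covario.plancherel (f := fun s => cq a₁ s - cq a₂ s)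
    (u1.sub u2) (m1.sub m2)
  -- disjoint supports
  have hz1 : ∀ x, x ≤ 0 → cq a₁ x = 0 := by
    intro x hx
    rw [cq_apply]
    refine integral_eq_zero_of_ae (Filter.Eventually.of_forall fun t => ?_)
    show a₁ t * a₁ (x - t) = 0
    by_contra h
    have h3 := hs1 t (left_ne_zero_of_mul h)
    have h4 := hs1 (x - t) (right_ne_zero_of_mul h)
    linarith
  have hz2 : ∀ x, 0 < x → cq a₂ x = 0 := by
    intro x hx
    rw [cq_apply]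
    refine integral_eq_zero_of_ae (Filter.Eventually.of_forall fun t => ?_)
    show a₂ t * a₂ (x - t) = 0
    by_contra h
    have h3 := hs2 t (left_ne_zero_of_mul h)
    have h4 := hs2 (x - t) (right_ne_zero_of_mul h)
    linarith
  have hdis : ∀ x, ‖cq a₁ x - cq a₂ x‖ ^ 2 = ‖cq a₁ x‖ ^ 2 + ‖cq a₂ x‖ ^ 2 := by
    intro x
    rcases le_or_gt x 0 with hx | hx
    · rw [hz1 x hx]; simp
    · rw [hz2 x hx]; simp
  have n1 : Integrable fun x => ‖cq a₁ x‖ ^ 2 := (memLp_two_iff_integrable_sq_norm m1.1).1 m1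
  have n2 : Integrable fun x => ‖cq a₂ x‖ ^ 2 := (memLp_two_iff_integrable_sq_norm m2.1).1 m2
  have g1 : Integrable fun x => ‖𝓕 (cq a₁) x‖ ^ 2 := (memLp_two_iff_integrable_sq_norm f1.1).1 f1
  have g2 : Integrable fun x => ‖𝓕 (cq a₂) x‖ ^ 2 := (memLp_two_iff_integrable_sq_norm f2.1).1 f2
  have g3 : Integrable fun x => ‖𝓕 (fun s => cq a₁ s - cq a₂ s) x‖ ^ 2 :=
    (memLp_two_iff_integrable_sq_norm f3.1).1 f3
  have e1 : ∀ x, ‖𝓕 (cq a₁) x‖ ^ 2 = ‖𝓕 a₁ x‖ ^ 4 := by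
    intro x; rw [ft_cq i1, norm_pow]; ring
  have e2 : ∀ x, ‖𝓕 (cq a₂) x‖ ^ 2 = ‖𝓕 a₂ x‖ ^ 4 := by
    intro x; rw [ft_cq i2, norm_pow]; ring
  have e3 : ∀ x, ‖𝓕 (fun s => cq a₁ s - cq a₂ s) x‖ ^ 2 = ‖(𝓕 a₁ x) ^ 2 - (𝓕 a₂ x) ^ 2‖ ^ 2 := by
    intro x; rw [ft_sub u1 u2, ft_cq i1, ft_cq i2]
  simp only [e1] at g1 p1
  simp only [e2] at g2 p2
  simp only [e3] at g3 p3
  simp only [hdis] at p3
  rw [integral_add n1 n2, ← p1, ← p2] at p3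
  -- the sum is in L⁴
  have hm1 : AEStronglyMeasurable (𝓕 a₁) volume :=
    (VectorFourier.fourierIntegral_continuous Real.continuous_fourierChar
      continuous_inner i1).aestronglyMeasurable
  have hm2 : AEStronglyMeasurable (𝓕 a₂) volume :=
    (VectorFourier.fourierIntegral_continuous Real.continuous_fourierChar
      continuous_inner i2).aestronglyMeasurable
  have g4 : Integrable fun x => ‖𝓕 a₁ x + 𝓕 a₂ x‖ ^ 4 := by
    refine ((g1.add g2).const_mul 8).mono' ((hm1.add hm2).norm.pow 4)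
      (Filter.Eventually.of_forall fun x => ?_)
    rw [Real.norm_eq_abs, abs_of_nonneg (by positivity)]
    have h4 : ‖𝓕 a₁ x + 𝓕 a₂ x‖ ^ 4 ≤ (‖𝓕 a₁ x‖ + ‖𝓕 a₂ x‖) ^ 4 :=
      pow_le_pow_left₀ (norm_nonneg _) (norm_add_le _ _) 4
    exact h4.trans (four_le _ _)
  have key : (∫ x, ‖𝓕 a₁ x‖ ^ 4) + ∫ x, ‖𝓕 a₂ x‖ ^ 4 ≤
      (1 / 2) * ((∫ x, ‖𝓕 a₁ x‖ ^ 4) + ∫ x, ‖𝓕 a₂ x‖ ^ 4) +
        4 * ∫ x, ‖𝓕 a₁ x + 𝓕 a₂ x‖ ^ 4 := by
    have k1 : ∫ x, ‖(𝓕 a₁ x) ^ 2 - (𝓕 a₂ x) ^ 2‖ ^ 2 ≤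
        ∫ x, ((1 / 2) * (‖𝓕 a₁ x‖ ^ 4 + ‖𝓕 a₂ x‖ ^ 4) + 4 * ‖𝓕 a₁ x + 𝓕 a₂ x‖ ^ 4) :=
      integral_mono g3 (((g1.add g2).const_mul _).add (g4.const_mul _)) fun x => pt _ _
    have k2 : ∫ x, ((1 / 2) * (‖𝓕 a₁ x‖ ^ 4 + ‖𝓕 a₂ x‖ ^ 4) + 4 * ‖𝓕 a₁ x + 𝓕 a₂ x‖ ^ 4) =
        (1 / 2) * ((∫ x, ‖𝓕 a₁ x‖ ^ 4) + ∫ x, ‖𝓕 a₂ x‖ ^ 4) +
        4 * ∫ x, ‖𝓕 a₁ x + 𝓕 a₂ x‖ ^ 4 := by
      rw [← integral_add g1 g2, ← integral_const_mul, ← integral_const_mul]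
      exact integral_add ((g1.add g2).const_mul (1 / 2 : ℝ)) (g4.const_mul (4 : ℝ))
    rw [← k2, ← p3]
    exact k1
  have h0 : 0 ≤ ∫ x, ‖𝓕 a₂ x‖ ^ 4 := integral_nonneg fun x => by positivity
  have hfin : ∫ x, ‖𝓕 a₁ x‖ ^ 4 ≤ 8 * ∫ x, ‖𝓕 a₁ x + 𝓕 a₂ x‖ ^ 4 := by linarith
  have c1 : ∀ f : ℝ → ℂ, (Integrable fun x => ‖f x‖ ^ 4) →
      ∫⁻ x : ℝ, ‖f x‖ₑ ^ 4 = ENNReal.ofReal (∫ x, ‖f x‖ ^ 4) := by
    intro f hf
    rw [ofReal_integral_eq_lintegral_ofReal hf (Filter.Eventually.of_forall fun x => by positivity)]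
    refine lintegral_congr fun x => ?_
    rw [ENNReal.ofReal_pow (norm_nonneg _), ofReal_norm]
  rw [c1 _ g1, c1 _ g4, ← ENNReal.ofReal_mul (by norm_num)]
  exact ENNReal.ofReal_le_ofReal hfin

end P10aux

open P10aux in
theorem riesz4 : ∃ C : ℝ, 0 < C ∧ ∀ a : ℝ → ℂ, Measurable a → (∃ M : ℝ, ∀ s, ‖a s‖ ≤ M) →
    (∃ B : ℝ, ∀ s, a s ≠ 0 → |s| ≤ B) →
    ∫⁻ x : ℝ, ‖∫ s in Ioi (0 : ℝ), a s * e (x * s)‖ₑ ^ 4 ≤
      ENNReal.ofReal C * ∫⁻ x : ℝ, ‖∫ s : ℝ, a s * e (x * s)‖ₑ ^ 4 := by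
  refine ⟨8, by norm_num, ?_⟩
  rintro a ha ⟨M, hM⟩ ⟨B, hB⟩
  set a₁ := (Ioi (0 : ℝ)).indicator a with ha₁
  set a₂ := (Iic (0 : ℝ)).indicator a with ha₂
  have hMn : ∀ (S : Set ℝ) (s : ℝ), ‖S.indicator a s‖ ≤ M := by
    intro S s
    by_cases h : s ∈ S
    · rw [Set.indicator_of_mem h]; exact hM s
    · rw [Set.indicator_of_notMem h, norm_zero]; exact (norm_nonneg _).trans (hM 0)
  have hBn : ∀ (S : Set ℝ) (s : ℝ), S.indicator a s ≠ 0 → s ∈ S ∧ |s| ≤ B := by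
    intro S s h
    have h1 : s ∈ S := Set.mem_of_indicator_ne_zero h
    rw [Set.indicator_of_mem h1] at h
    exact ⟨h1, hB s h⟩
  have m1 : Measurable a₁ := ha.indicator measurableSet_Ioi
  have m2 : Measurable a₂ := ha.indicator measurableSet_Iic
  have hmain := main4 m1 m2 (hMn _) (hMn _) (fun s h => (hBn _ s h).2) (fun s h => (hBn _ s h).2)
    (fun s h => (hBn _ s h).1) (fun s h => (hBn _ s h).1)
  have i1 : Integrable a₁ := int_of m1 (hMn _) (fun s h => (hBn _ s h).2)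
  have i2 : Integrable a₂ := int_of m2 (hMn _) (fun s h => (hBn _ s h).2)
  have hsum : a = fun s => a₁ s + a₂ s := by
    funext s
    rw [ha₁, ha₂]
    rcases le_or_gt s 0 with h | h
    · rw [Set.indicator_of_notMem (show s ∉ Ioi (0 : ℝ) from not_lt.2 h),
        Set.indicator_of_mem (show s ∈ Iic (0 : ℝ) from h), zero_add]
    · rw [Set.indicator_of_mem (show s ∈ Ioi (0 : ℝ) from h),
        Set.indicator_of_notMem (show s ∉ Iic (0 : ℝ) from not_le.2 h), add_zero]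
  have e1 : ∀ x : ℝ, ∫ s in Ioi (0 : ℝ), a s * e (x * s) = 𝓕 a₁ (-x) := by
    intro x
    rw [← ihat_eq, ← integral_indicator measurableSet_Ioi]
    refine integral_congr_ae (Filter.Eventually.of_forall fun s => ?_)
    show (Ioi (0 : ℝ)).indicator (fun s => a s * e (x * s)) s = a₁ s * e (x * s)
    rw [ha₁]
    by_cases h : s ∈ Ioi (0 : ℝ)
    · rw [Set.indicator_of_mem h, Set.indicator_of_mem h]
    · rw [Set.indicator_of_notMem h, Set.indicator_of_notMem h, zero_mul]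
  have e2 : ∀ x : ℝ, ∫ s : ℝ, a s * e (x * s) = 𝓕 a₁ (-x) + 𝓕 a₂ (-x) := by
    intro x
    rw [ihat_eq, hsum, ft_add i1 i2]
  simp only [e1, e2]
  have hneg : ∀ f : ℝ → ℝ≥0∞, ∫⁻ x : ℝ, f (-x) = ∫⁻ x : ℝ, f x := by
    intro f
    exact (Measure.measurePreserving_neg (volume : Measure ℝ)).lintegral_comp_emb
      (MeasurableEquiv.neg ℝ).measurableEmbedding f
  rw [hneg (fun x => ‖𝓕 a₁ x‖ₑ ^ 4), hneg (fun x => ‖𝓕 a₁ x + 𝓕 a₂ x‖ₑ ^ 4)]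
  exact hmain

end Pool.Agent.H438R2.RZ
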