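import Mathlib
import Pool.Agent.H438R2.RZ.Defs
set_option autoImplicit false

/-! # `L⁴` bound for the quarter annulus -/

namespace Pool.Agent.H438R2.RZ

open MeasureTheory Set Complex
open scoped ENNReal

namespace P11aux

/-- planar Fourier integral -/
noncomputable def Fo (h : ℝ × ℝ → ℂ) (z : ℝ × ℝ) : ℂ :=
  ∫ ξ : ℝ × ℝ, h ξ * e (z.1 * ξ.1 + z.2 * ξ.2)

theorem e_measurable : Measurable e := by
  unfold e; fun_prop

theorem e_norm (x : ℝ) : ‖e x‖ = 1 := by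
  unfold e; rw [Complex.norm_exp_ofReal_mul_I]

theorem e_add (x y : ℝ) : e (x + y) = e x * e y := by
  unfold e
  rw [← Complex.exp_add]
  congr 1
  push_cast
  ring

theorem good_integrable {h : ℝ × ℝ → ℂ} (hh : Good h) : Integrable h := by
  obtain ⟨hm, ⟨M, hM⟩, B, hB⟩ := hh
  have hbox : IntegrableOn h (Icc (-B) B ×ˢ Icc (-B) B) := by
    apply Measure.integrableOn_of_bounded (M := M) _ hm.aestronglyMeasurable
    · exact Filter.Eventually.of_forall (fun x => hM x)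
    · rw [Measure.volume_eq_prod, Measure.prod_prod]
      exact (ENNReal.mul_lt_top measure_Icc_lt_top measure_Icc_lt_top).ne
  apply hbox.integrable_of_forall_notMem_eq_zero
  intro x hx
  by_contra hne
  apply hx
  obtain ⟨h1, h2⟩ := hB x hne
  exact ⟨abs_le.mp h1, abs_le.mp h2⟩

theorem ker_measurable {h : ℝ × ℝ → ℂ} (hm : Measurable h) :
    Measurable (fun p : (ℝ × ℝ) × (ℝ × ℝ) => h p.2 * e (p.1.1 * p.2.1 + p.1.2 * p.2.2)) := by
  refine (hm.comp measurable_snd).mul (e_measurable.comp ?_)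
  fun_prop

theorem Fo_measurable {h : ℝ × ℝ → ℂ} (hm : Measurable h) : Measurable (Fo h) := by
  have h1 : StronglyMeasurable (Function.uncurry
      (fun (z ξ : ℝ × ℝ) => h ξ * e (z.1 * ξ.1 + z.2 * ξ.2))) :=
    (ker_measurable hm).stronglyMeasurable
  exact h1.integral_prod_right.measurable

/-- the partial Fourier integral -/
noncomputable def av (h : ℝ × ℝ → ℂ) (y s : ℝ) : ℂ := ∫ t : ℝ, h (s, t) * e (y * t)

theorem Fo_eq {h : ℝ × ℝ → ℂ} (hh : Good h) (x y : ℝ) :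
    Fo h (x, y) = ∫ s : ℝ, av h y s * e (x * s) := by
  unfold Fo av
  have hint : Integrable (fun ξ : ℝ × ℝ => h ξ * e (x * ξ.1 + y * ξ.2)) := by
    have h1 := good_integrable hh
    refine (h1.norm).mono' ?_ ?_
    · refine (hh.1.mul (e_measurable.comp ?_)).aestronglyMeasurable
      fun_prop
    · exact Filter.Eventually.of_forall (fun ξ => by rw [norm_mul, e_norm, mul_one])
  rw [Measure.volume_eq_prod] at hint ⊢
  rw [integral_prod _ hint]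
  congr 1
  funext s
  rw [← integral_mul_const]
  congr 1
  funext t
  simp only
  rw [e_add]
  ring

theorem av_measurable {h : ℝ × ℝ → ℂ} (hm : Measurable h) (y : ℝ) : Measurable (av h y) := by
  have h1 : StronglyMeasurable (Function.uncurry (fun (s t : ℝ) => h (s, t) * e (y * t))) := by
    apply Measurable.stronglyMeasurable
    refine (hm.comp (measurable_fst.prodMk measurable_snd)).mul (e_measurable.comp ?_)
    fun_prop
  exact h1.integral_prod_right.measurable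

theorem av_bdd {h : ℝ × ℝ → ℂ} (hh : Good h) (y : ℝ) : ∃ M : ℝ, ∀ s, ‖av h y s‖ ≤ M := by
  obtain ⟨hm, ⟨M, hM⟩, B, hB⟩ := hh
  refine ⟨M * volume.real (Icc (-B) B), fun s => ?_⟩
  have h1 : av h y s = ∫ t in Icc (-B) B, h (s, t) * e (y * t) := by
    unfold av
    rw [setIntegral_eq_integral_of_forall_compl_eq_zero]
    intro t ht
    by_contra hne
    have h2 : h (s, t) ≠ 0 := left_ne_zero_of_mul hne
    exact ht (abs_le.mp (hB _ h2).2)
  rw [h1]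
  apply norm_setIntegral_le_of_norm_le_const measure_Icc_lt_top
  intro t _
  rw [norm_mul, e_norm, mul_one]
  exact hM _

theorem av_supp {h : ℝ × ℝ → ℂ} (hh : Good h) (y : ℝ) : ∃ B : ℝ, ∀ s, av h y s ≠ 0 → |s| ≤ B := by
  obtain ⟨hm, ⟨M, hM⟩, B, hB⟩ := hh
  refine ⟨B, fun s hs => ?_⟩
  by_contra hcon
  apply hs
  unfold av
  rw [integral_eq_zero_of_ae]
  refine Filter.Eventually.of_forall (fun t => ?_)
  simp only [Pi.zero_apply]
  by_contra hne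
  exact hcon (hB _ (left_ne_zero_of_mul hne)).1

/-- restriction to the right half plane -/
def H1 : Set (ℝ × ℝ) := {ξ | 0 < ξ.1}

/-- restriction to the upper half plane -/
def H2 : Set (ℝ × ℝ) := {ξ | 0 < ξ.2}

theorem good_ind {h : ℝ × ℝ → ℂ} (hh : Good h) {S : Set (ℝ × ℝ)} (hS : MeasurableSet S) :
    Good (S.indicator h) := by
  obtain ⟨hm, ⟨M, hM⟩, B, hB⟩ := hh
  refine ⟨hm.indicator hS, ⟨M, fun z => (norm_indicator_le_norm_self h z).trans (hM z)⟩, B,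
    fun z hz => hB z ?_⟩
  intro h0
  apply hz
  by_cases hzS : z ∈ S
  · rw [indicator_of_mem hzS, h0]
  · rw [indicator_of_notMem hzS]

theorem H1_meas : MeasurableSet H1 := measurableSet_lt measurable_const measurable_fst

theorem H2_meas : MeasurableSet H2 := measurableSet_lt measurable_const measurable_snd

theorem av_ind (h : ℝ × ℝ → ℂ) (y s : ℝ) :
    av (H1.indicator h) y s = (Ioi (0 : ℝ)).indicator (av h y) s := by
  by_cases hs : 0 < s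
  · rw [indicator_of_mem (show s ∈ Ioi (0 : ℝ) from hs)]
    unfold av
    congr 1
    funext t
    rw [indicator_of_mem (show (s, t) ∈ H1 from hs)]
  · rw [indicator_of_notMem (show s ∉ Ioi (0 : ℝ) from hs)]
    unfold av
    have : ∀ t, H1.indicator h (s, t) = 0 := fun t =>
      indicator_of_notMem (show (s, t) ∉ H1 from hs) h
    simp [this]

/-- the statement of the one dimensional theorem -/
def R4 (C : ℝ) : Prop := ∀ a : ℝ → ℂ, Measurable a → (∃ M : ℝ, ∀ s, ‖a s‖ ≤ M) →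
    (∃ B : ℝ, ∀ s, a s ≠ 0 → |s| ≤ B) →
    ∫⁻ x : ℝ, ‖∫ s in Ioi (0 : ℝ), a s * e (x * s)‖ₑ ^ 4 ≤
      ENNReal.ofReal C * ∫⁻ x : ℝ, ‖∫ s : ℝ, a s * e (x * s)‖ₑ ^ 4

theorem step1 {C : ℝ} (hR : R4 C) {h : ℝ × ℝ → ℂ} (hh : Good h) :
    ∫⁻ z, ‖Fo (H1.indicator h) z‖ₑ ^ 4 ≤ ENNReal.ofReal C * ∫⁻ z, ‖Fo h z‖ₑ ^ 4 := by
  have hh1 := good_ind hh H1_meas
  have m1 : Measurable (fun z => ‖Fo (H1.indicator h) z‖ₑ ^ 4) :=
    (Fo_measurable hh1.1).enorm.pow_const 4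
  have m2 : Measurable (fun z => ‖Fo h z‖ₑ ^ 4) := (Fo_measurable hh.1).enorm.pow_const 4
  rw [Measure.volume_eq_prod, lintegral_prod_symm' _ m1, lintegral_prod_symm' _ m2,
    ← lintegral_const_mul _ m2.lintegral_prod_left']
  apply lintegral_mono
  intro y
  simp only
  have h1 := hR (av h y) (av_measurable hh.1 y) (av_bdd hh y) (av_supp hh y)
  have e1 : ∀ x, Fo (H1.indicator h) (x, y) = ∫ s in Ioi (0 : ℝ), av h y s * e (x * s) := by
    intro x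
    rw [Fo_eq hh1, ← integral_indicator measurableSet_Ioi]
    congr 1
    funext s
    rw [av_ind]
    by_cases hs : s ∈ Ioi (0 : ℝ)
    · rw [indicator_of_mem hs, indicator_of_mem hs]
    · rw [indicator_of_notMem hs, indicator_of_notMem hs, zero_mul]
  have e2 : ∀ x, Fo h (x, y) = ∫ s : ℝ, av h y s * e (x * s) := fun x => Fo_eq hh x y
  simp only [e1, e2]
  exact h1

theorem Fo_swap (h : ℝ × ℝ → ℂ) (z : ℝ × ℝ) : Fo (fun ξ => h ξ.swap) z = Fo h z.swap := by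
  unfold Fo
  rw [Measure.volume_eq_prod, ← integral_prod_swap (fun ξ : ℝ × ℝ =>
    h ξ * e (z.swap.1 * ξ.1 + z.swap.2 * ξ.2))]
  congr 1
  funext ξ
  simp only [Prod.fst_swap, Prod.snd_swap]
  rw [add_comm (z.2 * ξ.2)]

theorem good_swap {h : ℝ × ℝ → ℂ} (hh : Good h) : Good (fun ξ => h ξ.swap) := by
  obtain ⟨hm, ⟨M, hM⟩, B, hB⟩ := hh
  exact ⟨hm.comp measurable_swap, ⟨M, fun z => hM _⟩, B, fun z hz => (hB _ hz).symm⟩

theorem step2 {C : ℝ} (hR : R4 C) {h : ℝ × ℝ → ℂ} (hh : Good h) :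
    ∫⁻ z, ‖Fo (H2.indicator h) z‖ₑ ^ 4 ≤ ENNReal.ofReal C * ∫⁻ z, ‖Fo h z‖ₑ ^ 4 := by
  have h1 := step1 hR (good_swap hh)
  have e1 : H1.indicator (fun ξ => h ξ.swap) = fun ξ => H2.indicator h ξ.swap := by
    funext ξ
    by_cases hξ : ξ ∈ H1
    · rw [indicator_of_mem hξ, indicator_of_mem (show ξ.swap ∈ H2 from hξ)]
    · rw [indicator_of_notMem hξ, indicator_of_notMem (show ξ.swap ∉ H2 from hξ)]
  rw [e1] at h1
  simp only [Fo_swap] at h1
  rw [Measure.volume_eq_prod] at h1 ⊢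
  have hh2 := good_ind hh H2_meas
  rw [lintegral_prod_swap (fun z => ‖Fo (H2.indicator h) z‖ₑ ^ 4),
    lintegral_prod_swap (fun z => ‖Fo h z‖ₑ ^ 4)] at h1
  exact h1

theorem ft_measurable {g : ℝ × ℝ → ℂ} (hg : Measurable g) : Measurable (ft g) := by
  have h1 : StronglyMeasurable (Function.uncurry
      (fun (ξ z : ℝ × ℝ) => e (-(z.1 * ξ.1 + z.2 * ξ.2)) * g z)) := by
    apply Measurable.stronglyMeasurable
    refine (e_measurable.comp ?_).mul (hg.comp measurable_snd)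
    fun_prop
  exact h1.integral_prod_right.measurable

theorem ft_bdd {g : ℝ × ℝ → ℂ} (hg : Good g) : ∃ M : ℝ, ∀ ξ, ‖ft g ξ‖ ≤ M := by
  refine ⟨∫ z, ‖g z‖, fun ξ => ?_⟩
  unfold ft
  refine (norm_integral_le_integral_norm _).trans (le_of_eq ?_)
  congr 1
  funext z
  rw [norm_mul, e_norm, one_mul]

theorem mR_good {ψ : ℝ → ℝ} (hψ : Bump ψ) {L : ℝ} (hL : 10 ≤ L) {g : ℝ × ℝ → ℂ} (hg : Good g) :
    Good (fun ξ => mR ψ L ξ * ft g ξ) := by
  have hψc : Continuous ψ := hψ.1.continuous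
  have hcs : HasCompactSupport ψ := by
    apply HasCompactSupport.intro (K := Icc (1 / 2 : ℝ) 2) isCompact_Icc
    intro x hx
    by_contra hne
    exact hx (hψ.2 x hne)
  obtain ⟨Mψ, hMψ⟩ := hcs.exists_bound_of_continuous hψc
  obtain ⟨M, hM⟩ := ft_bdd hg
  refine ⟨?_, ⟨Mψ * M, fun ξ => ?_⟩, 1, fun ξ hξ => ?_⟩
  · apply Measurable.mul _ (ft_measurable hg.1)
    unfold mR
    apply Complex.measurable_ofReal.comp
    apply hψc.measurable.comp
    fun_prop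
  · rw [norm_mul]
    have h1 : ‖mR ψ L ξ‖ ≤ Mψ := by
      unfold mR
      rw [Complex.norm_real]
      exact hMψ _
    exact mul_le_mul h1 (hM ξ) (norm_nonneg _) ((norm_nonneg _).trans h1)
  · have h1 : mR ψ L ξ ≠ 0 := left_ne_zero_of_mul hξ
    unfold mR at h1
    have h2 : ψ (L ^ 2 * (1 - (ξ.1 ^ 2 + ξ.2 ^ 2))) ≠ 0 := by
      intro h0
      rw [h0] at h1
      exact h1 Complex.ofReal_zero
    have h3 := (hψ.2 _ h2).1
    have h4 : 0 < L ^ 2 * (1 - (ξ.1 ^ 2 + ξ.2 ^ 2)) := by linarith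
    have h5 : 0 < 1 - (ξ.1 ^ 2 + ξ.2 ^ 2) := pos_of_mul_pos_right h4 (by positivity)
    constructor
    · rw [abs_le_one_iff_mul_self_le_one]; nlinarith [sq_nonneg ξ.2]
    · rw [abs_le_one_iff_mul_self_le_one]; nlinarith [sq_nonneg ξ.1]

end P11aux

open P11aux in
/-- `quarter_L4` with the two theorems it uses as hypotheses -/
theorem quarter_L4_of
    (h9 : ∀ ψ : ℝ → ℝ, Bump ψ → ∃ C : ℝ, 0 < C ∧ ∀ L : ℝ, 10 ≤ L → ∀ g : ℝ × ℝ → ℂ, Good g →
      ∫⁻ z, ‖Pl (mR ψ L) g z‖ₑ ^ 4 ≤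
        ENNReal.ofReal (C * (1 + Real.log L) ^ 2) * ∫⁻ z, ‖g z‖ₑ ^ 4)
    (h10 : ∃ C : ℝ, 0 < C ∧ ∀ a : ℝ → ℂ, Measurable a → (∃ M : ℝ, ∀ s, ‖a s‖ ≤ M) →
      (∃ B : ℝ, ∀ s, a s ≠ 0 → |s| ≤ B) →
      ∫⁻ x : ℝ, ‖∫ s in Ioi (0 : ℝ), a s * e (x * s)‖ₑ ^ 4 ≤
        ENNReal.ofReal C * ∫⁻ x : ℝ, ‖∫ s : ℝ, a s * e (x * s)‖ₑ ^ 4)
    (ψ : ℝ → ℝ) (hψ : Bump ψ) :
    ∃ C : ℝ, 0 < C ∧ ∀ L : ℝ, 10 ≤ L → ∀ g : ℝ × ℝ → ℂ, Good g →
      ∫⁻ z, ‖Pl (Q.indicator (mR ψ L)) g z‖ₑ ^ 4 ≤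
        ENNReal.ofReal (C * (1 + Real.log L) ^ 2) * ∫⁻ z, ‖g z‖ₑ ^ 4 := by
  obtain ⟨C₁, hC₁, h9⟩ := h9 ψ hψ
  obtain ⟨C₂, hC₂, h10⟩ := h10
  refine ⟨C₂ * C₂ * C₁, by positivity, fun L hL g hg => ?_⟩
  have hG := mR_good hψ hL hg
  have hG1 := good_ind hG H1_meas
  have e0 : ∀ z, Pl (mR ψ L) g z = Fo (fun ξ => mR ψ L ξ * ft g ξ) z := fun z => rfl
  have e1 : ∀ z, Pl (Q.indicator (mR ψ L)) g z =
      Fo (H2.indicator (H1.indicator (fun ξ => mR ψ L ξ * ft g ξ))) z := by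
    intro z
    unfold Pl Fo
    congr 1
    funext ξ
    congr 1
    by_cases h1 : ξ ∈ H1
    · by_cases h2 : ξ ∈ H2
      · rw [indicator_of_mem (show ξ ∈ Q from ⟨h1, h2⟩), indicator_of_mem h2, indicator_of_mem h1]
      · rw [indicator_of_notMem (show ξ ∉ Q from fun h => h2 h.2), indicator_of_notMem h2, zero_mul]
    · rw [indicator_of_notMem (show ξ ∉ Q from fun h => h1 h.1), zero_mul]
      by_cases h2 : ξ ∈ H2
      · rw [indicator_of_mem h2, indicator_of_notMem h1]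
      · rw [indicator_of_notMem h2]
  simp only [e1]
  calc ∫⁻ z, ‖Fo (H2.indicator (H1.indicator (fun ξ => mR ψ L ξ * ft g ξ))) z‖ₑ ^ 4
      ≤ ENNReal.ofReal C₂ * ∫⁻ z, ‖Fo (H1.indicator (fun ξ => mR ψ L ξ * ft g ξ)) z‖ₑ ^ 4 :=
        step2 h10 hG1
    _ ≤ ENNReal.ofReal C₂ * (ENNReal.ofReal C₂ * ∫⁻ z, ‖Fo (fun ξ => mR ψ L ξ * ft g ξ) z‖ₑ ^ 4) := by
        gcongr
        exact step1 h10 hG
    _ ≤ ENNReal.ofReal C₂ * (ENNReal.ofReal C₂ *
          (ENNReal.ofReal (C₁ * (1 + Real.log L) ^ 2) * ∫⁻ z, ‖g z‖ₑ ^ 4)) := by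
        gcongr
        exact h9 L hL g hg
    _ = ENNReal.ofReal (C₂ * C₂ * C₁ * (1 + Real.log L) ^ 2) * ∫⁻ z, ‖g z‖ₑ ^ 4 := by
        rw [← mul_assoc, ← mul_assoc, ← ENNReal.ofReal_mul hC₂.le, ← ENNReal.ofReal_mul (by positivity)]
        congr 2
        ring

end Pool.Agent.H438R2.RZ
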