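import Pool.Agent.H438R2.RZ.Defs
import Pool.Agent.Helper390.CovarioA
set_option autoImplicit false

/-! # P3: planar Plancherel and L4 orthogonality -/

namespace Pool.Agent.H438R2.RZ

open MeasureTheory Set Complex
open scoped ENNReal RealInnerProductSpace FourierTransform

namespace P3aux

theorem norm_e (x : ℝ) : ‖e x‖ = 1 := by
  unfold e
  rw [Complex.norm_exp_ofReal_mul_I]

theorem e_add (x y : ℝ) : e (x + y) = e x * e y := by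
  unfold e
  rw [← Complex.exp_add]
  congr 1
  push_cast
  ring

theorem continuous_e : Continuous e := by
  unfold e
  fun_prop

/-- bounded measurable functions with bounded support are integrable -/
theorem integrable_of {G : Type*} [NormedAddCommGroup G] {g : ℝ × ℝ → G}
    (hm : AEStronglyMeasurable g volume) (M B : ℝ) (hM : ∀ z, ‖g z‖ ≤ M)
    (hB : ∀ z, g z ≠ 0 → |z.1| ≤ B ∧ |z.2| ≤ B) : Integrable g := by
  have h1 : IntegrableOn g (Icc (-B) B ×ˢ Icc (-B) B) volume := by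
    refine Measure.integrableOn_of_bounded ?_ hm (Filter.Eventually.of_forall hM)
    rw [Measure.volume_eq_prod, Measure.prod_prod, Real.volume_Icc]
    exact ENNReal.mul_ne_top ENNReal.ofReal_ne_top ENNReal.ofReal_ne_top
  refine h1.integrable_of_forall_notMem_eq_zero ?_
  intro z hz
  by_contra hne
  apply hz
  obtain ⟨ha, hb⟩ := hB z hne
  rw [abs_le] at ha hb
  exact ⟨⟨ha.1, ha.2⟩, ⟨hb.1, hb.2⟩⟩

theorem good_integrable {U : ℝ × ℝ → ℂ} (hU : Good U) : Integrable U := by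
  obtain ⟨hm, ⟨M, hM⟩, B, hB⟩ := hU
  exact integrable_of hm.aestronglyMeasurable M B hM hB

theorem good_memLp {U : ℝ × ℝ → ℂ} (hU : Good U) : MemLp U 2 := by
  obtain ⟨hm, ⟨M, hM⟩, B, hB⟩ := hU
  rw [memLp_two_iff_integrable_sq_norm hm.aestronglyMeasurable]
  refine integrable_of (hm.norm.pow_const 2).aestronglyMeasurable (M ^ 2) B ?_ ?_
  · intro z
    rw [Real.norm_of_nonneg (by positivity)]
    exact pow_le_pow_left₀ (norm_nonneg _) (hM z) 2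
  · intro z hz
    refine hB z fun h => hz ?_
    simp [h]

theorem lint_sq {X : Type*} [MeasurableSpace X] {μ : Measure X} {h : X → ℂ} (hh : MemLp h 2 μ) :
    ∫⁻ x, ‖h x‖ₑ ^ 2 ∂μ = ENNReal.ofReal (∫ x, ‖h x‖ ^ 2 ∂μ) := by
  have h1 : Integrable (fun x => ‖h x‖ ^ 2) μ :=
    (memLp_two_iff_integrable_sq_norm hh.1).1 hh
  rw [ofReal_integral_eq_lintegral_ofReal h1 (Filter.Eventually.of_forall fun x => by positivity)]
  refine lintegral_congr fun x => ?_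
  rw [ENNReal.ofReal_pow (norm_nonneg _), ofReal_norm]

/-- inverse Fourier transform -/
noncomputable def Fi (U : ℝ × ℝ → ℂ) (z : ℝ × ℝ) : ℂ :=
  ∫ ξ : ℝ × ℝ, U ξ * e (z.1 * ξ.1 + z.2 * ξ.2)

theorem Fi_eq (U : ℝ × ℝ → ℂ) (w : ℂ) :
    Fi U (w.re, w.im) = 𝓕 (fun v : ℂ => U (v.re, v.im)) (-w) := by
  rw [Real.fourier_eq']
  have h := Complex.volume_preserving_equiv_real_prod.integral_comp'
    (g := fun ξ : ℝ × ℝ => U ξ * e (w.re * ξ.1 + w.im * ξ.2))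
  unfold Fi
  simp only
  rw [← h]
  refine integral_congr_ae (Filter.Eventually.of_forall fun v => ?_)
  simp only [Complex.measurableEquivRealProd_apply, smul_eq_mul, inner_neg_right, Complex.inner]
  rw [mul_comm]
  congr 1
  unfold e
  congr 1
  simp only [Complex.mul_re, Complex.conj_re, Complex.conj_im]
  push_cast
  ring

end P3aux

open P3aux in
/-- planar Plancherel for good functions and for compactly supported multipliers -/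
theorem pl_planch (U : ℝ × ℝ → ℂ) (hU : Good U) :
    ∫⁻ z : ℝ × ℝ, ‖∫ ξ : ℝ × ℝ, U ξ * e (z.1 * ξ.1 + z.2 * ξ.2)‖ₑ ^ 2 = ∫⁻ ξ, ‖U ξ‖ₑ ^ 2 := by
  have hI : Integrable (fun v : ℂ => U (v.re, v.im)) := by
    have := (Complex.volume_preserving_equiv_real_prod.integrable_comp_emb
      Complex.measurableEquivRealProd.measurableEmbedding (g := U)).2 (good_integrable hU)
    exact this
  have hL : MemLp (fun v : ℂ => U (v.re, v.im)) 2 := by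
    have := (good_memLp hU).comp_measurePreserving Complex.volume_preserving_equiv_real_prod
    exact this
  obtain ⟨hF, hP⟩ := Pool.Agent.Helper390.Covario.plancherel hI hL
  have h1 : ∫⁻ z : ℝ × ℝ, ‖Fi U z‖ₑ ^ 2 = ∫⁻ w : ℂ, ‖Fi U (w.re, w.im)‖ₑ ^ 2 := by
    have := Complex.volume_preserving_equiv_real_prod.lintegral_comp_emb
      Complex.measurableEquivRealProd.measurableEmbedding (fun z => ‖Fi U z‖ₑ ^ 2)
    exact this.symm
  have h2 : ∫⁻ w : ℂ, ‖Fi U (w.re, w.im)‖ₑ ^ 2 =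
      ∫⁻ w : ℂ, ‖𝓕 (fun v : ℂ => U (v.re, v.im)) w‖ₑ ^ 2 := by
    have h3 : ∀ w : ℂ, ‖Fi U (w.re, w.im)‖ₑ ^ 2 =
        (fun u : ℂ => ‖𝓕 (fun v : ℂ => U (v.re, v.im)) u‖ₑ ^ 2) (-w) := by
      intro w
      rw [Fi_eq]
    rw [lintegral_congr h3]
    exact (Measure.measurePreserving_neg (volume : Measure ℂ)).lintegral_comp_emb
      (MeasurableEquiv.neg ℂ).measurableEmbedding
      (fun u : ℂ => ‖𝓕 (fun v : ℂ => U (v.re, v.im)) u‖ₑ ^ 2)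
  have h4 : ∫⁻ w : ℂ, ‖U (w.re, w.im)‖ₑ ^ 2 = ∫⁻ ξ, ‖U ξ‖ₑ ^ 2 := by
    have := Complex.volume_preserving_equiv_real_prod.lintegral_comp_emb
      Complex.measurableEquivRealProd.measurableEmbedding (fun z => ‖U z‖ₑ ^ 2)
    exact this
  change ∫⁻ z : ℝ × ℝ, ‖Fi U z‖ₑ ^ 2 = _
  rw [h1, h2, lint_sq hF, hP, ← lint_sq hL, h4]

namespace P3aux

/-- convolution -/
noncomputable def cv (U V : ℝ × ℝ → ℂ) (ζ : ℝ × ℝ) : ℂ := ∫ ξ : ℝ × ℝ, U ξ * V (ζ - ξ)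

theorem cv_ne {U V : ℝ × ℝ → ℂ} {ζ : ℝ × ℝ} (h : cv U V ζ ≠ 0) :
    ∃ P P' : ℝ × ℝ, U P ≠ 0 ∧ V P' ≠ 0 ∧ P + P' = ζ := by
  by_contra hcon
  push Not at hcon
  apply h
  unfold cv
  have : ∀ ξ : ℝ × ℝ, U ξ * V (ζ - ξ) = 0 := by
    intro ξ
    by_contra hne
    exact hcon ξ (ζ - ξ) (left_ne_zero_of_mul hne) (right_ne_zero_of_mul hne) (by abel)
  simp [this]

theorem good_cv {U V : ℝ × ℝ → ℂ} (hU : Good U) (hV : Good V) : Good (cv U V) := by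
  refine ⟨?_, ?_, ?_⟩
  · have hm : Measurable (fun p : (ℝ × ℝ) × (ℝ × ℝ) => U p.2 * V (p.1 - p.2)) :=
      (hU.1.comp measurable_snd).mul (hV.1.comp (measurable_fst.sub measurable_snd))
    exact (hm.stronglyMeasurable.integral_prod_right (ν := volume)).measurable
  · obtain ⟨M, hM⟩ := hV.2.1
    refine ⟨∫ ξ, ‖U ξ‖ * M, fun ζ => ?_⟩
    refine norm_integral_le_of_norm_le ((good_integrable hU).norm.mul_const M)
      (Filter.Eventually.of_forall fun ξ => ?_)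
    rw [norm_mul]
    exact mul_le_mul_of_nonneg_left (hM _) (norm_nonneg _)
  · obtain ⟨B, hB⟩ := hU.2.2
    obtain ⟨B', hB'⟩ := hV.2.2
    refine ⟨B + B', fun ζ hζ => ?_⟩
    obtain ⟨P, P', h1, h2, h3⟩ := cv_ne hζ
    obtain ⟨h4, h5⟩ := hB P h1
    obtain ⟨h6, h7⟩ := hB' P' h2
    rw [← h3]
    exact ⟨(abs_add_le _ _).trans (add_le_add h4 h6), (abs_add_le _ _).trans (add_le_add h5 h7)⟩

theorem Fi_mul {U V : ℝ × ℝ → ℂ} (hU : Good U) (hV : Good V) (z : ℝ × ℝ) :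
    Fi (cv U V) z = Fi U z * Fi V z := by
  unfold Fi cv
  have h1 : ∀ ζ : ℝ × ℝ, (∫ ξ : ℝ × ℝ, U ξ * V (ζ - ξ)) * e (z.1 * ζ.1 + z.2 * ζ.2) =
      ∫ ξ : ℝ × ℝ, U ξ * V (ζ - ξ) * e (z.1 * ζ.1 + z.2 * ζ.2) := by
    intro ζ
    rw [integral_mul_const]
  rw [integral_congr_ae (Filter.Eventually.of_forall h1)]
  have hint : Integrable (fun p : (ℝ × ℝ) × (ℝ × ℝ) => U p.2 * V (p.1 - p.2))
      ((volume : Measure (ℝ × ℝ)).prod volume) := by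
    have := (good_integrable hU).convolution_integrand (ContinuousLinearMap.mul ℝ ℂ)
      (good_integrable hV)
    simpa using this
  have hint2 : Integrable (fun p : (ℝ × ℝ) × (ℝ × ℝ) => U p.2 * V (p.1 - p.2) *
      e (z.1 * p.1.1 + z.2 * p.1.2)) ((volume : Measure (ℝ × ℝ)).prod volume) := by
    have hc : Continuous (fun p : (ℝ × ℝ) × (ℝ × ℝ) => e (z.1 * p.1.1 + z.2 * p.1.2)) :=
      continuous_e.comp (by fun_prop)
    have := hint.bdd_mul (c := 1) hc.aestronglyMeasurable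
      (Filter.Eventually.of_forall fun p => (norm_e _).le)
    refine this.congr (Filter.Eventually.of_forall fun p => ?_)
    simp only
    ring
  rw [integral_integral_swap hint2]
  rw [← integral_mul_const]
  refine integral_congr_ae (Filter.Eventually.of_forall fun ξ => ?_)
  simp only
  rw [← integral_const_mul]
  rw [← integral_sub_right_eq_self (fun ζ : ℝ × ℝ =>
    U ξ * e (z.1 * ξ.1 + z.2 * ξ.2) * (V ζ * e (z.1 * ζ.1 + z.2 * ζ.2))) ξ]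
  refine integral_congr_ae (Filter.Eventually.of_forall fun ζ => ?_)
  simp only [Prod.fst_sub, Prod.snd_sub]
  have h2 : z.1 * ζ.1 + z.2 * ζ.2 = (z.1 * ξ.1 + z.2 * ξ.2) +
      (z.1 * (ζ.1 - ξ.1) + z.2 * (ζ.2 - ξ.2)) := by ring
  rw [h2, e_add]
  ring

theorem integrable_Fi {U : ℝ × ℝ → ℂ} (hU : Integrable U) (z : ℝ × ℝ) :
    Integrable (fun ξ : ℝ × ℝ => U ξ * e (z.1 * ξ.1 + z.2 * ξ.2)) := by
  have hc : Continuous (fun p : ℝ × ℝ => e (z.1 * p.1 + z.2 * p.2)) :=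
    continuous_e.comp (by fun_prop)
  have := hU.bdd_mul (c := 1) hc.aestronglyMeasurable
    (Filter.Eventually.of_forall fun p => (norm_e _).le)
  refine this.congr (Filter.Eventually.of_forall fun p => ?_)
  simp only
  ring

theorem Fi_sum {ι : Type*} (S : Finset ι) (U : ι → ℝ × ℝ → ℂ) (hU : ∀ a ∈ S, Integrable (U a))
    (z : ℝ × ℝ) : Fi (fun ξ => ∑ a ∈ S, U a ξ) z = ∑ a ∈ S, Fi (U a) z := by
  unfold Fi
  rw [← integral_finsetSum S (fun a ha => integrable_Fi (hU a ha) z)]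
  refine integral_congr_ae (Filter.Eventually.of_forall fun ξ => ?_)
  simp only
  rw [Finset.sum_mul]

theorem good_zero : Good (fun _ => 0) :=
  ⟨measurable_const, ⟨0, fun z => by simp⟩, 0, fun z h => absurd rfl h⟩

theorem good_add {U V : ℝ × ℝ → ℂ} (hU : Good U) (hV : Good V) : Good (fun z => U z + V z) := by
  obtain ⟨hm, ⟨M, hM⟩, B, hB⟩ := hU
  obtain ⟨hm', ⟨M', hM'⟩, B', hB'⟩ := hV
  refine ⟨hm.add hm', ⟨M + M', fun z => (norm_add_le _ _).trans (add_le_add (hM z) (hM' z))⟩,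
    max B B', fun z hz => ?_⟩
  by_cases h : U z = 0
  · have h' : V z ≠ 0 := by
      intro h'
      exact hz (by simp only [h, h', add_zero])
    exact ⟨(hB' z h').1.trans (le_max_right _ _), (hB' z h').2.trans (le_max_right _ _)⟩
  · exact ⟨(hB z h).1.trans (le_max_left _ _), (hB z h).2.trans (le_max_left _ _)⟩

theorem good_sum {ι : Type*} (S : Finset ι) (U : ι → ℝ × ℝ → ℂ) (hU : ∀ a ∈ S, Good (U a)) :
    Good (fun z => ∑ a ∈ S, U a z) := by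
  classical
  induction S using Finset.induction_on with
  | empty => simpa using good_zero
  | insert a S ha ih =>
    have h1 := ih (fun b hb => hU b (Finset.mem_insert_of_mem hb))
    have h2 := good_add (hU a (Finset.mem_insert_self a S)) h1
    have h3 : (fun z => ∑ a ∈ insert a S, U a z) = fun z => U a z + ∑ a ∈ S, U a z := by
      funext z
      rw [Finset.sum_insert ha]
    rw [h3]
    exact h2

theorem measurable_Fi {U : ℝ × ℝ → ℂ} (hU : Good U) : Measurable (Fi U) := by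
  have hm : Measurable (fun p : (ℝ × ℝ) × (ℝ × ℝ) => U p.2 * e (p.1.1 * p.2.1 + p.1.2 * p.2.2)) :=
    (hU.1.comp measurable_snd).mul (continuous_e.comp (by fun_prop)).measurable
  exact (hm.stronglyMeasurable.integral_prod_right (ν := volume)).measurable

theorem enorm_sq (w : ℂ) : ‖w‖ₑ ^ 2 = ENNReal.ofReal (‖w‖ ^ 2) := by
  rw [ENNReal.ofReal_pow (norm_nonneg _), ofReal_norm]

open Classical in
theorem main_orth {ι : Type*} (S : Finset ι) (U : ι → ℝ × ℝ → ℂ) (hU : ∀ a, Good (U a)) (N : ℕ)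
    (hN : ∀ ζ : ℝ × ℝ, ((S ×ˢ S).filter (fun p : ι × ι => ∃ P P' : ℝ × ℝ,
      U p.1 P ≠ 0 ∧ U p.2 P' ≠ 0 ∧ P + P' = ζ)).card ≤ N) :
    ∫⁻ z, ‖∑ a ∈ S, Fi (U a) z‖ₑ ^ 4 ≤ N * ∫⁻ z, (∑ a ∈ S, ‖Fi (U a) z‖ₑ ^ 2) ^ 2 := by
  set W : ℝ × ℝ → ℂ := fun ζ => ∑ p ∈ S ×ˢ S, cv (U p.1) (U p.2) ζ with hW
  have hcg : ∀ p : ι × ι, Good (cv (U p.1) (U p.2)) := fun p => good_cv (hU _) (hU _)
  have hWg : Good W := good_sum _ _ (fun p _ => hcg p)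
  have h1 : ∀ z, Fi W z = (∑ a ∈ S, Fi (U a) z) ^ 2 := by
    intro z
    rw [hW, Fi_sum _ _ (fun p _ => good_integrable (hcg p)), sq, Finset.sum_mul_sum,
      Finset.sum_product]
    exact Finset.sum_congr rfl fun a _ => Finset.sum_congr rfl fun b _ => Fi_mul (hU a) (hU b) z
  have h2 : ∀ z, ‖∑ a ∈ S, Fi (U a) z‖ₑ ^ 4 = ‖Fi W z‖ₑ ^ 2 := by
    intro z
    rw [h1, enorm_pow, ← pow_mul]
  have h3 : ∀ ζ, ‖W ζ‖ₑ ^ 2 ≤ N * ∑ p ∈ S ×ˢ S, ‖cv (U p.1) (U p.2) ζ‖ₑ ^ 2 := by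
    intro ζ
    have h4 : ‖W ζ‖ ^ 2 ≤ N * ∑ p ∈ S ×ˢ S, ‖cv (U p.1) (U p.2) ζ‖ ^ 2 := by
      set T := (S ×ˢ S).filter (fun p : ι × ι => ∃ P P' : ℝ × ℝ,
        U p.1 P ≠ 0 ∧ U p.2 P' ≠ 0 ∧ P + P' = ζ) with hT
      have h5 : W ζ = ∑ p ∈ T, cv (U p.1) (U p.2) ζ := by
        rw [hW, hT, Finset.sum_filter_of_ne]
        intro p _ hp
        exact cv_ne hp
      have h6 : ‖W ζ‖ ≤ ∑ p ∈ T, ‖cv (U p.1) (U p.2) ζ‖ := by
        rw [h5]; exact norm_sum_le _ _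
      calc ‖W ζ‖ ^ 2 ≤ (∑ p ∈ T, ‖cv (U p.1) (U p.2) ζ‖) ^ 2 :=
            pow_le_pow_left₀ (norm_nonneg _) h6 2
        _ ≤ T.card * ∑ p ∈ T, ‖cv (U p.1) (U p.2) ζ‖ ^ 2 := sq_sum_le_card_mul_sum_sq
        _ ≤ N * ∑ p ∈ S ×ˢ S, ‖cv (U p.1) (U p.2) ζ‖ ^ 2 := by
            refine mul_le_mul (by exact_mod_cast hN ζ) ?_ ?_ (by positivity)
            · exact Finset.sum_le_sum_of_subset_of_nonneg (Finset.filter_subset _ _)
                (fun p _ _ => by positivity)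
            · exact Finset.sum_nonneg fun p _ => by positivity
    rw [enorm_sq]
    refine (ENNReal.ofReal_le_ofReal h4).trans ?_
    rw [ENNReal.ofReal_mul (by positivity), ENNReal.ofReal_natCast,
      ENNReal.ofReal_sum_of_nonneg (fun p _ => by positivity)]
    refine mul_le_mul_right (Finset.sum_le_sum fun p _ => ?_) _
    rw [enorm_sq]
  calc ∫⁻ z, ‖∑ a ∈ S, Fi (U a) z‖ₑ ^ 4 = ∫⁻ z, ‖Fi W z‖ₑ ^ 2 := lintegral_congr h2
    _ = ∫⁻ ζ, ‖W ζ‖ₑ ^ 2 := pl_planch W hWg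
    _ ≤ ∫⁻ ζ, N * ∑ p ∈ S ×ˢ S, ‖cv (U p.1) (U p.2) ζ‖ₑ ^ 2 := lintegral_mono h3
    _ = N * ∑ p ∈ S ×ˢ S, ∫⁻ ζ, ‖cv (U p.1) (U p.2) ζ‖ₑ ^ 2 := by
        rw [lintegral_const_mul', lintegral_finsetSum]
        · intro p _
          exact (hcg p).1.enorm.pow_const 2
        · exact ENNReal.natCast_ne_top N
    _ = N * ∑ p ∈ S ×ˢ S, ∫⁻ z, ‖Fi (U p.1) z‖ₑ ^ 2 * ‖Fi (U p.2) z‖ₑ ^ 2 := by
        congr 1
        refine Finset.sum_congr rfl fun p _ => ?_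
        rw [← pl_planch _ (hcg p)]
        refine lintegral_congr fun z => ?_
        have := Fi_mul (hU p.1) (hU p.2) z
        unfold Fi at this
        rw [this, enorm_mul, mul_pow]
        rfl
    _ = N * ∫⁻ z, (∑ a ∈ S, ‖Fi (U a) z‖ₑ ^ 2) ^ 2 := by
        congr 1
        rw [← lintegral_finsetSum]
        · refine lintegral_congr fun z => ?_
          rw [sq, Finset.sum_mul_sum, Finset.sum_product]
        · intro p _
          exact ((measurable_Fi (hU p.1)).enorm.pow_const 2).mul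
            ((measurable_Fi (hU p.2)).enorm.pow_const 2)

theorem mC_ne {ψ α β η : ℝ → ℝ} {L : ℝ} {a : ℤ} {ξ : ℝ × ℝ} (h : mC ψ α β η L a ξ ≠ 0) :
    η (L * ξ.1 - a) ≠ 0 ∧ α ξ.1 ≠ 0 ∧ β ξ.2 ≠ 0 ∧ ψ (L ^ 2 * (1 - (ξ.1 ^ 2 + ξ.2 ^ 2))) ≠ 0 := by
  unfold mC mA at h
  rw [← Complex.ofReal_mul, Complex.ofReal_ne_zero] at h
  exact ⟨left_ne_zero_of_mul h, left_ne_zero_of_mul (left_ne_zero_of_mul (right_ne_zero_of_mul h)),
    right_ne_zero_of_mul (left_ne_zero_of_mul (right_ne_zero_of_mul h)),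
    right_ne_zero_of_mul (right_ne_zero_of_mul h)⟩

theorem ft_measurable {g : ℝ × ℝ → ℂ} (hg : Good g) : Measurable (ft g) := by
  have hm : Measurable (fun p : (ℝ × ℝ) × (ℝ × ℝ) =>
      e (-(p.2.1 * p.1.1 + p.2.2 * p.1.2)) * g p.2) :=
    (continuous_e.comp (by fun_prop)).measurable.mul (hg.1.comp measurable_snd)
  exact (hm.stronglyMeasurable.integral_prod_right (ν := volume)).measurable

theorem ft_bound (g : ℝ × ℝ → ℂ) (ξ : ℝ × ℝ) : ‖ft g ξ‖ ≤ ∫ z, ‖g z‖ := by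
  unfold ft
  refine (norm_integral_le_integral_norm _).trans (le_of_eq ?_)
  refine integral_congr_ae (Filter.Eventually.of_forall fun z => ?_)
  simp only [norm_mul, norm_e, one_mul]

theorem psi_ball {ψ : ℝ → ℝ} (hψ : Bump ψ) {L : ℝ} (hL : 0 < L) {ξ : ℝ × ℝ}
    (h : ψ (L ^ 2 * (1 - (ξ.1 ^ 2 + ξ.2 ^ 2))) ≠ 0) :
    ξ.1 ^ 2 + ξ.2 ^ 2 ≤ 1 ∧ |1 - (ξ.1 ^ 2 + ξ.2 ^ 2)| ≤ 2 / L ^ 2 := by
  obtain ⟨h1, h2⟩ := hψ.2 _ h
  have hL2 : 0 < L ^ 2 := by positivity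
  have h3 : 0 ≤ 1 - (ξ.1 ^ 2 + ξ.2 ^ 2) := by
    by_contra hneg
    push Not at hneg
    have := mul_neg_of_pos_of_neg hL2 hneg
    linarith
  refine ⟨by linarith, ?_⟩
  rw [abs_of_nonneg h3, le_div_iff₀ hL2]
  linarith

theorem good_mC {ψ α β η : ℝ → ℝ} (hψ : Bump ψ) (hab : Arc α β) (hη : Win η) {L : ℝ}
    (hL : 0 < L) (a : ℤ) {g : ℝ × ℝ → ℂ} (hg : Good g) :
    Good (fun ξ => mC ψ α β η L a ξ * ft g ξ) := by
  have hc : Continuous (mC ψ α β η L a) := by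
    unfold mC mA
    have h1 := hψ.1.continuous
    have h2 := hab.1.continuous
    have h3 := hab.2.1.continuous
    have h4 := hη.1.continuous
    fun_prop
  have hsupp : ∀ ξ, mC ψ α β η L a ξ ≠ 0 → |ξ.1| ≤ 1 ∧ |ξ.2| ≤ 1 := by
    intro ξ h
    obtain ⟨_, _, _, h4⟩ := mC_ne h
    obtain ⟨h5, _⟩ := psi_ball hψ hL h4
    constructor
    · rw [← sq_le_one_iff_abs_le_one]; nlinarith [sq_nonneg ξ.2]
    · rw [← sq_le_one_iff_abs_le_one]; nlinarith [sq_nonneg ξ.1]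
  obtain ⟨M, hM⟩ := (isCompact_Icc (a := ((-1 : ℝ), (-1 : ℝ))) (b := ((1 : ℝ), (1 : ℝ)))
    ).exists_bound_of_continuousOn (f := mC ψ α β η L a) hc.continuousOn
  have hM' : ∀ ξ, ‖mC ψ α β η L a ξ‖ ≤ max M 0 := by
    intro ξ
    by_cases h : mC ψ α β η L a ξ = 0
    · rw [h, norm_zero]; exact le_max_right _ _
    · obtain ⟨h1, h2⟩ := hsupp ξ h
      rw [abs_le] at h1 h2
      refine (hM ξ ?_).trans (le_max_left _ _)
      exact ⟨⟨h1.1, h2.1⟩, ⟨h1.2, h2.2⟩⟩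
  refine ⟨hc.measurable.mul (ft_measurable hg), ⟨max M 0 * ∫ z, ‖g z‖, fun ξ => ?_⟩, 1,
    fun ξ h => hsupp ξ (left_ne_zero_of_mul h)⟩
  rw [norm_mul]
  exact mul_le_mul (hM' ξ) (ft_bound g ξ) (norm_nonneg _) (le_max_right _ _)

theorem mA_sum {ψ α β η : ℝ → ℝ} (hψ : Bump ψ) (hab : Arc α β) (hη : Win η)
    (hsum : ∀ x : ℝ, HasSum (fun a : ℤ => η (x - a)) 1) {L : ℝ} (hL : 10 ≤ L) (ξ : ℝ × ℝ) :
    mA ψ α β L ξ = ∑ a ∈ SL L, mC ψ α β η L a ξ := by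
  unfold mC
  rw [← Finset.sum_mul]
  by_cases h : mA ψ α β L ξ = 0
  · rw [h, mul_zero]
  · have h0 := h
    unfold mA at h
    replace h := Complex.ofReal_ne_zero.1 h
    have hα := left_ne_zero_of_mul (left_ne_zero_of_mul h)
    have hβ := right_ne_zero_of_mul (left_ne_zero_of_mul h)
    obtain ⟨h5, _⟩ := psi_ball hψ (by linarith) (right_ne_zero_of_mul h)
    obtain ⟨h6, _⟩ := hab.2.2 _ _ hα hβ h5
    have h7 : ∀ a ∉ SL L, η (L * ξ.1 - a) = 0 := by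
      intro a ha
      by_contra hne
      have h8 := hη.2 _ hne
      apply ha
      rw [abs_le] at h6 h8
      unfold SL
      rw [Finset.mem_Icc]
      have h9 : (a : ℝ) ≤ 9 / 10 * L := by nlinarith
      have h10 : (-a : ℝ) ≤ 9 / 10 * L := by nlinarith
      constructor
      · have : -a ≤ ⌊9 / 10 * L⌋ := Int.le_floor.2 (by push_cast; exact h10)
        omega
      · exact Int.le_floor.2 h9
    have h8 := (hasSum_sum_of_ne_finset_zero h7).unique (hsum (L * ξ.1))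
    have h9 : (∑ a ∈ SL L, ((η (L * ξ.1 - a) : ℝ) : ℂ)) = 1 := by
      rw [← Complex.ofReal_sum, h8, Complex.ofReal_one]
    rw [h9, one_mul]

open Classical in
theorem orth_of (N : ℕ) (hov : ∀ L : ℝ, 10 ≤ L → ∀ ξ : ℝ × ℝ,
    {p : ℤ × ℤ | ∃ P P' : ℝ × ℝ, |L * P.1 - p.1| ≤ 1 ∧ |L * P'.1 - p.2| ≤ 1 ∧
      |P.1| ≤ 4 / 5 ∧ |P'.1| ≤ 4 / 5 ∧ 1 / 10 ≤ P.2 ∧ 1 / 10 ≤ P'.2 ∧
      |1 - (P.1 ^ 2 + P.2 ^ 2)| ≤ 2 / L ^ 2 ∧ |1 - (P'.1 ^ 2 + P'.2 ^ 2)| ≤ 2 / L ^ 2 ∧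
      P.1 + P'.1 = ξ.1 ∧ P.2 + P'.2 = ξ.2}.Finite ∧
    {p : ℤ × ℤ | ∃ P P' : ℝ × ℝ, |L * P.1 - p.1| ≤ 1 ∧ |L * P'.1 - p.2| ≤ 1 ∧
      |P.1| ≤ 4 / 5 ∧ |P'.1| ≤ 4 / 5 ∧ 1 / 10 ≤ P.2 ∧ 1 / 10 ≤ P'.2 ∧
      |1 - (P.1 ^ 2 + P.2 ^ 2)| ≤ 2 / L ^ 2 ∧ |1 - (P'.1 ^ 2 + P'.2 ^ 2)| ≤ 2 / L ^ 2 ∧
      P.1 + P'.1 = ξ.1 ∧ P.2 + P'.2 = ξ.2}.ncard ≤ N)
    (ψ α β η : ℝ → ℝ) (hψ : Bump ψ) (hab : Arc α β) (hη : Win η)
    (hsum : ∀ x : ℝ, HasSum (fun a : ℤ => η (x - a)) 1) :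
    ∃ C : ℝ, 0 < C ∧ ∀ L : ℝ, 10 ≤ L → ∀ g : ℝ × ℝ → ℂ, Good g →
      ∫⁻ z, ‖Pl (mA ψ α β L) g z‖ₑ ^ 4 ≤
        ENNReal.ofReal C * ∫⁻ z, (∑ a ∈ SL L, ‖Pl (mC ψ α β η L a) g z‖ₑ ^ 2) ^ 2 := by
  refine ⟨(N : ℝ) + 1, by positivity, fun L hL g hg => ?_⟩
  have hL0 : 0 < L := by linarith
  set U : ℤ → ℝ × ℝ → ℂ := fun a ξ => mC ψ α β η L a ξ * ft g ξ with hU
  have hUg : ∀ a, Good (U a) := fun a => good_mC hψ hab hη hL0 a hg
  have h1 : ∀ z, Pl (mA ψ α β L) g z = ∑ a ∈ SL L, Fi (U a) z := by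
    intro z
    rw [← Fi_sum (SL L) U (fun a _ => good_integrable (hUg a)) z]
    unfold Pl Fi
    refine integral_congr_ae (Filter.Eventually.of_forall fun ξ => ?_)
    simp only [hU]
    rw [mA_sum hψ hab hη hsum hL ξ, Finset.sum_mul]
  have h2 : ∀ a z, Pl (mC ψ α β η L a) g z = Fi (U a) z := fun a z => rfl
  have h3 := main_orth (SL L) U hUg N (fun ζ => by
    obtain ⟨hfin, hcard⟩ := hov L hL ζ
    refine le_trans ?_ hcard
    rw [← Set.ncard_coe_finset]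
    refine Set.ncard_le_ncard ?_ hfin
    intro p hp
    rw [Finset.mem_coe, Finset.mem_filter] at hp
    obtain ⟨_, P, P', h4, h5, h6⟩ := hp
    have h7 := mC_ne (left_ne_zero_of_mul h4)
    have h8 := mC_ne (left_ne_zero_of_mul h5)
    obtain ⟨h9, h10⟩ := psi_ball hψ hL0 h7.2.2.2
    obtain ⟨h11, h12⟩ := psi_ball hψ hL0 h8.2.2.2
    obtain ⟨h13, h14⟩ := hab.2.2 _ _ h7.2.1 h7.2.2.1 h9
    obtain ⟨h15, h16⟩ := hab.2.2 _ _ h8.2.1 h8.2.2.1 h11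
    refine ⟨P, P', hη.2 _ h7.1, hη.2 _ h8.1, h13, h15, h14, h16, h10, h12, ?_, ?_⟩
    · rw [← h6]; rfl
    · rw [← h6]; rfl)
  calc ∫⁻ z, ‖Pl (mA ψ α β L) g z‖ₑ ^ 4 = ∫⁻ z, ‖∑ a ∈ SL L, Fi (U a) z‖ₑ ^ 4 :=
        lintegral_congr fun z => by rw [h1]
    _ ≤ N * ∫⁻ z, (∑ a ∈ SL L, ‖Fi (U a) z‖ₑ ^ 2) ^ 2 := h3
    _ ≤ ENNReal.ofReal ((N : ℝ) + 1) *
          ∫⁻ z, (∑ a ∈ SL L, ‖Pl (mC ψ α β η L a) g z‖ₑ ^ 2) ^ 2 := by
        refine mul_le_mul' ?_ (le_of_eq rfl)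
        rw [← ENNReal.ofReal_natCast]
        exact ENNReal.ofReal_le_ofReal (by linarith)

end P3aux

end Pool.Agent.H438R2.RZ
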