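import Pool.Agent.H438R2.RZ.P2
import Pool.Agent.H438R2.RZ.P3
set_option autoImplicit false

/-! # P3: L4 orthogonality, final form -/

namespace Pool.Agent.H438R2.RZ

open MeasureTheory Set Complex
open scoped ENNReal RealInnerProductSpace

theorem orth (ψ α β η : ℝ → ℝ) (hψ : Bump ψ) (hab : Arc α β) (hη : Win η)
    (hsum : ∀ x : ℝ, HasSum (fun a : ℤ => η (x - a)) 1) :
    ∃ C : ℝ, 0 < C ∧ ∀ L : ℝ, 10 ≤ L → ∀ g : ℝ × ℝ → ℂ, Good g →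
      ∫⁻ z, ‖Pl (mA ψ α β L) g z‖ₑ ^ 4 ≤
        ENNReal.ofReal C * ∫⁻ z, (∑ a ∈ SL L, ‖Pl (mC ψ α β η L a) g z‖ₑ ^ 2) ^ 2 := by
  obtain ⟨N, hN⟩ := overlap
  exact P3aux.orth_of N hN ψ α β η hψ hab hη hsum

end Pool.Agent.H438R2.RZ
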