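import Pool.Agent.H438R2.RZ.Defs
set_option autoImplicit false

/-! # Equally spaced strips -/

namespace Pool.Agent.H438R2.RZ

open MeasureTheory Set Complex
open scoped ENNReal

namespace P4aux

theorem norm_e (x : ℝ) : ‖e x‖ = 1 := Complex.norm_exp_ofReal_mul_I _

theorem e_cont : Continuous e := by unfold e; fun_prop

theorem e_add (x y : ℝ) : e (x + y) = e x * e y := by
  unfold e
  rw [← Complex.exp_add]
  congr 1
  push_cast
  ring

theorem e_neg (x : ℝ) : e (-x) = (starRingEnd ℂ) (e x) := by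
  unfold e
  rw [← Complex.exp_conj]
  congr 1
  simp only [map_mul, Complex.conj_ofReal, Complex.conj_I]
  push_cast
  ring

theorem e_intCast (n : ℤ) : e n = 1 := by
  unfold e
  rw [Complex.exp_eq_one_iff]
  exact ⟨n, by push_cast; ring⟩

theorem int_e (n j : ℤ) : ∫ y in (j : ℝ)..(j + 1), e (n * y) = if n = 0 then 1 else 0 := by
  by_cases hn : n = 0
  · subst hn
    simp [e]
  · rw [if_neg hn]
    have hc : (2 * Real.pi * n * I : ℂ) ≠ 0 := by
      have : (n : ℂ) ≠ 0 := Int.cast_ne_zero.2 hn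
      have h2 : (Real.pi : ℂ) ≠ 0 := by exact_mod_cast Real.pi_ne_zero
      simp [this, h2, Complex.I_ne_zero]
    have e1 : (fun y : ℝ => e (n * y)) = fun y : ℝ => Complex.exp ((2 * Real.pi * n * I : ℂ) * y) := by
      funext y
      unfold e
      congr 1
      push_cast
      ring
    rw [e1, integral_exp_mul_complex hc]
    have e2 : ∀ m : ℤ, Complex.exp ((2 * Real.pi * n * I : ℂ) * (m : ℝ)) = 1 := by
      intro m
      rw [Complex.exp_eq_one_iff]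
      exact ⟨n * m, by push_cast; ring⟩
    have e3 := e2 (j + 1)
    have e4 := e2 j
    push_cast at e3 e4 ⊢
    rw [e3, e4]
    simp

/-- trigonometric sums -/
noncomputable def Dd (S : Finset ℤ) (d : ℤ → ℂ) (y : ℝ) : ℂ := ∑ a ∈ S, d a * e (a * y)

theorem Dd_cont (S : Finset ℤ) (d : ℤ → ℂ) : Continuous (Dd S d) := by
  unfold Dd
  refine continuous_finsetSum _ fun a _ => continuous_const.mul (e_cont.comp ?_)
  fun_prop

theorem int_Dd (S : Finset ℤ) (d : ℤ → ℂ) (j : ℤ) :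
    ∫ y in (j : ℝ)..(j + 1), ‖Dd S d y‖ ^ 2 = ∑ a ∈ S, ‖d a‖ ^ 2 := by
  have h1 : ((∫ y in (j : ℝ)..(j + 1), ‖Dd S d y‖ ^ 2 : ℝ) : ℂ) =
      ((∑ a ∈ S, ‖d a‖ ^ 2 : ℝ) : ℂ) := by
    rw [← intervalIntegral.integral_ofReal]
    have e1 : ∀ y : ℝ, ((‖Dd S d y‖ ^ 2 : ℝ) : ℂ) =
        ∑ a ∈ S, ∑ b ∈ S, (d a * (starRingEnd ℂ) (d b)) * e (((a - b : ℤ) : ℝ) * y) := by
      intro y
      rw [Complex.ofReal_pow, ← Complex.mul_conj']
      unfold Dd
      rw [map_sum, Finset.sum_mul_sum]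
      refine Finset.sum_congr rfl fun a _ => Finset.sum_congr rfl fun b _ => ?_
      have e2 : ((a - b : ℤ) : ℝ) * y = a * y + -(b * y) := by push_cast; ring
      rw [e2, e_add, e_neg, map_mul]
      ring
    simp only [e1]
    have hint : ∀ (c : ℂ) (n : ℤ), IntervalIntegrable (fun y : ℝ => c * e ((n : ℝ) * y)) volume
        (j : ℝ) (j + 1) := by
      intro c n
      apply Continuous.intervalIntegrable
      exact continuous_const.mul (e_cont.comp (by fun_prop))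
    rw [intervalIntegral.integral_finsetSum, Complex.ofReal_sum]
    · refine Finset.sum_congr rfl fun a ha => ?_
      rw [Complex.ofReal_pow]
      rw [intervalIntegral.integral_finsetSum (fun b _ => hint _ _)]
      rw [Finset.sum_eq_single a]
      · rw [intervalIntegral.integral_const_mul, int_e, if_pos (by ring), mul_one, Complex.mul_conj']
      · intro b _ hb
        rw [intervalIntegral.integral_const_mul, int_e, if_neg (sub_ne_zero.2 hb.symm), mul_zero]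
      · intro h
        exact absurd ha h
    · intro a _
      apply Continuous.intervalIntegrable
      refine continuous_finsetSum _ fun b _ => continuous_const.mul (e_cont.comp ?_)
      fun_prop
  exact_mod_cast h1

theorem lint_Dd (S : Finset ℤ) (d : ℤ → ℂ) (j : ℤ) :
    ∫⁻ y in Ico (j : ℝ) (j + 1), ‖Dd S d y‖ₑ ^ 2 = ENNReal.ofReal (∑ a ∈ S, ‖d a‖ ^ 2) := by
  rw [← int_Dd S d j, intervalIntegral.integral_of_le (by linarith), integral_Ioc_eq_integral_Ioo,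
    ← integral_Ico_eq_integral_Ioo, ofReal_integral_eq_lintegral_ofReal]
  · refine lintegral_congr fun y => ?_
    rw [ENNReal.ofReal_pow (norm_nonneg _), ofReal_norm]
  · have h1 : Continuous fun y => ‖Dd S d y‖ ^ 2 := (Dd_cont S d).norm.pow 2
    exact (h1.integrableOn_Icc (a := (j : ℝ)) (b := j + 1)).mono_set Ico_subset_Icc_self
  · exact Filter.Eventually.of_forall fun y => by positivity

theorem sumK : Summable (fun j : ℤ => 3 / (1 + (j : ℝ) ^ 2)) := by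
  have h1 : Summable (fun j : ℤ => 3 * (1 / (j : ℝ) ^ 2) + if j = 0 then (3 : ℝ) else 0) := by
    refine Summable.add ((Real.summable_one_div_int_pow (p := 2)).2 one_lt_two |>.mul_left 3) ?_
    exact (hasSum_ite_eq (0 : ℤ) (3 : ℝ)).summable
  refine Summable.of_nonneg_of_le (fun j => by positivity) (fun j => ?_) h1
  by_cases hj : j = 0
  · subst hj
    simp
  · rw [if_neg hj, add_zero, ← mul_div_assoc, mul_one]
    have : (0 : ℝ) < (j : ℝ) ^ 2 := by
      have : (j : ℝ) ≠ 0 := Int.cast_ne_zero.2 hj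
      positivity
    gcongr
    linarith

/-- the constant -/
noncomputable def KK : ℝ≥0∞ := ∑' j : ℤ, ENNReal.ofReal (3 / (1 + (j : ℝ) ^ 2))

theorem KK_ne : KK ≠ ∞ := by
  unfold KK
  rw [← ENNReal.ofReal_tsum_of_nonneg (fun j => by positivity) sumK]
  exact ENNReal.ofReal_ne_top

theorem wDd (S : Finset ℤ) (d : ℤ → ℂ) :
    ∫⁻ y : ℝ, ENNReal.ofReal (1 / (1 + y ^ 2)) * ‖Dd S d y‖ₑ ^ 2 ≤
      KK * ENNReal.ofReal (∑ a ∈ S, ‖d a‖ ^ 2) := by
  rw [← setLIntegral_univ, ← iUnion_Ico_intCast ℝ,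
    lintegral_iUnion (fun _ => measurableSet_Ico) (pairwise_disjoint_Ico_intCast ℝ)]
  unfold KK
  rw [← ENNReal.tsum_mul_right]
  refine ENNReal.tsum_le_tsum fun j => ?_
  rw [← lint_Dd S d j, ← lintegral_const_mul' _ _ ENNReal.ofReal_ne_top]
  refine setLIntegral_mono' measurableSet_Ico fun y hy => ?_
  refine mul_le_mul_left ?_ _
  apply ENNReal.ofReal_le_ofReal
  rw [div_le_div_iff₀ (by positivity) (by positivity)]
  obtain ⟨t, ht0, ht1, ht⟩ : ∃ t : ℝ, 0 ≤ t ∧ t ≤ 1 ∧ (j : ℝ) = y - t :=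
    ⟨y - j, by linarith [hy.1], by linarith [hy.2], by ring⟩
  rw [ht]
  nlinarith [sq_nonneg (y + t), sq_nonneg y]

theorem bessel_main (h : ℝ → ℂ) (hh : Integrable h) (S : Finset ℤ) :
    ∑ a ∈ S, ‖∫ y : ℝ, h y * e ((a : ℝ) * y)‖ₑ ^ 2 ≤
      KK * ∫⁻ y : ℝ, ENNReal.ofReal (1 + y ^ 2) * ‖h y‖ₑ ^ 2 := by
  set c : ℤ → ℂ := fun a => ∫ y : ℝ, h y * e ((a : ℝ) * y) with hc
  set d : ℤ → ℂ := fun a => (starRingEnd ℂ) (c a) with hd
  set T : ℝ := ∑ a ∈ S, ‖c a‖ ^ 2 with hT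
  have hT0 : 0 ≤ T := Finset.sum_nonneg fun a _ => by positivity
  have hTd : ∑ a ∈ S, ‖d a‖ ^ 2 = T := by
    refine Finset.sum_congr rfl fun a _ => ?_
    rw [hd]
    simp only [RCLike.norm_conj]
  have e1 : ∑ a ∈ S, ‖c a‖ₑ ^ 2 = ENNReal.ofReal T := by
    rw [hT, ENNReal.ofReal_sum_of_nonneg (fun a _ => by positivity)]
    refine Finset.sum_congr rfl fun a _ => ?_
    rw [ENNReal.ofReal_pow (norm_nonneg _), ofReal_norm]
  rw [e1]
  have hint : ∀ a : ℤ, Integrable (fun y : ℝ => h y * e ((a : ℝ) * y)) := by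
    intro a
    refine hh.norm.mono' (hh.1.mul ?_) (Filter.Eventually.of_forall fun y => ?_)
    · exact (e_cont.comp (by fun_prop)).aestronglyMeasurable
    · rw [norm_mul, norm_e, mul_one]
  have e2 : ((T : ℝ) : ℂ) = ∫ y, h y * Dd S d y := by
    have e3 : ∀ y, h y * Dd S d y = ∑ a ∈ S, d a * (h y * e ((a : ℝ) * y)) := by
      intro y
      unfold Dd
      rw [Finset.mul_sum]
      exact Finset.sum_congr rfl fun a _ => by ring
    simp only [e3]
    rw [integral_finsetSum _ fun a _ => (hint a).const_mul _, hT]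
    push_cast
    refine Finset.sum_congr rfl fun a _ => ?_
    rw [integral_const_mul, ← Complex.conj_mul']
  have h1 : ENNReal.ofReal T ≤ ∫⁻ y, ‖h y‖ₑ * ‖Dd S d y‖ₑ := by
    have h2 := enorm_integral_le_lintegral_enorm (μ := volume) (fun y => h y * Dd S d y)
    rw [← e2] at h2
    rw [← ofReal_norm, Complex.norm_real, Real.norm_of_nonneg hT0] at h2
    simpa only [enorm_mul] using h2
  set A : ℝ≥0∞ := ∫⁻ y : ℝ, ENNReal.ofReal (1 + y ^ 2) * ‖h y‖ₑ ^ 2 with hA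
  set B : ℝ≥0∞ := ∫⁻ y : ℝ, ENNReal.ofReal (1 / (1 + y ^ 2)) * ‖Dd S d y‖ₑ ^ 2 with hB
  have h3 : ∫⁻ y, ‖h y‖ₑ * ‖Dd S d y‖ₑ ≤ A ^ (1 / 2 : ℝ) * B ^ (1 / 2 : ℝ) := by
    have h4 := ENNReal.lintegral_mul_le_Lp_mul_Lq (volume : Measure ℝ)
      (Real.HolderConjugate.two_two)
      (f := fun y => ENNReal.ofReal (Real.sqrt (1 + y ^ 2)) * ‖h y‖ₑ)
      (g := fun y => ENNReal.ofReal (1 / Real.sqrt (1 + y ^ 2)) * ‖Dd S d y‖ₑ)
      (AEMeasurable.mul (by fun_prop) hh.1.enorm)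
      (AEMeasurable.mul (by fun_prop) (Dd_cont S d).aestronglyMeasurable.enorm)
    have e5 : ∀ y : ℝ, ((fun y => ENNReal.ofReal (Real.sqrt (1 + y ^ 2)) * ‖h y‖ₑ) *
        (fun y => ENNReal.ofReal (1 / Real.sqrt (1 + y ^ 2)) * ‖Dd S d y‖ₑ)) y =
        ‖h y‖ₑ * ‖Dd S d y‖ₑ := by
      intro y
      have h5 : 0 < Real.sqrt (1 + y ^ 2) := Real.sqrt_pos.2 (by positivity)
      have h6 : ENNReal.ofReal (Real.sqrt (1 + y ^ 2)) * ENNReal.ofReal (1 / Real.sqrt (1 + y ^ 2)) =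
          1 := by
        rw [← ENNReal.ofReal_mul h5.le, mul_one_div, div_self h5.ne', ENNReal.ofReal_one]
      simp only [Pi.mul_apply]
      calc _ = (ENNReal.ofReal (Real.sqrt (1 + y ^ 2)) *
            ENNReal.ofReal (1 / Real.sqrt (1 + y ^ 2))) * (‖h y‖ₑ * ‖Dd S d y‖ₑ) := by ring
        _ = _ := by rw [h6, one_mul]
    have e6 : ∀ y : ℝ, (ENNReal.ofReal (Real.sqrt (1 + y ^ 2)) * ‖h y‖ₑ) ^ (2 : ℝ) =
        ENNReal.ofReal (1 + y ^ 2) * ‖h y‖ₑ ^ 2 := by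
      intro y
      rw [ENNReal.rpow_two, mul_pow, ← ENNReal.ofReal_pow (Real.sqrt_nonneg _),
        Real.sq_sqrt (by positivity)]
    have e7 : ∀ y : ℝ, (ENNReal.ofReal (1 / Real.sqrt (1 + y ^ 2)) * ‖Dd S d y‖ₑ) ^ (2 : ℝ) =
        ENNReal.ofReal (1 / (1 + y ^ 2)) * ‖Dd S d y‖ₑ ^ 2 := by
      intro y
      rw [ENNReal.rpow_two, mul_pow, ← ENNReal.ofReal_pow (by positivity), div_pow, one_pow,
        Real.sq_sqrt (by positivity)]
    rw [lintegral_congr e5, lintegral_congr e6, lintegral_congr e7] at h4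
    exact h4
  have h8 : B ≤ KK * ENNReal.ofReal T := by
    rw [← hTd]
    exact wDd S d
  by_cases hz : ENNReal.ofReal T = 0
  · rw [hz]; exact zero_le
  · have h9 : ENNReal.ofReal T * ENNReal.ofReal T ≤ (KK * A) * ENNReal.ofReal T := by
      have h10 := h1.trans h3
      calc ENNReal.ofReal T * ENNReal.ofReal T ≤
            (A ^ (1 / 2 : ℝ) * B ^ (1 / 2 : ℝ)) * (A ^ (1 / 2 : ℝ) * B ^ (1 / 2 : ℝ)) := by gcongr
        _ = (A ^ (1 / 2 : ℝ) * A ^ (1 / 2 : ℝ)) * (B ^ (1 / 2 : ℝ) * B ^ (1 / 2 : ℝ)) := by ring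
        _ = A * B := by
            rw [← ENNReal.rpow_add_of_nonneg _ _ (by norm_num) (by norm_num),
              ← ENNReal.rpow_add_of_nonneg _ _ (by norm_num) (by norm_num)]
            norm_num
        _ ≤ A * (KK * ENNReal.ofReal T) := by gcongr
        _ = _ := by ring
    exact (ENNReal.mul_le_mul_iff_left hz ENNReal.ofReal_ne_top).1 h9

/-- the inverse Fourier transform of the window -/
noncomputable def tc (θ : ℝ → ℝ) (y : ℝ) : ℂ := ∫ u : ℝ, ((θ u : ℝ) : ℂ) * e (u * y)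

theorem tc_facts (θ : ℝ → ℝ) (hθ : ContDiff ℝ (⊤ : ℕ∞) θ) (hs : ∀ x, θ x ≠ 0 → |x| ≤ 2) :
    Continuous (tc θ) ∧ ∃ C : ℝ, 0 < C ∧ ∀ y, ‖tc θ y‖ * (1 + y ^ 2) ≤ C := by
  have hc : HasCompactSupport (fun u : ℝ => ((θ u : ℝ) : ℂ)) := by
    refine HasCompactSupport.intro (isCompact_Icc (a := (-2 : ℝ)) (b := 2)) fun x hx => ?_
    by_contra h
    have h1 : θ x ≠ 0 := fun h2 => h (by rw [h2]; simp)
    exact hx (abs_le.1 (hs x h1))
  have hd : ContDiff ℝ (⊤ : ℕ∞) (fun u : ℝ => ((θ u : ℝ) : ℂ)) :=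
    Complex.ofRealCLM.contDiff.comp hθ
  set φ : SchwartzMap ℝ ℂ := hc.toSchwartzMap hd with hφ
  have e1 : ∀ y, (FourierTransformInv.fourierInv φ : SchwartzMap ℝ ℂ) y = tc θ y := by
    intro y
    rw [SchwartzMap.fourierInv_coe, Real.fourierInv_eq']
    unfold tc e
    refine integral_congr_ae (Filter.Eventually.of_forall fun u => ?_)
    have e3 : φ u = ((θ u : ℝ) : ℂ) := rfl
    simp only [e3, smul_eq_mul]
    rw [mul_comm]
    congr 3
    simp only [RCLike.inner_apply, conj_trivial]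
    push_cast
    ring
  have e2 : tc θ = (FourierTransformInv.fourierInv φ : SchwartzMap ℝ ℂ) := by
    funext y
    exact (e1 y).symm
  refine ⟨by rw [e2]; exact SchwartzMap.continuous _, ?_⟩
  obtain ⟨C0, hC0, h0⟩ := (FourierTransformInv.fourierInv φ : SchwartzMap ℝ ℂ).decay 0 0
  obtain ⟨C2, hC2, h2⟩ := (FourierTransformInv.fourierInv φ : SchwartzMap ℝ ℂ).decay 2 0
  refine ⟨C0 + C2, by linarith, fun y => ?_⟩
  have h3 := h0 y
  have h4 := h2 y
  rw [norm_iteratedFDeriv_zero, e1] at h3 h4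
  rw [pow_zero, one_mul] at h3
  rw [Real.norm_eq_abs, sq_abs] at h4
  linarith

theorem gA_eq (θ : ℝ → ℝ) (L : ℝ) (hL : 0 < L) (a : ℤ) (g : ℝ × ℝ → ℂ) (z : ℝ × ℝ) :
    gA θ L a g z = ∫ y : ℝ, (tc θ y * g (z.1 - L * y, z.2)) * e (a * y) := by
  have h1 := Measure.integral_comp_div (fun y : ℝ => (tc θ y * g (z.1 - L * y, z.2)) * e (a * y)) L
  rw [abs_of_pos hL] at h1
  have h2 : gA θ L a g z = ((1 / L : ℝ) : ℂ) * ∫ x : ℝ, (tc θ (x / L) *
      g (z.1 - L * (x / L), z.2)) * e (a * (x / L)) := by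
    unfold gA tc
    rw [← integral_const_mul]
    refine integral_congr_ae (Filter.Eventually.of_forall fun x => ?_)
    have e1 : L * (x / L) = x := by field_simp
    have e2 : (a : ℝ) * (x / L) = a * x / L := by ring
    simp only [e1, e2]
    ring
  rw [h2, h1, Complex.real_smul, ← mul_assoc, ← Complex.ofReal_mul, one_div, inv_mul_cancel₀ hL.ne',
    Complex.ofReal_one, one_mul]

theorem f_int (θ : ℝ → ℝ) (L : ℝ) (hL : 0 < L) (g : ℝ × ℝ → ℂ) (hg : Good g) (z : ℝ × ℝ)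
    (hc : Continuous (tc θ)) (C : ℝ) (hC : ∀ y, ‖tc θ y‖ * (1 + y ^ 2) ≤ C) :
    Integrable (fun y : ℝ => tc θ y * g (z.1 - L * y, z.2)) := by
  obtain ⟨hm, ⟨M, hM⟩, B, hB⟩ := hg
  have hmeas : Measurable (fun y : ℝ => tc θ y * g (z.1 - L * y, z.2)) :=
    hc.measurable.mul (hm.comp (by fun_prop))
  have hC0 : 0 ≤ C := le_trans (by positivity) (hC 0)
  have hM0 : 0 ≤ M := (norm_nonneg _).trans (hM 0)
  have hbd : ∀ y : ℝ, ‖tc θ y * g (z.1 - L * y, z.2)‖ ≤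
      (Icc (-((|z.1| + B) / L)) ((|z.1| + B) / L)).indicator (fun _ => C * M) y := by
    intro y
    by_cases hy : g (z.1 - L * y, z.2) = 0
    · rw [hy, mul_zero, norm_zero]
      exact indicator_nonneg (fun _ _ => by positivity) _
    · have h1 := (hB _ hy).1
      simp only at h1
      have h2 : |L * y| ≤ |z.1| + B := by
        have : L * y = z.1 - (z.1 - L * y) := by ring
        rw [this]
        exact (abs_sub _ _).trans (by linarith)
      have h3 : |y| ≤ (|z.1| + B) / L := by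
        rw [le_div_iff₀ hL]
        rw [abs_mul, abs_of_pos hL] at h2
        linarith
      rw [indicator_of_mem (show y ∈ Icc (-((|z.1| + B) / L)) ((|z.1| + B) / L) from abs_le.1 h3),
        norm_mul]
      have h4 : ‖tc θ y‖ ≤ C := by
        refine le_trans ?_ (hC y)
        exact le_mul_of_one_le_right (norm_nonneg _) (by nlinarith [sq_nonneg y])
      exact mul_le_mul h4 (hM _) (norm_nonneg _) hC0
  refine Integrable.mono' ?_ hmeas.aestronglyMeasurable (Filter.Eventually.of_forall hbd)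
  rw [integrable_indicator_iff measurableSet_Icc]
  exact integrableOn_const (by simp) enorm_ne_top

theorem subst (L : ℝ) (hL : 0 < L) (F : ℝ → ℝ≥0∞) (hF : Measurable F) :
    ∫⁻ x, F x = ENNReal.ofReal L * ∫⁻ y, F (L * y) := by
  have h1 := Real.smul_map_volume_mul_left hL.ne'
  conv_lhs => rw [← h1]
  rw [lintegral_smul_measure, lintegral_map hF (measurable_const_mul L), abs_of_pos hL, smul_eq_mul]

end P4aux

open P4aux

theorem bessel_e : ∃ C : ℝ, 0 < C ∧ ∀ h : ℝ → ℂ, Integrable h → ∀ S : Finset ℤ,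
    ∑ a ∈ S, ‖∫ y : ℝ, h y * e ((a : ℝ) * y)‖ₑ ^ 2 ≤
      ENNReal.ofReal C * ∫⁻ y : ℝ, ENNReal.ofReal (1 + y ^ 2) * ‖h y‖ₑ ^ 2 := by
  refine ⟨KK.toReal + 1, by positivity, fun h hh S => (bessel_main h hh S).trans ?_⟩
  refine mul_le_mul_left ?_ _
  calc KK = ENNReal.ofReal KK.toReal := (ENNReal.ofReal_toReal KK_ne).symm
    _ ≤ _ := ENNReal.ofReal_le_ofReal (by linarith)

theorem sq_pointwise (θ : ℝ → ℝ) (hθ : ContDiff ℝ (⊤ : ℕ∞) θ) (hs : ∀ x, θ x ≠ 0 → |x| ≤ 2) :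
    ∃ C : ℝ, 0 < C ∧ ∀ L : ℝ, 1 ≤ L → ∀ g : ℝ × ℝ → ℂ, Good g → ∀ (S : Finset ℤ) (z : ℝ × ℝ),
      ∑ a ∈ S, ‖gA θ L a g z‖ₑ ^ 2 ≤ ENNReal.ofReal C * ∫⁻ x : ℝ,
        ENNReal.ofReal (L / (L ^ 2 + x ^ 2)) * ‖g (z.1 - x, z.2)‖ₑ ^ 2 := by
  obtain ⟨hc, C1, hC1, hd⟩ := tc_facts θ hθ hs
  obtain ⟨C, hC, hb⟩ := bessel_e
  refine ⟨C * C1 ^ 2, by positivity, fun L hL g hg S z => ?_⟩
  have hL0 : 0 < L := by linarith
  have h1 := hb (fun y : ℝ => tc θ y * g (z.1 - L * y, z.2)) (f_int θ L hL0 g hg z hc C1 hd) S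
  have e1 : ∑ a ∈ S, ‖gA θ L a g z‖ₑ ^ 2 = ∑ a ∈ S,
      ‖∫ y : ℝ, (tc θ y * g (z.1 - L * y, z.2)) * e ((a : ℝ) * y)‖ₑ ^ 2 :=
    Finset.sum_congr rfl fun a _ => by rw [gA_eq θ L hL0]
  rw [e1]
  refine h1.trans ?_
  rw [ENNReal.ofReal_mul hC.le, mul_assoc]
  refine mul_le_mul_right ?_ _
  rw [subst L hL0 (fun x => ENNReal.ofReal (L / (L ^ 2 + x ^ 2)) * ‖g (z.1 - x, z.2)‖ₑ ^ 2)
    (Measurable.mul (by fun_prop) (((hg.1.comp (by fun_prop)).enorm).pow_const 2)),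
    ← mul_assoc, ← ENNReal.ofReal_mul (by positivity), ← lintegral_const_mul' _ _ ENNReal.ofReal_ne_top]
  refine lintegral_mono fun y => ?_
  simp only
  rw [enorm_mul, mul_pow, ← mul_assoc, ← mul_assoc]
  refine mul_le_mul_left ?_ _
  rw [← ofReal_norm, ← ENNReal.ofReal_pow (norm_nonneg _), ← ENNReal.ofReal_mul (by positivity),
    ← ENNReal.ofReal_mul (by positivity)]
  apply ENNReal.ofReal_le_ofReal
  have h2 : ‖tc θ y‖ ≤ C1 / (1 + y ^ 2) := by
    rw [le_div_iff₀ (by positivity)]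
    exact hd y
  calc (1 + y ^ 2) * ‖tc θ y‖ ^ 2 ≤ (1 + y ^ 2) * (C1 / (1 + y ^ 2)) ^ 2 := by gcongr
    _ = C1 ^ 2 * L * (L / (L ^ 2 + (L * y) ^ 2)) := by
        have h3 : L ^ 2 + (L * y) ^ 2 = L ^ 2 * (1 + y ^ 2) := by ring
        rw [h3]
        have h4 : (1 + y ^ 2) ≠ 0 := by positivity
        field_simp

end Pool.Agent.H438R2.RZ
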