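import Mathlib
import Pool.Agent.H438R2.RZ.Defs
set_option autoImplicit false

/-! # P5: a cap operator is a convolution of the strip projection with the cap kernel -/

namespace Pool.Agent.H438R2.RZ

open MeasureTheory Set Complex
open scoped ENNReal FourierTransform

namespace P5aux

theorem e_add (x y : ℝ) : e (x + y) = e x * e y := by
  unfold e
  rw [← Complex.exp_add]
  congr 1
  push_cast
  ring

theorem norm_e (x : ℝ) : ‖e x‖ = 1 := Complex.norm_exp_ofReal_mul_I _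

theorem cont_e : Continuous e := by
  unfold e
  fun_prop

theorem fourier_eq (f : ℝ → ℂ) (w : ℝ) : 𝓕 f w = ∫ v, e (-(v * w)) * f v := by
  rw [Real.fourier_real_eq_integral_exp_smul]
  refine integral_congr_ae (Filter.Eventually.of_forall fun v => ?_)
  simp only [smul_eq_mul, e]
  congr 3
  push_cast
  ring

theorem fourierInv_eq (f : ℝ → ℂ) (w : ℝ) : 𝓕⁻ f w = ∫ v, f v * e (v * w) := by
  rw [Real.fourierInv_eq_fourier_neg, fourier_eq]
  refine integral_congr_ae (Filter.Eventually.of_forall fun v => ?_)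
  simp only []
  rw [mul_comm]
  congr 2
  ring

/-- the window is a Schwartz function: its inverse Fourier transform is integrable -/
theorem window (θ : ℝ → ℝ) (hθ : ContDiff ℝ (⊤ : ℕ∞) θ) (hs : ∀ x, θ x ≠ 0 → |x| ≤ 2) :
    Integrable (𝓕⁻ (fun u : ℝ => ((θ u : ℝ) : ℂ))) ∧
      𝓕 (𝓕⁻ (fun u : ℝ => ((θ u : ℝ) : ℂ))) = fun u : ℝ => ((θ u : ℝ) : ℂ) := by
  have h1 : ContDiff ℝ (⊤ : ℕ∞) (fun u : ℝ => ((θ u : ℝ) : ℂ)) :=
    Complex.ofRealCLM.contDiff.comp hθ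
  have h2 : HasCompactSupport (fun u : ℝ => ((θ u : ℝ) : ℂ)) := by
    refine HasCompactSupport.of_support_subset_isCompact (isCompact_closedBall (0 : ℝ) 2) ?_
    intro x hx
    rw [Function.mem_support] at hx
    rw [mem_closedBall_zero_iff, Real.norm_eq_abs]
    refine hs x ?_
    intro h0
    exact hx (by rw [h0, Complex.ofReal_zero])
  set S : SchwartzMap ℝ ℂ := h2.toSchwartzMap h1 with hS
  have h3 : (S : ℝ → ℂ) = fun u : ℝ => ((θ u : ℝ) : ℂ) := rfl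
  refine ⟨?_, ?_⟩
  · rw [← h3, ← SchwartzMap.fourierInv_coe]
    exact (𝓕⁻ S).integrable
  · rw [← h3]
    exact S.continuous.fourier_fourierInv_eq S.integrable (by
      rw [← SchwartzMap.fourier_coe]
      exact (𝓕 S).integrable)

/-- the kernel of the strip projection -/
noncomputable def kk (Θ : ℝ → ℂ) (L : ℝ) (a : ℤ) (x : ℝ) : ℂ :=
  Θ (x / L) * ((1 / L : ℝ) : ℂ) * e ((a : ℝ) * x / L)

theorem kk_int (Θ : ℝ → ℂ) (hΘ : Integrable Θ) (L : ℝ) (hL : 0 < L) (a : ℤ) :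
    Integrable (kk Θ L a) := by
  have h1 : Integrable (fun x : ℝ => Θ (x / L) * ((1 / L : ℝ) : ℂ)) :=
    (hΘ.comp_div hL.ne').mul_const _
  refine h1.mul_bdd (c := 1) ?_ ?_
  · refine Continuous.aestronglyMeasurable ?_
    exact cont_e.comp (by fun_prop)
  · exact Filter.Eventually.of_forall fun x => (norm_e _).le

theorem kk_ft (Θ : ℝ → ℂ) (L : ℝ) (hL : 0 < L) (a : ℤ) (ξ : ℝ) :
    ∫ x, kk Θ L a x * e (-(x * ξ)) = 𝓕 Θ (L * ξ - a) := by
  rw [fourier_eq]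
  have h1 := MeasureTheory.Measure.integral_comp_div
    (fun y : ℝ => e (-(y * (L * ξ - a))) * Θ y) L
  have h2 : ∫ x, kk Θ L a x * e (-(x * ξ)) =
      ∫ x, ((1 / L : ℝ) : ℂ) * (e (-(x / L * (L * ξ - a))) * Θ (x / L)) := by
    refine integral_congr_ae (Filter.Eventually.of_forall fun x => ?_)
    simp only [kk]
    have h3 : e (-(x / L * (L * ξ - a))) = e ((a : ℝ) * x / L) * e (-(x * ξ)) := by
      rw [← e_add]
      congr 1
      field_simp
      ring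
    rw [h3]
    ring
  rw [h2, integral_const_mul, h1, abs_of_pos hL, Complex.real_smul, ← mul_assoc,
    ← Complex.ofReal_mul, one_div, inv_mul_cancel₀ hL.ne', Complex.ofReal_one, one_mul]

theorem good_integrable {g : ℝ × ℝ → ℂ} (h : Good g) : Integrable g := by
  obtain ⟨hm, ⟨M, hM⟩, ⟨B, hB⟩⟩ := h
  have hs : Function.support g ⊆ Icc (-B) B ×ˢ Icc (-B) B := by
    intro z hz
    have h1 := hB z hz
    exact ⟨abs_le.mp h1.1, abs_le.mp h1.2⟩
  have h1 : IntegrableOn g (Icc (-B) B ×ˢ Icc (-B) B) := by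
    refine Measure.integrableOn_of_bounded (M := M) ?_ hm.aestronglyMeasurable ?_
    · exact ((isCompact_Icc.prod isCompact_Icc).measure_lt_top).ne
    · exact Filter.Eventually.of_forall hM
  exact (integrableOn_iff_integrable_of_support_subset hs).mp h1

/-- joint integrability of the convolution integrand -/
theorem joint (k : ℝ → ℂ) (hk : Integrable k) {g : ℝ × ℝ → ℂ} (hg : Good g) :
    Integrable (fun p : ℝ × (ℝ × ℝ) => k p.1 * g (p.2.1 - p.1, p.2.2))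
      (volume.prod volume) := by
  have hgi := good_integrable hg
  have hsub : ∀ (x : ℝ) (z : ℝ × ℝ), ((z.1 - x, z.2) : ℝ × ℝ) = z - (x, 0) := by
    intro x z
    ext <;> simp
  have hmeas : AEStronglyMeasurable
      (fun p : ℝ × (ℝ × ℝ) => k p.1 * g (p.2.1 - p.1, p.2.2)) (volume.prod volume) := by
    refine hk.aestronglyMeasurable.comp_fst.mul ?_
    refine (hg.1.comp ?_).aestronglyMeasurable
    fun_prop
  rw [integrable_prod_iff hmeas]
  refine ⟨Filter.Eventually.of_forall fun x => ?_, ?_⟩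
  · simp only [hsub]
    exact (hgi.comp_sub_right (x, 0)).const_mul _
  · have h1 : (fun x : ℝ => ∫ z : ℝ × ℝ, ‖k x * g (z.1 - x, z.2)‖) =
        fun x => ‖k x‖ * ∫ z : ℝ × ℝ, ‖g z‖ := by
      funext x
      simp only [hsub, norm_mul]
      rw [integral_const_mul]
      congr 1
      exact integral_sub_right_eq_self (fun z => ‖g z‖) ((x, 0) : ℝ × ℝ)
    simp only [h1]
    exact hk.norm.mul_const _

/-- convolution in the first variable -/
noncomputable def GG (k : ℝ → ℂ) (g : ℝ × ℝ → ℂ) (z : ℝ × ℝ) : ℂ :=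
  ∫ x : ℝ, k x * g (z.1 - x, z.2)

theorem GG_int (k : ℝ → ℂ) (hk : Integrable k) {g : ℝ × ℝ → ℂ} (hg : Good g) :
    Integrable (GG k g) := (joint k hk hg).integral_prod_right

theorem GG_ft (k : ℝ → ℂ) (hk : Integrable k) {g : ℝ × ℝ → ℂ} (hg : Good g) (ξ : ℝ × ℝ) :
    ft (GG k g) ξ = (∫ x, k x * e (-(x * ξ.1))) * ft g ξ := by
  have hj := joint k hk hg
  have hj2 : Integrable (fun p : ℝ × (ℝ × ℝ) => e (-(p.2.1 * ξ.1 + p.2.2 * ξ.2)) *
      (k p.1 * g (p.2.1 - p.1, p.2.2))) (volume.prod volume) := by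
    refine hj.bdd_mul (c := 1) ?_ ?_
    · refine Continuous.aestronglyMeasurable ?_
      exact cont_e.comp (by fun_prop)
    · exact Filter.Eventually.of_forall fun x => (norm_e _).le
  have h1 : ft (GG k g) ξ = ∫ z : ℝ × ℝ, ∫ x : ℝ, e (-(z.1 * ξ.1 + z.2 * ξ.2)) *
      (k x * g (z.1 - x, z.2)) := by
    unfold ft GG
    refine integral_congr_ae (Filter.Eventually.of_forall fun z => ?_)
    simp only []
    rw [integral_const_mul]
  rw [h1, ← integral_integral_swap (f := fun (x : ℝ) (z : ℝ × ℝ) =>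
    e (-(z.1 * ξ.1 + z.2 * ξ.2)) * (k x * g (z.1 - x, z.2))) hj2, ← integral_mul_const]
  refine integral_congr_ae (Filter.Eventually.of_forall fun x => ?_)
  simp only []
  have hsub : ∀ (z : ℝ × ℝ), ((z.1 - x, z.2) : ℝ × ℝ) = z - (x, 0) := by
    intro z
    ext <;> simp
  have h2 : (∫ z : ℝ × ℝ, e (-(z.1 * ξ.1 + z.2 * ξ.2)) * (k x * g (z.1 - x, z.2))) =
      ∫ z : ℝ × ℝ, (k x * e (-(x * ξ.1))) *
        (fun w : ℝ × ℝ => e (-(w.1 * ξ.1 + w.2 * ξ.2)) * g w) (z - (x, 0)) := by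
    refine integral_congr_ae (Filter.Eventually.of_forall fun z => ?_)
    simp only [← hsub]
    have h3 : e (-(z.1 * ξ.1 + z.2 * ξ.2)) =
        e (-(x * ξ.1)) * e (-((z.1 - x) * ξ.1 + z.2 * ξ.2)) := by
      rw [← e_add]
      congr 1
      ring
    rw [h3]
    ring
  rw [h2, integral_const_mul]
  exact congrArg _ (integral_sub_right_eq_self (μ := (volume : Measure (ℝ × ℝ)))
    (fun w : ℝ × ℝ => e (-(w.1 * ξ.1 + w.2 * ξ.2)) * g w) ((x, 0) : ℝ × ℝ))

/-- Fubini for the multiplier operator -/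
theorem Pl_conv (m : ℝ × ℝ → ℂ) (hm : Integrable m) (G : ℝ × ℝ → ℂ) (hG : Integrable G)
    (z : ℝ × ℝ) : (∫ ξ : ℝ × ℝ, m ξ * ft G ξ * e (z.1 * ξ.1 + z.2 * ξ.2)) =
    ∫ z' : ℝ × ℝ, (∫ ξ : ℝ × ℝ, m ξ * e ((z - z').1 * ξ.1 + (z - z').2 * ξ.2)) * G z' := by
  have hj : Integrable (fun p : (ℝ × ℝ) × (ℝ × ℝ) =>
      e ((z - p.2).1 * p.1.1 + (z - p.2).2 * p.1.2) * (m p.1 * G p.2)) (volume.prod volume) := by
    refine (hm.mul_prod hG).bdd_mul (c := 1) ?_ ?_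
    · refine Continuous.aestronglyMeasurable ?_
      exact cont_e.comp (by fun_prop)
    · exact Filter.Eventually.of_forall fun x => (norm_e _).le
  have h1 : (∫ ξ : ℝ × ℝ, m ξ * ft G ξ * e (z.1 * ξ.1 + z.2 * ξ.2)) =
      ∫ ξ : ℝ × ℝ, ∫ z' : ℝ × ℝ, e ((z - z').1 * ξ.1 + (z - z').2 * ξ.2) * (m ξ * G z') := by
    refine integral_congr_ae (Filter.Eventually.of_forall fun ξ => ?_)
    simp only [ft]
    rw [mul_right_comm, ← integral_const_mul]
    refine integral_congr_ae (Filter.Eventually.of_forall fun z' => ?_)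
    simp only [Prod.fst_sub, Prod.snd_sub]
    have h2 : e ((z.1 - z'.1) * ξ.1 + (z.2 - z'.2) * ξ.2) =
        e (z.1 * ξ.1 + z.2 * ξ.2) * e (-(z'.1 * ξ.1 + z'.2 * ξ.2)) := by
      rw [← e_add]
      congr 1
      ring
    rw [h2]
    ring
  rw [h1, integral_integral_swap (f := fun (ξ z' : ℝ × ℝ) =>
    e ((z - z').1 * ξ.1 + (z - z').2 * ξ.2) * (m ξ * G z')) hj]
  refine integral_congr_ae (Filter.Eventually.of_forall fun z' => ?_)
  simp only []
  rw [← integral_mul_const]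
  refine integral_congr_ae (Filter.Eventually.of_forall fun ξ => ?_)
  simp only []
  ring

theorem mC_int (ψ α β η : ℝ → ℝ) (hψ : Bump ψ) (hab : Arc α β) (hη : Win η) (L : ℝ)
    (hL : 0 < L) (a : ℤ) : Integrable (mC ψ α β η L a) := by
  have c1 : Continuous ψ := hψ.1.continuous
  have c2 : Continuous α := hab.1.continuous
  have c3 : Continuous β := hab.2.1.continuous
  have c4 : Continuous η := hη.1.continuous
  have hc : Continuous (mC ψ α β η L a) := by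
    unfold mC mA
    refine Continuous.mul ?_ ?_
    · exact Complex.continuous_ofReal.comp (c4.comp (by fun_prop))
    · refine Complex.continuous_ofReal.comp (Continuous.mul (Continuous.mul ?_ ?_) ?_)
      · exact c2.comp continuous_fst
      · exact c3.comp continuous_snd
      · exact c1.comp (by fun_prop)
  refine hc.integrable_of_hasCompactSupport ?_
  refine HasCompactSupport.of_support_subset_isCompact (isCompact_closedBall (0 : ℝ × ℝ) 1) ?_
  intro ξ hξ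
  rw [Function.mem_support] at hξ
  have h1 : ψ (L ^ 2 * (1 - (ξ.1 ^ 2 + ξ.2 ^ 2))) ≠ 0 := by
    intro h0
    apply hξ
    unfold mC mA
    rw [h0, mul_zero, Complex.ofReal_zero, mul_zero]
  have h2 := (hψ.2 _ h1).1
  have h3 : 0 < 1 - (ξ.1 ^ 2 + ξ.2 ^ 2) := by
    by_contra hcon
    push Not at hcon
    have : L ^ 2 * (1 - (ξ.1 ^ 2 + ξ.2 ^ 2)) ≤ 0 :=
      mul_nonpos_of_nonneg_of_nonpos (by positivity) hcon
    linarith
  rw [mem_closedBall_zero_iff, Prod.norm_def, max_le_iff, Real.norm_eq_abs, Real.norm_eq_abs,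
    ← sq_le_one_iff_abs_le_one, ← sq_le_one_iff_abs_le_one]
  constructor <;> nlinarith [sq_nonneg ξ.1, sq_nonneg ξ.2]

theorem lint_cauchy (c : ℝ) (hc : 0 < c) :
    ∫⁻ x : ℝ, ENNReal.ofReal (1 / (c * (1 + (x / c) ^ 2))) = ENNReal.ofReal Real.pi := by
  have h1 : ∀ x : ℝ, 1 / (c * (1 + (x / c) ^ 2)) =
      c⁻¹ * (fun y : ℝ => (1 + y ^ 2)⁻¹) (x / c) := by
    intro x
    simp only []
    rw [one_div, mul_inv]
  simp_rw [h1]
  rw [← ofReal_integral_eq_lintegral_ofReal]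
  · congr 1
    rw [integral_const_mul, MeasureTheory.Measure.integral_comp_div
      (fun y : ℝ => (1 + y ^ 2)⁻¹) c, integral_univ_inv_one_add_sq, abs_of_pos hc, smul_eq_mul, ← mul_assoc,
      inv_mul_cancel₀ hc.ne', one_mul]
  · exact (integrable_inv_one_add_sq.comp_div hc.ne').const_mul _
  · exact Filter.Eventually.of_forall fun x => by positivity

theorem lint_Bk (L γ : ℝ) (hL : 0 < L) :
    ∫⁻ z : ℝ × ℝ, ENNReal.ofReal (Bk L γ z) = ENNReal.ofReal Real.pi ^ 2 := by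
  have hmeas : Measurable fun z : ℝ × ℝ => ENNReal.ofReal (Bk L γ z) := by
    unfold Bk
    fun_prop
  rw [Measure.volume_eq_prod, lintegral_prod_symm _ hmeas.aemeasurable]
  have h1 : ∀ x y : ℝ, ENNReal.ofReal (Bk L γ (x, y)) =
      (fun t : ℝ => ENNReal.ofReal (1 / (L * (1 + (t / L) ^ 2)))) (x + γ * y) *
        ENNReal.ofReal (1 / (L ^ 2 * (1 + (y / L ^ 2) ^ 2))) := by
    intro x y
    simp only [Bk]
    rw [← ENNReal.ofReal_mul (by positivity)]
    congr 1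
    field_simp
  have h2 : ∀ y : ℝ, ∫⁻ x : ℝ, ENNReal.ofReal (Bk L γ (x, y)) =
      ENNReal.ofReal Real.pi * ENNReal.ofReal (1 / (L ^ 2 * (1 + (y / L ^ 2) ^ 2))) := by
    intro y
    simp only [h1]
    rw [lintegral_mul_const', lintegral_add_right_eq_self
      (fun t : ℝ => ENNReal.ofReal (1 / (L * (1 + (t / L) ^ 2)))), lint_cauchy L hL]
    exact ENNReal.ofReal_ne_top
  simp only [h2]
  rw [lintegral_const_mul', lint_cauchy (L ^ 2) (by positivity), sq]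
  exact ENNReal.ofReal_ne_top

/-- Cauchy-Schwarz -/
theorem cs {X : Type} [MeasurableSpace X] (μ : Measure X) (k G : X → ℝ≥0∞)
    (hk : AEMeasurable k μ) (hG : AEMeasurable G μ) :
    (∫⁻ x, k x * G x ∂μ) ^ 2 ≤ (∫⁻ x, k x ∂μ) * ∫⁻ x, k x * G x ^ 2 ∂μ := by
  have h1 := ENNReal.lintegral_mul_le_Lp_mul_Lq μ Real.HolderConjugate.two_two
    (hk.pow_const (1 / 2 : ℝ)) ((hk.pow_const (1 / 2 : ℝ)).mul hG)
  have h2 : ∀ x, (k x ^ (1 / 2 : ℝ)) * (k x ^ (1 / 2 : ℝ)) = k x := by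
    intro x
    rw [← ENNReal.rpow_add_of_nonneg _ _ (by norm_num) (by norm_num)]
    norm_num
  have h3 : (fun x => k x ^ (1 / 2 : ℝ)) * ((fun x => k x ^ (1 / 2 : ℝ)) * G) =
      fun x => k x * G x := by
    funext x
    simp only [Pi.mul_apply]
    rw [← mul_assoc, h2]
  have h4 : ∀ x, (k x ^ (1 / 2 : ℝ)) ^ (2 : ℝ) = k x := by
    intro x
    rw [← ENNReal.rpow_mul]
    norm_num
  have h5 : ∀ x, (((fun x => k x ^ (1 / 2 : ℝ)) * G) x) ^ (2 : ℝ) = k x * G x ^ 2 := by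
    intro x
    simp only [Pi.mul_apply]
    rw [ENNReal.mul_rpow_of_nonneg _ _ (by norm_num), h4, ENNReal.rpow_two]
  rw [h3] at h1
  simp only [h4, h5] at h1
  have h6 : ∀ A : ℝ≥0∞, (A ^ (1 / 2 : ℝ)) ^ 2 = A := by
    intro A
    rw [← ENNReal.rpow_two, ← ENNReal.rpow_mul]
    norm_num
  calc (∫⁻ x, k x * G x ∂μ) ^ 2 ≤
      ((∫⁻ x, k x ∂μ) ^ (1 / 2 : ℝ) * (∫⁻ x, k x * G x ^ 2 ∂μ) ^ (1 / 2 : ℝ)) ^ 2 :=
        pow_le_pow_left' h1 2
    _ = _ := by rw [mul_pow, h6, h6]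

end P5aux

open P5aux in
/-- P5, with the bound for the cap kernel as a hypothesis -/
theorem cap_conv_of (ψ α β η θ : ℝ → ℝ) (hψ : Bump ψ) (hab : Arc α β) (hη : Win η)
    (hθ : ContDiff ℝ (⊤ : ℕ∞) θ) (hs : ∀ x, θ x ≠ 0 → |x| ≤ 2) (h1 : ∀ x, |x| ≤ 1 → θ x = 1)
    (hker : ∃ C : ℝ, 0 < C ∧ ∀ L : ℝ, 10 ≤ L → ∀ a : ℤ, |(a : ℝ)| ≤ 9 / 10 * L → ∀ z : ℝ × ℝ,
      ‖∫ ξ : ℝ × ℝ, mC ψ α β η L a ξ * e (z.1 * ξ.1 + z.2 * ξ.2)‖ ≤ C * Bk L (sl L a) z) :
    ∃ C : ℝ, 0 < C ∧ ∀ L : ℝ, 10 ≤ L → ∀ a : ℤ, |(a : ℝ)| ≤ 9 / 10 * L →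
      ∀ g : ℝ × ℝ → ℂ, Good g → ∀ z : ℝ × ℝ,
      ‖Pl (mC ψ α β η L a) g z‖ₑ ^ 2 ≤ ENNReal.ofReal C *
        ∫⁻ z', ENNReal.ofReal (Bk L (sl L a) (z - z')) * ‖gA θ L a g z'‖ₑ ^ 2 := by
  obtain ⟨C, hC, hker⟩ := hker
  refine ⟨C ^ 2 * Real.pi ^ 2, by positivity, ?_⟩
  intro L hL a ha g hg z
  have hL0 : 0 < L := by linarith
  obtain ⟨hΘ, hinv⟩ := window θ hθ hs
  set Θ : ℝ → ℂ := 𝓕⁻ (fun u : ℝ => ((θ u : ℝ) : ℂ)) with hΘdef
  have hk := kk_int Θ hΘ L hL0 a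
  have hGeq : gA θ L a g = GG (kk Θ L a) g := by
    funext z
    unfold gA GG kk
    refine integral_congr_ae (Filter.Eventually.of_forall fun x => ?_)
    simp only []
    rw [hΘdef, fourierInv_eq]
  have hGi : Integrable (gA θ L a g) := by
    rw [hGeq]
    exact GG_int _ hk hg
  have hGft : ∀ ξ : ℝ × ℝ, ft (gA θ L a g) ξ = ((θ (L * ξ.1 - a) : ℝ) : ℂ) * ft g ξ := by
    intro ξ
    rw [hGeq, GG_ft _ hk hg, kk_ft Θ L hL0 a, hinv]
  have hmul : ∀ ξ : ℝ × ℝ, mC ψ α β η L a ξ * ft (gA θ L a g) ξ =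
      mC ψ α β η L a ξ * ft g ξ := by
    intro ξ
    rw [hGft, ← mul_assoc]
    congr 1
    by_cases h0 : η (L * ξ.1 - a) = 0
    · unfold mC
      rw [h0]
      simp
    · rw [h1 _ (hη.2 _ h0), Complex.ofReal_one, mul_one]
  have hPl : Pl (mC ψ α β η L a) g z = ∫ z' : ℝ × ℝ,
      (∫ ξ : ℝ × ℝ, mC ψ α β η L a ξ * e ((z - z').1 * ξ.1 + (z - z').2 * ξ.2)) *
        gA θ L a g z' := by
    rw [← Pl_conv _ (mC_int ψ α β η hψ hab hη L hL0 a) _ hGi z]
    unfold Pl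
    simp only [hmul]
  have hb : ‖Pl (mC ψ α β η L a) g z‖ₑ ≤ ∫⁻ z' : ℝ × ℝ,
      ENNReal.ofReal (C * Bk L (sl L a) (z - z')) * ‖gA θ L a g z'‖ₑ := by
    rw [hPl]
    refine (enorm_integral_le_lintegral_enorm _).trans ?_
    refine lintegral_mono fun z' => ?_
    simp only [enorm_mul]
    refine mul_le_mul_left ?_ _
    rw [← ofReal_norm]
    exact ENNReal.ofReal_le_ofReal (hker L hL a ha (z - z'))
  have hkm : Measurable fun z' : ℝ × ℝ => ENNReal.ofReal (C * Bk L (sl L a) (z - z')) := by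
    unfold Bk
    fun_prop
  have hcs := cs volume (fun z' : ℝ × ℝ => ENNReal.ofReal (C * Bk L (sl L a) (z - z')))
    (fun z' => ‖gA θ L a g z'‖ₑ) hkm.aemeasurable hGi.aestronglyMeasurable.enorm
  refine (pow_le_pow_left' hb 2).trans (hcs.trans ?_)
  have e1 : ∀ z' : ℝ × ℝ, ENNReal.ofReal (C * Bk L (sl L a) (z - z')) =
      ENNReal.ofReal C * ENNReal.ofReal (Bk L (sl L a) (z - z')) := fun z' =>
    ENNReal.ofReal_mul hC.le
  simp only [e1, mul_assoc]
  rw [lintegral_const_mul' _ _ ENNReal.ofReal_ne_top, lintegral_const_mul' _ _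
    ENNReal.ofReal_ne_top, lintegral_sub_left_eq_self
      (fun w : ℝ × ℝ => ENNReal.ofReal (Bk L (sl L a) w)) z, lint_Bk L _ hL0]
  refine le_of_eq ?_
  rw [ENNReal.ofReal_mul (by positivity), ENNReal.ofReal_pow hC.le,
    ENNReal.ofReal_pow Real.pi_pos.le]
  ring

end Pool.Agent.H438R2.RZ
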