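import Mathlib
set_option autoImplicit false

/-!
(P6) the Nikodym maximal function over boxes, L2 bound by Schur's test.
-/

namespace Pool.Agent.H438R2.RZ.P6aux

open MeasureTheory Set
open scoped ENNReal

/-- arithmetic mean and geometric mean. -/
theorem two_mul_le_add_sq' (a b : ℝ≥0∞) : 2 * (a * b) ≤ a ^ 2 + b ^ 2 := by
  rcases eq_or_ne a ∞ with rfl | ha
  · simp
  rcases eq_or_ne b ∞ with rfl | hb
  · simp
  lift a to NNReal using ha
  lift b to NNReal using hb
  have h : 2 * (a * b) ≤ a ^ 2 + b ^ 2 := by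
    have := two_mul_le_add_sq (a : ℝ) (b : ℝ)
    rw [← NNReal.coe_le_coe]
    push_cast
    linarith
  exact_mod_cast h

theorem amgm_B (B a b : ℝ≥0∞) (hB0 : B ≠ 0) (hB : B ≠ ∞) :
    2 * (a * b) ≤ B * a ^ 2 + B⁻¹ * b ^ 2 := by
  have h1 : (2 * (a * b)) = B⁻¹ * (2 * ((B * a) * b)) := by
    have : B⁻¹ * (2 * ((B * a) * b)) = (B⁻¹ * B) * (2 * (a * b)) := by ring
    rw [this, ENNReal.inv_mul_cancel hB0 hB, one_mul]
  rw [h1]
  have h2 : B * a ^ 2 + B⁻¹ * b ^ 2 = B⁻¹ * ((B * a) ^ 2 + b ^ 2) := by
    have : B⁻¹ * ((B * a) ^ 2 + b ^ 2) = (B⁻¹ * B) * (B * a ^ 2) + B⁻¹ * b ^ 2 := by ring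
    rw [this, ENNReal.inv_mul_cancel hB0 hB, one_mul]
  rw [h2]
  exact mul_le_mul_right (two_mul_le_add_sq' _ _) _

section Schur

variable {α β : Type*} [MeasurableSpace α] [MeasurableSpace β] {μ : Measure α} {ν : Measure β}
  [SigmaFinite μ] [SigmaFinite ν]

theorem schur_aux (K : α → β → ℝ≥0∞) (hK : Measurable (Function.uncurry K)) (B : ℝ≥0∞)
    (hB0 : B ≠ 0) (hB : B ≠ ∞)
    (h : ∀ z, ∫⁻ z', ∫⁻ y, K z y * K z' y ∂ν ∂μ ≤ B) (G : β → ℝ≥0∞) (hG : Measurable G)
    (H : α → ℝ≥0∞) (hH : Measurable H) (hle : ∀ z, H z ≤ ∫⁻ y, K z y * G y ∂ν)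
    (hfin : ∫⁻ z, H z ^ 2 ∂μ ≠ ∞) :
    ∫⁻ z, H z ^ 2 ∂μ ≤ B * ∫⁻ y, G y ^ 2 ∂ν := by
  set P : β → ℝ≥0∞ := fun y => ∫⁻ z, K z y * H z ∂μ with hP
  have hKz : ∀ z, Measurable (K z) := fun z => hK.comp measurable_prodMk_left
  have hKy : ∀ y, Measurable (fun z => K z y) := fun y => hK.comp measurable_prodMk_right
  have hPm : Measurable P := by
    have : Measurable (Function.uncurry fun (y : β) (z : α) => K z y * H z) :=
      (hK.comp measurable_swap).mul (hH.comp measurable_snd)
    exact this.lintegral_prod_right'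
  have e1 : ∫⁻ z, H z ^ 2 ∂μ ≤ ∫⁻ y, G y * P y ∂ν := by
    calc ∫⁻ z, H z ^ 2 ∂μ ≤ ∫⁻ z, (∫⁻ y, K z y * G y ∂ν) * H z ∂μ := by
          apply lintegral_mono
          intro z
          simp only [pow_two]
          exact mul_le_mul_left (hle z) _
      _ = ∫⁻ z, ∫⁻ y, K z y * G y * H z ∂ν ∂μ := by
          apply lintegral_congr
          intro z
          have hm : Measurable fun y => K z y * G y := (hKz z).mul hG
          rw [lintegral_mul_const _ hm]
      _ = ∫⁻ y, ∫⁻ z, K z y * G y * H z ∂μ ∂ν := by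
          rw [lintegral_lintegral_swap]
          exact ((hK.mul (hG.comp measurable_snd)).mul (hH.comp measurable_fst)).aemeasurable
      _ = ∫⁻ y, G y * P y ∂ν := by
          apply lintegral_congr
          intro y
          have hm : Measurable fun z => K z y * H z := (hKy y).mul hH
          simp only [hP]
          rw [← lintegral_const_mul _ hm]
          apply lintegral_congr
          intro z
          ring
  have e2 : 2 * ∫⁻ y, P y ^ 2 ∂ν ≤ 2 * (B * ∫⁻ z, H z ^ 2 ∂μ) := by
    have hk : Measurable (Function.uncurry fun (z z' : α) => ∫⁻ y, K z y * K z' y ∂ν) := by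
      have : Measurable (Function.uncurry fun (p : α × α) (y : β) => K p.1 y * K p.2 y) :=
        (hK.comp ((measurable_fst.comp measurable_fst).prodMk measurable_snd)).mul
          (hK.comp ((measurable_snd.comp measurable_fst).prodMk measurable_snd))
      exact this.lintegral_prod_right'
    have hksymm : ∀ z z', ∫⁻ y, K z y * K z' y ∂ν = ∫⁻ y, K z' y * K z y ∂ν := by
      intro z z'
      apply lintegral_congr
      intro y
      ring
    have s1 : ∫⁻ y, P y ^ 2 ∂ν =
        ∫⁻ z, ∫⁻ z', H z * H z' * ∫⁻ y, K z y * K z' y ∂ν ∂μ ∂μ := by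
      calc ∫⁻ y, P y ^ 2 ∂ν = ∫⁻ y, ∫⁻ z, ∫⁻ z', K z y * H z * (K z' y * H z') ∂μ ∂μ ∂ν := by
            apply lintegral_congr
            intro y
            have hm : Measurable fun z => K z y * H z := (hKy y).mul hH
            simp only [hP]
            rw [pow_two, ← lintegral_mul_const _ hm]
            apply lintegral_congr
            intro z
            rw [← lintegral_const_mul _ hm]
        _ = ∫⁻ z, ∫⁻ y, ∫⁻ z', K z y * H z * (K z' y * H z') ∂μ ∂ν ∂μ := by
            rw [lintegral_lintegral_swap]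
            apply Measurable.aemeasurable
            have : Measurable (Function.uncurry fun (p : β × α) (z' : α) =>
                K p.2 p.1 * H p.2 * (K z' p.1 * H z')) := by
              refine Measurable.mul (Measurable.mul ?_ ?_) (Measurable.mul ?_ ?_)
              · exact hK.comp ((measurable_snd.comp measurable_fst).prodMk
                  (measurable_fst.comp measurable_fst))
              · exact hH.comp (measurable_snd.comp measurable_fst)
              · exact hK.comp (measurable_snd.prodMk (measurable_fst.comp measurable_fst))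
              · exact hH.comp measurable_snd
            exact this.lintegral_prod_right'
        _ = ∫⁻ z, ∫⁻ z', ∫⁻ y, K z y * H z * (K z' y * H z') ∂ν ∂μ ∂μ := by
            apply lintegral_congr
            intro z
            rw [lintegral_lintegral_swap]
            apply Measurable.aemeasurable
            refine Measurable.mul (Measurable.mul ?_ ?_) (Measurable.mul ?_ ?_)
            · exact (hKz z).comp measurable_fst
            · exact measurable_const
            · exact hK.comp measurable_swap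
            · exact hH.comp measurable_snd
        _ = ∫⁻ z, ∫⁻ z', H z * H z' * ∫⁻ y, K z y * K z' y ∂ν ∂μ ∂μ := by
            apply lintegral_congr
            intro z
            apply lintegral_congr
            intro z'
            have hm : Measurable fun y => K z y * K z' y := (hKz z).mul (hKz z')
            rw [← lintegral_const_mul _ hm]
            apply lintegral_congr
            intro y
            ring
    have s2 : 2 * ∫⁻ z, ∫⁻ z', H z * H z' * ∫⁻ y, K z y * K z' y ∂ν ∂μ ∂μ ≤
        ∫⁻ z, ∫⁻ z', (H z ^ 2 + H z' ^ 2) * ∫⁻ y, K z y * K z' y ∂ν ∂μ ∂μ := by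
      rw [← lintegral_const_mul]
      · apply lintegral_mono
        intro z
        simp only
        rw [← lintegral_const_mul]
        · apply lintegral_mono
          intro z'
          simp only
          rw [← mul_assoc]
          exact mul_le_mul_left (two_mul_le_add_sq' _ _) _
        · exact ((measurable_const).mul hH).mul (hk.comp measurable_prodMk_left)
      · have : Measurable (Function.uncurry fun (z z' : α) =>
            H z * H z' * ∫⁻ y, K z y * K z' y ∂ν) :=
          ((hH.comp measurable_fst).mul (hH.comp measurable_snd)).mul hk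
        exact this.lintegral_prod_right'
    have s3 : ∫⁻ z, ∫⁻ z', H z ^ 2 * ∫⁻ y, K z y * K z' y ∂ν ∂μ ∂μ ≤ B * ∫⁻ z, H z ^ 2 ∂μ := by
      rw [← lintegral_const_mul _ (hH.pow_const 2)]
      apply lintegral_mono
      intro z
      have hm : Measurable fun z' => ∫⁻ y, K z y * K z' y ∂ν := hk.comp measurable_prodMk_left
      simp only
      rw [lintegral_const_mul _ hm, mul_comm]
      exact mul_le_mul_left (h z) _
    have s4 : ∫⁻ z, ∫⁻ z', H z' ^ 2 * ∫⁻ y, K z y * K z' y ∂ν ∂μ ∂μ ≤
        B * ∫⁻ z, H z ^ 2 ∂μ := by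
      rw [lintegral_lintegral_swap]
      · refine le_trans (le_of_eq ?_) s3
        apply lintegral_congr
        intro z
        apply lintegral_congr
        intro z'
        rw [hksymm]
      · exact (((hH.pow_const 2).comp measurable_snd).mul hk).aemeasurable
    have s5 : ∫⁻ z, ∫⁻ z', (H z ^ 2 + H z' ^ 2) * ∫⁻ y, K z y * K z' y ∂ν ∂μ ∂μ =
        ∫⁻ z, ∫⁻ z', H z ^ 2 * ∫⁻ y, K z y * K z' y ∂ν ∂μ ∂μ +
        ∫⁻ z, ∫⁻ z', H z' ^ 2 * ∫⁻ y, K z y * K z' y ∂ν ∂μ ∂μ := by
      rw [← lintegral_add_left]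
      · apply lintegral_congr
        intro z
        rw [← lintegral_add_left]
        · apply lintegral_congr
          intro z'
          ring
        · exact measurable_const.mul (hk.comp measurable_prodMk_left)
      · have : Measurable (Function.uncurry fun (z z' : α) =>
            H z ^ 2 * ∫⁻ y, K z y * K z' y ∂ν) :=
          ((hH.pow_const 2).comp measurable_fst).mul hk
        exact this.lintegral_prod_right'
    rw [s1]
    refine s2.trans ?_
    rw [s5, two_mul]
    exact add_le_add s3 s4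
  have e3 : ∫⁻ y, P y ^ 2 ∂ν ≤ B * ∫⁻ z, H z ^ 2 ∂μ :=
    (ENNReal.mul_le_mul_iff_right (by norm_num) (by norm_num)).1 e2
  have e4 : 2 * ∫⁻ z, H z ^ 2 ∂μ ≤ B * ∫⁻ y, G y ^ 2 ∂ν + ∫⁻ z, H z ^ 2 ∂μ := by
    calc 2 * ∫⁻ z, H z ^ 2 ∂μ ≤ 2 * ∫⁻ y, G y * P y ∂ν := mul_le_mul_right e1 _
      _ = ∫⁻ y, 2 * (G y * P y) ∂ν := by
          have hm : Measurable fun y => G y * P y := hG.mul hPm
          rw [lintegral_const_mul _ hm]
      _ ≤ ∫⁻ y, (B * G y ^ 2 + B⁻¹ * P y ^ 2) ∂ν := lintegral_mono fun y => amgm_B B _ _ hB0 hB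
      _ = B * ∫⁻ y, G y ^ 2 ∂ν + B⁻¹ * ∫⁻ y, P y ^ 2 ∂ν := by
          have hm1 : Measurable fun y => G y ^ 2 := hG.pow_const 2
          have hm2 : Measurable fun y => P y ^ 2 := hPm.pow_const 2
          have hm3 : Measurable fun y => B * G y ^ 2 := measurable_const.mul hm1
          rw [lintegral_add_left hm3, lintegral_const_mul _ hm1, lintegral_const_mul _ hm2]
      _ ≤ B * ∫⁻ y, G y ^ 2 ∂ν + B⁻¹ * (B * ∫⁻ z, H z ^ 2 ∂μ) := by
          gcongr
      _ = B * ∫⁻ y, G y ^ 2 ∂ν + ∫⁻ z, H z ^ 2 ∂μ := by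
          rw [← mul_assoc, ENNReal.inv_mul_cancel hB0 hB, one_mul]
  rw [two_mul] at e4
  exact (ENNReal.add_le_add_iff_right hfin).1 e4

theorem schur_tt (K : α → β → ℝ≥0∞) (hK : Measurable (Function.uncurry K)) (B : ℝ≥0∞)
    (hB0 : B ≠ 0) (hB : B ≠ ∞)
    (h : ∀ z, ∫⁻ z', ∫⁻ y, K z y * K z' y ∂ν ∂μ ≤ B) (G : β → ℝ≥0∞) (hG : Measurable G) :
    ∫⁻ z, (∫⁻ y, K z y * G y ∂ν) ^ 2 ∂μ ≤ B * ∫⁻ y, G y ^ 2 ∂ν := by
  set M : α → ℝ≥0∞ := fun z => ∫⁻ y, K z y * G y ∂ν with hM
  have hMm : Measurable M := by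
    have : Measurable (Function.uncurry fun (z : α) (y : β) => K z y * G y) :=
      hK.mul (hG.comp measurable_snd)
    exact this.lintegral_prod_right'
  set Hn : ℕ → α → ℝ≥0∞ := fun n => (spanningSets μ n).indicator fun z => min (M z) n with hHn
  have hHnm : ∀ n, Measurable (Hn n) := fun n =>
    (hMm.min measurable_const).indicator (measurableSet_spanningSets μ n)
  have hb : ∀ n, ∫⁻ z, Hn n z ^ 2 ∂μ ≤ B * ∫⁻ y, G y ^ 2 ∂ν := by
    intro n
    apply schur_aux K hK B hB0 hB h G hG (Hn n) (hHnm n)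
    · intro z
      by_cases hz : z ∈ spanningSets μ n
      · rw [hHn]; simp only [Set.indicator_of_mem hz]; exact min_le_left _ _
      · rw [hHn]; simp only [Set.indicator_of_notMem hz]; exact bot_le
    · refine ne_of_lt ?_
      calc ∫⁻ z, Hn n z ^ 2 ∂μ ≤ ∫⁻ z, (spanningSets μ n).indicator (fun _ => (n : ℝ≥0∞) ^ 2) z ∂μ := by
            apply lintegral_mono
            intro z
            by_cases hz : z ∈ spanningSets μ n
            · rw [hHn]; simp only [Set.indicator_of_mem hz]
              gcongr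
              exact min_le_right _ _
            · rw [hHn]; simp only [Set.indicator_of_notMem hz]; simp
        _ = (n : ℝ≥0∞) ^ 2 * μ (spanningSets μ n) := by
            rw [lintegral_indicator (measurableSet_spanningSets μ n), setLIntegral_const]
        _ < ∞ := ENNReal.mul_lt_top (ENNReal.pow_lt_top (ENNReal.natCast_lt_top n))
            (measure_spanningSets_lt_top μ n)
  have hlim : ∀ z, Filter.Tendsto (fun n => Hn n z ^ 2) Filter.atTop (nhds (M z ^ 2)) := by
    intro z
    have h1 : Filter.Tendsto (fun n : ℕ => min (M z) (n : ℝ≥0∞)) Filter.atTop (nhds (M z)) := by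
      have := (tendsto_const_nhds (x := M z) (f := Filter.atTop (α := ℕ))).min
        ENNReal.tendsto_nat_nhds_top
      simpa using this
    have h2 : Filter.Tendsto (fun n => Hn n z) Filter.atTop (nhds (M z)) := by
      refine h1.congr' ?_
      have hz : z ∈ ⋃ n, spanningSets μ n := by rw [iUnion_spanningSets]; trivial
      obtain ⟨N, hN⟩ := Set.mem_iUnion.1 hz
      filter_upwards [Filter.eventually_ge_atTop N] with n hn
      have : z ∈ spanningSets μ n := monotone_spanningSets μ hn hN
      rw [hHn]; simp only [Set.indicator_of_mem this]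
    exact ((ENNReal.continuous_pow 2).tendsto _).comp h2
  calc ∫⁻ z, M z ^ 2 ∂μ = ∫⁻ z, Filter.liminf (fun n => Hn n z ^ 2) Filter.atTop ∂μ := by
        apply lintegral_congr
        intro z
        exact (hlim z).liminf_eq.symm
    _ ≤ Filter.liminf (fun n => ∫⁻ z, Hn n z ^ 2 ∂μ) Filter.atTop :=
        lintegral_liminf_le fun n => (hHnm n).pow_const 2
    _ ≤ B * ∫⁻ y, G y ^ 2 ∂ν := by
        refine Filter.liminf_le_of_frequently_le' ?_
        exact Filter.Frequently.of_forall hb

end Schur

/-- a measurable choice of the maximum. -/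
theorem exists_argmax {α : Type*} [MeasurableSpace α] (S : Finset ℤ) (hS : S.Nonempty)
    (f : ℤ → α → ℝ≥0∞) (hf : ∀ a ∈ S, Measurable (f a)) :
    ∃ s : α → ℤ, Measurable s ∧ (∀ z, s z ∈ S) ∧ ∀ z, (⨆ a ∈ S, f a z) = f (s z) z := by
  induction hS using Finset.Nonempty.cons_induction with
  | singleton a =>
    refine ⟨fun _ => a, measurable_const, fun z => by simp, fun z => by simp⟩
  | cons b S hb hS ih =>
    obtain ⟨s, hs1, hs2, hs3⟩ := ih fun a ha => hf a (Finset.mem_cons_of_mem ha)
    have hm : Measurable fun z => ⨆ a ∈ S, f a z :=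
      Measurable.biSup (S : Set ℤ) S.countable_toSet fun a ha =>
        hf a (Finset.mem_cons_of_mem ha)
    have hbm := hf b (Finset.mem_cons_self b S)
    classical
    refine ⟨fun z => if (⨆ a ∈ S, f a z) ≤ f b z then b else s z, ?_, ?_, ?_⟩
    · exact Measurable.ite (measurableSet_le hm hbm) measurable_const hs1
    · intro z
      dsimp only
      split_ifs
      · exact Finset.mem_cons_self b S
      · exact Finset.mem_cons_of_mem (hs2 z)
    · intro z
      dsimp only
      have h1 : (⨆ a ∈ Finset.cons b S hb, f a z) = f b z ⊔ ⨆ a ∈ S, f a z := by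
        rw [Finset.cons_eq_insert, Finset.iSup_insert]
      rw [h1]
      split_ifs with h
      · exact sup_eq_left.2 h
      · rw [sup_eq_right.2 (le_of_lt (not_le.1 h)), hs3]


/-- the tube -/
def T (l w g : ℝ) (z : ℝ × ℝ) : Set (ℝ × ℝ) :=
  {z' : ℝ × ℝ | |z'.2 - z.2| ≤ l ∧ |(z'.1 - z.1) + g * (z'.2 - z.2)| ≤ w}

theorem measurableSet_T (l w g : ℝ) (z : ℝ × ℝ) : MeasurableSet (T l w g z) := by
  have h1 : MeasurableSet {z' : ℝ × ℝ | |z'.2 - z.2| ≤ l} :=
    measurableSet_le (by fun_prop) (by fun_prop)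
  have h2 : MeasurableSet {z' : ℝ × ℝ | |(z'.1 - z.1) + g * (z'.2 - z.2)| ≤ w} :=
    measurableSet_le (by fun_prop) (by fun_prop)
  exact h1.inter h2

/-- the majorant of the kernel -/
noncomputable def psi (l w e : ℝ) : ℝ≥0∞ :=
  if |e| ≤ 8 * (w + l) then ENNReal.ofReal (32 * w ^ 2 * l / (|e| + 4 * w)) else 0

theorem measurable_psi (l w : ℝ) : Measurable (psi l w) := by
  unfold psi
  refine Measurable.ite (measurableSet_le (by fun_prop) (by fun_prop)) ?_ measurable_const
  exact ENNReal.measurable_ofReal.comp (by fun_prop)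

/-- volume of the set of heights -/
theorem vol_heights {l w : ℝ} (hl : 0 < l) (hw : 0 < w) (d e c : ℝ) (hd : |d| ≤ 6) :
    ENNReal.ofReal (2 * w) * volume {y : ℝ | |y - c| ≤ l ∧ |e + d * (y - c)| ≤ 2 * w} ≤
      psi l w e := by
  have he0 := abs_nonneg e
  by_cases h1 : |e| ≤ 8 * (w + l)
  · unfold psi
    rw [if_pos h1]
    have hpos : 0 < |e| + 4 * w := by linarith
    by_cases h2 : |e| < 4 * w
    · have hv : volume {y : ℝ | |y - c| ≤ l ∧ |e + d * (y - c)| ≤ 2 * w} ≤
          ENNReal.ofReal (2 * l) := by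
        calc volume {y : ℝ | |y - c| ≤ l ∧ |e + d * (y - c)| ≤ 2 * w} ≤
            volume (Icc (c - l) (c + l)) := by
              apply measure_mono
              rintro y ⟨hy, -⟩
              rw [abs_le] at hy
              exact ⟨by linarith, by linarith⟩
          _ = ENNReal.ofReal (2 * l) := by rw [Real.volume_Icc]; congr 1; ring
      calc ENNReal.ofReal (2 * w) * volume {y : ℝ | |y - c| ≤ l ∧ |e + d * (y - c)| ≤ 2 * w} ≤
          ENNReal.ofReal (2 * w) * ENNReal.ofReal (2 * l) := mul_le_mul_right hv _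
        _ = ENNReal.ofReal (4 * w * l) := by
            rw [← ENNReal.ofReal_mul (by linarith)]; congr 1; ring
        _ ≤ ENNReal.ofReal (32 * w ^ 2 * l / (|e| + 4 * w)) := by
            apply ENNReal.ofReal_le_ofReal
            rw [le_div_iff₀ hpos]
            have : 0 < w * l := mul_pos hw hl
            nlinarith
    · push Not at h2
      by_cases h3 : {y : ℝ | |y - c| ≤ l ∧ |e + d * (y - c)| ≤ 2 * w} = ∅
      · rw [h3]; simp
      · obtain ⟨y0, hy1, hy2⟩ := Set.nonempty_iff_ne_empty.2 h3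
        have hd1 : |e| ≤ 2 * (|d| * l) := by
          have t1 : |e| ≤ |e + d * (y0 - c)| + |d * (y0 - c)| := by
            have := abs_sub (e + d * (y0 - c)) (d * (y0 - c))
            simpa using this
          rw [abs_mul] at t1
          have t2 : |d| * |y0 - c| ≤ |d| * l := mul_le_mul_of_nonneg_left hy1 (abs_nonneg _)
          linarith
        have hep : 0 < |e| := by linarith
        have hdp : 0 < |d| := by
          by_contra hcon
          have : |d| = 0 := le_antisymm (not_lt.1 hcon) (abs_nonneg _)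
          rw [this] at hd1
          linarith
        have hd0 : d ≠ 0 := abs_pos.1 hdp
        have hv : volume {y : ℝ | |y - c| ≤ l ∧ |e + d * (y - c)| ≤ 2 * w} ≤
            ENNReal.ofReal (4 * w / |d|) := by
          calc volume {y : ℝ | |y - c| ≤ l ∧ |e + d * (y - c)| ≤ 2 * w} ≤
              volume (Icc (c - e / d - 2 * w / |d|) (c - e / d + 2 * w / |d|)) := by
                apply measure_mono
                rintro y ⟨-, hy⟩
                have t : |(y - (c - e / d))| ≤ 2 * w / |d| := by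
                  rw [le_div_iff₀ hdp, ← abs_mul]
                  have : (y - (c - e / d)) * d = e + d * (y - c) := by field_simp; ring
                  rw [this]; exact hy
                rw [abs_le] at t
                exact ⟨by linarith, by linarith⟩
            _ = ENNReal.ofReal (4 * w / |d|) := by
                rw [Real.volume_Icc]; congr 1; ring
        calc ENNReal.ofReal (2 * w) * volume {y : ℝ | |y - c| ≤ l ∧ |e + d * (y - c)| ≤ 2 * w} ≤
            ENNReal.ofReal (2 * w) * ENNReal.ofReal (4 * w / |d|) := mul_le_mul_right hv _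
          _ = ENNReal.ofReal (8 * w ^ 2 / |d|) := by
              rw [← ENNReal.ofReal_mul (by linarith)]; congr 1; ring
          _ ≤ ENNReal.ofReal (32 * w ^ 2 * l / (|e| + 4 * w)) := by
              apply ENNReal.ofReal_le_ofReal
              rw [div_le_div_iff₀ hdp hpos]
              have : 0 < w ^ 2 := pow_pos hw 2
              nlinarith
  · push Not at h1
    have h3 : {y : ℝ | |y - c| ≤ l ∧ |e + d * (y - c)| ≤ 2 * w} = ∅ := by
      apply Set.eq_empty_of_forall_notMem
      rintro y ⟨hy1, hy2⟩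
      have t1 : |e| ≤ |e + d * (y - c)| + |d * (y - c)| := by
        have := abs_sub (e + d * (y - c)) (d * (y - c))
        simpa using this
      rw [abs_mul] at t1
      have t2 : |d| * |y - c| ≤ 6 * l := mul_le_mul hd hy1 (abs_nonneg _) (by norm_num)
      linarith
    rw [h3]; simp

theorem vol_inter {l w : ℝ} (hl : 0 < l) (hw : 0 < w) (g g' : ℝ) (hg : |g| ≤ 3) (hg' : |g'| ≤ 3)
    (z z' : ℝ × ℝ) : volume (T l w g z ∩ T l w g' z') ≤
      if |z'.2 - z.2| ≤ 2 * l then psi l w ((z'.1 - z.1) + g * (z'.2 - z.2)) else 0 := by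
  split_ifs with h
  · set e := (z'.1 - z.1) + g * (z'.2 - z.2) with he
    have hd : |g - g'| ≤ 6 := by
      have := abs_sub g g'
      linarith
    refine le_trans ?_ (vol_heights hl hw (g - g') e z'.2 hd)
    have hms : MeasurableSet (T l w g z ∩ T l w g' z') :=
      (measurableSet_T _ _ _ _).inter (measurableSet_T _ _ _ _)
    have hme : MeasurableSet {y : ℝ | |y - z'.2| ≤ l ∧ |e + (g - g') * (y - z'.2)| ≤ 2 * w} := by
      have h1 : MeasurableSet {y : ℝ | |y - z'.2| ≤ l} :=
        measurableSet_le (by fun_prop) (by fun_prop)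
      have h2 : MeasurableSet {y : ℝ | |e + (g - g') * (y - z'.2)| ≤ 2 * w} :=
        measurableSet_le (by fun_prop) (by fun_prop)
      exact h1.inter h2
    rw [Measure.volume_eq_prod, Measure.prod_apply_symm hms, ← setLIntegral_const,
      ← lintegral_indicator hme]
    apply lintegral_mono
    intro y
    simp only
    by_cases hy : y ∈ {y : ℝ | |y - z'.2| ≤ l ∧ |e + (g - g') * (y - z'.2)| ≤ 2 * w}
    · rw [Set.indicator_of_mem hy]
      calc volume ((fun x => (x, y)) ⁻¹' (T l w g z ∩ T l w g' z')) ≤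
          volume (Icc (z.1 - g * (y - z.2) - w) (z.1 - g * (y - z.2) + w)) := by
            apply measure_mono
            rintro x ⟨⟨-, hx⟩, -⟩
            simp only at hx
            rw [abs_le] at hx
            exact ⟨by linarith [hx.1], by linarith [hx.2]⟩
        _ = ENNReal.ofReal (2 * w) := by rw [Real.volume_Icc]; congr 1; ring
    · rw [Set.indicator_of_notMem hy]
      have : (fun x => (x, y)) ⁻¹' (T l w g z ∩ T l w g' z') = ∅ := by
        apply Set.eq_empty_of_forall_notMem
        rintro x ⟨⟨h1, h2⟩, ⟨h3, h4⟩⟩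
        simp only at h1 h2 h3 h4
        apply hy
        refine ⟨h3, ?_⟩
        have : e + (g - g') * (y - z'.2) =
            ((x - z.1) + g * (y - z.2)) - ((x - z'.1) + g' * (y - z'.2)) := by
          rw [he]; ring
        rw [this]
        have := abs_sub ((x - z.1) + g * (y - z.2)) ((x - z'.1) + g' * (y - z'.2))
        linarith
      rw [this]; simp
  · have : T l w g z ∩ T l w g' z' = ∅ := by
      apply Set.eq_empty_of_forall_notMem
      rintro y ⟨⟨h1, -⟩, ⟨h3, -⟩⟩
      apply h
      have e1 : z'.2 - z.2 = (y.2 - z.2) - (y.2 - z'.2) := by ring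
      rw [e1]
      have := abs_sub (y.2 - z.2) (y.2 - z'.2)
      linarith
    rw [this]; simp

/-- the integral of the majorant -/
theorem lintegral_psi {l w : ℝ} (hl : 0 < l) (hw : 0 < w) :
    ∫⁻ e, psi l w e ≤ ENNReal.ofReal (64 * w ^ 2 * l * Real.log (3 + 2 * (l / w))) := by
  set R : ℝ := 8 * (w + l) with hR
  have hRp : 0 < R := by positivity
  have h1 : ∀ e, psi l w e =
      (Icc (-R) R).indicator (fun e => ENNReal.ofReal (32 * w ^ 2 * l / (|e| + 4 * w))) e := by
    intro e
    unfold psi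
    by_cases h : |e| ≤ R
    · have hm : e ∈ Icc (-R) R := abs_le.1 h
      rw [if_pos h, Set.indicator_of_mem hm]
    · have hm : e ∉ Icc (-R) R := fun hh => h (abs_le.2 hh)
      rw [if_neg h, Set.indicator_of_notMem hm]
  rw [lintegral_congr h1, lintegral_indicator measurableSet_Icc]
  have hc : Continuous fun e : ℝ => 32 * w ^ 2 * l / (|e| + 4 * w) := by
    refine Continuous.div continuous_const (by fun_prop) fun x => ?_
    have := abs_nonneg x
    positivity
  rw [← ofReal_integral_eq_lintegral_ofReal (hc.integrableOn_Icc)]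
  · apply ENNReal.ofReal_le_ofReal
    apply le_of_eq
    rw [integral_Icc_eq_integral_Ioc, ← intervalIntegral.integral_of_le (by linarith),
      ← intervalIntegral.integral_add_adjacent_intervals (b := 0) (hc.intervalIntegrable _ _)
        (hc.intervalIntegrable _ _)]
    have e1 : ∫ x in (-R)..0, 32 * w ^ 2 * l / (|x| + 4 * w) =
        ∫ x in (0:ℝ)..R, 32 * w ^ 2 * l / (|x| + 4 * w) := by
      have := intervalIntegral.integral_comp_neg (a := (0:ℝ)) (b := R)
        (fun x => 32 * w ^ 2 * l / (|x| + 4 * w))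
      simp only [abs_neg, neg_zero] at this
      exact this.symm
    have e2 : ∫ x in (0:ℝ)..R, 32 * w ^ 2 * l / (|x| + 4 * w) =
        32 * w ^ 2 * l * Real.log ((R + 4 * w) / (4 * w)) := by
      have e3 : ∫ x in (0:ℝ)..R, 32 * w ^ 2 * l / (|x| + 4 * w) =
          ∫ x in (0:ℝ)..R, 32 * w ^ 2 * l * (1 / (x + 4 * w)) := by
        apply intervalIntegral.integral_congr
        intro x hx
        rw [Set.uIcc_of_le hRp.le] at hx
        simp only
        rw [abs_of_nonneg hx.1]
        ring
      rw [e3, intervalIntegral.integral_const_mul,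
        intervalIntegral.integral_comp_add_right (fun x => 1 / x) (4 * w),
        integral_one_div_of_pos (by positivity) (by positivity)]
      simp
    rw [e1, e2]
    have e4 : (R + 4 * w) / (4 * w) = 3 + 2 * (l / w) := by
      rw [hR]; field_simp; ring
    rw [e4]
    ring
  · exact Filter.Eventually.of_forall fun x => by
      have := abs_nonneg x
      positivity

theorem meas_ker (l w : ℝ) (s : ℝ × ℝ → ℝ) (hs : Measurable s) (c : ℝ≥0∞) :
    Measurable (Function.uncurry fun (z z' : ℝ × ℝ) =>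
      c * (T l w (s z) z).indicator (fun _ => (1 : ℝ≥0∞)) z') := by
  have hset : MeasurableSet {p : (ℝ × ℝ) × (ℝ × ℝ) | p.2 ∈ T l w (s p.1) p.1} := by
    have h1 : MeasurableSet {p : (ℝ × ℝ) × (ℝ × ℝ) | |p.2.2 - p.1.2| ≤ l} :=
      measurableSet_le (by fun_prop) (by fun_prop)
    have h2 : MeasurableSet {p : (ℝ × ℝ) × (ℝ × ℝ) |
        |(p.2.1 - p.1.1) + s p.1 * (p.2.2 - p.1.2)| ≤ w} :=
      measurableSet_le (by fun_prop) (by fun_prop)
    exact h1.inter h2
  have h3 : Measurable ({p : (ℝ × ℝ) × (ℝ × ℝ) | p.2 ∈ T l w (s p.1) p.1}.indicator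
      fun _ => (1 : ℝ≥0∞)) := measurable_const.indicator hset
  exact measurable_const.mul h3

theorem ker_int (l w g : ℝ) (z : ℝ × ℝ) (c : ℝ≥0∞) (G : ℝ × ℝ → ℝ≥0∞) (hG : Measurable G) :
    ∫⁻ y, c * (T l w g z).indicator (fun _ => (1 : ℝ≥0∞)) y * G y =
      c * ∫⁻ y in T l w g z, G y := by
  rw [← lintegral_indicator (measurableSet_T l w g z),
    ← lintegral_const_mul _ (hG.indicator (measurableSet_T l w g z))]
  apply lintegral_congr
  intro y
  by_cases hy : y ∈ T l w g z
  · simp [Set.indicator_of_mem hy]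
  · simp [Set.indicator_of_notMem hy]

theorem ker_ker (l w g g' : ℝ) (z z' : ℝ × ℝ) (c : ℝ≥0∞) :
    ∫⁻ y, c * (T l w g z).indicator (fun _ => (1 : ℝ≥0∞)) y *
      (c * (T l w g' z').indicator (fun _ => (1 : ℝ≥0∞)) y) =
      c ^ 2 * volume (T l w g z ∩ T l w g' z') := by
  have hm := (measurableSet_T l w g z).inter (measurableSet_T l w g' z')
  rw [← one_mul (volume (T l w g z ∩ T l w g' z')), ← setLIntegral_const,
    ← lintegral_indicator hm, ← lintegral_const_mul _ (measurable_const.indicator hm)]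
  apply lintegral_congr
  intro y
  by_cases hy : y ∈ T l w g z
  · by_cases hy' : y ∈ T l w g' z'
    · rw [Set.indicator_of_mem hy, Set.indicator_of_mem hy',
        Set.indicator_of_mem (show y ∈ T l w g z ∩ T l w g' z' from ⟨hy, hy'⟩)]
      ring
    · rw [Set.indicator_of_notMem hy',
        Set.indicator_of_notMem (show y ∉ T l w g z ∩ T l w g' z' from fun h => hy' h.2)]
      simp
  · rw [Set.indicator_of_notMem hy,
      Set.indicator_of_notMem (show y ∉ T l w g z ∩ T l w g' z' from fun h => hy h.1)]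
    simp

/-- Schur's bound -/
theorem schur_bound {l w : ℝ} (hl : 0 < l) (hw : 0 < w) (γ : ℤ → ℝ) (s : ℝ × ℝ → ℤ)
    (hγ : ∀ z, |γ (s z)| ≤ 3) (z : ℝ × ℝ) :
    ∫⁻ z' : ℝ × ℝ, ENNReal.ofReal (1 / (l * w)) ^ 2 *
      volume (T l w (γ (s z)) z ∩ T l w (γ (s z')) z') ≤
      ENNReal.ofReal (512 * (1 + Real.log (1 + l / w))) := by
  set g := γ (s z) with hg
  have hψ : Measurable fun z' : ℝ × ℝ =>
      (if |z'.2 - z.2| ≤ 2 * l then psi l w ((z'.1 - z.1) + g * (z'.2 - z.2)) else 0) := by
    refine Measurable.ite (measurableSet_le (by fun_prop) (by fun_prop)) ?_ measurable_const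
    exact (measurable_psi l w).comp (by fun_prop)
  calc ∫⁻ z' : ℝ × ℝ, ENNReal.ofReal (1 / (l * w)) ^ 2 *
      volume (T l w g z ∩ T l w (γ (s z')) z') ≤
      ∫⁻ z' : ℝ × ℝ, ENNReal.ofReal (1 / (l * w)) ^ 2 *
        (if |z'.2 - z.2| ≤ 2 * l then psi l w ((z'.1 - z.1) + g * (z'.2 - z.2)) else 0) := by
        apply lintegral_mono
        intro z'
        exact mul_le_mul_right (vol_inter hl hw _ _ (hγ z) (hγ z') z z') _
    _ = ENNReal.ofReal (1 / (l * w)) ^ 2 * ∫⁻ z' : ℝ × ℝ,
        (if |z'.2 - z.2| ≤ 2 * l then psi l w ((z'.1 - z.1) + g * (z'.2 - z.2)) else 0) :=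
        lintegral_const_mul _ hψ
    _ = ENNReal.ofReal (1 / (l * w)) ^ 2 * ∫⁻ y : ℝ,
        (Icc (z.2 - 2 * l) (z.2 + 2 * l)).indicator (fun _ => ∫⁻ e, psi l w e) y := by
        congr 1
        rw [Measure.volume_eq_prod, lintegral_prod_symm' _ hψ]
        apply lintegral_congr
        intro y
        simp only
        by_cases hy : |y - z.2| ≤ 2 * l
        · have hm : y ∈ Icc (z.2 - 2 * l) (z.2 + 2 * l) := by
            rw [abs_le] at hy
            exact ⟨by linarith, by linarith⟩
          rw [Set.indicator_of_mem hm]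
          simp only [if_pos hy]
          have : ∀ x : ℝ, x - z.1 + g * (y - z.2) = x + (g * (y - z.2) - z.1) := by
            intro x; ring
          simp only [this]
          exact lintegral_add_right_eq_self (psi l w) _
        · have hm : y ∉ Icc (z.2 - 2 * l) (z.2 + 2 * l) := by
            intro hm
            apply hy
            rw [abs_le]
            exact ⟨by linarith [hm.1], by linarith [hm.2]⟩
          rw [Set.indicator_of_notMem hm]
          simp only [if_neg hy]
          simp
    _ = ENNReal.ofReal (1 / (l * w)) ^ 2 * ((∫⁻ e, psi l w e) * ENNReal.ofReal (4 * l)) := by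
        rw [lintegral_indicator measurableSet_Icc, setLIntegral_const, Real.volume_Icc]
        congr 3
        ring
    _ ≤ ENNReal.ofReal (1 / (l * w)) ^ 2 *
        (ENNReal.ofReal (64 * w ^ 2 * l * Real.log (3 + 2 * (l / w))) * ENNReal.ofReal (4 * l)) := by
        gcongr
        exact lintegral_psi hl hw
    _ = ENNReal.ofReal (256 * Real.log (3 + 2 * (l / w))) := by
        have hx : 0 < l / w := div_pos hl hw
        have hlog : 0 ≤ Real.log (3 + 2 * (l / w)) := Real.log_nonneg (by linarith)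
        rw [← ENNReal.ofReal_pow (by positivity), ← ENNReal.ofReal_mul (by positivity),
          ← ENNReal.ofReal_mul (by positivity)]
        congr 1
        field_simp
        ring
    _ ≤ ENNReal.ofReal (512 * (1 + Real.log (1 + l / w))) := by
        apply ENNReal.ofReal_le_ofReal
        have hx : 0 < l / w := div_pos hl hw
        have h1 : Real.log (3 + 2 * (l / w)) ≤ Real.log (3 * (1 + l / w)) :=
          Real.log_le_log (by linarith) (by linarith)
        rw [Real.log_mul (by norm_num) (by linarith)] at h1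
        have h2 : Real.log 3 ≤ 2 := by
          have := Real.log_le_sub_one_of_pos (show (0:ℝ) < 3 by norm_num)
          linarith
        have h3 : 0 ≤ Real.log (1 + l / w) := Real.log_nonneg (by linarith)
        linarith

end Pool.Agent.H438R2.RZ.P6aux

namespace Pool.Agent.H438R2.RZ

open MeasureTheory Set
open scoped ENNReal

theorem kak_box : ∃ C : ℝ, 0 < C ∧ ∀ l w : ℝ, 0 < l → 0 < w → ∀ S : Finset ℤ,
    ∀ γ : ℤ → ℝ, (∀ a ∈ S, |γ a| ≤ 3) → ∀ G : ℝ × ℝ → ℝ≥0∞, Measurable G →
      ∫⁻ z : ℝ × ℝ, (⨆ a ∈ S, ENNReal.ofReal (1 / (l * w)) *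
        ∫⁻ z' in {z' : ℝ × ℝ | |z'.2 - z.2| ≤ l ∧ |(z'.1 - z.1) + γ a * (z'.2 - z.2)| ≤ w},
          G z') ^ 2 ≤
      ENNReal.ofReal (C * (1 + Real.log (1 + l / w))) * ∫⁻ z, G z ^ 2 := by
  refine ⟨512, by norm_num, ?_⟩
  intro l w hl hw S γ hγ G hG
  rcases S.eq_empty_or_nonempty with rfl | hS
  · simp
  change ∫⁻ z : ℝ × ℝ, (⨆ a ∈ S, ENNReal.ofReal (1 / (l * w)) *
        ∫⁻ z' in P6aux.T l w (γ a) z, G z') ^ 2 ≤ _
  set c : ℝ≥0∞ := ENNReal.ofReal (1 / (l * w)) with hc
  have hfm : ∀ a ∈ S, Measurable fun z : ℝ × ℝ => c * ∫⁻ z' in P6aux.T l w (γ a) z, G z' := by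
    intro a _
    have h1 : Measurable (Function.uncurry fun (z y : ℝ × ℝ) =>
        c * (P6aux.T l w (γ a) z).indicator (fun _ => (1 : ℝ≥0∞)) y * G y) :=
      (P6aux.meas_ker l w (fun _ => γ a) measurable_const c).mul (hG.comp measurable_snd)
    have h2 : Measurable fun z : ℝ × ℝ =>
        ∫⁻ y, c * (P6aux.T l w (γ a) z).indicator (fun _ => (1 : ℝ≥0∞)) y * G y :=
      h1.lintegral_prod_right'
    have h3 : (fun z : ℝ × ℝ => c * ∫⁻ z' in P6aux.T l w (γ a) z, G z') = fun z : ℝ × ℝ =>
        ∫⁻ y, c * (P6aux.T l w (γ a) z).indicator (fun _ => (1 : ℝ≥0∞)) y * G y := by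
      funext z
      exact (P6aux.ker_int l w (γ a) z c G hG).symm
    rw [h3]; exact h2
  obtain ⟨s, hs1, hs2, hs3⟩ := P6aux.exists_argmax S hS
    (fun a z => c * ∫⁻ z' in P6aux.T l w (γ a) z, G z') hfm
  have hsγ : Measurable fun z => γ (s z) := (measurable_of_countable γ).comp hs1
  have hlog : 0 ≤ Real.log (1 + l / w) := by
    have : 0 < l / w := div_pos hl hw
    exact Real.log_nonneg (by linarith)
  have key := P6aux.schur_tt (μ := (volume : Measure (ℝ × ℝ))) (ν := (volume : Measure (ℝ × ℝ)))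
    (fun z y => c * (P6aux.T l w (γ (s z)) z).indicator (fun _ => (1 : ℝ≥0∞)) y)
    (P6aux.meas_ker l w (fun z => γ (s z)) hsγ c)
    (ENNReal.ofReal (512 * (1 + Real.log (1 + l / w))))
    (by
      rw [Ne, ENNReal.ofReal_eq_zero, not_le]
      positivity)
    ENNReal.ofReal_ne_top
    (by
      intro z
      refine le_trans (le_of_eq ?_) (P6aux.schur_bound hl hw γ s (fun z => hγ _ (hs2 z)) z)
      apply lintegral_congr
      intro z'
      exact P6aux.ker_ker l w _ _ z z' c) G hG
  refine le_trans (le_of_eq ?_) key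
  apply lintegral_congr
  intro z
  rw [P6aux.ker_int l w _ z c G hG, hs3 z]

end Pool.Agent.H438R2.RZ
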