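import Mathlib
import Pool.Agent.H438R2.RZ.Defs
set_option autoImplicit false

/-! # P8: L4 bound for an arc -/

namespace Pool.Agent.H438R2.RZ

open MeasureTheory Set Complex Filter
open scoped ENNReal RealInnerProductSpace Topology

namespace P8aux

lemma cont_e : Continuous e := by
  unfold e
  fun_prop

lemma norm_e (x : ℝ) : ‖e x‖ = 1 := by
  unfold e
  exact Complex.norm_exp_ofReal_mul_I _

theorem win_exists : ∃ η : ℝ → ℝ, Win η ∧ ∀ x : ℝ, HasSum (fun a : ℤ => η (x - a)) 1 := by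
  set h := Real.smoothTransition with hh
  have h0 : ∀ x : ℝ, x ≤ 0 → h x = 0 := fun x hx => Real.smoothTransition.zero_of_nonpos hx
  have h1 : ∀ x : ℝ, 1 ≤ x → h x = 1 := fun x hx => Real.smoothTransition.one_of_one_le hx
  have hc : ContDiff ℝ (⊤ : ℕ∞) h := Real.smoothTransition.contDiff
  refine ⟨fun x => h (x + 1) - h x, ⟨?_, ?_⟩, ?_⟩
  · exact (hc.comp (contDiff_id.add contDiff_const)).sub hc
  · intro x hx
    by_contra hcon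
    apply hx
    show h (x + 1) - h x = 0
    rcases lt_abs.mp (not_le.mp hcon) with h2 | h2
    · rw [h1 (x + 1) (by linarith), h1 x h2.le, sub_self]
    · rw [h0 (x + 1) (by linarith), h0 x (by linarith), sub_self]
  · intro x
    have hne : (⌊x⌋ : ℤ) ≠ ⌊x⌋ + 1 := by omega
    have hsum : ∑ a ∈ ({⌊x⌋, ⌊x⌋ + 1} : Finset ℤ), (h (x - a + 1) - h (x - a)) = 1 := by
      rw [Finset.sum_pair hne]
      have f1 := Int.floor_le x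
      have f2 := Int.lt_floor_add_one x
      have e1 : h (x - (⌊x⌋ : ℤ) + 1) = 1 := h1 _ (by linarith)
      have e2 : h (x - ((⌊x⌋ + 1 : ℤ) : ℝ)) = 0 := h0 _ (by push_cast; linarith)
      have e3 : x - ((⌊x⌋ + 1 : ℤ) : ℝ) + 1 = x - (⌊x⌋ : ℤ) := by push_cast; ring
      rw [e1, e2, e3]
      ring
    have key : HasSum (fun a : ℤ => h (x - a + 1) - h (x - a))
        (∑ a ∈ ({⌊x⌋, ⌊x⌋ + 1} : Finset ℤ), (h (x - a + 1) - h (x - a))) := by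
      apply hasSum_sum_of_ne_finset_zero
      intro a ha
      simp only [Finset.mem_insert, Finset.mem_singleton, not_or] at ha
      rcases lt_or_gt_of_ne ha.1 with h2 | h2
      · have h3 : (a : ℝ) + 1 ≤ ⌊x⌋ := by exact_mod_cast h2
        have f1 := Int.floor_le x
        rw [h1 (x - a + 1) (by linarith), h1 (x - a) (by linarith), sub_self]
      · have h3 : ⌊x⌋ + 2 ≤ a := by
          have := ha.2
          omega
        have h4 : (⌊x⌋ : ℝ) + 2 ≤ a := by exact_mod_cast h3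
        have f2 := Int.lt_floor_add_one x
        rw [h0 (x - a + 1) (by linarith), h0 (x - a) (by linarith), sub_self]
    rw [hsum] at key
    exact key

theorem theta_exists : ∃ θ : ℝ → ℝ, ContDiff ℝ (⊤ : ℕ∞) θ ∧ (∀ x, θ x ≠ 0 → |x| ≤ 2) ∧
    ∀ x, |x| ≤ 1 → θ x = 1 := by
  set h := Real.smoothTransition with hh
  have h0 : ∀ x : ℝ, x ≤ 0 → h x = 0 := fun x hx => Real.smoothTransition.zero_of_nonpos hx
  have h1 : ∀ x : ℝ, 1 ≤ x → h x = 1 := fun x hx => Real.smoothTransition.one_of_one_le hx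
  have hc : ContDiff ℝ (⊤ : ℕ∞) h := Real.smoothTransition.contDiff
  refine ⟨fun x => h (x + 2) * h (2 - x), ?_, ?_, ?_⟩
  · exact (hc.comp (contDiff_id.add contDiff_const)).mul (hc.comp (contDiff_const.sub contDiff_id))
  · intro x hx
    by_contra hcon
    apply hx
    show h (x + 2) * h (2 - x) = 0
    rcases lt_abs.mp (not_le.mp hcon) with h2 | h2
    · rw [h0 (2 - x) (by linarith), mul_zero]
    · rw [h0 (x + 2) (by linarith), zero_mul]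
  · intro x hx
    obtain ⟨h2, h3⟩ := abs_le.mp hx
    show h (x + 2) * h (2 - x) = 1
    rw [h1 _ (by linarith), h1 _ (by linarith), mul_one]

lemma meas_ft {g : ℝ × ℝ → ℂ} (hg : Measurable g) : Measurable (ft g) := by
  have h : Measurable (fun p : (ℝ × ℝ) × (ℝ × ℝ) => e (-(p.2.1 * p.1.1 + p.2.2 * p.1.2)) * g p.2) := by
    refine Measurable.mul (cont_e.measurable.comp (by fun_prop)) (hg.comp measurable_snd)
  exact h.stronglyMeasurable.integral_prod_right'.measurable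

lemma meas_Pl {m g : ℝ × ℝ → ℂ} (hm : Measurable m) (hg : Measurable g) : Measurable (Pl m g) := by
  have h : Measurable (fun p : (ℝ × ℝ) × (ℝ × ℝ) =>
      m p.2 * ft g p.2 * e (p.1.1 * p.2.1 + p.1.2 * p.2.2)) := by
    refine Measurable.mul ?_ (cont_e.measurable.comp (by fun_prop))
    exact (hm.comp measurable_snd).mul ((meas_ft hg).comp measurable_snd)
  exact h.stronglyMeasurable.integral_prod_right'.measurable

lemma meas_gA {θ : ℝ → ℝ} (hθ : Measurable θ) (L : ℝ) (a : ℤ) {g : ℝ × ℝ → ℂ} (hg : Measurable g) :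
    Measurable (gA θ L a g) := by
  have h1 : Measurable (fun x : ℝ => ∫ u : ℝ, ((θ u : ℝ) : ℂ) * e (u * (x / L))) := by
    have h : Measurable (fun p : ℝ × ℝ => ((θ p.2 : ℝ) : ℂ) * e (p.2 * (p.1 / L))) := by
      refine Measurable.mul (Complex.measurable_ofReal.comp (hθ.comp measurable_snd))
        (cont_e.measurable.comp (by fun_prop))
    exact h.stronglyMeasurable.integral_prod_right'.measurable
  have h : Measurable (fun p : (ℝ × ℝ) × ℝ =>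
      (∫ u : ℝ, ((θ u : ℝ) : ℂ) * e (u * (p.2 / L))) * ((1 / L : ℝ) : ℂ) *
        e ((a : ℝ) * p.2 / L) * g (p.1.1 - p.2, p.1.2)) := by
    refine Measurable.mul (Measurable.mul (Measurable.mul (h1.comp measurable_snd) measurable_const)
      (cont_e.measurable.comp (by fun_prop))) (hg.comp ?_)
    fun_prop
  exact h.stronglyMeasurable.integral_prod_right'.measurable

lemma meas_Bk (L γ : ℝ) : Measurable (Bk L γ) := by
  unfold Bk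
  fun_prop

/-- Cauchy-Schwarz -/
lemma cs {X : Type*} [MeasurableSpace X] (μ : Measure X) (f g : X → ℝ≥0∞) (hf : Measurable f)
    (hg : Measurable g) : (∫⁻ x, f x * g x ∂μ) ^ 2 ≤ (∫⁻ x, f x ^ 2 ∂μ) * ∫⁻ x, g x ^ 2 ∂μ := by
  have h := ENNReal.lintegral_mul_le_Lp_mul_Lq μ (p := 2) (q := 2) (by
    constructor <;> norm_num) hf.aemeasurable hg.aemeasurable
  simp only [Pi.mul_apply] at h
  have h2 : (∫⁻ x, f x * g x ∂μ) ^ 2 ≤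
      ((∫⁻ x, f x ^ (2:ℝ) ∂μ) ^ (1 / (2:ℝ)) * (∫⁻ x, g x ^ (2:ℝ) ∂μ) ^ (1 / (2:ℝ))) ^ 2 := by
    gcongr
  rw [mul_pow, ← ENNReal.rpow_natCast (_ ^ (1 / (2:ℝ))) 2, ← ENNReal.rpow_mul,
    ← ENNReal.rpow_natCast ((∫⁻ x, g x ^ (2:ℝ) ∂μ) ^ (1 / (2:ℝ))) 2, ← ENNReal.rpow_mul] at h2
  simpa using h2

lemma cs_weight {X : Type*} [MeasurableSpace X] (μ : Measure X) (w f : X → ℝ≥0∞) (hw : Measurable w)
    (hf : Measurable f) : (∫⁻ x, w x * f x ∂μ) ^ 2 ≤ (∫⁻ x, w x ∂μ) * ∫⁻ x, w x * f x ^ 2 ∂μ := by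
  have h := cs μ (fun x => w x ^ (1 / 2 : ℝ)) (fun x => w x ^ (1 / 2 : ℝ) * f x) (hw.pow_const _)
    ((hw.pow_const _).mul hf)
  have e0 : ∀ x, w x ^ (1 / 2 : ℝ) * w x ^ (1 / 2 : ℝ) = w x := by
    intro x
    rw [← ENNReal.rpow_add_of_nonneg _ _ (by norm_num) (by norm_num)]
    norm_num
  have e1 : ∀ x, w x ^ (1 / 2 : ℝ) * (w x ^ (1 / 2 : ℝ) * f x) = w x * f x := by
    intro x
    rw [← mul_assoc, e0]
  have e2 : ∀ x, (w x ^ (1 / 2 : ℝ)) ^ 2 = w x := by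
    intro x
    rw [sq, e0]
  have e3 : ∀ x, (w x ^ (1 / 2 : ℝ) * f x) ^ 2 = w x * f x ^ 2 := by
    intro x
    rw [mul_pow, e2]
  simpa only [e1, e2, e3] using h

lemma lint_w (L : ℝ) (hL : 0 < L) :
    ∫⁻ x : ℝ, ENNReal.ofReal (L / (L ^ 2 + x ^ 2)) = ENNReal.ofReal Real.pi := by
  have h1 : (fun x : ℝ => L / (L ^ 2 + x ^ 2)) = fun x => L⁻¹ * (1 + (x / L) ^ 2)⁻¹ := by
    funext x
    field_simp
  have hi : Integrable (fun x : ℝ => L / (L ^ 2 + x ^ 2)) := by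
    rw [h1]
    exact (integrable_inv_one_add_sq.comp_div hL.ne').const_mul _
  rw [← ofReal_integral_eq_lintegral_ofReal hi (Eventually.of_forall fun x => by positivity)]
  congr 1
  rw [h1, integral_const_mul, Measure.integral_comp_div (fun x : ℝ => (1 + x ^ 2)⁻¹) L,
    integral_univ_inv_one_add_sq, abs_of_pos hL, smul_eq_mul]
  field_simp

/-! ### goodness of the Fourier side -/

lemma mC_cont {ψ α β η : ℝ → ℝ} (hψ : Bump ψ) (hab : Arc α β) (hη : Win η) (L : ℝ) (a : ℤ) :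
    Continuous (mC ψ α β η L a) := by
  have c1 := hψ.1.continuous
  have c2 := hab.1.continuous
  have c3 := hab.2.1.continuous
  have c4 := hη.1.continuous
  unfold mC mA
  fun_prop

lemma mC_supp {ψ α β η : ℝ → ℝ} (hψ : Bump ψ) {L : ℝ} (hL : 0 < L) (a : ℤ) (ξ : ℝ × ℝ)
    (h : mC ψ α β η L a ξ ≠ 0) : |ξ.1| ≤ 1 ∧ |ξ.2| ≤ 1 := by
  have h1 : ψ (L ^ 2 * (1 - (ξ.1 ^ 2 + ξ.2 ^ 2))) ≠ 0 := by
    intro h0
    apply h
    simp [mC, mA, h0]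
  have h2 := (hψ.2 _ h1).1
  have h3 : 0 < L ^ 2 := by positivity
  have h4 : ξ.1 ^ 2 + ξ.2 ^ 2 ≤ 1 := by
    by_contra hcon
    push Not at hcon
    have : L ^ 2 * (1 - (ξ.1 ^ 2 + ξ.2 ^ 2)) < 0 := mul_neg_of_pos_of_neg h3 (by linarith)
    linarith
  constructor
  · rw [← sq_le_one_iff_abs_le_one]
    nlinarith [sq_nonneg ξ.2]
  · rw [← sq_le_one_iff_abs_le_one]
    nlinarith [sq_nonneg ξ.1]

lemma good_integrable {g : ℝ × ℝ → ℂ} (hg : Good g) : Integrable g := by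
  obtain ⟨h1, ⟨M, hM⟩, ⟨B, hB⟩⟩ := hg
  have hfin : volume (Icc (-B) B ×ˢ Icc (-B) B : Set (ℝ × ℝ)) ≠ ⊤ := by
    have : IsCompact (Icc (-B) B ×ˢ Icc (-B) B : Set (ℝ × ℝ)) := isCompact_Icc.prod isCompact_Icc
    exact this.measure_lt_top.ne
  have h2 : IntegrableOn g (Icc (-B) B ×ˢ Icc (-B) B) := by
    refine Measure.integrableOn_of_bounded (M := M) hfin h1.aestronglyMeasurable ?_
    exact Eventually.of_forall fun z => hM z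
  rw [integrableOn_iff_integrable_of_support_subset] at h2
  · exact h2
  · intro z hz
    have := hB z hz
    exact ⟨⟨(abs_le.mp this.1).1, (abs_le.mp this.1).2⟩, ⟨(abs_le.mp this.2).1, (abs_le.mp this.2).2⟩⟩

lemma ft_bdd (g : ℝ × ℝ → ℂ) : ∃ M : ℝ, ∀ ξ, ‖ft g ξ‖ ≤ M := by
  refine ⟨∫ z, ‖g z‖, fun ξ => ?_⟩
  unfold ft
  refine (norm_integral_le_integral_norm _).trans (le_of_eq ?_)
  congr 1
  funext z
  rw [norm_mul, norm_e, one_mul]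

lemma U_good {ψ α β η : ℝ → ℝ} (hψ : Bump ψ) (hab : Arc α β) (hη : Win η) {L : ℝ} (hL : 0 < L)
    (a : ℤ) {g : ℝ × ℝ → ℂ} (hg : Good g) : Good (fun ξ => mC ψ α β η L a ξ * ft g ξ) := by
  refine ⟨(mC_cont hψ hab hη L a).measurable.mul (meas_ft hg.1), ?_, 1, ?_⟩
  · obtain ⟨M, hM⟩ := ft_bdd g
    have hK : IsCompact (Icc (-1) 1 ×ˢ Icc (-1) 1 : Set (ℝ × ℝ)) := isCompact_Icc.prod isCompact_Icc
    obtain ⟨B, hB⟩ := hK.exists_bound_of_continuousOn (mC_cont hψ hab hη L a).continuousOn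
    refine ⟨|B| * |M|, fun ξ => ?_⟩
    rw [norm_mul]
    have h2 : ‖ft g ξ‖ ≤ |M| := (hM ξ).trans (le_abs_self _)
    have h1 : ‖mC ψ α β η L a ξ‖ ≤ |B| := by
      by_cases h0 : mC ψ α β η L a ξ = 0
      · rw [h0, norm_zero]
        exact abs_nonneg _
      · have h3 := mC_supp hψ hL a ξ h0
        refine (hB ξ ⟨⟨(abs_le.mp h3.1).1, (abs_le.mp h3.1).2⟩,
          ⟨(abs_le.mp h3.2).1, (abs_le.mp h3.2).2⟩⟩).trans (le_abs_self _)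
    gcongr
  · intro ξ hξ
    exact mC_supp hψ hL a ξ (left_ne_zero_of_mul hξ)

lemma sq_fin {U : ℝ × ℝ → ℂ} (hU : Good U) : ∫⁻ ξ, ‖U ξ‖ₑ ^ 2 ≠ ⊤ := by
  obtain ⟨M, hM⟩ := hU.2.1
  have hi := good_integrable hU
  have h1 : ∀ ξ, ‖U ξ‖ₑ ^ 2 ≤ ENNReal.ofReal M * ‖U ξ‖ₑ := by
    intro ξ
    rw [sq]
    gcongr
    rw [← ofReal_norm]
    exact ENNReal.ofReal_le_ofReal (hM ξ)
  refine ne_top_of_le_ne_top ?_ (lintegral_mono h1)
  rw [lintegral_const_mul _ hU.1.enorm]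
  exact ENNReal.mul_ne_top ENNReal.ofReal_ne_top hi.2.ne

/-- the fourth power of a cap piece is integrable -/
lemma F_fin (hpl : ∀ U : ℝ × ℝ → ℂ, Good U →
      ∫⁻ z : ℝ × ℝ, ‖∫ ξ : ℝ × ℝ, U ξ * e (z.1 * ξ.1 + z.2 * ξ.2)‖ₑ ^ 2 = ∫⁻ ξ, ‖U ξ‖ₑ ^ 2)
    {ψ α β η : ℝ → ℝ} (hψ : Bump ψ) (hab : Arc α β) (hη : Win η) {L : ℝ} (hL : 0 < L)
    (a : ℤ) {g : ℝ × ℝ → ℂ} (hg : Good g) : ∫⁻ z, ‖Pl (mC ψ α β η L a) g z‖ₑ ^ 4 ≠ ⊤ := by
  have hU := U_good hψ hab hη hL a hg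
  have hP := hpl _ hU
  have hM : ∀ z, ‖Pl (mC ψ α β η L a) g z‖ ≤ ∫ ξ, ‖mC ψ α β η L a ξ * ft g ξ‖ := by
    intro z
    unfold Pl
    refine (norm_integral_le_integral_norm _).trans (le_of_eq ?_)
    congr 1
    funext ξ
    rw [norm_mul _ (e _), norm_e, mul_one]
  set M := ∫ ξ, ‖mC ψ α β η L a ξ * ft g ξ‖ with hMdef
  have h1 : ∀ z, ‖Pl (mC ψ α β η L a) g z‖ₑ ^ 4 ≤
      ENNReal.ofReal M ^ 2 * ‖Pl (mC ψ α β η L a) g z‖ₑ ^ 2 := by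
    intro z
    have : ‖Pl (mC ψ α β η L a) g z‖ₑ ≤ ENNReal.ofReal M := by
      rw [← ofReal_norm]
      exact ENNReal.ofReal_le_ofReal (hM z)
    calc ‖Pl (mC ψ α β η L a) g z‖ₑ ^ 4 = ‖Pl (mC ψ α β η L a) g z‖ₑ ^ 2 * ‖Pl (mC ψ α β η L a) g z‖ₑ ^ 2 := by ring
      _ ≤ _ := by gcongr
  refine ne_top_of_le_ne_top ?_ (lintegral_mono h1)
  rw [lintegral_const_mul _ ((meas_Pl (mC_cont hψ hab hη L a).measurable hg.1).enorm.pow_const 2)]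
  refine ENNReal.mul_ne_top (ENNReal.pow_ne_top ENNReal.ofReal_ne_top) ?_
  have h2 : ∫⁻ z, ‖Pl (mC ψ α β η L a) g z‖ₑ ^ 2 = ∫⁻ ξ, ‖mC ψ α β η L a ξ * ft g ξ‖ₑ ^ 2 := hP
  rw [h2]
  exact sq_fin hU

lemma sum_sq_le {ι : Type*} (s : Finset ι) (f : ι → ℝ≥0∞) :
    (∑ i ∈ s, f i) ^ 2 ≤ (s.card : ℝ≥0∞) * ∑ i ∈ s, f i ^ 2 := by
  have h := ENNReal.inner_le_Lp_mul_Lq s (fun _ => (1 : ℝ≥0∞)) f (p := 2) (q := 2)
    (by constructor <;> norm_num)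
  have h2 : (∑ i ∈ s, f i) ^ 2 ≤ ((∑ i ∈ s, (1:ℝ≥0∞) ^ (2:ℝ)) ^ (1 / (2:ℝ)) * (∑ i ∈ s, f i ^ (2:ℝ)) ^ (1 / (2:ℝ))) ^ 2 := by
    have h3 : ∑ i ∈ s, (1 : ℝ≥0∞) * f i = ∑ i ∈ s, f i := by simp
    rw [h3] at h
    gcongr
  rw [mul_pow, ← ENNReal.rpow_natCast (_ ^ (1 / (2:ℝ))) 2, ← ENNReal.rpow_mul,
    ← ENNReal.rpow_natCast ((∑ i ∈ s, f i ^ (2:ℝ)) ^ (1 / (2:ℝ))) 2, ← ENNReal.rpow_mul] at h2
  simpa using h2

/-! ### the main estimate -/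

lemma duality {n : Finset ℤ} (F Gf : ℤ → ℝ × ℝ → ℂ) (b : ℤ → ℝ × ℝ → ℝ≥0∞) (C : ℝ≥0∞)
    (hF : ∀ a, Measurable (F a)) (hG : ∀ a, Measurable (Gf a)) (hb : ∀ a, Measurable (b a))
    (hFG : ∀ a ∈ n, ∀ z, ‖F a z‖ₑ ^ 2 ≤ C * ∫⁻ z', b a (z - z') * ‖Gf a z'‖ₑ ^ 2) :
    ∫⁻ z, (∑ a ∈ n, ‖F a z‖ₑ ^ 2) ^ 2 ≤ C * ∫⁻ z', (∑ a ∈ n, ‖Gf a z'‖ₑ ^ 2) *
      ⨆ a ∈ n, ∫⁻ z, b a (z - z') * (∑ c ∈ n, ‖F c z‖ₑ ^ 2) := by
  set S : ℝ × ℝ → ℝ≥0∞ := fun z => ∑ c ∈ n, ‖F c z‖ₑ ^ 2 with hS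
  have hSm : Measurable S := Finset.measurable_sum n fun c _ => (hF c).enorm.pow_const 2
  have hIm : ∀ a, Measurable (fun z => ∫⁻ z', b a (z - z') * ‖Gf a z'‖ₑ ^ 2) := by
    intro a
    have h : Measurable (fun p : (ℝ × ℝ) × (ℝ × ℝ) => b a (p.1 - p.2) * ‖Gf a p.2‖ₑ ^ 2) :=
      ((hb a).comp (measurable_fst.sub measurable_snd)).mul
        (((hG a).comp measurable_snd).enorm.pow_const 2)
    exact h.lintegral_prod_right'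
  have hJm : ∀ a, Measurable (fun z' => ∫⁻ z, b a (z - z') * S z) := by
    intro a
    have h : Measurable (fun p : (ℝ × ℝ) × (ℝ × ℝ) => b a (p.2 - p.1) * S p.2) :=
      ((hb a).comp (measurable_snd.sub measurable_fst)).mul (hSm.comp measurable_snd)
    exact h.lintegral_prod_right'
  have swap : ∀ a, ∫⁻ z, (∫⁻ z', b a (z - z') * ‖Gf a z'‖ₑ ^ 2) * S z =
      ∫⁻ z', ‖Gf a z'‖ₑ ^ 2 * ∫⁻ z, b a (z - z') * S z := by
    intro a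
    have e1 : ∀ z, (∫⁻ z', b a (z - z') * ‖Gf a z'‖ₑ ^ 2) * S z =
        ∫⁻ z', b a (z - z') * ‖Gf a z'‖ₑ ^ 2 * S z := by
      intro z
      rw [lintegral_mul_const]
      exact ((hb a).comp (measurable_const.sub measurable_id)).mul ((hG a).enorm.pow_const 2)
    have e2 : ∀ z', ‖Gf a z'‖ₑ ^ 2 * ∫⁻ z, b a (z - z') * S z =
        ∫⁻ z, b a (z - z') * ‖Gf a z'‖ₑ ^ 2 * S z := by
      intro z'
      have hm : Measurable (fun z => b a (z - z') * S z) :=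
        ((hb a).comp (measurable_id.sub measurable_const)).mul hSm
      rw [← lintegral_const_mul _ hm]
      refine lintegral_congr fun z => ?_
      ring
    simp only [e1, e2]
    refine lintegral_lintegral_swap ?_
    refine Measurable.aemeasurable ?_
    exact (((hb a).comp (measurable_fst.sub measurable_snd)).mul
      (((hG a).comp measurable_snd).enorm.pow_const 2)).mul (hSm.comp measurable_fst)
  calc ∫⁻ z, S z ^ 2 = ∫⁻ z, ∑ a ∈ n, ‖F a z‖ₑ ^ 2 * S z := by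
        refine lintegral_congr fun z => ?_
        rw [← Finset.sum_mul, sq]
    _ ≤ ∫⁻ z, ∑ a ∈ n, (C * ∫⁻ z', b a (z - z') * ‖Gf a z'‖ₑ ^ 2) * S z := by
        refine lintegral_mono fun z => Finset.sum_le_sum fun a ha => ?_
        have := hFG a ha z
        gcongr
    _ = ∑ a ∈ n, C * ∫⁻ z, (∫⁻ z', b a (z - z') * ‖Gf a z'‖ₑ ^ 2) * S z := by
        have hm1 : ∀ a ∈ n, Measurable
            (fun z => (C * ∫⁻ z', b a (z - z') * ‖Gf a z'‖ₑ ^ 2) * S z) :=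
          fun a _ => ((hIm a).const_mul C).mul hSm
        have hm2 : ∀ a, Measurable (fun z => (∫⁻ z', b a (z - z') * ‖Gf a z'‖ₑ ^ 2) * S z) :=
          fun a => (hIm a).mul hSm
        rw [lintegral_finsetSum _ hm1]
        refine Finset.sum_congr rfl fun a _ => ?_
        rw [← lintegral_const_mul _ (hm2 a)]
        refine lintegral_congr fun z => ?_
        ring
    _ = C * ∑ a ∈ n, ∫⁻ z', ‖Gf a z'‖ₑ ^ 2 * ∫⁻ z, b a (z - z') * S z := by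
        rw [Finset.mul_sum]
        refine Finset.sum_congr rfl fun a _ => ?_
        rw [swap a]
    _ ≤ C * ∑ a ∈ n, ∫⁻ z', ‖Gf a z'‖ₑ ^ 2 * ⨆ a ∈ n, ∫⁻ z, b a (z - z') * S z := by
        gcongr with a ha z'
        exact le_iSup₂ (f := fun a (_ : a ∈ n) => ∫⁻ z, b a (z - z') * S z) a ha
    _ = C * ∫⁻ z', (∑ a ∈ n, ‖Gf a z'‖ₑ ^ 2) * ⨆ a ∈ n, ∫⁻ z, b a (z - z') * S z := by
        congr 1
        have hMm : Measurable (fun z' => ⨆ a ∈ n, ∫⁻ z, b a (z - z') * S z) := by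
          refine Measurable.biSup (n : Set ℤ) (Finset.countable_toSet n) ?_
          intro a _
          exact hJm a
        have hm3 : ∀ a ∈ n, Measurable
            (fun z' => ‖Gf a z'‖ₑ ^ 2 * ⨆ a ∈ n, ∫⁻ z, b a (z - z') * S z) :=
          fun a _ => ((hG a).enorm.pow_const 2).mul hMm
        rw [← lintegral_finsetSum _ hm3]
        refine lintegral_congr fun z' => ?_
        rw [Finset.sum_mul]

lemma square_fn {θ : ℝ → ℝ} {C : ℝ≥0∞} {L : ℝ} (hL : 0 < L) {g : ℝ × ℝ → ℂ} (hg : Measurable g)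
    (S : Finset ℤ) (h : ∀ z : ℝ × ℝ, ∑ a ∈ S, ‖gA θ L a g z‖ₑ ^ 2 ≤ C * ∫⁻ x : ℝ,
      ENNReal.ofReal (L / (L ^ 2 + x ^ 2)) * ‖g (z.1 - x, z.2)‖ₑ ^ 2) :
    ∫⁻ z, (∑ a ∈ S, ‖gA θ L a g z‖ₑ ^ 2) ^ 2 ≤
      C ^ 2 * ENNReal.ofReal Real.pi ^ 2 * ∫⁻ z, ‖g z‖ₑ ^ 4 := by
  set w : ℝ → ℝ≥0∞ := fun x => ENNReal.ofReal (L / (L ^ 2 + x ^ 2)) with hw
  have hwm : Measurable w := by
    rw [hw]
    fun_prop
  have hgm : Measurable (fun p : (ℝ × ℝ) × ℝ => ‖g (p.1.1 - p.2, p.1.2)‖ₑ) := by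
    refine (hg.comp ?_).enorm
    fun_prop
  have h1 : ∀ z : ℝ × ℝ, (∑ a ∈ S, ‖gA θ L a g z‖ₑ ^ 2) ^ 2 ≤
      C ^ 2 * (ENNReal.ofReal Real.pi * ∫⁻ x : ℝ, w x * ‖g (z.1 - x, z.2)‖ₑ ^ 4) := by
    intro z
    calc (∑ a ∈ S, ‖gA θ L a g z‖ₑ ^ 2) ^ 2 ≤ (C * ∫⁻ x : ℝ, w x * ‖g (z.1 - x, z.2)‖ₑ ^ 2) ^ 2 := by
          have := h z
          gcongr
      _ = C ^ 2 * (∫⁻ x : ℝ, w x * ‖g (z.1 - x, z.2)‖ₑ ^ 2) ^ 2 := by rw [mul_pow]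
      _ ≤ C ^ 2 * ((∫⁻ x : ℝ, w x) * ∫⁻ x : ℝ, w x * (‖g (z.1 - x, z.2)‖ₑ ^ 2) ^ 2) := by
          gcongr
          refine cs_weight volume w _ hwm ?_
          have h2 : Measurable (fun x : ℝ => ‖g (z.1 - x, z.2)‖ₑ) :=
            hgm.comp (measurable_prodMk_left (x := z))
          exact h2.pow_const 2
      _ = C ^ 2 * (ENNReal.ofReal Real.pi * ∫⁻ x : ℝ, w x * ‖g (z.1 - x, z.2)‖ₑ ^ 4) := by
          rw [lint_w L hL]
          simp only [← pow_mul]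
  have hm : Measurable (fun p : (ℝ × ℝ) × ℝ => w p.2 * ‖g (p.1.1 - p.2, p.1.2)‖ₑ ^ 4) :=
    (hwm.comp measurable_snd).mul (hgm.pow_const 4)
  have h2 : ∫⁻ z : ℝ × ℝ, ∫⁻ x : ℝ, w x * ‖g (z.1 - x, z.2)‖ₑ ^ 4 =
      ENNReal.ofReal Real.pi * ∫⁻ z, ‖g z‖ₑ ^ 4 := by
    rw [lintegral_lintegral_swap hm.aemeasurable]
    have h3 : ∀ x : ℝ, ∫⁻ z : ℝ × ℝ, w x * ‖g (z.1 - x, z.2)‖ₑ ^ 4 = w x * ∫⁻ z, ‖g z‖ₑ ^ 4 := by
      intro x
      have h4 : Measurable (fun z : ℝ × ℝ => ‖g (z.1 - x, z.2)‖ₑ ^ 4) :=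
        (hgm.comp (measurable_prodMk_right (y := x))).pow_const 4
      rw [lintegral_const_mul _ h4]
      congr 1
      have h5 := lintegral_sub_right_eq_self (μ := (volume : Measure (ℝ × ℝ)))
        (fun z : ℝ × ℝ => ‖g z‖ₑ ^ 4) ((x, 0) : ℝ × ℝ)
      rw [← h5]
      refine lintegral_congr fun z => ?_
      have h6 : z - ((x, 0) : ℝ × ℝ) = (z.1 - x, z.2) := by
        ext <;> simp
      rw [h6]
    simp only [h3]
    rw [lintegral_mul_const _ hwm, lint_w L hL]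
  calc ∫⁻ z, (∑ a ∈ S, ‖gA θ L a g z‖ₑ ^ 2) ^ 2
      ≤ ∫⁻ z : ℝ × ℝ, C ^ 2 * (ENNReal.ofReal Real.pi * ∫⁻ x : ℝ, w x * ‖g (z.1 - x, z.2)‖ₑ ^ 4) :=
        lintegral_mono h1
    _ = C ^ 2 * (ENNReal.ofReal Real.pi * (ENNReal.ofReal Real.pi * ∫⁻ z, ‖g z‖ₑ ^ 4)) := by
        have h7 : Measurable (fun z : ℝ × ℝ => ∫⁻ x : ℝ, w x * ‖g (z.1 - x, z.2)‖ₑ ^ 4) :=
          hm.lintegral_prod_right'
        rw [lintegral_const_mul _ (h7.const_mul _), lintegral_const_mul _ h7, h2]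
    _ = _ := by ring

end P8aux

theorem win_exists : ∃ η : ℝ → ℝ, Win η ∧ ∀ x : ℝ, HasSum (fun a : ℤ => η (x - a)) 1 :=
  P8aux.win_exists

theorem theta_exists : ∃ θ : ℝ → ℝ, ContDiff ℝ (⊤ : ℕ∞) θ ∧ (∀ x, θ x ≠ 0 → |x| ≤ 2) ∧
    ∀ x, |x| ≤ 1 → θ x = 1 := P8aux.theta_exists

/-- P8, with the statements `pl_planch`, `orth`, `sq_pointwise`, `cap_conv`, `kak` of P3, P4, P5, P7
as hypotheses -/
theorem arc_L4_of (ψ α β : ℝ → ℝ) (hψ : Bump ψ) (hab : Arc α β)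
    (hpl : ∀ U : ℝ × ℝ → ℂ, Good U →
      ∫⁻ z : ℝ × ℝ, ‖∫ ξ : ℝ × ℝ, U ξ * e (z.1 * ξ.1 + z.2 * ξ.2)‖ₑ ^ 2 = ∫⁻ ξ, ‖U ξ‖ₑ ^ 2)
    (horth : ∀ η : ℝ → ℝ, Win η → (∀ x : ℝ, HasSum (fun a : ℤ => η (x - a)) 1) →
      ∃ C : ℝ, 0 < C ∧ ∀ L : ℝ, 10 ≤ L → ∀ g : ℝ × ℝ → ℂ, Good g →
        ∫⁻ z, ‖Pl (mA ψ α β L) g z‖ₑ ^ 4 ≤
          ENNReal.ofReal C * ∫⁻ z, (∑ a ∈ SL L, ‖Pl (mC ψ α β η L a) g z‖ₑ ^ 2) ^ 2)
    (hsq : ∀ θ : ℝ → ℝ, ContDiff ℝ (⊤ : ℕ∞) θ → (∀ x, θ x ≠ 0 → |x| ≤ 2) →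
      ∃ C : ℝ, 0 < C ∧ ∀ L : ℝ, 1 ≤ L → ∀ g : ℝ × ℝ → ℂ, Good g → ∀ (S : Finset ℤ) (z : ℝ × ℝ),
        ∑ a ∈ S, ‖gA θ L a g z‖ₑ ^ 2 ≤ ENNReal.ofReal C * ∫⁻ x : ℝ,
          ENNReal.ofReal (L / (L ^ 2 + x ^ 2)) * ‖g (z.1 - x, z.2)‖ₑ ^ 2)
    (hcap : ∀ η θ : ℝ → ℝ, Win η → ContDiff ℝ (⊤ : ℕ∞) θ → (∀ x, θ x ≠ 0 → |x| ≤ 2) →
      (∀ x, |x| ≤ 1 → θ x = 1) →
      ∃ C : ℝ, 0 < C ∧ ∀ L : ℝ, 10 ≤ L → ∀ a : ℤ, |(a : ℝ)| ≤ 9 / 10 * L →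
        ∀ g : ℝ × ℝ → ℂ, Good g → ∀ z : ℝ × ℝ,
        ‖Pl (mC ψ α β η L a) g z‖ₑ ^ 2 ≤ ENNReal.ofReal C *
          ∫⁻ z', ENNReal.ofReal (Bk L (sl L a) (z - z')) * ‖gA θ L a g z'‖ₑ ^ 2)
    (hkak : ∃ C : ℝ, 0 < C ∧ ∀ L : ℝ, 10 ≤ L → ∀ G : ℝ × ℝ → ℝ≥0∞, Measurable G →
      ∫⁻ z : ℝ × ℝ, (⨆ a ∈ SL L, ∫⁻ z', ENNReal.ofReal (Bk L (sl L a) (z' - z)) * G z') ^ 2 ≤
        ENNReal.ofReal (C * (1 + Real.log L) ^ 2) * ∫⁻ z, G z ^ 2) :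
    ∃ C : ℝ, 0 < C ∧ ∀ L : ℝ, 10 ≤ L → ∀ g : ℝ × ℝ → ℂ, Good g →
      ∫⁻ z, ‖Pl (mA ψ α β L) g z‖ₑ ^ 4 ≤
        ENNReal.ofReal (C * (1 + Real.log L) ^ 2) * ∫⁻ z, ‖g z‖ₑ ^ 4 := by
  obtain ⟨η, hη, hsum⟩ := P8aux.win_exists
  obtain ⟨θ, hθ, hθs, hθ1⟩ := P8aux.theta_exists
  obtain ⟨C1, hC1, H1⟩ := horth η hη hsum
  obtain ⟨C2, hC2, H2⟩ := hcap η θ hη hθ hθs hθ1
  obtain ⟨C3, hC3, H3⟩ := hkak
  obtain ⟨C4, hC4, H4⟩ := hsq θ hθ hθs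
  refine ⟨C1 * (C2 ^ 2 * (C4 ^ 2 * Real.pi ^ 2) * C3), by positivity, ?_⟩
  intro L hL g hg
  have hL0 : 0 < L := by linarith
  set S : ℝ × ℝ → ℝ≥0∞ := fun z => ∑ c ∈ SL L, ‖Pl (mC ψ α β η L c) g z‖ₑ ^ 2 with hS
  have hFm : ∀ a, Measurable (Pl (mC ψ α β η L a) g) :=
    fun a => P8aux.meas_Pl (P8aux.mC_cont hψ hab hη L a).measurable hg.1
  have hGm : ∀ a, Measurable (gA θ L a g) :=
    fun a => P8aux.meas_gA hθ.continuous.measurable L a hg.1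
  have hbm : ∀ a, Measurable (fun z => ENNReal.ofReal (Bk L (sl L a) z)) :=
    fun a => (P8aux.meas_Bk L _).ennreal_ofReal
  have hSm : Measurable S := Finset.measurable_sum _ fun c _ => (hFm c).enorm.pow_const 2
  set M : ℝ × ℝ → ℝ≥0∞ := fun z' => ⨆ a ∈ SL L,
    ∫⁻ z, ENNReal.ofReal (Bk L (sl L a) (z - z')) * S z with hM
  have hMm : Measurable M := by
    refine Measurable.biSup (SL L : Set ℤ) (Finset.countable_toSet _) ?_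
    intro a _
    have h : Measurable (fun p : (ℝ × ℝ) × (ℝ × ℝ) =>
        ENNReal.ofReal (Bk L (sl L a) (p.2 - p.1)) * S p.2) :=
      ((hbm a).comp (measurable_snd.sub measurable_fst)).mul (hSm.comp measurable_snd)
    exact h.lintegral_prod_right'
  -- duality
  have hD : ∫⁻ z, S z ^ 2 ≤ ENNReal.ofReal C2 *
      ∫⁻ z', (∑ a ∈ SL L, ‖gA θ L a g z'‖ₑ ^ 2) * M z' := by
    refine P8aux.duality (n := SL L) (fun a => Pl (mC ψ α β η L a) g) (fun a => gA θ L a g)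
      (fun a z => ENNReal.ofReal (Bk L (sl L a) z)) (ENNReal.ofReal C2) hFm hGm hbm ?_
    intro a ha z
    refine H2 L hL a ?_ g hg z
    have h1 := Finset.mem_Icc.mp ha
    have h2 := Int.floor_le (9 / 10 * L)
    rw [abs_le]
    constructor
    · have h3 : ((-⌊9 / 10 * L⌋ : ℤ) : ℝ) ≤ a := by exact_mod_cast h1.1
      push_cast at h3
      linarith
    · have h3 : (a : ℝ) ≤ ((⌊9 / 10 * L⌋ : ℤ) : ℝ) := by exact_mod_cast h1.2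
      linarith
  have hG2 : Measurable (fun z' => ∑ a ∈ SL L, ‖gA θ L a g z'‖ₑ ^ 2) :=
    Finset.measurable_sum _ fun c _ => (hGm c).enorm.pow_const 2
  have hCS := P8aux.cs volume _ M hG2 hMm
  have hMS := H3 L hL S hSm
  have hSq := P8aux.square_fn hL0 hg.1 (SL L) (fun z => H4 L (by linarith) g hg (SL L) z)
  -- finiteness
  have hfin : ∫⁻ z, S z ^ 2 ≠ ⊤ := by
    have h1 : ∀ z, S z ^ 2 ≤ ((SL L).card : ℝ≥0∞) *
        ∑ a ∈ SL L, ‖Pl (mC ψ α β η L a) g z‖ₑ ^ 4 := by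
      intro z
      refine (P8aux.sum_sq_le _ _).trans (le_of_eq ?_)
      simp only [← pow_mul]
    have hm : Measurable (fun z => ∑ a ∈ SL L, ‖Pl (mC ψ α β η L a) g z‖ₑ ^ 4) :=
      Finset.measurable_sum _ fun c _ => (hFm c).enorm.pow_const 4
    refine ne_top_of_le_ne_top ?_ (lintegral_mono h1)
    rw [lintegral_const_mul _ hm]
    refine ENNReal.mul_ne_top (ENNReal.natCast_ne_top _) ?_
    rw [lintegral_finsetSum _ (fun a _ => (hFm a).enorm.pow_const 4)]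
    rw [ENNReal.sum_ne_top]
    intro a _
    exact P8aux.F_fin hpl hψ hab hη hL0 a hg
  -- combine
  set X := ∫⁻ z, S z ^ 2 with hX
  set Y := ∫⁻ z, ‖g z‖ₑ ^ 4 with hY
  set K : ℝ≥0∞ := ENNReal.ofReal C2 ^ 2 * (ENNReal.ofReal C4 ^ 2 * ENNReal.ofReal Real.pi ^ 2) *
    ENNReal.ofReal (C3 * (1 + Real.log L) ^ 2) with hK
  have hXX : X * X ≤ K * Y * X := by
    calc X * X = X ^ 2 := (sq X).symm
      _ ≤ (ENNReal.ofReal C2 * ∫⁻ z', (∑ a ∈ SL L, ‖gA θ L a g z'‖ₑ ^ 2) * M z') ^ 2 := by gcongr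
      _ = ENNReal.ofReal C2 ^ 2 * (∫⁻ z', (∑ a ∈ SL L, ‖gA θ L a g z'‖ₑ ^ 2) * M z') ^ 2 := by
          rw [mul_pow]
      _ ≤ ENNReal.ofReal C2 ^ 2 * ((∫⁻ z', (∑ a ∈ SL L, ‖gA θ L a g z'‖ₑ ^ 2) ^ 2) *
            ∫⁻ z', M z' ^ 2) := by gcongr
      _ ≤ ENNReal.ofReal C2 ^ 2 * ((ENNReal.ofReal C4 ^ 2 * ENNReal.ofReal Real.pi ^ 2 * Y) *
            (ENNReal.ofReal (C3 * (1 + Real.log L) ^ 2) * X)) := by gcongr
      _ = K * Y * X := by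
          rw [hK]
          ring
  have hXY : X ≤ K * Y := by
    by_cases h0 : X = 0
    · rw [h0]
      exact zero_le
    · exact (ENNReal.mul_le_mul_iff_left h0 hfin).mp hXX
  calc ∫⁻ z, ‖Pl (mA ψ α β L) g z‖ₑ ^ 4 ≤ ENNReal.ofReal C1 * X := H1 L hL g hg
    _ ≤ ENNReal.ofReal C1 * (K * Y) := by gcongr
    _ = ENNReal.ofReal (C1 * (C2 ^ 2 * (C4 ^ 2 * Real.pi ^ 2) * C3) * (1 + Real.log L) ^ 2) * Y := by
        rw [← mul_assoc, hK, ← ENNReal.ofReal_pow hC2.le, ← ENNReal.ofReal_pow hC4.le,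
          ← ENNReal.ofReal_pow Real.pi_pos.le, ← ENNReal.ofReal_mul (by positivity),
          ← ENNReal.ofReal_mul (by positivity), ← ENNReal.ofReal_mul (by positivity),
          ← ENNReal.ofReal_mul (by positivity)]
        congr 2
        ring

end Pool.Agent.H438R2.RZ
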