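import Mathlib
import Pool.Agent.H438R2.RZ.Defs

set_option autoImplicit false

/-! # L4 bound for the annulus from the bound for arcs -/

namespace Pool.Agent.H438R2.RZ.P9aux

open MeasureTheory Set Complex
open scoped ENNReal

theorem e_meas : Measurable e := by
  unfold e
  fun_prop

theorem e_norm (x : ℝ) : ‖e x‖ = 1 := by
  unfold e
  exact Complex.norm_exp_ofReal_mul_I _

theorem ft_meas (g : ℝ × ℝ → ℂ) (hg : Measurable g) : Measurable (ft g) := by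
  have h : Measurable (fun p : (ℝ × ℝ) × (ℝ × ℝ) =>
      e (-(p.2.1 * p.1.1 + p.2.2 * p.1.2)) * g p.2) := by
    refine Measurable.mul (e_meas.comp (by fun_prop)) (hg.comp measurable_snd)
  exact (h.stronglyMeasurable.integral_prod_right').measurable

theorem ft_bdd (g : ℝ × ℝ → ℂ) (ξ : ℝ × ℝ) : ‖ft g ξ‖ ≤ ∫ z, ‖g z‖ := by
  unfold ft
  refine (norm_integral_le_integral_norm _).trans (le_of_eq ?_)
  simp only [norm_mul, e_norm, one_mul]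

theorem Pl_meas (m g : ℝ × ℝ → ℂ) (hm : Measurable m) (hg : Measurable g) :
    Measurable (Pl m g) := by
  have h : Measurable (fun p : (ℝ × ℝ) × (ℝ × ℝ) =>
      m p.2 * ft g p.2 * e (p.1.1 * p.2.1 + p.1.2 * p.2.2)) := by
    refine Measurable.mul (Measurable.mul (hm.comp measurable_snd)
      ((ft_meas g hg).comp measurable_snd)) (e_meas.comp (by fun_prop))
  exact (h.stronglyMeasurable.integral_prod_right').measurable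

theorem Pl_int (m g : ℝ × ℝ → ℂ) (hm : Integrable m) (hg : Measurable g) (z : ℝ × ℝ) :
    Integrable (fun ξ : ℝ × ℝ => m ξ * ft g ξ * e (z.1 * ξ.1 + z.2 * ξ.2)) := by
  have h1 : AEStronglyMeasurable (fun ξ : ℝ × ℝ => ft g ξ * e (z.1 * ξ.1 + z.2 * ξ.2)) :=
    ((ft_meas g hg).mul (e_meas.comp (by fun_prop))).aestronglyMeasurable
  have h2 := hm.mul_bdd (c := ∫ z, ‖g z‖) h1 (Filter.Eventually.of_forall fun ξ => by
    rw [norm_mul, e_norm, mul_one]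
    exact ft_bdd g ξ)
  simpa [mul_assoc] using h2

/-- symmetries -/
theorem Pl_sym (σ : (ℝ × ℝ) ≃ᵐ (ℝ × ℝ)) (hσ : MeasurePreserving σ volume volume)
    (hip : ∀ z ξ : ℝ × ℝ, (σ z).1 * (σ ξ).1 + (σ z).2 * (σ ξ).2 = z.1 * ξ.1 + z.2 * ξ.2)
    (m g : ℝ × ℝ → ℂ) (z : ℝ × ℝ) :
    Pl (fun ξ => m (σ ξ)) g z = Pl m (fun w => g (σ.symm w)) (σ z) := by
  have hft : ∀ ξ, ft (fun w => g (σ.symm w)) (σ ξ) = ft g ξ := by
    intro ξ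
    unfold ft
    rw [← hσ.integral_comp' (g := fun w => e (-(w.1 * (σ ξ).1 + w.2 * (σ ξ).2)) * g (σ.symm w))]
    simp only [MeasurableEquiv.symm_apply_apply, hip]
  unfold Pl
  rw [← hσ.integral_comp' (g := fun η => m η * ft (fun w => g (σ.symm w)) η *
    e ((σ z).1 * η.1 + (σ z).2 * η.2))]
  simp only [hft, hip]

theorem piece (σ : (ℝ × ℝ) ≃ᵐ (ℝ × ℝ)) (hσ : MeasurePreserving σ volume volume)
    (hip : ∀ z ξ : ℝ × ℝ, (σ z).1 * (σ ξ).1 + (σ z).2 * (σ ξ).2 = z.1 * ξ.1 + z.2 * ξ.2)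
    (hb : ∀ (z : ℝ × ℝ) (B : ℝ), |z.1| ≤ B ∧ |z.2| ≤ B → |(σ z).1| ≤ B ∧ |(σ z).2| ≤ B)
    (m : ℝ × ℝ → ℂ) (K : ℝ≥0∞)
    (h : ∀ g : ℝ × ℝ → ℂ, Good g → ∫⁻ z, ‖Pl m g z‖ₑ ^ 4 ≤ K * ∫⁻ z, ‖g z‖ₑ ^ 4)
    (g : ℝ × ℝ → ℂ) (hg : Good g) :
    ∫⁻ z, ‖Pl (fun ξ => m (σ ξ)) g z‖ₑ ^ 4 ≤ K * ∫⁻ z, ‖g z‖ₑ ^ 4 := by
  have hg' : Good (fun w => g (σ.symm w)) := by
    obtain ⟨h1, ⟨M, hM⟩, ⟨B, hB⟩⟩ := hg
    refine ⟨h1.comp σ.symm.measurable, ⟨M, fun z => hM _⟩, ⟨B, fun z hz => ?_⟩⟩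
    have := hb _ B (hB _ hz)
    rwa [MeasurableEquiv.apply_symm_apply] at this
  have h1 := h _ hg'
  simp only [Pl_sym σ hσ hip]
  have e1 : ∫⁻ z, ‖Pl m (fun w => g (σ.symm w)) (σ z)‖ₑ ^ 4 =
      ∫⁻ z, ‖Pl m (fun w => g (σ.symm w)) z‖ₑ ^ 4 :=
    hσ.lintegral_comp_emb σ.measurableEmbedding
      (fun z => ‖Pl m (fun w => g (σ.symm w)) z‖ₑ ^ 4)
  have e2 : ∫⁻ z, ‖g (σ.symm z)‖ₑ ^ 4 = ∫⁻ z, ‖g z‖ₑ ^ 4 := by
    have h2 := hσ.lintegral_comp_emb σ.measurableEmbedding (fun z => ‖g (σ.symm z)‖ₑ ^ 4)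
    simp only [MeasurableEquiv.symm_apply_apply] at h2
    exact h2.symm
  rw [e1, ← e2]
  exact h1

theorem add_pow4 (a b : ℝ≥0∞) : (a + b) ^ 4 ≤ 16 * (a ^ 4 + b ^ 4) := by
  rcases le_total a b with h | h
  · calc (a + b) ^ 4 ≤ (b + b) ^ 4 := by gcongr
      _ = 16 * b ^ 4 := by ring
      _ ≤ _ := by gcongr; exact le_add_self
  · calc (a + b) ^ 4 ≤ (a + a) ^ 4 := by gcongr
      _ = 16 * a ^ 4 := by ring
      _ ≤ _ := by gcongr; exact le_self_add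

/-! ### the cutoffs -/

/-- `0` for `x ≤ 3/4`, `1` for `x ≥ 4/5` -/
noncomputable def u (s : ℝ) : ℝ := Real.smoothTransition (20 * s - 15)

/-- `0` for `x ≤ 1/10`, `1` for `x ≥ 1/2` -/
noncomputable def th (t : ℝ) : ℝ := Real.smoothTransition ((t - 1 / 10) * (5 / 2))

noncomputable def chi (s : ℝ) : ℝ := 1 - u s - u (-s)

theorem u_smooth : ContDiff ℝ (⊤ : ℕ∞) u :=
  Real.smoothTransition.contDiff.comp (by fun_prop)

theorem th_smooth : ContDiff ℝ (⊤ : ℕ∞) th :=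
  Real.smoothTransition.contDiff.comp (by fun_prop)

theorem chi_smooth : ContDiff ℝ (⊤ : ℕ∞) chi := by
  unfold chi
  exact (contDiff_const.sub u_smooth).sub (u_smooth.comp contDiff_neg)

theorem u_zero {s : ℝ} (h : s ≤ 3 / 4) : u s = 0 :=
  Real.smoothTransition.zero_of_nonpos (by linarith)

theorem u_one {s : ℝ} (h : 4 / 5 ≤ s) : u s = 1 :=
  Real.smoothTransition.one_of_one_le (by linarith)

theorem th_zero {s : ℝ} (h : s ≤ 1 / 10) : th s = 0 :=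
  Real.smoothTransition.zero_of_nonpos (by linarith)

theorem th_one {s : ℝ} (h : 1 / 2 ≤ s) : th s = 1 :=
  Real.smoothTransition.one_of_one_le (by linarith)

theorem chi_ne {s : ℝ} (h : chi s ≠ 0) : |s| ≤ 4 / 5 := by
  by_contra hc
  push Not at hc
  apply h
  unfold chi
  rcases lt_abs.1 hc with h1 | h1
  · rw [u_one h1.le, u_zero (by linarith)]; ring
  · rw [u_one h1.le, u_zero (by linarith)]; ring

theorem arc1 : Arc chi th := by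
  refine ⟨chi_smooth, th_smooth, fun s t hs ht _ => ⟨chi_ne hs, ?_⟩⟩
  by_contra hc
  push Not at hc
  exact ht (th_zero hc.le)

theorem arc2 : Arc (fun _ => 1) u := by
  refine ⟨contDiff_const, u_smooth, fun s t _ ht hst => ?_⟩
  have h1 : 3 / 4 < t := by
    by_contra hc
    push Not at hc
    exact ht (u_zero hc)
  refine ⟨?_, by linarith⟩
  rw [abs_le]
  constructor <;> nlinarith

theorem part_one {s t : ℝ} (h : 98 / 100 ≤ s ^ 2 + t ^ 2) :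
    chi s * th t + chi s * th (-t) + u s + u (-s) = 1 := by
  have h1 : chi s * th t + chi s * th (-t) = chi s := by
    by_cases hs : chi s = 0
    · rw [hs]; ring
    · have h2 := chi_ne hs
      have h3 : s ^ 2 ≤ 16 / 25 := by
        have := abs_le.1 h2
        nlinarith
      have h4 : 1 / 2 ≤ |t| := by
        by_contra hc
        push Not at hc
        have : t ^ 2 < 1 / 4 := by
          have h5 := abs_lt.1 hc
          nlinarith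
        linarith
      rcases le_abs.1 h4 with h5 | h5
      · rw [th_one h5, th_zero (by linarith : -t ≤ 1 / 10)]; ring
      · rw [th_one h5, th_zero (by linarith : t ≤ 1 / 10)]; ring
  rw [h1]
  unfold chi
  ring

/-! ### the pieces -/

theorem mR_ne (ψ : ℝ → ℝ) (hψ : Bump ψ) {L : ℝ} (hL : 10 ≤ L) {ξ : ℝ × ℝ}
    (h : ψ (L ^ 2 * (1 - (ξ.1 ^ 2 + ξ.2 ^ 2))) ≠ 0) :
    98 / 100 ≤ ξ.1 ^ 2 + ξ.2 ^ 2 ∧ ξ.1 ^ 2 + ξ.2 ^ 2 ≤ 1 := by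
  obtain ⟨h1, h2⟩ := hψ.2 _ h
  have hL2 : 100 ≤ L ^ 2 := by nlinarith
  constructor
  · by_contra hc
    push Not at hc
    nlinarith
  · by_contra hc
    push Not at hc
    nlinarith

theorem piece_int (ψ : ℝ → ℝ) (hψ : Bump ψ) (L : ℝ) (hL : 10 ≤ L) (w : ℝ × ℝ → ℝ)
    (hw : Continuous w) :
    Continuous (fun ξ : ℝ × ℝ => ((w ξ * ψ (L ^ 2 * (1 - (ξ.1 ^ 2 + ξ.2 ^ 2))) : ℝ) : ℂ)) ∧
    Integrable (fun ξ : ℝ × ℝ => ((w ξ * ψ (L ^ 2 * (1 - (ξ.1 ^ 2 + ξ.2 ^ 2))) : ℝ) : ℂ)) := by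
  have hψc : Continuous ψ := hψ.1.continuous
  have hc : Continuous (fun ξ : ℝ × ℝ =>
      ((w ξ * ψ (L ^ 2 * (1 - (ξ.1 ^ 2 + ξ.2 ^ 2))) : ℝ) : ℂ)) := by
    refine Complex.continuous_ofReal.comp (hw.mul (hψc.comp (by fun_prop)))
  refine ⟨hc, hc.integrable_of_hasCompactSupport ?_⟩
  refine HasCompactSupport.of_support_subset_isCompact
    (isCompact_closedBall (0 : ℝ × ℝ) 1) ?_
  intro ξ hξ
  have h1 : ψ (L ^ 2 * (1 - (ξ.1 ^ 2 + ξ.2 ^ 2))) ≠ 0 := by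
    intro h0
    apply hξ
    simp [h0]
  obtain ⟨_, h2⟩ := mR_ne ψ hψ hL h1
  rw [mem_closedBall_zero_iff, Prod.norm_def, Real.norm_eq_abs, Real.norm_eq_abs]
  refine max_le ?_ ?_
  · rw [abs_le]; constructor <;> nlinarith [sq_nonneg ξ.2]
  · rw [abs_le]; constructor <;> nlinarith [sq_nonneg ξ.1]

/-- reflection `(a, b) ↦ (a, -b)` -/
def rf : (ℝ × ℝ) ≃ᵐ (ℝ × ℝ) :=
  MeasurableEquiv.prodCongr (MeasurableEquiv.refl ℝ) (MeasurableEquiv.neg ℝ)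

theorem rf_mp : MeasurePreserving rf volume volume :=
  (MeasurePreserving.id volume).prod (Measure.measurePreserving_neg volume)

/-- swap -/
def sw : (ℝ × ℝ) ≃ᵐ (ℝ × ℝ) := MeasurableEquiv.prodComm

theorem sw_mp : MeasurePreserving sw volume volume :=
  Measure.measurePreserving_swap

theorem full_L4_of
    (arc_L4 : ∀ (ψ α β : ℝ → ℝ) (_ : Bump ψ) (_ : Arc α β),
    ∃ C : ℝ, 0 < C ∧ ∀ L : ℝ, 10 ≤ L → ∀ g : ℝ × ℝ → ℂ, Good g →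
      ∫⁻ z, ‖Pl (mA ψ α β L) g z‖ₑ ^ 4 ≤
        ENNReal.ofReal (C * (1 + Real.log L) ^ 2) * ∫⁻ z, ‖g z‖ₑ ^ 4)
    (ψ : ℝ → ℝ) (hψ : Bump ψ) :
    ∃ C : ℝ, 0 < C ∧ ∀ L : ℝ, 10 ≤ L → ∀ g : ℝ × ℝ → ℂ, Good g →
      ∫⁻ z, ‖Pl (mR ψ L) g z‖ₑ ^ 4 ≤
        ENNReal.ofReal (C * (1 + Real.log L) ^ 2) * ∫⁻ z, ‖g z‖ₑ ^ 4 := by
  obtain ⟨C1, hC1, H1⟩ := arc_L4 ψ chi th hψ arc1
  obtain ⟨C2, hC2, H2⟩ := arc_L4 ψ (fun _ => 1) u hψ arc2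
  refine ⟨512 * (C1 + C2), by positivity, ?_⟩
  intro L hL g hg
  have uc : Continuous u := u_smooth.continuous
  have tc : Continuous th := th_smooth.continuous
  have cc : Continuous chi := chi_smooth.continuous
  -- the four multipliers
  obtain ⟨c1, i1⟩ := piece_int ψ hψ L hL (fun ξ => chi ξ.1 * th ξ.2) (by fun_prop)
  obtain ⟨c2, i2⟩ := piece_int ψ hψ L hL (fun ξ => chi ξ.1 * th (-ξ.2)) (by fun_prop)
  obtain ⟨c3, i3⟩ := piece_int ψ hψ L hL (fun ξ => u ξ.1) (by fun_prop)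
  obtain ⟨c4, i4⟩ := piece_int ψ hψ L hL (fun ξ => u (-ξ.1)) (by fun_prop)
  set m1 : ℝ × ℝ → ℂ := fun ξ =>
    ((chi ξ.1 * th ξ.2 * ψ (L ^ 2 * (1 - (ξ.1 ^ 2 + ξ.2 ^ 2))) : ℝ) : ℂ) with hm1
  set m2 : ℝ × ℝ → ℂ := fun ξ =>
    ((chi ξ.1 * th (-ξ.2) * ψ (L ^ 2 * (1 - (ξ.1 ^ 2 + ξ.2 ^ 2))) : ℝ) : ℂ) with hm2
  set m3 : ℝ × ℝ → ℂ := fun ξ =>
    ((u ξ.1 * ψ (L ^ 2 * (1 - (ξ.1 ^ 2 + ξ.2 ^ 2))) : ℝ) : ℂ) with hm3
  set m4 : ℝ × ℝ → ℂ := fun ξ =>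
    ((u (-ξ.1) * ψ (L ^ 2 * (1 - (ξ.1 ^ 2 + ξ.2 ^ 2))) : ℝ) : ℂ) with hm4
  set K1 : ℝ≥0∞ := ENNReal.ofReal (C1 * (1 + Real.log L) ^ 2) with hK1
  set K2 : ℝ≥0∞ := ENNReal.ofReal (C2 * (1 + Real.log L) ^ 2) with hK2
  have p1 : ∫⁻ z, ‖Pl m1 g z‖ₑ ^ 4 ≤ K1 * ∫⁻ z, ‖g z‖ₑ ^ 4 := H1 L hL g hg
  have p2 : ∫⁻ z, ‖Pl m2 g z‖ₑ ^ 4 ≤ K1 * ∫⁻ z, ‖g z‖ₑ ^ 4 := by
    have h := piece rf rf_mp
      (fun z ξ => by
        show z.1 * ξ.1 + (-z.2) * (-ξ.2) = _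
        ring)
      (fun z B hz => by
        show |z.1| ≤ B ∧ |-z.2| ≤ B
        rwa [abs_neg])
      (mA ψ chi th L) K1 (H1 L hL) g hg
    have he : m2 = fun ξ => mA ψ chi th L (rf ξ) := by
      funext ξ
      show m2 ξ = ((chi ξ.1 * th (-ξ.2) * ψ (L ^ 2 * (1 - (ξ.1 ^ 2 + (-ξ.2) ^ 2))) : ℝ) : ℂ)
      rw [neg_sq]
    rw [he]
    exact h
  have p3 : ∫⁻ z, ‖Pl m3 g z‖ₑ ^ 4 ≤ K2 * ∫⁻ z, ‖g z‖ₑ ^ 4 := by
    have h := piece sw sw_mp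
      (fun z ξ => by
        show z.2 * ξ.2 + z.1 * ξ.1 = _
        ring)
      (fun z B hz => by
        show |z.2| ≤ B ∧ |z.1| ≤ B
        exact hz.symm)
      (mA ψ (fun _ => 1) u L) K2 (H2 L hL) g hg
    have he : m3 = fun ξ => mA ψ (fun _ => 1) u L (sw ξ) := by
      funext ξ
      show m3 ξ = ((1 * u ξ.1 * ψ (L ^ 2 * (1 - (ξ.2 ^ 2 + ξ.1 ^ 2))) : ℝ) : ℂ)
      rw [one_mul, add_comm (ξ.2 ^ 2)]
    rw [he]
    exact h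
  have p4 : ∫⁻ z, ‖Pl m4 g z‖ₑ ^ 4 ≤ K2 * ∫⁻ z, ‖g z‖ₑ ^ 4 := by
    have h := piece (sw.trans rf) (rf_mp.comp sw_mp)
      (fun z ξ => by
        show z.2 * ξ.2 + (-z.1) * (-ξ.1) = _
        ring)
      (fun z B hz => by
        show |z.2| ≤ B ∧ |-z.1| ≤ B
        rw [abs_neg]
        exact hz.symm)
      (mA ψ (fun _ => 1) u L) K2 (H2 L hL) g hg
    have he : m4 = fun ξ => mA ψ (fun _ => 1) u L ((sw.trans rf) ξ) := by
      funext ξ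
      show m4 ξ = ((1 * u (-ξ.1) * ψ (L ^ 2 * (1 - (ξ.2 ^ 2 + (-ξ.1) ^ 2))) : ℝ) : ℂ)
      rw [one_mul, add_comm (ξ.2 ^ 2), neg_sq]
    rw [he]
    exact h
  -- decomposition
  have hsum : ∀ ξ, mR ψ L ξ = m1 ξ + m2 ξ + m3 ξ + m4 ξ := by
    intro ξ
    by_cases h0 : ψ (L ^ 2 * (1 - (ξ.1 ^ 2 + ξ.2 ^ 2))) = 0
    · simp only [mR, hm1, hm2, hm3, hm4, h0]
      simp
    · have h1 := part_one (mR_ne ψ hψ hL h0).1
      have h2 : ψ (L ^ 2 * (1 - (ξ.1 ^ 2 + ξ.2 ^ 2))) =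
          chi ξ.1 * th ξ.2 * ψ (L ^ 2 * (1 - (ξ.1 ^ 2 + ξ.2 ^ 2))) +
          chi ξ.1 * th (-ξ.2) * ψ (L ^ 2 * (1 - (ξ.1 ^ 2 + ξ.2 ^ 2))) +
          u ξ.1 * ψ (L ^ 2 * (1 - (ξ.1 ^ 2 + ξ.2 ^ 2))) +
          u (-ξ.1) * ψ (L ^ 2 * (1 - (ξ.1 ^ 2 + ξ.2 ^ 2))) := by
        linear_combination (-ψ (L ^ 2 * (1 - (ξ.1 ^ 2 + ξ.2 ^ 2)))) * h1
      have h3 : mR ψ L ξ = ((ψ (L ^ 2 * (1 - (ξ.1 ^ 2 + ξ.2 ^ 2))) : ℝ) : ℂ) := rfl
      rw [h3, h2]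
      simp only [hm1, hm2, hm3, hm4]
      push_cast
      rfl
  have hPl : ∀ z, Pl (mR ψ L) g z = Pl m1 g z + Pl m2 g z + (Pl m3 g z + Pl m4 g z) := by
    intro z
    have j1 := Pl_int m1 g i1 hg.1 z
    have j2 := Pl_int m2 g i2 hg.1 z
    have j3 := Pl_int m3 g i3 hg.1 z
    have j4 := Pl_int m4 g i4 hg.1 z
    have k12 := j1.add j2
    have k34 := j3.add j4
    have k := integral_add k12 k34
    have k1 : ∫ ξ, ((fun ξ : ℝ × ℝ => m1 ξ * ft g ξ * e (z.1 * ξ.1 + z.2 * ξ.2)) +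
        fun ξ => m2 ξ * ft g ξ * e (z.1 * ξ.1 + z.2 * ξ.2)) ξ = Pl m1 g z + Pl m2 g z :=
      integral_add j1 j2
    have k2 : ∫ ξ, ((fun ξ : ℝ × ℝ => m3 ξ * ft g ξ * e (z.1 * ξ.1 + z.2 * ξ.2)) +
        fun ξ => m4 ξ * ft g ξ * e (z.1 * ξ.1 + z.2 * ξ.2)) ξ = Pl m3 g z + Pl m4 g z :=
      integral_add j3 j4
    rw [k1, k2] at k
    rw [← k]
    unfold Pl
    refine integral_congr_ae (Filter.Eventually.of_forall fun ξ => ?_)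
    simp only [hsum, Pi.add_apply]
    ring
  have mm1 := (Pl_meas m1 g c1.measurable hg.1)
  have mm2 := (Pl_meas m2 g c2.measurable hg.1)
  have mm3 := (Pl_meas m3 g c3.measurable hg.1)
  have mm4 := (Pl_meas m4 g c4.measurable hg.1)
  set J := ∫⁻ z, ‖g z‖ₑ ^ 4 with hJ
  calc ∫⁻ z, ‖Pl (mR ψ L) g z‖ₑ ^ 4
      ≤ ∫⁻ z, 256 * ((‖Pl m1 g z‖ₑ ^ 4 + ‖Pl m2 g z‖ₑ ^ 4) +
          (‖Pl m3 g z‖ₑ ^ 4 + ‖Pl m4 g z‖ₑ ^ 4)) := by
        refine lintegral_mono fun z => ?_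
        simp only
        rw [hPl z]
        calc ‖Pl m1 g z + Pl m2 g z + (Pl m3 g z + Pl m4 g z)‖ₑ ^ 4
            ≤ ((‖Pl m1 g z‖ₑ + ‖Pl m2 g z‖ₑ) + (‖Pl m3 g z‖ₑ + ‖Pl m4 g z‖ₑ)) ^ 4 := by
              gcongr
              exact (enorm_add_le _ _).trans (add_le_add (enorm_add_le _ _) (enorm_add_le _ _))
          _ ≤ 16 * ((‖Pl m1 g z‖ₑ + ‖Pl m2 g z‖ₑ) ^ 4 + (‖Pl m3 g z‖ₑ + ‖Pl m4 g z‖ₑ) ^ 4) :=
              add_pow4 _ _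
          _ ≤ 16 * (16 * (‖Pl m1 g z‖ₑ ^ 4 + ‖Pl m2 g z‖ₑ ^ 4) +
                16 * (‖Pl m3 g z‖ₑ ^ 4 + ‖Pl m4 g z‖ₑ ^ 4)) := by
              gcongr
              · exact add_pow4 _ _
              · exact add_pow4 _ _
          _ = _ := by ring
    _ = 256 * (((∫⁻ z, ‖Pl m1 g z‖ₑ ^ 4) + (∫⁻ z, ‖Pl m2 g z‖ₑ ^ 4)) +
          ((∫⁻ z, ‖Pl m3 g z‖ₑ ^ 4) + (∫⁻ z, ‖Pl m4 g z‖ₑ ^ 4))) := by
        rw [lintegral_const_mul _ (by fun_prop), lintegral_add_left (by fun_prop),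
          lintegral_add_left (by fun_prop), lintegral_add_left (by fun_prop)]
    _ ≤ 256 * ((K1 * J + K1 * J) + (K2 * J + K2 * J)) := by
        gcongr
    _ = ENNReal.ofReal (512 * (C1 + C2) * (1 + Real.log L) ^ 2) * J := by
        have hlog : 0 ≤ (1 + Real.log L) ^ 2 := sq_nonneg _
        rw [hK1, hK2]
        have h256 : (256 : ℝ≥0∞) = ENNReal.ofReal 256 := by norm_num
        rw [show (256 : ℝ≥0∞) * ((ENNReal.ofReal (C1 * (1 + Real.log L) ^ 2) * J +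
          ENNReal.ofReal (C1 * (1 + Real.log L) ^ 2) * J) +
          (ENNReal.ofReal (C2 * (1 + Real.log L) ^ 2) * J +
          ENNReal.ofReal (C2 * (1 + Real.log L) ^ 2) * J)) =
          (256 * ((ENNReal.ofReal (C1 * (1 + Real.log L) ^ 2) +
          ENNReal.ofReal (C1 * (1 + Real.log L) ^ 2)) +
          (ENNReal.ofReal (C2 * (1 + Real.log L) ^ 2) +
          ENNReal.ofReal (C2 * (1 + Real.log L) ^ 2)))) * J by ring]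
        rw [h256, ← ENNReal.ofReal_add (by positivity) (by positivity),
          ← ENNReal.ofReal_add (by positivity) (by positivity),
          ← ENNReal.ofReal_add (by positivity) (by positivity),
          ← ENNReal.ofReal_mul (by norm_num)]
        congr 2
        ring

end Pool.Agent.H438R2.RZ.P9aux
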