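import Mathlib
import Pool.Agent.H438R2.RZ.Defs
import Pool.Agent.H438R2.BR.T7
set_option autoImplicit false

/-! # R1: polar coordinates for the operator -/

namespace Pool.Agent.H438R2.RZ

open MeasureTheory Set Complex Filter
open scoped ENNReal RealInnerProductSpace Topology
open Pool.Agent.H789R2.FR (E sg)
open Pool.Agent.H438R2.BR (Phi J J_inner J_mp bn_J bn)

namespace R1aux

/-! ### the exponential -/

theorem e_norm (x : ℝ) : ‖e x‖ = 1 := by
  unfold e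
  exact Complex.norm_exp_ofReal_mul_I _

theorem e_add (x y : ℝ) : e (x + y) = e x * e y := by
  unfold e
  rw [← Complex.exp_add]
  congr 1
  push_cast
  ring

theorem e_cont : Continuous e := by
  unfold e
  fun_prop

theorem e_meas : Measurable e := e_cont.measurable

/-! ### bounded functions with bounded support -/

theorem integrable_bdd {X : Type*} [MeasurableSpace X] {μ : Measure X} {F : X → ℂ}
    (hF : AEStronglyMeasurable F μ) {C : ℝ} (hC : ∀ x, ‖F x‖ ≤ C) {S : Set X}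
    (hS : MeasurableSet S) (hμ : μ S < ∞) (hs : ∀ x, x ∉ S → F x = 0) : Integrable F μ := by
  have h1 : Integrable (S.indicator fun _ => C) μ := by
    rw [integrable_indicator_iff hS]
    exact integrableOn_const hμ.ne
  refine h1.mono' hF (Eventually.of_forall fun x => ?_)
  by_cases hx : x ∈ S
  · rw [indicator_of_mem hx]
    exact hC x
  · rw [indicator_of_notMem hx, hs x hx, norm_zero]

/-- bounded measurable functions of one variable with bounded support -/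
def G1 (f : ℝ → ℂ) : Prop :=
  Measurable f ∧ (∃ M : ℝ, ∀ r, ‖f r‖ ≤ M) ∧ ∃ B : ℝ, ∀ r, f r ≠ 0 → |r| ≤ B

theorem Good.slice {g : ℝ × ℝ → ℂ} (hg : Good g) (r : ℝ) : G1 (fun u => g (r, u)) := by
  obtain ⟨h1, ⟨M, h2⟩, B, h3⟩ := hg
  exact ⟨h1.comp measurable_prodMk_left, ⟨M, fun u => h2 _⟩, B, fun u hu => (h3 _ hu).2⟩

/-! ### the one block formula -/

/-- the description of a block: `T` is the kernel, `ω` the angular factor -/
structure Blk (m : ℕ) (T : ℝ → ℂ) (ω : E m → ℂ) (c ε : ℂ) : Prop where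
  measT : Measurable T
  bddT : ∃ C : ℝ, 0 < C ∧ ∀ u : ℝ, 0 ≤ u → ‖T u‖ ≤ C
  measω : Measurable ω
  bddω : ∀ y, ‖ω y‖ ≤ 1
  odd : ∀ y, ω (-y) = ε * ω y
  cc : c * c * ε = 1
  form : ∀ f : ℝ → ℂ, G1 f → ∀ ξ : E m, ∫ y : E m, e (-(⟪y, ξ⟫ : ℝ)) * (ω y * f ‖y‖) =
    c * ω ξ * ∫ u in Ioi (0 : ℝ), ((u ^ (m - 1) : ℝ) : ℂ) * T (‖ξ‖ * u) * f u

theorem int_ball {m : ℕ} {F : E m → ℂ} (hF : Measurable F) {C B : ℝ} (hC : ∀ x, ‖F x‖ ≤ C)
    (hB : ∀ x, F x ≠ 0 → ‖x‖ ≤ B) : Integrable F := by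
  refine integrable_bdd hF.aestronglyMeasurable hC
    (S := Metric.closedBall (0 : E m) B) Metric.isClosed_closedBall.measurableSet
    measure_closedBall_lt_top ?_
  intro x hx
  by_contra h
  exact hx (mem_closedBall_zero_iff.2 (hB x h))

/-- Bochner integrals over the zero dimensional sphere -/
theorem sg_one_int (h : E 1 → ℂ) : ∫ u, h u ∂(sg 1) = h BR.T10.e0 + h (-BR.T10.e0) := by
  have h1 : sg 1 = Measure.dirac BR.T10.e0 + Measure.dirac (-BR.T10.e0) := by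
    refine Measure.ext_of_lintegral _ fun f hf => ?_
    rw [BR.T10.sg_one, lintegral_add_measure, lintegral_dirac' _ hf, lintegral_dirac' _ hf]
  rw [h1, integral_add_measure]
  · rw [integral_dirac, integral_dirac]
  · exact integrable_dirac (by simp)
  · exact integrable_dirac (by simp)

theorem inner_e0 (ξ : E 1) : (⟪BR.T10.e0, ξ⟫ : ℝ) = ξ 0 := by
  simp [BR.T10.e0, EuclideanSpace.inner_single_left]

theorem norm_one (ξ : E 1) : ‖ξ‖ = |ξ 0| := by
  rw [EuclideanSpace.norm_eq]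
  simp [Real.sqrt_sq_eq_abs]

theorem Th_meas (k : ℕ) : Measurable (Th k) := by
  unfold Th
  by_cases hk : k = 1
  · simp only [if_pos hk]
    fun_prop
  · simp only [if_neg hk]
    exact measurable_const.mul ((BR.T7.measurable_Phi k).comp (measurable_const.mul measurable_id))

theorem Th_bdd (k : ℕ) (hk : 1 ≤ k) : ∃ C : ℝ, 0 < C ∧ ∀ u : ℝ, 0 ≤ u → ‖Th k u‖ ≤ C := by
  by_cases h : k = 1
  · refine ⟨2, by norm_num, fun u _ => ?_⟩
    unfold Th
    rw [if_pos h, norm_mul, Complex.norm_real]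
    have := Real.abs_cos_le_one (2 * Real.pi * u)
    rw [Real.norm_eq_abs]
    simp only [Complex.norm_ofNat]
    linarith
  · obtain ⟨C, hC, hb⟩ := BR.T7.Phi_bound k (by omega)
    have hs := BR.T7.sg_pos (n := k - 1) (by omega)
    refine ⟨(sg (k - 1)).real univ * C, by positivity, fun u hu => ?_⟩
    unfold Th
    rw [if_neg h, norm_mul, Complex.norm_real, Real.norm_of_nonneg hs.le]
    exact mul_le_mul_of_nonneg_left (hb _ (by positivity)) hs.le

theorem polar_block {m : ℕ} (hm : 0 < m) {f : ℝ → ℂ} (hf : G1 f) {ω : E m → ℂ}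
    (hω : Measurable ω) (hω1 : ∀ y, ‖ω y‖ ≤ 1) (ξ : E m) :
    ∫ y : E m, e (-(⟪y, ξ⟫ : ℝ)) * (ω y * f ‖y‖) =
      ∫ r in Ioi (0 : ℝ), ((r ^ (m - 1) : ℝ) : ℂ) *
        ((∫ w, e (-(r * (⟪w, ξ⟫ : ℝ))) * ω (r • w) ∂(sg m)) * f r) := by
  obtain ⟨h1, ⟨M, h2⟩, B, h3⟩ := hf
  have hM : 0 ≤ M := (norm_nonneg _).trans (h2 0)
  have hm1 : Measurable (fun y : E m => e (-(⟪y, ξ⟫ : ℝ)) * (ω y * f ‖y‖)) := by
    refine Measurable.mul (e_meas.comp ?_) (hω.mul (h1.comp measurable_norm))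
    fun_prop
  have hint : Integrable (fun y : E m => e (-(⟪y, ξ⟫ : ℝ)) * (ω y * f ‖y‖)) := by
    refine int_ball hm1 (C := M) (B := B) ?_ ?_
    · intro y
      rw [norm_mul, e_norm, one_mul, norm_mul]
      calc ‖ω y‖ * ‖f ‖y‖‖ ≤ 1 * M := mul_le_mul (hω1 y) (h2 _) (norm_nonneg _) zero_le_one
        _ = M := one_mul M
    · intro y hy
      have : f ‖y‖ ≠ 0 := by
        intro h
        apply hy
        rw [h]
        ring
      have := h3 _ this
      rwa [abs_of_nonneg (norm_nonneg _)] at this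
  rw [BR.T7.polar_int hm _ hint]
  refine setIntegral_congr_fun measurableSet_Ioi fun r hr => ?_
  have hr' : (0 : ℝ) < r := hr
  congr 1
  rw [← integral_mul_const]
  refine integral_congr_ae ?_
  filter_upwards [Pool.Agent.H789R2.FR.sg_ae m] with w hw
  rw [norm_smul, hw, Real.norm_of_nonneg hr'.le, mul_one, real_inner_smul_left]
  ring

theorem blk_even (k : ℕ) (hk : 1 ≤ k) : Blk k (Th k) (fun _ => 1) 1 1 := by
  refine ⟨Th_meas k, Th_bdd k hk, measurable_const, fun y => by simp, fun y => by simp,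
    by norm_num, ?_⟩
  intro f hf ξ
  rw [polar_block (ω := fun _ => 1) (by omega) hf measurable_const (fun _ => by simp) ξ,
    one_mul, one_mul]
  refine setIntegral_congr_fun measurableSet_Ioi fun r hr => ?_
  have hr' : (0 : ℝ) < r := hr
  simp only [mul_one]
  have key : ∫ w, e (-(r * (⟪w, ξ⟫ : ℝ))) ∂(sg k) = Th k (‖ξ‖ * r) := by
    by_cases h : k = 1
    · subst h
      rw [sg_one_int, inner_neg_left, inner_e0, norm_one]
      unfold Th
      rw [if_pos rfl]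
      have h5 : Real.cos (2 * Real.pi * (|ξ 0| * r)) = Real.cos (2 * Real.pi * (r * ξ 0)) := by
        rcases abs_cases (ξ 0) with ⟨h, -⟩ | ⟨h, -⟩
        · rw [h, mul_comm (ξ 0) r]
        · rw [h, ← Real.cos_neg]
          congr 1
          ring
      rw [h5]
      unfold e
      rw [Complex.exp_mul_I, Complex.exp_mul_I, ← Complex.ofReal_cos, ← Complex.ofReal_cos,
        ← Complex.ofReal_sin, ← Complex.ofReal_sin]
      have h6 : 2 * Real.pi * -(r * ξ 0) = -(2 * Real.pi * (r * ξ 0)) := by ring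
      have h7 : 2 * Real.pi * -(r * -ξ 0) = 2 * Real.pi * (r * ξ 0) := by ring
      rw [h6, h7, Real.cos_neg, Real.sin_neg]
      push_cast
      ring
    · unfold Th
      rw [if_neg h]
      have h5 := BR.sphere_ft k (by omega) ((2 * Real.pi * r) • ξ)
      have h6 : ‖(2 * Real.pi * r) • ξ‖ = 2 * Real.pi * (‖ξ‖ * r) := by
        rw [norm_smul, Real.norm_of_nonneg (by positivity)]
        ring
      rw [h6] at h5
      rw [← h5]
      refine integral_congr_ae (Eventually.of_forall fun w => ?_)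
      simp only [e]
      congr 1
      rw [real_inner_smul_left, real_inner_comm ξ w]
      push_cast
      ring
  rw [key]
  ring

theorem blk_odd : Blk 1 kaps (fun y => ((Real.sign (y 0) : ℝ) : ℂ)) (-I) (-1) := by
  have hsg : Measurable Real.sign := by
    unfold Real.sign
    exact Measurable.ite measurableSet_Iio measurable_const
      (Measurable.ite measurableSet_Ioi measurable_const measurable_const)
  have hsb : ∀ t : ℝ, ‖((Real.sign t : ℝ) : ℂ)‖ ≤ 1 := by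
    intro t
    rcases lt_trichotomy t 0 with h | h | h
    · rw [Real.sign_of_neg h]; simp
    · rw [h, Real.sign_zero]; simp
    · rw [Real.sign_of_pos h]; simp
  have hmω : Measurable (fun y : E 1 => ((Real.sign (y 0) : ℝ) : ℂ)) := by
    refine Complex.measurable_ofReal.comp (hsg.comp ?_)
    fun_prop
  refine ⟨?_, ⟨2, by norm_num, fun u _ => ?_⟩, hmω, fun y => hsb _, fun y => ?_, ?_, ?_⟩
  · unfold kaps
    fun_prop
  · unfold kaps
    rw [norm_mul, Complex.norm_real]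
    have := Real.abs_sin_le_one (2 * Real.pi * u)
    rw [Real.norm_eq_abs]
    simp only [Complex.norm_ofNat]
    linarith
  · rw [PiLp.neg_apply, Real.sign_neg]
    push_cast
    ring
  · have := Complex.I_mul_I
    linear_combination -this
  intro f hf ξ
  rw [polar_block (ω := fun y : E 1 => ((Real.sign (y 0) : ℝ) : ℂ)) one_pos hf hmω
    (fun y => hsb _) ξ, ← integral_const_mul]
  refine setIntegral_congr_fun measurableSet_Ioi fun r hr => ?_
  have hr' : (0 : ℝ) < r := hr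
  simp only
  rw [sg_one_int, inner_neg_left, inner_e0, norm_one]
  have h1 : (r • BR.T10.e0) 0 = r := by simp [BR.T10.e0]
  have h2 : (r • -BR.T10.e0) 0 = -r := by simp [BR.T10.e0]
  rw [h1, h2, Real.sign_neg, Real.sign_of_pos hr']
  have h5 : ((Real.sign (ξ 0) : ℝ) : ℂ) * kaps (|ξ 0| * r) = kaps (ξ 0 * r) := by
    unfold kaps
    rcases lt_trichotomy (ξ 0) 0 with h | h | h
    · rw [Real.sign_of_neg h, abs_of_neg h]
      have : 2 * Real.pi * (-ξ 0 * r) = -(2 * Real.pi * (ξ 0 * r)) := by ring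
      rw [this, Real.sin_neg]
      push_cast
      ring
    · rw [h]
      simp
    · rw [Real.sign_of_pos h, abs_of_pos h]
      push_cast
      ring
  have h6 : (-I) * ((Real.sign (ξ 0) : ℝ) : ℂ) * (((r ^ (1 - 1) : ℝ) : ℂ) * kaps (|ξ 0| * r) *
      f r) = (-I) * kaps (ξ 0 * r) * f r := by
    rw [← h5]
    simp
    ring
  rw [h6]
  unfold e kaps
  rw [Complex.exp_mul_I, Complex.exp_mul_I, ← Complex.ofReal_cos, ← Complex.ofReal_cos,
    ← Complex.ofReal_sin, ← Complex.ofReal_sin]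
  have h7 : 2 * Real.pi * -(r * ξ 0) = -(2 * Real.pi * (ξ 0 * r)) := by ring
  have h8 : 2 * Real.pi * -(r * -ξ 0) = 2 * Real.pi * (ξ 0 * r) := by ring
  rw [h7, h8, Real.cos_neg, Real.sin_neg]
  simp
  ring

/-! ### the product formula -/

/-- the second block -/
noncomputable def sd (k m : ℕ) (y : E (k + m)) : E m :=
  WithLp.toLp 2 (fun i => y (Fin.natAdd k i))

/-- the first block -/
noncomputable def fs (k m : ℕ) (y : E (k + m)) : E k :=
  WithLp.toLp 2 (fun i => y (Fin.castAdd m i))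

theorem J_fs_sd (k m : ℕ) (y : E (k + m)) : J (fs k m y) (sd k m y) = y := by
  apply PiLp.ext
  intro i
  refine Fin.addCases (fun j => ?_) (fun j => ?_) i
  · simp [J, fs, Fin.append_left]
  · simp [J, sd, Fin.append_right]

theorem sd_J {k m : ℕ} (x : E k) (y : E m) : sd k m (J x y) = y := by
  apply PiLp.ext
  intro i
  simp [J, sd, Fin.append_right]

theorem fs_J {k m : ℕ} (x : E k) (y : E m) : fs k m (J x y) = x := by
  apply PiLp.ext
  intro i
  simp [J, fs, Fin.append_left]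

theorem bl_eq (k m : ℕ) (y : E (k + m)) : bl k m y = (‖fs k m y‖, ‖sd k m y‖) := by
  unfold bl
  rw [EuclideanSpace.norm_eq, EuclideanSpace.norm_eq]
  simp [fs, sd]

theorem bl_J {k m : ℕ} (x : E k) (y : E m) : bl k m (J x y) = (‖x‖, ‖y‖) := by
  rw [bl_eq, fs_J, sd_J]

theorem sd_meas (k m : ℕ) : Measurable (sd k m) := by
  unfold sd
  fun_prop

theorem fs_meas (k m : ℕ) : Measurable (fs k m) := by
  unfold fs
  fun_prop

theorem blm (k m : ℕ) : Measurable (bl k m) := by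
  have : bl k m = fun y => (‖fs k m y‖, ‖sd k m y‖) := funext (bl_eq k m)
  rw [this]
  exact (fs_meas k m).norm.prodMk (sd_meas k m).norm

/-- the integrand of the profile transform -/
noncomputable def FI (k m : ℕ) (T : ℝ → ℂ) (h : ℝ × ℝ → ℂ) (z y : ℝ × ℝ) : ℂ :=
  ((y.1 ^ (k - 1) * y.2 ^ (m - 1) : ℝ) : ℂ) * (Th k (z.1 * y.1) * T (z.2 * y.2)) * h y

/-- the profile transform -/
noncomputable def FTp (k m : ℕ) (T : ℝ → ℂ) (h : ℝ × ℝ → ℂ) (z : ℝ × ℝ) : ℂ :=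
  ∫ y in Q, FI k m T h z y

theorem mQ : MeasurableSet Q := measurableSet_Ioi.prod measurableSet_Ioi

theorem FI_meas {k m : ℕ} {T : ℝ → ℂ} (hT : Measurable T) {h : ℝ × ℝ → ℂ} (hh : Measurable h) :
    Measurable (fun q : (ℝ × ℝ) × (ℝ × ℝ) => FI k m T h q.1 q.2) := by
  unfold FI
  have h1 : Measurable (fun q : (ℝ × ℝ) × (ℝ × ℝ) => Th k (q.1.1 * q.2.1)) :=
    (Th_meas k).comp (by fun_prop)
  have h2 : Measurable (fun q : (ℝ × ℝ) × (ℝ × ℝ) => T (q.1.2 * q.2.2)) :=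
    hT.comp (by fun_prop)
  have h3 : Measurable (fun q : (ℝ × ℝ) × (ℝ × ℝ) =>
      ((q.2.1 ^ (k - 1) * q.2.2 ^ (m - 1) : ℝ) : ℂ)) := by fun_prop
  exact (h3.mul (h1.mul h2)).mul (hh.comp measurable_snd)

theorem FTp_meas {k m : ℕ} {T : ℝ → ℂ} (hT : Measurable T) {h : ℝ × ℝ → ℂ}
    (hh : Measurable h) : Measurable (FTp k m T h) :=
  ((FI_meas hT hh).stronglyMeasurable.integral_prod_right'
    (ν := volume.restrict Q)).measurable

/-- bound for the integrand -/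
theorem FI_bdd {k m : ℕ} (hk : 1 ≤ k) {T : ℝ → ℂ}
    (hT : ∃ C : ℝ, 0 < C ∧ ∀ u : ℝ, 0 ≤ u → ‖T u‖ ≤ C) {h : ℝ × ℝ → ℂ} (hh : Good h) :
    ∃ B C : ℝ, 0 ≤ B ∧ 0 ≤ C ∧ ∀ z : ℝ × ℝ, 0 ≤ z.1 → 0 ≤ z.2 → ∀ y ∈ Q,
      ‖FI k m T h z y‖ ≤ C ∧ (FI k m T h z y ≠ 0 → y ∈ Icc (0 : ℝ) B ×ˢ Icc (0 : ℝ) B) := by
  obtain ⟨h1, ⟨M, h2⟩, B, h3⟩ := hh
  obtain ⟨C1, hC1, hb1⟩ := Th_bdd k hk
  obtain ⟨C2, hC2, hb2⟩ := hT
  have hM : 0 ≤ M := (norm_nonneg _).trans (h2 0)
  refine ⟨|B|, |B| ^ (k - 1) * |B| ^ (m - 1) * (C1 * C2) * M, abs_nonneg _, by positivity, ?_⟩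
  rintro z hz1 hz2 y ⟨hy1, hy2⟩
  have hy1' : 0 < y.1 := hy1
  have hy2' : 0 < y.2 := hy2
  by_cases hy : h y = 0
  · have : FI k m T h z y = 0 := by
      unfold FI
      rw [hy, mul_zero]
    rw [this, norm_zero]
    exact ⟨by positivity, fun h => absurd rfl h⟩
  · have hB := h3 y hy
    have b1 : y.1 ≤ |B| := (le_abs_self _).trans (hB.1.trans (le_abs_self _))
    have b2 : y.2 ≤ |B| := (le_abs_self _).trans (hB.2.trans (le_abs_self _))
    refine ⟨?_, fun _ => ⟨⟨hy1'.le, b1⟩, ⟨hy2'.le, b2⟩⟩⟩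
    unfold FI
    rw [norm_mul, norm_mul, norm_mul, Complex.norm_real,
      Real.norm_of_nonneg (by positivity)]
    have p1 : y.1 ^ (k - 1) ≤ |B| ^ (k - 1) := pow_le_pow_left₀ hy1'.le b1 _
    have p2 : y.2 ^ (m - 1) ≤ |B| ^ (m - 1) := pow_le_pow_left₀ hy2'.le b2 _
    have p3 := hb1 (z.1 * y.1) (by positivity)
    have p4 := hb2 (z.2 * y.2) (by positivity)
    have p5 := h2 y
    gcongr

theorem FI_int {k m : ℕ} (hk : 1 ≤ k) {T : ℝ → ℂ} (hTm : Measurable T)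
    (hT : ∃ C : ℝ, 0 < C ∧ ∀ u : ℝ, 0 ≤ u → ‖T u‖ ≤ C) {h : ℝ × ℝ → ℂ} (hh : Good h)
    {z : ℝ × ℝ} (hz1 : 0 ≤ z.1) (hz2 : 0 ≤ z.2) : IntegrableOn (FI k m T h z) Q := by
  obtain ⟨B, C, hB, hC, hb⟩ := FI_bdd (m := m) hk hT hh
  rw [← integrable_indicator_iff mQ]
  refine integrable_bdd (C := C) (S := Icc (0 : ℝ) B ×ˢ Icc (0 : ℝ) B) ?_ ?_
    (measurableSet_Icc.prod measurableSet_Icc) ?_ ?_
  · refine Measurable.aestronglyMeasurable ?_
    exact ((FI_meas hTm hh.1).comp (measurable_const.prodMk measurable_id)).indicator mQ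
  · intro y
    by_cases hy : y ∈ Q
    · rw [indicator_of_mem hy]
      exact (hb z hz1 hz2 y hy).1
    · rw [indicator_of_notMem hy, norm_zero]
      exact hC
  · rw [Measure.volume_eq_prod, Measure.prod_prod, Real.volume_Icc]
    exact ENNReal.mul_lt_top ENNReal.ofReal_lt_top ENNReal.ofReal_lt_top
  · intro y hy
    by_cases hyQ : y ∈ Q
    · rw [indicator_of_mem hyQ]
      by_contra h
      exact hy ((hb z hz1 hz2 y hyQ).2 h)
    · rw [indicator_of_notMem hyQ]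

theorem FTp_bdd {k m : ℕ} (hk : 1 ≤ k) {T : ℝ → ℂ}
    (hT : ∃ C : ℝ, 0 < C ∧ ∀ u : ℝ, 0 ≤ u → ‖T u‖ ≤ C) {h : ℝ × ℝ → ℂ} (hh : Good h) :
    ∃ K : ℝ, ∀ z : ℝ × ℝ, 0 ≤ z.1 → 0 ≤ z.2 → ‖FTp k m T h z‖ ≤ K := by
  obtain ⟨B, C, hB, hC, hb⟩ := FI_bdd (m := m) hk hT hh
  set S : Set (ℝ × ℝ) := Icc (0 : ℝ) B ×ˢ Icc (0 : ℝ) B with hS
  have hSm : MeasurableSet S := measurableSet_Icc.prod measurableSet_Icc
  have hSv : volume S < ∞ := by
    rw [hS, Measure.volume_eq_prod, Measure.prod_prod, Real.volume_Icc]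
    exact ENNReal.mul_lt_top ENNReal.ofReal_lt_top ENNReal.ofReal_lt_top
  refine ⟨C * volume.real (Q ∩ S), fun z hz1 hz2 => ?_⟩
  have h1 : FTp k m T h z = ∫ y in Q ∩ S, FI k m T h z y := by
    unfold FTp
    refine setIntegral_eq_of_subset_of_forall_sdiff_eq_zero mQ inter_subset_left ?_
    rintro y ⟨hy, hyS⟩
    by_contra h
    exact hyS ⟨hy, (hb z hz1 hz2 y hy).2 h⟩
  rw [h1]
  exact norm_setIntegral_le_of_norm_le_const ((measure_mono inter_subset_right).trans_lt hSv)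
    (fun y hy => (hb z hz1 hz2 y hy.1).1)

theorem ft_prod {k m : ℕ} (hk : 1 ≤ k) {T : ℝ → ℂ} {ω : E m → ℂ} {c ε : ℂ}
    (hB : Blk m T ω c ε) {g : ℝ × ℝ → ℂ} (hg : Good g) (ξ : E (k + m)) :
    ∫ y : E (k + m), e (-(⟪y, ξ⟫ : ℝ)) * (ω (sd k m y) * g (bl k m y)) =
      c * ω (sd k m ξ) * FTp k m T g (bl k m ξ) := by
  obtain ⟨gm, ⟨M, gM⟩, B, gB⟩ := hg
  have hg : Good g := ⟨gm, ⟨M, gM⟩, B, gB⟩
  have hM : 0 ≤ M := (norm_nonneg _).trans (gM 0)
  set a := fs k m ξ with ha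
  set b := sd k m ξ with hb
  have hξ : J a b = ξ := J_fs_sd k m ξ
  have hHm : Measurable (fun y : E (k + m) =>
      e (-(⟪y, ξ⟫ : ℝ)) * (ω (sd k m y) * g (bl k m y))) := by
    refine Measurable.mul (e_meas.comp ?_)
      ((hB.measω.comp (sd_meas k m)).mul (gm.comp (blm k m)))
    fun_prop
  rw [← (J_mp k m).map_eq, integral_map (J_mp k m).measurable.aemeasurable
    hHm.aestronglyMeasurable]
  have hpt : ∀ p : E k × E m, e (-(⟪J p.1 p.2, ξ⟫ : ℝ)) *
      (ω (sd k m (J p.1 p.2)) * g (bl k m (J p.1 p.2))) =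
      e (-(⟪p.1, a⟫ : ℝ)) * (e (-(⟪p.2, b⟫ : ℝ)) * (ω p.2 * g (‖p.1‖, ‖p.2‖))) := by
    intro p
    have h1 : (⟪J p.1 p.2, ξ⟫ : ℝ) = ⟪p.1, a⟫ + ⟪p.2, b⟫ := by
      conv_lhs => rw [← hξ]
      exact J_inner _ _ _ _
    rw [sd_J, bl_J, h1, neg_add, e_add, mul_assoc]
  simp only [hpt]
  have hint : Integrable (fun p : E k × E m =>
      e (-(⟪p.1, a⟫ : ℝ)) * (e (-(⟪p.2, b⟫ : ℝ)) * (ω p.2 * g (‖p.1‖, ‖p.2‖))))
      ((volume : Measure (E k)).prod (volume : Measure (E m))) := by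
    refine integrable_bdd (C := M)
      (S := Metric.closedBall (0 : E k) B ×ˢ Metric.closedBall (0 : E m) B) ?_ ?_
      (Metric.isClosed_closedBall.measurableSet.prod Metric.isClosed_closedBall.measurableSet)
      ?_ ?_
    · refine Measurable.aestronglyMeasurable ?_
      refine Measurable.mul (e_meas.comp (by fun_prop)) (Measurable.mul (e_meas.comp
        (by fun_prop)) ((hB.measω.comp measurable_snd).mul (gm.comp ?_)))
      exact measurable_fst.norm.prodMk measurable_snd.norm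
    · intro p
      rw [norm_mul, e_norm, one_mul, norm_mul, e_norm, one_mul, norm_mul]
      calc ‖ω p.2‖ * ‖g (‖p.1‖, ‖p.2‖)‖ ≤ 1 * M :=
            mul_le_mul (hB.bddω _) (gM _) (norm_nonneg _) zero_le_one
        _ = M := one_mul M
    · rw [Measure.prod_prod]
      exact ENNReal.mul_lt_top measure_closedBall_lt_top measure_closedBall_lt_top
    · intro p hp
      by_contra h
      have hgp : g (‖p.1‖, ‖p.2‖) ≠ 0 := by
        intro h0
        apply h
        rw [h0]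
        ring
      have h5 := gB _ hgp
      simp only [abs_norm] at h5
      exact hp ⟨mem_closedBall_zero_iff.2 h5.1, mem_closedBall_zero_iff.2 h5.2⟩
  rw [integral_prod _ hint]
  -- the inner integral
  set f2 : ℝ → ℂ := fun r => ∫ u in Ioi (0 : ℝ), ((u ^ (m - 1) : ℝ) : ℂ) * T (‖b‖ * u) *
    g (r, u) with hf2
  have hinner : ∀ p1 : E k, ∫ p2 : E m, e (-(⟪p1, a⟫ : ℝ)) *
      (e (-(⟪p2, b⟫ : ℝ)) * (ω p2 * g (‖p1‖, ‖p2‖))) =
      (c * ω b) * (e (-(⟪p1, a⟫ : ℝ)) * (1 * f2 ‖p1‖)) := by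
    intro p1
    rw [integral_const_mul, hB.form (fun u => g (‖p1‖, u)) (Good.slice hg ‖p1‖) b]
    simp only [hf2]
    ring
  simp only [hinner]
  rw [integral_const_mul]
  -- `f2` is bounded with bounded support
  have hf2m : Measurable f2 := by
    have : Measurable (fun q : ℝ × ℝ => ((q.2 ^ (m - 1) : ℝ) : ℂ) * T (‖b‖ * q.2) *
        g (q.1, q.2)) := by
      refine Measurable.mul (Measurable.mul (by fun_prop) (hB.measT.comp (by fun_prop))) ?_
      exact gm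
    exact (this.stronglyMeasurable.integral_prod_right'
      (ν := volume.restrict (Ioi (0 : ℝ)))).measurable
  have hf2G : G1 f2 := by
    obtain ⟨C2, hC2, hb2⟩ := hB.bddT
    refine ⟨hf2m, ⟨|B| ^ (m - 1) * C2 * M * volume.real (Ioc (0 : ℝ) |B|), fun r => ?_⟩,
      B, fun r hr => ?_⟩
    · have h1 : f2 r = ∫ u in Ioc (0 : ℝ) |B|, ((u ^ (m - 1) : ℝ) : ℂ) * T (‖b‖ * u) *
          g (r, u) := by
        simp only [hf2]
        refine setIntegral_eq_of_subset_of_forall_sdiff_eq_zero measurableSet_Ioi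
          Ioc_subset_Ioi_self ?_
        rintro u ⟨hu, hu'⟩
        by_contra h
        have hgu : g (r, u) ≠ 0 := by
          intro h0
          apply h
          rw [h0, mul_zero]
        have := (gB _ hgu).2
        exact hu' ⟨hu, (le_abs_self _).trans (this.trans (le_abs_self _))⟩
      rw [h1]
      refine norm_setIntegral_le_of_norm_le_const ?_ ?_
      · rw [Real.volume_Ioc]
        exact ENNReal.ofReal_lt_top
      · rintro u ⟨hu0, hu1⟩
        rw [norm_mul, norm_mul, Complex.norm_real, Real.norm_of_nonneg (by positivity)]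
        have p2 : u ^ (m - 1) ≤ |B| ^ (m - 1) := pow_le_pow_left₀ hu0.le hu1 _
        have p4 := hb2 (‖b‖ * u) (by positivity)
        have p5 := gM (r, u)
        gcongr
    · by_contra h
      apply hr
      simp only [hf2]
      rw [setIntegral_congr_fun measurableSet_Ioi (g := fun _ => (0 : ℂ)), integral_zero]
      intro u _
      have : g (r, u) = 0 := by
        by_contra h0
        exact h (gB _ h0).1
      simp only [this, mul_zero]
  rw [(blk_even k hk).form f2 hf2G a, one_mul, one_mul]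
  congr 1
  -- the product integral
  have hbl : bl k m ξ = (‖a‖, ‖b‖) := bl_eq k m ξ
  rw [hbl]
  unfold FTp
  have hFI := FI_int (m := m) hk hB.measT hB.bddT hg (z := (‖a‖, ‖b‖)) (norm_nonneg _)
    (norm_nonneg _)
  unfold Q at hFI ⊢
  rw [Measure.volume_eq_prod] at hFI ⊢
  rw [setIntegral_prod _ hFI]
  refine setIntegral_congr_fun measurableSet_Ioi fun r _ => ?_
  simp only [hf2]
  rw [← integral_const_mul]
  refine integral_congr_ae (Eventually.of_forall fun u => ?_)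
  simp only [FI]
  push_cast
  ring

/-! ### the operator -/

theorem rpow_half_sq {k : ℕ} (hk : 1 ≤ k) {t : ℝ} (ht : 0 < t) :
    t ^ (((k : ℝ) - 1) / 2) * t ^ (((k : ℝ) - 1) / 2) = t ^ (k - 1) := by
  rw [← Real.rpow_add ht, ← Real.rpow_natCast]
  congr 1
  push_cast [hk]
  ring

theorem V_eq {k m : ℕ} (hk : 1 ≤ k) (hm : 1 ≤ m) {T κ₂ : ℝ → ℂ}
    (hκ : ∀ t : ℝ, 0 < t → κ₂ t = ((t ^ (((m : ℝ) - 1) / 2) : ℝ) : ℂ) * T t)
    (h : ℝ × ℝ → ℂ) {z : ℝ × ℝ} (hz : z ∈ Q) :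
    V (kap k) κ₂ (fun y => ((wt k m y : ℝ) : ℂ) * h y) z =
      ((wt k m z : ℝ) : ℂ) * FTp k m T h z := by
  unfold V FTp
  rw [← integral_const_mul]
  refine setIntegral_congr_fun mQ fun y hy => ?_
  have hz1 : 0 < z.1 := hz.1
  have hz2 : 0 < z.2 := hz.2
  have hy1 : 0 < y.1 := hy.1
  have hy2 : 0 < y.2 := hy.2
  simp only [FI, wt]
  rw [hκ (z.2 * y.2) (by positivity)]
  unfold kap
  rw [Real.mul_rpow hz1.le hy1.le, Real.mul_rpow hz2.le hy2.le, ← rpow_half_sq hk hy1,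
    ← rpow_half_sq hm hy2]
  push_cast
  ring

theorem At_eq {k m : ℕ} (hk : 1 ≤ k) (hm : 1 ≤ m) {T κ₂ : ℝ → ℂ}
    (hκ : ∀ t : ℝ, 0 < t → κ₂ t = ((t ^ (((m : ℝ) - 1) / 2) : ℝ) : ℂ) * T t)
    (M g : ℝ × ℝ → ℂ) {z : ℝ × ℝ} (hz : z ∈ Q) :
    At k m κ₂ M g z = FTp k m T (fun ξ => M ξ * FTp k m T g ξ) z := by
  have h1 : A (kap k) κ₂ M (fun y => ((wt k m y : ℝ) : ℂ) * g y) z =
      V (kap k) κ₂ (fun ξ => ((wt k m ξ : ℝ) : ℂ) * (M ξ * FTp k m T g ξ)) z := by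
    unfold A
    conv_rhs => unfold V
    refine setIntegral_congr_fun mQ fun ξ hξ => ?_
    simp only
    rw [V_eq hk hm hκ g hξ]
    ring
  unfold At
  rw [h1, V_eq hk hm hκ _ hz, ← mul_assoc, ← Complex.ofReal_mul]
  have hw : wt k m z ≠ 0 := by
    have hz1 : 0 < z.1 := hz.1
    have hz2 : 0 < z.2 := hz.2
    unfold wt
    positivity
  rw [inv_mul_cancel₀ hw, Complex.ofReal_one, one_mul]

theorem normsq_bl (k m : ℕ) (y : E (k + m)) :
    (bl k m y).1 ^ 2 + (bl k m y).2 ^ 2 = ‖y‖ ^ 2 := by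
  rw [bl_eq]
  conv_rhs => rw [← J_fs_sd k m y]
  rw [← real_inner_self_eq_norm_sq (J _ _), J_inner, real_inner_self_eq_norm_sq,
    real_inner_self_eq_norm_sq]

theorem link_gen {k m : ℕ} (hk : 1 ≤ k) (hm : 1 ≤ m) {T κ₂ : ℝ → ℂ} {ω : E m → ℂ} {c ε : ℂ}
    (hB : Blk m T ω c ε)
    (hκ : ∀ t : ℝ, 0 < t → κ₂ t = ((t ^ (((m : ℝ) - 1) / 2) : ℝ) : ℂ) * T t)
    {g : ℝ × ℝ → ℂ} (hg : Good g) {M : ℝ → ℝ} (hM : Continuous M) (hM2 : ∀ u, 2 < u → M u = 0)
    {x : E (k + m)} (hx : bl k m x ∈ Q) :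
    TR (k + m) M (fun y => ω (sd k m y) * g (bl k m y)) x =
      ω (sd k m x) * At k m κ₂ (fun ξ => ((M (ξ.1 ^ 2 + ξ.2 ^ 2) : ℝ) : ℂ)) g (bl k m x) := by
  classical
  obtain ⟨K, hK⟩ := FTp_bdd (m := m) hk hB.bddT hg
  set G : ℝ × ℝ → ℂ := (Ici (0 : ℝ) ×ˢ Ici (0 : ℝ)).indicator
    (fun z => ((M (z.1 ^ 2 + z.2 ^ 2) : ℝ) : ℂ) * FTp k m T g z) with hG
  have hmS : MeasurableSet (Ici (0 : ℝ) ×ˢ Ici (0 : ℝ)) := measurableSet_Ici.prod measurableSet_Ici
  obtain ⟨CM, hCM⟩ : ∃ CM : ℝ, ∀ u : ℝ, 0 ≤ u → ‖M u‖ ≤ CM := by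
    obtain ⟨C, hC⟩ := (isCompact_Icc (a := (0 : ℝ)) (b := 2)).exists_bound_of_continuousOn
      hM.continuousOn
    refine ⟨max C 0, fun u hu => ?_⟩
    by_cases h2 : u ≤ 2
    · exact (hC u ⟨hu, h2⟩).trans (le_max_left _ _)
    · rw [hM2 u (not_le.1 h2), norm_zero]
      exact le_max_right _ _
  have hCM0 : 0 ≤ CM := (norm_nonneg _).trans (hCM 0 le_rfl)
  have hK0 : 0 ≤ K := (norm_nonneg _).trans (hK 0 le_rfl le_rfl)
  have hGG : Good G := by
    refine ⟨?_, ⟨CM * K, fun z => ?_⟩, 2, fun z hz => ?_⟩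
    · refine Measurable.indicator ?_ hmS
      refine Measurable.mul ?_ (FTp_meas hB.measT hg.1)
      exact Complex.measurable_ofReal.comp (hM.measurable.comp (by fun_prop))
    · by_cases hz : z ∈ Ici (0 : ℝ) ×ˢ Ici (0 : ℝ)
      · rw [hG, indicator_of_mem hz, norm_mul, Complex.norm_real]
        exact mul_le_mul (hCM _ (by positivity)) (hK z hz.1 hz.2) (norm_nonneg _) hCM0
      · rw [hG, indicator_of_notMem hz, norm_zero]
        positivity
    · have h1 : M (z.1 ^ 2 + z.2 ^ 2) ≠ 0 := by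
        intro h0
        apply hz
        rw [hG]
        by_cases hz : z ∈ Ici (0 : ℝ) ×ˢ Ici (0 : ℝ)
        · rw [indicator_of_mem hz, h0]
          simp
        · rw [indicator_of_notMem hz]
      have h2 : z.1 ^ 2 + z.2 ^ 2 ≤ 2 := by
        by_contra h
        exact h1 (hM2 _ (not_le.1 h))
      constructor
      · refine abs_le_of_sq_le_sq ?_ (by norm_num)
        nlinarith [sq_nonneg z.2]
      · refine abs_le_of_sq_le_sq ?_ (by norm_num)
        nlinarith [sq_nonneg z.1]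
  have hGbl : ∀ ξ : E (k + m), G (bl k m ξ) =
      ((M (‖ξ‖ ^ 2) : ℝ) : ℂ) * FTp k m T g (bl k m ξ) := by
    intro ξ
    have h1 : bl k m ξ ∈ Ici (0 : ℝ) ×ˢ Ici (0 : ℝ) := by
      rw [bl_eq]
      exact ⟨norm_nonneg _, norm_nonneg _⟩
    rw [hG, indicator_of_mem h1, normsq_bl]
  have h1 : TR (k + m) M (fun y => ω (sd k m y) * g (bl k m y)) x =
      c * ∫ ξ : E (k + m), e (-(⟪ξ, -x⟫ : ℝ)) * (ω (sd k m ξ) * G (bl k m ξ)) := by
    unfold TR
    rw [← integral_const_mul]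
    refine integral_congr_ae (Eventually.of_forall fun ξ => ?_)
    simp only
    rw [ft_prod hk hB hg ξ, hGbl, inner_neg_right, neg_neg, real_inner_comm x ξ]
    ring
  rw [h1, ft_prod hk hB hGG (-x)]
  have hsd : sd k m (-x) = -sd k m x := by
    apply PiLp.ext
    intro i
    simp [sd]
  have hbl : bl k m (-x) = bl k m x := by
    unfold bl
    simp
  rw [hsd, hbl, hB.odd, At_eq hk hm hκ _ _ hx]
  have h2 : FTp k m T G (bl k m x) =
      FTp k m T (fun ξ => ((M (ξ.1 ^ 2 + ξ.2 ^ 2) : ℝ) : ℂ) * FTp k m T g ξ) (bl k m x) := by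
    unfold FTp
    refine setIntegral_congr_fun mQ fun y hy => ?_
    have hy1 : 0 < y.1 := hy.1
    have hy2 : 0 < y.2 := hy.2
    have h3 : y ∈ Ici (0 : ℝ) ×ˢ Ici (0 : ℝ) := ⟨hy1.le, hy2.le⟩
    simp only [FI]
    rw [hG, indicator_of_mem h3]
    rfl
  rw [h2]
  linear_combination (ω (sd k m x) * FTp k m T (fun ξ =>
    ((M (ξ.1 ^ 2 + ξ.2 ^ 2) : ℝ) : ℂ) * FTp k m T g ξ) (bl k m x)) * hB.cc

end R1aux

open R1aux

theorem link_even (k m : ℕ) (hk : 1 ≤ k) (hm : 1 ≤ m) (g : ℝ × ℝ → ℂ) (hg : Good g)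
    (M : ℝ → ℝ) (hM : Continuous M) (hM2 : ∀ u, 2 < u → M u = 0) (x : E (k + m))
    (hx : bl k m x ∈ Q) : TR (k + m) M (fun y => g (bl k m y)) x =
      At k m (kap m) (fun ξ => ((M (ξ.1 ^ 2 + ξ.2 ^ 2) : ℝ) : ℂ)) g (bl k m x) := by
  have h := link_gen hk hm (blk_even m hm) (κ₂ := kap m) (fun t _ => rfl) hg hM hM2 hx
  simpa only [one_mul] using h

theorem link_odd (k : ℕ) (hk : 1 ≤ k) (g : ℝ × ℝ → ℂ) (hg : Good g)
    (M : ℝ → ℝ) (hM : Continuous M) (hM2 : ∀ u, 2 < u → M u = 0) (x : E (k + 1))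
    (hx : bl k 1 x ∈ Q) :
    TR (k + 1) M (fun y => ((Real.sign (y (Fin.natAdd k 0)) : ℝ) : ℂ) * g (bl k 1 y)) x =
      ((Real.sign (x (Fin.natAdd k 0)) : ℝ) : ℂ) *
        At k 1 kaps (fun ξ => ((M (ξ.1 ^ 2 + ξ.2 ^ 2) : ℝ) : ℂ)) g (bl k 1 x) := by
  exact link_gen hk le_rfl blk_odd (κ₂ := kaps) (fun t _ => by simp) hg hM hM2 hx

end Pool.Agent.H438R2.RZ
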