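import Mathlib
import Pool.Agent.H438R2.RZ.Defs
import Pool.Agent.H438R2.BR.T7
import Pool.Agent.H438R2.BR.T9
set_option autoImplicit false

/-! # R2: integration in block polar coordinates (helper287) -/

namespace Pool.Agent.H438R2.RZ

open MeasureTheory Set Complex Filter
open scoped ENNReal RealInnerProductSpace Topology
open Pool.Agent.H789R2.FR (E sg)
open Pool.Agent.H438R2.BR (Phi L J J_mp)

namespace R2aux

theorem bl_J {k m : ℕ} (x : E k) (y : E m) : bl k m (J x y) = (‖x‖, ‖y‖) := by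
  unfold bl
  rw [EuclideanSpace.norm_eq x, EuclideanSpace.norm_eq y]
  simp [J, Fin.append_left, Fin.append_right]

theorem wt_sq (k m : ℕ) (hk : 1 ≤ k) (hm : 1 ≤ m) (z : ℝ × ℝ) (hz : z ∈ Q) :
    wt k m z ^ 2 = z.1 ^ (k - 1) * z.2 ^ (m - 1) := by
  have h1 : 0 < z.1 := hz.1
  have h2 : 0 < z.2 := hz.2
  have key : ∀ (r : ℝ) (n : ℕ), 0 < r → 1 ≤ n → (r ^ (((n : ℝ) - 1) / 2)) ^ 2 = r ^ (n - 1) := by
    intro r n hr hn
    rw [← Real.rpow_natCast, ← Real.rpow_mul hr.le, ← Real.rpow_natCast r (n - 1)]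
    congr 1
    rw [Nat.cast_sub hn]
    push_cast
    ring
  unfold wt
  rw [mul_pow, key _ _ h1 hk, key _ _ h2 hm]

theorem measQ : MeasurableSet Q := measurableSet_Ioi.prod measurableSet_Ioi

end R2aux

open R2aux

theorem bl_meas (k m : ℕ) : Measurable (bl k m) := by
  unfold bl
  refine Continuous.measurable ?_
  fun_prop

theorem bl_lint (k m : ℕ) (hk : 1 ≤ k) (hm : 1 ≤ m) (F : ℝ × ℝ → ℝ≥0∞) (hF : Measurable F) :
    ∫⁻ x : E (k + m), F (bl k m x) =
      sg k univ * sg m univ * ∫⁻ z in Q, F z * ENNReal.ofReal (wt k m z ^ 2) := by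
  have hFm : Measurable (fun x : E (k + m) => F (bl k m x)) := hF.comp (bl_meas k m)
  rw [← (J_mp k m).lintegral_comp hFm]
  simp only [bl_J]
  have hm2 : Measurable (fun p : E k × E m => F (‖p.1‖, ‖p.2‖)) :=
    hF.comp ((measurable_norm.comp measurable_fst).prodMk (measurable_norm.comp measurable_snd))
  rw [lintegral_prod _ hm2.aemeasurable]
  -- the inner integral
  set G : ℝ → ℝ≥0∞ := fun r => ∫⁻ s in Ioi (0 : ℝ), ENNReal.ofReal (s ^ (m - 1)) * F (r, s) with hG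
  have hGm : Measurable G := by
    have : Measurable (fun p : ℝ × ℝ => ENNReal.ofReal (p.2 ^ (m - 1)) * F (p.1, p.2)) :=
      ((measurable_snd.pow_const _).ennreal_ofReal).mul hF
    exact this.lintegral_prod_right' (ν := volume.restrict (Ioi (0 : ℝ)))
  have h1 : ∀ x : E k, ∫⁻ y : E m, F (‖x‖, ‖y‖) = sg m univ * G ‖x‖ := by
    intro x
    exact Pool.Agent.H438R2.BR.T7.radial (by omega) (fun s => F (‖x‖, s))
      (hF.comp measurable_prodMk_left)
  have h2 : ∫⁻ x : E k, sg m univ * G ‖x‖ = sg m univ * ∫⁻ x : E k, G ‖x‖ :=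
    lintegral_const_mul _ (hGm.comp measurable_norm)
  rw [lintegral_congr h1, h2, Pool.Agent.H438R2.BR.T7.radial (by omega) G hGm]
  -- the right-hand side
  have hrhs : ∫⁻ z in Q, F z * ENNReal.ofReal (wt k m z ^ 2) =
      ∫⁻ r in Ioi (0 : ℝ), ENNReal.ofReal (r ^ (k - 1)) * G r := by
    have e1 : ∫⁻ z in Q, F z * ENNReal.ofReal (wt k m z ^ 2) =
        ∫⁻ z in Q, ENNReal.ofReal (z.1 ^ (k - 1)) * (ENNReal.ofReal (z.2 ^ (m - 1)) * F z) := by
      refine setLIntegral_congr_fun measQ fun z hz => ?_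
      have hz1 : 0 < z.1 := hz.1
      rw [wt_sq k m hk hm z hz, ENNReal.ofReal_mul (pow_nonneg hz1.le _)]
      ring
    have e2 : (volume : Measure (ℝ × ℝ)).restrict Q =
        ((volume : Measure ℝ).restrict (Ioi 0)).prod ((volume : Measure ℝ).restrict (Ioi 0)) := by
      rw [Measure.prod_restrict]; rfl
    have hmeas : Measurable (fun z : ℝ × ℝ =>
        ENNReal.ofReal (z.1 ^ (k - 1)) * (ENNReal.ofReal (z.2 ^ (m - 1)) * F z)) :=
      ((measurable_fst.pow_const _).ennreal_ofReal).mul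
        (((measurable_snd.pow_const _).ennreal_ofReal).mul hF)
    rw [e1, e2, lintegral_prod _ hmeas.aemeasurable]
    refine lintegral_congr fun r => ?_
    rw [hG]
    have hm3 : Measurable (fun s : ℝ => ENNReal.ofReal (s ^ (m - 1)) * F (r, s)) :=
      ((measurable_id.pow_const _).ennreal_ofReal).mul (hF.comp measurable_prodMk_left)
    exact lintegral_const_mul (ENNReal.ofReal (r ^ (k - 1))) hm3
  rw [hrhs]
  ring

theorem bl_ae (k m : ℕ) (hk : 1 ≤ k) (hm : 1 ≤ m) : ∀ᵐ x : E (k + m), bl k m x ∈ Q := by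
  have h1 := bl_lint k m hk hm (Qᶜ.indicator 1) (measurable_one.indicator measQ.compl)
  have h2 : ∫⁻ z in Q, Qᶜ.indicator (1 : ℝ × ℝ → ℝ≥0∞) z * ENNReal.ofReal (wt k m z ^ 2) = 0 := by
    rw [← lintegral_zero (μ := (volume : Measure (ℝ × ℝ)).restrict Q)]
    refine setLIntegral_congr_fun measQ fun z hz => ?_
    show Qᶜ.indicator (1 : ℝ × ℝ → ℝ≥0∞) z * ENNReal.ofReal (wt k m z ^ 2) = 0
    rw [indicator_of_notMem (fun h : z ∈ Qᶜ => h hz), zero_mul]
  rw [h2, mul_zero] at h1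
  rw [ae_iff]
  have h3 : MeasurableSet {x : E (k + m) | ¬ bl k m x ∈ Q} := (bl_meas k m) measQ.compl
  rw [← lintegral_indicator_one h3, ← h1]
  rfl

theorem bl_surj (k m : ℕ) (hk : 1 ≤ k) (hm : 1 ≤ m) (z : ℝ × ℝ) (hz : z ∈ Q) :
    ∃ x : E (k + m), bl k m x = z := by
  have h1 : 0 < z.1 := hz.1
  have h2 : 0 < z.2 := hz.2
  have : NeZero k := ⟨by omega⟩
  have : NeZero m := ⟨by omega⟩
  refine ⟨J (EuclideanSpace.single 0 z.1) (EuclideanSpace.single 0 z.2), ?_⟩
  rw [bl_J]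
  refine Prod.ext ?_ ?_
  · simp [abs_of_pos h1]
  · simp [abs_of_pos h2]

end Pool.Agent.H438R2.RZ
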