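import Mathlib
import Pool.Agent.H438R2.RZ.Defs
import Pool.Agent.Helper390.CovarioA
set_option autoImplicit false

/-! # Bochner-Riesz means of block radial functions: R3, L1 norm of the kernel -/

namespace Pool.Agent.H438R2.RZ

open MeasureTheory Set Complex Filter
open scoped ENNReal RealInnerProductSpace Topology
open Pool.Agent.H789R2.FR (E sg)
open Pool.Agent.H438R2.BR (Phi L)

namespace R3aux

open FourierTransform

lemma e_norm (x : ℝ) : ‖e x‖ = 1 := by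
  unfold e
  exact Complex.norm_exp_ofReal_mul_I _

lemma e_cont : Continuous e := by
  unfold e
  fun_prop

lemma e_add (x y : ℝ) : e (x + y) = e x * e y := by
  unfold e
  rw [← Complex.exp_add]
  push_cast
  ring_nf

lemma M_int (n : ℕ) (M : ℝ → ℝ) (hM : Continuous M) (hM2 : ∀ u, 2 < u → M u = 0) :
    Integrable (fun ξ : E n => ((M (‖ξ‖ ^ 2) : ℝ) : ℂ)) := by
  refine Continuous.integrable_of_hasCompactSupport (by fun_prop) ?_
  refine HasCompactSupport.intro (isCompact_closedBall (0 : E n) 2) ?_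
  intro ξ hξ
  have h1 : 2 < ‖ξ‖ := by
    simpa using hξ
  have h2 : M (‖ξ‖ ^ 2) = 0 := hM2 _ (by nlinarith)
  rw [h2]
  simp

end R3aux

/-- convolution form of the operator -/
theorem TR_conv (n : ℕ) (M : ℝ → ℝ) (hM : Continuous M) (hM2 : ∀ u, 2 < u → M u = 0)
    (f : E n → ℂ) (hf : Integrable f) (x : E n) :
    TR n M f x = ∫ y : E n, (∫ ξ : E n, ((M (‖ξ‖ ^ 2) : ℝ) : ℂ) * e (⟪x - y, ξ⟫ : ℝ)) * f y := by
  have hMi := R3aux.M_int n M hM hM2
  have hprod : Integrable (fun p : E n × E n => (((M (‖p.1‖ ^ 2) : ℝ) : ℂ) * f p.2) *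
      e (⟪x - p.2, p.1⟫ : ℝ)) ((volume : Measure (E n)).prod volume) := by
    refine (hMi.mul_prod hf).mul_bdd (c := 1) ?_ ?_
    · refine Continuous.aestronglyMeasurable ?_
      exact R3aux.e_cont.comp (by fun_prop)
    · exact ae_of_all _ fun p => (R3aux.e_norm _).le
  have hsw := integral_integral_swap (μ := (volume : Measure (E n)))
    (ν := (volume : Measure (E n)))
    (f := fun ξ y => (((M (‖ξ‖ ^ 2) : ℝ) : ℂ) * f y) * e (⟪x - y, ξ⟫ : ℝ)) hprod
  unfold TR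
  calc ∫ ξ : E n, ((M (‖ξ‖ ^ 2) : ℝ) : ℂ) * (∫ y : E n, e (-(⟪y, ξ⟫ : ℝ)) * f y) *
          e (⟪x, ξ⟫ : ℝ)
      = ∫ ξ : E n, ∫ y : E n, (((M (‖ξ‖ ^ 2) : ℝ) : ℂ) * f y) * e (⟪x - y, ξ⟫ : ℝ) := by
        refine integral_congr_ae (ae_of_all _ fun ξ => ?_)
        simp only
        rw [← integral_const_mul, ← integral_mul_const]
        refine integral_congr_ae (ae_of_all _ fun y => ?_)
        simp only
        rw [inner_sub_left, sub_eq_add_neg, R3aux.e_add]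
        ring
    _ = ∫ y : E n, ∫ ξ : E n, (((M (‖ξ‖ ^ 2) : ℝ) : ℂ) * f y) * e (⟪x - y, ξ⟫ : ℝ) := hsw
    _ = _ := by
        refine integral_congr_ae (ae_of_all _ fun y => ?_)
        simp only
        rw [← integral_mul_const]
        refine integral_congr_ae (ae_of_all _ fun ξ => ?_)
        simp only
        ring

namespace R3aux

open FourierTransform

variable {n : ℕ}

/-- the multiplier -/
noncomputable def mm (n : ℕ) (ψ : ℝ → ℝ) (L : ℝ) (ξ : E n) : ℂ :=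
  ((ψ (L ^ 2 * (1 - ‖ξ‖ ^ 2)) : ℝ) : ℂ)

lemma mm_supp (ψ : ℝ → ℝ) (hψ : Bump ψ) (L : ℝ) (hL : 1 ≤ L) (ξ : E n) (h : mm n ψ L ξ ≠ 0) :
    ‖ξ‖ ≤ 1 ∧ 1 - 2 / L ^ 2 ≤ ‖ξ‖ ^ 2 := by
  have h1 : ψ (L ^ 2 * (1 - ‖ξ‖ ^ 2)) ≠ 0 := by
    intro h0
    apply h
    unfold mm
    rw [h0]
    simp
  obtain ⟨h2, h3⟩ := hψ.2 _ h1
  have hL2 : 0 < L ^ 2 := by positivity
  have h4 : 0 < 1 - ‖ξ‖ ^ 2 := by
    by_contra hcon
    push Not at hcon
    have : L ^ 2 * (1 - ‖ξ‖ ^ 2) ≤ 0 := mul_nonpos_of_nonneg_of_nonpos hL2.le hcon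
    linarith
  refine ⟨?_, ?_⟩
  · have := norm_nonneg ξ
    nlinarith
  · have : 1 - ‖ξ‖ ^ 2 ≤ 2 / L ^ 2 := by
      rw [le_div_iff₀ hL2]
      linarith
    linarith

lemma mm_contDiff (ψ : ℝ → ℝ) (hψ : Bump ψ) (L : ℝ) : ContDiff ℝ (⊤ : ℕ∞) (mm n ψ L) := by
  unfold mm
  have h1 : ContDiff ℝ (⊤ : ℕ∞) (fun ξ : E n => ψ (L ^ 2 * (1 - ‖ξ‖ ^ 2))) :=
    hψ.1.comp (contDiff_const.mul (contDiff_const.sub (contDiff_norm_sq ℝ)))
  exact Complex.ofRealCLM.contDiff.comp h1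

lemma mm_tsupp (ψ : ℝ → ℝ) (hψ : Bump ψ) (L : ℝ) (hL : 1 ≤ L) :
    tsupport (mm n ψ L) ⊆ Metric.closedBall 0 1 := by
  refine closure_minimal ?_ Metric.isClosed_closedBall
  intro ξ hξ
  simpa using (mm_supp ψ hψ L hL ξ hξ).1

lemma mm_cs (ψ : ℝ → ℝ) (hψ : Bump ψ) (L : ℝ) (hL : 1 ≤ L) :
    HasCompactSupport (mm n ψ L) :=
  IsCompact.of_isClosed_subset (isCompact_closedBall _ _) (isClosed_tsupport _)
    (mm_tsupp ψ hψ L hL)

lemma shell (n : ℕ) (hn : 1 ≤ n) (L : ℝ) (hL : 1 ≤ L) :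
    (volume : Measure (E n)).real {ξ | ‖ξ‖ ≤ 1 ∧ 1 - 2 / L ^ 2 ≤ ‖ξ‖ ^ 2} ≤
      2 * n * (volume : Measure (E n)).real (Metric.ball 0 1) * (1 / L ^ 2) := by
  set r : ℝ := Real.sqrt (1 - 2 / L ^ 2) with hr
  have hL2 : 0 < L ^ 2 := by positivity
  have hr0 : 0 ≤ r := Real.sqrt_nonneg _
  have hd : 0 < 2 / L ^ 2 := by positivity
  have hr1 : r ≤ 1 := by
    rw [hr, Real.sqrt_le_iff]
    exact ⟨zero_le_one, by rw [one_pow]; linarith⟩
  have hr2 : 1 - 2 / L ^ 2 ≤ r ^ 2 := by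
    by_cases h : 0 ≤ 1 - 2 / L ^ 2
    · rw [hr, Real.sq_sqrt h]
    · push Not at h
      nlinarith [sq_nonneg r]
  have hsub : {ξ : E n | ‖ξ‖ ≤ 1 ∧ 1 - 2 / L ^ 2 ≤ ‖ξ‖ ^ 2} ⊆
      Metric.closedBall 0 1 \ Metric.ball 0 r := by
    intro ξ hξ
    refine ⟨by simpa using hξ.1, ?_⟩
    intro hb
    have hb' : ‖ξ‖ < r := by simpa using hb
    have hrpos : 0 < r := lt_of_le_of_lt (norm_nonneg _) hb'
    have h3 : r ^ 2 = 1 - 2 / L ^ 2 := by
      rw [hr, Real.sq_sqrt]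
      exact (Real.sqrt_pos.1 hrpos).le
    have h4 : ‖ξ‖ ^ 2 < r ^ 2 := by
      have := norm_nonneg ξ
      nlinarith
    linarith [hξ.2]
  have hfr : Module.finrank ℝ (E n) = n := by simp
  have : Nontrivial (E n) := Module.nontrivial_of_finrank_pos (R := ℝ) (by rw [hfr]; omega)
  have hbr : (volume : Measure (E n)).real (Metric.ball 0 r) =
      r ^ n * (volume : Measure (E n)).real (Metric.ball 0 1) := by
    rw [measureReal_def, Measure.addHaar_ball _ _ hr0, hfr, ENNReal.toReal_mul,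
      ENNReal.toReal_ofReal (by positivity), ← measureReal_def]
  have hcb : (volume : Measure (E n)).real (Metric.closedBall 0 1) =
      (volume : Measure (E n)).real (Metric.ball 0 1) := by
    rw [measureReal_def, Measure.addHaar_closedBall _ _ zero_le_one, hfr, one_pow,
      ENNReal.ofReal_one, one_mul, ← measureReal_def]
  have hfin : (volume : Measure (E n)) (Metric.closedBall 0 1) ≠ ∞ :=
    (isCompact_closedBall (0 : E n) 1).measure_lt_top.ne
  have h5 : (volume : Measure (E n)).real {ξ | ‖ξ‖ ≤ 1 ∧ 1 - 2 / L ^ 2 ≤ ‖ξ‖ ^ 2} ≤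
      (volume : Measure (E n)).real (Metric.closedBall 0 1 \ Metric.ball 0 r) :=
    measureReal_mono hsub (ne_top_of_le_ne_top hfin (measure_mono sdiff_subset))
  have h6 : (volume : Measure (E n)).real (Metric.closedBall 0 1 \ Metric.ball 0 r) =
      (volume : Measure (E n)).real (Metric.closedBall 0 1) -
        (volume : Measure (E n)).real (Metric.ball 0 r) := by
    refine measureReal_sdiff ?_ Metric.isOpen_ball.measurableSet
    exact (Metric.ball_subset_ball hr1).trans Metric.ball_subset_closedBall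
  have h7 : 1 + (n : ℝ) * (r - 1) ≤ (1 + (r - 1)) ^ n :=
    one_add_mul_le_pow (by linarith) n
  rw [add_sub_cancel] at h7
  have hv : 0 ≤ (volume : Measure (E n)).real (Metric.ball 0 1) := measureReal_nonneg
  have h8 : 1 - r ^ n ≤ 2 * n * (1 / L ^ 2) := by
    have h9 : 1 - r ≤ 2 / L ^ 2 := by nlinarith
    have hn0 : (0 : ℝ) ≤ n := by positivity
    calc 1 - r ^ n ≤ n * (1 - r) := by linarith
      _ ≤ n * (2 / L ^ 2) := by gcongr
      _ = _ := by ring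
  calc _ ≤ _ := h5
    _ = (1 - r ^ n) * (volume : Measure (E n)).real (Metric.ball 0 1) := by
        rw [h6, hcb, hbr]
        ring
    _ ≤ (2 * n * (1 / L ^ 2)) * (volume : Measure (E n)).real (Metric.ball 0 1) := by gcongr
    _ = _ := by ring

lemma bd_cont {X Y : Type*} [TopologicalSpace X] [NormedAddCommGroup Y] (g : X → Y)
    (hg : Continuous g) (K : Set X) (hK : IsCompact K) : ∃ C : ℝ, 1 ≤ C ∧ ∀ x ∈ K, ‖g x‖ ≤ C := by
  obtain ⟨C, hC⟩ := hK.exists_bound_of_continuousOn hg.continuousOn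
  exact ⟨max C 1, le_max_right _ _, fun x hx => (hC x hx).trans (le_max_left _ _)⟩

lemma psi_bd (ψ : ℝ → ℝ) (hψ : Bump ψ) : ∃ A : ℝ, 1 ≤ A ∧ ∀ v, ‖ψ v‖ ≤ A := by
  obtain ⟨A, hA, hb⟩ := bd_cont ψ hψ.1.continuous (Icc (1 / 2) 2) isCompact_Icc
  refine ⟨A, hA, fun v => ?_⟩
  by_cases h : ψ v = 0
  · rw [h, norm_zero]
    linarith
  · exact hb v (hψ.2 v h)

/-- Plancherel part -/
lemma l2_part (n : ℕ) (hn : 1 ≤ n) (ψ : ℝ → ℝ) (hψ : Bump ψ) : ∃ C : ℝ, 0 < C ∧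
    ∀ L : ℝ, 1 ≤ L → ∫⁻ x : E n, ‖𝓕 (mm n ψ L) x‖ₑ ^ 2 ≤ ENNReal.ofReal (C * (1 / L ^ 2)) := by
  obtain ⟨A, hA, hb⟩ := psi_bd ψ hψ
  refine ⟨A ^ 2 * (2 * n * (volume : Measure (E n)).real (Metric.ball 0 1)) + 1, by positivity,
    fun L hL => ?_⟩
  have hc := (mm_contDiff (n := n) ψ hψ L).continuous
  have hcs := mm_cs (n := n) ψ hψ L hL
  have h1 : Integrable (mm n ψ L) := hc.integrable_of_hasCompactSupport hcs
  have h2 : MemLp (mm n ψ L) 2 := hc.memLp_of_hasCompactSupport hcs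
  obtain ⟨h3, h4⟩ := Pool.Agent.Helper390.Covario.plancherel h1 h2
  have h5 : ∫⁻ x : E n, ‖𝓕 (mm n ψ L) x‖ₑ ^ 2 =
      ENNReal.ofReal (∫ x : E n, ‖𝓕 (mm n ψ L) x‖ ^ 2) := by
    rw [ofReal_integral_eq_lintegral_ofReal h3.norm.integrable_sq
      (ae_of_all _ fun x => by positivity)]
    refine lintegral_congr fun x => ?_
    rw [ENNReal.ofReal_pow (norm_nonneg _), ofReal_norm]
  rw [h5, h4]
  apply ENNReal.ofReal_le_ofReal
  set S : Set (E n) := {ξ | ‖ξ‖ ≤ 1 ∧ 1 - 2 / L ^ 2 ≤ ‖ξ‖ ^ 2} with hS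
  have hSm : MeasurableSet S := by
    apply MeasurableSet.inter
    · exact measurableSet_le measurable_norm measurable_const
    · exact measurableSet_le measurable_const (measurable_norm.pow_const 2)
  have hSf : (volume : Measure (E n)) S ≠ ∞ := by
    refine ne_top_of_le_ne_top (isCompact_closedBall (0 : E n) 1).measure_lt_top.ne
      (measure_mono ?_)
    intro ξ hξ
    simpa using hξ.1
  have h6 : ∀ ξ, ‖mm n ψ L ξ‖ ^ 2 ≤ S.indicator (fun _ => A ^ 2) ξ := by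
    intro ξ
    by_cases h : mm n ψ L ξ = 0
    · rw [h, norm_zero]
      have : 0 ≤ S.indicator (fun _ => A ^ 2) ξ := indicator_nonneg (fun _ _ => by positivity) _
      simpa using this
    · rw [indicator_of_mem (show ξ ∈ S from mm_supp ψ hψ L hL ξ h)]
      have : ‖mm n ψ L ξ‖ ≤ A := by
        unfold mm
        rw [Complex.norm_real]
        exact hb _
      gcongr
  calc ∫ x : E n, ‖mm n ψ L x‖ ^ 2 ≤ ∫ x, S.indicator (fun _ => A ^ 2) x := by
        refine integral_mono h2.norm.integrable_sq ?_ h6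
        exact (integrable_indicator_iff hSm).2 (integrableOn_const hSf)
    _ = (volume : Measure (E n)).real S * A ^ 2 := by
        rw [integral_indicator hSm, setIntegral_const, smul_eq_mul]
    _ ≤ (2 * n * (volume : Measure (E n)).real (Metric.ball 0 1) * (1 / L ^ 2)) * A ^ 2 := by
        gcongr
        exact shell n hn L hL
    _ ≤ _ := by
        have : 0 ≤ 1 / L ^ 2 := by positivity
        nlinarith

/-- decay part -/
lemma decay_part (n : ℕ) (ψ : ℝ → ℝ) (hψ : Bump ψ) (N : ℕ) : ∃ C : ℝ, 0 < C ∧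
    ∀ L : ℝ, 1 ≤ L → ∀ x : E n, ‖x‖ ^ N * ‖𝓕 (mm n ψ L) x‖ ≤ C * L ^ (2 * N) := by
  -- bound for the derivatives of `ψ`
  have hg : ContDiff ℝ (⊤ : ℕ∞) (fun t : ℝ => ((ψ t : ℝ) : ℂ)) :=
    Complex.ofRealCLM.contDiff.comp hψ.1
  have hgs : tsupport (fun t : ℝ => ((ψ t : ℝ) : ℂ)) ⊆ Icc (1 / 2) 2 := by
    refine closure_minimal ?_ isClosed_Icc
    intro t ht
    refine hψ.2 t ?_
    intro h0
    apply ht
    simp [h0]
  have hC1 : ∀ i : ℕ, ∃ C : ℝ, 0 ≤ C ∧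
      ∀ t : ℝ, ‖iteratedFDeriv ℝ i (fun t : ℝ => ((ψ t : ℝ) : ℂ)) t‖ ≤ C := by
    intro i
    have hcont : Continuous (iteratedFDeriv ℝ i (fun t : ℝ => ((ψ t : ℝ) : ℂ))) :=
      hg.continuous_iteratedFDeriv (by exact_mod_cast le_top)
    obtain ⟨C, hC, hb⟩ := bd_cont _ hcont (Icc (1 / 2) 2) isCompact_Icc
    refine ⟨C, by linarith, fun t => ?_⟩
    by_cases h : t ∈ Icc (1 / 2 : ℝ) 2
    · exact hb t h
    · have : iteratedFDeriv ℝ i (fun t : ℝ => ((ψ t : ℝ) : ℂ)) t = 0 := by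
        by_contra hne
        exact h (hgs (support_iteratedFDeriv_subset i hne))
      rw [this, norm_zero]
      linarith
  choose c1 hc1 hc1b using hC1
  set CC : ℝ := ∑ i ∈ Finset.range (N + 1), c1 i with hCC
  have hCC0 : 0 ≤ CC := Finset.sum_nonneg fun i _ => hc1 i
  have hCCb : ∀ i ≤ N, ∀ t : ℝ,
      ‖iteratedFDeriv ℝ i (fun t : ℝ => ((ψ t : ℝ) : ℂ)) t‖ ≤ CC := by
    intro i hi t
    refine (hc1b i t).trans ?_
    exact Finset.single_le_sum (f := c1) (fun j _ => hc1 j) (Finset.mem_range.2 (by omega))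
  -- bound for the derivatives of `1 - |ξ|^2`
  have hq : ContDiff ℝ (⊤ : ℕ∞) (fun ξ : E n => 1 - ‖ξ‖ ^ 2) :=
    contDiff_const.sub (contDiff_norm_sq ℝ)
  have hC2 : ∀ i : ℕ, ∃ C : ℝ, 1 ≤ C ∧
      ∀ ξ ∈ Metric.closedBall (0 : E n) 1, ‖iteratedFDeriv ℝ i (fun ξ : E n => 1 - ‖ξ‖ ^ 2) ξ‖ ≤ C := by
    intro i
    exact bd_cont _ (hq.continuous_iteratedFDeriv (by exact_mod_cast le_top)) _
      (isCompact_closedBall _ _)
  choose c2 hc2 hc2b using hC2
  set B : ℝ := ∑ i ∈ Finset.range (N + 1), c2 i with hB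
  have hBb : ∀ i ≤ N, c2 i ≤ B := by
    intro i hi
    exact Finset.single_le_sum (f := c2) (fun j _ => by linarith [hc2 j])
      (Finset.mem_range.2 (by omega))
  have hB1 : 1 ≤ B := (hc2 0).trans (hBb 0 (by omega))
  set v : ℝ := (volume : Measure (E n)).real (Metric.closedBall 0 1) with hv
  refine ⟨2 ^ N * ((N + 1) * (N.factorial * CC * B ^ N * v)) + 1, by positivity,
    fun L hL x => ?_⟩
  have hL2 : 1 ≤ L ^ 2 := one_le_pow₀ hL
  have hLB : 1 ≤ L ^ 2 * B := one_le_mul_of_one_le_of_one_le hL2 hB1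
  have hder : ∀ j ≤ N, ∀ ξ : E n, ‖iteratedFDeriv ℝ j (mm n ψ L) ξ‖ ≤
      (Metric.closedBall (0 : E n) 1).indicator
        (fun _ => N.factorial * CC * (L ^ 2 * B) ^ N) ξ := by
    intro j hj ξ
    by_cases h : ξ ∈ Metric.closedBall (0 : E n) 1
    · rw [indicator_of_mem h]
      have hcomp : mm n ψ L = (fun t : ℝ => ((ψ t : ℝ) : ℂ)) ∘
          (fun ξ : E n => L ^ 2 • (1 - ‖ξ‖ ^ 2)) := by
        funext ξ
        simp [mm]
      have hff : ContDiff ℝ (⊤ : ℕ∞) (fun ξ : E n => L ^ 2 • (1 - ‖ξ‖ ^ 2)) :=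
        hq.const_smul (L ^ 2)
      have hD : ∀ i, 1 ≤ i → i ≤ j →
          ‖iteratedFDeriv ℝ i (fun ξ : E n => L ^ 2 • (1 - ‖ξ‖ ^ 2)) ξ‖ ≤ (L ^ 2 * B) ^ i := by
        intro i hi1 hij
        have e1 : iteratedFDeriv ℝ i (fun ξ : E n => L ^ 2 • (1 - ‖ξ‖ ^ 2)) ξ =
            L ^ 2 • iteratedFDeriv ℝ i (fun ξ : E n => 1 - ‖ξ‖ ^ 2) ξ := by
          have hqi : ContDiffAt ℝ i (fun ξ : E n => 1 - ‖ξ‖ ^ 2) ξ :=
            (hq.of_le (by exact_mod_cast le_top)).contDiffAt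
          exact iteratedFDeriv_const_smul_apply' (a := L ^ 2) hqi
        rw [e1, norm_smul, Real.norm_of_nonneg (by positivity)]
        calc L ^ 2 * ‖iteratedFDeriv ℝ i (fun ξ : E n => 1 - ‖ξ‖ ^ 2) ξ‖
            ≤ L ^ 2 * B := by
              gcongr
              exact (hc2b i ξ h).trans (hBb i (by omega))
          _ ≤ (L ^ 2 * B) ^ i := le_self_pow₀ hLB (by omega)
      rw [hcomp]
      have := norm_iteratedFDeriv_comp_le (𝕜 := ℝ) (n := j) hg hff (by exact_mod_cast le_top) ξ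
        (C := CC) (D := L ^ 2 * B) (fun i hi => hCCb i (by omega) _) hD
      refine this.trans ?_
      have hfac : (j.factorial : ℝ) ≤ N.factorial := by
        exact_mod_cast Nat.factorial_le hj
      have hpow : (L ^ 2 * B) ^ j ≤ (L ^ 2 * B) ^ N := pow_le_pow_right₀ hLB hj
      gcongr
    · rw [indicator_of_notMem h]
      have : iteratedFDeriv ℝ j (mm n ψ L) ξ = 0 := by
        by_contra hne
        exact h (mm_tsupp ψ hψ L hL (support_iteratedFDeriv_subset j hne))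
      rw [this, norm_zero]
  have hmc := mm_contDiff (n := n) ψ hψ L
  have hint : ∀ (k j : ℕ), Integrable (fun v : E n => ‖v‖ ^ k * ‖iteratedFDeriv ℝ j (mm n ψ L) v‖) := by
    intro k j
    refine Continuous.integrable_of_hasCompactSupport ?_ ?_
    · exact (continuous_norm.pow k).mul
        (hmc.continuous_iteratedFDeriv (by exact_mod_cast le_top)).norm
    · exact (((mm_cs ψ hψ L hL).iteratedFDeriv j).norm).mul_left
  have hIb : ∀ j ≤ N, ∫ v : E n, ‖v‖ ^ 0 * ‖iteratedFDeriv ℝ j (mm n ψ L) v‖ ≤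
      N.factorial * CC * (L ^ 2 * B) ^ N * v := by
    intro j hj
    calc ∫ v : E n, ‖v‖ ^ 0 * ‖iteratedFDeriv ℝ j (mm n ψ L) v‖
        ≤ ∫ ξ : E n, (Metric.closedBall (0 : E n) 1).indicator
          (fun _ => N.factorial * CC * (L ^ 2 * B) ^ N) ξ := by
          refine integral_mono (hint 0 j) ?_ ?_
          · exact (integrable_indicator_iff Metric.isClosed_closedBall.measurableSet).2
              (integrableOn_const (isCompact_closedBall (0 : E n) 1).measure_lt_top.ne)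
          · intro ξ
            simpa using hder j hj ξ
      _ = _ := by
          rw [integral_indicator Metric.isClosed_closedBall.measurableSet, setIntegral_const,
            smul_eq_mul, mul_comm]
  have key := Real.pow_mul_norm_iteratedFDeriv_fourier_le (K := ⊤) (N := ⊤) (f := mm n ψ L) hmc
    (fun k j _ _ => hint k j) (k := 0) (n := N) (by exact_mod_cast le_top)
    (by exact_mod_cast le_top) x
  rw [norm_iteratedFDeriv_zero] at key
  refine key.trans ?_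
  have hsum : ∑ p ∈ Finset.range (0 + 1) ×ˢ Finset.range (N + 1),
      ∫ v : E n, ‖v‖ ^ p.1 * ‖iteratedFDeriv ℝ p.2 (mm n ψ L) v‖ ≤
      (N + 1) * (N.factorial * CC * (L ^ 2 * B) ^ N * v) := by
    calc _ ≤ ∑ p ∈ Finset.range (0 + 1) ×ˢ Finset.range (N + 1),
        (N.factorial * CC * (L ^ 2 * B) ^ N * v) := by
          refine Finset.sum_le_sum fun p hp => ?_
          rw [Finset.mem_product, Finset.mem_range, Finset.mem_range] at hp
          have hp1 : p.1 = 0 := by omega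
          rw [hp1]
          exact hIb p.2 (by omega)
      _ = _ := by
          rw [Finset.sum_const, Finset.card_product, Finset.card_range, Finset.card_range]
          simp
  have hvn : 0 ≤ v := measureReal_nonneg
  calc _ ≤ (2 * Real.pi) ^ 0 * (2 * ((0 : ℕ) : ℝ) + 2) ^ N *
        ((N + 1) * (N.factorial * CC * (L ^ 2 * B) ^ N * v)) := by gcongr
    _ = 2 ^ N * ((N + 1) * (N.factorial * CC * B ^ N * v)) * L ^ (2 * N) := by
        rw [mul_pow (L ^ 2) B N, ← pow_mul]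
        simp
        ring
    _ ≤ _ := by
        gcongr
        linarith

lemma inv_eq (ψ : ℝ → ℝ) (L : ℝ) (x : E n) :
    ∫ ξ : E n, ((ψ (L ^ 2 * (1 - ‖ξ‖ ^ 2)) : ℝ) : ℂ) * e (⟪x, ξ⟫ : ℝ) = 𝓕 (mm n ψ L) (-x) := by
  rw [Real.fourier_eq']
  refine integral_congr_ae (ae_of_all _ fun ξ => ?_)
  simp only [smul_eq_mul]
  rw [mul_comm]
  unfold mm e
  congr 2
  rw [inner_neg_right, real_inner_comm]
  push_cast
  ring

end R3aux

theorem ker_L1 (n : ℕ) (hn : 1 ≤ n) (ψ : ℝ → ℝ) (hψ : Bump ψ) (ε : ℝ) (hε : 0 < ε) :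
    ∃ C : ℝ, 0 < C ∧ ∀ L : ℝ, 1 ≤ L →
      ∫⁻ x : E n, ‖∫ ξ : E n, ((ψ (L ^ 2 * (1 - ‖ξ‖ ^ 2)) : ℝ) : ℂ) * e (⟪x, ξ⟫ : ℝ)‖ₑ ≤
        ENNReal.ofReal (C * L ^ ((n : ℝ) - 1 + ε)) := by
  obtain ⟨C0, hC0, h0⟩ := R3aux.l2_part n hn ψ hψ
  have hnpos : (0 : ℝ) < n := by exact_mod_cast hn
  have hn1 : (1 : ℝ) ≤ n := by exact_mod_cast hn
  set δ : ℝ := 2 * ε / n with hδdef
  have hδ : 0 < δ := by positivity
  have hδn : δ * n = 2 * ε := by
    rw [hδdef]
    field_simp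
  obtain ⟨K, hK⟩ := exists_nat_ge (2 * ((n : ℝ) + 1) / δ)
  have hK' : 2 * ((n : ℝ) + 1) ≤ K * δ := by
    rwa [div_le_iff₀ hδ] at hK
  obtain ⟨C1, hC1, h1⟩ := R3aux.decay_part n ψ hψ (n + 1 + K)
  have hfr : Module.finrank ℝ (E n) = n := by simp
  have : Nontrivial (E n) := Module.nontrivial_of_finrank_pos (R := ℝ) (by rw [hfr]; omega)
  set v : ℝ := (volume : Measure (E n)).real (Metric.ball 0 1) with hv
  have hv0 : 0 ≤ v := measureReal_nonneg
  have hJi : Integrable (fun x : E n => (1 + ‖x‖) ^ (-((n : ℝ) + 1))) :=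
    integrable_one_add_norm (by rw [hfr]; linarith)
  set J : ℝ := ∫ x : E n, (1 + ‖x‖) ^ (-((n : ℝ) + 1)) with hJ
  have hJ0 : 0 ≤ J := integral_nonneg fun x => by positivity
  refine ⟨C0 + v + C1 * 2 ^ (n + 1) * J, by positivity, fun L hL => ?_⟩
  have hLpos : 0 < L := by linarith
  set G : E n → ℂ := FourierTransform.fourier (R3aux.mm n ψ L) with hG
  set X : ℝ := L ^ ((n : ℝ) - 1 + ε) with hX
  have hX1 : 1 ≤ X := Real.one_le_rpow hL (by linarith)
  have e1 : ∫⁻ x : E n, ‖∫ ξ : E n, ((ψ (L ^ 2 * (1 - ‖ξ‖ ^ 2)) : ℝ) : ℂ) * e (⟪x, ξ⟫ : ℝ)‖ₑ =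
      ∫⁻ x : E n, ‖G x‖ₑ := by
    have e2 : ∀ x : E n, ‖∫ ξ : E n, ((ψ (L ^ 2 * (1 - ‖ξ‖ ^ 2)) : ℝ) : ℂ) *
        e (⟪x, ξ⟫ : ℝ)‖ₑ = ‖G (-x)‖ₑ := by
      intro x
      rw [R3aux.inv_eq]
    rw [lintegral_congr e2]
    exact (Measure.measurePreserving_neg (volume : Measure (E n))).lintegral_comp_emb
      (MeasurableEquiv.neg (E n)).measurableEmbedding (fun x => ‖G x‖ₑ)
  rw [e1]
  set R : ℝ := L ^ (2 + δ) with hR
  have hR1 : 1 ≤ R := Real.one_le_rpow hL (by linarith)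
  have hBm : MeasurableSet (Metric.closedBall (0 : E n) R) :=
    Metric.isClosed_closedBall.measurableSet
  rw [← lintegral_add_compl _ hBm]
  -- the ball
  set lam : ℝ := L ^ ((n : ℝ) + 1 + ε) with hlam
  have hlam0 : 0 < lam := Real.rpow_pos_of_pos hLpos _
  have p1 : ∀ x : E n, ‖G x‖ₑ ≤ ENNReal.ofReal lam * ‖G x‖ₑ ^ 2 + ENNReal.ofReal lam⁻¹ := by
    intro x
    rw [← ofReal_norm, ← ENNReal.ofReal_pow (norm_nonneg _), ← ENNReal.ofReal_mul hlam0.le,
      ← ENNReal.ofReal_add (by positivity) (by positivity)]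
    apply ENNReal.ofReal_le_ofReal
    have hg := norm_nonneg (G x)
    have hl : lam * lam⁻¹ = 1 := mul_inv_cancel₀ hlam0.ne'
    have hli : 0 < lam⁻¹ := by positivity
    have h3 : 0 ≤ lam⁻¹ * (lam * ‖G x‖ - 1) ^ 2 := by positivity
    have h4 : lam⁻¹ * (lam * ‖G x‖ - 1) ^ 2 = lam * ‖G x‖ ^ 2 - 2 * ‖G x‖ + lam⁻¹ := by
      field_simp
      ring
    linarith
  have hvol : (volume : Measure (E n)) (Metric.closedBall 0 R) = ENNReal.ofReal (R ^ n * v) := by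
    rw [Measure.addHaar_closedBall _ _ (by linarith), hfr, ENNReal.ofReal_mul (by positivity), hv,
      ofReal_measureReal (Metric.isBounded_ball.measure_lt_top.ne)]
  have q1 : lam * (1 / L ^ 2) = X := by
    rw [hlam, hX, one_div, ← Real.rpow_natCast L 2, ← Real.rpow_neg hLpos.le,
      ← Real.rpow_add hLpos]
    congr 1
    push_cast
    ring
  have q2 : lam⁻¹ * R ^ n = X := by
    rw [hlam, hX, hR, ← Real.rpow_natCast (L ^ (2 + δ)) n, ← Real.rpow_neg hLpos.le,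
      ← Real.rpow_mul hLpos.le, ← Real.rpow_add hLpos]
    congr 1
    linarith
  have i1 : ∫⁻ x in Metric.closedBall (0 : E n) R, ‖G x‖ₑ ≤ ENNReal.ofReal ((C0 + v) * X) := by
    calc ∫⁻ x in Metric.closedBall (0 : E n) R, ‖G x‖ₑ
        ≤ ∫⁻ x in Metric.closedBall (0 : E n) R,
          (ENNReal.ofReal lam * ‖G x‖ₑ ^ 2 + ENNReal.ofReal lam⁻¹) := lintegral_mono fun x => p1 x
      _ = (∫⁻ x in Metric.closedBall (0 : E n) R, ENNReal.ofReal lam * ‖G x‖ₑ ^ 2) +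
          ENNReal.ofReal lam⁻¹ * volume (Metric.closedBall (0 : E n) R) := by
          rw [lintegral_add_right _ measurable_const, setLIntegral_const]
      _ ≤ (∫⁻ x : E n, ENNReal.ofReal lam * ‖G x‖ₑ ^ 2) +
          ENNReal.ofReal lam⁻¹ * volume (Metric.closedBall (0 : E n) R) := by
          gcongr
          exact Measure.restrict_le_self
      _ ≤ ENNReal.ofReal lam * ENNReal.ofReal (C0 * (1 / L ^ 2)) +
          ENNReal.ofReal lam⁻¹ * ENNReal.ofReal (R ^ n * v) := by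
          rw [lintegral_const_mul' _ _ ENNReal.ofReal_ne_top, hvol]
          gcongr
          exact h0 L hL
      _ = ENNReal.ofReal ((C0 + v) * X) := by
          rw [← ENNReal.ofReal_mul hlam0.le, ← ENNReal.ofReal_mul (by positivity),
            ← ENNReal.ofReal_add (by positivity) (by positivity)]
          congr 1
          calc lam * (C0 * (1 / L ^ 2)) + lam⁻¹ * (R ^ n * v)
              = C0 * (lam * (1 / L ^ 2)) + v * (lam⁻¹ * R ^ n) := by ring
            _ = _ := by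
              rw [q1, q2]
              ring
  -- the complement
  have p2 : ∀ x ∈ (Metric.closedBall (0 : E n) R)ᶜ,
      ‖G x‖ₑ ≤ ENNReal.ofReal (C1 * 2 ^ (n + 1) * (1 + ‖x‖) ^ (-((n : ℝ) + 1))) := by
    intro x hx
    have hxR : R < ‖x‖ := by simpa using hx
    have hx1 : 1 ≤ ‖x‖ := by linarith
    have hx0 : 0 < ‖x‖ := by linarith
    rw [← ofReal_norm]
    apply ENNReal.ofReal_le_ofReal
    have a1 := h1 L hL x
    have a2 : L ^ (2 * (n + 1 + K)) ≤ ‖x‖ ^ K := by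
      calc L ^ (2 * (n + 1 + K)) = L ^ (((2 * (n + 1 + K) : ℕ)) : ℝ) :=
            (Real.rpow_natCast L _).symm
        _ ≤ L ^ ((2 + δ) * K) := by
            apply Real.rpow_le_rpow_of_exponent_le hL
            push_cast
            linarith
        _ = R ^ K := by
            rw [hR, ← Real.rpow_natCast (L ^ (2 + δ)) K, ← Real.rpow_mul hLpos.le]
        _ ≤ ‖x‖ ^ K := by gcongr
    have a3 : ‖x‖ ^ (n + 1) * ‖G x‖ ≤ C1 := by
      have hxK : 0 < ‖x‖ ^ K := by positivity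
      have a4 : ‖x‖ ^ K * (‖x‖ ^ (n + 1) * ‖G x‖) ≤ ‖x‖ ^ K * C1 := by
        calc ‖x‖ ^ K * (‖x‖ ^ (n + 1) * ‖G x‖) = ‖x‖ ^ (n + 1 + K) * ‖G x‖ := by
              rw [pow_add]
              ring
          _ ≤ C1 * L ^ (2 * (n + 1 + K)) := a1
          _ ≤ C1 * ‖x‖ ^ K := by gcongr
          _ = _ := by ring
      exact le_of_mul_le_mul_left a4 hxK
    have a5 : (1 + ‖x‖) ^ (n + 1) ≤ 2 ^ (n + 1) * ‖x‖ ^ (n + 1) := by
      rw [← mul_pow]
      gcongr
      linarith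
    have hpos : 0 < (1 + ‖x‖) ^ (n + 1) := by positivity
    have a6 : (1 + ‖x‖) ^ (-((n : ℝ) + 1)) = ((1 + ‖x‖) ^ (n + 1))⁻¹ := by
      rw [Real.rpow_neg (by positivity), ← Real.rpow_natCast (1 + ‖x‖) (n + 1)]
      push_cast
      rfl
    rw [a6, ← div_eq_mul_inv, le_div_iff₀ hpos]
    calc ‖G x‖ * (1 + ‖x‖) ^ (n + 1) ≤ ‖G x‖ * (2 ^ (n + 1) * ‖x‖ ^ (n + 1)) := by gcongr
      _ = 2 ^ (n + 1) * (‖x‖ ^ (n + 1) * ‖G x‖) := by ring
      _ ≤ 2 ^ (n + 1) * C1 := by gcongr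
      _ = _ := by ring
  have i2 : ∫⁻ x in (Metric.closedBall (0 : E n) R)ᶜ, ‖G x‖ₑ ≤
      ENNReal.ofReal (C1 * 2 ^ (n + 1) * J) := by
    calc ∫⁻ x in (Metric.closedBall (0 : E n) R)ᶜ, ‖G x‖ₑ
        ≤ ∫⁻ x in (Metric.closedBall (0 : E n) R)ᶜ,
          ENNReal.ofReal (C1 * 2 ^ (n + 1) * (1 + ‖x‖) ^ (-((n : ℝ) + 1))) :=
          setLIntegral_mono' hBm.compl p2
      _ ≤ ∫⁻ x : E n, ENNReal.ofReal (C1 * 2 ^ (n + 1) * (1 + ‖x‖) ^ (-((n : ℝ) + 1))) := by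
          exact setLIntegral_le_lintegral _ _
      _ = ENNReal.ofReal (∫ x : E n, C1 * 2 ^ (n + 1) * (1 + ‖x‖) ^ (-((n : ℝ) + 1))) := by
          rw [ofReal_integral_eq_lintegral_ofReal (hJi.const_mul _)]
          exact ae_of_all _ fun x => by positivity
      _ = _ := by rw [integral_const_mul]
  calc _ ≤ ENNReal.ofReal ((C0 + v) * X) + ENNReal.ofReal (C1 * 2 ^ (n + 1) * J) := by
        exact add_le_add i1 i2
    _ = ENNReal.ofReal ((C0 + v) * X + C1 * 2 ^ (n + 1) * J) := by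
        rw [← ENNReal.ofReal_add (by positivity) (by positivity)]
    _ ≤ _ := by
        apply ENNReal.ofReal_le_ofReal
        have : C1 * 2 ^ (n + 1) * J ≤ C1 * 2 ^ (n + 1) * J * X :=
          le_mul_of_one_le_right (by positivity) hX1
        linarith

end Pool.Agent.H438R2.RZ
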