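import Pool.Agent.H438R2.RZ.Defs
set_option autoImplicit false

/-! # R4: sup bound for the profile operator (with R2 and R3 as hypotheses) -/

namespace Pool.Agent.H438R2.RZ

open MeasureTheory Set Complex Filter
open scoped ENNReal RealInnerProductSpace Topology
open Pool.Agent.H789R2.FR (E sg)

namespace R4aux

theorem bl_cont (k m : ℕ) : Continuous (bl k m) := by
  unfold bl
  fun_prop

theorem bl_norm (k m : ℕ) (x : E (k + m)) : ‖x‖ ^ 2 = (bl k m x).1 ^ 2 + (bl k m x).2 ^ 2 := by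
  unfold bl
  simp only
  rw [Real.sq_sqrt (Finset.sum_nonneg fun i _ => sq_nonneg _),
    Real.sq_sqrt (Finset.sum_nonneg fun i _ => sq_nonneg _), EuclideanSpace.norm_sq_eq,
    Fin.sum_univ_add]
  simp

theorem int_f (k m : ℕ) (ω : E (k + m) → ℂ) (hω : Measurable ω) (hω1 : ∀ x, ‖ω x‖ ≤ 1)
    (g : ℝ × ℝ → ℂ) (hg : Good g) : Integrable (fun y => ω y * g (bl k m y)) := by
  obtain ⟨hgm, ⟨M, hM⟩, B, hB⟩ := hg
  have hmeas : Measurable (fun y => ω y * g (bl k m y)) :=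
    hω.mul (hgm.comp (bl_cont k m).measurable)
  have hsupp : Function.support (fun y => ω y * g (bl k m y)) ⊆
      Metric.closedBall (0 : E (k + m)) (Real.sqrt (2 * B ^ 2)) := by
    intro y hy
    have h1 : g (bl k m y) ≠ 0 := by
      intro h0
      apply hy
      simp only [h0, mul_zero]
    obtain ⟨h2, h3⟩ := hB _ h1
    rw [mem_closedBall_zero_iff]
    apply Real.le_sqrt_of_sq_le
    rw [bl_norm]
    have h4 := sq_le_sq' (by linarith [neg_abs_le (bl k m y).1, h2]) (le_trans (le_abs_self _) h2)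
    have h5 := sq_le_sq' (by linarith [neg_abs_le (bl k m y).2, h3]) (le_trans (le_abs_self _) h3)
    linarith
  rw [← integrableOn_iff_integrable_of_support_subset hsupp]
  refine Measure.integrableOn_of_bounded (M := M) ?_ hmeas.aestronglyMeasurable ?_
  · exact (measure_closedBall_lt_top).ne
  · refine Filter.Eventually.of_forall fun y => ?_
    rw [norm_mul]
    have hM0 : 0 ≤ M := le_trans (norm_nonneg _) (hM 0)
    calc ‖ω y‖ * ‖g (bl k m y)‖ ≤ 1 * M :=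
          mul_le_mul (hω1 y) (hM _) (norm_nonneg _) zero_le_one
      _ = M := one_mul M

end R4aux

open R4aux in
/-- R4 with R2 (`bl_surj`) and R3 (`ker_L1`, `TR_conv`) as hypotheses -/
theorem At_sup_of (k m : ℕ) (_hk : 1 ≤ k) (_hm : 1 ≤ m)
    (hbl : ∀ z ∈ Q, ∃ x : E (k + m), bl k m x = z)
    (hker : ∀ (ψ : ℝ → ℝ) (_ : Bump ψ) (ε : ℝ) (_ : 0 < ε), ∃ C : ℝ, 0 < C ∧ ∀ L : ℝ, 1 ≤ L →
      ∫⁻ x : E (k + m), ‖∫ ξ : E (k + m), ((ψ (L ^ 2 * (1 - ‖ξ‖ ^ 2)) : ℝ) : ℂ) *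
        e (⟪x, ξ⟫ : ℝ)‖ₑ ≤ ENNReal.ofReal (C * L ^ (((k + m : ℕ) : ℝ) - 1 + ε)))
    (hTR : ∀ (M : ℝ → ℝ) (_ : Continuous M) (_ : ∀ u, 2 < u → M u = 0)
      (f : E (k + m) → ℂ) (_ : Integrable f) (x : E (k + m)),
      TR (k + m) M f x = ∫ y : E (k + m),
        (∫ ξ : E (k + m), ((M (‖ξ‖ ^ 2) : ℝ) : ℂ) * e (⟪x - y, ξ⟫ : ℝ)) * f y)
    (ω : E (k + m) → ℂ) (κ₂ : ℝ → ℂ)
    (hL : Lk k m ω κ₂) (ψ : ℝ → ℝ) (hψ : Bump ψ) (ε : ℝ) (hε : 0 < ε) : ∃ C : ℝ, 0 < C ∧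
    ∀ L : ℝ, 1 ≤ L → ∀ g : ℝ × ℝ → ℂ, Good g → ∀ B : ℝ, (∀ z, ‖g z‖ ≤ B) →
      ∀ z ∈ Q, ‖At k m κ₂ (mR ψ L) g z‖ ≤ C * L ^ (((k + m : ℕ) : ℝ) - 1 + ε) * B := by
  obtain ⟨C, hC, hK⟩ := hker ψ hψ ε hε
  refine ⟨C, hC, ?_⟩
  intro L hL1 g hg B hB z hz
  obtain ⟨hωm, hω1, hωQ, -, -, hlink⟩ := hL
  obtain ⟨x, rfl⟩ := hbl z hz
  have hB0 : 0 ≤ B := le_trans (norm_nonneg _) (hB 0)
  have hMc : Continuous (fun u => ψ (L ^ 2 * (1 - u))) := by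
    have := hψ.1.continuous
    fun_prop
  have hM2 : ∀ u, 2 < u → (fun u => ψ (L ^ 2 * (1 - u))) u = 0 := by
    intro u hu
    by_contra h
    have h1 := (hψ.2 _ h).1
    have h2 : L ^ 2 * (1 - u) ≤ 0 :=
      mul_nonpos_of_nonneg_of_nonpos (sq_nonneg L) (by linarith)
    linarith
  have e1 := hlink g hg _ hMc hM2 x hz
  have e2 : ‖At k m κ₂ (mR ψ L) g (bl k m x)‖ =
      ‖TR (k + m) (fun u => ψ (L ^ 2 * (1 - u))) (fun y => ω y * g (bl k m y)) x‖ := by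
    rw [e1, norm_mul, hωQ x hz, one_mul]
    rfl
  rw [e2, hTR _ hMc hM2 _ (int_f k m ω hωm hω1 g hg) x]
  have hpos : 0 ≤ C * L ^ (((k + m : ℕ) : ℝ) - 1 + ε) * B := by positivity
  rw [← ENNReal.ofReal_le_ofReal_iff hpos, ofReal_norm]
  calc ‖∫ y : E (k + m), (∫ ξ : E (k + m), ((ψ (L ^ 2 * (1 - ‖ξ‖ ^ 2)) : ℝ) : ℂ) *
          e (⟪x - y, ξ⟫ : ℝ)) * (ω y * g (bl k m y))‖ₑ
      ≤ ∫⁻ y : E (k + m), ‖(∫ ξ : E (k + m), ((ψ (L ^ 2 * (1 - ‖ξ‖ ^ 2)) : ℝ) : ℂ) *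
          e (⟪x - y, ξ⟫ : ℝ)) * (ω y * g (bl k m y))‖ₑ := enorm_integral_le_lintegral_enorm _
    _ ≤ ∫⁻ y : E (k + m), ‖(∫ ξ : E (k + m), ((ψ (L ^ 2 * (1 - ‖ξ‖ ^ 2)) : ℝ) : ℂ) *
          e (⟪x - y, ξ⟫ : ℝ))‖ₑ * ENNReal.ofReal B := by
        refine lintegral_mono fun y => ?_
        rw [enorm_mul]
        gcongr
        rw [← ofReal_norm]
        apply ENNReal.ofReal_le_ofReal
        rw [norm_mul]
        calc ‖ω y‖ * ‖g (bl k m y)‖ ≤ 1 * B :=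
              mul_le_mul (hω1 y) (hB _) (norm_nonneg _) zero_le_one
          _ = B := one_mul B
    _ = (∫⁻ y : E (k + m), ‖(∫ ξ : E (k + m), ((ψ (L ^ 2 * (1 - ‖ξ‖ ^ 2)) : ℝ) : ℂ) *
          e (⟪x - y, ξ⟫ : ℝ))‖ₑ) * ENNReal.ofReal B :=
        lintegral_mul_const' _ _ ENNReal.ofReal_ne_top
    _ = (∫⁻ y : E (k + m), ‖(∫ ξ : E (k + m), ((ψ (L ^ 2 * (1 - ‖ξ‖ ^ 2)) : ℝ) : ℂ) *
          e (⟪y, ξ⟫ : ℝ))‖ₑ) * ENNReal.ofReal B := by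
        rw [lintegral_sub_left_eq_self (fun y : E (k + m) =>
          ‖(∫ ξ : E (k + m), ((ψ (L ^ 2 * (1 - ‖ξ‖ ^ 2)) : ℝ) : ℂ) * e (⟪y, ξ⟫ : ℝ))‖ₑ) x]
    _ ≤ ENNReal.ofReal (C * L ^ (((k + m : ℕ) : ℝ) - 1 + ε)) * ENNReal.ofReal B := by
        gcongr
        exact hK L hL1
    _ = ENNReal.ofReal (C * L ^ (((k + m : ℕ) : ℝ) - 1 + ε) * B) := by
        rw [← ENNReal.ofReal_mul (by positivity)]

end Pool.Agent.H438R2.RZ
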