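import Mathlib
import Pool.Agent.H438R2.RZ.Defs
set_option autoImplicit false

/-! # RZ-R7: decomposition of the multiplier -/

namespace Pool.Agent.H438R2.RZ.R7aux

/-- a smooth step from `0` (on `x ≤ 1`) to `1` (on `x ≥ 2`) -/
noncomputable def h (x : ℝ) : ℝ := Real.smoothTransition (x - 1)

/-- the dyadic bump -/
noncomputable def bet (v : ℝ) : ℝ := h (2 * v) - h v

/-- the bump of the decomposition -/
noncomputable def psi (δ : ℝ) (v : ℝ) : ℝ := v ^ δ * bet v

theorem h_zero {x : ℝ} (hx : x ≤ 1) : h x = 0 :=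
  Real.smoothTransition.zero_of_nonpos (by linarith)

theorem h_one {x : ℝ} (hx : 2 ≤ x) : h x = 1 :=
  Real.smoothTransition.one_of_one_le (by linarith)

theorem h_smooth : ContDiff ℝ (⊤ : ℕ∞) h :=
  Real.smoothTransition.contDiff.comp (contDiff_id.sub contDiff_const)

theorem bet_smooth : ContDiff ℝ (⊤ : ℕ∞) bet :=
  (h_smooth.comp (contDiff_const.mul contDiff_id)).sub h_smooth

theorem bet_low {v : ℝ} (hv : v ≤ 1 / 2) : bet v = 0 := by
  unfold bet
  rw [h_zero (by linarith), h_zero (by linarith), sub_zero]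

theorem bet_high {v : ℝ} (hv : 2 ≤ v) : bet v = 0 := by
  unfold bet
  rw [h_one (by linarith), h_one hv, sub_self]

theorem psi_smooth (δ : ℝ) : ContDiff ℝ (⊤ : ℕ∞) (psi δ) := by
  rw [contDiff_iff_contDiffAt]
  intro v
  by_cases hv : v < 1 / 2
  · have : psi δ =ᶠ[nhds v] fun _ => (0 : ℝ) := by
      filter_upwards [Iio_mem_nhds hv] with w hw
      unfold psi
      rw [bet_low (le_of_lt hw), mul_zero]
    exact contDiffAt_const.congr_of_eventuallyEq this
  · have hv0 : v ≠ 0 := by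
      intro h0
      rw [h0] at hv
      norm_num at hv
    exact (Real.contDiffAt_rpow_const_of_ne hv0).mul bet_smooth.contDiffAt

theorem psi_bump (δ : ℝ) : Bump (psi δ) := by
  refine ⟨psi_smooth δ, fun v hv => ?_⟩
  constructor
  · by_contra hc
    exact hv (by unfold psi; rw [bet_low (by linarith), mul_zero])
  · by_contra hc
    exact hv (by unfold psi; rw [bet_high (by linarith), mul_zero])

theorem sum_bet (w : ℝ) (J : ℕ) :
    ∑ j ∈ Finset.range J, bet (2 ^ j * w) = h (2 ^ J * w) - h w := by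
  induction J with
  | zero => simp
  | succ J ih =>
    rw [Finset.sum_range_succ, ih]
    unfold bet
    have : (2 : ℝ) * (2 ^ J * w) = 2 ^ (J + 1) * w := by ring
    rw [this]
    ring

theorem term (δ w : ℝ) (hw : 0 < w) (j : ℕ) :
    (2 : ℝ) ^ (-(δ * j)) * psi δ (2 ^ j * w) = w ^ δ * bet (2 ^ j * w) := by
  unfold psi
  have h2 : (0 : ℝ) < 2 := by norm_num
  have h1 : ((2 : ℝ) ^ j * w) ^ δ = (2 : ℝ) ^ (δ * j) * w ^ δ := by
    rw [Real.mul_rpow (by positivity) hw.le, ← Real.rpow_natCast 2 j, ← Real.rpow_mul h2.le,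
      mul_comm (j : ℝ) δ]
  rw [h1, Real.rpow_neg h2.le]
  have h3 : (2 : ℝ) ^ (δ * j) ≠ 0 := (Real.rpow_pos_of_pos h2 _).ne'
  field_simp

end Pool.Agent.H438R2.RZ.R7aux

namespace Pool.Agent.H438R2.RZ

open R7aux

theorem decomp (δ : ℝ) (hδ : 0 < δ) : ∃ ψ : ℝ → ℝ, Bump ψ ∧ ∀ u : ℝ, 0 ≤ u →
    HasSum (fun j : ℕ => (2 : ℝ) ^ (-(δ * j)) * ψ (2 ^ j * (1 - u))) ((max (1 - u) 0) ^ δ) := by
  refine ⟨psi δ, psi_bump δ, fun u hu => ?_⟩
  by_cases hw : 1 - u ≤ 0
  · have h0 : ∀ j : ℕ, (2 : ℝ) ^ (-(δ * j)) * psi δ (2 ^ j * (1 - u)) = 0 := by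
      intro j
      have : (2 : ℝ) ^ j * (1 - u) ≤ 0 := mul_nonpos_of_nonneg_of_nonpos (by positivity) hw
      unfold psi
      rw [bet_low (by linarith), mul_zero, mul_zero]
    rw [max_eq_right hw, Real.zero_rpow hδ.ne']
    simp only [h0]
    exact hasSum_zero
  · push Not at hw
    rw [max_eq_left hw.le]
    simp only [term δ (1 - u) hw]
    obtain ⟨J, hJ⟩ := pow_unbounded_of_one_lt (2 / (1 - u)) (by norm_num : (1 : ℝ) < 2)
    have hbig : ∀ j, J ≤ j → 2 ≤ (2 : ℝ) ^ j * (1 - u) := by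
      intro j hj
      have h1 : (2 : ℝ) ^ J ≤ 2 ^ j := pow_le_pow_right₀ (by norm_num) hj
      rw [div_lt_iff₀ hw] at hJ
      nlinarith
    have hs : ∑ j ∈ Finset.range J, (1 - u) ^ δ * bet (2 ^ j * (1 - u)) = (1 - u) ^ δ := by
      rw [← Finset.mul_sum, sum_bet, h_one (hbig J le_rfl), h_zero (by linarith), sub_zero, mul_one]
    have hz : ∀ j ∉ Finset.range J, (1 - u) ^ δ * bet (2 ^ j * (1 - u)) = 0 := by
      intro j hj
      have hj' : J ≤ j := by simpa using hj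
      rw [bet_high (hbig j hj'), mul_zero]
    have this : HasSum (fun j : ℕ => (1 - u) ^ δ * bet (2 ^ j * (1 - u)))
        (∑ j ∈ Finset.range J, (1 - u) ^ δ * bet (2 ^ j * (1 - u))) :=
      hasSum_sum_of_ne_finset_zero hz
    rwa [hs] at this

end Pool.Agent.H438R2.RZ
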