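import Pool.Agent.H438R2.RZ.Defs

set_option autoImplicit false

/-! # R8: the pieces of the Bochner-Riesz multiplier are bounded on every `L^p` -/

namespace Pool.Agent.H438R2.RZ

open MeasureTheory Set Complex
open scoped ENNReal RealInnerProductSpace
open Pool.Agent.H789R2.FR (E sg)

namespace R8aux

variable {n : ℕ}

theorem lint_conv (F G : E n → ℝ≥0∞) (hF : Measurable F) (hG : Measurable G) :
    ∫⁻ x : E n, ∫⁻ y : E n, F (x - y) * G y = (∫⁻ x, F x) * ∫⁻ y, G y := by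
  have hm : AEMeasurable (Function.uncurry fun x y : E n => F (x - y) * G y)
      ((volume : Measure (E n)).prod volume) := by
    refine Measurable.aemeasurable ?_
    exact (hF.comp (measurable_fst.sub measurable_snd)).mul (hG.comp measurable_snd)
  rw [lintegral_lintegral_swap hm]
  have : ∀ y : E n, ∫⁻ x : E n, F (x - y) * G y = (∫⁻ x, F x) * G y := by
    intro y
    have hFy : Measurable fun x : E n => F (x - y) := hF.comp (measurable_id.sub_const y)
    rw [lintegral_mul_const _ hFy, lintegral_sub_right_eq_self F y]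
  simp_rw [this]
  rw [lintegral_const_mul _ hG]

theorem young (F G : E n → ℝ≥0∞) (hF : Measurable F) (hG : Measurable G) (p : ℝ) (hp : 1 ≤ p) :
    ∫⁻ x : E n, (∫⁻ y : E n, F (x - y) * G y) ^ p ≤ (∫⁻ x, F x) ^ p * ∫⁻ y, G y ^ p := by
  rcases hp.eq_or_lt with rfl | hp1
  · simp only [ENNReal.rpow_one]
    exact (lint_conv F G hF hG).le
  · have hpq : p.HolderConjugate (Real.conjExponent p) := Real.HolderConjugate.conjExponent hp1
    set q := Real.conjExponent p with hq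
    have hq0 : 0 < q := hpq.symm.pos
    have hp0 : 0 < p := hpq.pos
    have h1 : ∀ x : E n, (∫⁻ y : E n, F (x - y) * G y) ^ p ≤
        (∫⁻ y, F y) ^ (p / q) * ∫⁻ y : E n, F (x - y) * G y ^ p := by
      intro x
      have hFx : Measurable fun y : E n => F (x - y) := hF.comp (measurable_const.sub measurable_id)
      have e1 : ∀ y : E n, F (x - y) * G y =
          (F (x - y) ^ (1 / p) * G y) * F (x - y) ^ (1 / q) := by
        intro y
        have : F (x - y) = F (x - y) ^ (1 / p) * F (x - y) ^ (1 / q) := by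
          rw [← ENNReal.rpow_add_of_nonneg _ _ (by positivity) (by positivity)]
          have : 1 / p + 1 / q = 1 := by
            have := hpq.inv_add_inv_eq_one
            rw [one_div, one_div, this]
          rw [this, ENNReal.rpow_one]
        conv_lhs => rw [this]
        ring
      have h2 := ENNReal.lintegral_mul_le_Lp_mul_Lq volume hpq
        (f := fun y => F (x - y) ^ (1 / p) * G y) (g := fun y => F (x - y) ^ (1 / q))
        ((hFx.pow_const _).mul hG).aemeasurable (hFx.pow_const _).aemeasurable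
      have e2 : ∫⁻ y : E n, F (x - y) * G y =
          ∫⁻ y, ((fun y => F (x - y) ^ (1 / p) * G y) * fun y => F (x - y) ^ (1 / q)) y :=
        lintegral_congr fun y => by rw [e1 y]; rfl
      have e3 : ∀ y : E n, (F (x - y) ^ (1 / p) * G y) ^ p = F (x - y) * G y ^ p := by
        intro y
        rw [ENNReal.mul_rpow_of_nonneg _ _ hp0.le, ← ENNReal.rpow_mul, one_div,
          inv_mul_cancel₀ hp0.ne', ENNReal.rpow_one]
      have e4 : ∀ y : E n, (F (x - y) ^ (1 / q)) ^ q = F (x - y) := by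
        intro y
        rw [← ENNReal.rpow_mul, one_div, inv_mul_cancel₀ hq0.ne', ENNReal.rpow_one]
      have e5 : ∫⁻ y : E n, F (x - y) = ∫⁻ y, F y := lintegral_sub_left_eq_self F x
      rw [← e2] at h2
      simp only [e3, e4, e5] at h2
      calc (∫⁻ y : E n, F (x - y) * G y) ^ p
          ≤ ((∫⁻ y : E n, F (x - y) * G y ^ p) ^ (1 / p) * (∫⁻ y, F y) ^ (1 / q)) ^ p := by
            gcongr
        _ = (∫⁻ y, F y) ^ (p / q) * ∫⁻ y : E n, F (x - y) * G y ^ p := by
            rw [ENNReal.mul_rpow_of_nonneg _ _ hp0.le, ← ENNReal.rpow_mul, ← ENNReal.rpow_mul,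
              one_div, inv_mul_cancel₀ hp0.ne', ENNReal.rpow_one, mul_comm]
            congr 2
            field_simp
    calc ∫⁻ x : E n, (∫⁻ y : E n, F (x - y) * G y) ^ p
        ≤ ∫⁻ x : E n, (∫⁻ y, F y) ^ (p / q) * ∫⁻ y : E n, F (x - y) * G y ^ p :=
          lintegral_mono h1
      _ = (∫⁻ y, F y) ^ (p / q) * ∫⁻ x : E n, ∫⁻ y : E n, F (x - y) * G y ^ p := by
          refine lintegral_const_mul _ ?_
          refine Measurable.lintegral_prod_right' (f := fun z : E n × E n => F (z.1 - z.2) * G z.2 ^ p) ?_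
          exact (hF.comp (measurable_fst.sub measurable_snd)).mul
            ((hG.comp measurable_snd).pow_const _)
      _ = (∫⁻ y, F y) ^ (p / q) * ((∫⁻ x, F x) * ∫⁻ y, G y ^ p) := by
          rw [lint_conv F (fun y => G y ^ p) hF (hG.pow_const _)]
      _ = (∫⁻ x, F x) ^ p * ∫⁻ y, G y ^ p := by
          rw [← mul_assoc]
          congr 1
          have h3 : p / q + 1 = p := by
            have := hpq.inv_add_inv_eq_one
            have h4 : p * (p⁻¹ + q⁻¹) = p := by rw [this, mul_one]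
            rw [mul_add, mul_inv_cancel₀ hp0.ne'] at h4
            rw [div_eq_mul_inv]; linarith
          conv_rhs => rw [← h3]
          rw [ENNReal.rpow_add_of_nonneg _ _ (by positivity) (by norm_num), ENNReal.rpow_one]

/-- the kernel -/
noncomputable def Ker (n : ℕ) (M : ℝ → ℝ) (x : E n) : ℂ :=
  ∫ ξ : E n, ((M (‖ξ‖ ^ 2) : ℝ) : ℂ) * e (⟪x, ξ⟫ : ℝ)

theorem e_cont : Continuous e := by
  unfold e
  fun_prop

theorem ker_meas (M : ℝ → ℝ) (hM : Continuous M) : Measurable (Ker n M) := by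
  have hc : Continuous (fun z : E n × E n => ((M (‖z.2‖ ^ 2) : ℝ) : ℂ) * e (⟪z.1, z.2⟫ : ℝ)) := by
    have := e_cont
    fun_prop
  have h := StronglyMeasurable.integral_prod_right' (ν := (volume : Measure (E n)))
    hc.stronglyMeasurable
  exact h.measurable

theorem main (M : ℝ → ℝ) (hM : Continuous M)
    (hconv : ∀ (f : E n → ℂ), Integrable f → ∀ x : E n,
      TR n M f x = ∫ y : E n, (∫ ξ : E n, ((M (‖ξ‖ ^ 2) : ℝ) : ℂ) * e (⟪x - y, ξ⟫ : ℝ)) * f y)
    (p : ℝ) (hp : 1 ≤ p) (f : E n → ℂ) (hf : Integrable f) (hfm : Measurable f) :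
    eLpNorm (TR n M f) (ENNReal.ofReal p) volume ≤
      (∫⁻ x, ‖Ker n M x‖ₑ) * eLpNorm f (ENNReal.ofReal p) volume := by
  have hp0 : 0 < p := lt_of_lt_of_le one_pos hp
  have h0 : ENNReal.ofReal p ≠ 0 := by
    rw [Ne, ENNReal.ofReal_eq_zero]; linarith
  rw [eLpNorm_eq_lintegral_rpow_enorm_toReal h0 ENNReal.ofReal_ne_top,
    eLpNorm_eq_lintegral_rpow_enorm_toReal h0 ENNReal.ofReal_ne_top, ENNReal.toReal_ofReal hp0.le]
  have h1 : ∀ x, ‖TR n M f x‖ₑ ≤ ∫⁻ y : E n, ‖Ker n M (x - y)‖ₑ * ‖f y‖ₑ := by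
    intro x
    rw [hconv f hf x]
    refine (enorm_integral_le_lintegral_enorm _).trans ?_
    refine lintegral_mono fun y => ?_
    rw [enorm_mul]
    rfl
  have h2 := young (n := n) (fun x => ‖Ker n M x‖ₑ) (fun y => ‖f y‖ₑ)
    (ker_meas M hM).enorm hfm.enorm p hp
  calc (∫⁻ x, ‖TR n M f x‖ₑ ^ p) ^ (1 / p)
      ≤ (∫⁻ x, (∫⁻ y : E n, ‖Ker n M (x - y)‖ₑ * ‖f y‖ₑ) ^ p) ^ (1 / p) := by
        gcongr with x
        exact h1 x
    _ ≤ ((∫⁻ x, ‖Ker n M x‖ₑ) ^ p * ∫⁻ y, ‖f y‖ₑ ^ p) ^ (1 / p) := by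
        gcongr
    _ = (∫⁻ x, ‖Ker n M x‖ₑ) * (∫⁻ y, ‖f y‖ₑ ^ p) ^ (1 / p) := by
        rw [ENNReal.mul_rpow_of_nonneg _ _ (by positivity), ← ENNReal.rpow_mul, mul_one_div,
          div_self hp0.ne', ENNReal.rpow_one]

theorem norm_e (x : ℝ) : ‖e x‖ = 1 := by
  unfold e
  rw [Complex.norm_exp_ofReal_mul_I]

theorem e_add (x y : ℝ) : e (x + y) = e x * e y := by
  unfold e
  rw [← Complex.exp_add]
  congr 1
  push_cast
  ring

/-- convolution form of the operator, for multipliers with bounded support -/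
theorem conv (M : ℝ → ℝ) (hM : Continuous M) (hM2 : ∀ u, 2 < u → M u = 0)
    (f : E n → ℂ) (hf : Integrable f) (x : E n) :
    TR n M f x = ∫ y : E n, (∫ ξ : E n, ((M (‖ξ‖ ^ 2) : ℝ) : ℂ) * e (⟪x - y, ξ⟫ : ℝ)) * f y := by
  have hmc : Continuous fun ξ : E n => ((M (‖ξ‖ ^ 2) : ℝ) : ℂ) := by fun_prop
  have hms : HasCompactSupport fun ξ : E n => ((M (‖ξ‖ ^ 2) : ℝ) : ℂ) := by
    apply HasCompactSupport.of_support_subset_isCompact (isCompact_closedBall (0 : E n) 2)
    intro ξ hξ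
    rw [Function.mem_support] at hξ
    rw [mem_closedBall_zero_iff]
    by_contra h
    push Not at h
    apply hξ
    rw [hM2 _ (by nlinarith), Complex.ofReal_zero]
  have hmi : Integrable fun ξ : E n => ((M (‖ξ‖ ^ 2) : ℝ) : ℂ) :=
    hmc.integrable_of_hasCompactSupport hms
  have hprod : Integrable (fun z : E n × E n => (((M (‖z.1‖ ^ 2) : ℝ) : ℂ) * f z.2) *
      e (⟪x - z.2, z.1⟫ : ℝ)) ((volume : Measure (E n)).prod volume) := by
    have h1 := hmi.mul_prod hf
    refine h1.mul_bdd (c := 1) ?_ ?_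
    · apply Continuous.aestronglyMeasurable
      have := e_cont
      fun_prop
    · exact Filter.Eventually.of_forall fun z => (norm_e _).le
  unfold TR
  calc ∫ ξ : E n, ((M (‖ξ‖ ^ 2) : ℝ) : ℂ) * (∫ y : E n, e (-(⟪y, ξ⟫ : ℝ)) * f y) * e (⟪x, ξ⟫ : ℝ)
      = ∫ ξ : E n, ∫ y : E n, (((M (‖ξ‖ ^ 2) : ℝ) : ℂ) * f y) * e (⟪x - y, ξ⟫ : ℝ) := by
        congr 1
        funext ξ
        rw [mul_assoc, ← integral_mul_const, ← integral_const_mul]
        congr 1
        funext y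
        rw [inner_sub_left, sub_eq_add_neg, e_add]
        ring
    _ = ∫ y : E n, ∫ ξ : E n, (((M (‖ξ‖ ^ 2) : ℝ) : ℂ) * f y) * e (⟪x - y, ξ⟫ : ℝ) :=
        integral_integral_swap hprod
    _ = _ := by
        congr 1
        funext y
        rw [← integral_mul_const]
        congr 1
        funext ξ
        ring

open FourierTransform SchwartzMap in
theorem ker_int (M : ℝ → ℝ) (hM : ContDiff ℝ (⊤ : ℕ∞) M) (hM2 : ∀ u, 2 < u → M u = 0) :
    Integrable (Ker n M) := by
  have hms : HasCompactSupport fun ξ : E n => ((M (‖ξ‖ ^ 2) : ℝ) : ℂ) := by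
    apply HasCompactSupport.of_support_subset_isCompact (isCompact_closedBall (0 : E n) 2)
    intro ξ hξ
    rw [Function.mem_support] at hξ
    rw [mem_closedBall_zero_iff]
    by_contra h
    push Not at h
    apply hξ
    rw [hM2 _ (by nlinarith), Complex.ofReal_zero]
  have hmd : ContDiff ℝ (⊤ : ℕ∞) fun ξ : E n => ((M (‖ξ‖ ^ 2) : ℝ) : ℂ) := by
    have h1 : ContDiff ℝ (⊤ : ℕ∞) fun ξ : E n => M (‖ξ‖ ^ 2) := hM.comp (contDiff_norm_sq ℝ)
    exact Complex.ofRealCLM.contDiff.comp h1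
  let φ : SchwartzMap (E n) ℂ := hms.toSchwartzMap hmd
  have h2 : Ker n M = (𝓕⁻ φ : SchwartzMap (E n) ℂ) := by
    funext x
    rw [SchwartzMap.fourierInv_coe, Real.fourierInv_eq']
    unfold Ker
    congr 1
    funext ξ
    rw [smul_eq_mul, mul_comm]
    have : (φ ξ : ℂ) = ((M (‖ξ‖ ^ 2) : ℝ) : ℂ) := rfl
    rw [this]
    congr 1
    unfold e
    rw [real_inner_comm]
  rw [h2]
  exact (𝓕⁻ φ : SchwartzMap (E n) ℂ).integrable

end R8aux

open R8aux in
theorem smooth_Lp (n : ℕ) (hn : 1 ≤ n) (ψ : ℝ → ℝ) (hψ : Bump ψ) (p : ℝ) (hp : 1 ≤ p) (L : ℝ)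
    (hL : 1 ≤ L) : ∃ C : ℝ, 0 < C ∧ ∀ f : SchwartzMap (E n) ℂ,
      eLpNorm (TR n (fun u => ψ (L ^ 2 * (1 - u))) (fun x => f x)) (ENNReal.ofReal p) volume ≤
        ENNReal.ofReal C * eLpNorm (fun x => f x) (ENNReal.ofReal p) volume := by
  have hMd : ContDiff ℝ (⊤ : ℕ∞) (fun u : ℝ => ψ (L ^ 2 * (1 - u))) := hψ.1.comp (by fun_prop)
  have hM2 : ∀ u : ℝ, 2 < u → (fun u : ℝ => ψ (L ^ 2 * (1 - u))) u = 0 := by
    intro u hu
    by_contra h
    have h1 := (hψ.2 _ h).1
    nlinarith [sq_nonneg L]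
  have hint := ker_int (n := n) _ hMd hM2
  refine ⟨(∫⁻ x, ‖Ker n (fun u : ℝ => ψ (L ^ 2 * (1 - u))) x‖ₑ).toReal + 1,
    by positivity, fun f => ?_⟩
  refine (main _ hMd.continuous (fun g hg x => conv _ hMd.continuous hM2 g hg x) p hp _
    f.integrable f.continuous.measurable).trans ?_
  gcongr
  have hfin : (∫⁻ x, ‖Ker n (fun u : ℝ => ψ (L ^ 2 * (1 - u))) x‖ₑ) ≠ ∞ :=
    hint.hasFiniteIntegral.ne
  rw [ENNReal.le_ofReal_iff_toReal_le hfin (by positivity)]
  linarith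

end Pool.Agent.H438R2.RZ
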