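import Mathlib
import Pool.Agent.H438R2.RZ.Defs
import Pool.Agent.H438R2.RZ.R2
set_option autoImplicit false

/-! # R9: from the profile operator to functions on `ℝ^n` -/

namespace Pool.Agent.H438R2.RZ

open MeasureTheory Set Complex Filter
open scoped ENNReal RealInnerProductSpace Topology
open Pool.Agent.H789R2.FR (E sg)
open Pool.Agent.H438R2.BR (Phi L)

namespace R9aux

theorem norm_e (x : ℝ) : ‖e x‖ = 1 := by
  unfold e
  exact Complex.norm_exp_ofReal_mul_I _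

theorem cont_e : Continuous e := by
  unfold e
  fun_prop

theorem bl_meas' (k m : ℕ) : Measurable (bl k m) := by
  unfold bl
  fun_prop

/-- a section of `bl` -/
noncomputable def sec (k m : ℕ) (hk : 1 ≤ k) (hm : 1 ≤ m) (z : ℝ × ℝ) : E (k + m) :=
  EuclideanSpace.single (Fin.castAdd m ⟨0, hk⟩) z.1 +
    EuclideanSpace.single (Fin.natAdd k ⟨0, hm⟩) z.2

theorem sec_cont (k m : ℕ) (hk : 1 ≤ k) (hm : 1 ≤ m) : Continuous (sec k m hk hm) := by
  unfold sec
  have h1 : Continuous (fun a : ℝ => (EuclideanSpace.single (Fin.castAdd m (⟨0, hk⟩ : Fin k)) a :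
      E (k + m))) := by
    have : (fun a : ℝ => (EuclideanSpace.single (Fin.castAdd m (⟨0, hk⟩ : Fin k)) a :
      E (k + m))) = fun a => a • EuclideanSpace.single (Fin.castAdd m (⟨0, hk⟩ : Fin k)) (1 : ℝ) := by
      funext a
      ext i
      simp
    rw [this]
    fun_prop
  have h2 : Continuous (fun a : ℝ => (EuclideanSpace.single (Fin.natAdd k (⟨0, hm⟩ : Fin m)) a :
      E (k + m))) := by
    have : (fun a : ℝ => (EuclideanSpace.single (Fin.natAdd k (⟨0, hm⟩ : Fin m)) a :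
      E (k + m))) = fun a => a • EuclideanSpace.single (Fin.natAdd k (⟨0, hm⟩ : Fin m)) (1 : ℝ) := by
      funext a
      ext i
      simp
    rw [this]
    fun_prop
  exact (h1.comp continuous_fst).add (h2.comp continuous_snd)

theorem bl_sec (k m : ℕ) (hk : 1 ≤ k) (hm : 1 ≤ m) (z : ℝ × ℝ) (hz : z ∈ Q) :
    bl k m (sec k m hk hm z) = z := by
  obtain ⟨h1, h2⟩ := hz
  have h1' : 0 < z.1 := h1
  have h2' : 0 < z.2 := h2
  unfold bl sec
  have e1 : ∀ i : Fin k, (EuclideanSpace.single (Fin.castAdd m (⟨0, hk⟩ : Fin k)) z.1 +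
      EuclideanSpace.single (Fin.natAdd k (⟨0, hm⟩ : Fin m)) z.2 : E (k + m)) (Fin.castAdd m i) =
      if i = ⟨0, hk⟩ then z.1 else 0 := by
    intro i
    have h3 : Fin.castAdd m i ≠ Fin.natAdd k (⟨0, hm⟩ : Fin m) := by
      intro h
      have := congrArg Fin.val h
      simp at this
      omega
    rw [PiLp.add_apply, EuclideanSpace.single_apply, EuclideanSpace.single_apply, if_neg h3,
      add_zero]
    congr 1
    exact propext ⟨fun h => Fin.castAdd_injective k m h, fun h => by rw [h]⟩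
  have e2 : ∀ i : Fin m, (EuclideanSpace.single (Fin.castAdd m (⟨0, hk⟩ : Fin k)) z.1 +
      EuclideanSpace.single (Fin.natAdd k (⟨0, hm⟩ : Fin m)) z.2 : E (k + m)) (Fin.natAdd k i) =
      if i = ⟨0, hm⟩ then z.2 else 0 := by
    intro i
    have h3 : Fin.natAdd k i ≠ Fin.castAdd m (⟨0, hk⟩ : Fin k) := by
      intro h
      have := congrArg Fin.val h
      simp at this
      omega
    rw [PiLp.add_apply, EuclideanSpace.single_apply, EuclideanSpace.single_apply, if_neg h3,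
      zero_add]
    congr 1
    exact propext ⟨fun h => Fin.natAdd_injective m k h, fun h => by rw [h]⟩
  simp only [e1, e2]
  have s1 : ∑ i : Fin k, (if i = ⟨0, hk⟩ then z.1 else 0) ^ 2 = z.1 ^ 2 := by
    rw [Finset.sum_eq_single (⟨0, hk⟩ : Fin k)]
    · simp
    · intro b _ hb
      rw [if_neg hb]
      norm_num
    · intro h
      exact absurd (Finset.mem_univ _) h
  have s2 : ∑ i : Fin m, (if i = ⟨0, hm⟩ then z.2 else 0) ^ 2 = z.2 ^ 2 := by
    rw [Finset.sum_eq_single (⟨0, hm⟩ : Fin m)]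
    · simp
    · intro b _ hb
      rw [if_neg hb]
      norm_num
    · intro h
      exact absurd (Finset.mem_univ _) h
  rw [s1, s2, Real.sqrt_sq h1'.le, Real.sqrt_sq h2'.le]

/-- the Fourier transform in `TR` -/
noncomputable def FT {n : ℕ} (f : E n → ℂ) (ξ : E n) : ℂ := ∫ y : E n, e (-(⟪y, ξ⟫ : ℝ)) * f y

theorem FT_cont {n : ℕ} {f : E n → ℂ} (hf : Integrable f) : Continuous (FT f) := by
  refine continuous_of_dominated (bound := fun y => ‖f y‖) (fun ξ => ?_) (fun ξ => ?_) hf.norm ?_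
  · refine AEStronglyMeasurable.mul ?_ hf.aestronglyMeasurable
    exact (cont_e.comp (by fun_prop)).aestronglyMeasurable
  · refine ae_of_all _ fun y => ?_
    rw [norm_mul, norm_e, one_mul]
  · refine ae_of_all _ fun y => ?_
    exact (cont_e.comp (by fun_prop)).mul continuous_const

theorem FT_le {n : ℕ} {f : E n → ℂ} (ξ : E n) : ‖FT f ξ‖ ≤ ∫ y, ‖f y‖ := by
  refine (norm_integral_le_integral_norm _).trans (le_of_eq ?_)
  refine integral_congr_ae (ae_of_all _ fun y => ?_)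
  show ‖e (-(⟪y, ξ⟫ : ℝ)) * f y‖ = ‖f y‖
  rw [norm_mul, norm_e, one_mul]

theorem int_M {n : ℕ} {M : ℝ → ℝ} (hM : Continuous M) (hM2 : ∀ u, 2 < u → M u = 0) :
    Integrable (fun ξ : E n => ((M (‖ξ‖ ^ 2) : ℝ) : ℂ)) := by
  refine Continuous.integrable_of_hasCompactSupport (by fun_prop) ?_
  refine HasCompactSupport.of_support_subset_isCompact (K := Metric.closedBall 0 2)
    (isCompact_closedBall _ _) ?_
  intro ξ hξ
  rw [mem_closedBall_zero_iff]
  by_contra hcon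
  rw [not_le] at hcon
  apply hξ
  show ((M (‖ξ‖ ^ 2) : ℝ) : ℂ) = 0
  rw [hM2 _ (by nlinarith), Complex.ofReal_zero]

theorem TR_eq {n : ℕ} (M : ℝ → ℝ) (f : E n → ℂ) (x : E n) :
    TR n M f x = ∫ ξ : E n, ((M (‖ξ‖ ^ 2) : ℝ) : ℂ) * FT f ξ * e (⟪x, ξ⟫ : ℝ) := rfl

theorem TR_cont {n : ℕ} {M : ℝ → ℝ} (hM : Continuous M) (hM2 : ∀ u, 2 < u → M u = 0)
    {f : E n → ℂ} (hf : Integrable f) : Continuous (TR n M f) := by
  have h1 := int_M (n := n) hM hM2
  have h0 : Continuous (fun x : E n => ∫ ξ : E n, ((M (‖ξ‖ ^ 2) : ℝ) : ℂ) * FT f ξ *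
      e (⟪x, ξ⟫ : ℝ)) := by
    refine continuous_of_dominated (bound := fun ξ => ‖((M (‖ξ‖ ^ 2) : ℝ) : ℂ)‖ * ∫ y, ‖f y‖)
      (fun x => ?_) (fun x => ?_) (h1.norm.mul_const _) ?_
    · refine Continuous.aestronglyMeasurable ?_
      exact ((by fun_prop : Continuous (fun ξ : E n => ((M (‖ξ‖ ^ 2) : ℝ) : ℂ))).mul
        (FT_cont hf)).mul (cont_e.comp (by fun_prop))
    · refine ae_of_all _ fun ξ => ?_
      rw [norm_mul, norm_e, mul_one, norm_mul]
      exact mul_le_mul_of_nonneg_left (FT_le ξ) (norm_nonneg _)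
    · refine ae_of_all _ fun ξ => ?_
      exact continuous_const.mul (cont_e.comp (by fun_prop))
  exact h0

theorem TR_tendsto {n : ℕ} {M : ℝ → ℝ} (hM : Continuous M) (hM2 : ∀ u, 2 < u → M u = 0)
    {f : E n → ℂ} {F : ℕ → E n → ℂ} (hf : Integrable f) (hF : ∀ j, AEStronglyMeasurable (F j) volume)
    (hle : ∀ j, ∀ᵐ y, ‖F j y‖ ≤ ‖f y‖) (hlim : ∀ᵐ y, Tendsto (fun j => F j y) atTop (𝓝 (f y)))
    (x : E n) : Tendsto (fun j => TR n M (F j) x) atTop (𝓝 (TR n M f x)) := by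
  have hFi : ∀ j, Integrable (F j) := fun j => hf.mono (hF j) (hle j)
  have h1 : ∀ ξ : E n, Tendsto (fun j => FT (F j) ξ) atTop (𝓝 (FT f ξ)) := by
    intro ξ
    refine tendsto_integral_of_dominated_convergence (fun y => ‖f y‖) (fun j => ?_) hf.norm
      (fun j => ?_) ?_
    · exact ((cont_e.comp (by fun_prop)).aestronglyMeasurable).mul (hF j)
    · filter_upwards [hle j] with y hy
      rw [norm_mul, norm_e, one_mul]
      exact hy
    · filter_upwards [hlim] with y hy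
      exact hy.const_mul _
  have h0 := int_M (n := n) hM hM2
  refine tendsto_integral_of_dominated_convergence
    (fun ξ => ‖((M (‖ξ‖ ^ 2) : ℝ) : ℂ)‖ * ∫ y, ‖f y‖) (fun j => ?_) (h0.norm.mul_const _)
    (fun j => ?_) ?_
  · refine Continuous.aestronglyMeasurable ?_
    exact ((by fun_prop : Continuous (fun ξ : E n => ((M (‖ξ‖ ^ 2) : ℝ) : ℂ))).mul
      (FT_cont (hFi j))).mul (cont_e.comp (by fun_prop))
  · refine ae_of_all _ fun ξ => ?_
    rw [norm_mul, norm_e, mul_one, norm_mul]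
    refine mul_le_mul_of_nonneg_left ?_ (norm_nonneg _)
    refine (FT_le (f := F j) ξ).trans ?_
    exact integral_mono_ae (hFi j).norm hf.norm (hle j)
  · refine ae_of_all _ fun ξ => ?_
    exact ((h1 ξ).const_mul _).mul_const _

end R9aux

open R9aux in
/-- version with the results of task R2 as hypotheses -/
theorem rn_bound' (k m : ℕ) (hk : 1 ≤ k) (hm : 1 ≤ m)
    (hae : ∀ᵐ x : E (k + m), bl k m x ∈ Q)
    (hlint : ∀ F : ℝ × ℝ → ℝ≥0∞, Measurable F → ∫⁻ x : E (k + m), F (bl k m x) =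
      sg k univ * sg m univ * ∫⁻ z in Q, F z * ENNReal.ofReal (wt k m z ^ 2))
    (ω : E (k + m) → ℂ)
    (κ₂ : ℝ → ℂ) (hL : Lk k m ω κ₂) (ψ : ℝ → ℝ) (hψ : Bump ψ) (p L N : ℝ) (hp : 1 < p)
    (h1L : 1 ≤ L) (hN : 0 < N)
    (hb : ∀ g : ℝ × ℝ → ℂ, Good g →
      ∫⁻ z in Q, ‖At k m κ₂ (mR ψ L) g z‖ₑ ^ p * ENNReal.ofReal (wt k m z ^ 2) ≤
        ENNReal.ofReal (N ^ p) * ∫⁻ z in Q, ‖g z‖ₑ ^ p * ENNReal.ofReal (wt k m z ^ 2))
    (f : E (k + m) → ℂ) (hf : Integrable f) (hfb : ∃ B : ℝ, ∀ x, ‖f x‖ ≤ B)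
    (g : ℝ × ℝ → ℂ) (hg : Measurable g) (hfg : ∀ x, bl k m x ∈ Q → f x = ω x * g (bl k m x)) :
    eLpNorm (TR (k + m) (fun u => ψ (L ^ 2 * (1 - u))) f) (ENNReal.ofReal p) volume ≤
      ENNReal.ofReal N * eLpNorm f (ENNReal.ofReal p) volume := by
  classical
  obtain ⟨hωm, hω1, hω2, -, -, hlk⟩ := hL
  obtain ⟨B, hB⟩ := hfb
  have hp0 : 0 < p := by linarith
  set M : ℝ → ℝ := fun u => ψ (L ^ 2 * (1 - u)) with hM
  have hMc : Continuous M := by
    have := hψ.1.continuous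
    fun_prop
  have hM2 : ∀ u, 2 < u → M u = 0 := by
    intro u hu
    by_contra hcon
    have h1 := (hψ.2 _ hcon).1
    nlinarith
  have hQm : MeasurableSet Q := measurableSet_Ioi.prod measurableSet_Ioi
  -- truncations
  set gj : ℕ → ℝ × ℝ → ℂ := fun j z => if z ∈ Q ∧ z.1 ≤ j ∧ z.2 ≤ j then g z else 0 with hgj
  have hset : ∀ j : ℕ, MeasurableSet {z : ℝ × ℝ | z ∈ Q ∧ z.1 ≤ j ∧ z.2 ≤ j} := fun j =>
    hQm.inter ((measurableSet_le measurable_fst measurable_const).inter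
      (measurableSet_le measurable_snd measurable_const))
  have hgjm : ∀ j, Measurable (gj j) := fun j => Measurable.ite (hset j) hg measurable_const
  have hgQ : ∀ z ∈ Q, ‖g z‖ ≤ B := by
    intro z hz
    have h1 := bl_sec k m hk hm z hz
    have h2 : bl k m (sec k m hk hm z) ∈ Q := by rw [h1]; exact hz
    have h3 := hfg _ h2
    have h4 := hB (sec k m hk hm z)
    rw [h3, norm_mul, hω2 _ h2, one_mul, h1] at h4
    exact h4
  have hB0 : 0 ≤ B := (norm_nonneg _).trans (hB 0)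
  have hgood : ∀ j, Good (gj j) := by
    intro j
    refine ⟨hgjm j, ⟨B, fun z => ?_⟩, ⟨j, fun z hz => ?_⟩⟩
    · simp only [hgj]
      split_ifs with h
      · exact hgQ z h.1
      · rw [norm_zero]; exact hB0
    · have h : z ∈ Q ∧ z.1 ≤ j ∧ z.2 ≤ j := by
        by_contra hcon
        exact hz (by simp only [hgj, if_neg hcon])
      have h1 : 0 < z.1 := h.1.1
      have h2 : 0 < z.2 := h.1.2
      rw [abs_of_pos h1, abs_of_pos h2]
      exact h.2
  set F : ℕ → E (k + m) → ℂ := fun j x => ω x * gj j (bl k m x) with hF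
  have hFm : ∀ j, Measurable (F j) := fun j => hωm.mul ((hgjm j).comp (bl_meas' k m))
  have hFle : ∀ j, ∀ᵐ x, ‖F j x‖ ≤ ‖f x‖ := by
    intro j
    filter_upwards [hae] with x hx
    simp only [hF, hgj]
    rw [hfg x hx, norm_mul, norm_mul]
    refine mul_le_mul_of_nonneg_left ?_ (norm_nonneg _)
    split_ifs
    · exact le_rfl
    · rw [norm_zero]; exact norm_nonneg _
  have hFlim : ∀ᵐ x, Tendsto (fun j => F j x) atTop (𝓝 (f x)) := by
    filter_upwards [hae] with x hx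
    refine tendsto_const_nhds.congr' ?_
    obtain ⟨N1, hN1⟩ := exists_nat_ge (max (bl k m x).1 (bl k m x).2)
    filter_upwards [eventually_ge_atTop N1] with j hj
    have hj' : (N1 : ℝ) ≤ j := by exact_mod_cast hj
    have h1 : bl k m x ∈ Q ∧ (bl k m x).1 ≤ j ∧ (bl k m x).2 ≤ j :=
      ⟨hx, ((le_max_left _ _).trans hN1).trans hj', ((le_max_right _ _).trans hN1).trans hj'⟩
    simp only [hF, hgj, if_pos h1]
    exact hfg x hx
  have hFi : ∀ j, Integrable (F j) := fun j => hf.mono (hFm j).aestronglyMeasurable (hFle j)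
  have hTc : ∀ j, Continuous (TR (k + m) M (F j)) := fun j => TR_cont hMc hM2 (hFi j)
  -- the bound for the truncations
  have hmain : ∀ j, ∫⁻ x, ‖TR (k + m) M (F j) x‖ₑ ^ p ≤
      ENNReal.ofReal (N ^ p) * ∫⁻ x, ‖f x‖ₑ ^ p := by
    intro j
    have hkey : ∀ x, bl k m x ∈ Q → ‖TR (k + m) M (F j) x‖ₑ =
        ‖At k m κ₂ (mR ψ L) (gj j) (bl k m x)‖ₑ := by
      intro x hx
      have h1 := hlk (gj j) (hgood j) M hMc hM2 x hx
      have h2 : TR (k + m) M (F j) x = ω x * At k m κ₂ (mR ψ L) (gj j) (bl k m x) := h1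
      rw [h2, enorm_mul]
      have h3 : ‖ω x‖ₑ = 1 := by
        rw [← ofReal_norm, hω2 x hx, ENNReal.ofReal_one]
      rw [h3, one_mul]
    set Φ : ℝ × ℝ → ℝ≥0∞ := fun z => ‖TR (k + m) M (F j) (sec k m hk hm z)‖ₑ ^ p with hΦ
    have hΦm : Measurable Φ := by
      have h1 : Measurable (fun z => ‖TR (k + m) M (F j) (sec k m hk hm z)‖ₑ) :=
        ((hTc j).comp (sec_cont k m hk hm)).measurable.enorm
      exact h1.pow_const p
    have hΦQ : ∀ z ∈ Q, Φ z = ‖At k m κ₂ (mR ψ L) (gj j) z‖ₑ ^ p := by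
      intro z hz
      simp only [hΦ]
      rw [hkey _ (by rw [bl_sec k m hk hm z hz]; exact hz), bl_sec k m hk hm z hz]
    have e1 : ∫⁻ x, ‖TR (k + m) M (F j) x‖ₑ ^ p = ∫⁻ x : E (k + m), Φ (bl k m x) := by
      refine lintegral_congr_ae ?_
      filter_upwards [hae] with x hx
      rw [hΦQ _ hx, hkey x hx]
    have e2 : ∫⁻ z in Q, Φ z * ENNReal.ofReal (wt k m z ^ 2) =
        ∫⁻ z in Q, ‖At k m κ₂ (mR ψ L) (gj j) z‖ₑ ^ p * ENNReal.ofReal (wt k m z ^ 2) := by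
      refine setLIntegral_congr_fun hQm fun z hz => ?_
      show Φ z * _ = _
      rw [hΦQ z hz]
    have hgm : Measurable (fun z => ‖gj j z‖ₑ ^ p) := (hgjm j).enorm.pow_const p
    have e3 : ∫⁻ x : E (k + m), ‖gj j (bl k m x)‖ₑ ^ p ≤ ∫⁻ x, ‖f x‖ₑ ^ p := by
      refine lintegral_mono_ae ?_
      filter_upwards [hae, hFle j] with x hx hx2
      have h1 : ‖gj j (bl k m x)‖ = ‖F j x‖ := by
        simp only [hF]
        rw [norm_mul, hω2 x hx, one_mul]
      have h2 : ‖gj j (bl k m x)‖ₑ ≤ ‖f x‖ₑ := by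
        rw [← ofReal_norm, ← ofReal_norm, h1]
        exact ENNReal.ofReal_le_ofReal hx2
      exact ENNReal.rpow_le_rpow h2 hp0.le
    rw [e1, hlint Φ hΦm, e2]
    calc sg k univ * sg m univ *
          ∫⁻ z in Q, ‖At k m κ₂ (mR ψ L) (gj j) z‖ₑ ^ p * ENNReal.ofReal (wt k m z ^ 2) ≤
        sg k univ * sg m univ * (ENNReal.ofReal (N ^ p) *
          ∫⁻ z in Q, ‖gj j z‖ₑ ^ p * ENNReal.ofReal (wt k m z ^ 2)) := by
          gcongr
          exact hb (gj j) (hgood j)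
      _ = ENNReal.ofReal (N ^ p) * (sg k univ * sg m univ *
          ∫⁻ z in Q, ‖gj j z‖ₑ ^ p * ENNReal.ofReal (wt k m z ^ 2)) := by ring
      _ = ENNReal.ofReal (N ^ p) * ∫⁻ x : E (k + m), ‖gj j (bl k m x)‖ₑ ^ p := by
          rw [hlint _ hgm]
      _ ≤ ENNReal.ofReal (N ^ p) * ∫⁻ x, ‖f x‖ₑ ^ p := by gcongr
  -- Fatou
  have hfatou : ∫⁻ x, ‖TR (k + m) M f x‖ₑ ^ p ≤ ENNReal.ofReal (N ^ p) * ∫⁻ x, ‖f x‖ₑ ^ p := by
    have h1 : ∀ x, Tendsto (fun j => ‖TR (k + m) M (F j) x‖ₑ ^ p) atTop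
        (𝓝 (‖TR (k + m) M f x‖ₑ ^ p)) := by
      intro x
      have h2 := TR_tendsto hMc hM2 hf (fun j => (hFm j).aestronglyMeasurable) hFle hFlim x
      exact ((ENNReal.continuous_rpow_const (y := p)).tendsto _).comp
        ((continuous_enorm.tendsto _).comp h2)
    calc ∫⁻ x, ‖TR (k + m) M f x‖ₑ ^ p =
          ∫⁻ x, liminf (fun j => ‖TR (k + m) M (F j) x‖ₑ ^ p) atTop := by
          refine lintegral_congr fun x => ?_
          rw [(h1 x).liminf_eq]
      _ ≤ liminf (fun j => ∫⁻ x, ‖TR (k + m) M (F j) x‖ₑ ^ p) atTop :=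
          lintegral_liminf_le fun j => (hTc j).measurable.enorm.pow_const p
      _ ≤ liminf (fun _ : ℕ => ENNReal.ofReal (N ^ p) * ∫⁻ x, ‖f x‖ₑ ^ p) atTop := by
          refine liminf_le_liminf (Eventually.of_forall hmain) ?_ ?_
          · isBoundedDefault
          · isBoundedDefault
      _ = ENNReal.ofReal (N ^ p) * ∫⁻ x, ‖f x‖ₑ ^ p := by
          rw [liminf_const]
  have hpne : ENNReal.ofReal p ≠ 0 := by
    rw [Ne, ENNReal.ofReal_eq_zero, not_le]; exact hp0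
  rw [eLpNorm_eq_lintegral_rpow_enorm_toReal hpne ENNReal.ofReal_ne_top,
    eLpNorm_eq_lintegral_rpow_enorm_toReal hpne ENNReal.ofReal_ne_top,
    ENNReal.toReal_ofReal hp0.le]
  have h5 : 0 ≤ 1 / p := by positivity
  refine (ENNReal.rpow_le_rpow hfatou h5).trans (le_of_eq ?_)
  rw [ENNReal.mul_rpow_of_nonneg _ _ h5]
  congr 1
  rw [ENNReal.ofReal_rpow_of_nonneg (by positivity) h5, ← Real.rpow_mul hN.le,
    mul_one_div_cancel hp0.ne', Real.rpow_one]

theorem rn_bound (k m : ℕ) (hk : 1 ≤ k) (hm : 1 ≤ m) (ω : E (k + m) → ℂ)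
    (κ₂ : ℝ → ℂ) (hL : Lk k m ω κ₂) (ψ : ℝ → ℝ) (hψ : Bump ψ) (p L N : ℝ) (hp : 1 < p)
    (h1L : 1 ≤ L) (hN : 0 < N)
    (hb : ∀ g : ℝ × ℝ → ℂ, Good g →
      ∫⁻ z in Q, ‖At k m κ₂ (mR ψ L) g z‖ₑ ^ p * ENNReal.ofReal (wt k m z ^ 2) ≤
        ENNReal.ofReal (N ^ p) * ∫⁻ z in Q, ‖g z‖ₑ ^ p * ENNReal.ofReal (wt k m z ^ 2))
    (f : E (k + m) → ℂ) (hf : Integrable f) (hfb : ∃ B : ℝ, ∀ x, ‖f x‖ ≤ B)
    (g : ℝ × ℝ → ℂ) (hg : Measurable g) (hfg : ∀ x, bl k m x ∈ Q → f x = ω x * g (bl k m x)) :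
    eLpNorm (TR (k + m) (fun u => ψ (L ^ 2 * (1 - u))) f) (ENNReal.ofReal p) volume ≤
      ENNReal.ofReal N * eLpNorm f (ENNReal.ofReal p) volume :=
  rn_bound' k m hk hm (bl_ae k m hk hm) (bl_lint k m hk hm) ω κ₂ hL ψ hψ p L N hp h1L hN hb f hf
    hfb g hg hfg

end Pool.Agent.H438R2.RZ
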