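import Mathlib
import Pool.Agent.H438R2.RZ.Defs
import Pool.Agent.H438R2.RZ.B0
import Pool.Agent.H438R2.RZ.M1
set_option autoImplicit false

/-! # Task RZ-S1: the weighted estimate -/

namespace Pool.Agent.H438R2.RZ.S1aux

open MeasureTheory Set Complex Filter
open scoped ENNReal RealInnerProductSpace Topology
open Pool.Agent.H789R2.FR (E sg)

/-! ### dyadic blocks -/

/-- dyadic intervals -/
def dy (i : ℤ) : Set ℝ := Ico ((2 : ℝ) ^ i) ((2 : ℝ) ^ (i + 1))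

/-- dyadic rectangles -/
def blk (i : ℤ × ℤ) : Set (ℝ × ℝ) := dy i.1 ×ˢ dy i.2

theorem dy_pos {i : ℤ} {x : ℝ} (hx : x ∈ dy i) : 0 < x :=
  lt_of_lt_of_le (zpow_pos two_pos i) hx.1

theorem dy_uniq {i j : ℤ} {x : ℝ} (hi : x ∈ dy i) (hj : x ∈ dy j) : i = j := by
  have h1 : (2 : ℝ) ^ i < 2 ^ (j + 1) := lt_of_le_of_lt hi.1 hj.2
  have h2 : (2 : ℝ) ^ j < 2 ^ (i + 1) := lt_of_le_of_lt hj.1 hi.2
  have h3 := (zpow_lt_zpow_iff_right₀ (one_lt_two (α := ℝ))).1 h1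
  have h4 := (zpow_lt_zpow_iff_right₀ (one_lt_two (α := ℝ))).1 h2
  omega

theorem dy_ex {x : ℝ} (hx : 0 < x) : ∃ i : ℤ, x ∈ dy i :=
  exists_mem_Ico_zpow hx one_lt_two

theorem dy_up {i : ℤ} {x : ℝ} (hx : x ∈ dy i) : x ≤ 2 * (2 : ℝ) ^ i := by
  have h1 := hx.2
  rw [zpow_add_one₀ two_ne_zero] at h1
  linarith

theorem blk_meas (i : ℤ × ℤ) : MeasurableSet (blk i) := measurableSet_Ico.prod measurableSet_Ico

theorem blk_sub (i : ℤ × ℤ) : blk i ⊆ Q := fun _ hz => ⟨dy_pos hz.1, dy_pos hz.2⟩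

theorem blk_disj : Pairwise (Function.onFun Disjoint blk) := by
  intro i j hij
  rw [Function.onFun, Set.disjoint_left]
  intro z hz hz'
  exact hij (Prod.ext (dy_uniq hz.1 hz'.1) (dy_uniq hz.2 hz'.2))

theorem blk_union : ⋃ i, blk i = Q := by
  apply Subset.antisymm (iUnion_subset blk_sub)
  rintro z ⟨h1, h2⟩
  obtain ⟨i, hi⟩ := dy_ex (show (0 : ℝ) < z.1 from h1)
  obtain ⟨j, hj⟩ := dy_ex (show (0 : ℝ) < z.2 from h2)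
  exact mem_iUnion.2 ⟨(i, j), hi, hj⟩

theorem Q_meas : MeasurableSet Q := measurableSet_Ioi.prod measurableSet_Ioi

theorem lint_Q (f : ℝ × ℝ → ℝ≥0∞) : ∫⁻ z in Q, f z = ∑' i, ∫⁻ z in blk i, f z := by
  rw [← blk_union]
  exact lintegral_iUnion blk_meas blk_disj f

/-! ### Hölder and Schur -/

theorem holder_tsum {ι : Type} [Countable ι] (p : ℝ) (hp : 1 < p) (c y : ι → ℝ≥0∞)
    (hc0 : ∀ i, c i ≠ 0) (hcT : ∀ i, c i ≠ ⊤) (S : ℝ≥0∞) (hS : ∑' i, c i ≤ S) :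
    (∑' i, y i) ^ p ≤ S ^ (p - 1) * ∑' i, c i ^ (1 - p) * y i ^ p := by
  let _ : MeasurableSpace ι := ⊤
  have hpq : p.HolderConjugate (p / (p - 1)) := Real.HolderConjugate.conjExponent hp
  have hp0 : 0 < p := by linarith
  have hp1 : 0 < p - 1 := by linarith
  have h1 := ENNReal.lintegral_mul_le_Lp_mul_Lq (μ := Measure.count) hpq
    (f := fun i => c i ^ ((1 - p) / p) * y i) (g := fun i => c i ^ ((p - 1) / p))
    (measurable_from_top.aemeasurable) (measurable_from_top.aemeasurable)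
  simp only [lintegral_count, Pi.mul_apply] at h1
  have h2 : ∀ i, c i ^ ((1 - p) / p) * y i * c i ^ ((p - 1) / p) = y i := by
    intro i
    have h3 : c i ^ ((1 - p) / p) * c i ^ ((p - 1) / p) = 1 := by
      rw [← ENNReal.rpow_add _ _ (hc0 i) (hcT i)]
      have : (1 - p) / p + (p - 1) / p = 0 := by field_simp; ring
      rw [this, ENNReal.rpow_zero]
    calc _ = (c i ^ ((1 - p) / p) * c i ^ ((p - 1) / p)) * y i := by ring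
      _ = y i := by rw [h3, one_mul]
  have h4 : ∀ i, (c i ^ ((p - 1) / p)) ^ (p / (p - 1)) = c i := by
    intro i
    rw [← ENNReal.rpow_mul]
    have : (p - 1) / p * (p / (p - 1)) = 1 := by field_simp
    rw [this, ENNReal.rpow_one]
  have h5 : ∀ i, (c i ^ ((1 - p) / p) * y i) ^ p = c i ^ (1 - p) * y i ^ p := by
    intro i
    rw [ENNReal.mul_rpow_of_nonneg _ _ hp0.le, ← ENNReal.rpow_mul]
    have : (1 - p) / p * p = 1 - p := by field_simp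
    rw [this]
  simp only [h2, h4, h5] at h1
  have h6 := ENNReal.rpow_le_rpow h1 hp0.le
  refine h6.trans ?_
  rw [ENNReal.mul_rpow_of_nonneg _ _ hp0.le, ← ENNReal.rpow_mul, ← ENNReal.rpow_mul]
  have e1 : 1 / p * p = 1 := by field_simp
  have e2 : 1 / (p / (p - 1)) * p = p - 1 := by field_simp
  rw [e1, e2, ENNReal.rpow_one, mul_comm]
  gcongr

theorem schur (p : ℝ) (hp : 1 < p) (S K : ℝ≥0∞) (w : ℝ × ℝ → ℝ≥0∞) (hw : Measurable w)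
    (F : ℝ × ℝ → ℝ≥0∞) (Fb : ℤ × ℤ → ℝ × ℝ → ℝ≥0∞) (hFb : ∀ β, Measurable (Fb β))
    (hF : ∀ z ∈ Q, F z ≤ ∑' β, Fb β z) (X : ℤ × ℤ → ℝ≥0∞) (c : ℤ × ℤ → ℤ × ℤ → ℝ≥0∞)
    (hc0 : ∀ α β, c α β ≠ 0) (hcT : ∀ α β, c α β ≠ ⊤) (hc : ∀ α, ∑' β, c α β ≤ S)
    (hc' : ∀ β, ∑' α, c α β ≤ S)
    (hb : ∀ α β, ∫⁻ z in blk α, Fb β z ^ p * w z ≤ K * c α β ^ p * X β) :
    ∫⁻ z in Q, F z ^ p * w z ≤ S ^ p * K * ∑' β, X β := by
  have hp0 : 0 < p := by linarith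
  have h1 : ∀ α, ∫⁻ z in blk α, F z ^ p * w z ≤ S ^ (p - 1) * ∑' β, K * (c α β * X β) := by
    intro α
    calc ∫⁻ z in blk α, F z ^ p * w z
        ≤ ∫⁻ z in blk α, S ^ (p - 1) * ∑' β, c α β ^ (1 - p) * (Fb β z ^ p * w z) := by
          refine setLIntegral_mono' (blk_meas α) fun z hz => ?_
          have h2 : F z ^ p ≤ S ^ (p - 1) * ∑' β, c α β ^ (1 - p) * Fb β z ^ p :=
            (ENNReal.rpow_le_rpow (hF z (blk_sub α hz)) hp0.le).trans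
              (holder_tsum p hp (c α) (fun β => Fb β z) (hc0 α) (hcT α) S (hc α))
          calc F z ^ p * w z ≤ (S ^ (p - 1) * ∑' β, c α β ^ (1 - p) * Fb β z ^ p) * w z := by
                gcongr
            _ = S ^ (p - 1) * ∑' β, c α β ^ (1 - p) * (Fb β z ^ p * w z) := by
                rw [mul_assoc, ← ENNReal.tsum_mul_right]
                simp only [mul_assoc]
      _ = S ^ (p - 1) * ∑' β, c α β ^ (1 - p) * ∫⁻ z in blk α, Fb β z ^ p * w z := by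
          have hm : ∀ β, Measurable (fun z => Fb β z ^ p * w z) := fun β =>
            ((hFb β).pow_const p).mul hw
          rw [lintegral_const_mul _ (Measurable.tsum fun β => (hm β).const_mul _),
            lintegral_tsum fun β => ((hm β).const_mul _).aemeasurable]
          congr 2
          funext β
          rw [lintegral_const_mul _ (hm β)]
      _ ≤ S ^ (p - 1) * ∑' β, K * (c α β * X β) := by
          refine mul_le_mul' le_rfl (ENNReal.tsum_le_tsum fun β => ?_)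
          calc c α β ^ (1 - p) * ∫⁻ z in blk α, Fb β z ^ p * w z
              ≤ c α β ^ (1 - p) * (K * c α β ^ p * X β) := by gcongr; exact hb α β
            _ = (c α β ^ (1 - p) * c α β ^ p) * (K * X β) := by ring
            _ = c α β * (K * X β) := by
                rw [← ENNReal.rpow_add _ _ (hc0 α β) (hcT α β)]
                have : 1 - p + p = 1 := by ring
                rw [this, ENNReal.rpow_one]
            _ = K * (c α β * X β) := by ring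
  rw [lint_Q]
  calc ∑' α, ∫⁻ z in blk α, F z ^ p * w z
      ≤ ∑' α, S ^ (p - 1) * ∑' β, K * (c α β * X β) := ENNReal.tsum_le_tsum h1
    _ = S ^ (p - 1) * ∑' β, ∑' α, K * (c α β * X β) := by
        rw [ENNReal.tsum_mul_left, ENNReal.tsum_comm]
    _ ≤ S ^ (p - 1) * ∑' β, K * (S * X β) := by
        gcongr with β
        rw [ENNReal.tsum_mul_left, ENNReal.tsum_mul_right]
        gcongr
        exact hc' β
    _ = S ^ p * K * ∑' β, X β := by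
        rw [ENNReal.tsum_mul_left, ENNReal.tsum_mul_left]
        have h2 : S ^ p = S ^ (p - 1) * S := by
          rcases eq_or_ne S ⊤ with h | h
          · rw [h, ENNReal.top_rpow_of_pos hp0, ENNReal.top_rpow_of_pos (by linarith),
              ENNReal.top_mul_top]
          rcases eq_or_ne S 0 with h' | h'
          · rw [h', ENNReal.zero_rpow_of_pos hp0, mul_zero]
          · have h3 := ENNReal.rpow_add (p - 1) 1 h' h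
            rw [ENNReal.rpow_one, sub_add_cancel] at h3
            exact h3
        rw [h2]
        ring

/-! ### the operator applied to the blocks -/

/-- what remains after removing the blocks of `F` -/
noncomputable def rest (h : ℝ × ℝ → ℂ) (F : Finset (ℤ × ℤ)) : ℝ × ℝ → ℂ :=
  (⋃ β ∈ F, blk β)ᶜ.indicator h

theorem uF_meas (F : Finset (ℤ × ℤ)) : MeasurableSet (⋃ β ∈ F, blk β) :=
  F.measurableSet_biUnion fun β _ => blk_meas β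

theorem rest_good {h : ℝ × ℝ → ℂ} (hh : Good h) (F : Finset (ℤ × ℤ)) : Good (rest h F) :=
  good_ind hh _ (uF_meas F).compl

theorem rest_empty (h : ℝ × ℝ → ℂ) : rest h ∅ = h := by
  unfold rest
  simp

theorem rest_step (h : ℝ × ℝ → ℂ) (F : Finset (ℤ × ℤ)) (β : ℤ × ℤ) (hβ : β ∉ F) :
    rest h F = fun z => (blk β).indicator h z + rest h (insert β F) z := by
  funext z
  unfold rest
  by_cases h1 : z ∈ ⋃ γ ∈ F, blk γ
  · have h2 : z ∉ blk β := by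
      intro hz
      simp only [mem_iUnion, exists_prop] at h1
      obtain ⟨γ, hγ, hzγ⟩ := h1
      have h3 : γ ≠ β := fun h => hβ (h ▸ hγ)
      exact (Set.disjoint_left.1 (blk_disj h3) hzγ) hz
    have h3 : z ∈ ⋃ γ ∈ insert β F, blk γ := by
      simp only [mem_iUnion, exists_prop] at h1 ⊢
      obtain ⟨γ, hγ, hzγ⟩ := h1
      exact ⟨γ, Finset.mem_insert_of_mem hγ, hzγ⟩
    rw [indicator_of_notMem (notMem_compl_iff.2 h1), indicator_of_notMem h2,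
      indicator_of_notMem (notMem_compl_iff.2 h3), add_zero]
  · by_cases h2 : z ∈ blk β
    · have h3 : z ∈ ⋃ γ ∈ insert β F, blk γ := by
        simp only [mem_iUnion, exists_prop]
        exact ⟨β, Finset.mem_insert_self _ _, h2⟩
      rw [indicator_of_mem (show z ∈ _ᶜ from h1), indicator_of_mem h2,
        indicator_of_notMem (notMem_compl_iff.2 h3), add_zero]
    · have h3 : z ∉ ⋃ γ ∈ insert β F, blk γ := by
        intro h4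
        simp only [mem_iUnion, exists_prop] at h4
        obtain ⟨γ, hγ, hzγ⟩ := h4
        rcases Finset.mem_insert.1 hγ with h5 | h5
        · subst h5; exact h2 hzγ
        · apply h1
          simp only [mem_iUnion, exists_prop]
          exact ⟨γ, h5, hzγ⟩
      rw [indicator_of_mem (show z ∈ _ᶜ from h1), indicator_of_notMem h2,
        indicator_of_mem (show z ∈ _ᶜ from h3), zero_add]

theorem dec_fin (κ₁ κ₂ : ℝ → ℂ) (h1 : Adm κ₁) (h2 : Adm κ₂) (m h : ℝ × ℝ → ℂ) (hm : Good m)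
    (hh : Good h) (z : ℝ × ℝ) (hz : z ∈ Q) (F : Finset (ℤ × ℤ)) :
    ‖A κ₁ κ₂ m h z‖ₑ ≤ ∑ β ∈ F, ‖A κ₁ κ₂ m ((blk β).indicator h) z‖ₑ +
      ‖A κ₁ κ₂ m (rest h F) z‖ₑ := by
  classical
  induction F using Finset.induction_on with
  | empty => simp [rest_empty]
  | insert β F hβ ih =>
    rw [Finset.sum_insert hβ]
    have h3 : A κ₁ κ₂ m (rest h F) z = A κ₁ κ₂ m ((blk β).indicator h) z +
        A κ₁ κ₂ m (rest h (insert β F)) z := by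
      rw [rest_step h F β hβ]
      exact A_add κ₁ κ₂ h1 h2 m _ _ hm (good_ind hh _ (blk_meas β)) (rest_good hh _) z hz
    refine ih.trans ?_
    rw [h3]
    have h4 := enorm_add_le (A κ₁ κ₂ m ((blk β).indicator h) z)
      (A κ₁ κ₂ m (rest h (insert β F)) z)
    calc _ ≤ ∑ β ∈ F, ‖A κ₁ κ₂ m ((blk β).indicator h) z‖ₑ +
          (‖A κ₁ κ₂ m ((blk β).indicator h) z‖ₑ + ‖A κ₁ κ₂ m (rest h (insert β F)) z‖ₑ) := by
          gcongr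
      _ = _ := by ring

theorem rest_int (h : ℝ × ℝ → ℂ) (F : Finset (ℤ × ℤ)) :
    ∫⁻ z in Q, ‖rest h F z‖ₑ = ∑' β : {β // β ∉ F}, ∫⁻ z in blk β, ‖h z‖ₑ := by
  rw [lint_Q]
  have h1 : ∀ β, ∫⁻ z in blk β, ‖rest h F z‖ₑ =
      ({β | β ∉ F} : Set (ℤ × ℤ)).indicator (fun β => ∫⁻ z in blk β, ‖h z‖ₑ) β := by
    intro β
    by_cases hβ : β ∈ F
    · rw [indicator_of_notMem (by simpa using hβ)]
      rw [← lintegral_zero (μ := volume.restrict (blk β))]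
      refine setLIntegral_congr_fun (blk_meas β) fun z hz => ?_
      have h2 : z ∈ ⋃ γ ∈ F, blk γ := by
        simp only [mem_iUnion, exists_prop]
        exact ⟨β, hβ, hz⟩
      simp only [rest]
      rw [indicator_of_notMem (by simpa using h2)]
      simp
    · rw [indicator_of_mem (by simpa using hβ)]
      refine setLIntegral_congr_fun (blk_meas β) fun z hz => ?_
      have h2 : z ∉ ⋃ γ ∈ F, blk γ := by
        intro h3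
        simp only [mem_iUnion, exists_prop] at h3
        obtain ⟨γ, hγ, hzγ⟩ := h3
        have h4 : γ ≠ β := fun h => hβ (h ▸ hγ)
        exact (Set.disjoint_left.1 (blk_disj h4) hzγ) hz
      simp only [rest]
      rw [indicator_of_mem (by simpa using h2)]
  simp only [h1]
  rw [← tsum_subtype]
  rfl

theorem dec (κ₁ κ₂ : ℝ → ℂ) (h1 : Adm κ₁) (h2 : Adm κ₂) (m h : ℝ × ℝ → ℂ) (hm : Good m)
    (hh : Good h) (z : ℝ × ℝ) (hz : z ∈ Q) :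
    ‖A κ₁ κ₂ m h z‖ₑ ≤ ∑' β, ‖A κ₁ κ₂ m ((blk β).indicator h) z‖ₑ := by
  obtain ⟨C, hC0, hC⟩ := A_bdd κ₁ κ₂ h1 h2 m hm
  have hfin : ∑' β, ∫⁻ z in blk β, ‖h z‖ₑ ≠ ⊤ := by
    rw [← lint_Q]
    exact ((good_int hh).integrableOn (s := Q)).2.ne
  have h3 := ENNReal.tendsto_tsum_compl_atTop_zero hfin
  have h4 : ∀ F : Finset (ℤ × ℤ), ‖A κ₁ κ₂ m h z‖ₑ ≤
      (∑' β, ‖A κ₁ κ₂ m ((blk β).indicator h) z‖ₑ) + ENNReal.ofReal C *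
        ∑' β : {β // β ∉ F}, ∫⁻ z in blk β, ‖h z‖ₑ := by
    intro F
    refine (dec_fin κ₁ κ₂ h1 h2 m h hm hh z hz F).trans ?_
    refine add_le_add (ENNReal.sum_le_tsum F) ?_
    rw [← rest_int]
    have h5 := hC (rest h F) (rest_good hh F) z hz
    have h6 : Integrable (rest h F) (volume.restrict Q) := (good_int (rest_good hh F)).integrableOn
    rw [← ofReal_integral_norm_eq_lintegral_enorm h6, ← ENNReal.ofReal_mul hC0,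
      ← ofReal_norm]
    exact ENNReal.ofReal_le_ofReal h5
  have h5 : Tendsto (fun F : Finset (ℤ × ℤ) =>
      (∑' β, ‖A κ₁ κ₂ m ((blk β).indicator h) z‖ₑ) + ENNReal.ofReal C *
        ∑' β : {β // β ∉ F}, ∫⁻ z in blk β, ‖h z‖ₑ) atTop
      (𝓝 ((∑' β, ‖A κ₁ κ₂ m ((blk β).indicator h) z‖ₑ) + ENNReal.ofReal C * 0)) :=
    tendsto_const_nhds.add (ENNReal.Tendsto.const_mul h3 (Or.inr ENNReal.ofReal_ne_top))
  rw [mul_zero, add_zero] at h5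
  exact ge_of_tendsto' h5 h4

/-! ### the weights of the Schur test -/

/-- one dimensional factor -/
noncomputable def gw (θ : ℝ) (n : ℤ) : ℝ≥0∞ := ENNReal.ofReal ((2 : ℝ) ^ (-(θ * |(n : ℝ)|)))

/-- the weights -/
noncomputable def cw (θ : ℝ) (α β : ℤ × ℤ) : ℝ≥0∞ := gw θ (α.1 - β.1) * gw θ (α.2 - β.2)

theorem gw_sum (θ : ℝ) (hθ : 0 < θ) : ∑' n, gw θ n ≠ ⊤ := by
  unfold gw
  have h1 : Summable (fun n : ℤ => (2 : ℝ) ^ (-(θ * |(n : ℝ)|))) := by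
    have h2 : Summable (fun n : ℕ => ((2 : ℝ) ^ (-θ)) ^ n) := by
      apply summable_geometric_of_lt_one (by positivity)
      exact Real.rpow_lt_one_of_one_lt_of_neg one_lt_two (by linarith)
    apply Summable.of_nat_of_neg
    · refine h2.congr fun n => ?_
      rw [← Real.rpow_natCast, ← Real.rpow_mul two_pos.le]
      congr 1
      rw [Int.cast_natCast, abs_of_nonneg (Nat.cast_nonneg n)]
      ring
    · refine h2.congr fun n => ?_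
      rw [← Real.rpow_natCast, ← Real.rpow_mul two_pos.le]
      congr 1
      rw [Int.cast_neg, Int.cast_natCast, abs_neg, abs_of_nonneg (Nat.cast_nonneg n)]
      ring
  exact h1.tsum_ofReal_ne_top

theorem gw_ne (θ : ℝ) (n : ℤ) : gw θ n ≠ 0 := by
  unfold gw
  have : (0 : ℝ) < (2 : ℝ) ^ (-(θ * |(n : ℝ)|)) := by positivity
  simpa using this

theorem gw_ne_top (θ : ℝ) (n : ℤ) : gw θ n ≠ ⊤ := ENNReal.ofReal_ne_top

theorem cw_ne (θ : ℝ) (α β : ℤ × ℤ) : cw θ α β ≠ 0 := mul_ne_zero (gw_ne _ _) (gw_ne _ _)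

theorem cw_ne_top (θ : ℝ) (α β : ℤ × ℤ) : cw θ α β ≠ ⊤ :=
  ENNReal.mul_ne_top (gw_ne_top _ _) (gw_ne_top _ _)

theorem cw_sum (θ : ℝ) (α : ℤ × ℤ) : ∑' β, cw θ α β = (∑' n, gw θ n) * ∑' n, gw θ n := by
  have h1 : ∀ a : ℤ, ∑' b : ℤ, gw θ (a - b) = ∑' n, gw θ n := fun a =>
    (Equiv.subLeft a).tsum_eq (gw θ)
  unfold cw
  rw [ENNReal.tsum_prod (f := fun b1 b2 => gw θ (α.1 - b1) * gw θ (α.2 - b2))]
  simp only [ENNReal.tsum_mul_left, ENNReal.tsum_mul_right, h1]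

theorem cw_sum' (θ : ℝ) (β : ℤ × ℤ) : ∑' α, cw θ α β = (∑' n, gw θ n) * ∑' n, gw θ n := by
  have h1 : ∀ b : ℤ, ∑' a : ℤ, gw θ (a - b) = ∑' n, gw θ n := fun b =>
    (Equiv.subRight b).tsum_eq (gw θ)
  unfold cw
  rw [ENNReal.tsum_prod (f := fun a1 a2 => gw θ (a1 - β.1) * gw θ (a2 - β.2))]
  simp only [ENNReal.tsum_mul_left, ENNReal.tsum_mul_right, h1]

/-! ### numbers -/

/-- distance of two blocks -/
noncomputable def dd (α β : ℤ × ℤ) : ℝ :=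
  max |((α.1 - β.1 : ℤ) : ℝ)| |((α.2 - β.2 : ℤ) : ℝ)|

theorem min_ratio (i j : ℤ) : min ((2 : ℝ) ^ i / 2 ^ j) ((2 : ℝ) ^ j / 2 ^ i) =
    (2 : ℝ) ^ (-|((i - j : ℤ) : ℝ)|) := by
  have h1 : ∀ i j : ℤ, (2 : ℝ) ^ i / 2 ^ j = (2 : ℝ) ^ (((i - j : ℤ) : ℝ)) := by
    intro i j
    rw [Real.rpow_intCast, zpow_sub₀ two_ne_zero]
  rw [h1, h1]
  rcases le_total i j with h | h
  · have h2 : ((i - j : ℤ) : ℝ) ≤ 0 := by exact_mod_cast sub_nonpos.2 h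
    have h3 : ((j - i : ℤ) : ℝ) = -((i - j : ℤ) : ℝ) := by push_cast; ring
    rw [abs_of_nonpos h2, neg_neg, min_eq_left]
    exact Real.rpow_le_rpow_of_exponent_le one_le_two (by rw [h3]; linarith)
  · have h2 : 0 ≤ ((i - j : ℤ) : ℝ) := by exact_mod_cast sub_nonneg.2 h
    have h3 : ((j - i : ℤ) : ℝ) = -((i - j : ℤ) : ℝ) := by push_cast; ring
    rw [abs_of_nonneg h2, min_eq_right, h3]
    exact Real.rpow_le_rpow_of_exponent_le one_le_two (by rw [h3]; linarith)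

theorem min_dd (α β : ℤ × ℤ) :
    min (min ((2 : ℝ) ^ α.1 / 2 ^ β.1) ((2 : ℝ) ^ β.1 / 2 ^ α.1))
      (min ((2 : ℝ) ^ α.2 / 2 ^ β.2) ((2 : ℝ) ^ β.2 / 2 ^ α.2)) ≤ (2 : ℝ) ^ (-dd α β) := by
  rw [min_ratio, min_ratio]
  unfold dd
  rcases max_choice |((α.1 - β.1 : ℤ) : ℝ)| |((α.2 - β.2 : ℤ) : ℝ)| with h | h
  · rw [h]; exact min_le_left _ _
  · rw [h]; exact min_le_right _ _

theorem numbers (p a₁ a₂ CM C2 C4 l : ℝ) (hp : 2 < p) (ha₁ : 0 ≤ a₁)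
    (ha₂ : 0 ≤ a₂) (ha : a₁ + a₂ < 2 - p / 2) (hCM : 0 < CM) (hC2 : 0 < C2) (hC4 : 0 < C4)
    (hl : 0 < l) (α β : ℤ × ℤ) :
    (2 : ℝ) ^ (-(a₁ * α.1) - a₂ * α.2) *
      (CM * (C2 * 2 ^ (-dd α β)) ^ ((4 - p) / 2) * (C4 * l ^ 2) ^ ((p - 2) / 2)) *
      2 ^ (a₁ * (β.1 + 1) + a₂ * (β.2 + 1)) ≤
    (CM * C2 ^ ((4 - p) / 2) * C4 ^ ((p - 2) / 2) * l ^ (p - 2) * 2 ^ (a₁ + a₂)) *
      ((2 : ℝ) ^ (-((2 - p / 2 - (a₁ + a₂)) / (2 * p) * |((α.1 - β.1 : ℤ) : ℝ)|)) *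
        (2 : ℝ) ^ (-((2 - p / 2 - (a₁ + a₂)) / (2 * p) * |((α.2 - β.2 : ℤ) : ℝ)|))) ^ p := by
  have hp0 : 0 < p := by linarith
  have e1 : (C2 * 2 ^ (-dd α β)) ^ ((4 - p) / 2) =
      C2 ^ ((4 - p) / 2) * (2 : ℝ) ^ (-dd α β * ((4 - p) / 2)) := by
    rw [Real.mul_rpow hC2.le (by positivity), ← Real.rpow_mul two_pos.le]
  have e2 : (C4 * l ^ 2) ^ ((p - 2) / 2) = C4 ^ ((p - 2) / 2) * l ^ (p - 2) := by
    rw [Real.mul_rpow hC4.le (by positivity), ← Real.rpow_natCast, ← Real.rpow_mul hl.le]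
    congr 2
    push_cast
    ring
  have e3 : ((2 : ℝ) ^ (-((2 - p / 2 - (a₁ + a₂)) / (2 * p) * |((α.1 - β.1 : ℤ) : ℝ)|)) *
        (2 : ℝ) ^ (-((2 - p / 2 - (a₁ + a₂)) / (2 * p) * |((α.2 - β.2 : ℤ) : ℝ)|))) ^ p =
      (2 : ℝ) ^ (-((2 - p / 2 - (a₁ + a₂)) / 2 *
        (|((α.1 - β.1 : ℤ) : ℝ)| + |((α.2 - β.2 : ℤ) : ℝ)|))) := by
    rw [← Real.rpow_add two_pos, ← Real.rpow_mul two_pos.le]
    congr 1
    field_simp
    ring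
  rw [e1, e2, e3]
  have h1 : (2 : ℝ) ^ (-(a₁ * α.1) - a₂ * α.2) * (2 : ℝ) ^ (-dd α β * ((4 - p) / 2)) *
      2 ^ (a₁ * (β.1 + 1) + a₂ * (β.2 + 1)) ≤ 2 ^ (a₁ + a₂) *
      (2 : ℝ) ^ (-((2 - p / 2 - (a₁ + a₂)) / 2 *
        (|((α.1 - β.1 : ℤ) : ℝ)| + |((α.2 - β.2 : ℤ) : ℝ)|))) := by
    rw [← Real.rpow_add two_pos, ← Real.rpow_add two_pos, ← Real.rpow_add two_pos]
    apply Real.rpow_le_rpow_of_exponent_le one_le_two
    have d1 : |((α.1 - β.1 : ℤ) : ℝ)| ≤ dd α β := le_max_left _ _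
    have d2 : |((α.2 - β.2 : ℤ) : ℝ)| ≤ dd α β := le_max_right _ _
    have d3 : (β.1 : ℝ) - α.1 ≤ |((α.1 - β.1 : ℤ) : ℝ)| := by
      have := neg_abs_le ((α.1 - β.1 : ℤ) : ℝ)
      push_cast at this ⊢
      linarith
    have d4 : (β.2 : ℝ) - α.2 ≤ |((α.2 - β.2 : ℤ) : ℝ)| := by
      have := neg_abs_le ((α.2 - β.2 : ℤ) : ℝ)
      push_cast at this ⊢
      linarith
    have d5 : a₁ * ((β.1 : ℝ) - α.1) ≤ a₁ * dd α β :=
      mul_le_mul_of_nonneg_left (d3.trans d1) ha₁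
    have d6 : a₂ * ((β.2 : ℝ) - α.2) ≤ a₂ * dd α β :=
      mul_le_mul_of_nonneg_left (d4.trans d2) ha₂
    have d7 : (2 - p / 2 - (a₁ + a₂)) / 2 *
        (|((α.1 - β.1 : ℤ) : ℝ)| + |((α.2 - β.2 : ℤ) : ℝ)|) ≤
        (2 - p / 2 - (a₁ + a₂)) / 2 * (2 * dd α β) :=
      mul_le_mul_of_nonneg_left (by linarith) (by linarith)
    nlinarith
  calc _ = (CM * C2 ^ ((4 - p) / 2) * C4 ^ ((p - 2) / 2) * l ^ (p - 2)) *
        ((2 : ℝ) ^ (-(a₁ * α.1) - a₂ * α.2) * (2 : ℝ) ^ (-dd α β * ((4 - p) / 2)) *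
      2 ^ (a₁ * (β.1 + 1) + a₂ * (β.2 + 1))) := by ring
    _ ≤ (CM * C2 ^ ((4 - p) / 2) * C4 ^ ((p - 2) / 2) * l ^ (p - 2)) * (2 ^ (a₁ + a₂) *
      (2 : ℝ) ^ (-((2 - p / 2 - (a₁ + a₂)) / 2 *
        (|((α.1 - β.1 : ℤ) : ℝ)| + |((α.2 - β.2 : ℤ) : ℝ)|)))) :=
        mul_le_mul_of_nonneg_left h1 (by positivity)
    _ = _ := by ring

/-! ### the weight on blocks -/

/-- the weight -/
noncomputable def ww (a₁ a₂ : ℝ) (z : ℝ × ℝ) : ℝ≥0∞ :=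
  ENNReal.ofReal (z.1 ^ (-a₁) * z.2 ^ (-a₂))

theorem ww_meas (a₁ a₂ : ℝ) : Measurable (ww a₁ a₂) :=
  ((measurable_fst.pow_const _).mul (measurable_snd.pow_const _)).ennreal_ofReal

theorem ww_up {a₁ a₂ : ℝ} (ha₁ : 0 ≤ a₁) (ha₂ : 0 ≤ a₂) {α : ℤ × ℤ} {z : ℝ × ℝ}
    (hz : z ∈ blk α) : ww a₁ a₂ z ≤ ENNReal.ofReal ((2 : ℝ) ^ (-(a₁ * α.1) - a₂ * α.2)) := by
  have key : ∀ (a x : ℝ) (i : ℤ), 0 ≤ a → x ∈ dy i → x ^ (-a) ≤ (2 : ℝ) ^ (-(a * i)) := by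
    intro a x i ha hx
    have h1 : ((2 : ℝ) ^ i) ^ (-a) = (2 : ℝ) ^ (-(a * i)) := by
      rw [← Real.rpow_intCast, ← Real.rpow_mul two_pos.le]
      congr 1; ring
    rw [← h1]
    exact Real.rpow_le_rpow_of_nonpos (zpow_pos two_pos i) hx.1 (by linarith)
  unfold ww
  apply ENNReal.ofReal_le_ofReal
  have h2 := key a₁ z.1 α.1 ha₁ hz.1
  have h3 := key a₂ z.2 α.2 ha₂ hz.2
  have h4 : (2 : ℝ) ^ (-(a₁ * α.1) - a₂ * α.2) = (2 : ℝ) ^ (-(a₁ * α.1)) * 2 ^ (-(a₂ * α.2)) := by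
    rw [← Real.rpow_add two_pos]; congr 1
  rw [h4]
  exact mul_le_mul h2 h3 (Real.rpow_nonneg (dy_pos hz.2).le _) (by positivity)

theorem ww_lo {a₁ a₂ : ℝ} (ha₁ : 0 ≤ a₁) (ha₂ : 0 ≤ a₂) {β : ℤ × ℤ} {z : ℝ × ℝ}
    (hz : z ∈ blk β) :
    1 ≤ ENNReal.ofReal ((2 : ℝ) ^ (a₁ * (β.1 + 1) + a₂ * (β.2 + 1))) * ww a₁ a₂ z := by
  have key : ∀ (a x : ℝ) (i : ℤ), 0 ≤ a → x ∈ dy i → 1 ≤ (2 : ℝ) ^ (a * (i + 1)) * x ^ (-a) := by
    intro a x i ha hx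
    have h1 : ((2 : ℝ) ^ (i + 1)) ^ (-a) = (2 : ℝ) ^ (-(a * (i + 1))) := by
      rw [← Real.rpow_intCast, ← Real.rpow_mul two_pos.le]
      congr 1; push_cast; ring
    have h2 : (2 : ℝ) ^ (-(a * (i + 1))) ≤ x ^ (-a) := by
      rw [← h1]
      exact Real.rpow_le_rpow_of_nonpos (dy_pos hx) hx.2.le (by linarith)
    have h3 : (2 : ℝ) ^ (a * (i + 1)) * (2 : ℝ) ^ (-(a * (i + 1))) = 1 := by
      rw [← Real.rpow_add two_pos]; simp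
    calc (1 : ℝ) = (2 : ℝ) ^ (a * (i + 1)) * (2 : ℝ) ^ (-(a * (i + 1))) := h3.symm
      _ ≤ _ := mul_le_mul_of_nonneg_left h2 (by positivity)
  unfold ww
  rw [← ENNReal.ofReal_mul (by positivity), ← ENNReal.ofReal_one]
  apply ENNReal.ofReal_le_ofReal
  have h2 := key a₁ z.1 β.1 ha₁ hz.1
  have h3 := key a₂ z.2 β.2 ha₂ hz.2
  have h4 : (2 : ℝ) ^ (a₁ * ((β.1 : ℝ) + 1) + a₂ * (β.2 + 1)) =
      (2 : ℝ) ^ (a₁ * ((β.1 : ℝ) + 1)) * 2 ^ (a₂ * ((β.2 : ℝ) + 1)) := by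
    rw [← Real.rpow_add two_pos]
  rw [h4]
  calc (1 : ℝ) = 1 * 1 := by ring
    _ ≤ ((2 : ℝ) ^ (a₁ * ((β.1 : ℝ) + 1)) * z.1 ^ (-a₁)) *
        (2 ^ (a₂ * ((β.2 : ℝ) + 1)) * z.2 ^ (-a₂)) :=
        mul_le_mul h2 h3 zero_le_one (zero_le_one.trans h2)
    _ = _ := by ring

/-! ### hypotheses -/

/-- the conclusion of `T1` and `P11` -/
def HL4 (κ₁ κ₂ : ℝ → ℂ) (ψ : ℝ → ℝ) (C4 : ℝ) : Prop :=
  ∀ L : ℝ, 10 ≤ L → ∀ h : ℝ × ℝ → ℂ, Good h →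
    ∫⁻ z in Q, ‖A κ₁ κ₂ (mR ψ L) h z‖ₑ ^ 4 ≤
      ENNReal.ofReal (C4 * (1 + Real.log L) ^ 2) * ∫⁻ z in Q, ‖h z‖ₑ ^ 4

/-- the conclusion of `T5` -/
def HL2 (κ₁ κ₂ : ℝ → ℂ) (ψ : ℝ → ℝ) (C2 : ℝ) : Prop :=
  ∀ L : ℝ, 1 ≤ L →
    ∀ a a' b b' : ℝ, 0 < a → 0 < a' → 0 < b → 0 < b' → ∀ h : ℝ × ℝ → ℂ, Good h →
    (∀ z, h z ≠ 0 → (b ≤ z.1 ∧ z.1 ≤ 2 * b) ∧ b' ≤ z.2 ∧ z.2 ≤ 2 * b') →
      ∫⁻ z in Icc a (2 * a) ×ˢ Icc a' (2 * a'), ‖A κ₁ κ₂ (mR ψ L) h z‖ₑ ^ 2 ≤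
        ENNReal.ofReal (C2 * min (min (a / b) (b / a)) (min (a' / b') (b' / a'))) *
          ∫⁻ z in Q, ‖h z‖ₑ ^ 2

/-- the conclusion of `M1` -/
def HM (p CM : ℝ) : Prop :=
  ∀ (μ ν : Measure (ℝ × ℝ)) [SFinite μ] (F f : ℝ × ℝ → ℝ), Measurable F → Measurable f →
      (∀ y, 0 ≤ F y) → (∀ x, 0 ≤ f x) → ∀ M2 M4 : ℝ, 0 < M2 → 0 < M4 →
      (∀ t : ℝ, 0 < t → ∃ u v : ℝ × ℝ → ℝ≥0∞, Measurable u ∧ Measurable v ∧
        (∀ᵐ y ∂ν, ENNReal.ofReal (F y) ≤ u y + v y) ∧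
        ∫⁻ y, u y ^ 2 ∂ν ≤ ENNReal.ofReal M2 * ∫⁻ x in {x | t < f x}, ENNReal.ofReal (f x) ^ 2 ∂μ ∧
        ∫⁻ y, v y ^ 4 ∂ν ≤ ENNReal.ofReal M4 *
          ∫⁻ x in {x | f x ≤ t}, ENNReal.ofReal (f x) ^ 4 ∂μ) →
      ∫⁻ y, ENNReal.ofReal (F y) ^ p ∂ν ≤
        ENNReal.ofReal (CM * M2 ^ ((4 - p) / 2) * M4 ^ ((p - 2) / 2)) *
          ∫⁻ x, ENNReal.ofReal (f x) ^ p ∂μ

theorem split_t (h : ℝ × ℝ → ℂ) (t : ℝ) : h = fun z =>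
    ({x | t < ‖h x‖} : Set (ℝ × ℝ)).indicator h z + ({x | ‖h x‖ ≤ t} : Set (ℝ × ℝ)).indicator h z := by
  funext z
  by_cases hz : t < ‖h z‖
  · rw [indicator_of_mem (show z ∈ {x | t < ‖h x‖} from hz),
      indicator_of_notMem (show z ∉ {x | ‖h x‖ ≤ t} from not_le.2 hz), add_zero]
  · rw [indicator_of_notMem (show z ∉ {x | t < ‖h x‖} from hz),
      indicator_of_mem (show z ∈ {x | ‖h x‖ ≤ t} from not_lt.1 hz), zero_add]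

theorem ind_int (s : Set (ℝ × ℝ)) (hs : MeasurableSet s) (h : ℝ × ℝ → ℂ) (n : ℕ) (hn : n ≠ 0)
    (μ : Measure (ℝ × ℝ)) :
    ∫⁻ z, ‖s.indicator h z‖ₑ ^ n ∂μ = ∫⁻ z in s, ENNReal.ofReal ‖h z‖ ^ n ∂μ := by
  rw [← lintegral_indicator hs]
  refine lintegral_congr fun z => ?_
  by_cases hz : z ∈ s
  · rw [indicator_of_mem hz, indicator_of_mem hz, ofReal_norm]
  · rw [indicator_of_notMem hz, indicator_of_notMem hz]
    simp [hn]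

theorem block_p (κ₁ κ₂ : ℝ → ℂ) (h1 : Adm κ₁) (h2 : Adm κ₂) (ψ : ℝ → ℝ) (hψ : Bump ψ)
    (p C2 C4 CM : ℝ) (hC2 : 0 < C2) (hC4 : 0 < C4) (H4 : HL4 κ₁ κ₂ ψ C4) (H2 : HL2 κ₁ κ₂ ψ C2)
    (HH : HM p CM) (L : ℝ) (hL : 10 ≤ L) (h : ℝ × ℝ → ℂ) (hh : Good h) (α β : ℤ × ℤ) :
    ∫⁻ z in blk α, ‖Q.indicator (A κ₁ κ₂ (mR ψ L) ((blk β).indicator h)) z‖ₑ ^ p ≤
      ENNReal.ofReal (CM * (C2 * 2 ^ (-dd α β)) ^ ((4 - p) / 2) *
        (C4 * (1 + Real.log L) ^ 2) ^ ((p - 2) / 2)) *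
      ∫⁻ z in Q, ‖(blk β).indicator h z‖ₑ ^ p := by
  have hm : Good (mR ψ L) := mR_good ψ hψ L (by linarith)
  set g := (blk β).indicator h with hg
  have hgg : Good g := good_ind hh _ (blk_meas β)
  have hl : 0 < 1 + Real.log L := by
    have := Real.log_nonneg (show (1 : ℝ) ≤ L by linarith)
    linarith
  have key := HH (volume.restrict Q) (volume.restrict (blk α))
    (fun z => ‖Q.indicator (A κ₁ κ₂ (mR ψ L) g) z‖) (fun z => ‖g z‖)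
    (A_meas κ₁ κ₂ h1 h2 _ _ hm hgg).norm hgg.1.norm (fun _ => norm_nonneg _)
    (fun _ => norm_nonneg _) (C2 * 2 ^ (-dd α β)) (C4 * (1 + Real.log L) ^ 2)
    (by positivity) (by positivity) ?_
  · simpa only [ofReal_norm] using key
  intro t ht
  set s1 : Set (ℝ × ℝ) := {x | t < ‖g x‖} with hs1
  set s2 : Set (ℝ × ℝ) := {x | ‖g x‖ ≤ t} with hs2
  have ms1 : MeasurableSet s1 := measurableSet_lt measurable_const hgg.1.norm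
  have ms2 : MeasurableSet s2 := measurableSet_le hgg.1.norm measurable_const
  have g1 : Good (s1.indicator g) := good_ind hgg _ ms1
  have g2 : Good (s2.indicator g) := good_ind hgg _ ms2
  refine ⟨fun z => ‖Q.indicator (A κ₁ κ₂ (mR ψ L) (s1.indicator g)) z‖ₑ,
    fun z => ‖Q.indicator (A κ₁ κ₂ (mR ψ L) (s2.indicator g)) z‖ₑ,
    (A_meas κ₁ κ₂ h1 h2 _ _ hm g1).enorm, (A_meas κ₁ κ₂ h1 h2 _ _ hm g2).enorm, ?_, ?_, ?_⟩
  · refine (ae_restrict_iff' (blk_meas α)).2 (Eventually.of_forall fun z hz => ?_)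
    have hzQ := blk_sub α hz
    rw [ofReal_norm]
    simp only [indicator_of_mem hzQ]
    have h3 : A κ₁ κ₂ (mR ψ L) g z = A κ₁ κ₂ (mR ψ L) (s1.indicator g) z +
        A κ₁ κ₂ (mR ψ L) (s2.indicator g) z := by
      conv_lhs => rw [split_t g t]
      exact A_add κ₁ κ₂ h1 h2 _ _ _ hm g1 g2 z hzQ
    rw [h3]
    exact enorm_add_le _ _
  · have h3 : ∀ z, s1.indicator g z ≠ 0 → ((2 : ℝ) ^ β.1 ≤ z.1 ∧ z.1 ≤ 2 * (2 : ℝ) ^ β.1) ∧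
        (2 : ℝ) ^ β.2 ≤ z.2 ∧ z.2 ≤ 2 * (2 : ℝ) ^ β.2 := by
      intro z hz
      have hz1 : z ∈ s1 := by
        by_contra hc; exact hz (indicator_of_notMem hc _)
      rw [indicator_of_mem hz1] at hz
      have hz2 : z ∈ blk β := by
        by_contra hc; exact hz (indicator_of_notMem hc _)
      exact ⟨⟨hz2.1.1, dy_up hz2.1⟩, hz2.2.1, dy_up hz2.2⟩
    have h4 := H2 L (by linarith) ((2 : ℝ) ^ α.1) ((2 : ℝ) ^ α.2) ((2 : ℝ) ^ β.1) ((2 : ℝ) ^ β.2)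
      (zpow_pos two_pos _) (zpow_pos two_pos _) (zpow_pos two_pos _) (zpow_pos two_pos _) _ g1 h3
    calc ∫⁻ z in blk α, ‖Q.indicator (A κ₁ κ₂ (mR ψ L) (s1.indicator g)) z‖ₑ ^ 2
        = ∫⁻ z in blk α, ‖A κ₁ κ₂ (mR ψ L) (s1.indicator g) z‖ₑ ^ 2 := by
          refine setLIntegral_congr_fun (blk_meas α) fun z hz => ?_
          simp only [indicator_of_mem (blk_sub α hz)]
      _ ≤ ∫⁻ z in Icc ((2 : ℝ) ^ α.1) (2 * (2 : ℝ) ^ α.1) ×ˢ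
            Icc ((2 : ℝ) ^ α.2) (2 * (2 : ℝ) ^ α.2), ‖A κ₁ κ₂ (mR ψ L) (s1.indicator g) z‖ₑ ^ 2 := by
          refine lintegral_mono_set fun z hz => ?_
          exact ⟨⟨hz.1.1, dy_up hz.1⟩, hz.2.1, dy_up hz.2⟩
      _ ≤ _ := h4
      _ ≤ ENNReal.ofReal (C2 * 2 ^ (-dd α β)) * ∫⁻ z in Q, ‖s1.indicator g z‖ₑ ^ 2 := by
          refine mul_le_mul' (ENNReal.ofReal_le_ofReal ?_) le_rfl
          exact mul_le_mul_of_nonneg_left (min_dd α β) hC2.le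
      _ = _ := by rw [ind_int s1 ms1 g 2 two_ne_zero]
  · calc ∫⁻ z in blk α, ‖Q.indicator (A κ₁ κ₂ (mR ψ L) (s2.indicator g)) z‖ₑ ^ 4
        = ∫⁻ z in blk α, ‖A κ₁ κ₂ (mR ψ L) (s2.indicator g) z‖ₑ ^ 4 := by
          refine setLIntegral_congr_fun (blk_meas α) fun z hz => ?_
          simp only [indicator_of_mem (blk_sub α hz)]
      _ ≤ ∫⁻ z in Q, ‖A κ₁ κ₂ (mR ψ L) (s2.indicator g) z‖ₑ ^ 4 := lintegral_mono_set (blk_sub α)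
      _ ≤ ENNReal.ofReal (C4 * (1 + Real.log L) ^ 2) * ∫⁻ z in Q, ‖s2.indicator g z‖ₑ ^ 4 :=
          H4 L hL _ g2
      _ = _ := by rw [ind_int s2 ms2 g 4 four_ne_zero]

/-- the exponent of the decay -/
noncomputable def th (p a₁ a₂ : ℝ) : ℝ := (2 - p / 2 - (a₁ + a₂)) / (2 * p)

/-- the constant of the block estimate -/
noncomputable def KK (p a₁ a₂ CM C2 C4 L : ℝ) : ℝ :=
  CM * C2 ^ ((4 - p) / 2) * C4 ^ ((p - 2) / 2) * (1 + Real.log L) ^ (p - 2) * 2 ^ (a₁ + a₂)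

theorem three (x y z : ℝ) (X : ℝ≥0∞) (hx : 0 ≤ x) (hy : 0 ≤ y) :
    ENNReal.ofReal x * (ENNReal.ofReal y * (ENNReal.ofReal z * X)) =
      ENNReal.ofReal (x * y * z) * X := by
  rw [ENNReal.ofReal_mul (mul_nonneg hx hy), ENNReal.ofReal_mul hx]
  ring

theorem block_est (κ₁ κ₂ : ℝ → ℂ) (h1 : Adm κ₁) (h2 : Adm κ₂) (ψ : ℝ → ℝ) (hψ : Bump ψ)
    (p a₁ a₂ C2 C4 CM : ℝ) (hp : 2 < p) (ha₁ : 0 ≤ a₁) (ha₂ : 0 ≤ a₂)
    (ha : a₁ + a₂ < 2 - p / 2) (hC2 : 0 < C2) (hC4 : 0 < C4) (hCM : 0 < CM)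
    (H4 : HL4 κ₁ κ₂ ψ C4) (H2 : HL2 κ₁ κ₂ ψ C2)
    (HH : HM p CM) (L : ℝ) (hL : 10 ≤ L) (h : ℝ × ℝ → ℂ) (hh : Good h) (α β : ℤ × ℤ) :
    ∫⁻ z in blk α, ‖Q.indicator (A κ₁ κ₂ (mR ψ L) ((blk β).indicator h)) z‖ₑ ^ p * ww a₁ a₂ z ≤
      ENNReal.ofReal (KK p a₁ a₂ CM C2 C4 L) * cw (th p a₁ a₂) α β ^ p *
        ∫⁻ z in blk β, ‖h z‖ₑ ^ p * ww a₁ a₂ z := by
  have hp0 : 0 < p := by linarith
  have hm : Good (mR ψ L) := mR_good ψ hψ L (by linarith)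
  have hl : 0 < 1 + Real.log L := by
    have := Real.log_nonneg (show (1 : ℝ) ≤ L by linarith)
    linarith
  have hgg : Good ((blk β).indicator h) := good_ind hh _ (blk_meas β)
  have hFm : Measurable (fun z => ‖Q.indicator (A κ₁ κ₂ (mR ψ L) ((blk β).indicator h)) z‖ₑ ^ p) :=
    (A_meas κ₁ κ₂ h1 h2 _ _ hm hgg).enorm.pow_const p
  have s1 : ∫⁻ z in blk α, ‖Q.indicator (A κ₁ κ₂ (mR ψ L) ((blk β).indicator h)) z‖ₑ ^ p *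
      ww a₁ a₂ z ≤ ENNReal.ofReal ((2 : ℝ) ^ (-(a₁ * α.1) - a₂ * α.2)) *
      ∫⁻ z in blk α, ‖Q.indicator (A κ₁ κ₂ (mR ψ L) ((blk β).indicator h)) z‖ₑ ^ p := by
    rw [← lintegral_const_mul _ hFm]
    refine setLIntegral_mono' (blk_meas α) fun z hz => ?_
    rw [mul_comm]
    exact mul_le_mul' (ww_up ha₁ ha₂ hz) le_rfl
  have s2 := block_p κ₁ κ₂ h1 h2 ψ hψ p C2 C4 CM hC2 hC4 H4 H2 HH L hL h hh α β
  have s3 : ∫⁻ z in Q, ‖(blk β).indicator h z‖ₑ ^ p ≤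
      ENNReal.ofReal ((2 : ℝ) ^ (a₁ * (β.1 + 1) + a₂ * (β.2 + 1))) *
        ∫⁻ z in blk β, ‖h z‖ₑ ^ p * ww a₁ a₂ z := by
    have e1 : ∫⁻ z in Q, ‖(blk β).indicator h z‖ₑ ^ p = ∫⁻ z in blk β, ‖h z‖ₑ ^ p := by
      have e2 : ∀ z, ‖(blk β).indicator h z‖ₑ ^ p = (blk β).indicator (fun z => ‖h z‖ₑ ^ p) z := by
        intro z
        by_cases hz : z ∈ blk β
        · rw [indicator_of_mem hz, indicator_of_mem hz]
        · rw [indicator_of_notMem hz, indicator_of_notMem hz]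
          simp [hp0]
      simp only [e2]
      rw [lintegral_indicator (blk_meas β), Measure.restrict_restrict (blk_meas β),
        inter_eq_left.2 (blk_sub β)]
    have hm2 : Measurable (fun z => ‖h z‖ₑ ^ p * ww a₁ a₂ z) :=
      (hh.1.enorm.pow_const p).mul (ww_meas _ _)
    rw [e1, ← lintegral_const_mul _ hm2]
    refine setLIntegral_mono' (blk_meas β) fun z hz => ?_
    calc ‖h z‖ₑ ^ p = ‖h z‖ₑ ^ p * 1 := by rw [mul_one]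
      _ ≤ ‖h z‖ₑ ^ p * (ENNReal.ofReal ((2 : ℝ) ^ (a₁ * (β.1 + 1) + a₂ * (β.2 + 1))) *
            ww a₁ a₂ z) := mul_le_mul' le_rfl (ww_lo ha₁ ha₂ hz)
      _ = _ := by ring
  have e3 : cw (th p a₁ a₂) α β ^ p =
      ENNReal.ofReal (((2 : ℝ) ^ (-((2 - p / 2 - (a₁ + a₂)) / (2 * p) *
          |((α.1 - β.1 : ℤ) : ℝ)|)) *
        (2 : ℝ) ^ (-((2 - p / 2 - (a₁ + a₂)) / (2 * p) * |((α.2 - β.2 : ℤ) : ℝ)|))) ^ p) := by
    unfold cw gw th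
    rw [← ENNReal.ofReal_mul (by positivity), ENNReal.ofReal_rpow_of_nonneg (by positivity) hp0.le]
  have n1 := numbers p a₁ a₂ CM C2 C4 (1 + Real.log L) hp ha₁ ha₂ ha hCM hC2 hC4 hl α β
  calc _ ≤ _ := s1
    _ ≤ ENNReal.ofReal ((2 : ℝ) ^ (-(a₁ * α.1) - a₂ * α.2)) *
        (ENNReal.ofReal (CM * (C2 * 2 ^ (-dd α β)) ^ ((4 - p) / 2) *
        (C4 * (1 + Real.log L) ^ 2) ^ ((p - 2) / 2)) *
        (ENNReal.ofReal ((2 : ℝ) ^ (a₁ * (β.1 + 1) + a₂ * (β.2 + 1))) *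
        ∫⁻ z in blk β, ‖h z‖ₑ ^ p * ww a₁ a₂ z)) :=
        mul_le_mul' le_rfl (s2.trans (mul_le_mul' le_rfl s3))
    _ = ENNReal.ofReal ((2 : ℝ) ^ (-(a₁ * α.1) - a₂ * α.2) *
      (CM * (C2 * 2 ^ (-dd α β)) ^ ((4 - p) / 2) * (C4 * (1 + Real.log L) ^ 2) ^ ((p - 2) / 2)) *
      2 ^ (a₁ * (β.1 + 1) + a₂ * (β.2 + 1))) * ∫⁻ z in blk β, ‖h z‖ₑ ^ p * ww a₁ a₂ z :=
        three _ _ _ _ (by positivity) (by positivity)
    _ ≤ ENNReal.ofReal (KK p a₁ a₂ CM C2 C4 L *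
      ((2 : ℝ) ^ (-((2 - p / 2 - (a₁ + a₂)) / (2 * p) * |((α.1 - β.1 : ℤ) : ℝ)|)) *
        (2 : ℝ) ^ (-((2 - p / 2 - (a₁ + a₂)) / (2 * p) * |((α.2 - β.2 : ℤ) : ℝ)|))) ^ p) *
        ∫⁻ z in blk β, ‖h z‖ₑ ^ p * ww a₁ a₂ z :=
        mul_le_mul' (ENNReal.ofReal_le_ofReal n1) le_rfl
    _ = _ := by
        rw [e3, ENNReal.ofReal_mul (by unfold KK; positivity)]

theorem log_pow (p ε : ℝ) (hp : 2 < p) (hε : 0 < ε) : ∃ C : ℝ, 0 < C ∧ ∀ L : ℝ, 10 ≤ L →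
    (1 + Real.log L) ^ (p - 2) ≤ C * L ^ ε := by
  have hp2 : 0 < p - 2 := by linarith
  set e' := ε / (p - 2) with he'
  have he0 : 0 < e' := by positivity
  refine ⟨(1 + 1 / e') ^ (p - 2), by positivity, fun L hL => ?_⟩
  have hL0 : 0 < L := by linarith
  have h1 : Real.log L ≤ L ^ e' / e' := Real.log_le_rpow_div hL0.le he0
  have h2 : (1 : ℝ) ≤ L ^ e' := Real.one_le_rpow (by linarith) he0.le
  have h0 : 0 ≤ Real.log L := Real.log_nonneg (by linarith)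
  have h3 : 1 + Real.log L ≤ (1 + 1 / e') * L ^ e' := by
    have : L ^ e' / e' = 1 / e' * L ^ e' := by ring
    rw [this] at h1
    linarith
  calc (1 + Real.log L) ^ (p - 2) ≤ ((1 + 1 / e') * L ^ e') ^ (p - 2) :=
        Real.rpow_le_rpow (by linarith) h3 hp2.le
    _ = (1 + 1 / e') ^ (p - 2) * L ^ ε := by
        rw [Real.mul_rpow (by positivity) (by positivity), ← Real.rpow_mul hL0.le]
        congr 2
        rw [he']; field_simp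

theorem main (κ₁ κ₂ : ℝ → ℂ) (h1 : Adm κ₁) (h2 : Adm κ₂) (ψ : ℝ → ℝ) (hψ : Bump ψ)
    (p a₁ a₂ ε C2 C4 CM : ℝ) (hp : 2 < p) (ha₁ : 0 ≤ a₁) (ha₂ : 0 ≤ a₂)
    (ha : a₁ + a₂ < 2 - p / 2) (hε : 0 < ε) (hC2 : 0 < C2) (hC4 : 0 < C4) (hCM : 0 < CM)
    (H4 : HL4 κ₁ κ₂ ψ C4) (H2 : HL2 κ₁ κ₂ ψ C2) (HH : HM p CM) :
    ∃ C : ℝ, 0 < C ∧ ∀ L : ℝ, 10 ≤ L → ∀ h : ℝ × ℝ → ℂ, Good h →
      ∫⁻ z in Q, ‖A κ₁ κ₂ (mR ψ L) h z‖ₑ ^ p * ENNReal.ofReal (z.1 ^ (-a₁) * z.2 ^ (-a₂)) ≤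
        ENNReal.ofReal (C * L ^ ε) *
          ∫⁻ z in Q, ‖h z‖ₑ ^ p * ENNReal.ofReal (z.1 ^ (-a₁) * z.2 ^ (-a₂)) := by
  have hp0 : 0 < p := by linarith
  have hθ : 0 < th p a₁ a₂ := by
    unfold th
    apply div_pos <;> linarith
  obtain ⟨Cε, hCε, hlog⟩ := log_pow p ε hp hε
  set S : ℝ≥0∞ := (∑' n, gw (th p a₁ a₂) n) * ∑' n, gw (th p a₁ a₂) n with hS
  have hST : S ≠ ⊤ := ENNReal.mul_ne_top (gw_sum _ hθ) (gw_sum _ hθ)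
  set S' : ℝ := S.toReal + 1 with hS'
  have hS'0 : 0 < S' := by
    have := ENNReal.toReal_nonneg (a := S)
    rw [hS']; linarith
  have hSS' : S ≤ ENNReal.ofReal S' := by
    rw [← ENNReal.ofReal_toReal hST]
    exact ENNReal.ofReal_le_ofReal (by rw [hS']; linarith)
  refine ⟨S' ^ p * (CM * C2 ^ ((4 - p) / 2) * C4 ^ ((p - 2) / 2) * Cε * 2 ^ (a₁ + a₂)),
    by positivity, fun L hL h hh => ?_⟩
  have hm : Good (mR ψ L) := mR_good ψ hψ L (by linarith)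
  have hl : 0 < 1 + Real.log L := by
    have := Real.log_nonneg (show (1 : ℝ) ≤ L by linarith)
    linarith
  have key := schur p (by linarith) S (ENNReal.ofReal (KK p a₁ a₂ CM C2 C4 L)) (ww a₁ a₂)
    (ww_meas _ _) (fun z => ‖A κ₁ κ₂ (mR ψ L) h z‖ₑ)
    (fun β z => ‖Q.indicator (A κ₁ κ₂ (mR ψ L) ((blk β).indicator h)) z‖ₑ)
    (fun β => (A_meas κ₁ κ₂ h1 h2 _ _ hm (good_ind hh _ (blk_meas β))).enorm)
    (fun z hz => by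
      refine (dec κ₁ κ₂ h1 h2 _ h hm hh z hz).trans (le_of_eq ?_)
      simp only [indicator_of_mem hz])
    (fun β => ∫⁻ z in blk β, ‖h z‖ₑ ^ p * ww a₁ a₂ z) (cw (th p a₁ a₂)) (cw_ne _) (cw_ne_top _)
    (fun α => (cw_sum _ α).le) (fun β => (cw_sum' _ β).le)
    (fun α β => block_est κ₁ κ₂ h1 h2 ψ hψ p a₁ a₂ C2 C4 CM hp ha₁ ha₂ ha hC2 hC4 hCM H4 H2 HH
      L hL h hh α β)
  rw [← lint_Q] at key
  refine key.trans ?_
  refine mul_le_mul' ?_ le_rfl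
  calc S ^ p * ENNReal.ofReal (KK p a₁ a₂ CM C2 C4 L)
      ≤ ENNReal.ofReal S' ^ p * ENNReal.ofReal (CM * C2 ^ ((4 - p) / 2) * C4 ^ ((p - 2) / 2) *
          (Cε * L ^ ε) * 2 ^ (a₁ + a₂)) := by
        refine mul_le_mul' (ENNReal.rpow_le_rpow hSS' hp0.le) (ENNReal.ofReal_le_ofReal ?_)
        unfold KK
        refine mul_le_mul_of_nonneg_right ?_ (by positivity)
        exact mul_le_mul_of_nonneg_left (hlog L hL) (by positivity)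
    _ = _ := by
        have hL0 : 0 < L := by linarith
        rw [ENNReal.ofReal_rpow_of_nonneg hS'0.le hp0.le, ← ENNReal.ofReal_mul (by positivity)]
        congr 1
        ring

end Pool.Agent.H438R2.RZ.S1aux

namespace Pool.Agent.H438R2.RZ

open MeasureTheory Set Complex Filter
open scoped ENNReal RealInnerProductSpace Topology

open S1aux in
/-- `weighted` with the theorems of T1, P11, T5 which it uses as hypotheses -/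
theorem weighted_of
    (quarter_L4 : ∀ ψ : ℝ → ℝ, Bump ψ → ∃ C : ℝ, 0 < C ∧ ∀ L : ℝ, 10 ≤ L →
      ∀ g : ℝ × ℝ → ℂ, Good g → ∫⁻ z, ‖Pl (Q.indicator (mR ψ L)) g z‖ₑ ^ 4 ≤
        ENNReal.ofReal (C * (1 + Real.log L) ^ 2) * ∫⁻ z, ‖g z‖ₑ ^ 4)
    (transp4 : ∀ κ₁ κ₂ : ℝ → ℂ, Adm κ₁ → Adm κ₂ →
      ∃ C : ℝ, 0 < C ∧ ∀ m : ℝ × ℝ → ℂ, Good m → ∀ N : ℝ, 0 ≤ N →
      (∀ g : ℝ × ℝ → ℂ, Good g → ∫⁻ z, ‖Pl (Q.indicator m) g z‖ₑ ^ 4 ≤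
        ENNReal.ofReal N * ∫⁻ z, ‖g z‖ₑ ^ 4) →
      ∀ h : ℝ × ℝ → ℂ, Good h → ∫⁻ z in Q, ‖A κ₁ κ₂ m h z‖ₑ ^ 4 ≤
        ENNReal.ofReal (C * N) * ∫⁻ z in Q, ‖h z‖ₑ ^ 4)
    (block2 : ∀ κ₁ κ₂ : ℝ → ℂ, Adm κ₁ → Adm κ₂ → Lom κ₁ → Lom κ₂ → ∀ ψ : ℝ → ℝ, Bump ψ →
      ∃ C : ℝ, 0 < C ∧ ∀ L : ℝ, 1 ≤ L →
      ∀ a a' b b' : ℝ, 0 < a → 0 < a' → 0 < b → 0 < b' → ∀ h : ℝ × ℝ → ℂ, Good h →
      (∀ z, h z ≠ 0 → (b ≤ z.1 ∧ z.1 ≤ 2 * b) ∧ b' ≤ z.2 ∧ z.2 ≤ 2 * b') →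
        ∫⁻ z in Icc a (2 * a) ×ˢ Icc a' (2 * a'), ‖A κ₁ κ₂ (mR ψ L) h z‖ₑ ^ 2 ≤
          ENNReal.ofReal (C * min (min (a / b) (b / a)) (min (a' / b') (b' / a'))) *
            ∫⁻ z in Q, ‖h z‖ₑ ^ 2)
    (κ₁ κ₂ : ℝ → ℂ) (h1 : Adm κ₁) (h2 : Adm κ₂) (h3 : Lom κ₁) (h4 : Lom κ₂)
    (ψ : ℝ → ℝ) (hψ : Bump ψ) (p a₁ a₂ ε : ℝ) (hp : 2 < p) (hp4 : p < 4) (ha₁ : 0 ≤ a₁)
    (ha₂ : 0 ≤ a₂) (ha : a₁ + a₂ < 2 - p / 2) (hε : 0 < ε) : ∃ C : ℝ, 0 < C ∧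
    ∀ L : ℝ, 10 ≤ L → ∀ h : ℝ × ℝ → ℂ, Good h →
      ∫⁻ z in Q, ‖A κ₁ κ₂ (mR ψ L) h z‖ₑ ^ p * ENNReal.ofReal (z.1 ^ (-a₁) * z.2 ^ (-a₂)) ≤
        ENNReal.ofReal (C * L ^ ε) *
          ∫⁻ z in Q, ‖h z‖ₑ ^ p * ENNReal.ofReal (z.1 ^ (-a₁) * z.2 ^ (-a₂)) := by
  obtain ⟨CP, hCP, HP⟩ := quarter_L4 ψ hψ
  obtain ⟨CT, hCT, HT⟩ := transp4 κ₁ κ₂ h1 h2
  obtain ⟨C2, hC2, H2⟩ := block2 κ₁ κ₂ h1 h2 h3 h4 ψ hψ
  obtain ⟨CM, hCM, HMM⟩ := marc24 p hp hp4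
  have H4 : HL4 κ₁ κ₂ ψ (CT * CP) := by
    intro L hL h hh
    have e1 := HT (mR ψ L) (mR_good ψ hψ L (by linarith)) (CP * (1 + Real.log L) ^ 2)
      (by positivity) (HP L hL) h hh
    rw [← mul_assoc] at e1
    exact e1
  have HH : HM p CM := by
    intro μ ν _ F f hF hf hF0 hf0 M2 M4 hM2 hM4 hyp
    exact HMM μ ν F f hF hf hF0 hf0 M2 M4 hM2 hM4 hyp
  exact main κ₁ κ₂ h1 h2 ψ hψ p a₁ a₂ ε C2 (CT * CP) CM hp ha₁ ha₂ ha hε hC2 (by positivity)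
    hCM H4 H2 HH

end Pool.Agent.H438R2.RZ
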