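import Pool.Agent.H438R2.RZ.Defs
import Pool.Agent.Helper390.CovarioA
set_option autoImplicit false

namespace Pool.Agent.H438R2.RZ

open MeasureTheory Set Complex
open scoped ENNReal RealInnerProductSpace

namespace T2aux

open FourierTransform

lemma e_norm (x : ℝ) : ‖e x‖ = 1 := by
  unfold e
  exact Complex.norm_exp_ofReal_mul_I _

lemma e_cont : Continuous e := by
  unfold e
  fun_prop

/-- `F(x) = ∫_{r > 0} e(xr) h(r) dr` -/
noncomputable def FF (h : ℝ → ℂ) (x : ℝ) : ℂ := ∫ r in Ioi (0 : ℝ), e (x * r) * h r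

lemma FF_eq (h : ℝ → ℂ) (x : ℝ) : FF h x = 𝓕 ((Ioi (0 : ℝ)).indicator h) (-x) := by
  rw [Real.fourier_real_eq_integral_exp_smul]
  unfold FF
  rw [← integral_indicator measurableSet_Ioi]
  congr 1
  ext r
  by_cases hr : r ∈ Ioi (0 : ℝ)
  · rw [indicator_of_mem hr, indicator_of_mem hr, smul_eq_mul]
    unfold e
    congr 3
    push_cast
    ring
  · rw [indicator_of_notMem hr, indicator_of_notMem hr, smul_zero]

lemma FF_cont {h : ℝ → ℂ} (h1 : Integrable h) : Continuous (FF h) := by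
  have hi : Integrable ((Ioi (0 : ℝ)).indicator h) := h1.indicator measurableSet_Ioi
  have hc : Continuous (𝓕 ((Ioi (0 : ℝ)).indicator h)) :=
    VectorFourier.fourierIntegral_continuous Real.continuous_fourierChar continuous_inner hi
  have e1 : FF h = fun x => 𝓕 ((Ioi (0 : ℝ)).indicator h) (-x) := funext (FF_eq h)
  rw [e1]
  exact hc.comp continuous_neg

/-- Plancherel -/
lemma FF_plancherel {h : ℝ → ℂ} (h1 : Integrable h) (h2 : MemLp h 2) :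
    ∫⁻ x, ‖FF h x‖ₑ ^ 2 = ∫⁻ r in Ioi (0 : ℝ), ‖h r‖ₑ ^ 2 := by
  have hi : Integrable ((Ioi (0 : ℝ)).indicator h) := h1.indicator measurableSet_Ioi
  have hi2 : MemLp ((Ioi (0 : ℝ)).indicator h) 2 := h2.indicator measurableSet_Ioi
  obtain ⟨hm, hp⟩ := Pool.Agent.Helper390.Covario.plancherel hi hi2
  have key : ∀ f : ℝ → ℂ, MemLp f 2 → ∫⁻ x, ‖f x‖ₑ ^ 2 = ENNReal.ofReal (∫ x, ‖f x‖ ^ 2) := by
    intro f hf
    rw [ofReal_integral_eq_lintegral_ofReal]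
    · congr 1
      ext x
      rw [ENNReal.ofReal_pow (norm_nonneg _), ofReal_norm]
    · exact hf.integrable_norm_pow (by norm_num)
    · exact Filter.Eventually.of_forall fun x => by positivity
  have e1 : ∫⁻ x, ‖FF h x‖ₑ ^ 2 = ∫⁻ x, ‖𝓕 ((Ioi (0 : ℝ)).indicator h) x‖ₑ ^ 2 := by
    simp_rw [FF_eq]
    exact lintegral_neg_eq_self (fun x => ‖𝓕 ((Ioi (0 : ℝ)).indicator h) x‖ₑ ^ 2)
  rw [e1, key _ hm, hp, ← key _ hi2, ← lintegral_indicator measurableSet_Ioi]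
  congr 1
  ext r
  by_cases hr : r ∈ Ioi (0 : ℝ)
  · rw [indicator_of_mem hr, indicator_of_mem hr]
  · rw [indicator_of_notMem hr, indicator_of_notMem hr]
    simp

lemma scale {v : ℝ} (hv : v ≠ 0) {G : ℝ → ℝ≥0∞} (hG : Measurable G) :
    ∫⁻ s in Ioi (0 : ℝ), G (v * s) ≤ ENNReal.ofReal (|v|⁻¹) * ∫⁻ x, G x := by
  calc ∫⁻ s in Ioi (0 : ℝ), G (v * s) ≤ ∫⁻ s, G (v * s) := setLIntegral_le_lintegral _ _
    _ = ∫⁻ x, G x ∂(Measure.map (v * ·) volume) := by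
        rw [lintegral_map hG (measurable_const_mul v)]
    _ = _ := by
        rw [Real.map_volume_mul_left hv, lintegral_smul_measure, smul_eq_mul, abs_inv]

/-- the transform as a superposition -/
lemma repr {κ : ℝ → ℂ} {ν : Measure (ℝ × ℂ)} [IsFiniteMeasure ν] (hb : ∀ᵐ q ∂ν, ‖q.2‖ ≤ 1)
    (hk : ∀ t : ℝ, 0 < t → κ t = ∫ q, q.2 * e (q.1 * t) ∂ν) {h : ℝ → ℂ} (h1 : Integrable h)
    {s : ℝ} (hs : 0 < s) :
    ∫ r in Ioi (0 : ℝ), κ (s * r) * h r = ∫ q, q.2 * FF h (q.1 * s) ∂ν := by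
  have e1 : ∫ r in Ioi (0 : ℝ), κ (s * r) * h r =
      ∫ r in Ioi (0 : ℝ), ∫ q, q.2 * e (q.1 * (s * r)) * h r ∂ν := by
    apply setIntegral_congr_fun measurableSet_Ioi
    intro r hr
    have hr' : 0 < s * r := mul_pos hs hr
    simp only
    rw [hk _ hr', ← integral_mul_const]
  rw [e1, integral_integral_swap]
  · congr 1
    ext q
    unfold FF
    rw [← integral_const_mul]
    congr 1
    ext r
    rw [show q.1 * (s * r) = q.1 * s * r by ring]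
    ring
  · -- integrability
    have hmeas : AEStronglyMeasurable (Function.uncurry fun (r : ℝ) (q : ℝ × ℂ) =>
        q.2 * e (q.1 * (s * r)) * h r) ((volume.restrict (Ioi (0 : ℝ))).prod ν) := by
      apply AEStronglyMeasurable.mul
      · have hc : Continuous (fun z : ℝ × (ℝ × ℂ) => z.2.2 * e (z.2.1 * (s * z.1))) := by
          have := e_cont
          fun_prop
        exact hc.aestronglyMeasurable
      · exact (h1.aestronglyMeasurable.restrict).comp_fst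
    have hbd : Integrable (fun z : ℝ × (ℝ × ℂ) => ‖h z.1‖ * 1)
        ((volume.restrict (Ioi (0 : ℝ))).prod ν) :=
      (h1.norm.restrict).mul_prod (integrable_const (1 : ℝ))
    refine hbd.mono hmeas ?_
    have hb' : ∀ᵐ z ∂((volume.restrict (Ioi (0 : ℝ))).prod ν), ‖z.2.2‖ ≤ 1 :=
      Measure.quasiMeasurePreserving_snd.ae hb
    filter_upwards [hb'] with z hz
    simp only [Function.uncurry]
    rw [norm_mul, norm_mul, e_norm, mul_one, mul_one, norm_norm]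
    calc ‖z.2.2‖ * ‖h z.1‖ ≤ 1 * ‖h z.1‖ := mul_le_mul_of_nonneg_right hz (norm_nonneg _)
      _ = _ := one_mul _

/-- Minkowski's inequality, by Cauchy-Schwarz with a weight -/
lemma cs {ν : Measure (ℝ × ℂ)} (h0 : ∀ᵐ q ∂ν, q.1 ≠ 0) {G : ℝ × ℂ → ℝ≥0∞} (hG : Measurable G) :
    (∫⁻ q, G q ∂ν) ^ 2 ≤ (∫⁻ q, ENNReal.ofReal (|q.1| ^ (-(1 / 2) : ℝ)) ∂ν) *
      ∫⁻ q, ENNReal.ofReal (|q.1| ^ (1 / 2 : ℝ)) * G q ^ 2 ∂ν := by
  have hm1 : Measurable (fun q : ℝ × ℂ => ENNReal.ofReal (|q.1| ^ (-(1 / 4) : ℝ))) := by fun_prop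
  have hm2 : Measurable (fun q : ℝ × ℂ => ENNReal.ofReal (|q.1| ^ (1 / 4 : ℝ)) * G q) :=
    Measurable.mul (by fun_prop) hG
  have hold := ENNReal.lintegral_mul_le_Lp_mul_Lq ν Real.HolderConjugate.two_two
    hm1.aemeasurable hm2.aemeasurable
  have e0 : ∫⁻ q, G q ∂ν = ∫⁻ q, ((fun q : ℝ × ℂ => ENNReal.ofReal (|q.1| ^ (-(1 / 4) : ℝ))) *
      (fun q : ℝ × ℂ => ENNReal.ofReal (|q.1| ^ (1 / 4 : ℝ)) * G q)) q ∂ν := by
    apply lintegral_congr_ae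
    filter_upwards [h0] with q hq
    have hq' : 0 < |q.1| := abs_pos.2 hq
    simp only [Pi.mul_apply]
    rw [← mul_assoc, ← ENNReal.ofReal_mul (by positivity), ← Real.rpow_add hq']
    norm_num
  have e1 : ∀ᵐ q ∂ν, ENNReal.ofReal (|q.1| ^ (-(1 / 4) : ℝ)) ^ (2 : ℝ) =
      ENNReal.ofReal (|q.1| ^ (-(1 / 2) : ℝ)) := by
    filter_upwards [h0] with q hq
    have hq' : 0 < |q.1| := abs_pos.2 hq
    rw [ENNReal.ofReal_rpow_of_pos (by positivity), ← Real.rpow_mul hq'.le]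
    norm_num
  have e2 : ∀ᵐ q ∂ν, (ENNReal.ofReal (|q.1| ^ (1 / 4 : ℝ)) * G q) ^ (2 : ℝ) =
      ENNReal.ofReal (|q.1| ^ (1 / 2 : ℝ)) * G q ^ 2 := by
    filter_upwards [h0] with q hq
    have hq' : 0 < |q.1| := abs_pos.2 hq
    rw [ENNReal.mul_rpow_of_nonneg _ _ (by norm_num), ENNReal.ofReal_rpow_of_pos (by positivity),
      ← Real.rpow_mul hq'.le]
    norm_num
  rw [← e0, lintegral_congr_ae e1, lintegral_congr_ae e2] at hold
  calc (∫⁻ q, G q ∂ν) ^ 2 ≤ (((∫⁻ q, ENNReal.ofReal (|q.1| ^ (-(1 / 2) : ℝ)) ∂ν) ^ (1 / 2 : ℝ) *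
      (∫⁻ q, ENNReal.ofReal (|q.1| ^ (1 / 2 : ℝ)) * G q ^ 2 ∂ν) ^ (1 / 2 : ℝ))) ^ 2 := by
        gcongr
    _ = _ := by
        rw [mul_pow, ← ENNReal.rpow_natCast, ← ENNReal.rpow_natCast, ← ENNReal.rpow_mul,
          ← ENNReal.rpow_mul]
        norm_num

/-- the weight is integrable -/
lemma weight_fin {ν : Measure (ℝ × ℂ)} [IsFiniteMeasure ν]
    (hw : ∫⁻ q, ENNReal.ofReal (|q.1| ^ (-(3 / 4 : ℝ))) ∂ν < ∞) :
    ∫⁻ q, ENNReal.ofReal (|q.1| ^ (-(1 / 2) : ℝ)) ∂ν < ∞ := by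
  have hle : ∀ q : ℝ × ℂ, ENNReal.ofReal (|q.1| ^ (-(1 / 2) : ℝ)) ≤
      1 + ENNReal.ofReal (|q.1| ^ (-(3 / 4 : ℝ))) := by
    intro q
    rcases eq_or_ne q.1 0 with h | h
    · rw [h, abs_zero, Real.zero_rpow (by norm_num)]
      simp
    have hq : 0 < |q.1| := abs_pos.2 h
    rcases le_total 1 |q.1| with h1 | h1
    · have : |q.1| ^ (-(1 / 2) : ℝ) ≤ 1 := Real.rpow_le_one_of_one_le_of_nonpos h1 (by norm_num)
      calc ENNReal.ofReal (|q.1| ^ (-(1 / 2) : ℝ)) ≤ ENNReal.ofReal 1 := ENNReal.ofReal_le_ofReal this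
        _ = 1 := ENNReal.ofReal_one
        _ ≤ _ := le_self_add
    · have : |q.1| ^ (-(1 / 2) : ℝ) ≤ |q.1| ^ (-(3 / 4 : ℝ)) :=
        Real.rpow_le_rpow_of_exponent_ge hq h1 (by norm_num)
      exact (ENNReal.ofReal_le_ofReal this).trans le_add_self
  calc ∫⁻ q, ENNReal.ofReal (|q.1| ^ (-(1 / 2) : ℝ)) ∂ν ≤
      ∫⁻ q, (1 + ENNReal.ofReal (|q.1| ^ (-(3 / 4 : ℝ)))) ∂ν := lintegral_mono hle
    _ = ν univ + ∫⁻ q, ENNReal.ofReal (|q.1| ^ (-(3 / 4 : ℝ))) ∂ν := by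
        rw [lintegral_add_left measurable_const, lintegral_const, one_mul]
    _ < ∞ := ENNReal.add_lt_top.2 ⟨measure_lt_top ν univ, hw⟩

end T2aux

open T2aux in
theorem hankel_l2 (κ : ℝ → ℂ) (h1 : Adm κ) : ∃ C : ℝ, 0 < C ∧ ∀ h : ℝ → ℂ, Integrable h →
    MemLp h 2 → ∫⁻ s in Ioi (0 : ℝ), ‖∫ r in Ioi (0 : ℝ), κ (s * r) * h r‖ₑ ^ 2 ≤
      ENNReal.ofReal C * ∫⁻ r in Ioi (0 : ℝ), ‖h r‖ₑ ^ 2 := by
  obtain ⟨ν, hfin, hb, h0, hw, hk⟩ := h1
  set W := ∫⁻ q, ENNReal.ofReal (|q.1| ^ (-(1 / 2) : ℝ)) ∂ν with hW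
  have hWf : W < ∞ := weight_fin hw
  refine ⟨(W ^ 2).toReal + 1, by positivity, ?_⟩
  intro h hh1 hh2
  have hFm : Measurable (fun x => ‖FF h x‖ₑ ^ 2) := ((FF_cont hh1).measurable.enorm).pow_const 2
  have hFc := FF_cont hh1
  -- pointwise bound
  have hpt : ∀ s ∈ Ioi (0 : ℝ), ‖∫ r in Ioi (0 : ℝ), κ (s * r) * h r‖ₑ ^ 2 ≤
      W * ∫⁻ q, ENNReal.ofReal (|q.1| ^ (1 / 2 : ℝ)) * ‖FF h (q.1 * s)‖ₑ ^ 2 ∂ν := by
    intro s hs
    have hGm : Measurable (fun q : ℝ × ℂ => ‖FF h (q.1 * s)‖ₑ) := by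
      have : Continuous (fun q : ℝ × ℂ => FF h (q.1 * s)) := by fun_prop
      exact this.measurable.enorm
    rw [repr hb hk hh1 hs]
    calc ‖∫ q, q.2 * FF h (q.1 * s) ∂ν‖ₑ ^ 2 ≤ (∫⁻ q, ‖FF h (q.1 * s)‖ₑ ∂ν) ^ 2 := by
          gcongr
          refine (enorm_integral_le_lintegral_enorm _).trans (lintegral_mono_ae ?_)
          filter_upwards [hb] with q hq
          rw [enorm_mul]
          calc ‖q.2‖ₑ * ‖FF h (q.1 * s)‖ₑ ≤ 1 * ‖FF h (q.1 * s)‖ₑ := by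
                gcongr
                rw [← ofReal_norm, ← ENNReal.ofReal_one]
                exact ENNReal.ofReal_le_ofReal hq
            _ = _ := one_mul _
      _ ≤ _ := cs h0 hGm
  calc ∫⁻ s in Ioi (0 : ℝ), ‖∫ r in Ioi (0 : ℝ), κ (s * r) * h r‖ₑ ^ 2 ≤
      ∫⁻ s in Ioi (0 : ℝ), W * ∫⁻ q, ENNReal.ofReal (|q.1| ^ (1 / 2 : ℝ)) *
        ‖FF h (q.1 * s)‖ₑ ^ 2 ∂ν := setLIntegral_mono' measurableSet_Ioi hpt
    _ = W * ∫⁻ q, ∫⁻ s in Ioi (0 : ℝ), ENNReal.ofReal (|q.1| ^ (1 / 2 : ℝ)) *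
        ‖FF h (q.1 * s)‖ₑ ^ 2 ∂volume ∂ν := by
        rw [lintegral_const_mul' _ _ hWf.ne, lintegral_lintegral_swap]
        have hm1 : Measurable (fun z : ℝ × (ℝ × ℂ) => ENNReal.ofReal (|z.2.1| ^ (1 / 2 : ℝ))) := by
          fun_prop
        have hm2 : Continuous (fun z : ℝ × (ℝ × ℂ) => FF h (z.2.1 * z.1)) := by fun_prop
        exact (hm1.mul (hm2.measurable.enorm.pow_const 2)).aemeasurable
    _ ≤ W * ∫⁻ q, (ENNReal.ofReal (|q.1| ^ (-(1 / 2) : ℝ)) * ∫⁻ x : ℝ, ‖FF h x‖ₑ ^ 2) ∂ν := by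
        gcongr W * ?_
        apply lintegral_mono_ae
        filter_upwards [h0] with q hq
        have hq' : 0 < |q.1| := abs_pos.2 hq
        rw [lintegral_const_mul' _ _ ENNReal.ofReal_ne_top]
        calc ENNReal.ofReal (|q.1| ^ (1 / 2 : ℝ)) * ∫⁻ s in Ioi (0 : ℝ), ‖FF h (q.1 * s)‖ₑ ^ 2 ≤
            ENNReal.ofReal (|q.1| ^ (1 / 2 : ℝ)) * (ENNReal.ofReal (|q.1|⁻¹) * ∫⁻ x, ‖FF h x‖ₑ ^ 2) := by
              gcongr
              exact scale hq hFm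
          _ = _ := by
              rw [← mul_assoc, ← ENNReal.ofReal_mul (by positivity), ← Real.rpow_neg_one,
                ← Real.rpow_add hq']
              norm_num
    _ = W ^ 2 * ∫⁻ x, ‖FF h x‖ₑ ^ 2 := by
        rw [lintegral_mul_const _ (by fun_prop), ← hW, ← mul_assoc, pow_two]
    _ ≤ ENNReal.ofReal ((W ^ 2).toReal + 1) * ∫⁻ r in Ioi (0 : ℝ), ‖h r‖ₑ ^ 2 := by
        rw [FF_plancherel hh1 hh2]
        gcongr
        rw [← ENNReal.ofReal_toReal (ENNReal.pow_lt_top hWf).ne]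
        apply ENNReal.ofReal_le_ofReal
        rw [ENNReal.toReal_ofReal ENNReal.toReal_nonneg]
        linarith

end Pool.Agent.H438R2.RZ
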