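import Mathlib
import Pool.Agent.H438R2.RZ.Defs
import Pool.Agent.H438R2.RZ.T2
set_option autoImplicit false

namespace Pool.Agent.H438R2.RZ

open MeasureTheory Set Complex Filter
open scoped ENNReal RealInnerProductSpace Topology

namespace T3aux

lemma good_integrable (g : ℝ × ℝ → ℂ) (hg : Good g) : Integrable g := by
  obtain ⟨hm, ⟨M, hM⟩, B, hB⟩ := hg
  have hs : Function.support g ⊆ Icc (-B) B ×ˢ Icc (-B) B := by
    intro z hz
    have := hB z hz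
    exact ⟨abs_le.1 this.1, abs_le.1 this.2⟩
  rw [← integrableOn_iff_integrable_of_support_subset hs]
  refine Measure.integrableOn_of_bounded (M := M) ?_ hm.aestronglyMeasurable (ae_of_all _ hM)
  rw [Measure.volume_eq_prod, Measure.prod_prod]
  exact ENNReal.mul_ne_top (by simp) (by simp)

lemma bd_int {F : Type} [NormedAddCommGroup F] (f : ℝ → F) (hf : AEStronglyMeasurable f volume)
    (M B : ℝ) (hM : ∀ r, ‖f r‖ ≤ M) (hB : ∀ r, f r ≠ 0 → |r| ≤ B) : Integrable f := by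
  have hs : Function.support f ⊆ Icc (-B) B := fun r hr => abs_le.1 (hB r hr)
  rw [← integrableOn_iff_integrable_of_support_subset hs]
  exact Measure.integrableOn_of_bounded (M := M) (by simp) hf (ae_of_all _ hM)

lemma bd_int2 (f : ℝ → ℂ) (hf : Measurable f) (M B : ℝ) (hM : ∀ r, ‖f r‖ ≤ M)
    (hB : ∀ r, f r ≠ 0 → |r| ≤ B) : Integrable f ∧ MemLp f 2 := by
  have h1 := bd_int f hf.aestronglyMeasurable M B hM hB
  refine ⟨h1, (memLp_two_iff_integrable_sq_norm hf.aestronglyMeasurable).2 ?_⟩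
  apply bd_int (fun x => ‖f x‖ ^ 2) (hf.norm.pow_const 2).aestronglyMeasurable (M ^ 2) B
  · intro r
    rw [norm_pow, norm_norm]
    exact pow_le_pow_left₀ (norm_nonneg _) (hM r) 2
  · intro r hr
    apply hB r
    intro h
    apply hr
    simp [h]

lemma good_mul (h : ℝ × ℝ → ℂ) (hh : Good h) (k : ℝ × ℝ → ℂ) (hk : Measurable k) (K : ℝ)
    (hK : ∀ z, ‖k z‖ ≤ K) : Good (fun z => k z * h z) := by
  obtain ⟨hm, ⟨M, hM⟩, B, hB⟩ := hh
  refine ⟨hk.mul hm, ⟨K * M, fun z => ?_⟩, B, fun z hz => hB z fun h0 => hz (by simp [h0])⟩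
  rw [norm_mul]
  exact mul_le_mul (hK z) (hM z) (norm_nonneg _) ((norm_nonneg _).trans (hK z))

/-- a nice version of the kernel -/
lemma nice (κ : ℝ → ℂ) (h : Adm κ) : ∃ κ' : ℝ → ℂ, Measurable κ' ∧ (∃ K : ℝ, ∀ t, ‖κ' t‖ ≤ K) ∧
    ∀ t : ℝ, 0 < t → κ t = κ' t := by
  obtain ⟨ν, hfin, h1, _, _, h4⟩ := h
  refine ⟨fun t => ∫ q, q.2 * e (q.1 * t) ∂ν, ?_, ⟨1 * ν.real univ, fun t => ?_⟩, h4⟩
  · apply StronglyMeasurable.measurable
    apply StronglyMeasurable.integral_prod_right (f := fun (t : ℝ) (q : ℝ × ℂ) => q.2 * e (q.1 * t))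
    apply Measurable.stronglyMeasurable
    unfold e
    fun_prop
  · apply norm_integral_le_of_norm_le_const
    filter_upwards [h1] with q hq
    rw [norm_mul]
    have : ‖e (q.1 * t)‖ = 1 := by
      unfold e
      rw [Complex.norm_exp_ofReal_mul_I]
    rw [this, mul_one]
    exact hq

/-- the inner transform -/
noncomputable def Hh (k2 : ℝ → ℂ) (h : ℝ × ℝ → ℂ) (r t : ℝ) : ℂ :=
  ∫ u in Ioi (0 : ℝ), k2 (t * u) * h (r, u)

lemma Hh_meas (k2 : ℝ → ℂ) (hk : Measurable k2) (h : ℝ × ℝ → ℂ) (hh : Measurable h) :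
    Measurable (fun p : ℝ × ℝ => Hh k2 h p.1 p.2) := by
  apply StronglyMeasurable.measurable
  unfold Hh
  apply StronglyMeasurable.integral_prod_right
    (f := fun (p : ℝ × ℝ) (u : ℝ) => k2 (p.2 * u) * h (p.1, u))
  apply Measurable.stronglyMeasurable
  apply Measurable.mul
  · exact hk.comp (by fun_prop)
  · exact hh.comp (by fun_prop)

/-- Fubini for the two dimensional transform -/
lemma V_eq (k1 k2 : ℝ → ℂ) (hk1 : Measurable k1) (hk2 : Measurable k2) (K1 K2 : ℝ)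
    (hK1 : ∀ t, ‖k1 t‖ ≤ K1) (hK2 : ∀ t, ‖k2 t‖ ≤ K2) (h : ℝ × ℝ → ℂ) (hh : Good h) (s t : ℝ) :
    V k1 k2 h (s, t) = ∫ r in Ioi (0 : ℝ), k1 (s * r) * Hh k2 h r t := by
  unfold V Hh
  have hg : Good (fun z : ℝ × ℝ => (k1 (s * z.1) * k2 (t * z.2)) * h z) := by
    apply good_mul h hh (fun z : ℝ × ℝ => k1 (s * z.1) * k2 (t * z.2)) _ (K1 * K2)
    · intro z
      rw [norm_mul]
      exact mul_le_mul (hK1 _) (hK2 _) (norm_nonneg _) ((norm_nonneg _).trans (hK1 0))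
    · apply Measurable.mul
      · exact hk1.comp (by fun_prop)
      · exact hk2.comp (by fun_prop)
  have hI := good_integrable _ hg
  have hQ : Q = Ioi 0 ×ˢ Ioi 0 := rfl
  rw [hQ, Measure.volume_eq_prod, setIntegral_prod _ (by
    rw [← Measure.volume_eq_prod]; exact hI.integrableOn)]
  apply integral_congr_ae
  refine ae_of_all _ fun r => ?_
  simp only
  rw [← integral_const_mul]
  apply integral_congr_ae
  refine ae_of_all _ fun u => ?_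
  simp only
  ring

lemma lint_Q (F : ℝ × ℝ → ℝ≥0∞) (hF : Measurable F) :
    ∫⁻ z in Q, F z = ∫⁻ s in Ioi (0 : ℝ), ∫⁻ t in Ioi (0 : ℝ), F (s, t) := by
  have hQ : Q = Ioi 0 ×ˢ Ioi 0 := rfl
  rw [hQ, Measure.volume_eq_prod, ← Measure.prod_restrict, lintegral_prod _ hF.aemeasurable]

lemma V_meas (k1 k2 : ℝ → ℂ) (hk1 : Measurable k1) (hk2 : Measurable k2) (h : ℝ × ℝ → ℂ)
    (hh : Measurable h) : Measurable (V k1 k2 h) := by
  unfold V
  apply StronglyMeasurable.measurable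
  apply StronglyMeasurable.integral_prod_right
    (f := fun (ξ : ℝ × ℝ) (z : ℝ × ℝ) => k1 (ξ.1 * z.1) * k2 (ξ.2 * z.2) * h z)
  apply Measurable.stronglyMeasurable
  apply Measurable.mul
  · apply Measurable.mul
    · exact hk1.comp (by fun_prop)
    · exact hk2.comp (by fun_prop)
  · exact hh.comp measurable_snd

/-- the `L2` bound of the two dimensional transform -/
lemma V_l2 (k1 k2 : ℝ → ℂ) (hk1 : Measurable k1) (hk2 : Measurable k2) (K1 K2 : ℝ)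
    (hK1 : ∀ t, ‖k1 t‖ ≤ K1) (hK2 : ∀ t, ‖k2 t‖ ≤ K2) (C1 C2 : ℝ≥0∞)
    (hC1 : ∀ h : ℝ → ℂ, Integrable h → MemLp h 2 →
      ∫⁻ s in Ioi (0 : ℝ), ‖∫ r in Ioi (0 : ℝ), k1 (s * r) * h r‖ₑ ^ 2 ≤
      C1 * ∫⁻ r in Ioi (0 : ℝ), ‖h r‖ₑ ^ 2)
    (hC2 : ∀ h : ℝ → ℂ, Integrable h → MemLp h 2 →
      ∫⁻ s in Ioi (0 : ℝ), ‖∫ r in Ioi (0 : ℝ), k2 (s * r) * h r‖ₑ ^ 2 ≤
      C2 * ∫⁻ r in Ioi (0 : ℝ), ‖h r‖ₑ ^ 2) (h : ℝ × ℝ → ℂ) (hh : Good h) :
    ∫⁻ z in Q, ‖V k1 k2 h z‖ₑ ^ 2 ≤ C1 * (C2 * ∫⁻ z in Q, ‖h z‖ₑ ^ 2) := by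
  obtain ⟨hm, ⟨M, hM⟩, B, hB⟩ := hh
  have hgood : Good h := ⟨hm, ⟨M, hM⟩, B, hB⟩
  have hHm := Hh_meas k2 hk2 h hm
  have hVm := V_meas k1 k2 hk1 hk2 h hm
  have hM0 : 0 ≤ M := (norm_nonneg _).trans (hM (0, 0))
  have hK20 : 0 ≤ K2 := (norm_nonneg _).trans (hK2 0)
  -- `H` is bounded with bounded support in `r`
  have hHb : ∀ r t, ‖Hh k2 h r t‖ ≤ K2 * M * (2 * |B|) := by
    intro r t
    unfold Hh
    have h1 : ‖∫ u in Ioi (0 : ℝ), k2 (t * u) * h (r, u)‖ ≤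
        ∫ u in Ioi (0 : ℝ), ‖k2 (t * u) * h (r, u)‖ := norm_integral_le_integral_norm _
    refine h1.trans ?_
    have h2 : ∫ u in Ioi (0 : ℝ), ‖k2 (t * u) * h (r, u)‖ ≤
        ∫ u in Ioi (0 : ℝ), (Icc (-|B|) |B|).indicator (fun _ => K2 * M) u := by
      apply integral_mono_of_nonneg (ae_of_all _ fun u => norm_nonneg _)
      · apply Integrable.integrableOn
        rw [integrable_indicator_iff measurableSet_Icc]
        exact integrableOn_const (by simp)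
      · refine ae_of_all _ fun u => ?_
        simp only
        by_cases hu : h (r, u) = 0
        · rw [hu, mul_zero, norm_zero]
          apply Set.indicator_nonneg
          intro _ _
          positivity
        · have hu2 := (hB _ hu).2
          have hmem : u ∈ Icc (-|B|) |B| := abs_le.1 (hu2.trans (le_abs_self B))
          rw [Set.indicator_of_mem hmem, norm_mul]
          exact mul_le_mul (hK2 _) (hM _) (norm_nonneg _) hK20
    refine h2.trans ?_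
    have h3 : ∫ u in Ioi (0 : ℝ), (Icc (-|B|) |B|).indicator (fun _ => K2 * M) u ≤
        ∫ u, (Icc (-|B|) |B|).indicator (fun _ => K2 * M) u := by
      apply setIntegral_le_integral
      · rw [integrable_indicator_iff measurableSet_Icc]
        exact integrableOn_const (by simp)
      · refine ae_of_all _ fun u => ?_
        apply Set.indicator_nonneg
        intro _ _
        positivity
    refine h3.trans ?_
    rw [integral_indicator measurableSet_Icc, setIntegral_const, Real.volume_real_Icc]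
    have : max (|B| - -|B|) 0 = 2 * |B| := by
      rw [max_eq_left] <;> linarith [abs_nonneg B]
    rw [this, smul_eq_mul]
    linarith
  have hHs : ∀ r t, Hh k2 h r t ≠ 0 → |r| ≤ B := by
    intro r t hr
    by_contra hrB
    apply hr
    unfold Hh
    apply integral_eq_zero_of_ae
    refine ae_of_all _ fun u => ?_
    have : h (r, u) = 0 := by
      by_contra h0
      exact hrB (hB _ h0).1
    simp [this]
  calc ∫⁻ z in Q, ‖V k1 k2 h z‖ₑ ^ 2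
      = ∫⁻ s in Ioi (0 : ℝ), ∫⁻ t in Ioi (0 : ℝ), ‖V k1 k2 h (s, t)‖ₑ ^ 2 :=
        lint_Q (fun z => ‖V k1 k2 h z‖ₑ ^ 2) (hVm.enorm.pow_const 2)
    _ = ∫⁻ t in Ioi (0 : ℝ), ∫⁻ s in Ioi (0 : ℝ), ‖V k1 k2 h (s, t)‖ₑ ^ 2 := by
        apply lintegral_lintegral_swap
        exact (hVm.enorm.pow_const 2).aemeasurable
    _ ≤ ∫⁻ t in Ioi (0 : ℝ), C1 * ∫⁻ r in Ioi (0 : ℝ), ‖Hh k2 h r t‖ₑ ^ 2 := by
        apply lintegral_mono
        intro t
        simp only [V_eq k1 k2 hk1 hk2 K1 K2 hK1 hK2 h hgood]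
        have hmt : Measurable (fun r => Hh k2 h r t) :=
          hHm.comp (measurable_id.prodMk measurable_const)
        obtain ⟨i1, i2⟩ := bd_int2 (fun r => Hh k2 h r t) hmt _ B (fun r => hHb r t)
          (fun r => hHs r t)
        exact hC1 _ i1 i2
    _ = C1 * ∫⁻ t in Ioi (0 : ℝ), ∫⁻ r in Ioi (0 : ℝ), ‖Hh k2 h r t‖ₑ ^ 2 := by
        apply lintegral_const_mul
        exact Measurable.lintegral_prod_right' (f := fun p : ℝ × ℝ => ‖Hh k2 h p.2 p.1‖ₑ ^ 2)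
          ((hHm.comp measurable_swap).enorm.pow_const 2)
    _ = C1 * ∫⁻ r in Ioi (0 : ℝ), ∫⁻ t in Ioi (0 : ℝ), ‖Hh k2 h r t‖ₑ ^ 2 := by
        congr 1
        apply lintegral_lintegral_swap
        exact ((hHm.comp measurable_swap).enorm.pow_const 2).aemeasurable
    _ ≤ C1 * ∫⁻ r in Ioi (0 : ℝ), C2 * ∫⁻ u in Ioi (0 : ℝ), ‖h (r, u)‖ₑ ^ 2 := by
        gcongr with r
        have hmr : Measurable (fun u => h (r, u)) :=
          hm.comp (measurable_const.prodMk measurable_id)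
        obtain ⟨i1, i2⟩ := bd_int2 (fun u => h (r, u)) hmr M B (fun u => hM _)
          (fun u hu => (hB _ hu).2)
        exact hC2 _ i1 i2
    _ = C1 * (C2 * ∫⁻ r in Ioi (0 : ℝ), ∫⁻ u in Ioi (0 : ℝ), ‖h (r, u)‖ₑ ^ 2) := by
        congr 1
        apply lintegral_const_mul
        exact Measurable.lintegral_prod_right' (f := fun p : ℝ × ℝ => ‖h p‖ₑ ^ 2)
          (hm.enorm.pow_const 2)
    _ = C1 * (C2 * ∫⁻ z in Q, ‖h z‖ₑ ^ 2) := by
        rw [lint_Q (fun z => ‖h z‖ₑ ^ 2) (hm.enorm.pow_const 2)]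

lemma V_bound (k1 k2 : ℝ → ℂ) (K1 K2 : ℝ)
    (hK1 : ∀ t, ‖k1 t‖ ≤ K1) (hK2 : ∀ t, ‖k2 t‖ ≤ K2) (h : ℝ × ℝ → ℂ) (hh : Good h) (ξ : ℝ × ℝ) :
    ‖V k1 k2 h ξ‖ ≤ K1 * K2 * ∫ z, ‖h z‖ := by
  have hI := good_integrable h hh
  have hK : 0 ≤ K1 * K2 := mul_nonneg ((norm_nonneg _).trans (hK1 0)) ((norm_nonneg _).trans (hK2 0))
  unfold V
  refine (norm_integral_le_integral_norm _).trans ?_
  calc ∫ z in Q, ‖k1 (ξ.1 * z.1) * k2 (ξ.2 * z.2) * h z‖ ≤ ∫ z in Q, K1 * K2 * ‖h z‖ := by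
        apply integral_mono_of_nonneg (ae_of_all _ fun z => norm_nonneg _)
        · exact (hI.norm.const_mul _).integrableOn
        · refine ae_of_all _ fun z => ?_
          simp only
          rw [norm_mul, norm_mul]
          apply mul_le_mul_of_nonneg_right _ (norm_nonneg _)
          exact mul_le_mul (hK1 _) (hK2 _) (norm_nonneg _) ((norm_nonneg _).trans (hK1 0))
    _ ≤ ∫ z, K1 * K2 * ‖h z‖ := by
        apply setIntegral_le_integral (hI.norm.const_mul _)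
        exact ae_of_all _ fun z => mul_nonneg hK (norm_nonneg _)
    _ = K1 * K2 * ∫ z, ‖h z‖ := integral_const_mul _ _

end T3aux

open T3aux

theorem glob2_of (hankel_l2 : ∀ κ : ℝ → ℂ, Adm κ → ∃ C : ℝ, 0 < C ∧ ∀ h : ℝ → ℂ, Integrable h →
    MemLp h 2 → ∫⁻ s in Ioi (0 : ℝ), ‖∫ r in Ioi (0 : ℝ), κ (s * r) * h r‖ₑ ^ 2 ≤
      ENNReal.ofReal C * ∫⁻ r in Ioi (0 : ℝ), ‖h r‖ₑ ^ 2)
    (κ₁ κ₂ : ℝ → ℂ) (h1 : Adm κ₁) (h2 : Adm κ₂) : ∃ C : ℝ, 0 < C ∧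
    ∀ m : ℝ × ℝ → ℂ, Good m → ∀ M : ℝ, (∀ ξ, ‖m ξ‖ ≤ M) → ∀ h : ℝ × ℝ → ℂ, Good h →
      ∫⁻ z in Q, ‖A κ₁ κ₂ m h z‖ₑ ^ 2 ≤ ENNReal.ofReal (C * M ^ 2) * ∫⁻ z in Q, ‖h z‖ₑ ^ 2 := by
  obtain ⟨k1, hk1, ⟨K1, hK1⟩, he1⟩ := nice κ₁ h1
  obtain ⟨k2, hk2, ⟨K2, hK2⟩, he2⟩ := nice κ₂ h2
  obtain ⟨C1, hC1, hb1⟩ := hankel_l2 κ₁ h1
  obtain ⟨C2, hC2, hb2⟩ := hankel_l2 κ₂ h2
  have hb1' : ∀ h : ℝ → ℂ, Integrable h → MemLp h 2 →
      ∫⁻ s in Ioi (0 : ℝ), ‖∫ r in Ioi (0 : ℝ), k1 (s * r) * h r‖ₑ ^ 2 ≤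
      ENNReal.ofReal C1 * ∫⁻ r in Ioi (0 : ℝ), ‖h r‖ₑ ^ 2 := by
    intro h i1 i2
    refine le_trans (le_of_eq ?_) (hb1 h i1 i2)
    apply setLIntegral_congr_fun measurableSet_Ioi
    intro s hs
    simp only
    congr 2
    apply setIntegral_congr_fun measurableSet_Ioi
    intro r hr
    simp only
    rw [he1 (s * r) (mul_pos hs hr)]
  have hb2' : ∀ h : ℝ → ℂ, Integrable h → MemLp h 2 →
      ∫⁻ s in Ioi (0 : ℝ), ‖∫ r in Ioi (0 : ℝ), k2 (s * r) * h r‖ₑ ^ 2 ≤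
      ENNReal.ofReal C2 * ∫⁻ r in Ioi (0 : ℝ), ‖h r‖ₑ ^ 2 := by
    intro h i1 i2
    refine le_trans (le_of_eq ?_) (hb2 h i1 i2)
    apply setLIntegral_congr_fun measurableSet_Ioi
    intro s hs
    simp only
    congr 2
    apply setIntegral_congr_fun measurableSet_Ioi
    intro r hr
    simp only
    rw [he2 (s * r) (mul_pos hs hr)]
  have hV : ∀ h : ℝ × ℝ → ℂ, ∀ ξ ∈ Q, V κ₁ κ₂ h ξ = V k1 k2 h ξ := by
    intro h ξ hξ
    unfold V
    apply setIntegral_congr_fun (measurableSet_Ioi.prod measurableSet_Ioi)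
    intro z hz
    simp only
    rw [he1 _ (mul_pos hξ.1 hz.1), he2 _ (mul_pos hξ.2 hz.2)]
  refine ⟨(C1 * C2) ^ 2, by positivity, ?_⟩
  intro m hm M hM h hh
  have hM0 : 0 ≤ M := (norm_nonneg _).trans (hM 0)
  obtain ⟨mm, ⟨M', hM'⟩, B, hB⟩ := hm
  have hVm := V_meas k1 k2 hk1 hk2 h hh.1
  -- the middle function
  set G : ℝ × ℝ → ℂ := Q.indicator (fun ξ => m ξ * V k1 k2 h ξ) with hG
  have hQm : MeasurableSet Q := measurableSet_Ioi.prod measurableSet_Ioi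
  have hGg : Good G := by
    refine ⟨(mm.mul hVm).indicator hQm, ⟨M * (K1 * K2 * ∫ z, ‖h z‖), fun z => ?_⟩, B,
      fun z hz => hB z fun h0 => hz ?_⟩
    · have hb := V_bound k1 k2 K1 K2 hK1 hK2 h hh z
      rw [hG]
      refine (norm_indicator_le_norm_self _ _).trans ?_
      rw [norm_mul]
      exact mul_le_mul (hM z) hb (norm_nonneg _) hM0
    · rw [hG]
      by_cases hz' : z ∈ Q
      · rw [Set.indicator_of_mem hz', h0, zero_mul]
      · rw [Set.indicator_of_notMem hz']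
  have hA : ∀ z ∈ Q, A κ₁ κ₂ m h z = V k1 k2 G z := by
    intro z hz
    unfold A
    rw [show V k1 k2 G z = ∫ ξ in Q, k1 (z.1 * ξ.1) * k2 (z.2 * ξ.2) * G ξ from rfl]
    apply setIntegral_congr_fun hQm
    intro ξ hξ
    simp only
    rw [he1 _ (mul_pos hz.1 hξ.1), he2 _ (mul_pos hz.2 hξ.2), hV h ξ hξ, hG,
      Set.indicator_of_mem hξ]
    ring
  calc ∫⁻ z in Q, ‖A κ₁ κ₂ m h z‖ₑ ^ 2 = ∫⁻ z in Q, ‖V k1 k2 G z‖ₑ ^ 2 := by
        apply setLIntegral_congr_fun hQm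
        intro z hz
        simp only
        rw [hA z hz]
    _ ≤ ENNReal.ofReal C1 * (ENNReal.ofReal C2 * ∫⁻ z in Q, ‖G z‖ₑ ^ 2) :=
        V_l2 k1 k2 hk1 hk2 K1 K2 hK1 hK2 _ _ hb1' hb2' G hGg
    _ ≤ ENNReal.ofReal C1 * (ENNReal.ofReal C2 * (ENNReal.ofReal (M ^ 2) *
          ∫⁻ z in Q, ‖V k1 k2 h z‖ₑ ^ 2)) := by
        gcongr
        rw [← lintegral_const_mul _ (hVm.enorm.pow_const 2)]
        apply lintegral_mono
        intro z
        simp only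
        have h3 : ‖G z‖ₑ ≤ ENNReal.ofReal M * ‖V k1 k2 h z‖ₑ := by
          rw [hG]
          refine (enorm_indicator_le_enorm_self _ _).trans ?_
          rw [enorm_mul]
          gcongr
          rw [← ofReal_norm]
          exact ENNReal.ofReal_le_ofReal (hM z)
        calc ‖G z‖ₑ ^ 2 ≤ (ENNReal.ofReal M * ‖V k1 k2 h z‖ₑ) ^ 2 := by gcongr
          _ = ENNReal.ofReal (M ^ 2) * ‖V k1 k2 h z‖ₑ ^ 2 := by
              rw [mul_pow, ENNReal.ofReal_pow hM0]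
    _ ≤ ENNReal.ofReal C1 * (ENNReal.ofReal C2 * (ENNReal.ofReal (M ^ 2) *
          (ENNReal.ofReal C1 * (ENNReal.ofReal C2 * ∫⁻ z in Q, ‖h z‖ₑ ^ 2)))) := by
        gcongr
        exact V_l2 k1 k2 hk1 hk2 K1 K2 hK1 hK2 _ _ hb1' hb2' h hh
    _ = ENNReal.ofReal ((C1 * C2) ^ 2 * M ^ 2) * ∫⁻ z in Q, ‖h z‖ₑ ^ 2 := by
        have : (C1 * C2) ^ 2 * M ^ 2 = C1 * (C2 * (M ^ 2 * (C1 * C2))) := by ring
        rw [this, ENNReal.ofReal_mul hC1.le, ENNReal.ofReal_mul hC2.le,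
          ENNReal.ofReal_mul (by positivity), ENNReal.ofReal_mul hC1.le]
        ring

/-- global L2 bound -/
theorem glob2 (κ₁ κ₂ : ℝ → ℂ) (h1 : Adm κ₁) (h2 : Adm κ₂) : ∃ C : ℝ, 0 < C ∧
    ∀ m : ℝ × ℝ → ℂ, Good m → ∀ M : ℝ, (∀ ξ, ‖m ξ‖ ≤ M) → ∀ h : ℝ × ℝ → ℂ, Good h →
      ∫⁻ z in Q, ‖A κ₁ κ₂ m h z‖ₑ ^ 2 ≤ ENNReal.ofReal (C * M ^ 2) * ∫⁻ z in Q, ‖h z‖ₑ ^ 2 :=
  glob2_of hankel_l2 κ₁ κ₂ h1 h2

end Pool.Agent.H438R2.RZ
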