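import Pool.Agent.H438R2.RZ.Defs
import Pool.Agent.H438R2.RZ.T2
set_option autoImplicit false

/-! # Bochner-Riesz means of block radial functions: task T4, off diagonal L2 bound -/

namespace Pool.Agent.H438R2.RZ.T4aux

open MeasureTheory Set Complex Filter
open scoped ENNReal Topology

/-! ## Extension of admissible kernels -/

theorem norm_e (x : ℝ) : ‖e x‖ = 1 := by
  unfold e
  rw [Complex.norm_exp_ofReal_mul_I]

theorem cont_e : Continuous e := by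
  unfold e
  fun_prop

theorem adm_ext {κ : ℝ → ℂ} (h : Adm κ) : ∃ (K : ℝ → ℂ) (B : ℝ), Continuous K ∧ 0 ≤ B ∧
    (∀ t, ‖K t‖ ≤ B) ∧ ∀ t : ℝ, 0 < t → κ t = K t := by
  obtain ⟨ν, hν, h1, h2, h3, h4⟩ := h
  refine ⟨fun t => ∫ q, q.2 * e (q.1 * t) ∂ν, (ν univ).toReal, ?_, ENNReal.toReal_nonneg, ?_, h4⟩
  · refine continuous_of_dominated (bound := fun _ => 1) ?_ ?_ (integrable_const _) ?_
    · intro t
      refine Measurable.aestronglyMeasurable ?_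
      exact measurable_snd.mul (cont_e.measurable.comp (measurable_fst.mul_const t))
    · intro t
      filter_upwards [h1] with q hq
      rw [norm_mul, norm_e, mul_one]
      exact hq
    · filter_upwards with q
      exact continuous_const.mul (cont_e.comp (continuous_const.mul continuous_id))
  · intro t
    have h5 : ‖∫ q, q.2 * e (q.1 * t) ∂ν‖ ≤ 1 * ν.real univ := by
      refine norm_integral_le_of_norm_le_const ?_
      filter_upwards [h1] with q hq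
      rw [norm_mul, norm_e, mul_one]
      exact hq
    rw [one_mul] at h5
    exact h5

/-! ## The kernel bound -/

theorem bump_zero {ψ : ℝ → ℝ} (hψ : Bump ψ) {v : ℝ} (hv : v ≤ 0) : ψ v = 0 := by
  by_contra h
  have := (hψ.2 v h).1
  linarith

theorem bump_compact {ψ : ℝ → ℝ} (hψ : Bump ψ) : HasCompactSupport ψ := by
  refine HasCompactSupport.intro (K := Icc (1 / 2) 2) isCompact_Icc ?_
  intro x hx
  by_contra h
  exact hx (hψ.2 x h)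

theorem bump_diff {ψ : ℝ → ℝ} (hψ : Bump ψ) (x : ℝ) : HasDerivAt ψ (deriv ψ x) x :=
  ((hψ.1.differentiable (by simp)) x).hasDerivAt

theorem bump_cont_deriv {ψ : ℝ → ℝ} (hψ : Bump ψ) : Continuous (deriv ψ) :=
  hψ.1.continuous_deriv (by simp)

theorem bump_deriv_int {ψ : ℝ → ℝ} (hψ : Bump ψ) : Integrable (fun v => |deriv ψ v|) :=
  ((bump_cont_deriv hψ).integrable_of_hasCompactSupport (bump_compact hψ).deriv).abs

theorem var_le {ψ : ℝ → ℝ} (hψ : Bump ψ) (L t : ℝ) :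
    ∫ s in (0 : ℝ)..1, |deriv ψ (L ^ 2 * (1 - (s ^ 2 + t ^ 2))) * (-(2 * L ^ 2 * s))| ≤
      ∫ v, |deriv ψ v| := by
  have hd : ∀ s ∈ uIcc (0 : ℝ) 1, HasDerivAt (fun s : ℝ => L ^ 2 * (1 - (s ^ 2 + t ^ 2)))
      (-(2 * L ^ 2 * s)) s := by
    intro s _
    have h1 := (((hasDerivAt_pow 2 s).add_const (t ^ 2)).const_sub 1).const_mul (L ^ 2)
    refine h1.congr_deriv ?_
    push_cast
    ring
  have h2 := intervalIntegral.integral_comp_mul_deriv (f := fun s : ℝ => L ^ 2 * (1 - (s ^ 2 + t ^ 2)))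
    (g := fun v => |deriv ψ v|) (a := 0) (b := 1) hd (by fun_prop) (bump_cont_deriv hψ).abs
  have h3 : ∫ s in (0 : ℝ)..1, |deriv ψ (L ^ 2 * (1 - (s ^ 2 + t ^ 2))) * (-(2 * L ^ 2 * s))| =
      -∫ s in (0 : ℝ)..1, ((fun v => |deriv ψ v|) ∘ fun s : ℝ => L ^ 2 * (1 - (s ^ 2 + t ^ 2))) s *
        (-(2 * L ^ 2 * s)) := by
    rw [← intervalIntegral.integral_neg]
    refine intervalIntegral.integral_congr fun s hs => ?_
    rw [uIcc_of_le zero_le_one] at hs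
    have h4 : 0 ≤ 2 * L ^ 2 * s := by
      have := hs.1
      positivity
    show |deriv ψ (L ^ 2 * (1 - (s ^ 2 + t ^ 2))) * (-(2 * L ^ 2 * s))| =
      -(|deriv ψ (L ^ 2 * (1 - (s ^ 2 + t ^ 2)))| * (-(2 * L ^ 2 * s)))
    rw [abs_mul, abs_neg, abs_of_nonneg h4]
    ring
  rw [h3, h2, ← intervalIntegral.integral_symm]
  have h5 : L ^ 2 * (1 - ((1 : ℝ) ^ 2 + t ^ 2)) ≤ L ^ 2 * (1 - ((0 : ℝ) ^ 2 + t ^ 2)) :=
    mul_le_mul_of_nonneg_left (by nlinarith) (sq_nonneg _)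
  rw [intervalIntegral.integral_of_le h5]
  exact setIntegral_le_integral (bump_deriv_int hψ) (ae_of_all _ fun v => abs_nonneg _)

/-- the kernel -/
noncomputable def kk (K : ℝ → ℂ) (ψ : ℝ → ℝ) (L t ρ r : ℝ) : ℂ :=
  ∫ s in Ioi (0 : ℝ), K (ρ * s) * K (r * s) * mR ψ L (s, t)

theorem kk_bound {K : ℝ → ℂ} (hK : Continuous K) {ψ : ℝ → ℝ} (hψ : Bump ψ) {CL : ℝ} (L t : ℝ)
    {ρ r : ℝ}
    (hL : ∀ S : ℝ, 0 < S → ‖∫ s in (0 : ℝ)..S, K (ρ * s) * K (r * s)‖ ≤ CL / |ρ - r|) :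
    ‖kk K ψ L t ρ r‖ ≤ (∫ v, |deriv ψ v|) * (CL / |ρ - r|) := by
  set g : ℝ → ℂ := fun s => K (ρ * s) * K (r * s) with hg
  have hgc : Continuous g := by fun_prop
  set φ : ℝ → ℂ := fun s => mR ψ L (s, t) with hφ
  set φ' : ℝ → ℂ := fun s =>
    ((deriv ψ (L ^ 2 * (1 - (s ^ 2 + t ^ 2))) * (-(2 * L ^ 2 * s)) : ℝ) : ℂ) with hφ'
  have hφd : ∀ s, HasDerivAt φ (φ' s) s := by
    intro s
    have h1 := (((hasDerivAt_pow 2 s).add_const (t ^ 2)).const_sub 1).const_mul (L ^ 2)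
    have h2 : HasDerivAt (fun s : ℝ => L ^ 2 * (1 - (s ^ 2 + t ^ 2))) (-(2 * L ^ 2 * s)) s := by
      refine h1.congr_deriv ?_
      push_cast
      ring
    have h3 := (bump_diff hψ (L ^ 2 * (1 - (s ^ 2 + t ^ 2)))).comp s h2
    exact h3.ofReal_comp
  have hφ'c : Continuous φ' := by
    have := bump_cont_deriv hψ
    fun_prop
  have hφ1 : ∀ s, 1 ≤ s → φ s = 0 := by
    intro s hs
    have h1 : L ^ 2 * (1 - (s ^ 2 + t ^ 2)) ≤ 0 :=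
      mul_nonpos_of_nonneg_of_nonpos (sq_nonneg _) (by nlinarith [sq_nonneg t])
    show ((ψ (L ^ 2 * (1 - (s ^ 2 + t ^ 2))) : ℝ) : ℂ) = 0
    rw [bump_zero hψ h1, ofReal_zero]
  set G : ℝ → ℂ := fun S => ∫ s in (0 : ℝ)..S, g s with hG
  have hGd : ∀ s, HasDerivAt G (g s) s := fun s =>
    (hgc.integral_hasStrictDerivAt 0 s).hasDerivAt
  have h1 : kk K ψ L t ρ r = ∫ s in (0 : ℝ)..1, φ s * g s := by
    rw [intervalIntegral.integral_of_le zero_le_one]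
    unfold kk
    rw [setIntegral_eq_of_subset_of_forall_sdiff_eq_zero measurableSet_Ioi
      (fun x hx => hx.1 : Ioc (0 : ℝ) 1 ⊆ Ioi 0)]
    · refine setIntegral_congr_fun measurableSet_Ioc fun s _ => ?_
      show g s * φ s = φ s * g s
      ring
    · intro s hs
      have h2 : 1 ≤ s := by
        by_contra h
        exact hs.2 ⟨hs.1, (not_le.1 h).le⟩
      show g s * φ s = 0
      rw [hφ1 s h2, mul_zero]
  rw [h1, intervalIntegral.integral_mul_deriv_eq_deriv_mul (u := φ) (u' := φ') (v := G) (v' := g)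
    (fun s _ => hφd s) (fun s _ => hGd s) (hφ'c.intervalIntegrable _ _)
    (hgc.intervalIntegrable _ _), hφ1 1 le_rfl]
  have hG0 : G 0 = 0 := by
    rw [hG]
    simp
  rw [hG0, zero_mul, mul_zero, sub_zero, zero_sub, norm_neg]
  have hCL : 0 ≤ CL / |ρ - r| := (norm_nonneg _).trans (hL 1 one_pos)
  have h4 : ‖∫ s in (0 : ℝ)..1, φ' s * G s‖ ≤ ∫ s in (0 : ℝ)..1,
      |deriv ψ (L ^ 2 * (1 - (s ^ 2 + t ^ 2))) * (-(2 * L ^ 2 * s))| * (CL / |ρ - r|) := by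
    refine intervalIntegral.norm_integral_le_of_norm_le zero_le_one ?_ ?_
    · refine ae_of_all _ fun s hs => ?_
      rw [norm_mul]
      refine mul_le_mul (le_of_eq ?_) (hL s hs.1) (norm_nonneg _) (abs_nonneg _)
      rw [hφ']
      simp only [Complex.norm_real, Real.norm_eq_abs]
    · refine Continuous.intervalIntegrable ?_ _ _
      have := bump_cont_deriv hψ
      fun_prop
  refine h4.trans ?_
  rw [intervalIntegral.integral_mul_const]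
  exact mul_le_mul_of_nonneg_right (var_le hψ L t) hCL

/-! ## Bounded functions with bounded support -/

theorem int_of_bdd {α E : Type*} [MeasurableSpace α] [NormedAddCommGroup E] {μ : Measure α}
    {f : α → E} (hf : AEStronglyMeasurable f μ) (M : ℝ) (hM : ∀ x, ‖f x‖ ≤ M) (s : Set α)
    (_hs : MeasurableSet s) (hμ : μ s ≠ ∞) (h0 : ∀ x, f x ≠ 0 → x ∈ s) : Integrable f μ := by
  have h1 : IntegrableOn f s μ :=
    Measure.integrableOn_of_bounded (M := M) hμ hf (ae_of_all _ hM)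
  exact (integrableOn_iff_integrable_of_support_subset h0).1 h1

theorem norm_int_le {α : Type*} [MeasurableSpace α] {μ : Measure α}
    {f : α → ℂ} (M : ℝ) (hM : ∀ x, ‖f x‖ ≤ M) (s : Set α)
    (hμ : μ s ≠ ∞) (h0 : ∀ x, f x ≠ 0 → x ∈ s) :
    ‖∫ x, f x ∂μ‖ ≤ M * μ.real s := by
  have h1 : ∫ x in s, f x ∂μ = ∫ x, f x ∂μ := by
    refine setIntegral_eq_integral_of_forall_compl_eq_zero fun x hx => ?_
    by_contra h
    exact hx (h0 x h)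
  rw [← h1]
  exact norm_setIntegral_le_of_norm_le_const (lt_top_iff_ne_top.2 hμ) fun x _ => hM x

theorem memLp_two_of_bdd {f : ℝ → ℂ} (hf : Measurable f) (M : ℝ) (hM : ∀ x, ‖f x‖ ≤ M) (B : ℝ)
    (h0 : ∀ x, f x ≠ 0 → |x| ≤ B) : Integrable f ∧ MemLp f 2 := by
  have h1 : ∀ x, f x ≠ 0 → x ∈ Icc (-B) B := fun x hx => abs_le.1 (h0 x hx)
  have h2 : (volume (Icc (-B) B)) ≠ ∞ := by
    rw [Real.volume_Icc]
    exact ENNReal.ofReal_ne_top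
  refine ⟨int_of_bdd hf.aestronglyMeasurable M hM _ measurableSet_Icc h2 h1, ?_⟩
  rw [memLp_two_iff_integrable_sq_norm hf.aestronglyMeasurable]
  refine int_of_bdd (hf.norm.pow_const 2).aestronglyMeasurable (M ^ 2) (fun x => ?_) _
    measurableSet_Icc h2 (fun x hx => h1 x fun h => hx (by rw [h, norm_zero]; norm_num))
  rw [Real.norm_of_nonneg (by positivity)]
  exact pow_le_pow_left₀ (norm_nonneg _) (hM x) 2

/-! ## The formula for the operator -/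

/-- transform in the second variable -/
noncomputable def HH (K : ℝ → ℂ) (h : ℝ × ℝ → ℂ) (r t : ℝ) : ℂ :=
  ∫ u in Ioi (0 : ℝ), K (t * u) * h (r, u)

/-- the middle part -/
noncomputable def WW (K₁ K₂ : ℝ → ℂ) (ψ : ℝ → ℝ) (L : ℝ) (h : ℝ × ℝ → ℂ) (ρ t : ℝ) : ℂ :=
  ∫ r in Ioi (0 : ℝ), kk K₁ ψ L t ρ r * HH K₂ h r t

/-- transform in both variables -/
noncomputable def VV (K₁ K₂ : ℝ → ℂ) (h : ℝ × ℝ → ℂ) (s t : ℝ) : ℂ :=
  ∫ r in Ioi (0 : ℝ), K₁ (s * r) * HH K₂ h r t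

theorem mR_cont {ψ : ℝ → ℝ} (hψ : Bump ψ) (L : ℝ) : Continuous (mR ψ L) := by
  have := hψ.1.continuous
  unfold mR
  fun_prop

theorem mR_supp {ψ : ℝ → ℝ} (hψ : Bump ψ) (L : ℝ) (ξ : ℝ × ℝ) (h : mR ψ L ξ ≠ 0) :
    |ξ.1| ≤ 1 ∧ |ξ.2| ≤ 1 := by
  have h1 : ξ.1 ^ 2 + ξ.2 ^ 2 < 1 := by
    by_contra hcon
    refine h ?_
    have h2 : L ^ 2 * (1 - (ξ.1 ^ 2 + ξ.2 ^ 2)) ≤ 0 :=
      mul_nonpos_of_nonneg_of_nonpos (sq_nonneg _) (by linarith [not_lt.1 hcon])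
    unfold mR
    rw [bump_zero hψ h2, ofReal_zero]
  constructor
  · rw [← sq_le_one_iff_abs_le_one]; nlinarith [sq_nonneg ξ.2]
  · rw [← sq_le_one_iff_abs_le_one]; nlinarith [sq_nonneg ξ.1]

section

variable {K₁ K₂ : ℝ → ℂ} (h1 : Continuous K₁) (h2 : Continuous K₂) {B : ℝ}
  (hB1 : ∀ t, ‖K₁ t‖ ≤ B) (hB2 : ∀ t, ‖K₂ t‖ ≤ B) {ψ : ℝ → ℝ} (hψ : Bump ψ) (L : ℝ)
  {h : ℝ × ℝ → ℂ} (hm : Measurable h) {M : ℝ} (hM : ∀ z, ‖h z‖ ≤ M) {B0 : ℝ}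
  (hB0 : ∀ z, h z ≠ 0 → |z.1| ≤ B0 ∧ |z.2| ≤ B0)

include h2 hm in
theorem HH_meas : Measurable (fun p : ℝ × ℝ => HH K₂ h p.1 p.2) := by
  have h3 : StronglyMeasurable (fun q : (ℝ × ℝ) × ℝ => K₂ (q.1.2 * q.2) * h (q.1.1, q.2)) := by
    refine Measurable.stronglyMeasurable ?_
    refine Measurable.mul (h2.measurable.comp (by fun_prop)) (hm.comp (by fun_prop))
  exact (h3.integral_prod_right' (ν := volume.restrict (Ioi (0 : ℝ)))).measurable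

include h1 hψ in
theorem kk_meas : Measurable (fun p : ℝ × ℝ × ℝ => kk K₁ ψ L p.1 p.2.1 p.2.2) := by
  have h3 : StronglyMeasurable (fun q : (ℝ × ℝ × ℝ) × ℝ =>
      K₁ (q.1.2.1 * q.2) * K₁ (q.1.2.2 * q.2) * mR ψ L (q.2, q.1.1)) := by
    refine Continuous.stronglyMeasurable ?_
    have := mR_cont hψ L
    fun_prop
  exact (h3.integral_prod_right' (ν := volume.restrict (Ioi (0 : ℝ)))).measurable

include h1 h2 hψ hm in
theorem WW_meas : Measurable (fun p : ℝ × ℝ => WW K₁ K₂ ψ L h p.1 p.2) := by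
  have h3 : StronglyMeasurable (fun q : (ℝ × ℝ) × ℝ =>
      kk K₁ ψ L q.1.2 q.1.1 q.2 * HH K₂ h q.2 q.1.2) := by
    refine Measurable.stronglyMeasurable ?_
    refine Measurable.mul ?_ ?_
    · exact (kk_meas (K₁ := K₁) h1 hψ L).comp
        (f := fun q : (ℝ × ℝ) × ℝ => ((q.1.2, q.1.1, q.2) : ℝ × ℝ × ℝ)) (by fun_prop)
    · exact (HH_meas (K₂ := K₂) h2 hm).comp
        (f := fun q : (ℝ × ℝ) × ℝ => ((q.2, q.1.2) : ℝ × ℝ)) (by fun_prop)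
  exact (h3.integral_prod_right' (ν := volume.restrict (Ioi (0 : ℝ)))).measurable

include h1 h2 hm in
theorem VV_meas : Measurable (fun p : ℝ × ℝ => VV K₁ K₂ h p.1 p.2) := by
  have h3 : StronglyMeasurable (fun q : (ℝ × ℝ) × ℝ =>
      K₁ (q.1.1 * q.2) * HH K₂ h q.2 q.1.2) := by
    refine Measurable.stronglyMeasurable ?_
    refine Measurable.mul (h1.measurable.comp (by fun_prop)) ?_
    exact (HH_meas (K₂ := K₂) h2 hm).comp
        (f := fun q : (ℝ × ℝ) × ℝ => ((q.2, q.1.2) : ℝ × ℝ)) (by fun_prop)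
  exact (h3.integral_prod_right' (ν := volume.restrict (Ioi (0 : ℝ)))).measurable

theorem mu_Icc (B : ℝ) : (volume.restrict (Ioi (0 : ℝ))) (Icc (-B) B) ≠ ∞ := by
  refine ne_top_of_le_ne_top ?_ (Measure.restrict_apply_le _ _)
  rw [Real.volume_Icc]
  exact ENNReal.ofReal_ne_top

include hB2 hM hB0 in
theorem HH_bdd (r t : ℝ) : ‖HH K₂ h r t‖ ≤
    (B * M) * (volume.restrict (Ioi (0 : ℝ))).real (Icc (-B0) B0) := by
  have hB : 0 ≤ B := (norm_nonneg _).trans (hB2 0)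
  have hM' : 0 ≤ M := (norm_nonneg _).trans (hM 0)
  refine norm_int_le (B * M) (fun u => ?_) _ (mu_Icc B0) (fun u hu => ?_)
  · rw [norm_mul]
    exact mul_le_mul (hB2 _) (hM _) (norm_nonneg _) hB
  · exact abs_le.1 (hB0 (r, u) (right_ne_zero_of_mul hu)).2

include hB0 in
theorem HH_supp (r t : ℝ) (hr : HH K₂ h r t ≠ 0) : |r| ≤ B0 := by
  by_contra hcon
  refine hr ?_
  unfold HH
  have h3 : ∀ u, K₂ (t * u) * h (r, u) = 0 := by
    intro u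
    have : h (r, u) = 0 := by
      by_contra h4
      exact hcon (hB0 (r, u) h4).1
    rw [this, mul_zero]
  simp only [h3, integral_zero]

include hB1 hψ in
theorem kk_bdd {Mψ : ℝ} (hMψ : ∀ ξ, ‖mR ψ L ξ‖ ≤ Mψ) (t ρ r : ℝ) : ‖kk K₁ ψ L t ρ r‖ ≤
    (B * B * Mψ) * (volume.restrict (Ioi (0 : ℝ))).real (Icc (-1) 1) := by
  have hB : 0 ≤ B := (norm_nonneg _).trans (hB1 0)
  refine norm_int_le (B * B * Mψ) (fun u => ?_) _ (mu_Icc 1) (fun u hu => ?_)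
  · rw [norm_mul, norm_mul]
    exact mul_le_mul (mul_le_mul (hB1 _) (hB1 _) (norm_nonneg _) hB) (hMψ _) (norm_nonneg _)
      (mul_nonneg hB hB)
  · exact abs_le.1 (mR_supp hψ L _ (right_ne_zero_of_mul hu)).1

include hψ in
theorem kk_supp (t ρ r : ℝ) (hk : kk K₁ ψ L t ρ r ≠ 0) : |t| ≤ 1 := by
  by_contra hcon
  refine hk ?_
  unfold kk
  have h3 : ∀ s, K₁ (ρ * s) * K₁ (r * s) * mR ψ L (s, t) = 0 := by
    intro s
    have : mR ψ L (s, t) = 0 := by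
      by_contra h4
      exact hcon (mR_supp hψ L _ h4).2
    rw [this, mul_zero]
  simp only [h3, integral_zero]

include hB1 hB2 hψ hM hB0 in
theorem WW_bdd {Mψ : ℝ} (hMψ : ∀ ξ, ‖mR ψ L ξ‖ ≤ Mψ) (ρ t : ℝ) : ‖WW K₁ K₂ ψ L h ρ t‖ ≤
    ((B * B * Mψ) * (volume.restrict (Ioi (0 : ℝ))).real (Icc (-1) 1) *
      ((B * M) * (volume.restrict (Ioi (0 : ℝ))).real (Icc (-B0) B0))) *
      (volume.restrict (Ioi (0 : ℝ))).real (Icc (-B0) B0) := by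
  refine norm_int_le _ (fun r => ?_) _ (mu_Icc B0) (fun r hr => ?_)
  · rw [norm_mul]
    exact mul_le_mul (kk_bdd (K₁ := K₁) hB1 hψ L hMψ t ρ r) (HH_bdd (K₂ := K₂) hB2 hM hB0 r t)
      (norm_nonneg _) ((norm_nonneg _).trans (kk_bdd (K₁ := K₁) hB1 hψ L hMψ t ρ r))
  · exact abs_le.1 (HH_supp (K₂ := K₂) hB0 r t (right_ne_zero_of_mul hr))

include hψ in
theorem WW_supp (ρ t : ℝ) (hk : WW K₁ K₂ ψ L h ρ t ≠ 0) : |t| ≤ 1 := by
  by_contra hcon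
  refine hk ?_
  unfold WW
  have h3 : ∀ r, kk K₁ ψ L t ρ r * HH K₂ h r t = 0 := by
    intro r
    have : kk K₁ ψ L t ρ r = 0 := by
      by_contra h4
      exact hcon (kk_supp hψ L t ρ r h4)
    rw [this, zero_mul]
  simp only [h3, integral_zero]

include hB1 hB2 hM hB0 in
theorem VV_bdd (s t : ℝ) : ‖VV K₁ K₂ h s t‖ ≤
    (B * ((B * M) * (volume.restrict (Ioi (0 : ℝ))).real (Icc (-B0) B0))) *
      (volume.restrict (Ioi (0 : ℝ))).real (Icc (-B0) B0) := by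
  have hB : 0 ≤ B := (norm_nonneg _).trans (hB1 0)
  refine norm_int_le _ (fun r => ?_) _ (mu_Icc B0) (fun r hr => ?_)
  · rw [norm_mul]
    exact mul_le_mul (hB1 _) (HH_bdd (K₂ := K₂) hB2 hM hB0 r t) (norm_nonneg _) hB
  · exact abs_le.1 (HH_supp (K₂ := K₂) hB0 r t (right_ne_zero_of_mul hr))

theorem restrict_Q : (volume : Measure (ℝ × ℝ)).restrict Q =
    (volume.restrict (Ioi (0 : ℝ))).prod (volume.restrict (Ioi (0 : ℝ))) := by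
  rw [Measure.prod_restrict, ← Measure.volume_eq_prod]
  rfl

theorem mu_prod (B B' : ℝ) : ((volume.restrict (Ioi (0 : ℝ))).prod (volume.restrict (Ioi (0 : ℝ))))
    (Icc (-B) B ×ˢ Icc (-B') B') ≠ ∞ := by
  rw [Measure.prod_prod]
  exact ENNReal.mul_ne_top (mu_Icc B) (mu_Icc B')

include h1 h2 hB1 hB2 hm hM hB0 in
theorem V_eq {κ₁ κ₂ : ℝ → ℂ} (e1 : ∀ t : ℝ, 0 < t → κ₁ t = K₁ t)
    (e2 : ∀ t : ℝ, 0 < t → κ₂ t = K₂ t) {s t : ℝ} (hs : 0 < s) (ht : 0 < t) :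
    V κ₁ κ₂ h (s, t) = VV K₁ K₂ h s t := by
  have hB : 0 ≤ B := (norm_nonneg _).trans (hB1 0)
  have h3 : V κ₁ κ₂ h (s, t) = ∫ z in Q, K₁ (s * z.1) * K₂ (t * z.2) * h z := by
    unfold V
    refine setIntegral_congr_fun (measurableSet_Ioi.prod measurableSet_Ioi) fun z hz => ?_
    have hz1 : 0 < z.1 := hz.1
    have hz2 : 0 < z.2 := hz.2
    show κ₁ (s * z.1) * κ₂ (t * z.2) * h z = K₁ (s * z.1) * K₂ (t * z.2) * h z
    rw [e1 _ (mul_pos hs hz1), e2 _ (mul_pos ht hz2)]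
  rw [h3, restrict_Q]
  have hint : Integrable (fun z : ℝ × ℝ => K₁ (s * z.1) * K₂ (t * z.2) * h z)
      ((volume.restrict (Ioi (0 : ℝ))).prod (volume.restrict (Ioi (0 : ℝ)))) := by
    refine int_of_bdd ?_ (B * B * M) (fun z => ?_) (Icc (-B0) B0 ×ˢ Icc (-B0) B0)
      (measurableSet_Icc.prod measurableSet_Icc) (mu_prod _ _) (fun z hz => ?_)
    · refine Measurable.aestronglyMeasurable ?_
      exact ((h1.measurable.comp (by fun_prop)).mul (h2.measurable.comp (by fun_prop))).mul hm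
    · rw [norm_mul, norm_mul]
      exact mul_le_mul (mul_le_mul (hB1 _) (hB2 _) (norm_nonneg _) hB) (hM _) (norm_nonneg _)
        (mul_nonneg hB hB)
    · have := hB0 z (right_ne_zero_of_mul hz)
      exact ⟨abs_le.1 this.1, abs_le.1 this.2⟩
  rw [integral_prod _ hint]
  unfold VV HH
  refine integral_congr_ae (ae_of_all _ fun r => ?_)
  show ∫ u in Ioi (0 : ℝ), K₁ (s * r) * K₂ (t * u) * h (r, u) =
    K₁ (s * r) * ∫ u in Ioi (0 : ℝ), K₂ (t * u) * h (r, u)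
  rw [← integral_const_mul]
  refine integral_congr_ae (ae_of_all _ fun u => ?_)
  show K₁ (s * r) * K₂ (t * u) * h (r, u) = K₁ (s * r) * (K₂ (t * u) * h (r, u))
  ring

include h1 h2 hB1 hB2 hψ hm hM hB0 in
theorem swap_eq {Mψ : ℝ} (hMψ : ∀ ξ, ‖mR ψ L ξ‖ ≤ Mψ) (ρ t : ℝ) :
    ∫ s in Ioi (0 : ℝ), K₁ (ρ * s) * mR ψ L (s, t) * VV K₁ K₂ h s t = WW K₁ K₂ ψ L h ρ t := by
  have hB : 0 ≤ B := (norm_nonneg _).trans (hB1 0)
  have hMψ0 : 0 ≤ Mψ := (norm_nonneg _).trans (hMψ 0)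
  have hHH := HH_bdd (K₂ := K₂) hB2 hM hB0
  set MH := (B * M) * (volume.restrict (Ioi (0 : ℝ))).real (Icc (-B0) B0) with hMH
  have hint : Integrable (Function.uncurry fun s r : ℝ =>
      (K₁ (ρ * s) * mR ψ L (s, t)) * (K₁ (s * r) * HH K₂ h r t))
      ((volume.restrict (Ioi (0 : ℝ))).prod (volume.restrict (Ioi (0 : ℝ)))) := by
    refine int_of_bdd ?_ ((B * Mψ) * (B * MH)) (fun z => ?_) (Icc (-1) 1 ×ˢ Icc (-B0) B0)
      (measurableSet_Icc.prod measurableSet_Icc) (mu_prod _ _) (fun z hz => ?_)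
    · refine Measurable.aestronglyMeasurable ?_
      have m1 : Measurable (fun z : ℝ × ℝ => HH K₂ h z.2 t) :=
        (HH_meas (K₂ := K₂) h2 hm).comp (f := fun z : ℝ × ℝ => ((z.2, t) : ℝ × ℝ)) (by fun_prop)
      have m2 : Measurable (fun z : ℝ × ℝ => mR ψ L (z.1, t)) :=
        (mR_cont hψ L).measurable.comp (by fun_prop)
      exact ((h1.measurable.comp (by fun_prop)).mul m2).mul ((h1.measurable.comp (by fun_prop)).mul m1)
    · show ‖(K₁ (ρ * z.1) * mR ψ L (z.1, t)) * (K₁ (z.1 * z.2) * HH K₂ h z.2 t)‖ ≤ _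
      rw [norm_mul, norm_mul, norm_mul]
      have := hHH z.2 t
      exact mul_le_mul (mul_le_mul (hB1 _) (hMψ _) (norm_nonneg _) hB)
        (mul_le_mul (hB1 _) this (norm_nonneg _) hB) (by positivity) (mul_nonneg hB hMψ0)
    · have hz' : (K₁ (ρ * z.1) * mR ψ L (z.1, t)) * (K₁ (z.1 * z.2) * HH K₂ h z.2 t) ≠ 0 := hz
      have z1 := (mR_supp hψ L _ (right_ne_zero_of_mul (left_ne_zero_of_mul hz'))).1
      have z2 := HH_supp (K₂ := K₂) hB0 _ _ (right_ne_zero_of_mul (right_ne_zero_of_mul hz'))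
      exact ⟨abs_le.1 z1, abs_le.1 z2⟩
  have h5 := integral_integral_swap hint
  have h6 : ∀ s : ℝ, K₁ (ρ * s) * mR ψ L (s, t) * VV K₁ K₂ h s t =
      ∫ r in Ioi (0 : ℝ), (K₁ (ρ * s) * mR ψ L (s, t)) * (K₁ (s * r) * HH K₂ h r t) := by
    intro s
    unfold VV
    rw [integral_const_mul]
  simp only [h6]
  rw [h5]
  unfold WW kk
  refine integral_congr_ae (ae_of_all _ fun r => ?_)
  show ∫ s in Ioi (0 : ℝ), (K₁ (ρ * s) * mR ψ L (s, t)) * (K₁ (s * r) * HH K₂ h r t) =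
    (∫ s in Ioi (0 : ℝ), K₁ (ρ * s) * K₁ (r * s) * mR ψ L (s, t)) * HH K₂ h r t
  rw [← integral_mul_const]
  refine integral_congr_ae (ae_of_all _ fun s => ?_)
  show (K₁ (ρ * s) * mR ψ L (s, t)) * (K₁ (s * r) * HH K₂ h r t) =
    K₁ (ρ * s) * K₁ (r * s) * mR ψ L (s, t) * HH K₂ h r t
  rw [mul_comm s r]
  ring

include h1 h2 hB1 hB2 hψ hm hM hB0 in
theorem A_eq {κ₁ κ₂ : ℝ → ℂ} (e1 : ∀ t : ℝ, 0 < t → κ₁ t = K₁ t)
    (e2 : ∀ t : ℝ, 0 < t → κ₂ t = K₂ t) {ρ τ : ℝ} (hρ : 0 < ρ) (hτ : 0 < τ) :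
    A κ₁ κ₂ (mR ψ L) h (ρ, τ) = ∫ t in Ioi (0 : ℝ), K₂ (τ * t) * WW K₁ K₂ ψ L h ρ t := by
  have hB : 0 ≤ B := (norm_nonneg _).trans (hB1 0)
  obtain ⟨Mψ, hMψ⟩ : ∃ Mψ, ∀ ξ, ‖mR ψ L ξ‖ ≤ Mψ := by
    obtain ⟨C, hC⟩ := hψ.1.continuous.bounded_above_of_compact_support (bump_compact hψ)
    refine ⟨C, fun ξ => ?_⟩
    unfold mR
    rw [Complex.norm_real]
    exact hC _
  have hMψ0 : 0 ≤ Mψ := (norm_nonneg _).trans (hMψ 0)
  have hVV := VV_bdd (K₁ := K₁) (K₂ := K₂) hB1 hB2 hM hB0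
  set MV := (B * ((B * M) * (volume.restrict (Ioi (0 : ℝ))).real (Icc (-B0) B0))) *
      (volume.restrict (Ioi (0 : ℝ))).real (Icc (-B0) B0) with hMV
  have h3 : A κ₁ κ₂ (mR ψ L) h (ρ, τ) =
      ∫ ξ in Q, K₁ (ρ * ξ.1) * K₂ (τ * ξ.2) * mR ψ L ξ * VV K₁ K₂ h ξ.1 ξ.2 := by
    unfold A
    refine setIntegral_congr_fun (measurableSet_Ioi.prod measurableSet_Ioi) fun ξ hξ => ?_
    have hz1 : 0 < ξ.1 := hξ.1
    have hz2 : 0 < ξ.2 := hξ.2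
    show κ₁ (ρ * ξ.1) * κ₂ (τ * ξ.2) * mR ψ L ξ * V κ₁ κ₂ h ξ =
      K₁ (ρ * ξ.1) * K₂ (τ * ξ.2) * mR ψ L ξ * VV K₁ K₂ h ξ.1 ξ.2
    rw [e1 _ (mul_pos hρ hz1), e2 _ (mul_pos hτ hz2),
      ← V_eq (K₁ := K₁) (K₂ := K₂) h1 h2 hB1 hB2 hm hM hB0 e1 e2 hz1 hz2]
  rw [h3, restrict_Q]
  have hint : Integrable (fun ξ : ℝ × ℝ => K₁ (ρ * ξ.1) * K₂ (τ * ξ.2) * mR ψ L ξ *
      VV K₁ K₂ h ξ.1 ξ.2)
      ((volume.restrict (Ioi (0 : ℝ))).prod (volume.restrict (Ioi (0 : ℝ)))) := by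
    refine int_of_bdd ?_ (B * B * Mψ * MV) (fun z => ?_) (Icc (-1) 1 ×ˢ Icc (-1) 1)
      (measurableSet_Icc.prod measurableSet_Icc) (mu_prod _ _) (fun z hz => ?_)
    · refine Measurable.aestronglyMeasurable ?_
      exact (((h1.measurable.comp (by fun_prop)).mul (h2.measurable.comp (by fun_prop))).mul
        (mR_cont hψ L).measurable).mul (VV_meas (K₁ := K₁) (K₂ := K₂) h1 h2 hm)
    · rw [norm_mul, norm_mul, norm_mul]
      exact mul_le_mul (mul_le_mul (mul_le_mul (hB1 _) (hB2 _) (norm_nonneg _) hB) (hMψ _)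
        (norm_nonneg _) (mul_nonneg hB hB)) (hVV _ _) (norm_nonneg _) (by positivity)
    · have := mR_supp hψ L z (right_ne_zero_of_mul (left_ne_zero_of_mul hz))
      exact ⟨abs_le.1 this.1, abs_le.1 this.2⟩
  rw [integral_prod_symm _ hint]
  refine integral_congr_ae (ae_of_all _ fun t => ?_)
  show ∫ s in Ioi (0 : ℝ), K₁ (ρ * s) * K₂ (τ * t) * mR ψ L (s, t) * VV K₁ K₂ h s t =
    K₂ (τ * t) * WW K₁ K₂ ψ L h ρ t
  rw [← swap_eq (K₁ := K₁) (K₂ := K₂) h1 h2 hB1 hB2 hψ L hm hM hB0 hMψ ρ t, ← integral_const_mul]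
  refine integral_congr_ae (ae_of_all _ fun s => ?_)
  show K₁ (ρ * s) * K₂ (τ * t) * mR ψ L (s, t) * VV K₁ K₂ h s t =
    K₂ (τ * t) * (K₁ (ρ * s) * mR ψ L (s, t) * VV K₁ K₂ h s t)
  ring

end

/-! ## Estimates -/

theorem cs {α : Type*} [MeasurableSpace α] {μ : Measure α} {f g : α → ℝ≥0∞}
    (hf : AEMeasurable f μ) (hg : AEMeasurable g μ) :
    (∫⁻ a, f a * g a ∂μ) ^ 2 ≤ (∫⁻ a, f a ^ 2 ∂μ) * (∫⁻ a, g a ^ 2 ∂μ) := by
  have h1 := ENNReal.lintegral_mul_le_Lp_mul_Lq μ Real.HolderConjugate.two_two hf hg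
  have h2 : ∀ X : ℝ≥0∞, (X ^ (1 / (2 : ℝ))) ^ 2 = X := by
    intro X
    rw [← ENNReal.rpow_natCast, ← ENNReal.rpow_mul]
    norm_num
  calc (∫⁻ a, f a * g a ∂μ) ^ 2 ≤ ((∫⁻ a, f a ^ (2 : ℝ) ∂μ) ^ (1 / (2 : ℝ)) *
        (∫⁻ a, g a ^ (2 : ℝ) ∂μ) ^ (1 / (2 : ℝ))) ^ 2 := by
        gcongr
        exact h1
    _ = (∫⁻ a, f a ^ 2 ∂μ) * (∫⁻ a, g a ^ 2 ∂μ) := by
        rw [mul_pow, h2, h2]
        simp only [ENNReal.rpow_two]

/-- the statement of task T2 for the kernel `κ` -/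
def T2S (κ : ℝ → ℂ) : Prop := ∃ C : ℝ, 0 < C ∧ ∀ h : ℝ → ℂ, Integrable h →
    MemLp h 2 → ∫⁻ s in Ioi (0 : ℝ), ‖∫ r in Ioi (0 : ℝ), κ (s * r) * h r‖ₑ ^ 2 ≤
      ENNReal.ofReal C * ∫⁻ r in Ioi (0 : ℝ), ‖h r‖ₑ ^ 2

theorem T2_ext {κ K : ℝ → ℂ} {C : ℝ} (h : ∀ h : ℝ → ℂ, Integrable h →
    MemLp h 2 → ∫⁻ s in Ioi (0 : ℝ), ‖∫ r in Ioi (0 : ℝ), κ (s * r) * h r‖ₑ ^ 2 ≤
      ENNReal.ofReal C * ∫⁻ r in Ioi (0 : ℝ), ‖h r‖ₑ ^ 2) (hK : ∀ t : ℝ, 0 < t → κ t = K t) :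
    ∀ h : ℝ → ℂ, Integrable h →
    MemLp h 2 → ∫⁻ s in Ioi (0 : ℝ), ‖∫ r in Ioi (0 : ℝ), K (s * r) * h r‖ₑ ^ 2 ≤
      ENNReal.ofReal C * ∫⁻ r in Ioi (0 : ℝ), ‖h r‖ₑ ^ 2 := by
  intro f hf hf2
  refine le_trans (le_of_eq ?_) (h f hf hf2)
  refine setLIntegral_congr_fun measurableSet_Ioi fun s hs => ?_
  have hs0 : 0 < s := hs
  have h3 : ∫ r in Ioi (0 : ℝ), K (s * r) * f r = ∫ r in Ioi (0 : ℝ), κ (s * r) * f r := by
    refine setIntegral_congr_fun measurableSet_Ioi fun r hr => ?_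
    have hr0 : 0 < r := hr
    show K (s * r) * f r = κ (s * r) * f r
    rw [hK _ (mul_pos hs0 hr0)]
  show ‖∫ r in Ioi (0 : ℝ), K (s * r) * f r‖ₑ ^ 2 = ‖∫ r in Ioi (0 : ℝ), κ (s * r) * f r‖ₑ ^ 2
  rw [h3]

theorem WW_est {K₁ K₂ : ℝ → ℂ} (h2 : Continuous K₂) {ψ : ℝ → ℝ} {L : ℝ} {h : ℝ × ℝ → ℂ}
    (hm : Measurable h) {b D : ℝ} (hD : 0 ≤ D)
    (hs : ∀ z, h z ≠ 0 → b ≤ z.1 ∧ z.1 ≤ 2 * b) {ρ t : ℝ}
    (hk : ∀ r, b ≤ r → r ≤ 2 * b → ‖kk K₁ ψ L t ρ r‖ ≤ D) :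
    ‖WW K₁ K₂ ψ L h ρ t‖ₑ ^ 2 ≤
      ENNReal.ofReal (D ^ 2 * b) * ∫⁻ r in Ioi (0 : ℝ), ‖HH K₂ h r t‖ₑ ^ 2 := by
  have hsupp : ∀ r, HH K₂ h r t ≠ 0 → r ∈ Icc b (2 * b) := by
    intro r hr
    by_contra hcon
    refine hr ?_
    unfold HH
    have h3 : ∀ u, K₂ (t * u) * h (r, u) = 0 := by
      intro u
      have : h (r, u) = 0 := by
        by_contra h4
        exact hcon (hs (r, u) h4)
      rw [this, mul_zero]
    simp only [h3, integral_zero]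
  have hHm : Measurable (fun r : ℝ => HH K₂ h r t) :=
    (HH_meas (K₂ := K₂) h2 hm).comp (f := fun r : ℝ => ((r, t) : ℝ × ℝ)) (by fun_prop)
  set f : ℝ → ℝ≥0∞ := (Icc b (2 * b)).indicator (fun _ => ENNReal.ofReal D) with hf
  have hfm : Measurable f := measurable_const.indicator measurableSet_Icc
  have h3 : ‖WW K₁ K₂ ψ L h ρ t‖ₑ ≤ ∫⁻ r in Ioi (0 : ℝ), f r * ‖HH K₂ h r t‖ₑ := by
    refine (enorm_integral_le_lintegral_enorm _).trans (lintegral_mono fun r => ?_)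
    show ‖kk K₁ ψ L t ρ r * HH K₂ h r t‖ₑ ≤ f r * ‖HH K₂ h r t‖ₑ
    rw [enorm_mul]
    by_cases hr : HH K₂ h r t = 0
    · rw [hr]; simp
    · have hr' := hsupp r hr
      rw [hf, indicator_of_mem hr']
      refine mul_le_mul_left ?_ _
      rw [← ofReal_norm]
      exact ENNReal.ofReal_le_ofReal (hk r hr'.1 hr'.2)
  have h4 : ∫⁻ r in Ioi (0 : ℝ), f r ^ 2 ≤ ENNReal.ofReal (D ^ 2 * b) := by
    have h5 : ∀ r, f r ^ 2 = (Icc b (2 * b)).indicator (fun _ => ENNReal.ofReal D ^ 2) r := by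
      intro r
      rw [hf]
      by_cases hr : r ∈ Icc b (2 * b)
      · rw [indicator_of_mem hr, indicator_of_mem hr]
      · rw [indicator_of_notMem hr, indicator_of_notMem hr]
        norm_num
    simp only [h5]
    rw [lintegral_indicator measurableSet_Icc, setLIntegral_const, ENNReal.ofReal_mul (by positivity),
      ENNReal.ofReal_pow hD]
    refine mul_le_mul_right ?_ _
    refine (Measure.restrict_apply_le _ _).trans ?_
    rw [Real.volume_Icc]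
    exact ENNReal.ofReal_le_ofReal (by linarith)
  calc ‖WW K₁ K₂ ψ L h ρ t‖ₑ ^ 2 ≤ (∫⁻ r in Ioi (0 : ℝ), f r * ‖HH K₂ h r t‖ₑ) ^ 2 := by
        gcongr
    _ ≤ (∫⁻ r in Ioi (0 : ℝ), f r ^ 2) * ∫⁻ r in Ioi (0 : ℝ), ‖HH K₂ h r t‖ₑ ^ 2 :=
        cs hfm.aemeasurable hHm.enorm.aemeasurable
    _ ≤ _ := by gcongr

theorem dist_le {a b ρ r : ℝ} (ha : 0 < a) (hb : 0 < b) (hab : 4 * b ≤ a ∨ 4 * a ≤ b)
    (h1 : a ≤ ρ) (h2 : ρ ≤ 2 * a) (h3 : b ≤ r) (h4 : r ≤ 2 * b) :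
    max a b / 2 ≤ |ρ - r| := by
  rcases hab with h | h
  · rw [max_eq_left (by linarith)]
    exact le_trans (by linarith) (le_abs_self _)
  · rw [max_eq_right (by linarith)]
    exact le_trans (by linarith) (neg_le_abs _)

theorem min_eq {a b : ℝ} (ha : 0 < a) (hb : 0 < b) :
    a * b / (max a b) ^ 2 = min (a / b) (b / a) := by
  rcases le_total a b with h | h
  · rw [max_eq_right h, min_eq_left]
    · field_simp
    · rw [div_le_div_iff₀ hb ha]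
      nlinarith
  · rw [max_eq_left h, min_eq_right]
    · field_simp
    · rw [div_le_div_iff₀ ha hb]
      nlinarith

theorem off1_of (κ₁ κ₂ : ℝ → ℂ) (h1 : Adm κ₁) (h2 : Adm κ₂) (h3 : Lom κ₁) (hT2 : T2S κ₂)
    (ψ : ℝ → ℝ) (hψ : Bump ψ) : ∃ C : ℝ, 0 < C ∧ ∀ L : ℝ, 1 ≤ L → ∀ a b : ℝ, 0 < a → 0 < b →
    (4 * b ≤ a ∨ 4 * a ≤ b) → ∀ h : ℝ × ℝ → ℂ, Good h → (∀ z, h z ≠ 0 → b ≤ z.1 ∧ z.1 ≤ 2 * b) →
      ∫⁻ z in Icc a (2 * a) ×ˢ Ioi 0, ‖A κ₁ κ₂ (mR ψ L) h z‖ₑ ^ 2 ≤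
        ENNReal.ofReal (C * min (a / b) (b / a)) * ∫⁻ z in Q, ‖h z‖ₑ ^ 2 := by
  obtain ⟨K₁, B₁, hK1c, hB10, hB1, e1⟩ := adm_ext h1
  obtain ⟨K₂, B₂, hK2c, hB20, hB2, e2⟩ := adm_ext h2
  obtain ⟨CL, hCL⟩ := h3
  obtain ⟨C2, hC2, hT⟩ := hT2
  have hT' := T2_ext hT e2
  have hB1' : ∀ t, ‖K₁ t‖ ≤ max B₁ B₂ := fun t => (hB1 t).trans (le_max_left _ _)
  have hB2' : ∀ t, ‖K₂ t‖ ≤ max B₁ B₂ := fun t => (hB2 t).trans (le_max_right _ _)
  have hCL' : ∀ ρ r S : ℝ, 0 < ρ → 0 < r → 0 < S → ρ ≠ r →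
      ‖∫ s in (0 : ℝ)..S, K₁ (ρ * s) * K₁ (r * s)‖ ≤ CL / |ρ - r| := by
    intro ρ r S hρ hr hS hne
    refine le_trans (le_of_eq ?_) (hCL ρ r S hρ hr hS hne)
    congr 1
    rw [intervalIntegral.integral_of_le hS.le, intervalIntegral.integral_of_le hS.le]
    refine setIntegral_congr_fun measurableSet_Ioc fun s hs => ?_
    show K₁ (ρ * s) * K₁ (r * s) = κ₁ (ρ * s) * κ₁ (r * s)
    rw [e1 _ (mul_pos hρ hs.1), e1 _ (mul_pos hr hs.1)]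
  set C0 : ℝ := (∫ v, |deriv ψ v|) * |CL| + 1 with hC0
  have hI0 : 0 ≤ ∫ v, |deriv ψ v| := integral_nonneg fun v => abs_nonneg _
  have hC0p : 0 < C0 := by positivity
  refine ⟨C2 ^ 2 * (4 * C0 ^ 2), by positivity, ?_⟩
  intro L hL a b ha hb hab h hG hs
  obtain ⟨hm, ⟨M, hM⟩, ⟨B0, hB0⟩⟩ := hG
  set D : ℝ := 2 * C0 / max a b with hD
  have hmax : 0 < max a b := lt_max_of_lt_left ha
  have hD0 : 0 ≤ D := by positivity
  have hkk : ∀ ρ t r, a ≤ ρ → ρ ≤ 2 * a → b ≤ r → r ≤ 2 * b → ‖kk K₁ ψ L t ρ r‖ ≤ D := by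
    intro ρ t r h4 h5 h6 h7
    have h8 := dist_le ha hb hab h4 h5 h6 h7
    have h9 : 0 < |ρ - r| := by linarith
    have hne : ρ ≠ r := by
      intro h
      rw [h, sub_self, abs_zero] at h9
      exact lt_irrefl _ h9
    have h10 := kk_bound hK1c hψ (CL := CL) L t
      (fun S hS => hCL' ρ r S (by linarith) (by linarith) hS hne)
    refine h10.trans ?_
    have h11 : CL / |ρ - r| ≤ |CL| / (max a b / 2) := by
      refine (div_le_div_of_nonneg_right (le_abs_self CL) h9.le).trans ?_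
      exact div_le_div_of_nonneg_left (abs_nonneg _) (by positivity) h8
    calc (∫ v, |deriv ψ v|) * (CL / |ρ - r|) ≤ (∫ v, |deriv ψ v|) * (|CL| / (max a b / 2)) :=
          mul_le_mul_of_nonneg_left h11 hI0
      _ = 2 * ((∫ v, |deriv ψ v|) * |CL|) / max a b := by field_simp
      _ ≤ D := by
          rw [hD]
          refine div_le_div_of_nonneg_right ?_ hmax.le
          rw [hC0]
          linarith
  obtain ⟨Mψ, hMψ⟩ : ∃ Mψ, ∀ ξ, ‖mR ψ L ξ‖ ≤ Mψ := by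
    obtain ⟨C, hC⟩ := hψ.1.continuous.bounded_above_of_compact_support (bump_compact hψ)
    refine ⟨C, fun ξ => ?_⟩
    unfold mR
    rw [Complex.norm_real]
    exact hC _
  -- the function AA
  set AA : ℝ × ℝ → ℂ := fun z => ∫ t in Ioi (0 : ℝ), K₂ (z.2 * t) * WW K₁ K₂ ψ L h z.1 t with hAA
  have hWWm := WW_meas (K₁ := K₁) (K₂ := K₂) hK1c hK2c hψ L hm
  have hAAm : Measurable AA := by
    have h4 : StronglyMeasurable (fun q : (ℝ × ℝ) × ℝ =>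
        K₂ (q.1.2 * q.2) * WW K₁ K₂ ψ L h q.1.1 q.2) := by
      refine Measurable.stronglyMeasurable ?_
      refine Measurable.mul (hK2c.measurable.comp (by fun_prop)) ?_
      exact hWWm.comp (f := fun q : (ℝ × ℝ) × ℝ => ((q.1.1, q.2) : ℝ × ℝ)) (by fun_prop)
    exact (h4.integral_prod_right' (ν := volume.restrict (Ioi (0 : ℝ)))).measurable
  have hA1 : ∫⁻ z in Icc a (2 * a) ×ˢ Ioi 0, ‖A κ₁ κ₂ (mR ψ L) h z‖ₑ ^ 2 =
      ∫⁻ z in Icc a (2 * a) ×ˢ Ioi 0, ‖AA z‖ₑ ^ 2 := by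
    refine setLIntegral_congr_fun (measurableSet_Icc.prod measurableSet_Ioi) fun z hz => ?_
    have hz1 : 0 < z.1 := lt_of_lt_of_le ha hz.1.1
    have hz2 : 0 < z.2 := hz.2
    have := A_eq (K₁ := K₁) (K₂ := K₂) hK1c hK2c hB1' hB2' hψ L hm hM hB0 e1 e2 hz1 hz2
    show ‖A κ₁ κ₂ (mR ψ L) h (z.1, z.2)‖ₑ ^ 2 = ‖AA z‖ₑ ^ 2
    rw [this]
  have hHHm := HH_meas (K₂ := K₂) hK2c hm
  set X : ℝ≥0∞ := ∫⁻ z in Q, ‖h z‖ₑ ^ 2 with hX
  -- the transform in the second variable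
  have hIH : ∫⁻ t in Ioi (0 : ℝ), ∫⁻ r in Ioi (0 : ℝ), ‖HH K₂ h r t‖ₑ ^ 2 ≤
      ENNReal.ofReal C2 * X := by
    rw [lintegral_lintegral_swap]
    · have h4 : ∀ r : ℝ, ∫⁻ t in Ioi (0 : ℝ), ‖HH K₂ h r t‖ₑ ^ 2 ≤
          ENNReal.ofReal C2 * ∫⁻ u in Ioi (0 : ℝ), ‖h (r, u)‖ₑ ^ 2 := by
        intro r
        have hr := memLp_two_of_bdd (f := fun u => h (r, u)) (hm.comp (by fun_prop)) M
          (fun u => hM _) B0 (fun u hu => (hB0 _ hu).2)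
        exact hT' (fun u => h (r, u)) hr.1 hr.2
      refine (lintegral_mono h4).trans ?_
      rw [lintegral_const_mul]
      · refine mul_le_mul_right (le_of_eq ?_) _
        rw [hX, restrict_Q, lintegral_prod]
        exact (hm.enorm.pow_const 2).aemeasurable
      · exact (hm.enorm.pow_const 2).lintegral_prod_right'
    · refine Measurable.aemeasurable ?_
      exact (hHHm.comp (f := fun z : ℝ × ℝ => ((z.2, z.1) : ℝ × ℝ)) (by fun_prop)).enorm.pow_const 2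
  have hρ : ∀ ρ ∈ Icc a (2 * a), ∫⁻ τ in Ioi (0 : ℝ), ‖AA (ρ, τ)‖ₑ ^ 2 ≤
      ENNReal.ofReal C2 * (ENNReal.ofReal (D ^ 2 * b) * (ENNReal.ofReal C2 * X)) := by
    intro ρ hρ
    have hW := memLp_two_of_bdd (f := fun t => WW K₁ K₂ ψ L h ρ t)
      (hWWm.comp (f := fun t : ℝ => ((ρ, t) : ℝ × ℝ)) (by fun_prop)) _
      (fun t => WW_bdd (K₁ := K₁) (K₂ := K₂) hB1' hB2' hψ L hM hB0 hMψ ρ t) 1
      (fun t ht => WW_supp hψ L ρ t ht)
    refine (hT' (fun t => WW K₁ K₂ ψ L h ρ t) hW.1 hW.2).trans ?_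
    refine mul_le_mul_right ?_ _
    have h5 : ∀ t : ℝ, ‖WW K₁ K₂ ψ L h ρ t‖ₑ ^ 2 ≤
        ENNReal.ofReal (D ^ 2 * b) * ∫⁻ r in Ioi (0 : ℝ), ‖HH K₂ h r t‖ₑ ^ 2 := fun t =>
      WW_est hK2c hm hD0 hs (fun r h6 h7 => hkk ρ t r hρ.1 hρ.2 h6 h7)
    refine (lintegral_mono h5).trans ?_
    rw [lintegral_const_mul]
    · exact mul_le_mul_right hIH _
    · exact ((hHHm.comp (f := fun z : ℝ × ℝ => ((z.2, z.1) : ℝ × ℝ))
        (by fun_prop)).enorm.pow_const 2).lintegral_prod_right'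
  have hfin : ∫⁻ z in Icc a (2 * a) ×ˢ Ioi 0, ‖AA z‖ₑ ^ 2 ≤
      ENNReal.ofReal C2 * (ENNReal.ofReal (D ^ 2 * b) * (ENNReal.ofReal C2 * X)) *
        ENNReal.ofReal a := by
    rw [Measure.volume_eq_prod, ← Measure.prod_restrict, lintegral_prod]
    · refine (setLIntegral_mono' measurableSet_Icc hρ).trans ?_
      rw [setLIntegral_const, Real.volume_Icc]
      refine mul_le_mul_right (ENNReal.ofReal_le_ofReal (by linarith)) _
    · exact (hAAm.enorm.pow_const 2).aemeasurable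
  rw [hA1]
  refine hfin.trans (le_of_eq ?_)
  have h6 : C2 ^ 2 * (4 * C0 ^ 2) * min (a / b) (b / a) = C2 * (D ^ 2 * b * (C2 * a)) := by
    rw [← min_eq ha hb, hD]
    field_simp
    ring
  rw [h6, ENNReal.ofReal_mul hC2.le, ENNReal.ofReal_mul (by positivity : 0 ≤ D ^ 2 * b),
    ENNReal.ofReal_mul hC2.le]
  ring

end Pool.Agent.H438R2.RZ.T4aux

namespace Pool.Agent.H438R2.RZ

open MeasureTheory Set Complex
open scoped ENNReal

theorem off1 (κ₁ κ₂ : ℝ → ℂ) (h1 : Adm κ₁) (h2 : Adm κ₂) (h3 : Lom κ₁) (ψ : ℝ → ℝ)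
    (hψ : Bump ψ) : ∃ C : ℝ, 0 < C ∧ ∀ L : ℝ, 1 ≤ L → ∀ a b : ℝ, 0 < a → 0 < b →
    (4 * b ≤ a ∨ 4 * a ≤ b) → ∀ h : ℝ × ℝ → ℂ, Good h → (∀ z, h z ≠ 0 → b ≤ z.1 ∧ z.1 ≤ 2 * b) →
      ∫⁻ z in Icc a (2 * a) ×ˢ Ioi 0, ‖A κ₁ κ₂ (mR ψ L) h z‖ₑ ^ 2 ≤
        ENNReal.ofReal (C * min (a / b) (b / a)) * ∫⁻ z in Q, ‖h z‖ₑ ^ 2 :=
  T4aux.off1_of κ₁ κ₂ h1 h2 h3 (hankel_l2 κ₂ h2) ψ hψ

end Pool.Agent.H438R2.RZ
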