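import Mathlib
import Pool.Agent.H438R2.RZ.B0
import Pool.Agent.H438R2.RZ.T3
import Pool.Agent.H438R2.RZ.T4
set_option autoImplicit false

/-! # Bochner-Riesz means of block radial functions: T5, L2 bound for blocks -/

namespace Pool.Agent.H438R2.RZ.T5aux

open MeasureTheory Set Complex
open scoped ENNReal

theorem good_swap {h : ℝ × ℝ → ℂ} (hh : Good h) : Good (fun y => h y.swap) := by
  obtain ⟨h1, ⟨M, h2⟩, B, h3⟩ := hh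
  refine ⟨h1.comp measurable_swap, ⟨M, fun z => h2 _⟩, B, fun z hz => ?_⟩
  have := h3 z.swap hz
  exact ⟨this.2, this.1⟩

theorem lint_swap (S : Set (ℝ × ℝ)) (F : ℝ × ℝ → ℝ≥0∞) :
    ∫⁻ z in Prod.swap ⁻¹' S, F z.swap = ∫⁻ z in S, F z :=
  (Measure.measurePreserving_swap (μ := (volume : Measure ℝ))
    (ν := (volume : Measure ℝ))).setLIntegral_comp_preimage_emb
    MeasurableEquiv.prodComm.measurableEmbedding F S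

theorem mR_swap (ψ : ℝ → ℝ) (L : ℝ) : (fun ξ : ℝ × ℝ => mR ψ L ξ.swap) = mR ψ L := by
  funext ξ
  simp only [mR, Prod.fst_swap, Prod.snd_swap, add_comm]

/-- off diagonal bound in the second variable -/
theorem off2 (κ₁ κ₂ : ℝ → ℂ) (h1 : Adm κ₁) (h2 : Adm κ₂) (h4 : Lom κ₂) (ψ : ℝ → ℝ)
    (hψ : Bump ψ) : ∃ C : ℝ, 0 < C ∧ ∀ L : ℝ, 1 ≤ L → ∀ a b : ℝ, 0 < a → 0 < b →
    (4 * b ≤ a ∨ 4 * a ≤ b) → ∀ h : ℝ × ℝ → ℂ, Good h → (∀ z, h z ≠ 0 → b ≤ z.2 ∧ z.2 ≤ 2 * b) →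
      ∫⁻ z in Ioi 0 ×ˢ Icc a (2 * a), ‖A κ₁ κ₂ (mR ψ L) h z‖ₑ ^ 2 ≤
        ENNReal.ofReal (C * min (a / b) (b / a)) * ∫⁻ z in Q, ‖h z‖ₑ ^ 2 := by
  obtain ⟨C, hC, H⟩ := off1 κ₂ κ₁ h2 h1 h4 ψ hψ
  refine ⟨C, hC, fun L hL a b ha hb hab h hh hs => ?_⟩
  have key := H L hL a b ha hb hab (fun y => h y.swap) (good_swap hh) (fun z hz => hs z.swap hz)
  have e1 : ∫⁻ z in Q, ‖h z.swap‖ₑ ^ 2 = ∫⁻ z in Q, ‖h z‖ₑ ^ 2 := by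
    have := lint_swap Q (fun z => ‖h z‖ₑ ^ 2)
    have e : Prod.swap ⁻¹' Q = Q := by
      ext z
      simp [Q]
    rwa [e] at this
  have e2 : ∫⁻ z in Ioi 0 ×ˢ Icc a (2 * a), ‖A κ₁ κ₂ (mR ψ L) h z‖ₑ ^ 2 =
      ∫⁻ z in Icc a (2 * a) ×ˢ Ioi 0, ‖A κ₂ κ₁ (mR ψ L) (fun y => h y.swap) z‖ₑ ^ 2 := by
    have := lint_swap (Icc a (2 * a) ×ˢ Ioi 0)
      (fun z => ‖A κ₂ κ₁ (mR ψ L) (fun y => h y.swap) z‖ₑ ^ 2)
    rw [← this, preimage_swap_prod]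
    refine lintegral_congr fun z => ?_
    rw [A_swap κ₁ κ₂ (mR ψ L) h z, mR_swap]
  rw [e2, ← e1]
  exact key

theorem ratio_near {a b : ℝ} (ha : 0 < a) (hb : 0 < b) (h : ¬ (4 * b ≤ a ∨ 4 * a ≤ b)) :
    1 / 4 ≤ min (a / b) (b / a) := by
  push Not at h
  refine le_min ?_ ?_
  · rw [le_div_iff₀ hb]
    linarith [h.2]
  · rw [le_div_iff₀ ha]
    linarith [h.1]

theorem ratio_le_one {a b : ℝ} (ha : 0 < a) (hb : 0 < b) : min (a / b) (b / a) ≤ 1 := by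
  rcases le_total a b with h | h
  · exact (min_le_left _ _).trans ((div_le_one hb).2 h)
  · exact (min_le_right _ _).trans ((div_le_one ha).2 h)

theorem ratio_pos {a b : ℝ} (ha : 0 < a) (hb : 0 < b) : 0 < min (a / b) (b / a) :=
  lt_min (div_pos ha hb) (div_pos hb ha)

end Pool.Agent.H438R2.RZ.T5aux

namespace Pool.Agent.H438R2.RZ

open MeasureTheory Set Complex T5aux
open scoped ENNReal

/-- L2 bound for blocks -/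
theorem block2' (κ₁ κ₂ : ℝ → ℂ) (h1 : Adm κ₁) (h2 : Adm κ₂) (h3 : Lom κ₁) (h4 : Lom κ₂)
    (ψ : ℝ → ℝ) (hψ : Bump ψ) : ∃ C : ℝ, 0 < C ∧ ∀ L : ℝ, 1 ≤ L →
    ∀ a a' b b' : ℝ, 0 < a → 0 < a' → 0 < b → 0 < b' → ∀ h : ℝ × ℝ → ℂ, Good h →
    (∀ z, h z ≠ 0 → (b ≤ z.1 ∧ z.1 ≤ 2 * b) ∧ b' ≤ z.2 ∧ z.2 ≤ 2 * b') →
      ∫⁻ z in Icc a (2 * a) ×ˢ Icc a' (2 * a'), ‖A κ₁ κ₂ (mR ψ L) h z‖ₑ ^ 2 ≤
        ENNReal.ofReal (C * min (min (a / b) (b / a)) (min (a' / b') (b' / a'))) *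
          ∫⁻ z in Q, ‖h z‖ₑ ^ 2 := by
  obtain ⟨C0, hC0, H0⟩ := glob2 κ₁ κ₂ h1 h2
  obtain ⟨C1, hC1, H1⟩ := off1 κ₁ κ₂ h1 h2 h3 ψ hψ
  obtain ⟨C2, hC2, H2⟩ := off2 κ₁ κ₂ h1 h2 h4 ψ hψ
  obtain ⟨M, hM⟩ := mR_bdd ψ hψ
  have hM2 : 0 ≤ M ^ 2 := sq_nonneg _
  refine ⟨4 * (C0 * M ^ 2 + C1 + C2), by positivity,
    fun L hL a a' b b' ha ha' hb hb' h hh hs => ?_⟩
  have sub1 : Icc a (2 * a) ×ˢ Icc a' (2 * a') ⊆ (Icc a (2 * a) ×ˢ Ioi 0 : Set (ℝ × ℝ)) :=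
    prod_mono Subset.rfl fun x hx => ha'.trans_le hx.1
  have sub2 : Icc a (2 * a) ×ˢ Icc a' (2 * a') ⊆ (Ioi 0 ×ˢ Icc a' (2 * a') : Set (ℝ × ℝ)) :=
    prod_mono (fun x hx => ha.trans_le hx.1) Subset.rfl
  have sub0 : Icc a (2 * a) ×ˢ Icc a' (2 * a') ⊆ Q :=
    prod_mono (fun x hx => ha.trans_le hx.1) fun x hx => ha'.trans_le hx.1
  have K0 : ∫⁻ z in Icc a (2 * a) ×ˢ Icc a' (2 * a'), ‖A κ₁ κ₂ (mR ψ L) h z‖ₑ ^ 2 ≤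
      ENNReal.ofReal (C0 * M ^ 2) * ∫⁻ z in Q, ‖h z‖ₑ ^ 2 :=
    (lintegral_mono_set sub0).trans (H0 _ (mR_good ψ hψ L hL) M (fun ξ => hM L ξ) h hh)
  have p1 := ratio_pos ha hb
  have p2 := ratio_pos ha' hb'
  have l1 := ratio_le_one ha hb
  have l2 := ratio_le_one ha' hb'
  set x := min (a / b) (b / a) with hx
  set y := min (a' / b') (b' / a') with hy
  have K1 : (4 * b ≤ a ∨ 4 * a ≤ b) →
      ∫⁻ z in Icc a (2 * a) ×ˢ Icc a' (2 * a'), ‖A κ₁ κ₂ (mR ψ L) h z‖ₑ ^ 2 ≤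
      ENNReal.ofReal (C1 * x) * ∫⁻ z in Q, ‖h z‖ₑ ^ 2 := fun hf =>
    (lintegral_mono_set sub1).trans (H1 L hL a b ha hb hf h hh fun z hz => (hs z hz).1)
  have K2 : (4 * b' ≤ a' ∨ 4 * a' ≤ b') →
      ∫⁻ z in Icc a (2 * a) ×ˢ Icc a' (2 * a'), ‖A κ₁ κ₂ (mR ψ L) h z‖ₑ ^ 2 ≤
      ENNReal.ofReal (C2 * y) * ∫⁻ z in Q, ‖h z‖ₑ ^ 2 := fun hf =>
    (lintegral_mono_set sub2).trans (H2 L hL a' b' ha' hb' hf h hh fun z hz => (hs z hz).2)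
  have fin : ∀ t : ℝ, t ≤ 4 * (C0 * M ^ 2 + C1 + C2) * min x y →
      ∫⁻ z in Icc a (2 * a) ×ˢ Icc a' (2 * a'), ‖A κ₁ κ₂ (mR ψ L) h z‖ₑ ^ 2 ≤
      ENNReal.ofReal t * ∫⁻ z in Q, ‖h z‖ₑ ^ 2 →
      ∫⁻ z in Icc a (2 * a) ×ˢ Icc a' (2 * a'), ‖A κ₁ κ₂ (mR ψ L) h z‖ₑ ^ 2 ≤
      ENNReal.ofReal (4 * (C0 * M ^ 2 + C1 + C2) * min x y) * ∫⁻ z in Q, ‖h z‖ₑ ^ 2 :=
    fun t ht hi => hi.trans (mul_le_mul' (ENNReal.ofReal_le_ofReal ht) le_rfl)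
  have hCM : 0 ≤ C0 * M ^ 2 := by positivity
  by_cases f1 : 4 * b ≤ a ∨ 4 * a ≤ b
  · by_cases f2 : 4 * b' ≤ a' ∨ 4 * a' ≤ b'
    · rcases le_total x y with hxy | hxy
      · refine fin _ ?_ (K1 f1)
        rw [min_eq_left hxy]
        nlinarith [mul_nonneg hCM p1.le, mul_pos hC1 p1, mul_pos hC2 p1]
      · refine fin _ ?_ (K2 f2)
        rw [min_eq_right hxy]
        nlinarith [mul_nonneg hCM p2.le, mul_pos hC1 p2, mul_pos hC2 p2]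
    · have n2 := ratio_near ha' hb' f2
      refine fin _ ?_ (K1 f1)
      have : x / 4 ≤ min x y := le_min (by linarith) (by linarith)
      nlinarith [mul_nonneg hCM (lt_min p1 p2).le, mul_pos hC2 (lt_min p1 p2),
        mul_le_mul_of_nonneg_left this hC1.le]
  · have n1 := ratio_near ha hb f1
    by_cases f2 : 4 * b' ≤ a' ∨ 4 * a' ≤ b'
    · refine fin _ ?_ (K2 f2)
      have : y / 4 ≤ min x y := le_min (by linarith) (by linarith)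
      nlinarith [mul_nonneg hCM (lt_min p1 p2).le, mul_pos hC1 (lt_min p1 p2),
        mul_le_mul_of_nonneg_left this hC2.le]
    · have n2 := ratio_near ha' hb' f2
      refine fin _ ?_ K0
      have : 1 / 4 ≤ min x y := le_min n1 n2
      nlinarith [mul_pos hC1 (lt_min p1 p2), mul_pos hC2 (lt_min p1 p2),
        mul_le_mul_of_nonneg_left this hCM]

end Pool.Agent.H438R2.RZ
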