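import Pool.Agent.H438R2.RZ.Defs
import Pool.Agent.H438R2.RZ.Base1
import Pool.Agent.H438R2.RZ.K4
import Pool.Agent.H438R2.RZ.K5
import Pool.Agent.H438R2.RZ.K6
import Pool.Agent.H438R2.RZ.M1
import Pool.Agent.H438R2.RZ.M2
import Pool.Agent.H438R2.RZ.P1
import Pool.Agent.H438R2.RZ.P3b
import Pool.Agent.H438R2.RZ.P4
import Pool.Agent.H438R2.RZ.P5
import Pool.Agent.H438R2.RZ.P6
import Pool.Agent.H438R2.RZ.P7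
import Pool.Agent.H438R2.RZ.P8
import Pool.Agent.H438R2.RZ.P9
import Pool.Agent.H438R2.RZ.P10
import Pool.Agent.H438R2.RZ.P11
import Pool.Agent.H438R2.RZ.R1
import Pool.Agent.H438R2.RZ.R2
import Pool.Agent.H438R2.RZ.R3
import Pool.Agent.H438R2.RZ.R4
import Pool.Agent.H438R2.RZ.R7
import Pool.Agent.H438R2.RZ.R8
import Pool.Agent.H438R2.RZ.R9
import Pool.Agent.H438R2.RZ.S1
import Pool.Agent.H438R2.RZ.T1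
import Pool.Agent.H438R2.RZ.T5
set_option autoImplicit false

namespace Pool.Agent.H438R2.RZ

open MeasureTheory Set Complex Filter
open scoped ENNReal RealInnerProductSpace Topology
open Pool.Agent.H789R2.FR (E sg)

theorem adm_kap (k : ℕ) (hk : 1 ≤ k) : Adm (kap k) := by
  rcases Nat.lt_or_ge 1 k with h | h
  · exact adm_kap2 k h
  · have : k = 1 := le_antisymm h hk
    subst this; exact adm_kap1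

theorem lom_kap (k : ℕ) (hk : 1 ≤ k) : Lom (kap k) := by
  rcases Nat.lt_or_ge 1 k with h | h
  · exact lom_kap2 k h
  · have : k = 1 := le_antisymm h hk
    subst this; exact lom_kap1

theorem cap_conv (ψ α β η θ : ℝ → ℝ) (hψ : Bump ψ) (hab : Arc α β) (hη : Win η)
    (hθ : ContDiff ℝ (⊤ : ℕ∞) θ) (hs : ∀ x, θ x ≠ 0 → |x| ≤ 2) (h1 : ∀ x, |x| ≤ 1 → θ x = 1) :
    ∃ C : ℝ, 0 < C ∧ ∀ L : ℝ, 10 ≤ L → ∀ a : ℤ, |(a : ℝ)| ≤ 9 / 10 * L →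
      ∀ g : ℝ × ℝ → ℂ, Good g → ∀ z : ℝ × ℝ,
      ‖Pl (mC ψ α β η L a) g z‖ₑ ^ 2 ≤ ENNReal.ofReal C *
        ∫⁻ z', ENNReal.ofReal (Bk L (sl L a) (z - z')) * ‖gA θ L a g z'‖ₑ ^ 2 :=
  cap_conv_of ψ α β η θ hψ hab hη hθ hs h1 (cap_kernel ψ α β η hψ hab hη)

theorem kak : ∃ C : ℝ, 0 < C ∧ ∀ L : ℝ, 10 ≤ L → ∀ G : ℝ × ℝ → ℝ≥0∞, Measurable G →
    ∫⁻ z : ℝ × ℝ, (⨆ a ∈ SL L, ∫⁻ z', ENNReal.ofReal (Bk L (sl L a) (z' - z)) * G z') ^ 2 ≤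
      ENNReal.ofReal (C * (1 + Real.log L) ^ 2) * ∫⁻ z, G z ^ 2 := kak' kak_box

theorem arc_L4 (ψ α β : ℝ → ℝ) (hψ : Bump ψ) (hab : Arc α β) :
    ∃ C : ℝ, 0 < C ∧ ∀ L : ℝ, 10 ≤ L → ∀ g : ℝ × ℝ → ℂ, Good g →
      ∫⁻ z, ‖Pl (mA ψ α β L) g z‖ₑ ^ 4 ≤
        ENNReal.ofReal (C * (1 + Real.log L) ^ 2) * ∫⁻ z, ‖g z‖ₑ ^ 4 :=
  arc_L4_of ψ α β hψ hab pl_planch (fun η hη hs => orth ψ α β η hψ hab hη hs)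
    (fun θ h1 h2 => sq_pointwise θ h1 h2)
    (fun η θ hη h1 h2 h3 => cap_conv ψ α β η θ hψ hab hη h1 h2 h3) kak

theorem full_L4 (ψ : ℝ → ℝ) (hψ : Bump ψ) :
    ∃ C : ℝ, 0 < C ∧ ∀ L : ℝ, 10 ≤ L → ∀ g : ℝ × ℝ → ℂ, Good g →
      ∫⁻ z, ‖Pl (mR ψ L) g z‖ₑ ^ 4 ≤
        ENNReal.ofReal (C * (1 + Real.log L) ^ 2) * ∫⁻ z, ‖g z‖ₑ ^ 4 :=
  P9aux.full_L4_of arc_L4 ψ hψ

theorem quarter_L4 (ψ : ℝ → ℝ) (hψ : Bump ψ) :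
    ∃ C : ℝ, 0 < C ∧ ∀ L : ℝ, 10 ≤ L → ∀ g : ℝ × ℝ → ℂ, Good g →
      ∫⁻ z, ‖Pl (Q.indicator (mR ψ L)) g z‖ₑ ^ 4 ≤
        ENNReal.ofReal (C * (1 + Real.log L) ^ 2) * ∫⁻ z, ‖g z‖ₑ ^ 4 :=
  quarter_L4_of (fun ψ h => full_L4 ψ h) riesz4 ψ hψ

theorem weighted (κ₁ κ₂ : ℝ → ℂ) (h1 : Adm κ₁) (h2 : Adm κ₂) (h3 : Lom κ₁) (h4 : Lom κ₂)
    (ψ : ℝ → ℝ) (hψ : Bump ψ) (p a₁ a₂ ε : ℝ) (hp : 2 < p) (hp4 : p < 4) (ha₁ : 0 ≤ a₁)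
    (ha₂ : 0 ≤ a₂) (ha : a₁ + a₂ < 2 - p / 2) (hε : 0 < ε) : ∃ C : ℝ, 0 < C ∧
    ∀ L : ℝ, 10 ≤ L → ∀ h : ℝ × ℝ → ℂ, Good h →
      ∫⁻ z in Q, ‖A κ₁ κ₂ (mR ψ L) h z‖ₑ ^ p * ENNReal.ofReal (z.1 ^ (-a₁) * z.2 ^ (-a₂)) ≤
        ENNReal.ofReal (C * L ^ ε) *
          ∫⁻ z in Q, ‖h z‖ₑ ^ p * ENNReal.ofReal (z.1 ^ (-a₁) * z.2 ^ (-a₂)) :=
  weighted_of quarter_L4 transp4 block2' κ₁ κ₂ h1 h2 h3 h4 ψ hψ p a₁ a₂ ε hp hp4 ha₁ ha₂ ha hε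

theorem At_sup (k m : ℕ) (hk : 1 ≤ k) (hm : 1 ≤ m) (ω : E (k + m) → ℂ) (κ₂ : ℝ → ℂ)
    (hL : Lk k m ω κ₂) (ψ : ℝ → ℝ) (hψ : Bump ψ) (ε : ℝ) (hε : 0 < ε) : ∃ C : ℝ, 0 < C ∧
    ∀ L : ℝ, 1 ≤ L → ∀ g : ℝ × ℝ → ℂ, Good g → ∀ B : ℝ, (∀ z, ‖g z‖ ≤ B) →
      ∀ z ∈ Q, ‖At k m κ₂ (mR ψ L) g z‖ ≤ C * L ^ (((k + m : ℕ) : ℝ) - 1 + ε) * B :=
  At_sup_of k m hk hm (bl_surj k m hk hm) (ker_L1 (k + m) (by omega)) (TR_conv (k + m))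
    ω κ₂ hL ψ hψ ε hε

end Pool.Agent.H438R2.RZ
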