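import Pool.Agent.H438R2.RZ.Base2

set_option autoImplicit false

/-! # Bochner-Riesz means of block radial functions: the profile operator for `p ≥ 2` (R5) -/

namespace Pool.Agent.H438R2.RZ

open MeasureTheory Set Complex Filter
open scoped ENNReal RealInnerProductSpace Topology
open Pool.Agent.H789R2.FR (E sg)
open Pool.Agent.H438R2.BR (Phi L)

namespace R5aux

theorem measurable_e : Measurable e := by
  unfold e
  exact (Complex.measurable_exp.comp (by fun_prop))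

theorem norm_e (x : ℝ) : ‖e x‖ = 1 := by
  unfold e
  exact Complex.norm_exp_ofReal_mul_I _

/-- truncated kernel -/
noncomputable def tr (κ : ℝ → ℂ) (t : ℝ) : ℂ := (Ioi (0 : ℝ)).indicator κ t

theorem tr_pos (κ : ℝ → ℂ) {t : ℝ} (ht : 0 < t) : tr κ t = κ t := by
  unfold tr
  exact Set.indicator_of_mem (by exact ht) _

theorem tr_meas {κ : ℝ → ℂ} (h : Adm κ) : Measurable (tr κ) := by
  obtain ⟨ν, hfin, hb, h0, hint, hrep⟩ := h
  have h1 : tr κ = (Ioi (0 : ℝ)).indicator (fun t => ∫ q, q.2 * e (q.1 * t) ∂ν) := by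
    funext t
    by_cases ht : t ∈ Ioi (0 : ℝ)
    · unfold tr
      rw [Set.indicator_of_mem ht, Set.indicator_of_mem ht]
      exact hrep t ht
    · unfold tr
      rw [Set.indicator_of_notMem ht, Set.indicator_of_notMem ht]
  rw [h1]
  refine Measurable.indicator ?_ measurableSet_Ioi
  have h2 : Measurable (fun x : ℝ × (ℝ × ℂ) => x.2.2 * e (x.2.1 * x.1)) := by
    refine Measurable.mul (by fun_prop) (measurable_e.comp (by fun_prop))
  exact (h2.stronglyMeasurable.integral_prod_right' (ν := ν)).measurable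

theorem tr_bdd {κ : ℝ → ℂ} (h : Adm κ) : ∃ B : ℝ, 0 ≤ B ∧ ∀ t, ‖tr κ t‖ ≤ B := by
  obtain ⟨ν, hfin, hb, h0, hint, hrep⟩ := h
  refine ⟨1 * ν.real univ, by positivity, fun t => ?_⟩
  by_cases ht : t ∈ Ioi (0 : ℝ)
  · rw [tr_pos κ ht, hrep t ht]
    refine norm_integral_le_of_norm_le_const ?_
    filter_upwards [hb] with q hq
    rw [norm_mul, norm_e, mul_one]
    exact hq
  · unfold tr
    rw [Set.indicator_of_notMem ht, norm_zero]
    positivity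

theorem good_int {g : ℝ × ℝ → ℂ} (hg : Good g) : Integrable g := by
  obtain ⟨hm, ⟨M, hM⟩, B, hB⟩ := hg
  have h1 : IntegrableOn g (Icc (-B) B ×ˢ Icc (-B) B) := by
    refine Measure.integrableOn_of_bounded (M := M) ?_ hm.aestronglyMeasurable ?_
    · rw [Measure.volume_eq_prod, Measure.prod_prod]
      exact ENNReal.mul_ne_top (by simp) (by simp)
    · exact Filter.Eventually.of_forall hM
  refine h1.integrable_of_forall_notMem_eq_zero ?_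
  intro z hz
  by_contra hne
  obtain ⟨h2, h3⟩ := hB z hne
  exact hz ⟨abs_le.1 h2, abs_le.1 h3⟩

theorem good_mul {f g : ℝ × ℝ → ℂ} (hf : Measurable f) {M : ℝ} (hM : ∀ z, g z ≠ 0 → ‖f z‖ ≤ M)
    (hg : Good g) : Good (fun z => f z * g z) := by
  obtain ⟨hm, ⟨M', hM'⟩, B, hB⟩ := hg
  refine ⟨hf.mul hm, ⟨|M| * |M'|, fun z => ?_⟩, B, fun z hz => hB z (right_ne_zero_of_mul hz)⟩
  rw [norm_mul]
  by_cases hz : g z = 0
  · rw [hz, norm_zero, mul_zero]; positivity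
  · exact mul_le_mul ((hM z hz).trans (le_abs_self _)) ((hM' z).trans (le_abs_self _))
      (norm_nonneg _) (abs_nonneg _)

theorem good_add {f g : ℝ × ℝ → ℂ} (hf : Good f) (hg : Good g) : Good (fun z => f z + g z) := by
  obtain ⟨hm, ⟨M, hM⟩, B, hB⟩ := hf
  obtain ⟨hm', ⟨M', hM'⟩, B', hB'⟩ := hg
  refine ⟨hm.add hm', ⟨M + M', fun z => (norm_add_le _ _).trans (add_le_add (hM z) (hM' z))⟩,
    max B B', fun z hz => ?_⟩
  by_cases h : f z = 0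
  · have h' : g z ≠ 0 := by
      intro h'
      apply hz
      show f z + g z = 0
      rw [h, h', add_zero]
    exact ⟨(hB' z h').1.trans (le_max_right _ _), (hB' z h').2.trans (le_max_right _ _)⟩
  · exact ⟨(hB z h).1.trans (le_max_left _ _), (hB z h).2.trans (le_max_left _ _)⟩

theorem good_indicator {g : ℝ × ℝ → ℂ} (hg : Good g) {s : Set (ℝ × ℝ)} (hs : MeasurableSet s) :
    Good (s.indicator g) := by
  obtain ⟨hm, ⟨M, hM⟩, B, hB⟩ := hg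
  refine ⟨hm.indicator hs, ⟨M, fun z => (norm_indicator_le_norm_self _ _).trans (hM z)⟩, B,
    fun z hz => hB z ?_⟩
  intro h
  apply hz
  by_cases hzs : z ∈ s
  · rw [Set.indicator_of_mem hzs, h]
  · rw [Set.indicator_of_notMem hzs]

theorem measQ : MeasurableSet Q := measurableSet_Ioi.prod measurableSet_Ioi

/-- truncated version of `V` -/
noncomputable def Vt (κ₁ κ₂ : ℝ → ℂ) (h : ℝ × ℝ → ℂ) (ξ : ℝ × ℝ) : ℂ :=
  ∫ z in Q, tr κ₁ (ξ.1 * z.1) * tr κ₂ (ξ.2 * z.2) * h z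

theorem V_eq (κ₁ κ₂ : ℝ → ℂ) (h : ℝ × ℝ → ℂ) {ξ : ℝ × ℝ} (hξ : ξ ∈ Q) :
    V κ₁ κ₂ h ξ = Vt κ₁ κ₂ h ξ := by
  unfold V Vt
  refine setIntegral_congr_fun measQ fun z hz => ?_
  rw [tr_pos κ₁ (mul_pos hξ.1 hz.1), tr_pos κ₂ (mul_pos hξ.2 hz.2)]

theorem Vt_meas {κ₁ κ₂ : ℝ → ℂ} (h1 : Adm κ₁) (h2 : Adm κ₂) {h : ℝ × ℝ → ℂ} (hh : Good h) :
    Measurable (Vt κ₁ κ₂ h) := by
  have h3 : Measurable (fun x : (ℝ × ℝ) × (ℝ × ℝ) =>
      tr κ₁ (x.1.1 * x.2.1) * tr κ₂ (x.1.2 * x.2.2) * h x.2) :=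
    (((tr_meas h1).comp (by fun_prop)).mul ((tr_meas h2).comp (by fun_prop))).mul
      (hh.1.comp measurable_snd)
  exact (h3.stronglyMeasurable.integral_prod_right' (ν := volume.restrict Q)).measurable

theorem Vt_integrable {κ₁ κ₂ : ℝ → ℂ} (h1 : Adm κ₁) (h2 : Adm κ₂) {h : ℝ × ℝ → ℂ} (hh : Good h)
    (ξ : ℝ × ℝ) : Integrable (fun z : ℝ × ℝ => tr κ₁ (ξ.1 * z.1) * tr κ₂ (ξ.2 * z.2) * h z) := by
  obtain ⟨B1, hB1, hB1'⟩ := tr_bdd h1
  obtain ⟨B2, hB2, hB2'⟩ := tr_bdd h2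
  refine (good_mul (f := fun z : ℝ × ℝ => tr κ₁ (ξ.1 * z.1) * tr κ₂ (ξ.2 * z.2)) (M := B1 * B2)
    (((tr_meas h1).comp (by fun_prop)).mul ((tr_meas h2).comp (by fun_prop))) ?_ hh) |> good_int
  intro z _
  rw [norm_mul]
  exact mul_le_mul (hB1' _) (hB2' _) (norm_nonneg _) hB1

theorem Vt_bdd {κ₁ κ₂ : ℝ → ℂ} (h1 : Adm κ₁) (h2 : Adm κ₂) {h : ℝ × ℝ → ℂ} (hh : Good h) :
    ∃ B : ℝ, ∀ ξ, ‖Vt κ₁ κ₂ h ξ‖ ≤ B := by
  obtain ⟨B1, hB1, hB1'⟩ := tr_bdd h1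
  obtain ⟨B2, hB2, hB2'⟩ := tr_bdd h2
  refine ⟨∫ z in Q, B1 * B2 * ‖h z‖, fun ξ => ?_⟩
  unfold Vt
  refine (norm_integral_le_integral_norm _).trans ?_
  refine integral_mono (Vt_integrable h1 h2 hh ξ).norm.integrableOn
    ((good_int hh).norm.const_mul _).integrableOn ?_
  intro z
  simp only
  rw [norm_mul, norm_mul]
  exact mul_le_mul_of_nonneg_right (mul_le_mul (hB1' _) (hB2' _) (norm_nonneg _) hB1)
    (norm_nonneg _)

/-- truncated version of `A` -/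
noncomputable def AA (κ₁ κ₂ : ℝ → ℂ) (m h : ℝ × ℝ → ℂ) (z : ℝ × ℝ) : ℂ :=
  ∫ ξ in Q, tr κ₁ (z.1 * ξ.1) * tr κ₂ (z.2 * ξ.2) * m ξ * Vt κ₁ κ₂ h ξ

theorem A_eq (κ₁ κ₂ : ℝ → ℂ) (m h : ℝ × ℝ → ℂ) {z : ℝ × ℝ} (hz : z ∈ Q) :
    A κ₁ κ₂ m h z = AA κ₁ κ₂ m h z := by
  unfold A AA
  refine setIntegral_congr_fun measQ fun ξ hξ => ?_
  rw [tr_pos κ₁ (mul_pos hz.1 hξ.1), tr_pos κ₂ (mul_pos hz.2 hξ.2), V_eq κ₁ κ₂ h hξ]

theorem AA_meas {κ₁ κ₂ : ℝ → ℂ} (h1 : Adm κ₁) (h2 : Adm κ₂) {m h : ℝ × ℝ → ℂ} (hm : Good m)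
    (hh : Good h) : Measurable (AA κ₁ κ₂ m h) := by
  have h3 : Measurable (fun x : (ℝ × ℝ) × (ℝ × ℝ) =>
      tr κ₁ (x.1.1 * x.2.1) * tr κ₂ (x.1.2 * x.2.2) * m x.2 * Vt κ₁ κ₂ h x.2) :=
    ((((tr_meas h1).comp (by fun_prop)).mul ((tr_meas h2).comp (by fun_prop))).mul
      (hm.1.comp measurable_snd)).mul ((Vt_meas h1 h2 hh).comp measurable_snd)
  exact (h3.stronglyMeasurable.integral_prod_right' (ν := volume.restrict Q)).measurable

theorem AA_integrable {κ₁ κ₂ : ℝ → ℂ} (h1 : Adm κ₁) (h2 : Adm κ₂) {m h : ℝ × ℝ → ℂ}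
    (hm : Good m) (hh : Good h) (z : ℝ × ℝ) : Integrable (fun ξ : ℝ × ℝ =>
      tr κ₁ (z.1 * ξ.1) * tr κ₂ (z.2 * ξ.2) * m ξ * Vt κ₁ κ₂ h ξ) := by
  obtain ⟨B1, hB1, hB1'⟩ := tr_bdd h1
  obtain ⟨B2, hB2, hB2'⟩ := tr_bdd h2
  obtain ⟨B3, hB3⟩ := Vt_bdd h1 h2 hh
  have h4 := (good_mul (f := fun ξ : ℝ × ℝ => tr κ₁ (z.1 * ξ.1) * tr κ₂ (z.2 * ξ.2) *
      Vt κ₁ κ₂ h ξ) (M := B1 * B2 * B3)
    ((((tr_meas h1).comp (by fun_prop)).mul ((tr_meas h2).comp (by fun_prop))).mul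
      (Vt_meas h1 h2 hh)) (by
      intro ξ _
      rw [norm_mul, norm_mul]
      exact mul_le_mul (mul_le_mul (hB1' _) (hB2' _) (norm_nonneg _) hB1) (hB3 ξ) (norm_nonneg _)
        (mul_nonneg hB1 hB2)) hm) |> good_int
  refine h4.congr (Filter.Eventually.of_forall fun ξ => ?_)
  simp only
  ring

theorem A_add {κ₁ κ₂ : ℝ → ℂ} (h1 : Adm κ₁) (h2 : Adm κ₂) {m h h' : ℝ × ℝ → ℂ}
    (hm : Good m) (hh : Good h) (hh' : Good h') {z : ℝ × ℝ} (hz : z ∈ Q) :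
    A κ₁ κ₂ m (fun y => h y + h' y) z = A κ₁ κ₂ m h z + A κ₁ κ₂ m h' z := by
  rw [A_eq _ _ _ _ hz, A_eq _ _ _ _ hz, A_eq _ _ _ _ hz]
  unfold AA
  rw [← integral_add (AA_integrable h1 h2 hm hh z).integrableOn
    (AA_integrable h1 h2 hm hh' z).integrableOn]
  refine setIntegral_congr_fun measQ fun ξ hξ => ?_
  have h3 : Vt κ₁ κ₂ (fun y => h y + h' y) ξ = Vt κ₁ κ₂ h ξ + Vt κ₁ κ₂ h' ξ := by
    unfold Vt
    rw [← integral_add (Vt_integrable h1 h2 hh ξ).integrableOn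
      (Vt_integrable h1 h2 hh' ξ).integrableOn]
    refine setIntegral_congr_fun measQ fun y _ => ?_
    beta_reduce
    ring
  rw [h3]
  ring

theorem wt_pos {k m : ℕ} {z : ℝ × ℝ} (hz : z ∈ Q) : 0 < wt k m z :=
  mul_pos (Real.rpow_pos_of_pos hz.1 _) (Real.rpow_pos_of_pos hz.2 _)

theorem wt_meas (k m : ℕ) : Measurable (wt k m) := by
  unfold wt
  fun_prop

theorem good_wt {k m : ℕ} (hk : 1 ≤ k) (hm : 1 ≤ m) {g : ℝ × ℝ → ℂ} (hg : Good g) :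
    Good (fun y => ((wt k m y : ℝ) : ℂ) * g y) := by
  obtain ⟨B, hB⟩ := hg.2.2
  have hk' : (0 : ℝ) ≤ ((k : ℝ) - 1) / 2 := by
    have : (1 : ℝ) ≤ k := by exact_mod_cast hk
    linarith
  have hm' : (0 : ℝ) ≤ ((m : ℝ) - 1) / 2 := by
    have : (1 : ℝ) ≤ m := by exact_mod_cast hm
    linarith
  refine good_mul (M := |B| ^ (((k : ℝ) - 1) / 2) * |B| ^ (((m : ℝ) - 1) / 2))
    (Complex.measurable_ofReal.comp (wt_meas k m)) ?_ hg
  intro z hz
  obtain ⟨h1, h2⟩ := hB z hz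
  rw [Complex.norm_real, Real.norm_eq_abs]
  unfold wt
  rw [abs_mul]
  refine mul_le_mul ?_ ?_ (abs_nonneg _) (by positivity)
  · exact (Real.abs_rpow_le_abs_rpow _ _).trans
      (Real.rpow_le_rpow (abs_nonneg _) (h1.trans (le_abs_self _)) hk')
  · exact (Real.abs_rpow_le_abs_rpow _ _).trans
      (Real.rpow_le_rpow (abs_nonneg _) (h2.trans (le_abs_self _)) hm')

theorem psi_bdd {ψ : ℝ → ℝ} (hψ : Bump ψ) : ∃ M : ℝ, 0 < M ∧ ∀ x, |ψ x| ≤ M := by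
  obtain ⟨M, hM⟩ := (isCompact_Icc (a := (1 / 2 : ℝ)) (b := 2)).exists_bound_of_continuousOn
    hψ.1.continuous.continuousOn
  refine ⟨|M| + 1, by positivity, fun x => ?_⟩
  by_cases hx : ψ x = 0
  · rw [hx, abs_zero]; positivity
  · have h := hM x (hψ.2 x hx)
    rw [Real.norm_eq_abs] at h
    linarith [le_abs_self M]

theorem mR_good {ψ : ℝ → ℝ} (hψ : Bump ψ) {L : ℝ} : Good (mR ψ L) := by
  obtain ⟨M, hM0, hM⟩ := psi_bdd hψ
  refine ⟨?_, ⟨M, fun z => ?_⟩, 1, fun z hz => ?_⟩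
  · unfold mR
    exact Complex.measurable_ofReal.comp (hψ.1.continuous.measurable.comp (by fun_prop))
  · unfold mR
    rw [Complex.norm_real, Real.norm_eq_abs]
    exact hM _
  · have h1 : ψ (L ^ 2 * (1 - (z.1 ^ 2 + z.2 ^ 2))) ≠ 0 := by
      intro h
      apply hz
      unfold mR
      rw [h, Complex.ofReal_zero]
    have h2 := (hψ.2 _ h1).1
    have h3 : 0 < 1 - (z.1 ^ 2 + z.2 ^ 2) := by
      by_contra hcon
      push Not at hcon
      nlinarith [sq_nonneg L]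
    constructor
    · rw [abs_le_one_iff_mul_self_le_one]
      nlinarith [sq_nonneg z.2]
    · rw [abs_le_one_iff_mul_self_le_one]
      nlinarith [sq_nonneg z.1]

theorem At_enorm {k m : ℕ} (κ₂ : ℝ → ℂ) (M g : ℝ × ℝ → ℂ) {p : ℝ} (hp : 0 ≤ p) {z : ℝ × ℝ}
    (hz : z ∈ Q) : ‖At k m κ₂ M g z‖ₑ ^ p * ENNReal.ofReal (wt k m z ^ 2) =
      ‖A (kap k) κ₂ M (fun y => ((wt k m y : ℝ) : ℂ) * g y) z‖ₑ ^ p *
        ENNReal.ofReal (wt k m z ^ (2 - p)) := by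
  have hw : 0 < wt k m z := wt_pos hz
  unfold At
  rw [enorm_mul, ENNReal.mul_rpow_of_nonneg _ _ hp]
  have h1 : ‖(((wt k m z)⁻¹ : ℝ) : ℂ)‖ₑ = ENNReal.ofReal ((wt k m z)⁻¹) := by
    rw [← ofReal_norm, Complex.norm_real, Real.norm_of_nonneg (inv_nonneg.2 hw.le)]
  rw [h1, ENNReal.ofReal_rpow_of_pos (inv_pos.2 hw), mul_comm (ENNReal.ofReal _) (_ ^ p),
    mul_assoc, ← ENNReal.ofReal_mul (by positivity)]
  congr 2
  rw [Real.inv_rpow hw.le, Real.rpow_sub hw, Real.rpow_two]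
  field_simp

theorem g_enorm {k m : ℕ} (g : ℝ × ℝ → ℂ) {p : ℝ} (hp : 0 ≤ p) {z : ℝ × ℝ}
    (hz : z ∈ Q) : ‖((wt k m z : ℝ) : ℂ) * g z‖ₑ ^ p * ENNReal.ofReal (wt k m z ^ (2 - p)) =
      ‖g z‖ₑ ^ p * ENNReal.ofReal (wt k m z ^ 2) := by
  have hw : 0 < wt k m z := wt_pos hz
  rw [enorm_mul, ENNReal.mul_rpow_of_nonneg _ _ hp]
  have h1 : ‖((wt k m z : ℝ) : ℂ)‖ₑ = ENNReal.ofReal (wt k m z) := by
    rw [← ofReal_norm, Complex.norm_real, Real.norm_of_nonneg hw.le]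
  rw [h1, ENNReal.ofReal_rpow_of_pos hw, mul_comm (ENNReal.ofReal _) (_ ^ p),
    mul_assoc, ← ENNReal.ofReal_mul (by positivity)]
  congr 2
  rw [Real.rpow_sub hw, Real.rpow_two]
  field_simp

theorem adm_kap (k : ℕ) (hk : 1 ≤ k) : Adm (kap k) := by
  rcases Nat.lt_or_ge k 2 with h | h
  · have : k = 1 := by omega
    subst this
    exact adm_kap1
  · exact adm_kap2 k h

theorem lom_kap (k : ℕ) (hk : 1 ≤ k) : Lom (kap k) := by
  rcases Nat.lt_or_ge k 2 with h | h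
  · have : k = 1 := by omega
    subst this
    exact lom_kap1
  · exact lom_kap2 k h

/-- `p = 2` -/
theorem qp_two (k m : ℕ) (hk : 1 ≤ k) (hm : 1 ≤ m) (κ₂ : ℝ → ℂ) (ha : Adm κ₂) (ψ : ℝ → ℝ)
    (hψ : Bump ψ) : ∃ C : ℝ, 0 < C ∧ ∀ L : ℝ, 10 ≤ L → ∀ g : ℝ × ℝ → ℂ, Good g →
      ∫⁻ z in Q, ‖At k m κ₂ (mR ψ L) g z‖ₑ ^ (2 : ℝ) * ENNReal.ofReal (wt k m z ^ 2) ≤
        ENNReal.ofReal C *
          ∫⁻ z in Q, ‖g z‖ₑ ^ (2 : ℝ) * ENNReal.ofReal (wt k m z ^ 2) := by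
  obtain ⟨C, hC, h⟩ := glob2 (kap k) κ₂ (adm_kap k hk) ha
  obtain ⟨M, hM0, hM⟩ := psi_bdd hψ
  refine ⟨C * M ^ 2, by positivity, fun L hL g hg => ?_⟩
  have h1 := h (mR ψ L) (mR_good hψ) M (fun ξ => by
    unfold mR
    rw [Complex.norm_real, Real.norm_eq_abs]
    exact hM _) _ (good_wt (k := k) (m := m) hk hm hg)
  calc _ = ∫⁻ z in Q, ‖A (kap k) κ₂ (mR ψ L) (fun y => ((wt k m y : ℝ) : ℂ) * g y) z‖ₑ ^ 2 := by
        refine setLIntegral_congr_fun measQ fun z hz => ?_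
        rw [At_enorm κ₂ _ g (by norm_num) hz, sub_self, Real.rpow_zero, ENNReal.ofReal_one,
          mul_one, ENNReal.rpow_two]
    _ ≤ _ := h1
    _ = _ := by
        congr 1
        refine setLIntegral_congr_fun measQ fun z hz => ?_
        rw [← g_enorm g (by norm_num) hz, sub_self, Real.rpow_zero, ENNReal.ofReal_one,
          mul_one, ENNReal.rpow_two]

theorem wt_rpow {k m : ℕ} {p : ℝ} {z : ℝ × ℝ} (hz : z ∈ Q) : wt k m z ^ (2 - p) =
    z.1 ^ (-(((k : ℝ) - 1) * (p / 2 - 1))) * z.2 ^ (-(((m : ℝ) - 1) * (p / 2 - 1))) := by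
  have h1 : 0 < z.1 := hz.1
  have h2 : 0 < z.2 := hz.2
  unfold wt
  rw [Real.mul_rpow (by positivity) (by positivity), ← Real.rpow_mul h1.le,
    ← Real.rpow_mul h2.le]
  congr 2 <;> ring

/-- below the critical exponent -/
theorem qp_crit (k m : ℕ) (hk : 1 ≤ k) (hm : 1 ≤ m) (hkm : 3 ≤ k + m) (κ₂ : ℝ → ℂ)
    (ha : Adm κ₂) (hl : Lom κ₂) (ψ : ℝ → ℝ) (hψ : Bump ψ) (p ε : ℝ) (hp : 2 < p)
    (hp2 : p * (((k + m : ℕ) : ℝ) - 1) < 2 * ((k + m : ℕ) : ℝ)) (hε : 0 < ε) :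
    ∃ C : ℝ, 0 < C ∧ ∀ L : ℝ, 10 ≤ L → ∀ g : ℝ × ℝ → ℂ, Good g →
      ∫⁻ z in Q, ‖At k m κ₂ (mR ψ L) g z‖ₑ ^ p * ENNReal.ofReal (wt k m z ^ 2) ≤
        ENNReal.ofReal (C * L ^ ε) *
          ∫⁻ z in Q, ‖g z‖ₑ ^ p * ENNReal.ofReal (wt k m z ^ 2) := by
  have hk1 : (1 : ℝ) ≤ k := by exact_mod_cast hk
  have hm1 : (1 : ℝ) ≤ m := by exact_mod_cast hm
  have hkm3 : (3 : ℝ) ≤ ((k + m : ℕ) : ℝ) := by exact_mod_cast hkm
  have hcast : ((k + m : ℕ) : ℝ) = k + m := by push_cast; ring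
  have hp4 : p < 4 := by
    by_contra hcon
    push Not at hcon
    nlinarith
  obtain ⟨C, hC, h⟩ := weighted (kap k) κ₂ (adm_kap k hk) ha (lom_kap k hk) hl ψ hψ p
    (((k : ℝ) - 1) * (p / 2 - 1)) (((m : ℝ) - 1) * (p / 2 - 1)) ε hp hp4
    (mul_nonneg (by linarith) (by linarith)) (mul_nonneg (by linarith) (by linarith)) (by
      rw [hcast] at hp2
      nlinarith) hε
  refine ⟨C, hC, fun L hL g hg => ?_⟩
  have h1 := h L hL _ (good_wt (k := k) (m := m) hk hm hg)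
  calc _ = ∫⁻ z in Q, ‖A (kap k) κ₂ (mR ψ L) (fun y => ((wt k m y : ℝ) : ℂ) * g y) z‖ₑ ^ p *
        ENNReal.ofReal (z.1 ^ (-(((k : ℝ) - 1) * (p / 2 - 1))) *
          z.2 ^ (-(((m : ℝ) - 1) * (p / 2 - 1)))) := by
        refine setLIntegral_congr_fun measQ fun z hz => ?_
        rw [At_enorm κ₂ _ g (by linarith) hz, wt_rpow hz]
    _ ≤ _ := h1
    _ = _ := by
        congr 1
        refine setLIntegral_congr_fun measQ fun z hz => ?_
        rw [← g_enorm g (by linarith) hz, wt_rpow hz]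

theorem const_pow {C0 p L s : ℝ} (hC0 : 0 < C0) (hp : 0 < p) (hL : 0 < L) :
    (C0 ^ (1 / p) * L ^ s) ^ p = C0 * L ^ (p * s) := by
  rw [Real.mul_rpow (by positivity) (by positivity), ← Real.rpow_mul hC0.le,
    ← Real.rpow_mul hL.le, one_div_mul_cancel hp.ne', Real.rpow_one, mul_comm s p]

/-- the weighted measure on the quarter plane -/
noncomputable def mu (k m : ℕ) : Measure (ℝ × ℝ) :=
  (volume.restrict Q).withDensity (fun z => ENNReal.ofReal (wt k m z ^ 2))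

instance (k m : ℕ) : SFinite (mu k m) := by
  unfold mu
  infer_instance

theorem lint_mu (k m : ℕ) {φ : ℝ × ℝ → ℝ≥0∞} (hφ : Measurable φ) :
    ∫⁻ z, φ z ∂(mu k m) = ∫⁻ z in Q, φ z * ENNReal.ofReal (wt k m z ^ 2) := by
  unfold mu
  rw [lintegral_withDensity_eq_lintegral_mul _ (by
    exact ENNReal.measurable_ofReal.comp ((wt_meas k m).pow_const 2)) hφ]
  refine lintegral_congr fun z => ?_
  rw [Pi.mul_apply, mul_comm]

theorem pow_meas {f : ℝ × ℝ → ℝ} (hf : Measurable f) (q : ℝ) :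
    Measurable (fun z => ENNReal.ofReal (f z) ^ q) :=
  (ENNReal.measurable_ofReal.comp hf).pow_const q

/-- the norm of the profile operator on the quarter plane -/
noncomputable def AtN (k m : ℕ) (κ₂ : ℝ → ℂ) (M g : ℝ × ℝ → ℂ) (z : ℝ × ℝ) : ℝ :=
  Q.indicator (fun z => ‖At k m κ₂ M g z‖) z

theorem AtN_nonneg (k m : ℕ) (κ₂ : ℝ → ℂ) (M g : ℝ × ℝ → ℂ) (z : ℝ × ℝ) :
    0 ≤ AtN k m κ₂ M g z := Set.indicator_nonneg (fun _ _ => norm_nonneg _) _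

theorem AtN_meas {k m : ℕ} (hk : 1 ≤ k) (hm : 1 ≤ m) {κ₂ : ℝ → ℂ} (ha : Adm κ₂)
    {M g : ℝ × ℝ → ℂ} (hM : Good M) (hg : Good g) : Measurable (AtN k m κ₂ M g) := by
  have h1 : AtN k m κ₂ M g = Q.indicator (fun z => ‖(((wt k m z)⁻¹ : ℝ) : ℂ) *
      AA (kap k) κ₂ M (fun y => ((wt k m y : ℝ) : ℂ) * g y) z‖) := by
    funext z
    by_cases hz : z ∈ Q
    · unfold AtN At
      rw [Set.indicator_of_mem hz, Set.indicator_of_mem hz, A_eq _ _ _ _ hz]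
    · unfold AtN
      rw [Set.indicator_of_notMem hz, Set.indicator_of_notMem hz]
  rw [h1]
  refine Measurable.indicator ?_ measQ
  exact ((Complex.measurable_ofReal.comp (wt_meas k m).inv).mul
    (AA_meas (adm_kap k hk) ha hM (good_wt hk hm hg))).norm

theorem AtN_rpow (k m : ℕ) (κ₂ : ℝ → ℂ) (M g : ℝ × ℝ → ℂ) {z : ℝ × ℝ} (hz : z ∈ Q) :
    ENNReal.ofReal (AtN k m κ₂ M g z) = ‖At k m κ₂ M g z‖ₑ := by
  unfold AtN
  rw [Set.indicator_of_mem hz, ofReal_norm]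

theorem AtN_int {k m : ℕ} (hk : 1 ≤ k) (hm : 1 ≤ m) {κ₂ : ℝ → ℂ} (ha : Adm κ₂)
    {M g : ℝ × ℝ → ℂ} (hM : Good M) (hg : Good g) (q : ℝ) :
    ∫⁻ z, ENNReal.ofReal (AtN k m κ₂ M g z) ^ q ∂(mu k m) =
      ∫⁻ z in Q, ‖At k m κ₂ M g z‖ₑ ^ q * ENNReal.ofReal (wt k m z ^ 2) := by
  rw [lint_mu k m (pow_meas (AtN_meas hk hm ha hM hg) q)]
  refine setLIntegral_congr_fun measQ fun z hz => ?_
  rw [AtN_rpow _ _ _ _ _ hz]

theorem AtN_add {k m : ℕ} (hk : 1 ≤ k) (hm : 1 ≤ m) {κ₂ : ℝ → ℂ} (ha : Adm κ₂)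
    {M g g1 g2 : ℝ × ℝ → ℂ} (hM : Good M) (hg1 : Good g1) (hg2 : Good g2)
    (h : ∀ z, g z = g1 z + g2 z) (z : ℝ × ℝ) :
    AtN k m κ₂ M g z ≤ AtN k m κ₂ M g1 z + AtN k m κ₂ M g2 z := by
  by_cases hz : z ∈ Q
  · unfold AtN
    rw [Set.indicator_of_mem hz, Set.indicator_of_mem hz, Set.indicator_of_mem hz]
    have h1 : At k m κ₂ M g z = At k m κ₂ M g1 z + At k m κ₂ M g2 z := by
      unfold At
      have h2 : (fun y => ((wt k m y : ℝ) : ℂ) * g y) =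
          (fun y => ((wt k m y : ℝ) : ℂ) * g1 y + ((wt k m y : ℝ) : ℂ) * g2 y) := by
        funext y
        rw [h y]
        ring
      rw [h2, A_add (adm_kap k hk) ha hM (good_wt hk hm hg1) (good_wt hk hm hg2) hz]
      ring
    rw [h1]
    exact norm_add_le _ _
  · unfold AtN
    rw [Set.indicator_of_notMem hz, Set.indicator_of_notMem hz, Set.indicator_of_notMem hz,
      add_zero]

/-- choice of the exponent below the critical one -/
theorem exists_eta {N p s : ℝ} (hN : 3 ≤ N) (hp : 2 < p) (hs : 0 < s)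
    (hs2 : N - 1 - 2 * N / p < s) : ∃ η p0 : ℝ, 0 < η ∧ 2 < p0 ∧ p0 < p ∧
      p0 * (N - 1) < 2 * N ∧ η + (N - 1 + η) * (p - p0) ≤ p * s := by
  have hN1 : 0 < N - 1 := by linarith
  set p1 := min p (2 * N / (N - 1)) with hp1
  have h1 : 2 < p1 := by
    rw [hp1, lt_min_iff]
    refine ⟨hp, ?_⟩
    rw [lt_div_iff₀ hN1]
    linarith
  have h2 : (N - 1) * (p - p1) < p * s := by
    rcases min_choice p (2 * N / (N - 1)) with h | h
    · rw [hp1, h, sub_self, mul_zero]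
      positivity
    · rw [hp1, h, mul_sub, mul_div_cancel₀ _ hN1.ne']
      have h3 : p * (2 * N / p) = 2 * N := by field_simp
      nlinarith
  have ht : Tendsto (fun η : ℝ => η + (N - 1 + η) * (p - p1 + η)) (𝓝[>] 0)
      (𝓝 ((N - 1) * (p - p1))) := by
    have hc : Continuous (fun η : ℝ => η + (N - 1 + η) * (p - p1 + η)) := by fun_prop
    have := hc.tendsto 0
    simp only [add_zero, zero_add] at this
    exact this.mono_left nhdsWithin_le_nhds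
  have e1 : ∀ᶠ η : ℝ in 𝓝[>] 0, η + (N - 1 + η) * (p - p1 + η) < p * s :=
    ht.eventually_lt_const h2
  have e2 : ∀ᶠ η : ℝ in 𝓝[>] 0, η ∈ Ioo (0 : ℝ) (p1 - 2) := by
    exact Ioo_mem_nhdsGT (by linarith)
  obtain ⟨η, hη1, hη2⟩ := (e1.and e2).exists
  refine ⟨η, p1 - η, hη2.1, by linarith [hη2.2], ?_, ?_, ?_⟩
  · have := min_le_left p (2 * N / (N - 1))
    rw [← hp1] at this
    linarith [hη2.1]
  · have := min_le_right p (2 * N / (N - 1))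
    rw [← hp1, le_div_iff₀ hN1] at this
    nlinarith [hη2.1]
  · have : p - (p1 - η) = p - p1 + η := by ring
    rw [this]
    exact hη1.le

end R5aux

open R5aux in
/-- R5: the profile operator for `p ≥ 2` -/
theorem qp_big' (k m : ℕ) (hk : 1 ≤ k) (hm : 1 ≤ m) (hkm : 3 ≤ k + m) (ω : E (k + m) → ℂ)
    (κ₂ : ℝ → ℂ) (hL : Lk k m ω κ₂) (ψ : ℝ → ℝ) (hψ : Bump ψ) (p s : ℝ) (hp : 2 ≤ p)
    (hs : 0 < s) (hs2 : ((k + m : ℕ) : ℝ) - 1 - 2 * ((k + m : ℕ) : ℝ) / p < s) :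
    ∃ C : ℝ, 0 < C ∧ ∀ L : ℝ, 10 ≤ L → ∀ g : ℝ × ℝ → ℂ, Good g →
      ∫⁻ z in Q, ‖At k m κ₂ (mR ψ L) g z‖ₑ ^ p * ENNReal.ofReal (wt k m z ^ 2) ≤
        ENNReal.ofReal ((C * L ^ s) ^ p) *
          ∫⁻ z in Q, ‖g z‖ₑ ^ p * ENNReal.ofReal (wt k m z ^ 2) := by
  have ha : Adm κ₂ := hL.2.2.2.1
  have hl : Lom κ₂ := hL.2.2.2.2.1
  rcases hp.eq_or_lt with hp2 | hp2
  · subst hp2
    obtain ⟨C, hC, h⟩ := qp_two k m hk hm κ₂ ha ψ hψ
    refine ⟨C ^ (1 / (2 : ℝ)), by positivity, fun L hL10 g hg => ?_⟩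
    refine (h L hL10 g hg).trans ?_
    gcongr
    rw [const_pow hC (by norm_num) (by linarith)]
    have : 1 ≤ L ^ (2 * s) := Real.one_le_rpow (by linarith) (by positivity)
    nlinarith
  set N : ℝ := ((k + m : ℕ) : ℝ) with hN
  have hN3 : 3 ≤ N := by rw [hN]; exact_mod_cast hkm
  obtain ⟨η, p0, hη, hp0, hp0p, hp0N, hexp⟩ := exists_eta hN3 hp2 hs hs2
  obtain ⟨C1, hC1, h1⟩ := qp_crit k m hk hm hkm κ₂ ha hl ψ hψ p0 η hp0 hp0N hη
  obtain ⟨C2, hC2, h2⟩ := At_sup k m hk hm ω κ₂ hL ψ hψ η hη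
  obtain ⟨C3, hC3, h3⟩ := marcInf p0 p (by linarith) hp0p
  refine ⟨(C3 * C1 * C2 ^ (p - p0)) ^ (1 / p), by positivity, fun L hL10 g hg => ?_⟩
  have hL0 : 0 < L := by linarith
  have hM : Good (mR ψ L) := mR_good ψ hψ L (by linarith)
  have hmain := h3 (mu k m) (mu k m) (AtN k m κ₂ (mR ψ L) g) (fun z => ‖g z‖)
    (AtN_meas hk hm ha hM hg) hg.1.norm (AtN_nonneg _ _ _ _ _) (fun z => norm_nonneg _)
    (C1 * L ^ η) (C2 * L ^ (N - 1 + η)) (by positivity) (by positivity) ?_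
  swap
  · intro t ht
    have hs1 : MeasurableSet {z | t < ‖g z‖} := measurableSet_lt measurable_const hg.1.norm
    have hs2 : MeasurableSet {z | ‖g z‖ ≤ t} := measurableSet_le hg.1.norm measurable_const
    have hg1 : Good ({z | t < ‖g z‖}.indicator g) := good_indicator hg hs1
    have hg2 : Good ({z | ‖g z‖ ≤ t}.indicator g) := good_indicator hg hs2
    refine ⟨fun z => ENNReal.ofReal (AtN k m κ₂ (mR ψ L) ({z | t < ‖g z‖}.indicator g) z),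
      fun z => ENNReal.ofReal (AtN k m κ₂ (mR ψ L) ({z | ‖g z‖ ≤ t}.indicator g) z),
      ENNReal.measurable_ofReal.comp (AtN_meas hk hm ha hM hg1),
      ENNReal.measurable_ofReal.comp (AtN_meas hk hm ha hM hg2), ?_, ?_, ?_⟩
    · refine Filter.Eventually.of_forall fun z => ?_
      rw [← ENNReal.ofReal_add (AtN_nonneg _ _ _ _ _ _) (AtN_nonneg _ _ _ _ _ _)]
      refine ENNReal.ofReal_le_ofReal (AtN_add hk hm ha hM hg1 hg2 ?_ z)
      intro y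
      by_cases hy : t < ‖g y‖
      · rw [Set.indicator_of_mem (by exact hy), Set.indicator_of_notMem (by
          simp only [Set.mem_ofPred_eq, not_le]; exact hy), add_zero]
      · rw [Set.indicator_of_notMem (by exact hy), Set.indicator_of_mem (by
          simp only [Set.mem_ofPred_eq]; exact not_lt.1 hy), zero_add]
    · rw [AtN_int hk hm ha hM hg1]
      refine (h1 L hL10 _ hg1).trans (le_of_eq ?_)
      congr 1
      rw [← lintegral_indicator hs1, lint_mu k m (Measurable.indicator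
        (pow_meas hg.1.norm p0) hs1)]
      refine lintegral_congr fun z => ?_
      congr 1
      by_cases hz : z ∈ {z | t < ‖g z‖}
      · rw [Set.indicator_of_mem hz, Set.indicator_of_mem hz, ofReal_norm]
      · rw [Set.indicator_of_notMem hz, Set.indicator_of_notMem hz, enorm_zero,
          ENNReal.zero_rpow_of_pos (by linarith)]
    · refine Filter.Eventually.of_forall fun z => ?_
      refine ENNReal.ofReal_le_ofReal ?_
      by_cases hz : z ∈ Q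
      · unfold AtN
        rw [Set.indicator_of_mem hz]
        refine h2 L (by linarith) _ hg2 t ?_ z hz
        intro y
        by_cases hy : y ∈ {z | ‖g z‖ ≤ t}
        · rw [Set.indicator_of_mem hy]
          exact hy
        · rw [Set.indicator_of_notMem hy, norm_zero]
          exact ht.le
      · unfold AtN
        rw [Set.indicator_of_notMem hz]
        positivity
  rw [AtN_int hk hm ha hM hg, lint_mu k m
    (pow_meas hg.1.norm p)] at hmain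
  refine hmain.trans ?_
  refine mul_le_mul' (ENNReal.ofReal_le_ofReal ?_) (le_of_eq ?_)
  · rw [const_pow (by positivity) (by linarith) hL0, Real.mul_rpow (by positivity) (by positivity),
      ← Real.rpow_mul hL0.le]
    have e1 : C3 * (C1 * L ^ η) * (C2 ^ (p - p0) * L ^ ((N - 1 + η) * (p - p0))) =
        C3 * C1 * C2 ^ (p - p0) * L ^ (η + (N - 1 + η) * (p - p0)) := by
      rw [Real.rpow_add hL0]
      ring
    rw [e1]
    refine mul_le_mul_of_nonneg_left ?_ (by positivity)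
    exact Real.rpow_le_rpow_of_exponent_le (by linarith) hexp
  · refine lintegral_congr fun z => ?_
    rw [ofReal_norm]

end Pool.Agent.H438R2.RZ
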