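import Mathlib
import Pool.Agent.H438R2.RZ.Defs
import Pool.Agent.H438R2.RZ.B0
set_option autoImplicit false

/-! # R6: duality -/

namespace Pool.Agent.H438R2.RZ

open MeasureTheory Set Complex Filter
open scoped ENNReal RealInnerProductSpace Topology

namespace R6aux

lemma meas_Q : MeasurableSet Q := measurableSet_Ioi.prod measurableSet_Ioi

lemma meas_ind {κ : ℝ → ℂ} (h : Adm κ) : Measurable ((Ioi (0 : ℝ)).indicator κ) := by
  classical
  rw [← piecewise_eq_indicator]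
  exact (adm_cont h).measurable_piecewise continuousOn_const measurableSet_Ioi

lemma meas_V (κ₁ κ₂ : ℝ → ℂ) (h1 : Adm κ₁) (h2 : Adm κ₂) (h : ℝ × ℝ → ℂ) (hh : Good h) :
    Measurable (Q.indicator (V κ₁ κ₂ h)) := by
  classical
  rw [← piecewise_eq_indicator]
  exact (V_cont κ₁ κ₂ h1 h2 h hh).measurable_piecewise continuousOn_const meas_Q

lemma core (κ₁ κ₂ : ℝ → ℂ) (h1 : Adm κ₁) (h2 : Adm κ₂) (m : ℝ × ℝ → ℂ) (hm : Good m)
    (h h' : ℝ × ℝ → ℂ) (hh : Good h) (hh' : Good h') :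
    ∫ z in Q, A κ₁ κ₂ m h z * h' z = ∫ ξ in Q, m ξ * V κ₁ κ₂ h ξ * V κ₁ κ₂ h' ξ := by
  obtain ⟨B1, hB1, hb1⟩ := adm_bdd h1
  obtain ⟨B2, hB2, hb2⟩ := adm_bdd h2
  obtain ⟨C, hC, hV⟩ := V_bdd κ₁ κ₂ h1 h2
  have hint : Integrable (fun x : (ℝ × ℝ) × (ℝ × ℝ) =>
      κ₁ (x.1.1 * x.2.1) * κ₂ (x.1.2 * x.2.2) * m x.2 * V κ₁ κ₂ h x.2 * h' x.1)
      ((volume.restrict Q).prod (volume.restrict Q)) := by
    have hdom : Integrable (fun x : (ℝ × ℝ) × (ℝ × ℝ) => h' x.1 * m x.2)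
        ((volume.restrict Q).prod (volume.restrict Q)) :=
      Integrable.mul_prod (good_int hh').integrableOn (good_int hm).integrableOn
    refine Integrable.mono (g := fun x : (ℝ × ℝ) × (ℝ × ℝ) =>
      ((B1 * B2 * (C * ∫ z in Q, ‖h z‖) : ℝ) : ℂ) * (h' x.1 * m x.2)) (hdom.const_mul _) ?_ ?_
    · have hmeas : Measurable (fun x : (ℝ × ℝ) × (ℝ × ℝ) =>
          (Ioi (0 : ℝ)).indicator κ₁ (x.1.1 * x.2.1) * (Ioi (0 : ℝ)).indicator κ₂ (x.1.2 * x.2.2) *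
            m x.2 * Q.indicator (V κ₁ κ₂ h) x.2 * h' x.1) := by
        have a1 := (meas_ind h1).comp (f := fun x : (ℝ × ℝ) × (ℝ × ℝ) => x.1.1 * x.2.1)
          (by fun_prop)
        have a2 := (meas_ind h2).comp (f := fun x : (ℝ × ℝ) × (ℝ × ℝ) => x.1.2 * x.2.2)
          (by fun_prop)
        have a3 := hm.1.comp (measurable_snd : Measurable (Prod.snd : (ℝ × ℝ) × (ℝ × ℝ) → ℝ × ℝ))
        have a4 := (meas_V κ₁ κ₂ h1 h2 h hh).comp
          (measurable_snd : Measurable (Prod.snd : (ℝ × ℝ) × (ℝ × ℝ) → ℝ × ℝ))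
        have a5 := hh'.1.comp (measurable_fst : Measurable (Prod.fst : (ℝ × ℝ) × (ℝ × ℝ) → ℝ × ℝ))
        exact (((a1.mul a2).mul a3).mul a4).mul a5
      refine hmeas.aestronglyMeasurable.congr ?_
      rw [Measure.prod_restrict]
      refine ae_restrict_of_forall_mem (meas_Q.prod meas_Q) ?_
      rintro ⟨z, ξ⟩ ⟨hz, hξ⟩
      simp only [Q, mem_prod, mem_Ioi] at hz hξ
      have p1 : z.1 * ξ.1 ∈ Ioi (0 : ℝ) := mul_pos hz.1 hξ.1
      have p2 : z.2 * ξ.2 ∈ Ioi (0 : ℝ) := mul_pos hz.2 hξ.2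
      have p3 : ξ ∈ Q := by simp only [Q, mem_prod, mem_Ioi]; exact hξ
      simp only [indicator_of_mem p1, indicator_of_mem p2, indicator_of_mem p3]
    · rw [Measure.prod_restrict]
      refine ae_restrict_of_forall_mem (meas_Q.prod meas_Q) ?_
      rintro ⟨z, ξ⟩ ⟨hz, hξ⟩
      simp only [Q, mem_prod, mem_Ioi] at hz hξ
      have p1 : 0 < z.1 * ξ.1 := mul_pos hz.1 hξ.1
      have p2 : 0 < z.2 * ξ.2 := mul_pos hz.2 hξ.2
      have p3 : ξ ∈ Q := by simp only [Q, mem_prod, mem_Ioi]; exact hξ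
      have q1 := hb1 _ p1
      have q2 := hb2 _ p2
      have q3 := hV h hh ξ p3
      have hI : 0 ≤ ∫ z in Q, ‖h z‖ := integral_nonneg fun z => norm_nonneg _
      simp only [norm_mul, Complex.norm_real, Real.norm_eq_abs]
      rw [abs_of_nonneg hB1, abs_of_nonneg hB2, abs_of_nonneg hC, abs_of_nonneg hI]
      calc ‖κ₁ (z.1 * ξ.1)‖ * ‖κ₂ (z.2 * ξ.2)‖ * ‖m ξ‖ * ‖V κ₁ κ₂ h ξ‖ * ‖h' z‖
          = (‖κ₁ (z.1 * ξ.1)‖ * ‖κ₂ (z.2 * ξ.2)‖ * ‖V κ₁ κ₂ h ξ‖) * (‖h' z‖ * ‖m ξ‖) := by ring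
        _ ≤ (B1 * B2 * (C * ∫ z in Q, ‖h z‖)) * (‖h' z‖ * ‖m ξ‖) := by gcongr
  calc ∫ z in Q, A κ₁ κ₂ m h z * h' z
      = ∫ z in Q, ∫ ξ in Q, κ₁ (z.1 * ξ.1) * κ₂ (z.2 * ξ.2) * m ξ * V κ₁ κ₂ h ξ * h' z := by
        refine integral_congr_ae (ae_of_all _ fun z => ?_)
        simp only [A]
        rw [integral_mul_const]
    _ = ∫ ξ in Q, ∫ z in Q, κ₁ (z.1 * ξ.1) * κ₂ (z.2 * ξ.2) * m ξ * V κ₁ κ₂ h ξ * h' z :=
        integral_integral_swap hint
    _ = ∫ ξ in Q, m ξ * V κ₁ κ₂ h ξ * V κ₁ κ₂ h' ξ := by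
        refine integral_congr_ae (ae_of_all _ fun ξ => ?_)
        simp only
        have e1 : V κ₁ κ₂ h' ξ = ∫ z in Q, κ₁ (ξ.1 * z.1) * κ₂ (ξ.2 * z.2) * h' z := rfl
        rw [e1, ← integral_const_mul (m ξ * V κ₁ κ₂ h ξ)]
        refine integral_congr_ae (ae_of_all _ fun z => ?_)
        simp only
        rw [mul_comm z.1, mul_comm z.2]
        ring

end R6aux

theorem A_symm (κ₁ κ₂ : ℝ → ℂ) (h1 : Adm κ₁) (h2 : Adm κ₂) (m : ℝ × ℝ → ℂ) (hm : Good m)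
    (h h' : ℝ × ℝ → ℂ) (hh : Good h) (hh' : Good h') :
    ∫ z in Q, A κ₁ κ₂ m h z * h' z = ∫ z in Q, h z * A κ₁ κ₂ m h' z := by
  rw [R6aux.core κ₁ κ₂ h1 h2 m hm h h' hh hh']
  have e1 := R6aux.core κ₁ κ₂ h1 h2 m hm h' h hh' hh
  have e2 : ∫ z in Q, h z * A κ₁ κ₂ m h' z = ∫ z in Q, A κ₁ κ₂ m h' z * h z := by
    refine integral_congr_ae (ae_of_all _ fun z => ?_)
    simp only
    rw [mul_comm]
  rw [e2, e1]
  refine integral_congr_ae (ae_of_all _ fun z => ?_)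
  simp only
  ring

namespace R6aux

lemma enorm_real (x : ℝ) : ‖(x : ℂ)‖ₑ = ‖x‖ₑ := by
  rw [← ofReal_norm, ← ofReal_norm, Complex.norm_real]

lemma wt_pos (k m : ℕ) {z : ℝ × ℝ} (hz : z ∈ Q) : 0 < wt k m z := by
  unfold wt
  exact mul_pos (Real.rpow_pos_of_pos hz.1 _) (Real.rpow_pos_of_pos hz.2 _)

lemma A_eq (k m : ℕ) (κ₂ : ℝ → ℂ) (M g : ℝ × ℝ → ℂ) {z : ℝ × ℝ} (hz : z ∈ Q) :
    A (kap k) κ₂ M (fun y => ((wt k m y : ℝ) : ℂ) * g y) z =
      ((wt k m z : ℝ) : ℂ) * At k m κ₂ M g z := by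
  have h0 : (wt k m z : ℂ) ≠ 0 := by
    exact_mod_cast (wt_pos k m hz).ne'
  simp only [At, ofReal_inv]
  rw [mul_inv_cancel_left₀ h0]

lemma duality (k m : ℕ) (hk : 1 ≤ k) (hm : 1 ≤ m) (κ₂ : ℝ → ℂ) (M : ℝ × ℝ → ℂ)
    (h1 : Adm (kap k)) (h2 : Adm κ₂) (hM : Good M) (p q N : ℝ) (hp : 1 < p)
    (hpq : p.HolderConjugate q) (hN : 0 ≤ N)
    (hb : ∀ g : ℝ × ℝ → ℂ, Good g →
      ∫⁻ z in Q, ‖At k m κ₂ M g z‖ₑ ^ q * ENNReal.ofReal (wt k m z ^ 2) ≤
        ENNReal.ofReal (N ^ q) * ∫⁻ z in Q, ‖g z‖ₑ ^ q * ENNReal.ofReal (wt k m z ^ 2))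
    (g : ℝ × ℝ → ℂ) (hg : Good g) :
    ∫⁻ z in Q, ‖At k m κ₂ M g z‖ₑ ^ p * ENNReal.ofReal (wt k m z ^ 2) ≤
        ENNReal.ofReal (N ^ p) * ∫⁻ z in Q, ‖g z‖ₑ ^ p * ENNReal.ofReal (wt k m z ^ 2) := by
  have hp0 : 0 < p := by linarith
  have hq0 : 0 < q := hpq.symm.pos
  set T : ℝ × ℝ → ℂ := At k m κ₂ M g with hT
  have hTm : Measurable (Q.indicator T) := At_meas k m hk hm κ₂ h1 h2 M g hM hg
  set S : ℕ → Set (ℝ × ℝ) := fun n =>
    Q ∩ {z | z.1 ≤ n ∧ z.2 ≤ n ∧ ‖Q.indicator T z‖ ≤ n} with hS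
  have hSm : ∀ n, MeasurableSet (S n) := by
    intro n
    refine meas_Q.inter ?_
    have e1 : MeasurableSet {z : ℝ × ℝ | z.1 ≤ n} := measurableSet_le measurable_fst measurable_const
    have e2 : MeasurableSet {z : ℝ × ℝ | z.2 ≤ n} := measurableSet_le measurable_snd measurable_const
    have e3 : MeasurableSet {z : ℝ × ℝ | ‖Q.indicator T z‖ ≤ n} :=
      measurableSet_le hTm.norm measurable_const
    exact e1.inter (e2.inter e3)
  have hSQ : ∀ n, S n ⊆ Q := fun n => inter_subset_left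
  have hSd : Directed (· ⊆ ·) S := by
    apply Monotone.directed_le
    intro a b hab z hz
    have hab' : (a : ℝ) ≤ b := by exact_mod_cast hab
    exact ⟨hz.1, hz.2.1.trans hab', hz.2.2.1.trans hab', hz.2.2.2.trans hab'⟩
  have hSU : Q = ⋃ n, S n := by
    apply Subset.antisymm
    · intro z hz
      obtain ⟨n, hn⟩ := exists_nat_ge (max z.1 (max z.2 ‖Q.indicator T z‖))
      refine mem_iUnion.2 ⟨n, hz, ?_, ?_, ?_⟩
      · exact (le_max_left _ _).trans hn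
      · exact ((le_max_left _ _).trans (le_max_right _ _)).trans hn
      · exact ((le_max_right _ _).trans (le_max_right _ _)).trans hn
    · exact iUnion_subset hSQ
  have hstep : ∀ n, ∫⁻ z in S n, ‖T z‖ₑ ^ p * ENNReal.ofReal (wt k m z ^ 2) ≤
      ENNReal.ofReal (N ^ p) * ∫⁻ z in Q, ‖g z‖ₑ ^ p * ENNReal.ofReal (wt k m z ^ 2) := by
    intro n
    set G := ∫⁻ z in Q, ‖g z‖ₑ ^ p * ENNReal.ofReal (wt k m z ^ 2) with hG
    set J := ∫⁻ z in S n, ‖T z‖ₑ ^ p * ENNReal.ofReal (wt k m z ^ 2) with hJ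
    set φ : ℂ → ℂ := fun w => (starRingEnd ℂ) w * ((‖w‖ ^ (p - 2) : ℝ) : ℂ) with hφ
    have hφm : Measurable φ := by
      have : Measurable fun w : ℂ => ‖w‖ ^ (p - 2) := measurable_norm.pow_const _
      exact (Complex.continuous_conj.measurable).mul (Complex.measurable_ofReal.comp this)
    have hφn : ∀ w, ‖φ w‖ = ‖w‖ ^ (p - 1) := by
      intro w
      simp only [hφ, norm_mul, RCLike.norm_conj, Complex.norm_real, Real.norm_eq_abs]
      rw [abs_of_nonneg (Real.rpow_nonneg (norm_nonneg _) _)]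
      rcases eq_or_ne w 0 with h0 | h0
      · rw [h0, norm_zero, zero_mul, Real.zero_rpow (by linarith)]
      · have h3 : 0 < ‖w‖ := norm_pos_iff.2 h0
        calc ‖w‖ * ‖w‖ ^ (p - 2) = ‖w‖ ^ (1 : ℝ) * ‖w‖ ^ (p - 2) := by rw [Real.rpow_one]
          _ = ‖w‖ ^ (p - 1) := by rw [← Real.rpow_add h3]; congr 1; ring
    have hφw : ∀ w, w * φ w = ((‖w‖ ^ p : ℝ) : ℂ) := by
      intro w
      simp only [hφ]
      rw [← mul_assoc, Complex.mul_conj, Complex.normSq_eq_norm_sq, ← Complex.ofReal_mul]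
      congr 1
      rcases eq_or_ne w 0 with h0 | h0
      · rw [h0, norm_zero, Real.zero_rpow hp0.ne']
        ring
      · have h3 : 0 < ‖w‖ := norm_pos_iff.2 h0
        calc ‖w‖ ^ 2 * ‖w‖ ^ (p - 2) = ‖w‖ ^ (2 : ℝ) * ‖w‖ ^ (p - 2) := by
              rw [Real.rpow_two]
          _ = ‖w‖ ^ p := by rw [← Real.rpow_add h3]; congr 1; ring
    set g' : ℝ × ℝ → ℂ := (S n).indicator fun z => φ (Q.indicator T z) with hg'
    have hg'S : ∀ z ∈ S n, g' z = φ (T z) := by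
      intro z hz
      simp only [hg']
      rw [indicator_of_mem hz, indicator_of_mem (hSQ n hz)]
    have hg'0 : ∀ z, z ∉ S n → g' z = 0 := fun z hz => indicator_of_notMem hz _
    have hGood : Good g' := by
      refine ⟨(hφm.comp hTm).indicator (hSm n), ⟨(n : ℝ) ^ (p - 1), fun z => ?_⟩,
        ⟨n, fun z hz => ?_⟩⟩
      · by_cases hz : z ∈ S n
        · rw [hg'S z hz, hφn]
          apply Real.rpow_le_rpow (norm_nonneg _) _ (by linarith)
          have := hz.2.2.2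
          rwa [indicator_of_mem (hSQ n hz)] at this
        · rw [hg'0 z hz, norm_zero]
          positivity
      · have hz' : z ∈ S n := by
          by_contra hc
          exact hz (hg'0 z hc)
        have hzQ := hSQ n hz'
        have q1 : 0 < z.1 := hzQ.1
        have q2 : 0 < z.2 := hzQ.2
        rw [abs_of_pos q1, abs_of_pos q2]
        exact ⟨hz'.2.1, hz'.2.2.1⟩
    set f : ℝ × ℝ → ℂ := fun z => A (kap k) κ₂ M (fun y => ((wt k m y : ℝ) : ℂ) * g y) z *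
      (((wt k m z : ℝ) : ℂ) * g' z) with hf
    have hfQ : ∀ z ∈ Q, f z = (((S n).indicator (fun z => wt k m z ^ 2 * ‖T z‖ ^ p) z : ℝ) : ℂ) := by
      intro z hz
      simp only [hf]
      rw [A_eq k m κ₂ M g hz]
      by_cases hzS : z ∈ S n
      · rw [hg'S z hzS, indicator_of_mem hzS, ← hT]
        have := hφw (T z)
        rw [Complex.ofReal_mul, ← this]
        push_cast
        ring
      · rw [hg'0 z hzS, indicator_of_notMem hzS]
        simp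
    have hfint : Integrable f (volume.restrict Q) := by
      obtain ⟨C, hC0, hC⟩ := A_bdd (kap k) κ₂ h1 h2 M hM
      have i1 : Integrable (fun z => ((wt k m z : ℝ) : ℂ) * g' z) (volume.restrict Q) :=
        (good_int (good_wt k m hk hm hGood)).integrableOn
      refine Integrable.bdd_mul (c := C * ∫ z in Q, ‖((wt k m z : ℝ) : ℂ) * g z‖) i1 ?_ ?_
      · have := (A_meas (kap k) κ₂ h1 h2 M _ hM (good_wt k m hk hm hg)).aestronglyMeasurable
          (μ := volume)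
        exact (aestronglyMeasurable_indicator_iff meas_Q).1 this
      · refine ae_restrict_of_forall_mem meas_Q fun z hz => ?_
        exact hC _ (good_wt k m hk hm hg) z hz
    -- `J` is the integral of `‖f‖`
    have hW : ∀ z : ℝ × ℝ, 0 ≤ wt k m z ^ 2 := fun z => sq_nonneg _
    have hfe : ∀ z ∈ Q, ‖f z‖ₑ = (S n).indicator
        (fun z => ‖T z‖ₑ ^ p * ENNReal.ofReal (wt k m z ^ 2)) z := by
      intro z hz
      rw [hfQ z hz]
      by_cases hzS : z ∈ S n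
      · rw [indicator_of_mem hzS, indicator_of_mem hzS, enorm_real, Real.enorm_eq_ofReal
          (mul_nonneg (hW z) (Real.rpow_nonneg (norm_nonneg _) _)), ENNReal.ofReal_mul (hW z),
          ← ENNReal.ofReal_rpow_of_nonneg (norm_nonneg _) hp0.le, ofReal_norm, mul_comm]
      · rw [indicator_of_notMem hzS, indicator_of_notMem hzS]
        simp
    have hJf : J = ∫⁻ z in Q, ‖f z‖ₑ := by
      rw [setLIntegral_congr_fun meas_Q hfe, lintegral_indicator (hSm n),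
        Measure.restrict_restrict (hSm n), inter_eq_left.2 (hSQ n)]
    have hJtop : J ≠ ∞ := by
      rw [hJf]
      exact hfint.2.ne
    have hJint : J = ‖∫ z in Q, f z‖ₑ := by
      have e1 : ∫ z in Q, f z = ((∫ z in Q, ‖f z‖ : ℝ) : ℂ) := by
        rw [← integral_complex_ofReal]
        refine setIntegral_congr_fun meas_Q fun z hz => ?_
        rw [hfQ z hz]
        have h0 : 0 ≤ (S n).indicator (fun z => wt k m z ^ 2 * ‖T z‖ ^ p) z := by
          apply indicator_nonneg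
          intro z _
          exact mul_nonneg (hW z) (Real.rpow_nonneg (norm_nonneg _) _)
        rw [Complex.norm_real, Real.norm_eq_abs, abs_of_nonneg h0]
      rw [e1, enorm_real, Real.enorm_eq_ofReal (integral_nonneg fun z => norm_nonneg _),
        ofReal_integral_norm_eq_lintegral_enorm hfint, hJf]
    -- duality
    have hJ2 : J ≤ ∫⁻ z in Q, ‖g z‖ₑ * ‖At k m κ₂ M g' z‖ₑ * ENNReal.ofReal (wt k m z ^ 2) := by
      rw [hJint]
      simp only [hf]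
      rw [A_symm (kap k) κ₂ h1 h2 M hM _ (fun z => ((wt k m z : ℝ) : ℂ) * g' z)
        (good_wt k m hk hm hg) (good_wt k m hk hm hGood)]
      refine (enorm_integral_le_lintegral_enorm _).trans ?_
      refine le_of_eq (setLIntegral_congr_fun meas_Q fun z hz => ?_)
      rw [A_eq k m κ₂ M g' hz, enorm_mul, enorm_mul, enorm_mul, enorm_real,
        Real.enorm_eq_ofReal (wt_pos k m hz).le, sq, ENNReal.ofReal_mul (wt_pos k m hz).le]
      ring
    have hWm : Measurable fun z : ℝ × ℝ => ENNReal.ofReal (wt k m z ^ 2) := by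
      unfold wt
      fun_prop
    have hAtm : AEMeasurable (fun z => ‖At k m κ₂ M g' z‖ₑ) (volume.restrict Q) := by
      have := (At_meas k m hk hm κ₂ h1 h2 M g' hM hGood).aemeasurable (μ := volume)
      exact ((aemeasurable_indicator_iff meas_Q).1 this).enorm
    have hpq1 : 1 / p + 1 / q = 1 := by
      have := hpq.inv_add_inv_eq_one
      simpa [one_div] using this
    have hJ3 : J ≤ G ^ (1 / p) *
        (∫⁻ z in Q, ‖At k m κ₂ M g' z‖ₑ ^ q * ENNReal.ofReal (wt k m z ^ 2)) ^ (1 / q) := by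
      refine hJ2.trans ?_
      have hH := ENNReal.lintegral_mul_le_Lp_mul_Lq (volume.restrict Q) hpq
        (f := fun z => ‖g z‖ₑ * ENNReal.ofReal (wt k m z ^ 2) ^ (1 / p))
        (g := fun z => ‖At k m κ₂ M g' z‖ₑ * ENNReal.ofReal (wt k m z ^ 2) ^ (1 / q))
        ((hg.1.enorm.mul (hWm.pow_const _)).aemeasurable) (hAtm.mul (hWm.pow_const _).aemeasurable)
      have e1 : ∀ z : ℝ × ℝ, ((fun z => ‖g z‖ₑ * ENNReal.ofReal (wt k m z ^ 2) ^ (1 / p)) *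
          (fun z => ‖At k m κ₂ M g' z‖ₑ * ENNReal.ofReal (wt k m z ^ 2) ^ (1 / q))) z =
          ‖g z‖ₑ * ‖At k m κ₂ M g' z‖ₑ * ENNReal.ofReal (wt k m z ^ 2) := by
        intro z
        simp only [Pi.mul_apply]
        have : ENNReal.ofReal (wt k m z ^ 2) ^ (1 / p) * ENNReal.ofReal (wt k m z ^ 2) ^ (1 / q) =
            ENNReal.ofReal (wt k m z ^ 2) := by
          rw [← ENNReal.rpow_add_of_nonneg _ _ (by positivity) (by positivity), hpq1,
            ENNReal.rpow_one]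
        calc ‖g z‖ₑ * ENNReal.ofReal (wt k m z ^ 2) ^ (1 / p) *
              (‖At k m κ₂ M g' z‖ₑ * ENNReal.ofReal (wt k m z ^ 2) ^ (1 / q)) =
              ‖g z‖ₑ * ‖At k m κ₂ M g' z‖ₑ * (ENNReal.ofReal (wt k m z ^ 2) ^ (1 / p) *
                ENNReal.ofReal (wt k m z ^ 2) ^ (1 / q)) := by ring
          _ = _ := by rw [this]
      have e2 : ∀ z : ℝ × ℝ, (‖g z‖ₑ * ENNReal.ofReal (wt k m z ^ 2) ^ (1 / p)) ^ p =
          ‖g z‖ₑ ^ p * ENNReal.ofReal (wt k m z ^ 2) := by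
        intro z
        rw [ENNReal.mul_rpow_of_nonneg _ _ hp0.le, ← ENNReal.rpow_mul, one_div,
          inv_mul_cancel₀ hp0.ne', ENNReal.rpow_one]
      have e3 : ∀ z : ℝ × ℝ, (‖At k m κ₂ M g' z‖ₑ * ENNReal.ofReal (wt k m z ^ 2) ^ (1 / q)) ^ q =
          ‖At k m κ₂ M g' z‖ₑ ^ q * ENNReal.ofReal (wt k m z ^ 2) := by
        intro z
        rw [ENNReal.mul_rpow_of_nonneg _ _ hq0.le, ← ENNReal.rpow_mul, one_div,
          inv_mul_cancel₀ hq0.ne', ENNReal.rpow_one]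
      simp only [e1, e2, e3] at hH
      exact hH
    have hg'q : ∫⁻ z in Q, ‖g' z‖ₑ ^ q * ENNReal.ofReal (wt k m z ^ 2) = J := by
      rw [hJf]
      refine setLIntegral_congr_fun meas_Q fun z hz => ?_
      rw [hfe z hz]
      by_cases hzS : z ∈ S n
      · rw [indicator_of_mem hzS, hg'S z hzS]
        congr 1
        rw [← ofReal_norm, hφn, ENNReal.ofReal_rpow_of_nonneg
          (Real.rpow_nonneg (norm_nonneg _) _) hq0.le, ← Real.rpow_mul (norm_nonneg _),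
          ← ofReal_norm, ENNReal.ofReal_rpow_of_nonneg (norm_nonneg _) hp0.le]
        congr 2
        have := hpq.sub_one_mul_conj
        exact this
      · rw [indicator_of_notMem hzS, hg'0 z hzS]
        simp [hq0]
    have hJ4 : J ≤ G ^ (1 / p) * (ENNReal.ofReal N * J ^ (1 / q)) := by
      refine hJ3.trans ?_
      gcongr
      have h5 := hb g' hGood
      rw [hg'q] at h5
      calc (∫⁻ z in Q, ‖At k m κ₂ M g' z‖ₑ ^ q * ENNReal.ofReal (wt k m z ^ 2)) ^ (1 / q)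
          ≤ (ENNReal.ofReal (N ^ q) * J) ^ (1 / q) := ENNReal.rpow_le_rpow h5 (by positivity)
        _ = ENNReal.ofReal N * J ^ (1 / q) := by
          rw [ENNReal.mul_rpow_of_nonneg _ _ (by positivity),
            ← ENNReal.ofReal_rpow_of_nonneg hN hq0.le, ← ENNReal.rpow_mul, one_div,
            mul_inv_cancel₀ hq0.ne', ENNReal.rpow_one]
    -- conclusion
    rcases eq_or_ne J 0 with hJ0 | hJ0
    · rw [hJ0]
      exact bot_le
    have h6 : J ^ (1 / p) * J ^ (1 / q) ≤ (ENNReal.ofReal N * G ^ (1 / p)) * J ^ (1 / q) := by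
      rw [← ENNReal.rpow_add_of_nonneg _ _ (by positivity) (by positivity), hpq1,
        ENNReal.rpow_one]
      calc J ≤ G ^ (1 / p) * (ENNReal.ofReal N * J ^ (1 / q)) := hJ4
        _ = (ENNReal.ofReal N * G ^ (1 / p)) * J ^ (1 / q) := by ring
    have h7 : J ^ (1 / q) ≠ 0 := by
      rw [Ne, ENNReal.rpow_eq_zero_iff]
      push Not
      refine ⟨fun h => absurd h hJ0, fun h => absurd h hJtop⟩
    have h8 : J ^ (1 / q) ≠ ∞ := ENNReal.rpow_ne_top_of_nonneg (by positivity) hJtop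
    have h9 : J ^ (1 / p) ≤ ENNReal.ofReal N * G ^ (1 / p) := (ENNReal.mul_le_mul_iff_left h7 h8).1 h6
    calc J = (J ^ (1 / p)) ^ p := by
          rw [← ENNReal.rpow_mul, one_div, inv_mul_cancel₀ hp0.ne', ENNReal.rpow_one]
      _ ≤ (ENNReal.ofReal N * G ^ (1 / p)) ^ p := ENNReal.rpow_le_rpow h9 hp0.le
      _ = ENNReal.ofReal (N ^ p) * G := by
          rw [ENNReal.mul_rpow_of_nonneg _ _ hp0.le, ← ENNReal.rpow_mul, one_div,
            inv_mul_cancel₀ hp0.ne', ENNReal.rpow_one, ENNReal.ofReal_rpow_of_nonneg hN hp0.le]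
  calc ∫⁻ z in Q, ‖T z‖ₑ ^ p * ENNReal.ofReal (wt k m z ^ 2)
      = ∫⁻ z in ⋃ n, S n, ‖T z‖ₑ ^ p * ENNReal.ofReal (wt k m z ^ 2) := by rw [← hSU]
    _ = ⨆ n, ∫⁻ z in S n, ‖T z‖ₑ ^ p * ENNReal.ofReal (wt k m z ^ 2) :=
        setLIntegral_iUnion_of_directed _ hSd
    _ ≤ _ := iSup_le hstep

lemma qp_small_of (k m : ℕ) (hk : 1 ≤ k) (hm : 1 ≤ m) (κ₂ : ℝ → ℂ) (hκ : Adm κ₂)
    (hkap : Adm (kap k)) (ψ : ℝ → ℝ) (hψ : Bump ψ) (p s : ℝ) (hp : 1 < p) (hp2 : p < 2)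
    (hs2 : 2 * ((k + m : ℕ) : ℝ) / p - ((k + m : ℕ) : ℝ) - 1 < s)
    (hbig : ∀ q : ℝ, 2 ≤ q → ((k + m : ℕ) : ℝ) - 1 - 2 * ((k + m : ℕ) : ℝ) / q < s →
      ∃ C : ℝ, 0 < C ∧ ∀ L : ℝ, 10 ≤ L → ∀ g : ℝ × ℝ → ℂ, Good g →
        ∫⁻ z in Q, ‖At k m κ₂ (mR ψ L) g z‖ₑ ^ q * ENNReal.ofReal (wt k m z ^ 2) ≤
          ENNReal.ofReal ((C * L ^ s) ^ q) *
            ∫⁻ z in Q, ‖g z‖ₑ ^ q * ENNReal.ofReal (wt k m z ^ 2)) :
    ∃ C : ℝ, 0 < C ∧ ∀ L : ℝ, 10 ≤ L → ∀ g : ℝ × ℝ → ℂ, Good g →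
      ∫⁻ z in Q, ‖At k m κ₂ (mR ψ L) g z‖ₑ ^ p * ENNReal.ofReal (wt k m z ^ 2) ≤
        ENNReal.ofReal ((C * L ^ s) ^ p) *
          ∫⁻ z in Q, ‖g z‖ₑ ^ p * ENNReal.ofReal (wt k m z ^ 2) := by
  have hp0 : 0 < p := by linarith
  have hp1 : 0 < p - 1 := by linarith
  have hpq : p.HolderConjugate (p / (p - 1)) := Real.HolderConjugate.conjExponent hp
  have hq2 : 2 ≤ p / (p - 1) := by
    rw [le_div_iff₀ hp1]
    linarith
  have hs3 : ((k + m : ℕ) : ℝ) - 1 - 2 * ((k + m : ℕ) : ℝ) / (p / (p - 1)) < s := by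
    have : ((k + m : ℕ) : ℝ) - 1 - 2 * ((k + m : ℕ) : ℝ) / (p / (p - 1)) =
        2 * ((k + m : ℕ) : ℝ) / p - ((k + m : ℕ) : ℝ) - 1 := by
      field_simp
      ring
    rw [this]
    exact hs2
  obtain ⟨C, hC, hb⟩ := hbig (p / (p - 1)) hq2 hs3
  refine ⟨C, hC, fun L hL10 g hg => ?_⟩
  exact duality k m hk hm κ₂ (mR ψ L) hkap hκ
    (mR_good ψ hψ L (by linarith)) p (p / (p - 1)) (C * L ^ s) hp hpq (by positivity)
    (fun g hg => hb L hL10 g hg) g hg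

end R6aux

end Pool.Agent.H438R2.RZ
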