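import Pool.Agent.H438R2.RZ.Base3
import Pool.Agent.H438R2.RZ.R6b
set_option autoImplicit false

namespace Pool.Agent.H438R2.RZ

open MeasureTheory Set Complex Filter
open scoped ENNReal RealInnerProductSpace Topology
open Pool.Agent.H789R2.FR (E sg)

theorem qp_small (k m : ℕ) (hk : 1 ≤ k) (hm : 1 ≤ m) (hkm : 3 ≤ k + m) (ω : E (k + m) → ℂ)
    (κ₂ : ℝ → ℂ) (hL : Lk k m ω κ₂) (ψ : ℝ → ℝ) (hψ : Bump ψ) (p s : ℝ) (hp : 1 < p)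
    (hp2 : p < 2) (hs : 0 < s)
    (hs2 : 2 * ((k + m : ℕ) : ℝ) / p - ((k + m : ℕ) : ℝ) - 1 < s) :
    ∃ C : ℝ, 0 < C ∧ ∀ L : ℝ, 10 ≤ L → ∀ g : ℝ × ℝ → ℂ, Good g →
      ∫⁻ z in Q, ‖At k m κ₂ (mR ψ L) g z‖ₑ ^ p * ENNReal.ofReal (wt k m z ^ 2) ≤
        ENNReal.ofReal ((C * L ^ s) ^ p) *
          ∫⁻ z in Q, ‖g z‖ₑ ^ p * ENNReal.ofReal (wt k m z ^ 2) :=
  qp_small' k m hk hm hkm ω κ₂ hL ψ hψ p s hp hp2 hs hs2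

end Pool.Agent.H438R2.RZ
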