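import Mathlib
import Pool.Agent.H438R2.RZ.Base4
set_option autoImplicit false

/-! # Bochner-Riesz means of block radial functions: final assembly -/

namespace Pool.Agent.H438R2.RZ

open MeasureTheory Set Complex Filter
open scoped ENNReal RealInnerProductSpace Topology
open Pool.Agent.H789R2.FR (E sg)
open Pool.Agent.H438R2.BR (Phi L)

namespace CoreAux

/-! ### symmetry types -/

theorem lk_even (k m : ℕ) (hk : 1 ≤ k) (hm : 1 ≤ m) : Lk k m (fun _ => 1) (kap m) := by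
  refine ⟨measurable_const, fun x => by simp, fun x _ => by simp, adm_kap m hm, lom_kap m hm, ?_⟩
  intro g hg M hM hM2 x hx
  have h := link_even k m hk hm g hg M hM hM2 x hx
  simp only [one_mul]
  exact h

theorem bl_snd_one (k : ℕ) (x : E (k + 1)) : (bl k 1 x).2 = |x (Fin.natAdd k 0)| := by
  simp [bl, Real.sqrt_sq_eq_abs]

theorem lk_odd (k : ℕ) (hk : 1 ≤ k) :
    Lk k 1 (fun y => ((Real.sign (y (Fin.natAdd k 0)) : ℝ) : ℂ)) kaps := by
  have hsm : Measurable Real.sign := by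
    unfold Real.sign
    exact Measurable.ite measurableSet_Iio measurable_const
      (Measurable.ite measurableSet_Ioi measurable_const measurable_const)
  refine ⟨?_, ?_, ?_, adm_kaps, lom_kaps, ?_⟩
  · refine Complex.measurable_ofReal.comp (hsm.comp ?_)
    fun_prop
  · intro x
    rw [Complex.norm_real]
    rcases Real.sign_apply_eq (x (Fin.natAdd k 0)) with h | h | h <;> rw [h] <;> simp
  · intro x hx
    have h2 : 0 < (bl k 1 x).2 := hx.2
    rw [bl_snd_one, abs_pos] at h2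
    rw [Complex.norm_real]
    rcases Real.sign_apply_eq_of_ne_zero _ h2 with h | h <;> rw [h] <;> simp
  · intro g hg M hM hM2 x hx
    exact link_odd k hk g hg M hM hM2 x hx

/-! ### one symmetry type -/

theorem bump_cont {ψ : ℝ → ℝ} (h : Bump ψ) : Continuous ψ := h.1.continuous

theorem bump_zero {ψ : ℝ → ℝ} (h : Bump ψ) {v : ℝ} (hv : v < 1 / 2) : ψ v = 0 := by
  by_contra hne
  exact absurd (h.2 v hne).1 (not_le.mpr hv)

theorem bump_bdd {ψ : ℝ → ℝ} (h : Bump ψ) : ∃ M : ℝ, 0 ≤ M ∧ ∀ v, ‖ψ v‖ ≤ M := by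
  obtain ⟨M, hM⟩ := (isCompact_Icc (a := (1 / 2 : ℝ)) (b := 2)).exists_bound_of_continuousOn
    (bump_cont h).continuousOn
  refine ⟨max M 0, le_max_right _ _, fun v => ?_⟩
  by_cases hv : ψ v = 0
  · rw [hv]; simp
  · obtain ⟨h1, h2⟩ := h.2 v hv
    exact (hM v ⟨h1, h2⟩).trans (le_max_left _ _)

theorem type_bound (k m : ℕ) (hk : 1 ≤ k) (hm : 1 ≤ m) (hkm : 3 ≤ k + m) (ω : E (k + m) → ℂ)
    (κ₂ : ℝ → ℂ) (hL : Lk k m ω κ₂) (ψ : ℝ → ℝ) (hψ : Bump ψ) (p s : ℝ) (hp : 1 < p) (hs : 0 < s)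
    (hs2 : ((k + m : ℕ) : ℝ) * |1 - 2 / p| - 1 < s) :
    ∃ C : ℝ, 0 < C ∧ ∀ L : ℝ, 10 ≤ L → ∀ f : E (k + m) → ℂ, Integrable f →
      (∃ B : ℝ, ∀ x, ‖f x‖ ≤ B) → (∃ g : ℝ × ℝ → ℂ, Measurable g ∧
        ∀ x, bl k m x ∈ Q → f x = ω x * g (bl k m x)) →
      eLpNorm (TR (k + m) (fun u => ψ (L ^ 2 * (1 - u))) f) (ENNReal.ofReal p) volume ≤
        ENNReal.ofReal (C * L ^ s) * eLpNorm f (ENNReal.ofReal p) volume := by
  have hp0 : (0 : ℝ) < p := by linarith
  have key : ∃ C : ℝ, 0 < C ∧ ∀ L : ℝ, 10 ≤ L → ∀ g : ℝ × ℝ → ℂ, Good g →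
      ∫⁻ z in Q, ‖At k m κ₂ (mR ψ L) g z‖ₑ ^ p * ENNReal.ofReal (wt k m z ^ 2) ≤
        ENNReal.ofReal ((C * L ^ s) ^ p) *
          ∫⁻ z in Q, ‖g z‖ₑ ^ p * ENNReal.ofReal (wt k m z ^ 2) := by
    rcases le_or_gt 2 p with h2 | h2
    · refine qp_big k m hk hm hkm ω κ₂ hL ψ hψ p s h2 hs ?_
      have : |1 - 2 / p| = 1 - 2 / p := abs_of_nonneg (by
        rw [sub_nonneg, div_le_one hp0]; exact h2)
      rw [this] at hs2
      have e1 : ((k + m : ℕ) : ℝ) - 1 - 2 * ((k + m : ℕ) : ℝ) / p =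
        ((k + m : ℕ) : ℝ) * (1 - 2 / p) - 1 := by ring
      rw [e1]; exact hs2
    · refine qp_small k m hk hm hkm ω κ₂ hL ψ hψ p s hp h2 hs ?_
      have : |1 - 2 / p| = 2 / p - 1 := by
        rw [abs_of_nonpos]
        · ring
        · rw [sub_nonpos, one_le_div hp0]; exact h2.le
      rw [this] at hs2
      have e1 : 2 * ((k + m : ℕ) : ℝ) / p - ((k + m : ℕ) : ℝ) - 1 =
        ((k + m : ℕ) : ℝ) * (2 / p - 1) - 1 := by ring
      rw [e1]; exact hs2
  obtain ⟨C, hC, hb⟩ := key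
  refine ⟨C, hC, fun L hL1 f hf hfb hg => ?_⟩
  obtain ⟨g, hgm, hfg⟩ := hg
  have hLp : 0 < L ^ s := Real.rpow_pos_of_pos (by linarith) _
  exact rn_bound k m hk hm ω κ₂ hL ψ hψ p L (C * L ^ s) hp (by linarith) (by positivity)
    (hb L hL1) f hf hfb g hgm hfg

/-! ### linearity of `TR` -/

theorem norm_e (x : ℝ) : ‖e x‖ = 1 := by
  unfold e; exact Complex.norm_exp_ofReal_mul_I _

theorem e_cont : Continuous e := by
  unfold e; fun_prop

/-- the inner Fourier transform -/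
noncomputable def fh {n : ℕ} (f : E n → ℂ) (ξ : E n) : ℂ := ∫ y : E n, e (-(⟪y, ξ⟫ : ℝ)) * f y

theorem fh_int {n : ℕ} (f : E n → ℂ) (hf : Integrable f) (ξ : E n) :
    Integrable fun y : E n => e (-(⟪y, ξ⟫ : ℝ)) * f y := by
  refine hf.bdd_mul (c := 1) ?_ ?_
  · exact (e_cont.comp (by fun_prop)).aestronglyMeasurable
  · exact Filter.Eventually.of_forall fun y => (norm_e _).le

theorem fh_bdd {n : ℕ} (f : E n → ℂ) (ξ : E n) : ‖fh f ξ‖ ≤ ∫ y, ‖f y‖ := by
  refine (norm_integral_le_integral_norm _).trans (le_of_eq ?_)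
  congr 1; funext y; rw [norm_mul, norm_e, one_mul]

theorem fh_cont {n : ℕ} (f : E n → ℂ) (hf : Integrable f) : Continuous (fh f) := by
  refine continuous_of_dominated (bound := fun y => ‖f y‖) ?_ ?_ hf.norm ?_
  · intro ξ; exact (fh_int f hf ξ).aestronglyMeasurable
  · intro ξ; exact Filter.Eventually.of_forall fun y => by rw [norm_mul, norm_e, one_mul]
  · refine Filter.Eventually.of_forall fun y => ?_
    exact (e_cont.comp (by fun_prop)).mul continuous_const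

theorem M_int {n : ℕ} (M : ℝ → ℝ) (hM : Continuous M) (hM2 : ∀ u, 2 < u → M u = 0) :
    Integrable fun ξ : E n => ((M (‖ξ‖ ^ 2) : ℝ) : ℂ) := by
  refine Continuous.integrable_of_hasCompactSupport (by fun_prop) ?_
  refine HasCompactSupport.of_support_subset_isCompact (isCompact_closedBall (0 : E n) 2) ?_
  intro ξ hξ
  rw [mem_closedBall_zero_iff]
  by_contra hc
  push Not at hc
  apply hξ
  have : (2 : ℝ) < ‖ξ‖ ^ 2 := by nlinarith
  simp only
  rw [hM2 _ this]; simp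

theorem TR_int {n : ℕ} (M : ℝ → ℝ) (hM : Continuous M) (hM2 : ∀ u, 2 < u → M u = 0) (f : E n → ℂ)
    (hf : Integrable f) (x : E n) :
    Integrable fun ξ : E n => ((M (‖ξ‖ ^ 2) : ℝ) : ℂ) * fh f ξ * e (⟪x, ξ⟫ : ℝ) := by
  have h1 := (M_int (n := n) M hM hM2).mul_bdd (c := ∫ y, ‖f y‖) (fh_cont f hf).aestronglyMeasurable
    (Filter.Eventually.of_forall fun ξ => fh_bdd f ξ)
  refine h1.mul_bdd (c := 1) ?_ ?_
  · exact (e_cont.comp (by fun_prop)).aestronglyMeasurable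
  · exact Filter.Eventually.of_forall fun y => (norm_e _).le

theorem TR_cont {n : ℕ} (M : ℝ → ℝ) (hM : Continuous M) (hM2 : ∀ u, 2 < u → M u = 0)
    (f : E n → ℂ) (hf : Integrable f) : Continuous (TR n M f) := by
  have h1 := (M_int (n := n) M hM hM2).mul_bdd (c := ∫ y, ‖f y‖) (fh_cont f hf).aestronglyMeasurable
    (Filter.Eventually.of_forall fun ξ => fh_bdd f ξ)
  refine continuous_of_dominated (bound := fun ξ => ‖((M (‖ξ‖ ^ 2) : ℝ) : ℂ) * fh f ξ‖) ?_ ?_ h1.norm ?_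
  · intro x; exact (TR_int M hM hM2 f hf x).aestronglyMeasurable
  · intro x; refine Filter.Eventually.of_forall fun ξ => ?_
    rw [norm_mul _ (e _), norm_e, mul_one]
    exact le_of_eq rfl
  · refine Filter.Eventually.of_forall fun ξ => ?_
    exact continuous_const.mul (e_cont.comp (by fun_prop))

theorem TR_add {n : ℕ} (M : ℝ → ℝ) (hM : Continuous M) (hM2 : ∀ u, 2 < u → M u = 0)
    (f g : E n → ℂ) (hf : Integrable f) (hg : Integrable g) (x : E n) :
    TR n M (fun y => f y + g y) x = TR n M f x + TR n M g x := by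
  unfold TR
  rw [← integral_add]
  · congr 1; funext ξ
    have : (∫ y : E n, e (-(⟪y, ξ⟫ : ℝ)) * (f y + g y)) =
        (∫ y : E n, e (-(⟪y, ξ⟫ : ℝ)) * f y) + ∫ y : E n, e (-(⟪y, ξ⟫ : ℝ)) * g y := by
      rw [← integral_add (fh_int f hf ξ) (fh_int g hg ξ)]
      congr 1; funext y; ring
    rw [this]; ring
  · exact TR_int M hM hM2 f hf x
  · exact TR_int M hM hM2 g hg x

/-! ### representation of block radial functions -/

/-- a section of the block lengths -/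
noncomputable def sec (k m : ℕ) (z : ℝ × ℝ) : E (k + m) :=
  WithLp.toLp 2 (Fin.append (fun i : Fin k => if (i : ℕ) = 0 then z.1 else 0)
    (fun i : Fin m => if (i : ℕ) = 0 then z.2 else 0))

theorem sec_left (k m : ℕ) (z : ℝ × ℝ) (i : Fin k) :
    sec k m z (Fin.castAdd m i) = if (i : ℕ) = 0 then z.1 else 0 := by
  simp [sec]

theorem sec_right (k m : ℕ) (z : ℝ × ℝ) (i : Fin m) :
    sec k m z (Fin.natAdd k i) = if (i : ℕ) = 0 then z.2 else 0 := by
  simp [sec]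

theorem sum_ite_sq (k : ℕ) (hk : 1 ≤ k) (a : ℝ) :
    ∑ i : Fin k, (if (i : ℕ) = 0 then a else 0) ^ 2 = a ^ 2 := by
  rw [Finset.sum_eq_single (⟨0, hk⟩ : Fin k)]
  · simp
  · intro b _ hb
    have : (b : ℕ) ≠ 0 := fun h => hb (Fin.ext h)
    simp [this]
  · intro h; exact absurd (Finset.mem_univ _) h

theorem sec_sum_left (k m : ℕ) (hk : 1 ≤ k) (z : ℝ × ℝ) :
    ∑ i : Fin k, (sec k m z (Fin.castAdd m i)) ^ 2 = z.1 ^ 2 := by
  simp only [sec_left]; exact sum_ite_sq k hk _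

theorem sec_sum_right (k m : ℕ) (hm : 1 ≤ m) (z : ℝ × ℝ) :
    ∑ i : Fin m, (sec k m z (Fin.natAdd k i)) ^ 2 = z.2 ^ 2 := by
  simp only [sec_right]; exact sum_ite_sq m hm _

theorem sec_meas (k m : ℕ) : Measurable (sec k m) := by
  unfold sec
  refine (WithLp.measurable_toLp 2 _).comp ?_
  refine measurable_pi_lambda _ fun i => ?_
  refine Fin.addCases (fun j => ?_) (fun j => ?_) i
  · simp only [Fin.append_left]
    split_ifs
    · exact measurable_fst
    · exact measurable_const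
  · simp only [Fin.append_right]
    split_ifs
    · exact measurable_snd
    · exact measurable_const

theorem bl_fst_sq (k m : ℕ) (x : E (k + m)) :
    (bl k m x).1 ^ 2 = ∑ i : Fin k, (x (Fin.castAdd m i)) ^ 2 := by
  unfold bl
  exact Real.sq_sqrt (Finset.sum_nonneg fun i _ => sq_nonneg _)

theorem bl_snd_sq (k m : ℕ) (x : E (k + m)) :
    (bl k m x).2 ^ 2 = ∑ i : Fin m, (x (Fin.natAdd k i)) ^ 2 := by
  unfold bl
  exact Real.sq_sqrt (Finset.sum_nonneg fun i _ => sq_nonneg _)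

/-- the symmetry hypothesis -/
def Sym (k m : ℕ) (f : E (k + m) → ℂ) : Prop :=
  ∀ x y : E (k + m),
    ∑ i : Fin k, (x (Fin.castAdd m i)) ^ 2 = ∑ i : Fin k, (y (Fin.castAdd m i)) ^ 2 →
    ∑ i : Fin m, (x (Fin.natAdd k i)) ^ 2 = ∑ i : Fin m, (y (Fin.natAdd k i)) ^ 2 →
    (m = 1 → ∀ i : Fin m, x (Fin.natAdd k i) = y (Fin.natAdd k i)) → f x = f y

/-- full symmetry -/
def Sym' (k m : ℕ) (f : E (k + m) → ℂ) : Prop :=
  ∀ x y : E (k + m),
    ∑ i : Fin k, (x (Fin.castAdd m i)) ^ 2 = ∑ i : Fin k, (y (Fin.castAdd m i)) ^ 2 →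
    ∑ i : Fin m, (x (Fin.natAdd k i)) ^ 2 = ∑ i : Fin m, (y (Fin.natAdd k i)) ^ 2 → f x = f y

theorem repr_even (k m : ℕ) (hk : 1 ≤ k) (hm : 1 ≤ m) (f : E (k + m) → ℂ) (hf : Measurable f)
    (hs : Sym' k m f) : ∃ g : ℝ × ℝ → ℂ, Measurable g ∧
        ∀ x, bl k m x ∈ Q → f x = (fun _ => (1 : ℂ)) x * g (bl k m x) := by
  refine ⟨fun z => f (sec k m z), hf.comp (sec_meas k m), fun x _ => ?_⟩
  simp only [one_mul]
  apply hs
  · rw [sec_sum_left k m hk, bl_fst_sq]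
  · rw [sec_sum_right k m hm, bl_snd_sq]

/-- reflection in the last coordinate -/
noncomputable def rf (k : ℕ) : E (k + 1) ≃ₗᵢ[ℝ] E (k + 1) :=
  LinearIsometryEquiv.piLpCongrRight 2
    (fun i : Fin (k + 1) => if i = Fin.natAdd k 0 then LinearIsometryEquiv.neg ℝ
      else LinearIsometryEquiv.refl ℝ ℝ)

theorem rf_last (k : ℕ) (x : E (k + 1)) : rf k x (Fin.natAdd k 0) = -x (Fin.natAdd k 0) := by
  simp [rf]

theorem rf_cast (k : ℕ) (x : E (k + 1)) (i : Fin k) :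
    rf k x (Fin.castAdd 1 i) = x (Fin.castAdd 1 i) := by
  have : (Fin.castAdd 1 i : Fin (k + 1)) ≠ Fin.natAdd k 0 := by
    intro h
    have := congrArg Fin.val h
    simp at this
    omega
  simp [rf, this]

theorem rf_mp (k : ℕ) : MeasurePreserving (rf k) (volume : Measure (E (k + 1))) volume :=
  (rf k).measurePreserving

theorem rf_bl (k : ℕ) (x : E (k + 1)) : bl k 1 (rf k x) = bl k 1 x := by
  unfold bl
  simp only [rf_cast]
  congr 1
  simp [rf_last]

theorem eLp_rf (k : ℕ) (f : E (k + 1) → ℂ) (hf : AEStronglyMeasurable f volume) (p : ℝ≥0∞) :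
    eLpNorm (fun x => f (rf k x)) p volume = eLpNorm f p volume :=
  eLpNorm_comp_measurePreserving hf (rf_mp k)

/-- every function with the symmetry `Sym` is a sum of at most two pieces -/
theorem sym_bound (k m : ℕ) (hk : 1 ≤ k) (hm : 1 ≤ m) (hkm : 3 ≤ k + m) (ψ : ℝ → ℝ)
    (hψ : Bump ψ) (p s : ℝ) (hp : 1 < p) (hs : 0 < s)
    (hs2 : ((k + m : ℕ) : ℝ) * |1 - 2 / p| - 1 < s) :
    ∃ C : ℝ, 0 < C ∧ ∀ L : ℝ, 10 ≤ L → ∀ f : E (k + m) → ℂ, Measurable f → Integrable f →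
      (∃ B : ℝ, ∀ x, ‖f x‖ ≤ B) → Sym k m f →
      eLpNorm (TR (k + m) (fun u => ψ (L ^ 2 * (1 - u))) f) (ENNReal.ofReal p) volume ≤
        ENNReal.ofReal (C * L ^ s) * eLpNorm f (ENNReal.ofReal p) volume := by
  have hp1 : 1 ≤ ENNReal.ofReal p := by
    rw [← ENNReal.ofReal_one]; exact ENNReal.ofReal_le_ofReal hp.le
  have hMc : ∀ L : ℝ, Continuous fun u : ℝ => ψ (L ^ 2 * (1 - u)) := fun L =>
    (bump_cont hψ).comp (by fun_prop)
  have hM0 : ∀ L : ℝ, ∀ u : ℝ, 2 < u → ψ (L ^ 2 * (1 - u)) = 0 := fun L u hu =>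
    bump_zero hψ (by nlinarith [sq_nonneg L])
  obtain ⟨C1, hC1, h1⟩ := type_bound k m hk hm hkm _ _ (lk_even k m hk hm) ψ hψ p s hp hs hs2
  by_cases hm1 : m = 1
  · subst hm1
    obtain ⟨C2, hC2, h2⟩ := type_bound k 1 hk hm hkm _ _ (lk_odd k hk) ψ hψ p s hp hs hs2
    refine ⟨C1 + C2, by positivity, fun L hL f hfm hfi hfb hsym => ?_⟩
    have hL0 : 0 < L ^ s := Real.rpow_pos_of_pos (by linarith) _
    have hrm : Measurable (rf k) := (rf k).continuous.measurable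
    set fe : E (k + 1) → ℂ := fun x => (1 / 2 : ℂ) * (f x + f (rf k x)) with hfe
    set fo : E (k + 1) → ℂ := fun x => (1 / 2 : ℂ) * (f x - f (rf k x)) with hfo
    have hfri : Integrable fun x => f (rf k x) :=
      ((rf_mp k).integrable_comp hfi.aestronglyMeasurable).mpr hfi
    have hfei : Integrable fe := (hfi.add hfri).const_mul _
    have hfoi : Integrable fo := (hfi.sub hfri).const_mul _
    obtain ⟨B, hB⟩ := hfb
    have hn2 : ‖(1 / 2 : ℂ)‖ = 1 / 2 := by simp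
    have hfeb : ∀ x, ‖fe x‖ ≤ B := fun x => by
      rw [hfe]; simp only [norm_mul, hn2]
      have := norm_add_le (f x) (f (rf k x))
      have h3 := hB x; have h4 := hB (rf k x); linarith
    have hfob : ∀ x, ‖fo x‖ ≤ B := fun x => by
      rw [hfo]; simp only [norm_mul, hn2]
      have := norm_sub_le (f x) (f (rf k x))
      have h3 := hB x; have h4 := hB (rf k x); linarith
    have hfrm : Measurable fun x => f (rf k x) := hfm.comp hrm
    have hfem : Measurable fe := (hfm.add hfrm).const_mul _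
    have hfom : Measurable fo := (hfm.sub hfrm).const_mul _
    -- symmetry
    have hrr : ∀ x, rf k (rf k x) = x := by
      intro x
      ext i
      refine Fin.addCases (fun j => ?_) (fun j => ?_) i
      · rw [rf_cast, rf_cast]
      · have hj : j = 0 := Subsingleton.elim _ _
        subst hj
        rw [rf_last, rf_last, neg_neg]
    have key : ∀ x y : E (k + 1),
        ∑ i : Fin k, (x (Fin.castAdd 1 i)) ^ 2 = ∑ i : Fin k, (y (Fin.castAdd 1 i)) ^ 2 →
        x (Fin.natAdd k 0) = y (Fin.natAdd k 0) → f x = f y ∧ f (rf k x) = f (rf k y) := by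
      intro x y h3 h4
      constructor
      · apply hsym x y h3
        · simp [h4]
        · intro _ i
          have : i = 0 := Subsingleton.elim _ _
          subst this; exact h4
      · apply hsym (rf k x) (rf k y)
        · simp only [rf_cast]; exact h3
        · simp [rf_last, h4]
        · intro _ i
          have : i = 0 := Subsingleton.elim _ _
          subst this; rw [rf_last, rf_last, h4]
    have hes : Sym' k 1 fe := by
      intro x y h3 h4
      have h5 : x (Fin.natAdd k 0) ^ 2 = y (Fin.natAdd k 0) ^ 2 := by simpa using h4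
      rcases sq_eq_sq_iff_eq_or_eq_neg.mp h5 with h6 | h6
      · obtain ⟨h7, h8⟩ := key x y h3 h6
        simp only [hfe, h7, h8]
      · obtain ⟨h7, h8⟩ := key x (rf k y) (by simp only [rf_cast]; exact h3)
          (by rw [rf_last, h6])
        rw [hrr] at h8
        simp only [hfe, h7, h8]; ring
    have hor : ∃ g : ℝ × ℝ → ℂ, Measurable g ∧ ∀ x, bl k 1 x ∈ Q →
        fo x = ((Real.sign (x (Fin.natAdd k 0)) : ℝ) : ℂ) * g (bl k 1 x) := by
      refine ⟨fun z => fo (sec k 1 z), hfom.comp (sec_meas k 1), fun x hx => ?_⟩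
      have h2 : 0 < (bl k 1 x).2 := hx.2
      have h2' := h2
      rw [bl_snd_one, abs_pos] at h2'
      have hsecl : sec k 1 (bl k 1 x) (Fin.natAdd k 0) = |x (Fin.natAdd k 0)| := by
        rw [sec_right]; simp [bl_snd_one]
      have hsum : ∑ i : Fin k, (sec k 1 (bl k 1 x) (Fin.castAdd 1 i)) ^ 2 =
          ∑ i : Fin k, (x (Fin.castAdd 1 i)) ^ 2 := by
        rw [sec_sum_left k 1 hk, bl_fst_sq]
      rcases lt_or_gt_of_ne h2' with h6 | h6
      · rw [Real.sign_of_neg h6]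
        rw [abs_of_neg h6] at hsecl
        obtain ⟨h7, h8⟩ := key (sec k 1 (bl k 1 x)) (rf k x)
          (by simp only [rf_cast]; exact hsum) (by rw [hsecl, rf_last])
        rw [hrr] at h8
        simp only [hfo, h7, h8]; push_cast; ring
      · rw [Real.sign_of_pos h6]
        rw [abs_of_pos h6] at hsecl
        obtain ⟨h7, h8⟩ := key (sec k 1 (bl k 1 x)) x hsum hsecl
        simp only [hfo, h7, h8]; push_cast; ring
    have b1 := h1 L hL fe hfei ⟨B, hfeb⟩ (repr_even k 1 hk hm fe hfem hes)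
    have b2 := h2 L hL fo hfoi ⟨B, hfob⟩ hor
    -- norms of the pieces
    have nhalf : ∀ F : E (k + 1) → ℂ, eLpNorm (fun x => (1 / 2 : ℂ) * F x) (ENNReal.ofReal p) volume =
        (2 : ℝ≥0∞)⁻¹ * eLpNorm F (ENNReal.ofReal p) volume := by
      intro F
      have h := eLpNorm_const_smul (1 / 2 : ℂ) F (ENNReal.ofReal p) (volume : Measure (E (k + 1)))
      have h3 : ‖(1 / 2 : ℂ)‖ₑ = (2 : ℝ≥0∞)⁻¹ := by
        rw [← ofReal_norm, hn2]
        rw [one_div, ENNReal.ofReal_inv_of_pos (by norm_num)]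
        norm_num
      rw [h3] at h
      exact h
    have hrfn := eLp_rf k f hfi.aestronglyMeasurable (ENNReal.ofReal p)
    have n1 : eLpNorm fe (ENNReal.ofReal p) volume ≤ eLpNorm f (ENNReal.ofReal p) volume := by
      rw [hfe, nhalf]
      have := eLpNorm_add_le hfi.aestronglyMeasurable hfri.aestronglyMeasurable hp1
      rw [hrfn] at this
      calc (2 : ℝ≥0∞)⁻¹ * eLpNorm (fun x => f x + f (rf k x)) (ENNReal.ofReal p) volume
          ≤ (2 : ℝ≥0∞)⁻¹ * (eLpNorm f (ENNReal.ofReal p) volume +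
            eLpNorm f (ENNReal.ofReal p) volume) := by gcongr; exact this
        _ = eLpNorm f (ENNReal.ofReal p) volume := by
            rw [← two_mul, ← mul_assoc, ENNReal.inv_mul_cancel (by norm_num) (by norm_num), one_mul]
    have n2 : eLpNorm fo (ENNReal.ofReal p) volume ≤ eLpNorm f (ENNReal.ofReal p) volume := by
      rw [hfo, nhalf]
      have := eLpNorm_sub_le hfi.aestronglyMeasurable hfri.aestronglyMeasurable hp1
      rw [hrfn] at this
      calc (2 : ℝ≥0∞)⁻¹ * eLpNorm (fun x => f x - f (rf k x)) (ENNReal.ofReal p) volume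
          ≤ (2 : ℝ≥0∞)⁻¹ * (eLpNorm f (ENNReal.ofReal p) volume +
            eLpNorm f (ENNReal.ofReal p) volume) := by gcongr; exact this
        _ = eLpNorm f (ENNReal.ofReal p) volume := by
            rw [← two_mul, ← mul_assoc, ENNReal.inv_mul_cancel (by norm_num) (by norm_num), one_mul]
    have hsplit : TR (k + 1) (fun u => ψ (L ^ 2 * (1 - u))) f = fun x =>
        TR (k + 1) (fun u => ψ (L ^ 2 * (1 - u))) fe x +
          TR (k + 1) (fun u => ψ (L ^ 2 * (1 - u))) fo x := by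
      funext x
      rw [← TR_add _ (hMc L) (hM0 L) fe fo hfei hfoi x]
      congr 1; funext y
      simp only [hfe, hfo]; ring
    have m1 : AEStronglyMeasurable (TR (k + 1) (fun u => ψ (L ^ 2 * (1 - u))) fe) volume :=
      (TR_cont _ (hMc L) (hM0 L) fe hfei).aestronglyMeasurable
    have m2 : AEStronglyMeasurable (TR (k + 1) (fun u => ψ (L ^ 2 * (1 - u))) fo) volume :=
      (TR_cont _ (hMc L) (hM0 L) fo hfoi).aestronglyMeasurable
    rw [hsplit]
    calc eLpNorm (fun x => TR (k + 1) (fun u => ψ (L ^ 2 * (1 - u))) fe x +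
          TR (k + 1) (fun u => ψ (L ^ 2 * (1 - u))) fo x) (ENNReal.ofReal p) volume
        ≤ eLpNorm (TR (k + 1) (fun u => ψ (L ^ 2 * (1 - u))) fe) (ENNReal.ofReal p) volume +
          eLpNorm (TR (k + 1) (fun u => ψ (L ^ 2 * (1 - u))) fo) (ENNReal.ofReal p) volume :=
          eLpNorm_add_le m1 m2 hp1
      _ ≤ ENNReal.ofReal (C1 * L ^ s) * eLpNorm f (ENNReal.ofReal p) volume +
          ENNReal.ofReal (C2 * L ^ s) * eLpNorm f (ENNReal.ofReal p) volume :=
          add_le_add (b1.trans (by gcongr)) (b2.trans (by gcongr))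
      _ = ENNReal.ofReal ((C1 + C2) * L ^ s) * eLpNorm f (ENNReal.ofReal p) volume := by
          rw [← add_mul, ← ENNReal.ofReal_add (by positivity) (by positivity), ← add_mul]
  · refine ⟨C1, hC1, fun L hL f hfm hfi hfb hsym => h1 L hL f hfi hfb ?_⟩
    apply repr_even k m hk hm f hfm
    intro x y h3 h4
    exact hsym x y h3 h4 (fun h => absurd h hm1)

/-! ### summation of the dyadic pieces -/

theorem e_eq (x : ℝ) : e x = Complex.exp (2 * (Real.pi : ℂ) * Complex.I * (x : ℂ)) := by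
  unfold e; congr 1; push_cast; ring

theorem piece_norm {n : ℕ} (ψ : ℝ → ℝ) (hψ : Bump ψ) (M : ℝ) (hM : ∀ v, ‖ψ v‖ ≤ M) (hM0 : 0 ≤ M)
    (f : E n → ℂ) (hf : Integrable f) (x : E n) (a : ℝ) (ha : 0 ≤ a) (t : ℝ) (ht : 0 < t) :
    Integrable (fun ξ : E n => ((a * ψ (t * (1 - ‖ξ‖ ^ 2)) : ℝ) : ℂ) * fh f ξ * e (⟪x, ξ⟫ : ℝ)) ∧
    ∫ ξ : E n, ‖((a * ψ (t * (1 - ‖ξ‖ ^ 2)) : ℝ) : ℂ) * fh f ξ * e (⟪x, ξ⟫ : ℝ)‖ ≤
      a * (M * (∫ y, ‖f y‖) * (volume : Measure (E n)).real (Metric.closedBall 0 1)) := by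
  have hc : Continuous fun u : ℝ => ψ (t * (1 - u)) := (bump_cont hψ).comp (by fun_prop)
  have hz : ∀ u : ℝ, 2 < u → ψ (t * (1 - u)) = 0 := fun u hu => bump_zero hψ (by nlinarith)
  have hint := TR_int (n := n) (fun u => a * ψ (t * (1 - u))) (continuous_const.mul hc)
    (fun u hu => by rw [hz u hu, mul_zero]) f hf x
  refine ⟨hint, ?_⟩
  have h1 : ∀ ξ : E n, ‖((a * ψ (t * (1 - ‖ξ‖ ^ 2)) : ℝ) : ℂ) * fh f ξ * e (⟪x, ξ⟫ : ℝ)‖ ≤
      (Metric.closedBall (0 : E n) 1).indicator (fun _ => a * (M * (∫ y, ‖f y‖))) ξ := by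
    intro ξ
    by_cases hξ : ξ ∈ Metric.closedBall (0 : E n) 1
    · rw [indicator_of_mem hξ, norm_mul, norm_mul, norm_e, mul_one, Complex.norm_real, norm_mul,
        Real.norm_of_nonneg ha, mul_assoc]
      have h2 := hM (t * (1 - ‖ξ‖ ^ 2))
      have h3 := fh_bdd f ξ
      gcongr
    · rw [indicator_of_notMem hξ]
      rw [mem_closedBall_zero_iff, not_le] at hξ
      have : ψ (t * (1 - ‖ξ‖ ^ 2)) = 0 := bump_zero hψ (by
        have : 1 < ‖ξ‖ ^ 2 := by nlinarith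
        nlinarith)
      rw [this]; simp
  have hbi : Integrable ((Metric.closedBall (0 : E n) 1).indicator
      (fun _ => a * (M * (∫ y, ‖f y‖)))) (volume : Measure (E n)) := by
    rw [integrable_indicator_iff Metric.isClosed_closedBall.measurableSet]
    exact integrableOn_const (measure_closedBall_lt_top.ne)
  refine (integral_mono hint.norm hbi h1).trans (le_of_eq ?_)
  rw [integral_indicator Metric.isClosed_closedBall.measurableSet, setIntegral_const, smul_eq_mul]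
  ring

theorem hasSum_pieces {n : ℕ} (δ : ℝ) (hδ : 0 < δ) (ψ : ℝ → ℝ) (hψ : Bump ψ)
    (hd : ∀ u : ℝ, 0 ≤ u → HasSum (fun j : ℕ => (2 : ℝ) ^ (-(δ * j)) * ψ (2 ^ j * (1 - u)))
      ((max (1 - u) 0) ^ δ)) (f : E n → ℂ) (hf : Integrable f) (x : E n) :
    HasSum (fun j : ℕ => (((2 : ℝ) ^ (-(δ * j)) : ℝ) : ℂ) *
      TR n (fun u => ψ (2 ^ j * (1 - u))) f x)
      (∫ ξ : E n, (((max (1 - ‖ξ‖ ^ 2) 0) ^ δ : ℝ) : ℂ) * fh f ξ * e (⟪x, ξ⟫ : ℝ)) := by
  obtain ⟨M, hM0, hM⟩ := bump_bdd hψ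
  have h2 : ∀ j : ℕ, 0 ≤ (2 : ℝ) ^ (-(δ * j)) := fun j => Real.rpow_nonneg (by norm_num) _
  have hp := fun j : ℕ => piece_norm ψ hψ M hM hM0 f hf x ((2 : ℝ) ^ (-(δ * j))) (h2 j) (2 ^ j)
    (by positivity)
  have hgeo : Summable fun j : ℕ => (2 : ℝ) ^ (-(δ * j)) := by
    have : (fun j : ℕ => (2 : ℝ) ^ (-(δ * j))) = fun j : ℕ => ((2 : ℝ) ^ (-δ)) ^ j := by
      funext j
      rw [← Real.rpow_natCast, ← Real.rpow_mul (by norm_num)]; congr 1; ring
    rw [this]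
    exact summable_geometric_of_lt_one (Real.rpow_nonneg (by norm_num) _)
      (Real.rpow_lt_one_of_one_lt_of_neg (by norm_num) (by linarith))
  have hs := hasSum_integral_of_summable_integral_norm (μ := (volume : Measure (E n)))
    (F := fun (j : ℕ) (ξ : E n) => (((2 : ℝ) ^ (-(δ * j)) * ψ (2 ^ j * (1 - ‖ξ‖ ^ 2)) : ℝ) : ℂ) *
      fh f ξ * e (⟪x, ξ⟫ : ℝ)) (fun j => (hp j).1)
    (Summable.of_nonneg_of_le (fun j => integral_nonneg fun ξ => norm_nonneg _) (fun j => (hp j).2)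
      (hgeo.mul_right _))
  have e1 : (∫ ξ : E n, ∑' j : ℕ, (((2 : ℝ) ^ (-(δ * j)) * ψ (2 ^ j * (1 - ‖ξ‖ ^ 2)) : ℝ) : ℂ) *
      fh f ξ * e (⟪x, ξ⟫ : ℝ)) =
      ∫ ξ : E n, (((max (1 - ‖ξ‖ ^ 2) 0) ^ δ : ℝ) : ℂ) * fh f ξ * e (⟪x, ξ⟫ : ℝ) := by
    congr 1; funext ξ
    have h := hd (‖ξ‖ ^ 2) (sq_nonneg _)
    have h3 := ((Complex.hasSum_ofReal.mpr h).mul_right (fh f ξ)).mul_right (e (⟪x, ξ⟫ : ℝ))
    exact h3.tsum_eq
  rw [e1] at hs
  have e2 : (fun j : ℕ => (((2 : ℝ) ^ (-(δ * j)) : ℝ) : ℂ) *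
      TR n (fun u => ψ (2 ^ j * (1 - u))) f x) = fun j : ℕ => ∫ ξ : E n,
      (((2 : ℝ) ^ (-(δ * j)) * ψ (2 ^ j * (1 - ‖ξ‖ ^ 2)) : ℝ) : ℂ) * fh f ξ * e (⟪x, ξ⟫ : ℝ) := by
    funext j
    unfold TR
    rw [← integral_const_mul]
    congr 1; funext ξ
    unfold fh
    push_cast; ring
  rw [e2]
  exact hs

theorem main (k m : ℕ) (hk : 1 ≤ k) (hm : 1 ≤ m) (hkm : 3 ≤ k + m) (p δ : ℝ) (hp : 1 < p)
    (hδ : 0 < δ) (hδ2 : ((k + m : ℕ) : ℝ) * |1 / 2 - 1 / p| - 1 / 2 < δ) :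
    ∃ C : ℝ, ∀ f : SchwartzMap (E (k + m)) ℂ, Sym k m (fun x => f x) →
      eLpNorm (fun x : E (k + m) => ∫ ξ : E (k + m),
        (((max (1 - ‖ξ‖ ^ 2) 0) ^ δ : ℝ) : ℂ) * fh (fun x => f x) ξ * e (⟪x, ξ⟫ : ℝ))
        (ENNReal.ofReal p) volume ≤
        ENNReal.ofReal C * eLpNorm (fun x => f x) (ENNReal.ofReal p) volume := by
  obtain ⟨ψ, hψ, hd⟩ := decomp δ hδ
  have hp1 : 1 ≤ ENNReal.ofReal p := by
    rw [← ENNReal.ofReal_one]; exact ENNReal.ofReal_le_ofReal hp.le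
  -- choice of s
  obtain ⟨s, hs0, hs1, hs2⟩ : ∃ s : ℝ, 0 < s ∧ ((k + m : ℕ) : ℝ) * |1 - 2 / p| - 1 < s ∧
      s < 2 * δ := by
    have h1 : ((k + m : ℕ) : ℝ) * |1 - 2 / p| - 1 < 2 * δ := by
      have : |1 - 2 / p| = 2 * |1 / 2 - 1 / p| := by
        rw [← abs_of_pos (show (0 : ℝ) < 2 by norm_num), ← abs_mul, abs_of_pos (show (0 : ℝ) < 2 by norm_num)]
        congr 1; ring
      rw [this]; linarith
    refine ⟨(max (((k + m : ℕ) : ℝ) * |1 - 2 / p| - 1) 0 + 2 * δ) / 2, ?_, ?_, ?_⟩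
    · have := le_max_right (((k + m : ℕ) : ℝ) * |1 - 2 / p| - 1) 0
      linarith
    · have h3 := le_max_left (((k + m : ℕ) : ℝ) * |1 - 2 / p| - 1) 0
      linarith
    · have : max (((k + m : ℕ) : ℝ) * |1 - 2 / p| - 1) 0 < 2 * δ := max_lt h1 (by linarith)
      linarith
  obtain ⟨C0, hC0, hb⟩ := sym_bound k m hk hm hkm ψ hψ p s hp hs0 hs1
  set Lj : ℕ → ℝ := fun j => Real.sqrt (2 ^ j) with hLj
  have hLsq : ∀ j, Lj j ^ 2 = 2 ^ j := fun j => Real.sq_sqrt (by positivity)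
  have hL1 : ∀ j, 1 ≤ Lj j := fun j => by
    rw [hLj]; simp only [Real.one_le_sqrt]; exact one_le_pow₀ (by norm_num)
  have hsm := fun j : ℕ => smooth_Lp (k + m) (by omega) ψ hψ p hp.le (Lj j) (hL1 j)
  choose Cj hCj hCb using hsm
  set a : ℕ → ℝ := fun j => if j < 7 then Cj j else C0 * Lj j ^ s with ha
  have ha0 : ∀ j, 0 ≤ a j := fun j => by
    rw [ha]; simp only
    split_ifs
    · exact (hCj j).le
    · have : 0 < Lj j ^ s := Real.rpow_pos_of_pos (by linarith [hL1 j]) _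
      positivity
  have hpiece : ∀ (j : ℕ) (f : SchwartzMap (E (k + m)) ℂ), Sym k m (fun x => f x) →
      eLpNorm (TR (k + m) (fun u => ψ (2 ^ j * (1 - u))) (fun x => f x)) (ENNReal.ofReal p) volume ≤
        ENNReal.ofReal (a j) * eLpNorm (fun x => f x) (ENNReal.ofReal p) volume := by
    intro j f hf
    rw [← hLsq j]
    by_cases hj : j < 7
    · have := hCb j f
      simp only [ha, if_pos hj]
      exact this
    · simp only [ha, if_neg hj]
      have h10 : 10 ≤ Lj j := by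
        rw [hLj]; simp only
        apply Real.le_sqrt_of_sq_le
        have : (2 : ℝ) ^ 7 ≤ 2 ^ j := pow_le_pow_right₀ (by norm_num) (by omega)
        linarith
      refine hb (Lj j) h10 (fun x => f x) f.continuous.measurable f.integrable ?_ hf
      obtain ⟨B, hB⟩ := f.toBoundedContinuousFunction.bddAbove_range_norm_comp
      refine ⟨B, fun x => ?_⟩
      exact hB ⟨x, rfl⟩
  -- summability
  have hsum : Summable fun j : ℕ => (2 : ℝ) ^ (-(δ * j)) * a j := by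
    have h1 : Summable fun j : ℕ => (2 : ℝ) ^ (-(δ * (j + 7 : ℕ))) * a (j + 7) := by
      have h2 : (fun j : ℕ => (2 : ℝ) ^ (-(δ * (j + 7 : ℕ))) * a (j + 7)) =
          fun j : ℕ => ((2 : ℝ) ^ (-(δ * 7) + 7 * s / 2) * C0) * ((2 : ℝ) ^ (s / 2 - δ)) ^ j := by
        funext j
        have h3 : ¬ (j + 7 < 7) := by omega
        simp only [ha, if_neg h3, hLj]
        rw [Real.sqrt_eq_rpow, ← Real.rpow_mul (by positivity), ← Real.rpow_natCast 2 (j + 7),
          ← Real.rpow_mul (by norm_num), ← Real.rpow_natCast _ j, ← Real.rpow_mul (by norm_num)]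
        rw [show (2 : ℝ) ^ (-(δ * ((j + 7 : ℕ) : ℝ))) * (C0 * 2 ^ ((((j + 7 : ℕ) : ℝ)) * (1 / 2 * s))) =
          C0 * (2 ^ (-(δ * ((j + 7 : ℕ) : ℝ))) * 2 ^ ((((j + 7 : ℕ) : ℝ)) * (1 / 2 * s))) by ring,
          ← Real.rpow_add (by norm_num)]
        rw [show (2 : ℝ) ^ (-(δ * 7) + 7 * s / 2) * C0 * 2 ^ ((s / 2 - δ) * (j : ℝ)) =
          C0 * (2 ^ (-(δ * 7) + 7 * s / 2) * 2 ^ ((s / 2 - δ) * (j : ℝ))) by ring,
          ← Real.rpow_add (by norm_num)]
        congr 2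
        push_cast; ring
      rw [h2]
      exact (summable_geometric_of_lt_one (Real.rpow_nonneg (by norm_num) _)
        (Real.rpow_lt_one_of_one_lt_of_neg (by norm_num) (by linarith))).mul_left _
    exact (summable_nat_add_iff 7).mp h1
  have h2n : ∀ j : ℕ, 0 ≤ (2 : ℝ) ^ (-(δ * j)) := fun j => Real.rpow_nonneg (by norm_num) _
  refine ⟨∑' j : ℕ, (2 : ℝ) ^ (-(δ * j)) * a j, fun f hf => ?_⟩
  have hfi : Integrable (fun x => f x) (volume : Measure (E (k + m))) := f.integrable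
  set N := eLpNorm (fun x => f x) (ENNReal.ofReal p) (volume : Measure (E (k + m))) with hN
  have hTc : ∀ j : ℕ, Continuous (TR (k + m) (fun u => ψ (2 ^ j * (1 - u))) (fun x => f x)) := by
    intro j
    refine TR_cont _ ((bump_cont hψ).comp (by fun_prop)) (fun u hu => bump_zero hψ ?_) _ hfi
    have : (0 : ℝ) < 2 ^ j := by positivity
    nlinarith
  set P : ℕ → E (k + m) → ℂ := fun J x => ∑ j ∈ Finset.range J,
    (((2 : ℝ) ^ (-(δ * j)) : ℝ) : ℂ) * TR (k + m) (fun u => ψ (2 ^ j * (1 - u))) (fun x => f x) x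
    with hP
  have hPm : ∀ J, AEStronglyMeasurable (P J) volume := by
    intro J
    have : Continuous (P J) := by
      rw [hP]
      exact continuous_finsetSum _ fun j _ => continuous_const.mul (hTc j)
    exact this.aestronglyMeasurable
  have hPlim : ∀ x, Tendsto (fun J => P J x) atTop (𝓝 (∫ ξ : E (k + m),
        (((max (1 - ‖ξ‖ ^ 2) 0) ^ δ : ℝ) : ℂ) * fh (fun x => f x) ξ * e (⟪x, ξ⟫ : ℝ))) := fun x =>
    (hasSum_pieces δ hδ ψ hψ hd (fun x => f x) hfi x).tendsto_sum_nat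
  have hlim := Lp.eLpNorm_lim_le_liminf_eLpNorm (p := ENNReal.ofReal p) hPm _
    (Filter.Eventually.of_forall hPlim)
  refine hlim.trans ?_
  refine liminf_le_of_le (by isBoundedDefault) ?_
  intro b hb'
  obtain ⟨J, hJ⟩ := hb'.exists
  refine hJ.trans ?_
  calc eLpNorm (P J) (ENNReal.ofReal p) volume
      ≤ ∑ j ∈ Finset.range J, eLpNorm (fun x => (((2 : ℝ) ^ (-(δ * j)) : ℝ) : ℂ) *
          TR (k + m) (fun u => ψ (2 ^ j * (1 - u))) (fun x => f x) x) (ENNReal.ofReal p) volume := by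
        have h := eLpNorm_sum_le (μ := (volume : Measure (E (k + m)))) (p := ENNReal.ofReal p)
          (f := fun (j : ℕ) (x : E (k + m)) => (((2 : ℝ) ^ (-(δ * j)) : ℝ) : ℂ) *
          TR (k + m) (fun u => ψ (2 ^ j * (1 - u))) (fun x => f x) x) (s := Finset.range J)
          (fun j _ => (continuous_const.mul (hTc j)).aestronglyMeasurable) hp1
        have e2 : (∑ j ∈ Finset.range J, fun (x : E (k + m)) => (((2 : ℝ) ^ (-(δ * j)) : ℝ) : ℂ) *
          TR (k + m) (fun u => ψ (2 ^ j * (1 - u))) (fun x => f x) x) = P J := by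
          funext x; rw [Finset.sum_apply]
        rw [e2] at h
        exact h
    _ ≤ ∑ j ∈ Finset.range J, ENNReal.ofReal ((2 : ℝ) ^ (-(δ * j)) * a j) * N := by
        refine Finset.sum_le_sum fun j _ => ?_
        have h := eLpNorm_const_smul (((2 : ℝ) ^ (-(δ * j)) : ℝ) : ℂ)
          (TR (k + m) (fun u => ψ (2 ^ j * (1 - u))) (fun x => f x)) (ENNReal.ofReal p)
          (volume : Measure (E (k + m)))
        have e3 : ‖(((2 : ℝ) ^ (-(δ * j)) : ℝ) : ℂ)‖ₑ = ENNReal.ofReal ((2 : ℝ) ^ (-(δ * j))) := by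
          rw [← ofReal_norm, Complex.norm_real, Real.norm_of_nonneg (h2n j)]
        rw [e3] at h
        refine (le_of_eq h).trans ?_
        rw [ENNReal.ofReal_mul (h2n j), mul_assoc]
        gcongr
        exact hpiece j f hf
    _ = ENNReal.ofReal (∑ j ∈ Finset.range J, (2 : ℝ) ^ (-(δ * j)) * a j) * N := by
        rw [← Finset.sum_mul, ENNReal.ofReal_sum_of_nonneg]
        intro j _; exact mul_nonneg (h2n j) (ha0 j)
    _ ≤ ENNReal.ofReal (∑' j : ℕ, (2 : ℝ) ^ (-(δ * j)) * a j) * N := by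
        gcongr
        exact hsum.sum_le_tsum _ fun j _ => mul_nonneg (h2n j) (ha0 j)

end CoreAux

end Pool.Agent.H438R2.RZ
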