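import Mathlib
import Pool.Agent.H438R2.RZ.K0
import Pool.Agent.H438R2.RZ.K1
import Pool.Agent.H438R2.RZ.K2
import Pool.Agent.H438R2.RZ.K3
set_option autoImplicit false

/-! # Task K4, part A: abstract criterion with asymptotic expansion -/

namespace Pool.Agent.H438R2.RZ.K4aux

open MeasureTheory Set Complex Filter
open scoped ENNReal Topology

/-- if the derivative has integrable derivative and the function tends to `0` then the derivative
tends to `0` -/
theorem lim0 (f f' f'' : ℝ → ℂ) (h1 : ∀ t : ℝ, 0 < t → HasDerivAt f (f' t) t)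
    (h2 : ∀ t : ℝ, 0 < t → HasDerivAt f' (f'' t) t) (h3 : IntegrableOn f'' (Ioi 0))
    (h4 : Tendsto f atTop (𝓝 0)) : Tendsto f' atTop (𝓝 0) := by
  have hl := tendsto_limUnder_of_hasDerivAt_of_integrableOn_Ioi (a := 0) h2 h3
  set l := limUnder atTop f' with hldef
  have hz : l = 0 := by
    by_contra hne
    have hpos : 0 < ‖l‖ := norm_pos_iff.2 hne
    have e1 : ∀ᶠ s in atTop, ‖f' s - l‖ ≤ ‖l‖ / 2 := by
      have := (Metric.tendsto_nhds.1 hl) (‖l‖ / 2) (by positivity)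
      filter_upwards [this] with s hs
      rw [dist_eq_norm] at hs
      exact hs.le
    have e2 : ∀ᶠ s in atTop, ‖f s‖ ≤ 1 := by
      have := (Metric.tendsto_nhds.1 h4) 1 one_pos
      filter_upwards [this] with s hs
      rw [dist_zero_right] at hs
      exact hs.le
    obtain ⟨T, hT⟩ := eventually_atTop.1 (e1.and (e2.and (eventually_gt_atTop 0)))
    have hM : ∀ M : ℝ, 0 ≤ M → ‖l‖ / 2 * M ≤ 2 := by
      intro M hM
      have hmv := (convex_Ici T).norm_image_sub_le_of_norm_hasDerivWithin_le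
        (f := fun s => f s - (s : ℂ) * l) (f' := fun s => f' s - l) (C := ‖l‖ / 2)
        (x := T) (y := T + M)
        (fun x hx => by
          have hx0 := (hT x hx).2.2
          have hd : HasDerivAt (fun s : ℝ => f s - (s : ℂ) * l) (f' x - 1 * l) x :=
            (h1 x hx0).sub ((Complex.ofRealCLM.hasDerivAt (x := x)).mul_const l)
          rw [one_mul] at hd
          exact hd.hasDerivWithinAt)
        (fun x hx => (hT x hx).1) self_mem_Ici (mem_Ici.2 (by linarith))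
      have e3 : ‖f (T + M) - f T - (M : ℂ) * l‖ ≤ ‖l‖ / 2 * M := by
        have h5 : f (T + M) - ((T + M : ℝ) : ℂ) * l - (f T - (T : ℂ) * l) =
            f (T + M) - f T - (M : ℂ) * l := by push_cast; ring
        rw [h5, Real.norm_eq_abs, add_sub_cancel_left, abs_of_nonneg hM] at hmv
        exact hmv
      have e4 : ‖(M : ℂ) * l‖ = M * ‖l‖ := by
        rw [norm_mul, Complex.norm_real, Real.norm_of_nonneg hM]
      have e5 : ‖(M : ℂ) * l‖ ≤ ‖f (T + M) - f T - (M : ℂ) * l‖ + ‖f (T + M)‖ + ‖f T‖ := by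
        have h6 : (M : ℂ) * l = -(f (T + M) - f T - (M : ℂ) * l) + f (T + M) - f T := by ring
        calc ‖(M : ℂ) * l‖ = ‖-(f (T + M) - f T - (M : ℂ) * l) + f (T + M) - f T‖ := by rw [← h6]
          _ ≤ ‖-(f (T + M) - f T - (M : ℂ) * l) + f (T + M)‖ + ‖f T‖ := norm_sub_le _ _
          _ ≤ ‖-(f (T + M) - f T - (M : ℂ) * l)‖ + ‖f (T + M)‖ + ‖f T‖ :=
              add_le_add_left (norm_add_le _ _) _
          _ = _ := by rw [norm_neg]
      have e6 := (hT (T + M) (by linarith)).2.1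
      have e7 := (hT T le_rfl).2.1
      rw [e4] at e5
      nlinarith
    have := hM (8 / ‖l‖) (by positivity)
    have e8 : ‖l‖ / 2 * (8 / ‖l‖) = 4 := by field_simp; norm_num
    rw [e8] at this
    norm_num at this
  rw [hz] at hl
  exact hl

/-- `1 - 2 pi i t` -/
noncomputable def dn (t : ℝ) : ℂ := 1 - 2 * Real.pi * t * I

theorem dn_sq (t : ℝ) : ‖dn t‖ ^ 2 = 1 + (2 * Real.pi * t) ^ 2 := by
  unfold dn
  rw [← Complex.normSq_eq_norm_sq, Complex.normSq_apply]
  simp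
  ring

theorem dn_ge (t : ℝ) : 1 + t ^ 2 ≤ ‖dn t‖ ^ 2 := by
  rw [dn_sq]
  have h1 : (1 : ℝ) ≤ (2 * Real.pi) ^ 2 := by nlinarith [Real.pi_gt_three]
  nlinarith [sq_nonneg t]

theorem dn_one (t : ℝ) : 1 ≤ ‖dn t‖ := by
  have h1 := dn_ge t
  by_contra h
  push Not at h
  have h2 : ‖dn t‖ ^ 2 < 1 := by
    have := norm_nonneg (dn t)
    nlinarith
  nlinarith [sq_nonneg t]

theorem dn_ne (t : ℝ) : dn t ≠ 0 := by
  intro h
  have := dn_one t
  rw [h, norm_zero] at this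
  linarith

/-- `2 pi i` -/
noncomputable def wc : ℂ := 2 * Real.pi * I

theorem wc_sq : wc ^ 2 = -(2 * Real.pi) ^ 2 := by
  unfold wc
  have : (2 * (Real.pi : ℂ) * I) ^ 2 = (2 * Real.pi) ^ 2 * I ^ 2 := by ring
  rw [this, I_sq]
  ring

theorem norm_e (t : ℝ) : ‖e t‖ = 1 := by
  unfold e
  exact Complex.norm_exp_ofReal_mul_I _

theorem e_eq (t : ℝ) : e t = Complex.exp (wc * t) := by
  unfold e wc
  congr 1
  push_cast
  ring

theorem e_deriv (t : ℝ) : HasDerivAt e (wc * e t) t := by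
  have h1 : HasDerivAt (fun s : ℝ => wc * (s : ℂ)) (wc * 1) t :=
    (Complex.ofRealCLM.hasDerivAt (x := t)).const_mul wc
  have h2 := h1.cexp
  have h3 : (fun s : ℝ => Complex.exp (wc * (s : ℂ))) = e := by
    funext s; rw [e_eq]
  rw [h3, mul_one, ← e_eq] at h2
  rw [mul_comm]
  exact h2

theorem en_deriv (t : ℝ) : HasDerivAt (fun s => e (-s)) (-wc * e (-t)) t := by
  have h := (e_deriv (-t)).scomp t (hasDerivAt_neg t)
  have h2 : HasDerivAt (fun s => e (-s)) ((-1 : ℝ) • (wc * e (-t))) t := h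
  have h3 : (-1 : ℝ) • (wc * e (-t)) = -wc * e (-t) := by
    rw [Complex.real_smul]; push_cast; ring
  rw [h3] at h2
  exact h2

theorem dn_deriv (t : ℝ) : HasDerivAt dn (-wc) t := by
  have h1 : HasDerivAt (fun s : ℝ => 1 - wc * (s : ℂ)) (-(wc * 1)) t :=
    ((Complex.ofRealCLM.hasDerivAt (x := t)).const_mul wc).const_sub 1
  have h3 : (fun s : ℝ => 1 - wc * (s : ℂ)) = dn := by
    funext s; unfold dn wc; ring
  rw [h3, mul_one] at h1
  exact h1

theorem hdc {f : ℝ → ℂ} {a b : ℂ} {t : ℝ} (h : HasDerivAt f a t) (e : a = b) : HasDerivAt f b t :=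
  e ▸ h

theorem e_cont : Continuous e := continuous_iff_continuousAt.2 fun t => (e_deriv t).continuousAt
theorem en_cont : Continuous (fun s => e (-s)) := e_cont.comp continuous_neg
theorem dn_cont : Continuous dn := continuous_iff_continuousAt.2 fun t => (dn_deriv t).continuousAt

/-- the main part -/
noncomputable def S0 (A B A' B' : ℂ) (t : ℝ) : ℂ :=
  A * e t + B * e (-t) + A' * (e t / dn t) + B' * (e (-t) / dn t)

noncomputable def S1 (A B A' B' : ℂ) (t : ℝ) : ℂ :=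
  wc * (A * e t - B * e (-t) + A' * (e t / dn t + e t / dn t ^ 2) +
    B' * (-(e (-t) / dn t) + e (-t) / dn t ^ 2))

noncomputable def S2 (A B A' B' : ℂ) (t : ℝ) : ℂ :=
  wc ^ 2 * (A * e t + B * e (-t) + A' * (e t / dn t + 2 * (e t / dn t ^ 2) + 2 * (e t / dn t ^ 3)) +
    B' * (e (-t) / dn t - 2 * (e (-t) / dn t ^ 2) + 2 * (e (-t) / dn t ^ 3)))

theorem ed1 (t : ℝ) : HasDerivAt (fun s => e s / dn s) (wc * (e t / dn t + e t / dn t ^ 2)) t := by
  refine hdc ((e_deriv t).div (dn_deriv t) (dn_ne t)) ?_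
  have := dn_ne t
  field_simp
  ring

theorem ed2 (t : ℝ) : HasDerivAt (fun s => e s / dn s ^ 2)
    (wc * (e t / dn t ^ 2 + 2 * (e t / dn t ^ 3))) t := by
  refine hdc ((e_deriv t).div ((dn_deriv t).pow 2) (pow_ne_zero 2 (dn_ne t))) ?_
  have := dn_ne t
  field_simp
  ring

theorem en1 (t : ℝ) : HasDerivAt (fun s => e (-s) / dn s)
    (wc * (-(e (-t) / dn t) + e (-t) / dn t ^ 2)) t := by
  refine hdc ((en_deriv t).div (dn_deriv t) (dn_ne t)) ?_
  have := dn_ne t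
  field_simp
  ring

theorem en2 (t : ℝ) : HasDerivAt (fun s => e (-s) / dn s ^ 2)
    (wc * (-(e (-t) / dn t ^ 2) + 2 * (e (-t) / dn t ^ 3))) t := by
  refine hdc ((en_deriv t).div ((dn_deriv t).pow 2) (pow_ne_zero 2 (dn_ne t))) ?_
  have := dn_ne t
  field_simp
  ring

theorem S0_deriv (A B A' B' : ℂ) (t : ℝ) : HasDerivAt (S0 A B A' B') (S1 A B A' B' t) t := by
  refine hdc (((((e_deriv t).const_mul A).add ((en_deriv t).const_mul B)).add
    ((ed1 t).const_mul A')).add ((en1 t).const_mul B')) ?_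
  unfold S1
  ring

theorem S1_deriv (A B A' B' : ℂ) (t : ℝ) : HasDerivAt (S1 A B A' B') (S2 A B A' B' t) t := by
  refine hdc ((((((e_deriv t).const_mul A).sub ((en_deriv t).const_mul B)).add
    (((ed1 t).add (ed2 t)).const_mul A')).add (((en1 t).neg.add (en2 t)).const_mul B')).const_mul
    wc) ?_
  unfold S2
  ring

theorem S2_eq (A B A' B' : ℂ) (t : ℝ) : S2 A B A' B' t + (2 * Real.pi) ^ 2 * S0 A B A' B' t =
    wc ^ 2 * (A' * (2 * (e t / dn t ^ 2) + 2 * (e t / dn t ^ 3)) +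
      B' * (-(2 * (e (-t) / dn t ^ 2)) + 2 * (e (-t) / dn t ^ 3))) := by
  have h : ((2 * Real.pi : ℂ)) ^ 2 = -wc ^ 2 := by rw [wc_sq, neg_neg]
  rw [h]
  unfold S2 S0
  ring

theorem S0_le (A B A' B' : ℂ) (t : ℝ) : ‖S0 A B A' B' t‖ ≤ ‖A‖ + ‖B‖ + ‖A'‖ + ‖B'‖ := by
  have h1 : ‖e t / dn t‖ ≤ 1 := by
    rw [norm_div, norm_e]
    exact (div_le_one (by linarith [dn_one t])).2 (dn_one t)
  have h2 : ‖e (-t) / dn t‖ ≤ 1 := by
    rw [norm_div, norm_e]
    exact (div_le_one (by linarith [dn_one t])).2 (dn_one t)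
  unfold S0
  refine (norm_add_le _ _).trans (add_le_add ((norm_add_le _ _).trans (add_le_add
    ((norm_add_le _ _).trans (add_le_add ?_ ?_)) ?_)) ?_)
  · rw [norm_mul, norm_e, mul_one]
  · rw [norm_mul, norm_e, mul_one]
  · rw [norm_mul]; exact mul_le_of_le_one_right (norm_nonneg _) h1
  · rw [norm_mul]; exact mul_le_of_le_one_right (norm_nonneg _) h2

theorem q_le (x : ℝ) (t : ℝ) (n : ℕ) (hn : 2 ≤ n) : ‖e x / dn t ^ n‖ ≤ (1 + t ^ 2)⁻¹ := by
  rw [norm_div, norm_e, norm_pow, one_div]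
  apply inv_anti₀ (by positivity)
  exact (dn_ge t).trans (pow_le_pow_right₀ (dn_one t) hn)

theorem S2_le (A B A' B' : ℂ) (t : ℝ) :
    ‖S2 A B A' B' t + (2 * Real.pi) ^ 2 * S0 A B A' B' t‖ ≤
      (‖wc ^ 2‖ * (4 * ‖A'‖ + 4 * ‖B'‖)) * (1 + t ^ 2)⁻¹ := by
  rw [S2_eq, norm_mul, mul_assoc]
  refine mul_le_mul_of_nonneg_left ?_ (norm_nonneg _)
  have a1 := q_le t t 2 le_rfl
  have a2 := q_le t t 3 (by norm_num)
  have b1 := q_le (-t) t 2 le_rfl
  have b2 := q_le (-t) t 3 (by norm_num)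
  have n2 : ‖(2 : ℂ)‖ = 2 := by simp
  have c1 : ‖2 * (e t / dn t ^ 2) + 2 * (e t / dn t ^ 3)‖ ≤ 4 * (1 + t ^ 2)⁻¹ := by
    refine (norm_add_le _ _).trans ?_
    rw [norm_mul, norm_mul, n2]
    linarith
  have c2 : ‖-(2 * (e (-t) / dn t ^ 2)) + 2 * (e (-t) / dn t ^ 3)‖ ≤ 4 * (1 + t ^ 2)⁻¹ := by
    refine (norm_add_le _ _).trans ?_
    rw [norm_neg, norm_mul, norm_mul, n2]
    linarith
  refine (norm_add_le _ _).trans ?_
  rw [norm_mul, norm_mul]
  have d1 := mul_le_mul_of_nonneg_left c1 (norm_nonneg A')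
  have d2 := mul_le_mul_of_nonneg_left c2 (norm_nonneg B')
  calc _ ≤ ‖A'‖ * (4 * (1 + t ^ 2)⁻¹) + ‖B'‖ * (4 * (1 + t ^ 2)⁻¹) := add_le_add d1 d2
    _ = _ := by ring

theorem cont_Ioi (g g' : ℝ → ℂ) (h : ∀ t : ℝ, 0 < t → HasDerivAt g (g' t) t) :
    ContinuousOn g (Ioi 0) := fun t ht => (h t ht).continuousAt.continuousWithinAt

theorem S0_cont (A B A' B' : ℂ) : Continuous (S0 A B A' B') :=
  continuous_iff_continuousAt.2 fun t => (S0_deriv A B A' B' t).continuousAt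

theorem S1_cont (A B A' B' : ℂ) : Continuous (S1 A B A' B') :=
  continuous_iff_continuousAt.2 fun t => (S1_deriv A B A' B' t).continuousAt

theorem S2_cont (A B A' B' : ℂ) : Continuous (S2 A B A' B') := by
  have h0 := e_cont
  have h1 := en_cont
  have h2 := dn_cont
  have h3 : ∀ t n, dn t ^ n ≠ 0 := fun t n => pow_ne_zero n (dn_ne t)
  unfold S2
  refine continuous_const.mul ((((continuous_const.mul h0).add (continuous_const.mul h1)).add
    (continuous_const.mul (((h0.div h2 dn_ne).add (continuous_const.mul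
      (h0.div (h2.pow 2) fun t => h3 t 2))).add (continuous_const.mul
      (h0.div (h2.pow 3) fun t => h3 t 3))))).add
    (continuous_const.mul (((h1.div h2 dn_ne).sub (continuous_const.mul
      (h1.div (h2.pow 2) fun t => h3 t 2))).add (continuous_const.mul
      (h1.div (h2.pow 3) fun t => h3 t 3)))))

/-- the abstract criterion -/
theorem crit2 (κ κ' κ'' : ℝ → ℂ) (A B A' B' c0 c1 : ℂ) (C : ℝ)
    (h1 : ∀ t : ℝ, 0 < t → HasDerivAt κ (κ' t) t)
    (h2 : ∀ t : ℝ, 0 < t → HasDerivAt κ' (κ'' t) t)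
    (h3 : Tendsto κ (𝓝[>] 0) (𝓝 c0)) (h4 : Tendsto κ' (𝓝[>] 0) (𝓝 c1))
    (h5 : ∀ t : ℝ, 0 < t → ‖κ t‖ ≤ C)
    (h6 : ∀ t : ℝ, 1 ≤ t → ‖κ t - S0 A B A' B' t‖ ≤ C / t ^ 2)
    (h7 : IntegrableOn (fun t => κ'' t + (2 * Real.pi) ^ 2 * κ t) (Ioi 0)) : Adm κ := by
  set M : ℝ := ‖A‖ + ‖B‖ + ‖A'‖ + ‖B'‖ with hM
  have hM0 : 0 ≤ M := by positivity
  have hC0 : 0 ≤ C := (norm_nonneg _).trans (h5 1 one_pos)
  have d1 : ∀ t : ℝ, 0 < t → HasDerivAt (fun s => κ s - S0 A B A' B' s) (κ' t - S1 A B A' B' t) t :=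
    fun t ht => (h1 t ht).sub (S0_deriv A B A' B' t)
  have d2 : ∀ t : ℝ, 0 < t → HasDerivAt (fun s => κ' s - S1 A B A' B' s)
      (κ'' t - S2 A B A' B' t) t := fun t ht => (h2 t ht).sub (S1_deriv A B A' B' t)
  have hbd : ∀ t : ℝ, 0 < t → ‖κ t - S0 A B A' B' t‖ ≤ (2 * (C + M)) * (1 + t ^ 2)⁻¹ := by
    intro t ht
    rw [← div_eq_mul_inv, le_div_iff₀ (by positivity)]
    rcases le_total t 1 with h | h
    · have e1 : ‖κ t - S0 A B A' B' t‖ ≤ C + M :=
        (norm_sub_le _ _).trans (add_le_add (h5 t ht) (S0_le A B A' B' t))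
      have e2 : 1 + t ^ 2 ≤ 2 := by nlinarith
      calc ‖κ t - S0 A B A' B' t‖ * (1 + t ^ 2) ≤ (C + M) * 2 :=
            mul_le_mul e1 e2 (by positivity) (by positivity)
        _ = _ := by ring
    · have e1 := h6 t h
      have e2 : (1 : ℝ) ≤ t ^ 2 := by nlinarith
      calc ‖κ t - S0 A B A' B' t‖ * (1 + t ^ 2) ≤ (C / t ^ 2) * (1 + t ^ 2) :=
            mul_le_mul_of_nonneg_right e1 (by positivity)
        _ ≤ (C / t ^ 2) * (2 * t ^ 2) := mul_le_mul_of_nonneg_left (by linarith) (by positivity)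
        _ = 2 * C := by field_simp
        _ ≤ _ := by linarith
  have hint0 : Integrable (fun t : ℝ => (1 + t ^ 2)⁻¹) := integrable_inv_one_add_sq
  have cf : ContinuousOn (fun t => κ t - S0 A B A' B' t) (Ioi 0) := cont_Ioi _ _ d1
  have i5 : IntegrableOn (fun t => κ t - S0 A B A' B' t) (Ioi 0) := by
    refine Integrable.mono' ((hint0.const_mul (2 * (C + M))).integrableOn)
      (cf.aestronglyMeasurable measurableSet_Ioi) ?_
    exact (ae_restrict_iff' measurableSet_Ioi).2 (Eventually.of_forall fun t ht => hbd t ht)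
  have i6' : IntegrableOn (fun t => S2 A B A' B' t + (2 * Real.pi) ^ 2 * S0 A B A' B' t)
      (Ioi 0) := by
    refine (Integrable.mono' (hint0.const_mul (‖wc ^ 2‖ * (4 * ‖A'‖ + 4 * ‖B'‖)))
      ((S2_cont A B A' B').add (continuous_const.mul
        (S0_cont A B A' B'))).aestronglyMeasurable ?_).integrableOn
    exact Eventually.of_forall fun t => S2_le A B A' B' t
  have i6 : IntegrableOn (fun t => (κ'' t - S2 A B A' B' t) +
      (2 * Real.pi) ^ 2 * (κ t - S0 A B A' B' t)) (Ioi 0) := by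
    refine (h7.sub i6').congr_fun (fun t _ => ?_) measurableSet_Ioi
    simp only [Pi.sub_apply]
    ring
  have t7 : Tendsto (fun t => κ t - S0 A B A' B' t) atTop (𝓝 0) := by
    rw [tendsto_zero_iff_norm_tendsto_zero]
    have hlim : Tendsto (fun t : ℝ => (2 * (C + M)) * (1 + t ^ 2)⁻¹) atTop (𝓝 0) := by
      have : Tendsto (fun t : ℝ => 1 + t ^ 2) atTop atTop :=
        tendsto_atTop_add_const_left _ _ (tendsto_pow_atTop two_ne_zero)
      simpa using this.inv_tendsto_atTop.const_mul (2 * (C + M))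
    refine squeeze_zero' (Eventually.of_forall fun t => norm_nonneg _) ?_ hlim
    filter_upwards [eventually_gt_atTop 0] with t ht using hbd t ht
  have i8 : IntegrableOn (fun t => κ'' t - S2 A B A' B' t) (Ioi 0) := by
    refine (i6.sub (i5.const_mul ((2 * Real.pi : ℂ) ^ 2))).congr_fun (fun t _ => ?_)
      measurableSet_Ioi
    simp only [Pi.sub_apply]
    ring
  have t8 := lim0 _ _ _ d1 d2 i8 t7
  have hS0 : Tendsto (S0 A B A' B') (𝓝[>] 0) (𝓝 (S0 A B A' B' 0)) :=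
    ((S0_cont A B A' B').tendsto 0).mono_left nhdsWithin_le_nhds
  have hS1 : Tendsto (S1 A B A' B') (𝓝[>] 0) (𝓝 (S1 A B A' B' 0)) :=
    ((S1_cont A B A' B').tendsto 0).mono_left nhdsWithin_le_nhds
  have hA := adm_crit_of (fun w hw hw2 h => adm_density w hw hw2 h) (fun t => κ t - S0 A B A' B' t) (fun t => κ' t - S1 A B A' B' t)
    (fun t => κ'' t - S2 A B A' B' t) _ _ d1 d2 (h3.sub hS0) (h4.sub hS1) i5 i6 t7 t8
  have hB := adm_add hA (adm_add (adm_smul A adm_exp_pos) (adm_add (adm_smul B adm_exp_neg)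
    (adm_add (adm_smul A' adm_exp_div_pos) (adm_smul B' adm_exp_div_neg))))
  refine adm_congr hB fun t _ => ?_
  unfold S0 dn
  ring

end Pool.Agent.H438R2.RZ.K4aux
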