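import Pool.Agent.H438R2.RZ.K4a
import Pool.Agent.H438R2.BR.T1
import Pool.Agent.H438R2.ZD.Z1
set_option autoImplicit false

/-! # Task K4, part B: the Bessel kernels -/

namespace Pool.Agent.H438R2.RZ.K4aux

open MeasureTheory Set Complex Filter
open scoped ENNReal Topology
open Pool.Agent.H438R2.BR (Phi L)

/-- exponent -/
noncomputable def al (k : ℕ) : ℝ := ((k : ℝ) - 1) / 2

noncomputable def Phi1 (k : ℕ) (u : ℝ) : ℂ := -((u : ℂ) / ((k : ℂ) - 1)) * Phi (k + 2) u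

theorem Phi_d (k : ℕ) (hk : 2 ≤ k) (u : ℝ) : HasDerivAt (Phi k) (Phi1 k u) u := Phi_deriv k hk u

theorem Phi1_d (k : ℕ) (hk : 2 ≤ k) (u : ℝ) :
    HasDerivAt (Phi1 k) (Phi (k + 2) u - Phi k u) u := Phi_deriv2 k hk u

theorem Phi_c (k : ℕ) (hk : 2 ≤ k) : Continuous (Phi k) :=
  continuous_iff_continuousAt.2 fun t => (Phi_d k hk t).continuousAt

theorem Phi1_c (k : ℕ) (hk : 2 ≤ k) : Continuous (Phi1 k) :=
  continuous_iff_continuousAt.2 fun t => (Phi1_d k hk t).continuousAt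

noncomputable def P0 (k : ℕ) (u : ℝ) : ℂ := ((u ^ al k : ℝ) : ℂ) * Phi k u

noncomputable def P1 (k : ℕ) (u : ℝ) : ℂ :=
  ((al k * u ^ (al k - 1) : ℝ) : ℂ) * Phi k u + ((u ^ al k : ℝ) : ℂ) * Phi1 k u

noncomputable def P2 (k : ℕ) (u : ℝ) : ℂ :=
  ((al k * ((al k - 1) * u ^ (al k - 1 - 1)) : ℝ) : ℂ) * Phi k u - P0 k u

theorem P0_d (k : ℕ) (hk : 2 ≤ k) (u : ℝ) (hu : 0 < u) : HasDerivAt (P0 k) (P1 k u) u := by
  have h1 := (Real.hasDerivAt_rpow_const (x := u) (p := al k) (Or.inl hu.ne')).ofReal_comp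
  exact hdc (h1.mul (Phi_d k hk u)) rfl

theorem P1_d (k : ℕ) (hk : 2 ≤ k) (u : ℝ) (hu : 0 < u) : HasDerivAt (P1 k) (P2 k u) u := by
  have h1 := (Real.hasDerivAt_rpow_const (x := u) (p := al k) (Or.inl hu.ne')).ofReal_comp
  have h2 := ((Real.hasDerivAt_rpow_const (x := u) (p := al k - 1) (Or.inl hu.ne')).const_mul
    (al k)).ofReal_comp
  refine hdc ((h2.mul (Phi_d k hk u)).add (h1.mul (Phi1_d k hk u))) ?_
  unfold P2 P0
  have hk1 : (k : ℂ) - 1 ≠ 0 := by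
    have : (k : ℂ) ≠ 1 := by exact_mod_cast (by omega : k ≠ 1)
    exact sub_ne_zero.2 this
  have hu1 : u ^ (al k - 1) * u = u ^ al k := by
    rw [Real.rpow_sub_one hu.ne', div_mul_cancel₀ _ hu.ne']
  have hkey : 2 * (((al k * u ^ (al k - 1) : ℝ) : ℂ) * Phi1 k u) +
      ((u ^ al k : ℝ) : ℂ) * Phi (k + 2) u = 0 := by
    unfold Phi1
    rw [← hu1]
    have hal : ((al k : ℝ) : ℂ) = ((k : ℂ) - 1) / 2 := by unfold al; push_cast; ring
    push_cast
    rw [hal]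
    field_simp
    ring
  linear_combination hkey

noncomputable def K0 (k : ℕ) (t : ℝ) : ℂ := P0 k (2 * Real.pi * t)
noncomputable def K1 (k : ℕ) (t : ℝ) : ℂ := (2 * Real.pi) * P1 k (2 * Real.pi * t)
noncomputable def K2 (k : ℕ) (t : ℝ) : ℂ := (2 * Real.pi) * ((2 * Real.pi) * P2 k (2 * Real.pi * t))

theorem scale_d {f : ℝ → ℂ} {a : ℂ} (t : ℝ) (h : HasDerivAt f a (2 * Real.pi * t)) :
    HasDerivAt (fun s => f (2 * Real.pi * s)) ((2 * Real.pi) * a) t := by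
  have h1 : HasDerivAt (fun s : ℝ => 2 * Real.pi * s) (2 * Real.pi * 1) t :=
    (hasDerivAt_id t).const_mul _
  have h2 : HasDerivAt (fun s => f (2 * Real.pi * s)) ((2 * Real.pi * 1 : ℝ) • a) t :=
    HasDerivAt.scomp t h h1
  refine hdc h2 ?_
  rw [Complex.real_smul]
  push_cast
  ring

theorem tp_pos {t : ℝ} (ht : 0 < t) : 0 < 2 * Real.pi * t := by
  have := Real.pi_pos
  positivity

theorem t_le_u {t : ℝ} (ht : 0 ≤ t) : t ≤ 2 * Real.pi * t := by
  have := Real.pi_gt_three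
  nlinarith

theorem K0_d (k : ℕ) (hk : 2 ≤ k) (t : ℝ) (ht : 0 < t) : HasDerivAt (K0 k) (K1 k t) t :=
  scale_d t (P0_d k hk _ (tp_pos ht))

theorem K1_d (k : ℕ) (hk : 2 ≤ k) (t : ℝ) (ht : 0 < t) : HasDerivAt (K1 k) (K2 k t) t :=
  (scale_d t (P1_d k hk _ (tp_pos ht))).const_mul _

/-- the inhomogeneity -/
noncomputable def X (k : ℕ) (u : ℝ) : ℂ :=
  ((al k * ((al k - 1) * u ^ (al k - 1 - 1)) : ℝ) : ℂ) * Phi k u

theorem K2_eq (k : ℕ) (t : ℝ) : K2 k t + (2 * Real.pi) ^ 2 * K0 k t =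
    (2 * Real.pi) ^ 2 * X k (2 * Real.pi * t) := by
  unfold K2 P2 K0 X
  ring

theorem al_pos (k : ℕ) (hk : 2 ≤ k) : 1 / 2 ≤ al k := by
  have : (2 : ℝ) ≤ k := by exact_mod_cast hk
  unfold al
  linarith

theorem Phi_b (k : ℕ) (hk : 2 ≤ k) : ∃ C : ℝ, 0 < C ∧ ∀ u : ℝ, 0 < u →
    ‖Phi k u‖ ≤ C ∧ u ^ al k * ‖Phi k u‖ ≤ C := by
  obtain ⟨C, hC, h⟩ := Pool.Agent.H438R2.ZD.Phi_decay k hk
  refine ⟨C, hC, fun u hu => ⟨(h u hu).trans (mul_le_of_le_one_right hC.le (min_le_left _ _)), ?_⟩⟩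
  have h1 : ‖Phi k u‖ ≤ C * u ^ (-al k) :=
    (h u hu).trans (mul_le_mul_of_nonneg_left (min_le_right _ _) hC.le)
  have h2 : 0 < u ^ al k := Real.rpow_pos_of_pos hu _
  calc u ^ al k * ‖Phi k u‖ ≤ u ^ al k * (C * u ^ (-al k)) := mul_le_mul_of_nonneg_left h1 h2.le
    _ = C * (u ^ al k * u ^ (-al k)) := by ring
    _ = C := by rw [← Real.rpow_add hu, add_neg_cancel, Real.rpow_zero, mul_one]

theorem K0_b (k : ℕ) (hk : 2 ≤ k) : ∃ C : ℝ, 0 < C ∧ ∀ t : ℝ, 0 < t → ‖K0 k t‖ ≤ C := by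
  obtain ⟨C, hC, h⟩ := Phi_b k hk
  refine ⟨C, hC, fun t ht => ?_⟩
  have h1 := (h _ (tp_pos ht)).2
  unfold K0 P0
  rw [norm_mul, Complex.norm_real, Real.norm_of_nonneg (Real.rpow_nonneg (tp_pos ht).le _)]
  exact h1

/-- `X` at infinity -/
theorem X_inf (k : ℕ) (hk : 2 ≤ k) : ∃ C : ℝ, 0 < C ∧ ∀ u : ℝ, 0 < u →
    ‖X k u‖ ≤ C / u ^ 2 := by
  obtain ⟨C, hC, h⟩ := Phi_b k hk
  refine ⟨|al k * (al k - 1)| * C + 1, by positivity, fun u hu => ?_⟩
  have h1 : u ^ (al k - 1 - 1) = u ^ al k / u ^ 2 := by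
    rw [Real.rpow_sub_one hu.ne', Real.rpow_sub_one hu.ne', div_div, sq]
  have h2 : 0 < u ^ al k := Real.rpow_pos_of_pos hu _
  have h3 : ‖X k u‖ = |al k * (al k - 1)| * (u ^ al k * ‖Phi k u‖) / u ^ 2 := by
    unfold X
    rw [norm_mul, Complex.norm_real, Real.norm_eq_abs, h1,
      show al k * ((al k - 1) * (u ^ al k / u ^ 2)) = (al k * (al k - 1)) * (u ^ al k / u ^ 2) by
        ring, abs_mul, abs_of_pos (div_pos h2 (by positivity))]
    ring
  rw [h3]
  apply div_le_div_of_nonneg_right _ (by positivity)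
  have := mul_le_mul_of_nonneg_left (h u hu).2 (abs_nonneg (al k * (al k - 1)))
  linarith

/-- `X` near `0`, `k ≥ 3` -/
theorem X_zero (k : ℕ) (hk : 3 ≤ k) : ∃ C : ℝ, 0 < C ∧ ∀ u : ℝ, 0 < u → u ≤ 1 →
    ‖X k u‖ ≤ C * u ^ (-(1 / 2) : ℝ) := by
  obtain ⟨C, hC, h⟩ := Phi_b k (by omega)
  refine ⟨|al k * (al k - 1)| * C + 1, by positivity, fun u hu hu1 => ?_⟩
  have hp : 0 < u ^ (-(1 / 2) : ℝ) := Real.rpow_pos_of_pos hu _
  rcases Nat.lt_or_ge k 4 with h4 | h4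
  · have : k = 3 := by omega
    subst this
    have : al 3 - 1 = 0 := by unfold al; norm_num
    unfold X
    rw [this]
    simp only [zero_mul, mul_zero, Complex.ofReal_zero, norm_zero]
    positivity
  · have hk' : (4 : ℝ) ≤ k := by exact_mod_cast h4
    have hal : -(1 / 2) ≤ al k - 1 - 1 := by unfold al; linarith
    have h1 : u ^ (al k - 1 - 1) ≤ u ^ (-(1 / 2) : ℝ) :=
      Real.rpow_le_rpow_of_exponent_ge hu hu1 hal
    have h2 : 0 < u ^ (al k - 1 - 1) := Real.rpow_pos_of_pos hu _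
    have h3 : ‖X k u‖ = |al k * (al k - 1)| * (u ^ (al k - 1 - 1) * ‖Phi k u‖) := by
      unfold X
      rw [norm_mul, Complex.norm_real, Real.norm_eq_abs,
        show al k * ((al k - 1) * u ^ (al k - 1 - 1)) = (al k * (al k - 1)) * u ^ (al k - 1 - 1) by
          ring, abs_mul, abs_of_pos h2]
      ring
    rw [h3]
    have h5 : u ^ (al k - 1 - 1) * ‖Phi k u‖ ≤ u ^ (-(1 / 2) : ℝ) * C :=
      mul_le_mul h1 (h u hu).1 (norm_nonneg _) hp.le
    have h6 := mul_le_mul_of_nonneg_left h5 (abs_nonneg (al k * (al k - 1)))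
    nlinarith

theorem intdom (g : ℝ → ℂ) (C : ℝ) (hg : ContinuousOn g (Ioi 0))
    (h0 : ∀ t : ℝ, 0 < t → t ≤ 1 → ‖g t‖ ≤ C * t ^ (-(1 / 2) : ℝ))
    (h1 : ∀ t : ℝ, 1 ≤ t → ‖g t‖ ≤ C / t ^ 2) : IntegrableOn g (Ioi 0) := by
  rw [← Ioc_union_Ioi_eq_Ioi zero_le_one]
  refine IntegrableOn.union ?_ ?_
  · have hi : IntegrableOn (fun t : ℝ => t ^ (-(1 / 2) : ℝ)) (Ioc 0 1) :=
      (intervalIntegrable_iff_integrableOn_Ioc_of_le zero_le_one).1
        (intervalIntegral.intervalIntegrable_rpow' (by norm_num))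
    refine Integrable.mono' (hi.const_mul C)
      ((hg.mono Ioc_subset_Ioi_self).aestronglyMeasurable measurableSet_Ioc) ?_
    exact (ae_restrict_iff' measurableSet_Ioc).2 (Eventually.of_forall fun t ht => h0 t ht.1 ht.2)
  · have hi : IntegrableOn (fun t : ℝ => t ^ (-2 : ℝ)) (Ioi 1) :=
      integrableOn_Ioi_rpow_of_lt (by norm_num) one_pos
    refine Integrable.mono' (hi.const_mul C)
      ((hg.mono (Ioi_subset_Ioi zero_le_one)).aestronglyMeasurable measurableSet_Ioi) ?_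
    refine (ae_restrict_iff' measurableSet_Ioi).2 (Eventually.of_forall fun t ht => ?_)
    have ht' : (1 : ℝ) < t := ht
    have := h1 t ht'.le
    rw [Real.rpow_neg (by linarith), show (2 : ℝ) = ((2 : ℕ) : ℝ) by norm_num,
      Real.rpow_natCast, ← div_eq_mul_inv]
    exact this

/-- asymptotics -/
theorem asym (k : ℕ) (hk : 2 ≤ k) : ∃ (A B A' B' : ℂ) (C : ℝ), 0 < C ∧ ∀ t : ℝ, 1 ≤ t →
    ‖K0 k t - S0 A B A' B' t‖ ≤ C / t ^ 2 := by
  obtain ⟨c0, c1, C, hC, h⟩ := L_asym k hk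
  refine ⟨-I * c0, I * (starRingEnd ℂ) c0, -c1, (starRingEnd ℂ) c1, 2 * C + 2 * ‖c1‖,
    by positivity, fun t ht => ?_⟩
  have ht0 : 0 < t := by linarith
  set u : ℝ := 2 * Real.pi * t with hu
  have hu0 : 0 < u := tp_pos ht0
  have htu : t ≤ u := t_le_u ht0.le
  have hu1 : 1 ≤ u := by linarith
  have hL := h u hu1
  set r : ℂ := ((u ^ (((k : ℝ) - 1) / 2) : ℝ) : ℂ) * L k u - c0 - c1 / (u : ℂ) with hr
  have hphi := Pool.Agent.H438R2.BR.phi_laplace k hk u hu0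
  have huc : (u : ℂ) ≠ 0 := by exact_mod_cast hu0.ne'
  have hdn : dn t = 1 - (u : ℂ) * I := by
    unfold dn; rw [hu]; push_cast; ring
  have he : e t = Complex.exp ((u : ℂ) * I) := by
    unfold e; rw [hu]
  have hen : e (-t) = Complex.exp (-((u : ℂ) * I)) := by
    unfold e
    congr 1
    rw [hu]; push_cast; ring
  have hU : ((u ^ al k : ℝ) : ℂ) * L k u = c0 + c1 / (u : ℂ) + r := by
    rw [hr]; unfold al; ring
  have hUc : ((u ^ al k : ℝ) : ℂ) * (starRingEnd ℂ) (L k u) =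
      (starRingEnd ℂ) c0 + (starRingEnd ℂ) c1 / (u : ℂ) + (starRingEnd ℂ) r := by
    have := congrArg (starRingEnd ℂ) hU
    simp only [map_mul, map_add, map_div₀, Complex.conj_ofReal] at this
    exact this
  have hK : K0 k t = -I * e t * (c0 + c1 / (u : ℂ) + r) +
      I * e (-t) * ((starRingEnd ℂ) c0 + (starRingEnd ℂ) c1 / (u : ℂ) + (starRingEnd ℂ) r) := by
    rw [← hU, ← hUc, he, hen]
    unfold K0 P0
    rw [← hu, hphi]
    ring
  have hne : (1 - (u : ℂ) * I) ≠ 0 := by rw [← hdn]; exact dn_ne t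
  have hdiff : K0 k t - S0 (-I * c0) (I * (starRingEnd ℂ) c0) (-c1) ((starRingEnd ℂ) c1) t =
      -I * e t * r + I * e (-t) * (starRingEnd ℂ) r +
      -I * e t * c1 * (1 / ((u : ℂ) * dn t)) +
      I * e (-t) * (starRingEnd ℂ) c1 * (1 / ((u : ℂ) * dn t)) := by
    rw [hK]
    unfold S0
    have hinv : 1 / dn t = I / (u : ℂ) - I * (1 / ((u : ℂ) * dn t)) := by
      rw [hdn]
      field_simp
      linear_combination (u : ℂ) * I_sq
    have e1 : e t / dn t = e t * (1 / dn t) := by ring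
    have e2 : e (-t) / dn t = e (-t) * (1 / dn t) := by ring
    rw [e1, e2, hinv]
    ring
  rw [hdiff]
  have hq : ‖1 / ((u : ℂ) * dn t)‖ ≤ 1 / t ^ 2 := by
    rw [norm_div, norm_mul, norm_one, Complex.norm_real, Real.norm_of_nonneg hu0.le]
    apply one_div_le_one_div_of_le (by positivity)
    have h3 : u ≤ ‖dn t‖ := by
      have h4 := dn_sq t
      rw [← hu] at h4
      exact abs_le_of_sq_le_sq' (by linarith) (norm_nonneg _) |>.2
    calc t ^ 2 = t * t := sq t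
      _ ≤ u * ‖dn t‖ := mul_le_mul htu (htu.trans h3) ht0.le hu0.le
  have hr2 : ‖r‖ ≤ C / t ^ 2 := by
    refine hL.trans ?_
    exact div_le_div_of_nonneg_left hC.le (by positivity) (pow_le_pow_left₀ ht0.le htu 2)
  have n1 : ‖-I * e t * r‖ ≤ C / t ^ 2 := by
    rw [norm_mul, norm_mul, norm_neg, norm_I, norm_e, one_mul, one_mul]; exact hr2
  have n2 : ‖I * e (-t) * (starRingEnd ℂ) r‖ ≤ C / t ^ 2 := by
    rw [norm_mul, norm_mul, norm_I, norm_e, one_mul, one_mul, RCLike.norm_conj]; exact hr2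
  have n3 : ‖-I * e t * c1 * (1 / ((u : ℂ) * dn t))‖ ≤ ‖c1‖ * (1 / t ^ 2) := by
    rw [norm_mul, norm_mul, norm_mul, norm_neg, norm_I, norm_e, one_mul, one_mul]
    exact mul_le_mul_of_nonneg_left hq (norm_nonneg _)
  have n4 : ‖I * e (-t) * (starRingEnd ℂ) c1 * (1 / ((u : ℂ) * dn t))‖ ≤ ‖c1‖ * (1 / t ^ 2) := by
    rw [norm_mul, norm_mul, norm_mul, norm_I, norm_e, one_mul, one_mul, RCLike.norm_conj]
    exact mul_le_mul_of_nonneg_left hq (norm_nonneg _)
  refine (norm_add_le _ _).trans ((add_le_add ((norm_add_le _ _).trans (add_le_add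
    ((norm_add_le _ _).trans (add_le_add n1 n2)) n3)) n4).trans (le_of_eq ?_))
  ring

theorem rpow_cont {b : ℝ} (hb : 0 ≤ b) : Continuous (fun t : ℝ => (2 * Real.pi * t) ^ b) :=
  (Real.continuous_rpow_const hb).comp (continuous_const.mul continuous_id)

theorem K0_c (k : ℕ) (hk : 2 ≤ k) : Continuous (K0 k) := by
  have h1 := al_pos k hk
  exact (Complex.continuous_ofReal.comp (rpow_cont (by linarith))).mul
    ((Phi_c k hk).comp (continuous_const.mul continuous_id))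

theorem X_cont (k : ℕ) (hk : 2 ≤ k) : ContinuousOn (fun t => X k (2 * Real.pi * t)) (Ioi 0) := by
  intro t ht
  have ht' : (0 : ℝ) < t := ht
  refine ContinuousAt.continuousWithinAt ?_
  unfold X
  refine ContinuousAt.mul ?_ ((Phi_c k hk).comp (continuous_const.mul continuous_id)).continuousAt
  refine Complex.continuous_ofReal.continuousAt.comp ?_
  refine continuousAt_const.mul (continuousAt_const.mul ?_)
  exact ContinuousAt.rpow_const (continuous_const.mul continuous_id).continuousAt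
    (Or.inl (tp_pos ht').ne')

/-- the case `k ≥ 3` -/
theorem adm3 (k : ℕ) (hk : 3 ≤ k) : Adm (K0 k) := by
  have hk2 : 2 ≤ k := by omega
  obtain ⟨A, B, A', B', C, hC, ha⟩ := asym k hk2
  obtain ⟨C2, hC2, hb⟩ := K0_b k hk2
  obtain ⟨C3, hC3, hX⟩ := X_inf k hk2
  obtain ⟨C4, hC4, hX0⟩ := X_zero k hk
  have hal : 1 ≤ al k := by
    have : (3 : ℝ) ≤ k := by exact_mod_cast hk
    unfold al; linarith
  have hK1c : Continuous (K1 k) := by
    unfold K1 P1
    refine continuous_const.mul (Continuous.add ?_ ?_)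
    · exact (Complex.continuous_ofReal.comp (continuous_const.mul
        (rpow_cont (by linarith)))).mul ((Phi_c k hk2).comp (continuous_const.mul continuous_id))
    · exact (Complex.continuous_ofReal.comp (rpow_cont (by linarith))).mul
        ((Phi1_c k hk2).comp (continuous_const.mul continuous_id))
  refine crit2 (K0 k) (K1 k) (K2 k) A B A' B' (K0 k 0) (K1 k 0) (C + C2)
    (K0_d k hk2) (K1_d k hk2) (((K0_c k hk2).tendsto 0).mono_left nhdsWithin_le_nhds)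
    ((hK1c.tendsto 0).mono_left nhdsWithin_le_nhds) (fun t ht => (hb t ht).trans (by linarith))
    (fun t ht => (ha t ht).trans ?_) ?_
  · exact div_le_div_of_nonneg_right (by linarith) (by positivity)
  · have e1 : (fun t => K2 k t + (2 * Real.pi) ^ 2 * K0 k t) =
        fun t => (2 * Real.pi : ℂ) ^ 2 * X k (2 * Real.pi * t) := by
      funext t; exact K2_eq k t
    rw [e1]
    refine Integrable.const_mul ?_ _
    refine intdom _ (C3 + C4) (X_cont k hk2) (fun t ht ht1 => ?_) (fun t ht => ?_)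
    · have htu := t_le_u ht.le
      have hu0 := tp_pos ht
      have hp : 0 < t ^ (-(1 / 2) : ℝ) := Real.rpow_pos_of_pos ht _
      rcases le_total (2 * Real.pi * t) 1 with h | h
      · refine (hX0 _ hu0 h).trans ?_
        have h5 : (2 * Real.pi * t) ^ (-(1 / 2) : ℝ) ≤ t ^ (-(1 / 2) : ℝ) :=
          Real.rpow_le_rpow_of_nonpos ht htu (by norm_num)
        have h6 := mul_le_mul_of_nonneg_left h5 hC4.le
        nlinarith
      · refine (hX _ hu0).trans ?_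
        have h5 : (1 : ℝ) ≤ t ^ (-(1 / 2) : ℝ) :=
          Real.one_le_rpow_of_pos_of_le_one_of_nonpos ht ht1 (by norm_num)
        have h6 : C3 / (2 * Real.pi * t) ^ 2 ≤ C3 := div_le_self hC3.le (one_le_pow₀ h)
        nlinarith
    · have ht0 : 0 < t := by linarith
      refine (hX _ (tp_pos ht0)).trans ?_
      refine (div_le_div_of_nonneg_left hC3.le (by positivity)
        (pow_le_pow_left₀ ht0.le (t_le_u ht0.le) 2)).trans ?_
      exact div_le_div_of_nonneg_right (by linarith) (by positivity)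

end Pool.Agent.H438R2.RZ.K4aux
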