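import Pool.Agent.H438R2.RZ.Defs

set_option autoImplicit false

/-! # Bochner-Riesz means of block radial functions, P2: bounded overlap of sums of two caps -/

namespace Pool.Agent.H438R2.RZ.P2aux

theorem fin_ineq (ε z y : ℝ) (h0 : 0 < ε) (h1 : ε ≤ 1 / 100) (hy : 1 / 5 ≤ y) :
    4 * ε * y ^ 2 + 4 * ε * (4 * ε) + 4 * ε * (8 / 5) * z + 4 * ε * (8 / 5) * z ≤
      72 * ε * (z ^ 2 + y ^ 2) := by
  have hy2 : (1 / 25 : ℝ) ≤ y ^ 2 := by nlinarith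
  have hs : 0 ≤ (z - 4 / 45) ^ 2 := sq_nonneg _
  have hin : 4 * y ^ 2 + 16 * ε + 64 / 5 * z ≤ 72 * (z ^ 2 + y ^ 2) := by
    have e : (z - 4 / 45) ^ 2 = z ^ 2 - 8 / 45 * z + 16 / 2025 := by ring
    rw [e] at hs
    linarith
  have h2 := mul_le_mul_of_nonneg_left hin h0.le
  have e1 : ε * (4 * y ^ 2 + 16 * ε + 64 / 5 * z) =
      4 * ε * y ^ 2 + 4 * ε * (4 * ε) + 4 * ε * (8 / 5) * z + 4 * ε * (8 / 5) * z := by ring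
  have e2 : ε * (72 * (z ^ 2 + y ^ 2)) = 72 * ε * (z ^ 2 + y ^ 2) := by ring
  rw [e1, e2] at h2
  exact h2

/-- two pairs of points near the circle with the same sum -/
theorem core (ε x y P1 P2 R1 R2 : ℝ) (h0 : 0 < ε) (h1 : ε ≤ 1 / 100) (hy : 1 / 5 ≤ y)
    (hP : |1 - (P1 ^ 2 + P2 ^ 2)| ≤ 2 * ε) (hP' : |1 - ((x - P1) ^ 2 + (y - P2) ^ 2)| ≤ 2 * ε)
    (hR : |1 - (R1 ^ 2 + R2 ^ 2)| ≤ 2 * ε) (hR' : |1 - ((x - R1) ^ 2 + (y - R2) ^ 2)| ≤ 2 * ε)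
    (bP : |P1| ≤ 4 / 5) (bR : |R1| ≤ 4 / 5) (bR' : |x - R1| ≤ 4 / 5) :
    |(P1 - R1) * (P1 - (x - R1))| ≤ 72 * ε := by
  rw [abs_le] at hP hP' hR hR'
  obtain ⟨E, hE⟩ : ∃ E, E = (P1 - R1) * (P1 - (x - R1)) + (P2 - R2) * (P2 - (y - R2)) := ⟨_, rfl⟩
  obtain ⟨α, hα⟩ : ∃ α, α = (P1 - R1) * x + (P2 - R2) * y := ⟨_, rfl⟩
  obtain ⟨β, hβ⟩ : ∃ β, β = (P1 - (x - R1)) * x + (P2 - (y - R2)) * y := ⟨_, rfl⟩
  have bE : |E| ≤ 4 * ε := by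
    have : 2 * E = (P1 ^ 2 + P2 ^ 2) + ((x - P1) ^ 2 + (y - P2) ^ 2) - (R1 ^ 2 + R2 ^ 2) -
        ((x - R1) ^ 2 + (y - R2) ^ 2) := by rw [hE]; ring
    rw [abs_le]
    constructor <;> linarith [hP.1, hP.2, hP'.1, hP'.2, hR.1, hR.2, hR'.1, hR'.2]
  have bα : |α| ≤ 4 * ε := by
    have : 2 * α = (P1 ^ 2 + P2 ^ 2) - ((x - P1) ^ 2 + (y - P2) ^ 2) - (R1 ^ 2 + R2 ^ 2) +
        ((x - R1) ^ 2 + (y - R2) ^ 2) := by rw [hα]; ring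
    rw [abs_le]
    constructor <;> linarith [hP.1, hP.2, hP'.1, hP'.2, hR.1, hR.2, hR'.1, hR'.2]
  have bβ : |β| ≤ 4 * ε := by
    have : 2 * β = (P1 ^ 2 + P2 ^ 2) - ((x - P1) ^ 2 + (y - P2) ^ 2) + (R1 ^ 2 + R2 ^ 2) -
        ((x - R1) ^ 2 + (y - R2) ^ 2) := by rw [hβ]; ring
    rw [abs_le]
    constructor <;> linarith [hP.1, hP.2, hP'.1, hP'.2, hR.1, hR.2, hR'.1, hR'.2]
  have bp : |P1 - R1| ≤ 8 / 5 := by
    rw [abs_le] at bP bR ⊢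
    constructor <;> linarith [bP.1, bP.2, bR.1, bR.2]
  have bq : |P1 - (x - R1)| ≤ 8 / 5 := by
    rw [abs_le] at bP bR' ⊢
    constructor <;> linarith [bP.1, bP.2, bR'.1, bR'.2]
  have key : (P1 - R1) * (P1 - (x - R1)) * (x ^ 2 + y ^ 2) =
      E * y ^ 2 - α * β + α * (P1 - (x - R1)) * x + β * (P1 - R1) * x := by
    rw [hE, hα, hβ]; ring
  have hx0 : 0 ≤ |x| := abs_nonneg x
  have b1 : |E * y ^ 2| ≤ 4 * ε * y ^ 2 := by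
    rw [abs_mul, abs_of_nonneg (sq_nonneg y)]
    exact mul_le_mul_of_nonneg_right bE (sq_nonneg y)
  have b2 : |α * β| ≤ 4 * ε * (4 * ε) := by
    rw [abs_mul]
    exact mul_le_mul bα bβ (abs_nonneg _) (by positivity)
  have b3 : |α * (P1 - (x - R1)) * x| ≤ 4 * ε * (8 / 5) * |x| := by
    rw [abs_mul, abs_mul]
    exact mul_le_mul_of_nonneg_right (mul_le_mul bα bq (abs_nonneg _) (by positivity)) hx0
  have b4 : |β * (P1 - R1) * x| ≤ 4 * ε * (8 / 5) * |x| := by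
    rw [abs_mul, abs_mul]
    exact mul_le_mul_of_nonneg_right (mul_le_mul bβ bp (abs_nonneg _) (by positivity)) hx0
  have hb : |(P1 - R1) * (P1 - (x - R1)) * (x ^ 2 + y ^ 2)| ≤
      4 * ε * y ^ 2 + 4 * ε * (4 * ε) + 4 * ε * (8 / 5) * |x| + 4 * ε * (8 / 5) * |x| := by
    rw [key]
    rw [abs_le] at b1 b2 b3 b4 ⊢
    constructor <;> linarith [b1.1, b1.2, b2.1, b2.2, b3.1, b3.2, b4.1, b4.2]
  have hpos : 0 < x ^ 2 + y ^ 2 := by positivity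
  have hsq : x ^ 2 = |x| ^ 2 := (sq_abs x).symm
  have hfin : 4 * ε * y ^ 2 + 4 * ε * (4 * ε) + 4 * ε * (8 / 5) * |x| + 4 * ε * (8 / 5) * |x| ≤
      72 * ε * (x ^ 2 + y ^ 2) := by
    rw [hsq]
    exact fin_ineq ε |x| y h0 h1 hy
  have := hb.trans hfin
  rw [abs_mul, abs_of_pos hpos] at this
  exact le_of_mul_le_mul_right this hpos

theorem dich (L p q : ℝ) (hL : 10 ≤ L) (h : |p * q| ≤ 72 * (1 / L ^ 2)) :
    |L * p| ≤ 17 / 2 ∨ |L * q| ≤ 17 / 2 := by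
  by_contra hc
  push Not at hc
  obtain ⟨h1, h2⟩ := hc
  have hL0 : 0 < L := by linarith
  have h3 : (17 / 2 : ℝ) * (17 / 2) < |L * p| * |L * q| :=
    mul_lt_mul'' h1 h2 (by norm_num) (by norm_num)
  have h4 : |L * p| * |L * q| = L ^ 2 * |p * q| := by
    rw [abs_mul, abs_mul, abs_mul, abs_of_pos hL0]; ring
  rw [h4] at h3
  have h5 : L ^ 2 * |p * q| ≤ L ^ 2 * (72 * (1 / L ^ 2)) :=
    mul_le_mul_of_nonneg_left h (by positivity)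
  have h6 : L ^ 2 * (72 * (1 / L ^ 2)) = 72 := by field_simp
  rw [h6] at h5
  linarith

theorem memI (u t : ℝ) (a : ℤ) (h1 : |u - a| ≤ 1) (h2 : |u - t| ≤ 17 / 2) :
    a ∈ Finset.Icc (⌊t⌋ - 10) (⌊t⌋ + 11) := by
  rw [abs_le] at h1 h2
  have f1 := Int.floor_le t
  have f2 := Int.lt_floor_add_one t
  rw [Finset.mem_Icc]
  constructor
  · have : ((⌊t⌋ - 10 : ℤ) : ℝ) ≤ a := by push_cast; linarith [h1.1, h1.2, h2.1, h2.2]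
    exact_mod_cast this
  · have : (a : ℝ) < ((⌊t⌋ + 11 : ℤ) : ℝ) := by push_cast; linarith [h1.1, h1.2, h2.1, h2.2]
    have : a < ⌊t⌋ + 11 := by exact_mod_cast this
    exact this.le

/-- a finite set of pairs of integers near `(s, t)` or `(t, s)` -/
noncomputable def box (s t : ℝ) : Finset (ℤ × ℤ) :=
  (Finset.Icc (⌊s⌋ - 10) (⌊s⌋ + 11) ×ˢ Finset.Icc (⌊t⌋ - 10) (⌊t⌋ + 11)) ∪
    (Finset.Icc (⌊t⌋ - 10) (⌊t⌋ + 11) ×ˢ Finset.Icc (⌊s⌋ - 10) (⌊s⌋ + 11))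

theorem box_card (s t : ℝ) : (box s t).card ≤ 968 := by
  have h : ∀ u : ℝ, (Finset.Icc (⌊u⌋ - 10) (⌊u⌋ + 11)).card = 22 := by
    intro u
    rw [Int.card_Icc]
    have : ⌊u⌋ + 11 + 1 - (⌊u⌋ - 10) = 22 := by ring
    rw [this]; rfl
  unfold box
  refine (Finset.card_union_le _ _).trans ?_
  rw [Finset.card_product, Finset.card_product, h, h]

/-- the pairs of caps that contribute to `ξ` -/
def S (L : ℝ) (ξ : ℝ × ℝ) : Set (ℤ × ℤ) :=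
  {p : ℤ × ℤ | ∃ P P' : ℝ × ℝ, |L * P.1 - p.1| ≤ 1 ∧ |L * P'.1 - p.2| ≤ 1 ∧
      |P.1| ≤ 4 / 5 ∧ |P'.1| ≤ 4 / 5 ∧ 1 / 10 ≤ P.2 ∧ 1 / 10 ≤ P'.2 ∧
      |1 - (P.1 ^ 2 + P.2 ^ 2)| ≤ 2 / L ^ 2 ∧ |1 - (P'.1 ^ 2 + P'.2 ^ 2)| ≤ 2 / L ^ 2 ∧
      P.1 + P'.1 = ξ.1 ∧ P.2 + P'.2 = ξ.2}

theorem S_sub (L : ℝ) (hL : 10 ≤ L) (ξ : ℝ × ℝ) : ∃ s t : ℝ, S L ξ ⊆ ↑(box s t) := by
  rcases (S L ξ).eq_empty_or_nonempty with h | ⟨p₀, R, R', -, -, bR, bR', yR, yR', hR, hR', s1, s2⟩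
  · exact ⟨0, 0, by rw [h]; exact Set.empty_subset _⟩
  refine ⟨L * R.1, L * R'.1, ?_⟩
  rintro p ⟨P, P', hp, hp', bP, bP', yP, yP', hP, hP', t1, t2⟩
  obtain ⟨x, y⟩ := ξ
  obtain ⟨P1, P2⟩ := P
  obtain ⟨P1', P2'⟩ := P'
  obtain ⟨R1, R2⟩ := R
  obtain ⟨R1', R2'⟩ := R'
  simp only at bR bR' yR yR' hR hR' s1 s2 hp hp' bP bP' yP yP' hP hP' t1 t2 ⊢
  have eP : P1' = x - P1 := by linarith
  have eP2 : P2' = y - P2 := by linarith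
  have eR : R1' = x - R1 := by linarith
  have eR2 : R2' = y - R2 := by linarith
  subst eP eP2 eR eR2
  have hL0 : 0 < L := by linarith
  have hε : (2 : ℝ) / L ^ 2 = 2 * (1 / L ^ 2) := by ring
  rw [hε] at hR hR' hP hP'
  have h1 : (1 : ℝ) / L ^ 2 ≤ 1 / 100 := by
    apply one_div_le_one_div_of_le (by norm_num)
    nlinarith
  have hc := core (1 / L ^ 2) x y P1 P2 R1 R2 (by positivity) h1 (by linarith) hP hP' hR hR'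
    bP bR bR'
  rw [Finset.mem_coe, box, Finset.mem_union, Finset.mem_product, Finset.mem_product]
  rcases dich L _ _ hL hc with h | h
  · left
    refine ⟨memI _ _ _ hp ?_, memI _ _ _ hp' ?_⟩
    · have : L * P1 - L * R1 = L * (P1 - R1) := by ring
      rw [this]; exact h
    · have : L * (x - P1) - L * (x - R1) = -(L * (P1 - R1)) := by ring
      rw [this, abs_neg]; exact h
  · right
    refine ⟨memI _ _ _ hp ?_, memI _ _ _ hp' ?_⟩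
    · have : L * P1 - L * (x - R1) = L * (P1 - (x - R1)) := by ring
      rw [this]; exact h
    · have : L * (x - P1) - L * R1 = -(L * (P1 - (x - R1))) := by ring
      rw [this, abs_neg]; exact h

end Pool.Agent.H438R2.RZ.P2aux

namespace Pool.Agent.H438R2.RZ

/-! ## P2: bounded overlap of the sums of two caps -/
theorem overlap : ∃ N : ℕ, ∀ L : ℝ, 10 ≤ L → ∀ ξ : ℝ × ℝ,
    {p : ℤ × ℤ | ∃ P P' : ℝ × ℝ, |L * P.1 - p.1| ≤ 1 ∧ |L * P'.1 - p.2| ≤ 1 ∧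
      |P.1| ≤ 4 / 5 ∧ |P'.1| ≤ 4 / 5 ∧ 1 / 10 ≤ P.2 ∧ 1 / 10 ≤ P'.2 ∧
      |1 - (P.1 ^ 2 + P.2 ^ 2)| ≤ 2 / L ^ 2 ∧ |1 - (P'.1 ^ 2 + P'.2 ^ 2)| ≤ 2 / L ^ 2 ∧
      P.1 + P'.1 = ξ.1 ∧ P.2 + P'.2 = ξ.2}.Finite ∧
    {p : ℤ × ℤ | ∃ P P' : ℝ × ℝ, |L * P.1 - p.1| ≤ 1 ∧ |L * P'.1 - p.2| ≤ 1 ∧
      |P.1| ≤ 4 / 5 ∧ |P'.1| ≤ 4 / 5 ∧ 1 / 10 ≤ P.2 ∧ 1 / 10 ≤ P'.2 ∧
      |1 - (P.1 ^ 2 + P.2 ^ 2)| ≤ 2 / L ^ 2 ∧ |1 - (P'.1 ^ 2 + P'.2 ^ 2)| ≤ 2 / L ^ 2 ∧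
      P.1 + P'.1 = ξ.1 ∧ P.2 + P'.2 = ξ.2}.ncard ≤ N := by
  refine ⟨968, ?_⟩
  intro L hL ξ
  obtain ⟨s, t, h⟩ := P2aux.S_sub L hL ξ
  have hfin : (P2aux.S L ξ).Finite := Set.Finite.subset (Finset.finite_toSet _) h
  refine ⟨hfin, ?_⟩
  have h2 : (P2aux.S L ξ).ncard ≤ (P2aux.box s t).card := by
    rw [← Set.ncard_coe_finset]
    exact Set.ncard_le_ncard h (Finset.finite_toSet _)
  exact h2.trans (P2aux.box_card s t)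

end Pool.Agent.H438R2.RZ
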