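import Mathlib
import Pool.Agent.H438R2.RZ.Defs
set_option autoImplicit false

/-! # P7: the Nikodym maximal function for the cap kernels (from the one for boxes) -/

namespace Pool.Agent.H438R2.RZ.P7aux

open MeasureTheory Set
open scoped ENNReal

/-- the boxes -/
def T (γ l w : ℝ) (z : ℝ × ℝ) : Set (ℝ × ℝ) :=
  {z' : ℝ × ℝ | |z'.2 - z.2| ≤ l ∧ |(z'.1 - z.1) + γ * (z'.2 - z.2)| ≤ w}

theorem sq_tsum_le {ι : Type} (c F : ι → ℝ≥0∞) :
    (∑' k, c k * F k) ^ 2 ≤ 2 * (∑' k, c k) * ∑' k, c k * F k ^ 2 := by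
  have key : ∀ a b : ℝ≥0∞, a * b ≤ a ^ 2 + b ^ 2 := by
    intro a b
    rcases le_total a b with h | h
    · calc a * b ≤ b * b := by gcongr
        _ = b ^ 2 := (sq b).symm
        _ ≤ a ^ 2 + b ^ 2 := le_add_self
    · calc a * b ≤ a * a := by gcongr
        _ = a ^ 2 := (sq a).symm
        _ ≤ a ^ 2 + b ^ 2 := le_self_add
  calc (∑' k, c k * F k) ^ 2 = ∑' k, ∑' l, (c k * F k) * (c l * F l) := by
        rw [sq, ← ENNReal.tsum_mul_right]
        congr 1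
        funext k
        rw [ENNReal.tsum_mul_left]
    _ ≤ ∑' k, ∑' l, (c k * F k ^ 2 * c l + c k * (c l * F l ^ 2)) := by
        refine ENNReal.tsum_le_tsum fun k => ENNReal.tsum_le_tsum fun l => ?_
        calc (c k * F k) * (c l * F l) = c k * c l * (F k * F l) := by ring
          _ ≤ c k * c l * (F k ^ 2 + F l ^ 2) := by gcongr; exact key _ _
          _ = _ := by ring
    _ = ∑' k, (c k * F k ^ 2 * (∑' l, c l) + c k * ∑' l, c l * F l ^ 2) := by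
        congr 1
        funext k
        rw [ENNReal.tsum_add, ENNReal.tsum_mul_left, ENNReal.tsum_mul_left]
    _ = (∑' k, c k * F k ^ 2) * (∑' l, c l) + (∑' k, c k) * ∑' l, c l * F l ^ 2 := by
        rw [ENNReal.tsum_add, ENNReal.tsum_mul_right, ENNReal.tsum_mul_right]
    _ = 2 * (∑' k, c k) * ∑' k, c k * F k ^ 2 := by ring

theorem dyad (x : ℝ) : ∃ i : ℕ, |x| ≤ 2 ^ i ∧ 1 / (1 + x ^ 2) ≤ 4 * (1 / 4 : ℝ) ^ i := by
  by_cases h : |x| ≤ 1
  · refine ⟨0, by simpa using h, ?_⟩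
    have : 1 / (1 + x ^ 2) ≤ 1 := by
      rw [div_le_one (by positivity)]
      nlinarith [sq_nonneg x]
    norm_num
    norm_num at this
    linarith
  · push Not at h
    obtain ⟨n, hn1, hn2⟩ := exists_nat_pow_near h.le (by norm_num : (1:ℝ) < 2)
    refine ⟨n + 1, hn2.le, ?_⟩
    have h1 : (4:ℝ) ^ n ≤ x ^ 2 := by
      rw [← sq_abs x]
      calc (4:ℝ) ^ n = (2 ^ n) ^ 2 := by rw [← pow_mul, mul_comm, pow_mul]; norm_num
        _ ≤ |x| ^ 2 := by gcongr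
    calc 1 / (1 + x ^ 2) ≤ 1 / 4 ^ n := by
          apply one_div_le_one_div_of_le (by positivity)
          linarith
      _ = 4 * (1 / 4 : ℝ) ^ (n + 1) := by
          rw [pow_succ, div_pow, one_pow]
          ring

/-- the weights -/
noncomputable def cc (p : ℕ × ℕ) : ℝ≥0∞ := ENNReal.ofReal (16 * (1 / 2 : ℝ) ^ p.1 * (1 / 2 : ℝ) ^ p.2)

/-- widths and lengths -/
noncomputable def ww (L : ℝ) (p : ℕ × ℕ) : ℝ := 2 ^ p.1 * L
noncomputable def ll (L : ℝ) (p : ℕ × ℕ) : ℝ := 2 ^ p.2 * L ^ 2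

theorem bk_le (L γ : ℝ) (hL : 10 ≤ L) (z z' : ℝ × ℝ) (g : ℝ≥0∞) :
    ENNReal.ofReal (Bk L γ (z' - z)) * g ≤
      ∑' p : ℕ × ℕ, (T γ (ll L p) (ww L p) z).indicator
        (fun _ => cc p * (ENNReal.ofReal (1 / (ll L p * ww L p)) * g)) z' := by
  have hL0 : 0 < L := by linarith
  set X := ((z' - z).1 + γ * (z' - z).2) / L with hX
  set Y := (z' - z).2 / L ^ 2 with hY
  obtain ⟨i, hi1, hi2⟩ := dyad X
  obtain ⟨j, hj1, hj2⟩ := dyad Y
  have hmem : z' ∈ T γ (ll L (i, j)) (ww L (i, j)) z := by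
    constructor
    · rw [hY, abs_div, abs_of_pos (by positivity : (0:ℝ) < L ^ 2), div_le_iff₀ (by positivity)] at hj1
      exact hj1
    · rw [hX, abs_div, abs_of_pos hL0, div_le_iff₀ hL0] at hi1
      exact hi1
  refine le_trans ?_ (ENNReal.le_tsum (i, j))
  rw [indicator_of_mem hmem, ← mul_assoc]
  gcongr
  unfold cc
  rw [← ENNReal.ofReal_mul (by positivity)]
  apply ENNReal.ofReal_le_ofReal
  have e1 : Bk L γ (z' - z) = 1 / L ^ 3 * (1 / (1 + X ^ 2)) * (1 / (1 + Y ^ 2)) := by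
    unfold Bk
    rw [hX, hY]
    field_simp
  rw [e1]
  calc 1 / L ^ 3 * (1 / (1 + X ^ 2)) * (1 / (1 + Y ^ 2))
      ≤ 1 / L ^ 3 * (4 * (1 / 4 : ℝ) ^ i) * (4 * (1 / 4 : ℝ) ^ j) := by gcongr
    _ = 16 * (1 / 2 : ℝ) ^ i * (1 / 2 : ℝ) ^ j * (1 / (ll L (i, j) * ww L (i, j))) := by
        unfold ll ww
        have h4 : ∀ n : ℕ, (1 / 4 : ℝ) ^ n = (1 / 2 : ℝ) ^ n * (1 / 2 ^ n) := by
          intro n
          rw [show (1 / 4 : ℝ) = (1 / 2) * (1 / 2) by norm_num, mul_pow]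
          congr 1
          rw [one_div_pow]
        rw [h4, h4]
        field_simp
        ring

theorem T_meas (γ l w : ℝ) (z : ℝ × ℝ) : MeasurableSet (T γ l w z) := by
  apply IsClosed.measurableSet
  have : T γ l w z = {z' : ℝ × ℝ | |z'.2 - z.2| ≤ l} ∩
      {z' : ℝ × ℝ | |(z'.1 - z.1) + γ * (z'.2 - z.2)| ≤ w} := rfl
  rw [this]
  apply IsClosed.inter
  · exact isClosed_le (by fun_prop) continuous_const
  · exact isClosed_le (by fun_prop) continuous_const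

theorem U_meas (γ l w : ℝ) : MeasurableSet {q : (ℝ × ℝ) × (ℝ × ℝ) | q.2 ∈ T γ l w q.1} := by
  apply IsClosed.measurableSet
  have : {q : (ℝ × ℝ) × (ℝ × ℝ) | q.2 ∈ T γ l w q.1} =
      {q | |q.2.2 - q.1.2| ≤ l} ∩ {q | |(q.2.1 - q.1.1) + γ * (q.2.2 - q.1.2)| ≤ w} := rfl
  rw [this]
  apply IsClosed.inter
  · exact isClosed_le (by fun_prop) continuous_const
  · exact isClosed_le (by fun_prop) continuous_const

/-- the maximal function over the boxes of one size -/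
noncomputable def FF (L : ℝ) (G : ℝ × ℝ → ℝ≥0∞) (l w : ℝ) (z : ℝ × ℝ) : ℝ≥0∞ :=
  ⨆ a ∈ SL L, ENNReal.ofReal (1 / (l * w)) * ∫⁻ z' in T (sl L a) l w z, G z'

theorem FF_meas (L : ℝ) {G : ℝ × ℝ → ℝ≥0∞} (hG : Measurable G) (l w : ℝ) :
    Measurable (FF L G l w) := by
  unfold FF
  refine Measurable.biSup (↑(SL L) : Set ℤ) (to_countable _) fun a _ => ?_
  refine Measurable.const_mul ?_ _
  have h1 : Measurable (fun q : (ℝ × ℝ) × (ℝ × ℝ) =>
      {q : (ℝ × ℝ) × (ℝ × ℝ) | q.2 ∈ T (sl L a) l w q.1}.indicator (fun q => G q.2) q) :=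
    (hG.comp measurable_snd).indicator (U_meas _ _ _)
  have h2 := h1.lintegral_prod_right' (ν := volume)
  have e : (fun z : ℝ × ℝ => ∫⁻ z' in T (sl L a) l w z, G z') = fun z => ∫⁻ z',
      {q : (ℝ × ℝ) × (ℝ × ℝ) | q.2 ∈ T (sl L a) l w q.1}.indicator (fun q => G q.2) (z, z') := by
    funext z
    rw [← lintegral_indicator (T_meas _ _ _ _)]
    rfl
  rw [e]
  exact h2

theorem sup_le (L : ℝ) (hL : 10 ≤ L) {G : ℝ × ℝ → ℝ≥0∞} (hG : Measurable G) (z : ℝ × ℝ) :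
    (⨆ a ∈ SL L, ∫⁻ z', ENNReal.ofReal (Bk L (sl L a) (z' - z)) * G z') ≤
      ∑' p : ℕ × ℕ, cc p * FF L G (ll L p) (ww L p) z := by
  refine iSup₂_le fun a ha => ?_
  calc ∫⁻ z', ENNReal.ofReal (Bk L (sl L a) (z' - z)) * G z'
      ≤ ∫⁻ z', ∑' p : ℕ × ℕ, (T (sl L a) (ll L p) (ww L p) z).indicator
        (fun z' => cc p * (ENNReal.ofReal (1 / (ll L p * ww L p)) * G z')) z' := by
        refine lintegral_mono fun z' => ?_
        refine (bk_le L (sl L a) hL z z' (G z')).trans (le_of_eq ?_)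
        congr 1
    _ = ∑' p : ℕ × ℕ, ∫⁻ z', (T (sl L a) (ll L p) (ww L p) z).indicator
        (fun z' => cc p * (ENNReal.ofReal (1 / (ll L p * ww L p)) * G z')) z' := by
        refine lintegral_tsum fun p => ?_
        exact (((hG.const_mul _).const_mul _).indicator (T_meas _ _ _ _)).aemeasurable
    _ = ∑' p : ℕ × ℕ, cc p * (ENNReal.ofReal (1 / (ll L p * ww L p)) *
        ∫⁻ z' in T (sl L a) (ll L p) (ww L p) z, G z') := by
        congr 1
        funext p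
        rw [lintegral_indicator (T_meas _ _ _ _), lintegral_const_mul _ (hG.const_mul _),
          lintegral_const_mul _ hG]
    _ ≤ ∑' p : ℕ × ℕ, cc p * FF L G (ll L p) (ww L p) z := by
        refine ENNReal.tsum_le_tsum fun p => ?_
        gcongr
        unfold FF
        exact le_iSup₂ (f := fun (a : ℤ) (_ : a ∈ SL L) =>
          ENNReal.ofReal (1 / (ll L p * ww L p)) *
            ∫⁻ z' in T (sl L a) (ll L p) (ww L p) z, G z') a ha

theorem sl_le (L : ℝ) (hL : 10 ≤ L) (a : ℤ) (ha : a ∈ SL L) : |sl L a| ≤ 3 := by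
  have hL0 : 0 < L := by linarith
  unfold SL at ha
  rw [Finset.mem_Icc] at ha
  have h1 : |(a:ℝ)| ≤ 9 / 10 * L := by
    have hf : ((⌊9 / 10 * L⌋ : ℤ) : ℝ) ≤ 9 / 10 * L := Int.floor_le _
    rw [abs_le]
    constructor
    · have : (-(⌊9 / 10 * L⌋ : ℤ) : ℝ) ≤ a := by exact_mod_cast ha.1
      linarith
    · have : (a:ℝ) ≤ (⌊9 / 10 * L⌋ : ℤ) := by exact_mod_cast ha.2
      linarith
  set u := (a:ℝ) / L with hu
  have hu1 : |u| ≤ 9 / 10 := by
    rw [hu, abs_div, abs_of_pos hL0, div_le_iff₀ hL0]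
    exact h1
  have hu2 : u ^ 2 ≤ 81 / 100 := by
    rw [← sq_abs]
    nlinarith [abs_nonneg u]
  have h3 : (3:ℝ) / 10 ≤ Real.sqrt (1 - u ^ 2) := by
    apply Real.le_sqrt_of_sq_le
    linarith
  unfold sl
  rw [← hu, abs_div, abs_neg, abs_of_pos (by linarith : 0 < Real.sqrt (1 - u ^ 2)),
    div_le_iff₀ (by linarith)]
  linarith

theorem kak_of_box (hbox : ∃ C : ℝ, 0 < C ∧ ∀ l w : ℝ, 0 < l → 0 < w → ∀ S : Finset ℤ,
    ∀ γ : ℤ → ℝ, (∀ a ∈ S, |γ a| ≤ 3) → ∀ G : ℝ × ℝ → ℝ≥0∞, Measurable G →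
      ∫⁻ z : ℝ × ℝ, (⨆ a ∈ S, ENNReal.ofReal (1 / (l * w)) *
        ∫⁻ z' in {z' : ℝ × ℝ | |z'.2 - z.2| ≤ l ∧ |(z'.1 - z.1) + γ a * (z'.2 - z.2)| ≤ w},
          G z') ^ 2 ≤
      ENNReal.ofReal (C * (1 + Real.log (1 + l / w))) * ∫⁻ z, G z ^ 2) :
    ∃ C : ℝ, 0 < C ∧ ∀ L : ℝ, 10 ≤ L → ∀ G : ℝ × ℝ → ℝ≥0∞, Measurable G →
    ∫⁻ z : ℝ × ℝ, (⨆ a ∈ SL L, ∫⁻ z', ENNReal.ofReal (Bk L (sl L a) (z' - z)) * G z') ^ 2 ≤
      ENNReal.ofReal (C * (1 + Real.log L) ^ 2) * ∫⁻ z, G z ^ 2 := by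
  obtain ⟨C, hC, hb⟩ := hbox
  set k : ℕ × ℕ → ℝ := fun p => 16 * (1 / 2 : ℝ) ^ p.1 * (3 / 4 : ℝ) ^ p.2 with hk
  have hk0 : ∀ p, 0 ≤ k p := fun p => by rw [hk]; positivity
  have hks : Summable k := by
    have h1 : Summable fun p : ℕ × ℕ => (1 / 2 : ℝ) ^ p.1 * (3 / 4 : ℝ) ^ p.2 :=
      (summable_geometric_of_lt_one (by norm_num) (by norm_num)).mul_of_nonneg
        (summable_geometric_of_lt_one (by norm_num) (by norm_num))
        (fun n => by positivity) (fun n => by positivity)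
    refine (h1.mul_left 16).congr fun p => ?_
    rw [hk]
    ring
  set K : ℝ := ∑' p, k p with hK
  have hK0 : 0 ≤ K := tsum_nonneg hk0
  have hS : ∑' p : ℕ × ℕ, cc p ≤ ENNReal.ofReal K := by
    rw [hK, ENNReal.ofReal_tsum_of_nonneg hk0 hks]
    refine ENNReal.tsum_le_tsum fun p => ?_
    unfold cc
    apply ENNReal.ofReal_le_ofReal
    rw [hk]
    show 16 * (1 / 2 : ℝ) ^ p.1 * (1 / 2 : ℝ) ^ p.2 ≤ 16 * (1 / 2 : ℝ) ^ p.1 * (3 / 4 : ℝ) ^ p.2
    have : (1 / 2 : ℝ) ^ p.2 ≤ (3 / 4 : ℝ) ^ p.2 :=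
      pow_le_pow_left₀ (by norm_num) (by norm_num) _
    exact mul_le_mul_of_nonneg_left this (by positivity)
  refine ⟨4 * K ^ 2 * C + 1, by positivity, fun L hL G hG => ?_⟩
  have hL0 : 0 < L := by linarith
  have hlog : 0 ≤ Real.log L := Real.log_nonneg (by linarith)
  set I := ∫⁻ z, G z ^ 2 with hI
  have hF : ∀ p : ℕ × ℕ, cc p * ∫⁻ z, FF L G (ll L p) (ww L p) z ^ 2 ≤
      ENNReal.ofReal (k p * (2 * C * (1 + Real.log L))) * I := by
    intro p
    have hl : 0 < ll L p := by unfold ll; positivity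
    have hw : 0 < ww L p := by unfold ww; positivity
    have h1 : ∫⁻ z, FF L G (ll L p) (ww L p) z ^ 2 ≤
        ENNReal.ofReal (C * (1 + Real.log (1 + ll L p / ww L p))) * I :=
      hb (ll L p) (ww L p) hl hw (SL L) (sl L) (sl_le L hL) G hG
    have h2 : Real.log (1 + ll L p / ww L p) ≤ (p.2 : ℝ) + 1 + Real.log L := by
      have e : ll L p / ww L p = 2 ^ p.2 / 2 ^ p.1 * L := by
        unfold ll ww
        field_simp
      have h3 : ll L p / ww L p ≤ 2 ^ p.2 * L := by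
        rw [e]
        gcongr
        exact div_le_self (by positivity) (one_le_pow₀ (by norm_num))
      have h4 : (1:ℝ) ≤ 2 ^ p.2 * L := by
        have : (1:ℝ) ≤ 2 ^ p.2 := one_le_pow₀ (by norm_num)
        nlinarith
      have h5 : 1 + ll L p / ww L p ≤ 2 ^ (p.2 + 1) * L := by
        rw [pow_succ]
        linarith
      calc Real.log (1 + ll L p / ww L p) ≤ Real.log (2 ^ (p.2 + 1) * L) :=
            Real.log_le_log (by positivity) h5
        _ = (p.2 + 1 : ℕ) * Real.log 2 + Real.log L := by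
            rw [Real.log_mul (by positivity) (by positivity), Real.log_pow]
        _ ≤ (p.2 : ℝ) + 1 + Real.log L := by
            have h6 : Real.log 2 ≤ 1 := by
              have := Real.log_two_lt_d9
              linarith
            push_cast
            have h7 : ((p.2 : ℝ) + 1) * Real.log 2 ≤ ((p.2 : ℝ) + 1) * 1 := by gcongr
            linarith
    have h3 : 1 + Real.log (1 + ll L p / ww L p) ≤ 2 * (3 / 2 : ℝ) ^ p.2 * (1 + Real.log L) := by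
      have h4 : (2:ℝ) + p.2 ≤ 2 * (3 / 2 : ℝ) ^ p.2 := by
        have := one_add_mul_le_pow (by norm_num : (-2:ℝ) ≤ 1 / 2) p.2
        norm_num at this ⊢
        linarith
      have h5 : (0:ℝ) ≤ p.2 := Nat.cast_nonneg _
      calc 1 + Real.log (1 + ll L p / ww L p) ≤ (2 + p.2) + Real.log L := by linarith
        _ ≤ (2 + p.2) * (1 + Real.log L) := by nlinarith
        _ ≤ 2 * (3 / 2 : ℝ) ^ p.2 * (1 + Real.log L) := by gcongr
    calc cc p * ∫⁻ z, FF L G (ll L p) (ww L p) z ^ 2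
        ≤ cc p * (ENNReal.ofReal (C * (1 + Real.log (1 + ll L p / ww L p))) * I) := by gcongr
      _ = ENNReal.ofReal (16 * (1 / 2 : ℝ) ^ p.1 * (1 / 2 : ℝ) ^ p.2 *
          (C * (1 + Real.log (1 + ll L p / ww L p)))) * I := by
          unfold cc
          rw [← mul_assoc, ← ENNReal.ofReal_mul (by positivity)]
      _ ≤ ENNReal.ofReal (k p * (2 * C * (1 + Real.log L))) * I := by
          refine mul_le_mul' (ENNReal.ofReal_le_ofReal ?_) le_rfl
          calc 16 * (1 / 2 : ℝ) ^ p.1 * (1 / 2 : ℝ) ^ p.2 *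
                (C * (1 + Real.log (1 + ll L p / ww L p)))
              ≤ 16 * (1 / 2 : ℝ) ^ p.1 * (1 / 2 : ℝ) ^ p.2 *
                (C * (2 * (3 / 2 : ℝ) ^ p.2 * (1 + Real.log L))) := by gcongr
            _ = 16 * (1 / 2 : ℝ) ^ p.1 * ((1 / 2 : ℝ) * (3 / 2)) ^ p.2 *
                (2 * C * (1 + Real.log L)) := by rw [mul_pow]; ring
            _ = k p * (2 * C * (1 + Real.log L)) := by rw [hk]; norm_num
  calc ∫⁻ z : ℝ × ℝ, (⨆ a ∈ SL L, ∫⁻ z', ENNReal.ofReal (Bk L (sl L a) (z' - z)) * G z') ^ 2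
      ≤ ∫⁻ z : ℝ × ℝ, 2 * (∑' p, cc p) * ∑' p, cc p * FF L G (ll L p) (ww L p) z ^ 2 := by
        refine lintegral_mono fun z => ?_
        refine le_trans ?_ (sq_tsum_le cc (fun p => FF L G (ll L p) (ww L p) z))
        gcongr
        exact sup_le L hL hG z
    _ = 2 * (∑' p, cc p) * ∑' p, cc p * ∫⁻ z, FF L G (ll L p) (ww L p) z ^ 2 := by
        have hm : ∀ p : ℕ × ℕ, Measurable fun z => cc p * FF L G (ll L p) (ww L p) z ^ 2 :=
          fun p => ((FF_meas L hG _ _).pow_const 2).const_mul _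
        rw [lintegral_const_mul _ (Measurable.ennreal_tsum hm),
          lintegral_tsum fun p => (hm p).aemeasurable]
        congr 2
        funext p
        rw [lintegral_const_mul _ ((FF_meas L hG _ _).pow_const 2)]
    _ ≤ 2 * ENNReal.ofReal K *
        ∑' p, ENNReal.ofReal (k p * (2 * C * (1 + Real.log L))) * I := by
        exact mul_le_mul' (mul_le_mul' le_rfl hS) (ENNReal.tsum_le_tsum hF)
    _ = 2 * ENNReal.ofReal K * (ENNReal.ofReal (K * (2 * C * (1 + Real.log L))) * I) := by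
        rw [ENNReal.tsum_mul_right]
        congr 2
        have h9 : 0 ≤ 2 * C * (1 + Real.log L) := by positivity
        rw [hK, ← tsum_mul_right, ENNReal.ofReal_tsum_of_nonneg
          (fun p => mul_nonneg (hk0 p) h9) (hks.mul_right _)]
    _ = ENNReal.ofReal (2 * K * (K * (2 * C * (1 + Real.log L)))) * I := by
        rw [← mul_assoc]
        congr 1
        rw [ENNReal.ofReal_mul (by positivity : (0:ℝ) ≤ 2 * K), ENNReal.ofReal_mul (by norm_num : (0:ℝ) ≤ 2)]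
        norm_num
    _ ≤ ENNReal.ofReal ((4 * K ^ 2 * C + 1) * (1 + Real.log L) ^ 2) * I := by
        refine mul_le_mul' (ENNReal.ofReal_le_ofReal ?_) le_rfl
        have h1 : 1 + Real.log L ≤ (1 + Real.log L) ^ 2 := by nlinarith
        have h2 : 0 ≤ 4 * K ^ 2 * C := by positivity
        nlinarith

end Pool.Agent.H438R2.RZ.P7aux

namespace Pool.Agent.H438R2.RZ

open MeasureTheory Set
open scoped ENNReal

/-- `kak` from the statement of `kak_box` (task P6) -/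
theorem kak' (hbox : ∃ C : ℝ, 0 < C ∧ ∀ l w : ℝ, 0 < l → 0 < w → ∀ S : Finset ℤ,
    ∀ γ : ℤ → ℝ, (∀ a ∈ S, |γ a| ≤ 3) → ∀ G : ℝ × ℝ → ℝ≥0∞, Measurable G →
      ∫⁻ z : ℝ × ℝ, (⨆ a ∈ S, ENNReal.ofReal (1 / (l * w)) *
        ∫⁻ z' in {z' : ℝ × ℝ | |z'.2 - z.2| ≤ l ∧ |(z'.1 - z.1) + γ a * (z'.2 - z.2)| ≤ w},
          G z') ^ 2 ≤
      ENNReal.ofReal (C * (1 + Real.log (1 + l / w))) * ∫⁻ z, G z ^ 2) :
    ∃ C : ℝ, 0 < C ∧ ∀ L : ℝ, 10 ≤ L → ∀ G : ℝ × ℝ → ℝ≥0∞, Measurable G →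
    ∫⁻ z : ℝ × ℝ, (⨆ a ∈ SL L, ∫⁻ z', ENNReal.ofReal (Bk L (sl L a) (z' - z)) * G z') ^ 2 ≤
      ENNReal.ofReal (C * (1 + Real.log L) ^ 2) * ∫⁻ z, G z ^ 2 :=
  P7aux.kak_of_box hbox

end Pool.Agent.H438R2.RZ
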