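import Mathlib
import Pool.Agent.H438R2.RZ.Defs
set_option autoImplicit false

/-! # Bochner-Riesz means of block radial functions: task statements -/

namespace Pool.Agent.H438R2.RZ

open MeasureTheory Set Complex Filter
open scoped ENNReal RealInnerProductSpace Topology
open Pool.Agent.H789R2.FR (E sg)
open Pool.Agent.H438R2.BR (Phi L)

/-! ## K0: closure properties and basic admissible kernels -/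
theorem adm_add {κ₁ κ₂ : ℝ → ℂ} (h1 : Adm κ₁) (h2 : Adm κ₂) : Adm (fun t => κ₁ t + κ₂ t) := sorry

theorem adm_smul {κ : ℝ → ℂ} (c : ℂ) (h : Adm κ) : Adm (fun t => c * κ t) := sorry

theorem adm_congr {κ₁ κ₂ : ℝ → ℂ} (h : Adm κ₁) (heq : ∀ t : ℝ, 0 < t → κ₂ t = κ₁ t) : Adm κ₂ :=
  sorry

/-- density criterion: `κ(t) = ∫ w(v) e(vt) dv` for `t > 0` -/
theorem adm_density {κ : ℝ → ℂ} (w : ℝ → ℂ) (hw : Integrable w)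
    (hw2 : Integrable fun v => ((|v| ^ (-(3 / 4 : ℝ)) : ℝ) : ℂ) * w v)
    (h : ∀ t : ℝ, 0 < t → κ t = ∫ v, w v * e (v * t)) : Adm κ := sorry

theorem adm_exp_pos : Adm (fun t => e t) := sorry

theorem adm_exp_neg : Adm (fun t => e (-t)) := sorry

/-- `e(t)/(1 - 2 pi i t) = ∫_1^∞ exp(-(v-1)) e(vt) dv` -/
theorem adm_exp_div_pos : Adm (fun t => e t / (1 - 2 * Real.pi * t * I)) := sorry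

theorem adm_exp_div_neg : Adm (fun t => e (-t) / (1 - 2 * Real.pi * t * I)) := sorry

theorem adm_sqrt : Adm (fun t => ((Real.sqrt t * Real.exp (-t) : ℝ) : ℂ)) := sorry

/-! ## K1: criterion by two integrations by parts -/
theorem adm_crit (f f' f'' : ℝ → ℂ) (c0 c1 : ℂ) (h1 : ∀ t : ℝ, 0 < t → HasDerivAt f (f' t) t)
    (h2 : ∀ t : ℝ, 0 < t → HasDerivAt f' (f'' t) t)
    (h3 : Tendsto f (𝓝[>] 0) (𝓝 c0)) (h4 : Tendsto f' (𝓝[>] 0) (𝓝 c1))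
    (h5 : IntegrableOn f (Ioi 0))
    (h6 : IntegrableOn (fun t => f'' t + (2 * Real.pi) ^ 2 * f t) (Ioi 0))
    (h7 : Tendsto f atTop (𝓝 0)) (h8 : Tendsto f' atTop (𝓝 0)) : Adm f := sorry

/-! ## K2: asymptotics of the Laplace transform of the symbol -/
theorem L_asym (k : ℕ) (hk : 2 ≤ k) : ∃ (c0 c1 : ℂ) (C : ℝ), 0 < C ∧ ∀ u : ℝ, 1 ≤ u →
    ‖((u ^ (((k : ℝ) - 1) / 2) : ℝ) : ℂ) * L k u - c0 - c1 / (u : ℂ)‖ ≤ C / u ^ 2 := sorry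

/-! ## K3: differential equation -/
theorem Phi_deriv (k : ℕ) (hk : 2 ≤ k) (u : ℝ) :
    HasDerivAt (Phi k) (-((u : ℂ) / ((k : ℂ) - 1)) * Phi (k + 2) u) u := sorry

theorem Phi_deriv2 (k : ℕ) (hk : 2 ≤ k) (u : ℝ) :
    HasDerivAt (fun u : ℝ => -((u : ℂ) / ((k : ℂ) - 1)) * Phi (k + 2) u)
      (Phi (k + 2) u - Phi k u) u := sorry

/-! ## K4: the block kernels are admissible -/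
theorem adm_kap2 (k : ℕ) (hk : 2 ≤ k) : Adm (kap k) := sorry

/-! ## K5: Lommel bound for the block kernels -/
theorem lom_kap2 (k : ℕ) (hk : 2 ≤ k) : Lom (kap k) := sorry

/-! ## K6: the one dimensional blocks -/
theorem adm_kap1 : Adm (kap 1) := sorry

theorem lom_kap1 : Lom (kap 1) := sorry

theorem adm_kaps : Adm kaps := sorry

theorem lom_kaps : Lom kaps := sorry

theorem adm_kap (k : ℕ) (hk : 1 ≤ k) : Adm (kap k) := sorry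

theorem lom_kap (k : ℕ) (hk : 1 ≤ k) : Lom (kap k) := sorry

/-! ## B0: basic facts (boundedness, continuity, linearity) -/
theorem adm_bdd {κ : ℝ → ℂ} (h : Adm κ) : ∃ B : ℝ, 0 ≤ B ∧ ∀ t : ℝ, 0 < t → ‖κ t‖ ≤ B := sorry

theorem adm_cont {κ : ℝ → ℂ} (h : Adm κ) : ContinuousOn κ (Ioi 0) := sorry

theorem mR_good (ψ : ℝ → ℝ) (hψ : Bump ψ) (L : ℝ) (hL : 1 ≤ L) : Good (mR ψ L) := sorry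

theorem mR_bdd (ψ : ℝ → ℝ) (hψ : Bump ψ) : ∃ M : ℝ, ∀ L : ℝ, ∀ ξ, ‖mR ψ L ξ‖ ≤ M := sorry

theorem good_add {g g' : ℝ × ℝ → ℂ} (h : Good g) (h' : Good g') : Good (fun z => g z + g' z) := sorry

theorem good_mul {g : ℝ × ℝ → ℂ} (h : Good g) (c : ℝ × ℝ → ℂ) (hc : Measurable c) (B : ℝ)
    (hB : ∀ z, ‖c z‖ ≤ B) : Good (fun z => c z * g z) := sorry

theorem good_ind {g : ℝ × ℝ → ℂ} (h : Good g) (s : Set (ℝ × ℝ)) (hs : MeasurableSet s) :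
    Good (s.indicator g) := sorry

theorem good_int {g : ℝ × ℝ → ℂ} (h : Good g) : Integrable g := sorry

theorem good_wt (k m : ℕ) (hk : 1 ≤ k) (hm : 1 ≤ m) {g : ℝ × ℝ → ℂ} (h : Good g) :
    Good (fun y => ((wt k m y : ℝ) : ℂ) * g y) := sorry

theorem V_bdd (κ₁ κ₂ : ℝ → ℂ) (h1 : Adm κ₁) (h2 : Adm κ₂) : ∃ C : ℝ, 0 ≤ C ∧
    ∀ h : ℝ × ℝ → ℂ, Good h → ∀ ξ ∈ Q, ‖V κ₁ κ₂ h ξ‖ ≤ C * ∫ z in Q, ‖h z‖ := sorry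

theorem V_cont (κ₁ κ₂ : ℝ → ℂ) (h1 : Adm κ₁) (h2 : Adm κ₂) (h : ℝ × ℝ → ℂ) (hh : Good h) :
    ContinuousOn (V κ₁ κ₂ h) Q := sorry

theorem A_bdd (κ₁ κ₂ : ℝ → ℂ) (h1 : Adm κ₁) (h2 : Adm κ₂) (m : ℝ × ℝ → ℂ) (hm : Good m) :
    ∃ C : ℝ, 0 ≤ C ∧ ∀ h : ℝ × ℝ → ℂ, Good h → ∀ z ∈ Q,
      ‖A κ₁ κ₂ m h z‖ ≤ C * ∫ z in Q, ‖h z‖ := sorry

theorem A_cont (κ₁ κ₂ : ℝ → ℂ) (h1 : Adm κ₁) (h2 : Adm κ₂) (m h : ℝ × ℝ → ℂ) (hm : Good m)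
    (hh : Good h) : ContinuousOn (A κ₁ κ₂ m h) Q := sorry

theorem A_meas (κ₁ κ₂ : ℝ → ℂ) (h1 : Adm κ₁) (h2 : Adm κ₂) (m h : ℝ × ℝ → ℂ) (hm : Good m)
    (hh : Good h) : Measurable (Q.indicator (A κ₁ κ₂ m h)) := sorry

theorem A_add (κ₁ κ₂ : ℝ → ℂ) (h1 : Adm κ₁) (h2 : Adm κ₂) (m h h' : ℝ × ℝ → ℂ) (hm : Good m)
    (hh : Good h) (hh' : Good h') : ∀ z ∈ Q,
      A κ₁ κ₂ m (fun y => h y + h' y) z = A κ₁ κ₂ m h z + A κ₁ κ₂ m h' z := sorry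

theorem A_congr (κ₁ κ₂ : ℝ → ℂ) (m h h' : ℝ × ℝ → ℂ) (hh : ∀ z ∈ Q, h z = h' z) :
    A κ₁ κ₂ m h = A κ₁ κ₂ m h' := sorry

theorem A_swap (κ₁ κ₂ : ℝ → ℂ) (m h : ℝ × ℝ → ℂ) (z : ℝ × ℝ) :
    A κ₁ κ₂ m h z = A κ₂ κ₁ (fun ξ => m ξ.swap) (fun y => h y.swap) z.swap := sorry

theorem At_meas (k m : ℕ) (hk : 1 ≤ k) (hm : 1 ≤ m) (κ₂ : ℝ → ℂ) (h1 : Adm (kap k))
    (h2 : Adm κ₂) (M g : ℝ × ℝ → ℂ) (hM : Good M) (hg : Good g) :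
    Measurable (Q.indicator (At k m κ₂ M g)) := sorry

/-! ## P1: kernel of a cap -/
theorem cap_kernel (ψ α β η : ℝ → ℝ) (hψ : Bump ψ) (hab : Arc α β) (hη : Win η) :
    ∃ C : ℝ, 0 < C ∧ ∀ L : ℝ, 10 ≤ L → ∀ a : ℤ, |(a : ℝ)| ≤ 9 / 10 * L → ∀ z : ℝ × ℝ,
      ‖∫ ξ : ℝ × ℝ, mC ψ α β η L a ξ * e (z.1 * ξ.1 + z.2 * ξ.2)‖ ≤ C * Bk L (sl L a) z := sorry

/-! ## P2: bounded overlap of the sums of two caps -/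
theorem overlap : ∃ N : ℕ, ∀ L : ℝ, 10 ≤ L → ∀ ξ : ℝ × ℝ,
    {p : ℤ × ℤ | ∃ P P' : ℝ × ℝ, |L * P.1 - p.1| ≤ 1 ∧ |L * P'.1 - p.2| ≤ 1 ∧
      |P.1| ≤ 4 / 5 ∧ |P'.1| ≤ 4 / 5 ∧ 1 / 10 ≤ P.2 ∧ 1 / 10 ≤ P'.2 ∧
      |1 - (P.1 ^ 2 + P.2 ^ 2)| ≤ 2 / L ^ 2 ∧ |1 - (P'.1 ^ 2 + P'.2 ^ 2)| ≤ 2 / L ^ 2 ∧
      P.1 + P'.1 = ξ.1 ∧ P.2 + P'.2 = ξ.2}.Finite ∧
    {p : ℤ × ℤ | ∃ P P' : ℝ × ℝ, |L * P.1 - p.1| ≤ 1 ∧ |L * P'.1 - p.2| ≤ 1 ∧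
      |P.1| ≤ 4 / 5 ∧ |P'.1| ≤ 4 / 5 ∧ 1 / 10 ≤ P.2 ∧ 1 / 10 ≤ P'.2 ∧
      |1 - (P.1 ^ 2 + P.2 ^ 2)| ≤ 2 / L ^ 2 ∧ |1 - (P'.1 ^ 2 + P'.2 ^ 2)| ≤ 2 / L ^ 2 ∧
      P.1 + P'.1 = ξ.1 ∧ P.2 + P'.2 = ξ.2}.ncard ≤ N := sorry

/-! ## P3: L4 orthogonality -/
/-- planar Plancherel for good functions and for compactly supported multipliers -/
theorem pl_planch (U : ℝ × ℝ → ℂ) (hU : Good U) :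
    ∫⁻ z : ℝ × ℝ, ‖∫ ξ : ℝ × ℝ, U ξ * e (z.1 * ξ.1 + z.2 * ξ.2)‖ₑ ^ 2 = ∫⁻ ξ, ‖U ξ‖ₑ ^ 2 := sorry

theorem orth (ψ α β η : ℝ → ℝ) (hψ : Bump ψ) (hab : Arc α β) (hη : Win η)
    (hsum : ∀ x : ℝ, HasSum (fun a : ℤ => η (x - a)) 1) :
    ∃ C : ℝ, 0 < C ∧ ∀ L : ℝ, 10 ≤ L → ∀ g : ℝ × ℝ → ℂ, Good g →
      ∫⁻ z, ‖Pl (mA ψ α β L) g z‖ₑ ^ 4 ≤
        ENNReal.ofReal C * ∫⁻ z, (∑ a ∈ SL L, ‖Pl (mC ψ α β η L a) g z‖ₑ ^ 2) ^ 2 := sorry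

/-! ## P4: equally spaced strips -/
theorem bessel_e : ∃ C : ℝ, 0 < C ∧ ∀ h : ℝ → ℂ, Integrable h → ∀ S : Finset ℤ,
    ∑ a ∈ S, ‖∫ y : ℝ, h y * e ((a : ℝ) * y)‖ₑ ^ 2 ≤
      ENNReal.ofReal C * ∫⁻ y : ℝ, ENNReal.ofReal (1 + y ^ 2) * ‖h y‖ₑ ^ 2 := sorry

theorem sq_pointwise (θ : ℝ → ℝ) (hθ : ContDiff ℝ (⊤ : ℕ∞) θ) (hs : ∀ x, θ x ≠ 0 → |x| ≤ 2) :
    ∃ C : ℝ, 0 < C ∧ ∀ L : ℝ, 1 ≤ L → ∀ g : ℝ × ℝ → ℂ, Good g → ∀ (S : Finset ℤ) (z : ℝ × ℝ),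
      ∑ a ∈ S, ‖gA θ L a g z‖ₑ ^ 2 ≤ ENNReal.ofReal C * ∫⁻ x : ℝ,
        ENNReal.ofReal (L / (L ^ 2 + x ^ 2)) * ‖g (z.1 - x, z.2)‖ₑ ^ 2 := sorry

/-! ## P5: a cap operator is a convolution of the strip projection with the cap kernel -/
theorem cap_conv (ψ α β η θ : ℝ → ℝ) (hψ : Bump ψ) (hab : Arc α β) (hη : Win η)
    (hθ : ContDiff ℝ (⊤ : ℕ∞) θ) (hs : ∀ x, θ x ≠ 0 → |x| ≤ 2) (h1 : ∀ x, |x| ≤ 1 → θ x = 1) :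
    ∃ C : ℝ, 0 < C ∧ ∀ L : ℝ, 10 ≤ L → ∀ a : ℤ, |(a : ℝ)| ≤ 9 / 10 * L →
      ∀ g : ℝ × ℝ → ℂ, Good g → ∀ z : ℝ × ℝ,
      ‖Pl (mC ψ α β η L a) g z‖ₑ ^ 2 ≤ ENNReal.ofReal C *
        ∫⁻ z', ENNReal.ofReal (Bk L (sl L a) (z - z')) * ‖gA θ L a g z'‖ₑ ^ 2 := sorry

/-! ## P6: the Nikodym maximal function over boxes -/
theorem kak_box : ∃ C : ℝ, 0 < C ∧ ∀ l w : ℝ, 0 < l → 0 < w → ∀ S : Finset ℤ,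
    ∀ γ : ℤ → ℝ, (∀ a ∈ S, |γ a| ≤ 3) → ∀ G : ℝ × ℝ → ℝ≥0∞, Measurable G →
      ∫⁻ z : ℝ × ℝ, (⨆ a ∈ S, ENNReal.ofReal (1 / (l * w)) *
        ∫⁻ z' in {z' : ℝ × ℝ | |z'.2 - z.2| ≤ l ∧ |(z'.1 - z.1) + γ a * (z'.2 - z.2)| ≤ w},
          G z') ^ 2 ≤
      ENNReal.ofReal (C * (1 + Real.log (1 + l / w))) * ∫⁻ z, G z ^ 2 := sorry

/-! ## P7: the Nikodym maximal function for the cap kernels -/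
theorem kak : ∃ C : ℝ, 0 < C ∧ ∀ L : ℝ, 10 ≤ L → ∀ G : ℝ × ℝ → ℝ≥0∞, Measurable G →
    ∫⁻ z : ℝ × ℝ, (⨆ a ∈ SL L, ∫⁻ z', ENNReal.ofReal (Bk L (sl L a) (z' - z)) * G z') ^ 2 ≤
      ENNReal.ofReal (C * (1 + Real.log L) ^ 2) * ∫⁻ z, G z ^ 2 := sorry

/-! ## P8: L4 bound for an arc -/
theorem win_exists : ∃ η : ℝ → ℝ, Win η ∧ ∀ x : ℝ, HasSum (fun a : ℤ => η (x - a)) 1 := sorry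

theorem theta_exists : ∃ θ : ℝ → ℝ, ContDiff ℝ (⊤ : ℕ∞) θ ∧ (∀ x, θ x ≠ 0 → |x| ≤ 2) ∧
    ∀ x, |x| ≤ 1 → θ x = 1 := sorry

theorem arc_L4 (ψ α β : ℝ → ℝ) (hψ : Bump ψ) (hab : Arc α β) :
    ∃ C : ℝ, 0 < C ∧ ∀ L : ℝ, 10 ≤ L → ∀ g : ℝ × ℝ → ℂ, Good g →
      ∫⁻ z, ‖Pl (mA ψ α β L) g z‖ₑ ^ 4 ≤
        ENNReal.ofReal (C * (1 + Real.log L) ^ 2) * ∫⁻ z, ‖g z‖ₑ ^ 4 := sorry

/-! ## P9: L4 bound for the annulus (Carleson-Sjolin) -/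
theorem full_L4 (ψ : ℝ → ℝ) (hψ : Bump ψ) :
    ∃ C : ℝ, 0 < C ∧ ∀ L : ℝ, 10 ≤ L → ∀ g : ℝ × ℝ → ℂ, Good g →
      ∫⁻ z, ‖Pl (mR ψ L) g z‖ₑ ^ 4 ≤
        ENNReal.ofReal (C * (1 + Real.log L) ^ 2) * ∫⁻ z, ‖g z‖ₑ ^ 4 := sorry

/-! ## P10: Riesz projection on L4 -/
theorem riesz4 : ∃ C : ℝ, 0 < C ∧ ∀ a : ℝ → ℂ, Measurable a → (∃ M : ℝ, ∀ s, ‖a s‖ ≤ M) →
    (∃ B : ℝ, ∀ s, a s ≠ 0 → |s| ≤ B) →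
    ∫⁻ x : ℝ, ‖∫ s in Ioi (0 : ℝ), a s * e (x * s)‖ₑ ^ 4 ≤
      ENNReal.ofReal C * ∫⁻ x : ℝ, ‖∫ s : ℝ, a s * e (x * s)‖ₑ ^ 4 := sorry

/-! ## P11: L4 bound for the quarter annulus -/
theorem quarter_L4 (ψ : ℝ → ℝ) (hψ : Bump ψ) :
    ∃ C : ℝ, 0 < C ∧ ∀ L : ℝ, 10 ≤ L → ∀ g : ℝ × ℝ → ℂ, Good g →
      ∫⁻ z, ‖Pl (Q.indicator (mR ψ L)) g z‖ₑ ^ 4 ≤
        ENNReal.ofReal (C * (1 + Real.log L) ^ 2) * ∫⁻ z, ‖g z‖ₑ ^ 4 := sorry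

/-! ## T1: transplantation on L4 -/
theorem transp4 (κ₁ κ₂ : ℝ → ℂ) (h1 : Adm κ₁) (h2 : Adm κ₂) :
    ∃ C : ℝ, 0 < C ∧ ∀ m : ℝ × ℝ → ℂ, Good m → ∀ N : ℝ, 0 ≤ N →
      (∀ g : ℝ × ℝ → ℂ, Good g → ∫⁻ z, ‖Pl (Q.indicator m) g z‖ₑ ^ 4 ≤
        ENNReal.ofReal N * ∫⁻ z, ‖g z‖ₑ ^ 4) →
      ∀ h : ℝ × ℝ → ℂ, Good h → ∫⁻ z in Q, ‖A κ₁ κ₂ m h z‖ₑ ^ 4 ≤
        ENNReal.ofReal (C * N) * ∫⁻ z in Q, ‖h z‖ₑ ^ 4 := sorry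

/-! ## T2: L2 bound for Hankel type transforms -/
theorem hankel_l2 (κ : ℝ → ℂ) (h1 : Adm κ) : ∃ C : ℝ, 0 < C ∧ ∀ h : ℝ → ℂ, Integrable h →
    MemLp h 2 → ∫⁻ s in Ioi (0 : ℝ), ‖∫ r in Ioi (0 : ℝ), κ (s * r) * h r‖ₑ ^ 2 ≤
      ENNReal.ofReal C * ∫⁻ r in Ioi (0 : ℝ), ‖h r‖ₑ ^ 2 := sorry

/-! ## T3: global L2 bound -/
theorem glob2 (κ₁ κ₂ : ℝ → ℂ) (h1 : Adm κ₁) (h2 : Adm κ₂) : ∃ C : ℝ, 0 < C ∧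
    ∀ m : ℝ × ℝ → ℂ, Good m → ∀ M : ℝ, (∀ ξ, ‖m ξ‖ ≤ M) → ∀ h : ℝ × ℝ → ℂ, Good h →
      ∫⁻ z in Q, ‖A κ₁ κ₂ m h z‖ₑ ^ 2 ≤ ENNReal.ofReal (C * M ^ 2) * ∫⁻ z in Q, ‖h z‖ₑ ^ 2 :=
  sorry

/-! ## T4: off diagonal L2 bound in the first variable -/
theorem off1 (κ₁ κ₂ : ℝ → ℂ) (h1 : Adm κ₁) (h2 : Adm κ₂) (h3 : Lom κ₁) (ψ : ℝ → ℝ)
    (hψ : Bump ψ) : ∃ C : ℝ, 0 < C ∧ ∀ L : ℝ, 1 ≤ L → ∀ a b : ℝ, 0 < a → 0 < b →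
    (4 * b ≤ a ∨ 4 * a ≤ b) → ∀ h : ℝ × ℝ → ℂ, Good h → (∀ z, h z ≠ 0 → b ≤ z.1 ∧ z.1 ≤ 2 * b) →
      ∫⁻ z in Icc a (2 * a) ×ˢ Ioi 0, ‖A κ₁ κ₂ (mR ψ L) h z‖ₑ ^ 2 ≤
        ENNReal.ofReal (C * min (a / b) (b / a)) * ∫⁻ z in Q, ‖h z‖ₑ ^ 2 := sorry

/-! ## T5: L2 bound for blocks -/
theorem block2 (κ₁ κ₂ : ℝ → ℂ) (h1 : Adm κ₁) (h2 : Adm κ₂) (h3 : Lom κ₁) (h4 : Lom κ₂)
    (ψ : ℝ → ℝ) (hψ : Bump ψ) : ∃ C : ℝ, 0 < C ∧ ∀ L : ℝ, 1 ≤ L →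
    ∀ a a' b b' : ℝ, 0 < a → 0 < a' → 0 < b → 0 < b' → ∀ h : ℝ × ℝ → ℂ, Good h →
    (∀ z, h z ≠ 0 → (b ≤ z.1 ∧ z.1 ≤ 2 * b) ∧ b' ≤ z.2 ∧ z.2 ≤ 2 * b') →
      ∫⁻ z in Icc a (2 * a) ×ˢ Icc a' (2 * a'), ‖A κ₁ κ₂ (mR ψ L) h z‖ₑ ^ 2 ≤
        ENNReal.ofReal (C * min (min (a / b) (b / a)) (min (a' / b') (b' / a'))) *
          ∫⁻ z in Q, ‖h z‖ₑ ^ 2 := sorry

/-! ## M1, M2: real interpolation -/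
theorem marc24 (p : ℝ) (hp : 2 < p) (hp4 : p < 4) : ∃ C : ℝ, 0 < C ∧
    ∀ {X Y : Type} [MeasurableSpace X] [MeasurableSpace Y] (μ : Measure X) (ν : Measure Y)
      [SFinite μ] (F : Y → ℝ) (f : X → ℝ), Measurable F → Measurable f → (∀ y, 0 ≤ F y) →
      (∀ x, 0 ≤ f x) → ∀ M2 M4 : ℝ, 0 < M2 → 0 < M4 →
      (∀ t : ℝ, 0 < t → ∃ u v : Y → ℝ≥0∞, Measurable u ∧ Measurable v ∧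
        (∀ᵐ y ∂ν, ENNReal.ofReal (F y) ≤ u y + v y) ∧
        ∫⁻ y, u y ^ 2 ∂ν ≤ ENNReal.ofReal M2 * ∫⁻ x in {x | t < f x}, ENNReal.ofReal (f x) ^ 2 ∂μ ∧
        ∫⁻ y, v y ^ 4 ∂ν ≤ ENNReal.ofReal M4 *
          ∫⁻ x in {x | f x ≤ t}, ENNReal.ofReal (f x) ^ 4 ∂μ) →
      ∫⁻ y, ENNReal.ofReal (F y) ^ p ∂ν ≤
        ENNReal.ofReal (C * M2 ^ ((4 - p) / 2) * M4 ^ ((p - 2) / 2)) *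
          ∫⁻ x, ENNReal.ofReal (f x) ^ p ∂μ := sorry

theorem marcInf (p0 p : ℝ) (hp0 : 1 ≤ p0) (hp : p0 < p) : ∃ C : ℝ, 0 < C ∧
    ∀ {X Y : Type} [MeasurableSpace X] [MeasurableSpace Y] (μ : Measure X) (ν : Measure Y)
      [SFinite μ] (F : Y → ℝ) (f : X → ℝ), Measurable F → Measurable f → (∀ y, 0 ≤ F y) →
      (∀ x, 0 ≤ f x) → ∀ M0 M1 : ℝ, 0 < M0 → 0 < M1 →
      (∀ t : ℝ, 0 < t → ∃ u v : Y → ℝ≥0∞, Measurable u ∧ Measurable v ∧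
        (∀ᵐ y ∂ν, ENNReal.ofReal (F y) ≤ u y + v y) ∧
        ∫⁻ y, u y ^ p0 ∂ν ≤ ENNReal.ofReal M0 *
          ∫⁻ x in {x | t < f x}, ENNReal.ofReal (f x) ^ p0 ∂μ ∧
        ∀ᵐ y ∂ν, v y ≤ ENNReal.ofReal (M1 * t)) →
      ∫⁻ y, ENNReal.ofReal (F y) ^ p ∂ν ≤
        ENNReal.ofReal (C * M0 * M1 ^ (p - p0)) * ∫⁻ x, ENNReal.ofReal (f x) ^ p ∂μ := sorry

/-! ## S1: the weighted estimate -/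
theorem weighted (κ₁ κ₂ : ℝ → ℂ) (h1 : Adm κ₁) (h2 : Adm κ₂) (h3 : Lom κ₁) (h4 : Lom κ₂)
    (ψ : ℝ → ℝ) (hψ : Bump ψ) (p a₁ a₂ ε : ℝ) (hp : 2 < p) (hp4 : p < 4) (ha₁ : 0 ≤ a₁)
    (ha₂ : 0 ≤ a₂) (ha : a₁ + a₂ < 2 - p / 2) (hε : 0 < ε) : ∃ C : ℝ, 0 < C ∧
    ∀ L : ℝ, 10 ≤ L → ∀ h : ℝ × ℝ → ℂ, Good h →
      ∫⁻ z in Q, ‖A κ₁ κ₂ (mR ψ L) h z‖ₑ ^ p * ENNReal.ofReal (z.1 ^ (-a₁) * z.2 ^ (-a₂)) ≤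
        ENNReal.ofReal (C * L ^ ε) *
          ∫⁻ z in Q, ‖h z‖ₑ ^ p * ENNReal.ofReal (z.1 ^ (-a₁) * z.2 ^ (-a₂)) := sorry

/-! ## R1: the symmetry types -/
theorem link_even (k m : ℕ) (hk : 1 ≤ k) (hm : 1 ≤ m) (g : ℝ × ℝ → ℂ) (hg : Good g)
    (M : ℝ → ℝ) (hM : Continuous M) (hM2 : ∀ u, 2 < u → M u = 0) (x : E (k + m))
    (hx : bl k m x ∈ Q) : TR (k + m) M (fun y => g (bl k m y)) x =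
      At k m (kap m) (fun ξ => ((M (ξ.1 ^ 2 + ξ.2 ^ 2) : ℝ) : ℂ)) g (bl k m x) := sorry

theorem link_odd (k : ℕ) (hk : 1 ≤ k) (g : ℝ × ℝ → ℂ) (hg : Good g)
    (M : ℝ → ℝ) (hM : Continuous M) (hM2 : ∀ u, 2 < u → M u = 0) (x : E (k + 1))
    (hx : bl k 1 x ∈ Q) :
    TR (k + 1) M (fun y => ((Real.sign (y (Fin.natAdd k 0)) : ℝ) : ℂ) * g (bl k 1 y)) x =
      ((Real.sign (x (Fin.natAdd k 0)) : ℝ) : ℂ) *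
        At k 1 kaps (fun ξ => ((M (ξ.1 ^ 2 + ξ.2 ^ 2) : ℝ) : ℂ)) g (bl k 1 x) := sorry

/-! ## R2: integration in block polar coordinates -/
theorem bl_meas (k m : ℕ) : Measurable (bl k m) := sorry

theorem bl_ae (k m : ℕ) (hk : 1 ≤ k) (hm : 1 ≤ m) : ∀ᵐ x : E (k + m), bl k m x ∈ Q := sorry

theorem bl_surj (k m : ℕ) (hk : 1 ≤ k) (hm : 1 ≤ m) (z : ℝ × ℝ) (hz : z ∈ Q) :
    ∃ x : E (k + m), bl k m x = z := sorry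

theorem bl_lint (k m : ℕ) (hk : 1 ≤ k) (hm : 1 ≤ m) (F : ℝ × ℝ → ℝ≥0∞) (hF : Measurable F) :
    ∫⁻ x : E (k + m), F (bl k m x) =
      sg k univ * sg m univ * ∫⁻ z in Q, F z * ENNReal.ofReal (wt k m z ^ 2) := sorry

/-! ## R3: L1 norm of the kernel -/
theorem ker_L1 (n : ℕ) (hn : 1 ≤ n) (ψ : ℝ → ℝ) (hψ : Bump ψ) (ε : ℝ) (hε : 0 < ε) :
    ∃ C : ℝ, 0 < C ∧ ∀ L : ℝ, 1 ≤ L →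
      ∫⁻ x : E n, ‖∫ ξ : E n, ((ψ (L ^ 2 * (1 - ‖ξ‖ ^ 2)) : ℝ) : ℂ) * e (⟪x, ξ⟫ : ℝ)‖ₑ ≤
        ENNReal.ofReal (C * L ^ ((n : ℝ) - 1 + ε)) := sorry

/-- convolution form of the operator -/
theorem TR_conv (n : ℕ) (M : ℝ → ℝ) (hM : Continuous M) (hM2 : ∀ u, 2 < u → M u = 0)
    (f : E n → ℂ) (hf : Integrable f) (x : E n) :
    TR n M f x = ∫ y : E n, (∫ ξ : E n, ((M (‖ξ‖ ^ 2) : ℝ) : ℂ) * e (⟪x - y, ξ⟫ : ℝ)) * f y :=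
  sorry

/-! ## R4: sup bound for the profile operator -/
theorem At_sup (k m : ℕ) (hk : 1 ≤ k) (hm : 1 ≤ m) (ω : E (k + m) → ℂ) (κ₂ : ℝ → ℂ)
    (hL : Lk k m ω κ₂) (ψ : ℝ → ℝ) (hψ : Bump ψ) (ε : ℝ) (hε : 0 < ε) : ∃ C : ℝ, 0 < C ∧
    ∀ L : ℝ, 1 ≤ L → ∀ g : ℝ × ℝ → ℂ, Good g → ∀ B : ℝ, (∀ z, ‖g z‖ ≤ B) →
      ∀ z ∈ Q, ‖At k m κ₂ (mR ψ L) g z‖ ≤ C * L ^ (((k + m : ℕ) : ℝ) - 1 + ε) * B := sorry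

/-! ## R5: the profile operator for p ≥ 2 -/
theorem qp_big (k m : ℕ) (hk : 1 ≤ k) (hm : 1 ≤ m) (hkm : 3 ≤ k + m) (ω : E (k + m) → ℂ)
    (κ₂ : ℝ → ℂ) (hL : Lk k m ω κ₂) (ψ : ℝ → ℝ) (hψ : Bump ψ) (p s : ℝ) (hp : 2 ≤ p)
    (hs : 0 < s) (hs2 : ((k + m : ℕ) : ℝ) - 1 - 2 * ((k + m : ℕ) : ℝ) / p < s) :
    ∃ C : ℝ, 0 < C ∧ ∀ L : ℝ, 10 ≤ L → ∀ g : ℝ × ℝ → ℂ, Good g →
      ∫⁻ z in Q, ‖At k m κ₂ (mR ψ L) g z‖ₑ ^ p * ENNReal.ofReal (wt k m z ^ 2) ≤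
        ENNReal.ofReal ((C * L ^ s) ^ p) *
          ∫⁻ z in Q, ‖g z‖ₑ ^ p * ENNReal.ofReal (wt k m z ^ 2) := sorry

/-! ## R6: duality -/
theorem A_symm (κ₁ κ₂ : ℝ → ℂ) (h1 : Adm κ₁) (h2 : Adm κ₂) (m : ℝ × ℝ → ℂ) (hm : Good m)
    (h h' : ℝ × ℝ → ℂ) (hh : Good h) (hh' : Good h') :
    ∫ z in Q, A κ₁ κ₂ m h z * h' z = ∫ z in Q, h z * A κ₁ κ₂ m h' z := sorry

theorem qp_small (k m : ℕ) (hk : 1 ≤ k) (hm : 1 ≤ m) (hkm : 3 ≤ k + m) (ω : E (k + m) → ℂ)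
    (κ₂ : ℝ → ℂ) (hL : Lk k m ω κ₂) (ψ : ℝ → ℝ) (hψ : Bump ψ) (p s : ℝ) (hp : 1 < p)
    (hp2 : p < 2) (hs : 0 < s)
    (hs2 : 2 * ((k + m : ℕ) : ℝ) / p - ((k + m : ℕ) : ℝ) - 1 < s) :
    ∃ C : ℝ, 0 < C ∧ ∀ L : ℝ, 10 ≤ L → ∀ g : ℝ × ℝ → ℂ, Good g →
      ∫⁻ z in Q, ‖At k m κ₂ (mR ψ L) g z‖ₑ ^ p * ENNReal.ofReal (wt k m z ^ 2) ≤
        ENNReal.ofReal ((C * L ^ s) ^ p) *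
          ∫⁻ z in Q, ‖g z‖ₑ ^ p * ENNReal.ofReal (wt k m z ^ 2) := sorry

/-! ## R7: decomposition of the multiplier -/
theorem decomp (δ : ℝ) (hδ : 0 < δ) : ∃ ψ : ℝ → ℝ, Bump ψ ∧ ∀ u : ℝ, 0 ≤ u →
    HasSum (fun j : ℕ => (2 : ℝ) ^ (-(δ * j)) * ψ (2 ^ j * (1 - u))) ((max (1 - u) 0) ^ δ) := sorry

/-! ## R8: each piece is bounded on every L^p -/
theorem smooth_Lp (n : ℕ) (hn : 1 ≤ n) (ψ : ℝ → ℝ) (hψ : Bump ψ) (p : ℝ) (hp : 1 ≤ p) (L : ℝ)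
    (hL : 1 ≤ L) : ∃ C : ℝ, 0 < C ∧ ∀ f : SchwartzMap (E n) ℂ,
      eLpNorm (TR n (fun u => ψ (L ^ 2 * (1 - u))) (fun x => f x)) (ENNReal.ofReal p) volume ≤
        ENNReal.ofReal C * eLpNorm (fun x => f x) (ENNReal.ofReal p) volume := sorry

/-! ## R9: from the profile operator to functions on `ℝ^n` -/
theorem rn_bound (k m : ℕ) (hk : 1 ≤ k) (hm : 1 ≤ m) (ω : E (k + m) → ℂ)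
    (κ₂ : ℝ → ℂ) (hL : Lk k m ω κ₂) (ψ : ℝ → ℝ) (hψ : Bump ψ) (p L N : ℝ) (hp : 1 < p)
    (h1L : 1 ≤ L) (hN : 0 < N)
    (hb : ∀ g : ℝ × ℝ → ℂ, Good g →
      ∫⁻ z in Q, ‖At k m κ₂ (mR ψ L) g z‖ₑ ^ p * ENNReal.ofReal (wt k m z ^ 2) ≤
        ENNReal.ofReal (N ^ p) * ∫⁻ z in Q, ‖g z‖ₑ ^ p * ENNReal.ofReal (wt k m z ^ 2))
    (f : E (k + m) → ℂ) (hf : Integrable f) (hfb : ∃ B : ℝ, ∀ x, ‖f x‖ ≤ B)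
    (g : ℝ × ℝ → ℂ) (hg : Measurable g) (hfg : ∀ x, bl k m x ∈ Q → f x = ω x * g (bl k m x)) :
    eLpNorm (TR (k + m) (fun u => ψ (L ^ 2 * (1 - u))) f) (ENNReal.ofReal p) volume ≤
      ENNReal.ofReal N * eLpNorm f (ENNReal.ofReal p) volume := sorry

end Pool.Agent.H438R2.RZ
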