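import Mathlib
import Pool.Agent.H438R2.RZ.Defs
set_option autoImplicit false

/-! # RZ-T1: transplantation on `L^4` (helper602) -/

namespace Pool.Agent.H438R2.RZ.T1aux

open MeasureTheory Set Complex
open scoped ENNReal RealInnerProductSpace

abbrev PP : Type := (ℝ × ℂ) × (ℝ × ℂ)

theorem e_cont : Continuous e := by
  unfold e
  fun_prop

theorem e_norm (x : ℝ) : ‖e x‖ = 1 := by
  unfold e
  exact Complex.norm_exp_ofReal_mul_I _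

theorem e_add (x y : ℝ) : e (x + y) = e x * e y := by
  unfold e
  rw [← Complex.exp_add]
  congr 1
  push_cast
  ring

/-- truncation of the coefficient -/
noncomputable def tu (b : ℂ) : ℂ := if ‖b‖ ≤ 1 then b else 0

theorem tu_meas : Measurable tu :=
  Measurable.ite (measurableSet_le measurable_norm measurable_const) measurable_id
    measurable_const

theorem tu_le (b : ℂ) : ‖tu b‖ ≤ 1 := by
  unfold tu
  split_ifs with h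
  · exact h
  · rw [norm_zero]
    exact zero_le_one

theorem Q_meas : MeasurableSet Q := measurableSet_Ioi.prod measurableSet_Ioi

theorem good_int {g : ℝ × ℝ → ℂ} (hg : Good g) : Integrable g := by
  obtain ⟨hm, ⟨M, hM⟩, B, hB⟩ := hg
  have hsub : Function.support g ⊆ Icc (-B) B ×ˢ Icc (-B) B := by
    intro z hz
    obtain ⟨h1, h2⟩ := hB z hz
    exact ⟨abs_le.1 h1, abs_le.1 h2⟩
  rw [← integrableOn_iff_integrable_of_support_subset hsub]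
  refine Measure.integrableOn_of_bounded ?_ hm.aestronglyMeasurable
    (M := M) (Filter.Eventually.of_forall hM)
  exact (isCompact_Icc.prod isCompact_Icc).measure_lt_top.ne

/-- the representation of an admissible kernel with truncated coefficients -/
theorem adm_rep {κ : ℝ → ℂ} (h : Adm κ) : ∃ ν : Measure (ℝ × ℂ), IsFiniteMeasure ν ∧
    (∀ᵐ q ∂ν, q.1 ≠ 0) ∧ ∫⁻ q, ENNReal.ofReal (|q.1| ^ (-(3 / 4 : ℝ))) ∂ν < ∞ ∧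
    ∀ t : ℝ, 0 < t → κ t = ∫ q, tu q.2 * e (q.1 * t) ∂ν := by
  obtain ⟨ν, h1, h2, h3, h4, h5⟩ := h
  refine ⟨ν, h1, h3, h4, fun t ht => ?_⟩
  rw [h5 t ht]
  refine integral_congr_ae ?_
  filter_upwards [h2] with q hq
  unfold tu
  rw [if_pos hq]

/-- product of the coefficients -/
noncomputable def bc (p : PP) : ℂ := tu p.1.2 * tu p.2.2

theorem bc_meas : Measurable bc := by
  unfold bc
  exact (tu_meas.comp measurable_fst.snd).mul (tu_meas.comp measurable_snd.snd)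

theorem bc_le (p : PP) : ‖bc p‖ ≤ 1 := by
  unfold bc
  rw [norm_mul]
  exact mul_le_one₀ (tu_le _) (norm_nonneg _) (tu_le _)

theorem kap_prod {κ₁ κ₂ : ℝ → ℂ} {ν₁ ν₂ : Measure (ℝ × ℂ)} [IsFiniteMeasure ν₁]
    [IsFiniteMeasure ν₂]
    (h1 : ∀ t : ℝ, 0 < t → κ₁ t = ∫ q, tu q.2 * e (q.1 * t) ∂ν₁)
    (h2 : ∀ t : ℝ, 0 < t → κ₂ t = ∫ q, tu q.2 * e (q.1 * t) ∂ν₂) {s t : ℝ} (hs : 0 < s)
    (ht : 0 < t) :
    κ₁ s * κ₂ t = ∫ p : PP, bc p * e (p.1.1 * s + p.2.1 * t) ∂(ν₁.prod ν₂) := by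
  rw [h1 s hs, h2 t ht, ← integral_prod_mul]
  refine integral_congr_ae (Filter.Eventually.of_forall fun p => ?_)
  show tu p.1.2 * e (p.1.1 * s) * (tu p.2.2 * e (p.2.1 * t)) = bc p * e (p.1.1 * s + p.2.1 * t)
  unfold bc
  rw [e_add]
  ring

/-- the inner transform -/
noncomputable def J (h : ℝ × ℝ → ℂ) (p : PP) (ξ : ℝ × ℝ) : ℂ :=
  ∫ y in Q, e (p.1.1 * (ξ.1 * y.1) + p.2.1 * (ξ.2 * y.2)) * h y

theorem J_meas {h : ℝ × ℝ → ℂ} (hh : Measurable h) :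
    Measurable fun q : PP × (ℝ × ℝ) => J h q.1 q.2 := by
  have h1 : Measurable fun r : (PP × (ℝ × ℝ)) × (ℝ × ℝ) =>
      e (r.1.1.1.1 * (r.1.2.1 * r.2.1) + r.1.1.2.1 * (r.1.2.2 * r.2.2)) * h r.2 := by
    refine Measurable.mul (e_cont.measurable.comp ?_) (hh.comp measurable_snd)
    fun_prop
  exact (h1.stronglyMeasurable.integral_prod_right' (ν := volume.restrict Q)).measurable

theorem J_le {h : ℝ × ℝ → ℂ} (p : PP) (ξ : ℝ × ℝ) :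
    ‖J h p ξ‖ ≤ ∫ y in Q, ‖h y‖ := by
  unfold J
  refine (norm_integral_le_integral_norm _).trans (le_of_eq ?_)
  congr 1
  funext y
  rw [norm_mul, e_norm, one_mul]

theorem V_eq {κ₁ κ₂ : ℝ → ℂ} {ν₁ ν₂ : Measure (ℝ × ℂ)} [IsFiniteMeasure ν₁]
    [IsFiniteMeasure ν₂]
    (h1 : ∀ t : ℝ, 0 < t → κ₁ t = ∫ q, tu q.2 * e (q.1 * t) ∂ν₁)
    (h2 : ∀ t : ℝ, 0 < t → κ₂ t = ∫ q, tu q.2 * e (q.1 * t) ∂ν₂) {h : ℝ × ℝ → ℂ}
    (hh : Good h) {ξ : ℝ × ℝ} (hξ : ξ ∈ Q) :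
    V κ₁ κ₂ h ξ = ∫ p : PP, bc p * J h p ξ ∂(ν₁.prod ν₂) := by
  unfold V
  have e1 : ∀ y ∈ Q, κ₁ (ξ.1 * y.1) * κ₂ (ξ.2 * y.2) * h y =
      ∫ p : PP, bc p * e (p.1.1 * (ξ.1 * y.1) + p.2.1 * (ξ.2 * y.2)) * h y ∂(ν₁.prod ν₂) := by
    intro y hy
    rw [kap_prod h1 h2 (mul_pos hξ.1 hy.1) (mul_pos hξ.2 hy.2), integral_mul_const]
  rw [setIntegral_congr_fun Q_meas e1]
  rw [integral_integral_swap]
  · refine integral_congr_ae (Filter.Eventually.of_forall fun p => ?_)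
    show ∫ y in Q, bc p * e (p.1.1 * (ξ.1 * y.1) + p.2.1 * (ξ.2 * y.2)) * h y = bc p * J h p ξ
    unfold J
    rw [← integral_const_mul]
    congr 1
    funext y
    ring
  · have hi : Integrable (fun y => ‖h y‖) (volume.restrict Q) := (good_int hh).norm.restrict
    refine Integrable.mono' (hi.comp_fst (ν₁.prod ν₂)) ?_ ?_
    · refine Measurable.aestronglyMeasurable ?_
      refine Measurable.mul (Measurable.mul (bc_meas.comp measurable_snd)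
        (e_cont.measurable.comp ?_)) (hh.1.comp measurable_fst)
      fun_prop
    · refine Filter.Eventually.of_forall fun q => ?_
      show ‖bc q.2 * e _ * h q.1‖ ≤ ‖h q.1‖
      rw [norm_mul, norm_mul, e_norm, mul_one]
      exact mul_le_of_le_one_left (norm_nonneg _) (bc_le _)

/-- the outer transform -/
noncomputable def G0 (m h : ℝ × ℝ → ℂ) (p : PP) (x : ℝ × ℝ) : ℂ :=
  ∫ ξ in Q, e (x.1 * ξ.1 + x.2 * ξ.2) * (m ξ * J h p ξ)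

theorem J_meas_comp {α : Type} [MeasurableSpace α] {h : ℝ × ℝ → ℂ} (hh : Measurable h)
    {f : α → PP} {g : α → ℝ × ℝ} (hf : Measurable f) (hg : Measurable g) :
    Measurable fun a => J h (f a) (g a) := by
  have h1 := (J_meas hh).comp (hf.prodMk hg)
  exact h1

theorem G0_meas {m h : ℝ × ℝ → ℂ} (hm : Measurable m) (hh : Measurable h) :
    Measurable fun q : PP × (ℝ × ℝ) => G0 m h q.1 q.2 := by
  have h0 : Measurable fun r : (PP × (ℝ × ℝ)) × (ℝ × ℝ) => J h r.1.1 r.2 :=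
    J_meas_comp hh measurable_fst.fst measurable_snd
  have h2 : Measurable fun r : (PP × (ℝ × ℝ)) × (ℝ × ℝ) =>
      e (r.1.2.1 * r.2.1 + r.1.2.2 * r.2.2) := by
    refine e_cont.measurable.comp ?_
    fun_prop
  have h3 : Measurable fun r : (PP × (ℝ × ℝ)) × (ℝ × ℝ) => m r.2 := hm.comp measurable_snd
  have h1 : Measurable fun r : (PP × (ℝ × ℝ)) × (ℝ × ℝ) =>
      e (r.1.2.1 * r.2.1 + r.1.2.2 * r.2.2) * (m r.2 * J h r.1.1 r.2) := h2.mul (h3.mul h0)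
  exact (h1.stronglyMeasurable.integral_prod_right' (ν := volume.restrict Q)).measurable

theorem G0_meas_comp {α : Type} [MeasurableSpace α] {m h : ℝ × ℝ → ℂ} (hm : Measurable m)
    (hh : Measurable h) {f : α → PP} {g : α → ℝ × ℝ} (hf : Measurable f) (hg : Measurable g) :
    Measurable fun a => G0 m h (f a) (g a) := by
  have h1 := (G0_meas hm hh).comp (hf.prodMk hg)
  exact h1

theorem A_eq {κ₁ κ₂ : ℝ → ℂ} {ν₁ ν₂ : Measure (ℝ × ℂ)} [IsFiniteMeasure ν₁]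
    [IsFiniteMeasure ν₂]
    (h1 : ∀ t : ℝ, 0 < t → κ₁ t = ∫ q, tu q.2 * e (q.1 * t) ∂ν₁)
    (h2 : ∀ t : ℝ, 0 < t → κ₂ t = ∫ q, tu q.2 * e (q.1 * t) ∂ν₂) {m h : ℝ × ℝ → ℂ}
    (hm : Good m) (hh : Good h) {z : ℝ × ℝ} (hz : z ∈ Q) :
    A κ₁ κ₂ m h z = ∫ ω : PP × PP, bc ω.1 * bc ω.2 *
      G0 m h ω.2 (ω.1.1.1 * z.1, ω.1.2.1 * z.2) ∂((ν₁.prod ν₂).prod (ν₁.prod ν₂)) := by
  unfold A
  have e1 : ∀ ξ ∈ Q, κ₁ (z.1 * ξ.1) * κ₂ (z.2 * ξ.2) * m ξ * V κ₁ κ₂ h ξ =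
      ∫ ω : PP × PP, (bc ω.1 * e (ω.1.1.1 * (z.1 * ξ.1) + ω.1.2.1 * (z.2 * ξ.2))) *
        (m ξ * (bc ω.2 * J h ω.2 ξ)) ∂((ν₁.prod ν₂).prod (ν₁.prod ν₂)) := by
    intro ξ hξ
    rw [integral_prod_mul (fun p : PP => bc p * e (p.1.1 * (z.1 * ξ.1) + p.2.1 * (z.2 * ξ.2)))
      (fun p : PP => m ξ * (bc p * J h p ξ)), integral_const_mul, ← V_eq h1 h2 hh hξ,
      ← kap_prod h1 h2 (mul_pos hz.1 hξ.1) (mul_pos hz.2 hξ.2)]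
    ring
  rw [setIntegral_congr_fun Q_meas e1]
  rw [integral_integral_swap]
  · refine integral_congr_ae (Filter.Eventually.of_forall fun ω => ?_)
    show ∫ ξ in Q, (bc ω.1 * e (ω.1.1.1 * (z.1 * ξ.1) + ω.1.2.1 * (z.2 * ξ.2))) *
        (m ξ * (bc ω.2 * J h ω.2 ξ)) =
      bc ω.1 * bc ω.2 * G0 m h ω.2 (ω.1.1.1 * z.1, ω.1.2.1 * z.2)
    unfold G0
    rw [← integral_const_mul]
    congr 1
    funext ξ
    have e2 : ω.1.1.1 * (z.1 * ξ.1) + ω.1.2.1 * (z.2 * ξ.2) =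
        ω.1.1.1 * z.1 * ξ.1 + ω.1.2.1 * z.2 * ξ.2 := by ring
    rw [e2]
    ring
  · set Kh : ℝ := ∫ y in Q, ‖h y‖ with hKh
    have hi : Integrable (fun y => ‖m y‖ * Kh) (volume.restrict Q) :=
      ((good_int hm).norm.restrict).mul_const _
    refine Integrable.mono' (hi.comp_fst ((ν₁.prod ν₂).prod (ν₁.prod ν₂))) ?_ ?_
    · refine Measurable.aestronglyMeasurable ?_
      have m1 : Measurable fun q : (ℝ × ℝ) × (PP × PP) => bc q.2.1 :=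
        bc_meas.comp measurable_snd.fst
      have m2 : Measurable fun q : (ℝ × ℝ) × (PP × PP) =>
          e (q.2.1.1.1 * (z.1 * q.1.1) + q.2.1.2.1 * (z.2 * q.1.2)) := by
        refine e_cont.measurable.comp ?_
        fun_prop
      have m3 : Measurable fun q : (ℝ × ℝ) × (PP × PP) => m q.1 := hm.1.comp measurable_fst
      have m4 : Measurable fun q : (ℝ × ℝ) × (PP × PP) => bc q.2.2 :=
        bc_meas.comp measurable_snd.snd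
      have m5 : Measurable fun q : (ℝ × ℝ) × (PP × PP) => J h q.2.2 q.1 :=
        J_meas_comp hh.1 measurable_snd.snd measurable_fst
      exact (m1.mul m2).mul (m3.mul (m4.mul m5))
    · refine Filter.Eventually.of_forall fun q => ?_
      show ‖bc q.2.1 * e _ * (m q.1 * (bc q.2.2 * J h q.2.2 q.1))‖ ≤ ‖m q.1‖ * Kh
      rw [norm_mul, norm_mul, e_norm, mul_one, norm_mul, norm_mul]
      have a1 := bc_le q.2.1
      have a2 := bc_le q.2.2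
      have a3 : ‖J h q.2.2 q.1‖ ≤ Kh := J_le _ _
      calc ‖bc q.2.1‖ * (‖m q.1‖ * (‖bc q.2.2‖ * ‖J h q.2.2 q.1‖)) ≤
          1 * (‖m q.1‖ * (1 * Kh)) := by gcongr
        _ = ‖m q.1‖ * Kh := by ring

/-! ### scaling -/

theorem map_scale {s t : ℝ} (hs : s ≠ 0) (ht : t ≠ 0) :
    Measure.map (fun z : ℝ × ℝ => (s * z.1, t * z.2)) volume =
      (ENNReal.ofReal |s⁻¹| * ENNReal.ofReal |t⁻¹|) • (volume : Measure (ℝ × ℝ)) := by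
  have h1 := Measure.map_prod_map (volume : Measure ℝ) (volume : Measure ℝ)
    (measurable_const_mul s) (measurable_const_mul t)
  rw [Real.map_volume_mul_left hs, Real.map_volume_mul_left ht, Measure.prod_smul_left,
    Measure.prod_smul_right, smul_smul] at h1
  exact h1.symm

theorem scale_meas (s t : ℝ) : Measurable fun z : ℝ × ℝ => (s * z.1, t * z.2) := by
  fun_prop

theorem lint_scale {s t : ℝ} (hs : s ≠ 0) (ht : t ≠ 0) {g : ℝ × ℝ → ℝ≥0∞} (hg : Measurable g) :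
    ∫⁻ z : ℝ × ℝ, g (s * z.1, t * z.2) =
      ENNReal.ofReal |s⁻¹| * ENNReal.ofReal |t⁻¹| * ∫⁻ z, g z := by
  rw [← lintegral_map hg (scale_meas s t), map_scale hs ht, lintegral_smul_measure, smul_eq_mul]

theorem int_scale {s t : ℝ} (hs : s ≠ 0) (ht : t ≠ 0) {g : ℝ × ℝ → ℂ} (hg : Measurable g) :
    ∫ z : ℝ × ℝ, g (s * z.1, t * z.2) = ((|s⁻¹| * |t⁻¹| : ℝ) : ℂ) * ∫ z, g z := by
  rw [← integral_map (scale_meas s t).aemeasurable hg.aestronglyMeasurable, map_scale hs ht,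
    integral_smul_measure, ENNReal.toReal_mul, ENNReal.toReal_ofReal (abs_nonneg _),
    ENNReal.toReal_ofReal (abs_nonneg _), Complex.real_smul]

/-- the dilated function -/
noncomputable def hv (h : ℝ × ℝ → ℂ) (p : PP) (r : ℝ × ℝ) : ℂ :=
  ((|p.1.1⁻¹| * |p.2.1⁻¹| : ℝ) : ℂ) *
    Q.indicator h (-(p.1.1⁻¹) * r.1, -(p.2.1⁻¹) * r.2)

theorem hv_meas {h : ℝ × ℝ → ℂ} (hh : Measurable h) (p : PP) : Measurable (hv h p) := by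
  have h1 : Measurable (Q.indicator h) := hh.indicator Q_meas
  exact (h1.comp (scale_meas _ _)).const_mul _

theorem ft_hv {h : ℝ × ℝ → ℂ} (hh : Measurable h) {p : PP} (h1 : p.1.1 ≠ 0) (h2 : p.2.1 ≠ 0)
    (ξ : ℝ × ℝ) : ft (hv h p) ξ = J h p ξ := by
  set Ψ : ℝ × ℝ → ℂ := fun y => e (p.1.1 * (ξ.1 * y.1) + p.2.1 * (ξ.2 * y.2)) *
    Q.indicator h y with hΨ
  have hΨm : Measurable Ψ := by
    refine Measurable.mul (e_cont.measurable.comp ?_) (hh.indicator Q_meas)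
    fun_prop
  have e1 : ∀ r : ℝ × ℝ, e (-(r.1 * ξ.1 + r.2 * ξ.2)) * hv h p r =
      ((|p.1.1⁻¹| * |p.2.1⁻¹| : ℝ) : ℂ) * Ψ (-(p.1.1⁻¹) * r.1, -(p.2.1⁻¹) * r.2) := by
    intro r
    have e2 : p.1.1 * (ξ.1 * (-(p.1.1⁻¹) * r.1)) + p.2.1 * (ξ.2 * (-(p.2.1⁻¹) * r.2)) =
        -(r.1 * ξ.1 + r.2 * ξ.2) := by
      field_simp
      ring
    show e (-(r.1 * ξ.1 + r.2 * ξ.2)) * (_ * _) = _ *
      (e (p.1.1 * (ξ.1 * (-(p.1.1⁻¹) * r.1)) + p.2.1 * (ξ.2 * (-(p.2.1⁻¹) * r.2))) * _)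
    rw [e2]
    ring
  unfold ft
  simp_rw [e1]
  rw [integral_const_mul, int_scale (neg_ne_zero.2 (inv_ne_zero h1))
    (neg_ne_zero.2 (inv_ne_zero h2)) hΨm, ← mul_assoc, ← Complex.ofReal_mul]
  have e3 : |p.1.1⁻¹| * |p.2.1⁻¹| * (|(-(p.1.1⁻¹))⁻¹| * |(-(p.2.1⁻¹))⁻¹|) = 1 := by
    rw [inv_neg, inv_neg, abs_neg, abs_neg, inv_inv, inv_inv, abs_inv, abs_inv]
    have a1 : |p.1.1| ≠ 0 := abs_ne_zero.2 h1
    have a2 : |p.2.1| ≠ 0 := abs_ne_zero.2 h2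
    field_simp
  rw [e3, Complex.ofReal_one, one_mul]
  unfold J
  rw [← integral_indicator Q_meas]
  congr 1
  funext y
  show e (p.1.1 * (ξ.1 * y.1) + p.2.1 * (ξ.2 * y.2)) * Q.indicator h y = _
  by_cases hy : y ∈ Q
  · rw [Set.indicator_of_mem hy, Set.indicator_of_mem hy]
  · rw [Set.indicator_of_notMem hy, Set.indicator_of_notMem hy, mul_zero]

theorem G0_eq {m h : ℝ × ℝ → ℂ} (hh : Measurable h) {p : PP} (h1 : p.1.1 ≠ 0) (h2 : p.2.1 ≠ 0)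
    (x : ℝ × ℝ) : G0 m h p x = Pl (Q.indicator m) (hv h p) x := by
  unfold G0 Pl
  rw [← integral_indicator Q_meas]
  congr 1
  funext ξ
  rw [ft_hv hh h1 h2]
  by_cases hy : ξ ∈ Q
  · rw [Set.indicator_of_mem hy, Set.indicator_of_mem hy]
    ring
  · rw [Set.indicator_of_notMem hy, Set.indicator_of_notMem hy, zero_mul, zero_mul]

theorem hv_good {h : ℝ × ℝ → ℂ} (hh : Good h) {p : PP} (h1 : p.1.1 ≠ 0) (h2 : p.2.1 ≠ 0) :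
    Good (hv h p) := by
  obtain ⟨hm, ⟨M, hM⟩, B, hB⟩ := hh
  refine ⟨hv_meas hm p, ⟨|p.1.1⁻¹| * |p.2.1⁻¹| * |M|, fun z => ?_⟩,
    |B| * |p.1.1| + |B| * |p.2.1|, fun z hz => ?_⟩
  · unfold hv
    rw [norm_mul, Complex.norm_real, Real.norm_eq_abs, abs_of_nonneg (by positivity)]
    refine mul_le_mul_of_nonneg_left ?_ (by positivity)
    refine (norm_indicator_le_norm_self _ _).trans ((hM _).trans (le_abs_self M))
  · have h3 : Q.indicator h (-(p.1.1⁻¹) * z.1, -(p.2.1⁻¹) * z.2) ≠ 0 := by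
      intro h0
      apply hz
      unfold hv
      rw [h0, mul_zero]
    have h4 : h (-(p.1.1⁻¹) * z.1, -(p.2.1⁻¹) * z.2) ≠ 0 := by
      intro h0
      apply h3
      by_cases hy : (-(p.1.1⁻¹) * z.1, -(p.2.1⁻¹) * z.2) ∈ Q
      · rw [Set.indicator_of_mem hy, h0]
      · rw [Set.indicator_of_notMem hy]
    obtain ⟨h5, h6⟩ := hB _ h4
    have a1 : 0 < |p.1.1| := abs_pos.2 h1
    have a2 : 0 < |p.2.1| := abs_pos.2 h2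
    simp only [abs_mul, abs_neg, abs_inv] at h5 h6
    rw [inv_mul_le_iff₀ a1] at h5
    rw [inv_mul_le_iff₀ a2] at h6
    have h7 : |p.1.1| * B ≤ |B| * |p.1.1| := by
      rw [mul_comm]
      exact mul_le_mul_of_nonneg_right (le_abs_self B) a1.le
    have h8 : |p.2.1| * B ≤ |B| * |p.2.1| := by
      rw [mul_comm]
      exact mul_le_mul_of_nonneg_right (le_abs_self B) a2.le
    have h9 : 0 ≤ |B| * |p.1.1| := by positivity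
    have h10 : 0 ≤ |B| * |p.2.1| := by positivity
    exact ⟨by linarith, by linarith⟩

theorem lint_hv {h : ℝ × ℝ → ℂ} (hh : Measurable h) {p : PP} (h1 : p.1.1 ≠ 0)
    (h2 : p.2.1 ≠ 0) : ∫⁻ z, ‖hv h p z‖ₑ ^ 4 =
      (ENNReal.ofReal |p.1.1⁻¹| * ENNReal.ofReal |p.2.1⁻¹|) ^ 3 * ∫⁻ z in Q, ‖h z‖ₑ ^ 4 := by
  have e1 : ∀ z : ℝ × ℝ, ‖hv h p z‖ₑ ^ 4 =
      (ENNReal.ofReal |p.1.1⁻¹| * ENNReal.ofReal |p.2.1⁻¹|) ^ 4 *
        (fun y : ℝ × ℝ => ‖Q.indicator h y‖ₑ ^ 4) (-(p.1.1⁻¹) * z.1, -(p.2.1⁻¹) * z.2) := by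
    intro z
    unfold hv
    rw [enorm_mul, mul_pow]
    congr 2
    rw [← ofReal_norm, Complex.norm_real, Real.norm_eq_abs,
      abs_of_nonneg (by positivity), ENNReal.ofReal_mul (abs_nonneg _)]
  have hm : Measurable fun y : ℝ × ℝ => ‖Q.indicator h y‖ₑ ^ 4 :=
    ((hh.indicator Q_meas).enorm).pow_const 4
  have e5 : ∫⁻ z : ℝ × ℝ, (fun y : ℝ × ℝ => ‖Q.indicator h y‖ₑ ^ 4)
      (-(p.1.1⁻¹) * z.1, -(p.2.1⁻¹) * z.2) =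
      ENNReal.ofReal |(-(p.1.1⁻¹))⁻¹| * ENNReal.ofReal |(-(p.2.1⁻¹))⁻¹| *
        ∫⁻ z, ‖Q.indicator h z‖ₑ ^ 4 :=
    lint_scale (neg_ne_zero.2 (inv_ne_zero h1)) (neg_ne_zero.2 (inv_ne_zero h2)) hm
  have hc : (ENNReal.ofReal |p.1.1⁻¹| * ENNReal.ofReal |p.2.1⁻¹|) ^ 4 ≠ ∞ :=
    ENNReal.pow_ne_top (ENNReal.mul_ne_top ENNReal.ofReal_ne_top ENNReal.ofReal_ne_top)
  rw [lintegral_congr e1, lintegral_const_mul' _ _ hc, e5]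
  have e2 : ∫⁻ z, ‖Q.indicator h z‖ₑ ^ 4 = ∫⁻ z in Q, ‖h z‖ₑ ^ 4 := by
    rw [← lintegral_indicator Q_meas]
    congr 1
    funext y
    by_cases hy : y ∈ Q
    · rw [Set.indicator_of_mem hy, Set.indicator_of_mem hy]
    · rw [Set.indicator_of_notMem hy, Set.indicator_of_notMem hy, enorm_zero]
      norm_num
  rw [e2, ← mul_assoc]
  congr 1
  have e3 : ENNReal.ofReal |p.1.1⁻¹| * ENNReal.ofReal |(-(p.1.1⁻¹))⁻¹| = 1 := by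
    rw [← ENNReal.ofReal_mul (abs_nonneg _), inv_neg, abs_neg, inv_inv, abs_inv,
      inv_mul_cancel₀ (abs_ne_zero.2 h1), ENNReal.ofReal_one]
  have e4 : ENNReal.ofReal |p.2.1⁻¹| * ENNReal.ofReal |(-(p.2.1⁻¹))⁻¹| = 1 := by
    rw [← ENNReal.ofReal_mul (abs_nonneg _), inv_neg, abs_neg, inv_inv, abs_inv,
      inv_mul_cancel₀ (abs_ne_zero.2 h2), ENNReal.ofReal_one]
  calc (ENNReal.ofReal |p.1.1⁻¹| * ENNReal.ofReal |p.2.1⁻¹|) ^ 4 *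
        (ENNReal.ofReal |(-(p.1.1⁻¹))⁻¹| * ENNReal.ofReal |(-(p.2.1⁻¹))⁻¹|) =
      (ENNReal.ofReal |p.1.1⁻¹| * ENNReal.ofReal |p.2.1⁻¹|) ^ 3 *
        ((ENNReal.ofReal |p.1.1⁻¹| * ENNReal.ofReal |(-(p.1.1⁻¹))⁻¹|) *
          (ENNReal.ofReal |p.2.1⁻¹| * ENNReal.ofReal |(-(p.2.1⁻¹))⁻¹|)) := by ring
    _ = _ := by rw [e3, e4, mul_one, mul_one]

theorem Pl_meas {m g : ℝ × ℝ → ℂ} (hm : Measurable m) (hg : Measurable g) :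
    Measurable (Pl m g) := by
  have h0 : Measurable fun ξ : ℝ × ℝ => ft g ξ := by
    have h1 : Measurable fun r : (ℝ × ℝ) × (ℝ × ℝ) =>
        e (-(r.2.1 * r.1.1 + r.2.2 * r.1.2)) * g r.2 := by
      refine Measurable.mul (e_cont.measurable.comp ?_) (hg.comp measurable_snd)
      fun_prop
    exact (h1.stronglyMeasurable.integral_prod_right' (ν := volume)).measurable
  have h2 : Measurable fun r : (ℝ × ℝ) × (ℝ × ℝ) =>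
      m r.2 * ft g r.2 * e (r.1.1 * r.2.1 + r.1.2 * r.2.2) := by
    have a1 : Measurable fun r : (ℝ × ℝ) × (ℝ × ℝ) => m r.2 := hm.comp measurable_snd
    have a2 : Measurable fun r : (ℝ × ℝ) × (ℝ × ℝ) => ft g r.2 := h0.comp measurable_snd
    have a3 : Measurable fun r : (ℝ × ℝ) × (ℝ × ℝ) =>
        e (r.1.1 * r.2.1 + r.1.2 * r.2.2) := by
      refine e_cont.measurable.comp ?_
      fun_prop
    exact (a1.mul a2).mul a3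
  exact (h2.stronglyMeasurable.integral_prod_right' (ν := volume)).measurable

theorem inner_bound {m h : ℝ × ℝ → ℂ} (hm : Good m) (hh : Good h) {N : ℝ}
    (hN : ∀ g : ℝ × ℝ → ℂ, Good g → ∫⁻ z, ‖Pl (Q.indicator m) g z‖ₑ ^ 4 ≤
        ENNReal.ofReal N * ∫⁻ z, ‖g z‖ₑ ^ 4) {p : PP} (h1 : p.1.1 ≠ 0) (h2 : p.2.1 ≠ 0)
    {a1 a2 : ℝ} (ha1 : a1 ≠ 0) (ha2 : a2 ≠ 0) :
    ∫⁻ z in Q, ‖G0 m h p (a1 * z.1, a2 * z.2)‖ₑ ^ 4 ≤
      (ENNReal.ofReal |a1⁻¹| * ENNReal.ofReal |a2⁻¹|) *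
        (ENNReal.ofReal N * ((ENNReal.ofReal |p.1.1⁻¹| * ENNReal.ofReal |p.2.1⁻¹|) ^ 3 *
          ∫⁻ z in Q, ‖h z‖ₑ ^ 4)) := by
  refine (setLIntegral_le_lintegral Q _).trans ?_
  have hmm : Measurable fun x : ℝ × ℝ => ‖Pl (Q.indicator m) (hv h p) x‖ₑ ^ 4 :=
    ((Pl_meas (hm.1.indicator Q_meas) (hv_meas hh.1 p)).enorm).pow_const 4
  have e1 : ∫⁻ z : ℝ × ℝ, ‖G0 m h p (a1 * z.1, a2 * z.2)‖ₑ ^ 4 =
      ∫⁻ z : ℝ × ℝ, (fun x : ℝ × ℝ => ‖Pl (Q.indicator m) (hv h p) x‖ₑ ^ 4)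
        (a1 * z.1, a2 * z.2) := by
    refine lintegral_congr fun z => ?_
    rw [G0_eq hh.1 h1 h2]
  rw [e1, lint_scale ha1 ha2 hmm, ← lint_hv hh.1 h1 h2]
  gcongr
  exact hN _ (hv_good hh h1 h2)

/-! ### Hölder -/

theorem holder4 {Ω : Type} [MeasurableSpace Ω] (μ : Measure Ω) {f w : Ω → ℝ≥0∞}
    (hf : AEMeasurable f μ) (hw : AEMeasurable w μ) (h0 : ∀ᵐ x ∂μ, w x ≠ 0 ∧ w x ≠ ∞) :
    (∫⁻ x, f x ∂μ) ^ 4 ≤ (∫⁻ x, w x ∂μ) ^ 3 * ∫⁻ x, f x ^ 4 * ((w x)⁻¹) ^ 3 ∂μ := by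
  have hpq : (4 : ℝ).HolderConjugate (4 / 3) := by
    rw [Real.holderConjugate_iff]
    norm_num
  have h1 := ENNReal.lintegral_mul_le_Lp_mul_Lq μ hpq
    (f := fun x => f x * (w x) ^ (-(3 / 4) : ℝ)) (g := fun x => (w x) ^ (3 / 4 : ℝ))
    (hf.mul (hw.pow_const _)) (hw.pow_const _)
  have e1 : ∫⁻ x, ((fun x => f x * (w x) ^ (-(3 / 4) : ℝ)) * fun x => (w x) ^ (3 / 4 : ℝ)) x ∂μ =
      ∫⁻ x, f x ∂μ := by
    refine lintegral_congr_ae ?_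
    filter_upwards [h0] with x hx
    show f x * (w x) ^ (-(3 / 4) : ℝ) * (w x) ^ (3 / 4 : ℝ) = f x
    rw [mul_assoc, ← ENNReal.rpow_add _ _ hx.1 hx.2]
    norm_num
  have e2 : ∀ x, (f x * (w x) ^ (-(3 / 4) : ℝ)) ^ (4 : ℝ) = f x ^ 4 * ((w x)⁻¹) ^ 3 := by
    intro x
    rw [ENNReal.mul_rpow_of_nonneg _ _ (by norm_num), ← ENNReal.rpow_mul]
    congr 1
    · have : (4 : ℝ) = ((4 : ℕ) : ℝ) := by norm_num
      rw [this, ENNReal.rpow_natCast]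
    · have : (-(3 / 4) : ℝ) * 4 = -((3 : ℕ) : ℝ) := by norm_num
      rw [this, ENNReal.rpow_neg, ENNReal.rpow_natCast, ENNReal.inv_pow]
  have e3 : ∀ x, ((w x) ^ (3 / 4 : ℝ)) ^ (4 / 3 : ℝ) = w x := by
    intro x
    rw [← ENNReal.rpow_mul]
    norm_num
  rw [e1] at h1
  simp_rw [e2, e3] at h1
  have h2 := pow_le_pow_left' h1 4
  refine h2.trans (le_of_eq ?_)
  rw [mul_pow]
  have e4 : ∀ x : ℝ≥0∞, (x ^ (1 / 4 : ℝ)) ^ 4 = x := by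
    intro x
    rw [← ENNReal.rpow_natCast, ← ENNReal.rpow_mul]
    norm_num
  have e5 : ∀ x : ℝ≥0∞, (x ^ (1 / (4 / 3) : ℝ)) ^ 4 = x ^ 3 := by
    intro x
    rw [← ENNReal.rpow_natCast, ← ENNReal.rpow_mul, ← ENNReal.rpow_natCast]
    congr 1
    norm_num
  rw [e4, e5, mul_comm]

/-! ### weights -/

noncomputable def u14 (x : ℝ) : ℝ≥0∞ := ENNReal.ofReal (|x| ^ (-(1 / 4 : ℝ)))

noncomputable def u34 (x : ℝ) : ℝ≥0∞ := ENNReal.ofReal (|x| ^ (-(3 / 4 : ℝ)))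

theorem u14_meas : Measurable u14 := by
  unfold u14
  fun_prop

theorem u34_meas : Measurable u34 := by
  unfold u34
  fun_prop

theorem u14_pow (a : ℝ) : u14 a ^ 4 = ENNReal.ofReal |a⁻¹| := by
  unfold u14
  rw [← ENNReal.ofReal_pow (by positivity), ← Real.rpow_natCast,
    ← Real.rpow_mul (abs_nonneg a), abs_inv]
  congr 1
  have : (-(1 / 4 : ℝ)) * ((4 : ℕ) : ℝ) = -1 := by norm_num
  rw [this, Real.rpow_neg_one]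

theorem u34_pow (a : ℝ) : u34 a ^ 4 = ENNReal.ofReal |a⁻¹| ^ 3 := by
  unfold u34
  rw [← ENNReal.ofReal_pow (by positivity), ← ENNReal.ofReal_pow (abs_nonneg _),
    ← Real.rpow_natCast, ← Real.rpow_mul (abs_nonneg a), abs_inv]
  congr 1
  have : (-(3 / 4 : ℝ)) * ((4 : ℕ) : ℝ) = -((3 : ℕ) : ℝ) := by norm_num
  rw [this, Real.rpow_neg (abs_nonneg a), Real.rpow_natCast, inv_pow]

theorem u14_ne {a : ℝ} (ha : a ≠ 0) : u14 a ≠ 0 := by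
  unfold u14
  have : 0 < |a| := abs_pos.2 ha
  exact (ENNReal.ofReal_pos.2 (by positivity)).ne'

theorem u34_ne {a : ℝ} (ha : a ≠ 0) : u34 a ≠ 0 := by
  unfold u34
  have : 0 < |a| := abs_pos.2 ha
  exact (ENNReal.ofReal_pos.2 (by positivity)).ne'

theorem u14_le (a : ℝ) : u14 a ≤ 1 + u34 a := by
  by_cases h0 : a = 0
  · subst h0
    unfold u14
    rw [abs_zero, Real.zero_rpow (by norm_num), ENNReal.ofReal_zero]
    exact zero_le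
  · have hp : 0 < |a| := abs_pos.2 h0
    unfold u14 u34
    rw [← ENNReal.ofReal_one, ← ENNReal.ofReal_add zero_le_one (by positivity)]
    refine ENNReal.ofReal_le_ofReal ?_
    have h2 : 0 ≤ |a| ^ (-(3 / 4 : ℝ)) := by positivity
    rcases le_total 1 |a| with h | h
    · have h1 := Real.rpow_le_one_of_one_le_of_nonpos h (by norm_num : (-(1 / 4 : ℝ)) ≤ 0)
      linarith
    · have h1 := Real.rpow_le_rpow_of_exponent_ge hp h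
        (by norm_num : (-(3 / 4 : ℝ)) ≤ -(1 / 4 : ℝ))
      linarith

noncomputable def ww (ω : PP × PP) : ℝ≥0∞ :=
  (u14 ω.1.1.1 * u14 ω.1.2.1) * (u34 ω.2.1.1 * u34 ω.2.2.1)

theorem ww_meas : Measurable ww := by
  unfold ww
  exact ((u14_meas.comp measurable_fst.fst.fst).mul (u14_meas.comp measurable_fst.snd.fst)).mul
    ((u34_meas.comp measurable_snd.fst.fst).mul (u34_meas.comp measurable_snd.snd.fst))

theorem ww_pow (ω : PP × PP) : ww ω ^ 4 =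
    (ENNReal.ofReal |ω.1.1.1⁻¹| * ENNReal.ofReal |ω.1.2.1⁻¹|) *
      (ENNReal.ofReal |ω.2.1.1⁻¹| * ENNReal.ofReal |ω.2.2.1⁻¹|) ^ 3 := by
  unfold ww
  rw [mul_pow, mul_pow, mul_pow, u14_pow, u14_pow, u34_pow, u34_pow, mul_pow]

theorem ww_fin (ω : PP × PP) : ww ω ≠ ∞ := by
  unfold ww u14 u34
  exact ENNReal.mul_ne_top (ENNReal.mul_ne_top ENNReal.ofReal_ne_top ENNReal.ofReal_ne_top)
    (ENNReal.mul_ne_top ENNReal.ofReal_ne_top ENNReal.ofReal_ne_top)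

theorem ww_int {ν₁ ν₂ : Measure (ℝ × ℂ)} [IsFiniteMeasure ν₁] [IsFiniteMeasure ν₂]
    (h1 : ∫⁻ q, ENNReal.ofReal (|q.1| ^ (-(3 / 4 : ℝ))) ∂ν₁ < ∞)
    (h2 : ∫⁻ q, ENNReal.ofReal (|q.1| ^ (-(3 / 4 : ℝ))) ∂ν₂ < ∞) :
    ∫⁻ ω, ww ω ∂((ν₁.prod ν₂).prod (ν₁.prod ν₂)) ≠ ∞ := by
  have m14 : Measurable fun q : ℝ × ℂ => u14 q.1 := u14_meas.comp measurable_fst
  have m34 : Measurable fun q : ℝ × ℂ => u34 q.1 := u34_meas.comp measurable_fst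
  have k1 : ∀ ν : Measure (ℝ × ℂ), IsFiniteMeasure ν →
      ∫⁻ q, ENNReal.ofReal (|q.1| ^ (-(3 / 4 : ℝ))) ∂ν < ∞ → ∫⁻ q, u14 q.1 ∂ν ≠ ∞ := by
    intro ν hν h
    have h3 : ∫⁻ q, u14 q.1 ∂ν ≤ ∫⁻ q, (1 + u34 q.1) ∂ν := lintegral_mono fun q => u14_le _
    rw [lintegral_add_left measurable_const, lintegral_const, one_mul] at h3
    exact (lt_of_le_of_lt h3 (ENNReal.add_lt_top.2 ⟨measure_lt_top ν _, h⟩)).ne
  have e1 : ∫⁻ ω, ww ω ∂((ν₁.prod ν₂).prod (ν₁.prod ν₂)) =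
      ((∫⁻ q, u14 q.1 ∂ν₁) * ∫⁻ q, u14 q.1 ∂ν₂) * ((∫⁻ q, u34 q.1 ∂ν₁) * ∫⁻ q, u34 q.1 ∂ν₂) := by
    have a1 : Measurable fun p : PP => u14 p.1.1 * u14 p.2.1 :=
      (u14_meas.comp measurable_fst.fst).mul (u14_meas.comp measurable_snd.fst)
    have a2 : Measurable fun p : PP => u34 p.1.1 * u34 p.2.1 :=
      (u34_meas.comp measurable_fst.fst).mul (u34_meas.comp measurable_snd.fst)
    unfold ww
    rw [lintegral_prod_mul (f := fun p : PP => u14 p.1.1 * u14 p.2.1)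
      (g := fun p : PP => u34 p.1.1 * u34 p.2.1) a1.aemeasurable a2.aemeasurable,
      lintegral_prod_mul (f := fun q : ℝ × ℂ => u14 q.1) (g := fun q : ℝ × ℂ => u14 q.1)
        m14.aemeasurable m14.aemeasurable,
      lintegral_prod_mul (f := fun q : ℝ × ℂ => u34 q.1) (g := fun q : ℝ × ℂ => u34 q.1)
        m34.aemeasurable m34.aemeasurable]
  rw [e1]
  exact ENNReal.mul_ne_top (ENNReal.mul_ne_top (k1 ν₁ inferInstance h1) (k1 ν₂ inferInstance h2))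
    (ENNReal.mul_ne_top h1.ne h2.ne)

attribute [local irreducible] J G0 u14 u34

/-- the integrand -/
noncomputable def ff (m h : ℝ × ℝ → ℂ) (z : ℝ × ℝ) (ω : PP × PP) : ℝ≥0∞ :=
  ‖G0 m h ω.2 (ω.1.1.1 * z.1, ω.1.2.1 * z.2)‖ₑ

theorem ff_meas {m h : ℝ × ℝ → ℂ} (hm : Measurable m) (hh : Measurable h) :
    Measurable fun q : (ℝ × ℝ) × (PP × PP) => ff m h q.1 q.2 := by
  have a1 : Measurable fun q : (ℝ × ℝ) × (PP × PP) => q.2.2 := measurable_snd.snd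
  have a2 : Measurable fun q : (ℝ × ℝ) × (PP × PP) =>
      (q.2.1.1.1 * q.1.1, q.2.1.2.1 * q.1.2) := by fun_prop
  exact (G0_meas_comp hm hh a1 a2).enorm

theorem ff_meas' {m h : ℝ × ℝ → ℂ} (hm : Measurable m) (hh : Measurable h) (z : ℝ × ℝ) :
    Measurable fun ω : PP × PP => ff m h z ω := by
  have a1 : Measurable fun ω : PP × PP => ω.2 := measurable_snd
  have a2 : Measurable fun ω : PP × PP => (ω.1.1.1 * z.1, ω.1.2.1 * z.2) := by fun_prop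
  exact (G0_meas_comp hm hh a1 a2).enorm

theorem ww_ne {ω : PP × PP}
    (hω : (ω.1.1.1 ≠ 0 ∧ ω.1.2.1 ≠ 0) ∧ (ω.2.1.1 ≠ 0 ∧ ω.2.2.1 ≠ 0)) : ww ω ≠ 0 := by
  unfold ww
  exact mul_ne_zero (mul_ne_zero (u14_ne hω.1.1) (u14_ne hω.1.2))
    (mul_ne_zero (u34_ne hω.2.1) (u34_ne hω.2.2))

theorem pt_bound {κ₁ κ₂ : ℝ → ℂ} {ν₁ ν₂ : Measure (ℝ × ℂ)} [IsFiniteMeasure ν₁]
    [IsFiniteMeasure ν₂]
    (h1 : ∀ t : ℝ, 0 < t → κ₁ t = ∫ q, tu q.2 * e (q.1 * t) ∂ν₁)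
    (h2 : ∀ t : ℝ, 0 < t → κ₂ t = ∫ q, tu q.2 * e (q.1 * t) ∂ν₂)
    (hΛ4 : ∀ᵐ ω ∂((ν₁.prod ν₂).prod (ν₁.prod ν₂)),
      (ω.1.1.1 ≠ 0 ∧ ω.1.2.1 ≠ 0) ∧ (ω.2.1.1 ≠ 0 ∧ ω.2.2.1 ≠ 0))
    {m h : ℝ × ℝ → ℂ} (hm : Good m) (hh : Good h) {z : ℝ × ℝ} (hz : z ∈ Q) :
    ‖A κ₁ κ₂ m h z‖ₑ ^ 4 ≤ (∫⁻ ω, ww ω ∂((ν₁.prod ν₂).prod (ν₁.prod ν₂))) ^ 3 *
      ∫⁻ ω, ff m h z ω ^ 4 * ((ww ω)⁻¹) ^ 3 ∂((ν₁.prod ν₂).prod (ν₁.prod ν₂)) := by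
  have b1 : ‖A κ₁ κ₂ m h z‖ₑ ≤ ∫⁻ ω, ff m h z ω ∂((ν₁.prod ν₂).prod (ν₁.prod ν₂)) := by
    rw [A_eq h1 h2 hm hh hz]
    refine (enorm_integral_le_lintegral_enorm _).trans (lintegral_mono fun ω => ?_)
    show ‖bc ω.1 * bc ω.2 * G0 m h ω.2 (ω.1.1.1 * z.1, ω.1.2.1 * z.2)‖ₑ ≤
      ‖G0 m h ω.2 (ω.1.1.1 * z.1, ω.1.2.1 * z.2)‖ₑ
    rw [enorm_mul]
    refine mul_le_of_le_one_left' ?_
    rw [← ofReal_norm, ← ENNReal.ofReal_one, norm_mul]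
    exact ENNReal.ofReal_le_ofReal (mul_le_one₀ (bc_le _) (norm_nonneg _) (bc_le _))
  refine (pow_le_pow_left' b1 4).trans ?_
  refine holder4 _ (ff_meas' hm.1 hh.1 z).aemeasurable ww_meas.aemeasurable ?_
  filter_upwards [hΛ4] with ω hω
  exact ⟨ww_ne hω, ww_fin ω⟩

theorem om_bound {m h : ℝ × ℝ → ℂ} (hm : Good m) (hh : Good h) {N : ℝ}
    (hN : ∀ g : ℝ × ℝ → ℂ, Good g → ∫⁻ z, ‖Pl (Q.indicator m) g z‖ₑ ^ 4 ≤
        ENNReal.ofReal N * ∫⁻ z, ‖g z‖ₑ ^ 4) {ω : PP × PP}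
    (hω : (ω.1.1.1 ≠ 0 ∧ ω.1.2.1 ≠ 0) ∧ (ω.2.1.1 ≠ 0 ∧ ω.2.2.1 ≠ 0)) :
    ∫⁻ z in Q, ff m h z ω ^ 4 * ((ww ω)⁻¹) ^ 3 ≤
      ww ω * (ENNReal.ofReal N * ∫⁻ z in Q, ‖h z‖ₑ ^ 4) := by
  have hw0 : ww ω ≠ 0 := ww_ne hω
  have hwi : (ww ω)⁻¹ ^ 3 ≠ ∞ := ENNReal.pow_ne_top (ENNReal.inv_ne_top.2 hw0)
  rw [lintegral_mul_const' _ _ hwi]
  have b1 := inner_bound hm hh hN hω.2.1 hω.2.2 hω.1.1 hω.1.2
  have b2 : ∫⁻ z in Q, ff m h z ω ^ 4 ≤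
      ww ω ^ 4 * (ENNReal.ofReal N * ∫⁻ z in Q, ‖h z‖ₑ ^ 4) := by
    refine le_trans (le_of_eq ?_) (b1.trans (le_of_eq ?_))
    · rfl
    · rw [ww_pow]
      ring
  refine (mul_le_mul_left b2 _).trans (le_of_eq ?_)
  have b3 : ww ω * (ww ω)⁻¹ = 1 := ENNReal.mul_inv_cancel hw0 (ww_fin ω)
  generalize ENNReal.ofReal N * ∫⁻ z in Q, ‖h z‖ₑ ^ 4 = T
  calc ww ω ^ 4 * T * (ww ω)⁻¹ ^ 3 = (ww ω * (ww ω)⁻¹) ^ 3 * (ww ω * T) := by ring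
    _ = ww ω * T := by rw [b3, one_pow, one_mul]

theorem main_bound (Λ : Measure (PP × PP)) [SFinite Λ]
    (hΛ4 : ∀ᵐ ω ∂Λ, (ω.1.1.1 ≠ 0 ∧ ω.1.2.1 ≠ 0) ∧ (ω.2.1.1 ≠ 0 ∧ ω.2.2.1 ≠ 0))
    (hW : ∫⁻ ω, ww ω ∂Λ ≠ ∞) {m h : ℝ × ℝ → ℂ} (hm : Good m) (hh : Good h) {N : ℝ}
    (hN : ∀ g : ℝ × ℝ → ℂ, Good g → ∫⁻ z, ‖Pl (Q.indicator m) g z‖ₑ ^ 4 ≤
        ENNReal.ofReal N * ∫⁻ z, ‖g z‖ₑ ^ 4) {a : ℝ × ℝ → ℝ≥0∞}
    (ha : ∀ z ∈ Q, a z ≤ (∫⁻ ω, ww ω ∂Λ) ^ 3 *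
      ∫⁻ ω, ff m h z ω ^ 4 * ((ww ω)⁻¹) ^ 3 ∂Λ) :
    ∫⁻ z in Q, a z ≤
      (∫⁻ ω, ww ω ∂Λ) ^ 4 * (ENNReal.ofReal N * ∫⁻ z in Q, ‖h z‖ₑ ^ 4) := by
  have hW3 : (∫⁻ ω, ww ω ∂Λ) ^ 3 ≠ ∞ := ENNReal.pow_ne_top hW
  have s1 : ∫⁻ z in Q, a z ≤ (∫⁻ ω, ww ω ∂Λ) ^ 3 *
      ∫⁻ z in Q, (∫⁻ ω, ff m h z ω ^ 4 * ((ww ω)⁻¹) ^ 3 ∂Λ) := by
    rw [← lintegral_const_mul' _ _ hW3]
    exact setLIntegral_mono' Q_meas ha
  have s2 : ∫⁻ z in Q, (∫⁻ ω, ff m h z ω ^ 4 * ((ww ω)⁻¹) ^ 3 ∂Λ) =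
      ∫⁻ ω, (∫⁻ z in Q, ff m h z ω ^ 4 * ((ww ω)⁻¹) ^ 3) ∂Λ := by
    have a1 : Measurable fun q : (ℝ × ℝ) × (PP × PP) => ((ww q.2)⁻¹) ^ 3 :=
      ((ww_meas.comp measurable_snd).inv).pow_const 3
    have a2 : Measurable fun q : (ℝ × ℝ) × (PP × PP) => ff m h q.1 q.2 ^ 4 :=
      (ff_meas hm.1 hh.1).pow_const 4
    have a3 : Measurable (Function.uncurry fun (z : ℝ × ℝ) (ω : PP × PP) =>
      ff m h z ω ^ 4 * ((ww ω)⁻¹) ^ 3) := a2.mul a1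
    exact lintegral_lintegral_swap a3.aemeasurable
  have s3 : ∫⁻ ω, (∫⁻ z in Q, ff m h z ω ^ 4 * ((ww ω)⁻¹) ^ 3) ∂Λ ≤
      ∫⁻ ω, ww ω * (ENNReal.ofReal N * ∫⁻ z in Q, ‖h z‖ₑ ^ 4) ∂Λ := by
    refine lintegral_mono_ae ?_
    filter_upwards [hΛ4] with ω hω
    exact om_bound hm hh hN hω
  rw [lintegral_mul_const _ ww_meas] at s3
  rw [s2] at s1
  refine s1.trans ((mul_le_mul_right s3 _).trans (le_of_eq ?_))
  generalize ENNReal.ofReal N * ∫⁻ z in Q, ‖h z‖ₑ ^ 4 = T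
  ring

end Pool.Agent.H438R2.RZ.T1aux

namespace Pool.Agent.H438R2.RZ

open MeasureTheory Set Complex
open scoped ENNReal RealInnerProductSpace
open T1aux

theorem transp4 (κ₁ κ₂ : ℝ → ℂ) (h1 : Adm κ₁) (h2 : Adm κ₂) :
    ∃ C : ℝ, 0 < C ∧ ∀ m : ℝ × ℝ → ℂ, Good m → ∀ N : ℝ, 0 ≤ N →
      (∀ g : ℝ × ℝ → ℂ, Good g → ∫⁻ z, ‖Pl (Q.indicator m) g z‖ₑ ^ 4 ≤
        ENNReal.ofReal N * ∫⁻ z, ‖g z‖ₑ ^ 4) →
      ∀ h : ℝ × ℝ → ℂ, Good h → ∫⁻ z in Q, ‖A κ₁ κ₂ m h z‖ₑ ^ 4 ≤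
        ENNReal.ofReal (C * N) * ∫⁻ z in Q, ‖h z‖ₑ ^ 4 := by
  obtain ⟨ν₁, hf1, hz1, hi1, hr1⟩ := adm_rep h1
  obtain ⟨ν₂, hf2, hz2, hi2, hr2⟩ := adm_rep h2
  have hW := ww_int hi1 hi2
  have hΛz : ∀ᵐ p ∂(ν₁.prod ν₂), p.1.1 ≠ 0 ∧ p.2.1 ≠ 0 :=
    (Measure.quasiMeasurePreserving_fst.ae hz1).and (Measure.quasiMeasurePreserving_snd.ae hz2)
  have hΛ4 : ∀ᵐ ω ∂((ν₁.prod ν₂).prod (ν₁.prod ν₂)),
      (ω.1.1.1 ≠ 0 ∧ ω.1.2.1 ≠ 0) ∧ (ω.2.1.1 ≠ 0 ∧ ω.2.2.1 ≠ 0) :=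
    (Measure.quasiMeasurePreserving_fst.ae hΛz).and (Measure.quasiMeasurePreserving_snd.ae hΛz)
  refine ⟨((∫⁻ ω, ww ω ∂((ν₁.prod ν₂).prod (ν₁.prod ν₂))) ^ 4).toReal + 1, by positivity,
    fun m hm N hN0 hN h hh => ?_⟩
  have hb := main_bound _ hΛ4 hW hm hh hN
    (a := fun z => ‖A κ₁ κ₂ m h z‖ₑ ^ 4) (fun z hz => pt_bound hr1 hr2 hΛ4 hm hh hz)
  refine hb.trans ?_
  generalize (∫⁻ ω, ww ω ∂((ν₁.prod ν₂).prod (ν₁.prod ν₂))) = Wt at *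
  rw [ENNReal.ofReal_mul (by positivity), mul_assoc]
  refine mul_le_mul_left ?_ _
  rw [ENNReal.le_ofReal_iff_toReal_le (ENNReal.pow_ne_top hW) (by positivity)]
  linarith

end Pool.Agent.H438R2.RZ
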